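import Mathlib
import Pool.Agent.P.MP_7badbe_co.Defs

-- part Pool.Agent.P.MP_7badbe_co.Ex
section

set_option autoImplicit false

open Finset
open scoped BigOperators

namespace Pool.Agent.P.MP_7badbe_co

variable {V : Type} [Fintype V]

/-- expectation of a function of the multiset of `m` independent uniform points -/
noncomputable def Ex : ℕ → (Multiset V → ℝ) → ℝ
  | 0, F => F 0
  | m + 1, F => 𝔼 v, Ex m (fun M => F (v ::ₘ M))

open Classical in
/-- indicator -/
noncomputable def ind (P : Prop) : ℝ := if P then 1 else 0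

lemma ind_pos {P : Prop} (h : P) : ind P = 1 := by simp [ind, h]
lemma ind_neg {P : Prop} (h : ¬ P) : ind P = 0 := by simp [ind, h]
lemma ind_nonneg (P : Prop) : 0 ≤ ind P := by unfold ind; split_ifs <;> norm_num
lemma ind_le_one (P : Prop) : ind P ≤ 1 := by unfold ind; split_ifs <;> norm_num
lemma ind_not (P : Prop) : ind (¬ P) = 1 - ind P := by
  by_cases h : P <;> simp [ind, h]
lemma ind_and (P Q : Prop) : ind (P ∧ Q) = ind P * ind Q := by
  by_cases h : P <;> by_cases h' : Q <;> simp [ind, h, h']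
lemma ind_sq (P : Prop) : ind P ^ 2 = ind P := by
  by_cases h : P <;> simp [ind, h]
lemma ind_mono {P Q : Prop} (h : P → Q) : ind P ≤ ind Q := by
  by_cases hp : P
  · rw [ind_pos hp, ind_pos (h hp)]
  · rw [ind_neg hp]; exact ind_nonneg _
lemma ind_congr {P Q : Prop} (h : P ↔ Q) : ind P = ind Q := by rw [propext h]
lemma of_ind_pos {P : Prop} (h : 0 < ind P) : P := by
  by_contra hp; rw [ind_neg hp] at h; exact lt_irrefl _ h

@[simp] lemma Ex_zero (F : Multiset V → ℝ) : Ex 0 F = F 0 := rfl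
lemma Ex_succ (m : ℕ) (F : Multiset V → ℝ) :
    Ex (m + 1) F = 𝔼 v, Ex m (fun M => F (v ::ₘ M)) := rfl

lemma Ex_mono {m : ℕ} {F G : Multiset V → ℝ} (h : ∀ M, M.card = m → F M ≤ G M) :
    Ex m F ≤ Ex m G := by
  induction m generalizing F G with
  | zero => exact h 0 rfl
  | succ m ih =>
    exact expect_le_expect (fun v _ => ih (fun M hM => h _ (by simp [hM])))

lemma Ex_congr {m : ℕ} {F G : Multiset V → ℝ} (h : ∀ M, M.card = m → F M = G M) :
    Ex m F = Ex m G :=
  le_antisymm (Ex_mono fun M hM => (h M hM).le) (Ex_mono fun M hM => (h M hM).ge)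

lemma Ex_add (m : ℕ) (F G : Multiset V → ℝ) :
    Ex m (fun M => F M + G M) = Ex m F + Ex m G := by
  induction m generalizing F G with
  | zero => rfl
  | succ m ih => simp only [Ex_succ, ih, expect_add_distrib]

lemma Ex_mul (m : ℕ) (c : ℝ) (F : Multiset V → ℝ) :
    Ex m (fun M => c * F M) = c * Ex m F := by
  induction m generalizing F with
  | zero => rfl
  | succ m ih => simp only [Ex_succ, ih, mul_expect]

lemma Ex_mul' (m : ℕ) (c : ℝ) (F : Multiset V → ℝ) :
    Ex m (fun M => F M * c) = Ex m F * c := by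
  simp only [mul_comm _ c, Ex_mul]

lemma Ex_sub (m : ℕ) (F G : Multiset V → ℝ) :
    Ex m (fun M => F M - G M) = Ex m F - Ex m G := by
  induction m generalizing F G with
  | zero => rfl
  | succ m ih => simp only [Ex_succ, ih, expect_sub_distrib]

lemma Ex_expect {W : Type} (s : Finset W) (m : ℕ) (F : W → Multiset V → ℝ) :
    Ex m (fun M => 𝔼 w ∈ s, F w M) = 𝔼 w ∈ s, Ex m (F w) := by
  induction m generalizing F with
  | zero => rfl
  | succ m ih => simp only [Ex_succ, ih]; rw [expect_comm]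

lemma Ex_sum {W : Type} (s : Finset W) (m : ℕ) (F : W → Multiset V → ℝ) :
    Ex m (fun M => ∑ w ∈ s, F w M) = ∑ w ∈ s, Ex m (F w) := by
  induction m generalizing F with
  | zero => rfl
  | succ m ih => simp only [Ex_succ, ih]; rw [expect_sum_comm]

lemma Ex_comm (a b : ℕ) (F : Multiset V → Multiset V → ℝ) :
    Ex a (fun A => Ex b (fun B => F A B)) = Ex b (fun B => Ex a (fun A => F A B)) := by
  induction a generalizing F with
  | zero => rfl
  | succ a ih => simp only [Ex_succ, ih, Ex_expect]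

lemma Ex_split (a b : ℕ) (F : Multiset V → ℝ) :
    Ex (a + b) F = Ex a (fun A => Ex b (fun B => F (A + B))) := by
  induction a generalizing F with
  | zero => simp
  | succ a ih => rw [Nat.add_right_comm]; simp only [Ex_succ, ih, Multiset.cons_add]

lemma Ex_succ' (m : ℕ) (F : Multiset V → ℝ) :
    Ex (m + 1) F = Ex m (fun M => 𝔼 v, F (v ::ₘ M)) := by
  rw [Ex_succ, Ex_expect]

variable [Nonempty V]

@[simp] lemma Ex_const (m : ℕ) (c : ℝ) : Ex m (fun _ : Multiset V => c) = c := by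
  induction m with
  | zero => rfl
  | succ m ih => simp only [Ex_succ, ih]; exact expect_const univ_nonempty _

lemma Ex_nonneg {m : ℕ} {F : Multiset V → ℝ} (h : ∀ M, M.card = m → 0 ≤ F M) : 0 ≤ Ex m F := by
  simpa using Ex_mono (F := fun _ => 0) h

lemma Ex_le {m : ℕ} {F : Multiset V → ℝ} {c : ℝ} (h : ∀ M, M.card = m → F M ≤ c) :
    Ex m F ≤ c := by
  simpa using Ex_mono (G := fun _ => c) h

lemma exists_pos {m : ℕ} {F : Multiset V → ℝ} (h : 0 < Ex m F) :
    ∃ M : Multiset V, M.card = m ∧ 0 < F M := by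
  by_contra hc
  push Not at hc
  exact absurd (Ex_le hc) (not_le.2 h)

omit [Nonempty V] in
lemma Ex_all (m : ℕ) (P : V → Prop) :
    Ex m (fun M => ind (∀ t ∈ M, P t)) = (𝔼 v, ind (P v)) ^ m := by
  induction m with
  | zero => simp [ind]
  | succ m ih =>
    simp only [Ex_succ, Multiset.forall_mem_cons, ind_and, Ex_mul, ih]
    rw [← expect_mul, pow_succ']

lemma Ex_mapsum (m : ℕ) (h : V → ℝ) :
    Ex m (fun M => (M.map h).sum) = m * 𝔼 v, h v := by
  induction m with
  | zero => simp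
  | succ m ih =>
    simp only [Ex_succ, Multiset.map_cons, Multiset.sum_cons, Ex_add, Ex_const, ih,
      expect_add_distrib, expect_const univ_nonempty]
    push_cast; ring

lemma Ex_var (m : ℕ) (F : Multiset V → ℝ) (c : ℝ) :
    Ex m (fun M => (F M - c) ^ 2) = Ex m (fun M => F M ^ 2) - 2 * c * Ex m F + c ^ 2 := by
  have : (fun M => (F M - c) ^ 2) = fun M => (F M ^ 2 - (2 * c) * F M) + c ^ 2 := by
    funext M; ring
  rw [this, Ex_add, Ex_sub, Ex_mul, Ex_const]

lemma Ex_sq (m : ℕ) (F : Multiset V → ℝ) : (Ex m F) ^ 2 ≤ Ex m (fun M => F M ^ 2) := by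
  have h1 := Ex_var m F (Ex m F)
  have h2 : 0 ≤ Ex m (fun M => (F M - Ex m F) ^ 2) := Ex_nonneg (fun _ _ => sq_nonneg _)
  nlinarith

lemma av_var (f : V → ℝ) (c : ℝ) :
    𝔼 v, (f v - c) ^ 2 = 𝔼 v, f v ^ 2 - 2 * c * 𝔼 v, f v + c ^ 2 := by
  have : (fun v => (f v - c) ^ 2) = fun v => (f v ^ 2 - (2 * c) * f v) + c ^ 2 := by
    funext M; ring
  rw [this, expect_add_distrib, expect_sub_distrib, ← mul_expect, expect_const univ_nonempty]

lemma av_sq (f : V → ℝ) : (𝔼 v, f v) ^ 2 ≤ 𝔼 v, f v ^ 2 := by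
  have h1 := av_var f (𝔼 v, f v)
  have h2 : 0 ≤ 𝔼 v, (f v - 𝔼 v, f v) ^ 2 := expect_nonneg (fun _ _ => sq_nonneg _)
  nlinarith

/-- Efron-Stein inequality -/
lemma efron (m : ℕ) (F G : Multiset V → ℝ) :
    Ex (m + 1) (fun M => F M ^ 2) - (Ex (m + 1) F) ^ 2
      ≤ (m + 1) * 𝔼 v, Ex m (fun M => (F (v ::ₘ M) - G M) ^ 2) := by
  have key : ∀ (m : ℕ) (F G : Multiset V → ℝ),
      𝔼 v, (Ex m (fun M => F (v ::ₘ M))) ^ 2 - (Ex (m + 1) F) ^ 2
        ≤ 𝔼 v, Ex m (fun M => (F (v ::ₘ M) - G M) ^ 2) := by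
    intro m F G
    have h1 := av_var (fun v => Ex m (fun M => F (v ::ₘ M))) (Ex m G)
    have h2 : 𝔼 v, (Ex m (fun M => F (v ::ₘ M)) - Ex m G) ^ 2
        ≤ 𝔼 v, Ex m (fun M => (F (v ::ₘ M) - G M) ^ 2) := by
      refine expect_le_expect (fun v _ => ?_)
      rw [← Ex_sub]
      exact Ex_sq _ _
    rw [← Ex_succ] at h1
    nlinarith [sq_nonneg (Ex (m + 1) F - Ex m G)]
  induction m generalizing F G with
  | zero => simpa [Ex_succ] using key 0 F G
  | succ m ih =>
    have h1 := key (m + 1) F G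
    have h2 : 𝔼 v, (Ex (m + 1) (fun M => F (v ::ₘ M) ^ 2)
        - (Ex (m + 1) (fun M => F (v ::ₘ M))) ^ 2)
        ≤ 𝔼 v, ((m + 1) * 𝔼 u, Ex m (fun M => (F (v ::ₘ u ::ₘ M) - G (v ::ₘ M)) ^ 2)) :=
      expect_le_expect (fun v _ => ih (fun M => F (v ::ₘ M)) (fun M => G (v ::ₘ M)))
    rw [expect_sub_distrib, ← mul_expect, expect_comm, ← Ex_succ (m + 1) (fun M => F M ^ 2)] at h2
    have h3 : 𝔼 v, Ex (m + 1) (fun M => (F (v ::ₘ M) - G M) ^ 2)
        = 𝔼 u, 𝔼 v, Ex m (fun M => (F (v ::ₘ u ::ₘ M) - G (v ::ₘ M)) ^ 2) := by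
      refine expect_congr rfl (fun u _ => ?_)
      rw [Ex_succ]
      simp only [Multiset.cons_swap u]
    rw [← h3] at h2
    push_cast
    linarith

/-- the first-order part of a symmetric function is small -/
lemma hoeff (m : ℕ) (F : Multiset V → ℝ) :
    (m + 1) * (𝔼 v, (Ex m (fun M => F (v ::ₘ M))) ^ 2 - (Ex (m + 1) F) ^ 2)
      ≤ Ex (m + 1) (fun M => F M ^ 2) - (Ex (m + 1) F) ^ 2 := by
  induction m generalizing F with
  | zero => simp [Ex_succ]
  | succ m ih =>
    have h2 : 𝔼 v, ((m + 1) * (𝔼 u, (Ex m (fun M => F (v ::ₘ u ::ₘ M))) ^ 2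
        - (Ex (m + 1) (fun M => F (v ::ₘ M))) ^ 2))
        ≤ 𝔼 v, (Ex (m + 1) (fun M => F (v ::ₘ M) ^ 2)
        - (Ex (m + 1) (fun M => F (v ::ₘ M))) ^ 2) :=
      expect_le_expect (fun v _ => ih (fun M => F (v ::ₘ M)))
    rw [← mul_expect, expect_sub_distrib, expect_sub_distrib,
      ← Ex_succ (m + 1) (fun M => F M ^ 2)] at h2
    -- conditional variance dominates
    set φ : V → ℝ := fun v => Ex (m + 1) (fun M => F (v ::ₘ M)) with hφ
    set ψ : V → V → ℝ := fun v u => Ex m (fun M => F (v ::ₘ u ::ₘ M)) with hψ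
    have hs : ∀ v u, ψ v u = ψ u v := fun v u => by
      simp only [hψ, Multiset.cons_swap v u]
    have h1 : ∀ v, φ v = 𝔼 u, ψ v u := fun v => rfl
    have h0 : Ex (m + 1 + 1) F = 𝔼 v, φ v := rfl
    have h3 : 𝔼 u, (φ u - 𝔼 v, φ v) ^ 2 ≤ 𝔼 u, 𝔼 v, (ψ v u - φ v) ^ 2 := by
      refine expect_le_expect (fun u _ => ?_)
      have := av_sq (fun v => ψ v u - φ v)
      rw [expect_sub_distrib] at this
      simp only [hs _ u] at this ⊢
      rwa [← h1] at this
    rw [expect_comm, av_var] at h3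
    simp only [av_var, ← h1, expect_add_distrib, expect_sub_distrib] at h3
    have h4 : 𝔼 v, 2 * φ v * φ v = 2 * 𝔼 v, φ v ^ 2 := by
      rw [mul_expect]; exact expect_congr rfl (fun v _ => by ring)
    rw [h4] at h3
    rw [h0]
    push_cast
    have h5 : (0 : ℝ) ≤ m + 1 := by positivity
    nlinarith [mul_le_mul_of_nonneg_left h3 h5]

lemma hoeff_ind (m : ℕ) (g : Multiset V → Prop) {w : ℝ} (hw : Ex (m + 1) (fun M => ind (g M)) ≤ w) :
    𝔼 v, (Ex m (fun M => ind (g (v ::ₘ M)))) ^ 2 ≤ w ^ 2 + w / (m + 1) := by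
  have h1 := hoeff m (fun M => ind (g M))
  simp only [ind_sq] at h1
  have h0 : 0 ≤ Ex (m + 1) (fun M => ind (g M)) := Ex_nonneg (fun _ _ => ind_nonneg _)
  have h5 : (0 : ℝ) < m + 1 := by positivity
  have h2 : 𝔼 v, (Ex m (fun M => ind (g (v ::ₘ M)))) ^ 2 - Ex (m + 1) (fun M => ind (g M)) ^ 2
      ≤ w / (m + 1) := by
    rw [le_div_iff₀ h5]; nlinarith [sq_nonneg (Ex (m + 1) (fun M => ind (g M)))]
  nlinarith

lemma tangent {d W : ℝ} (r : ℕ) (hd : 0 ≤ d) (hd1 : d ≤ 1) (hW : 0 < W) (hW1 : 2 * W ≤ 1) :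
    (1 - 2 * W) ^ r * (1 - (2 * W)⁻¹ * d) ≤ (1 - d) ^ r := by
  have h0 : 0 ≤ (1 - 2 * W) ^ r := pow_nonneg (by linarith) _
  rcases le_total d (2 * W) with h | h
  · have h1 : (1 - 2 * W) ^ r ≤ (1 - d) ^ r := pow_le_pow_left₀ (by linarith) (by linarith) _
    have h2 : 0 ≤ (2 * W)⁻¹ * d := by positivity
    nlinarith
  · have h1 : 1 ≤ (2 * W)⁻¹ * d := by
      rw [← div_eq_inv_mul, le_div_iff₀ (by linarith)]; linarith
    have h2 : 0 ≤ (1 - d) ^ r := pow_nonneg (by linarith) _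
    nlinarith

/-- sum over all ways of splitting off a sub-multiset of size `r` -/
noncomputable def splitSum (r : ℕ) (Φ : Multiset V → Multiset V → ℝ) (M : Multiset V) : ℝ :=
  (M.antidiagonal.map (fun p => if p.1.card = r then Φ p.1 p.2 else 0)).sum

omit [Fintype V] [Nonempty V] in
lemma splitSum_zero_cons (Φ : Multiset V → Multiset V → ℝ) (v : V) (M : Multiset V) :
    splitSum 0 Φ (v ::ₘ M) = splitSum 0 (fun I J => Φ I (v ::ₘ J)) M := by
  simp [splitSum, Multiset.antidiagonal_cons, Multiset.map_map]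

omit [Fintype V] [Nonempty V] in
lemma splitSum_succ_cons (r : ℕ) (Φ : Multiset V → Multiset V → ℝ) (v : V) (M : Multiset V) :
    splitSum (r + 1) Φ (v ::ₘ M) = splitSum (r + 1) (fun I J => Φ I (v ::ₘ J)) M
      + splitSum r (fun I J => Φ (v ::ₘ I) J) M := by
  simp [splitSum, Multiset.antidiagonal_cons, Multiset.map_map]

omit [Nonempty V] in
lemma Ex_splitSum (m r : ℕ) (Φ : Multiset V → Multiset V → ℝ) :
    Ex m (splitSum r Φ) = m.choose r * Ex r (fun I => Ex (m - r) (fun J => Φ I J)) := by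
  induction m generalizing r Φ with
  | zero => cases r <;> simp [splitSum]
  | succ m ih =>
    cases r with
    | zero => simp [Ex_succ, splitSum_zero_cons, ih]
    | succ r =>
      simp only [Ex_succ (m := m), splitSum_succ_cons, Ex_add, ih, expect_add_distrib,
        ← mul_expect, Nat.choose_succ_succ', Nat.add_sub_add_right]
      rw [← Ex_succ r (fun I => Ex (m - r) (fun J => Φ I J))]
      push_cast
      rcases lt_or_ge m (r + 1) with h | h
      · rw [Nat.choose_eq_zero_of_lt h]; simp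
      · have h1 : m - r = (m - (r + 1)) + 1 := by omega
        rw [← Ex_expect]
        simp only [h1, Ex_succ (m - (r + 1))]
        ring

omit [Fintype V] [Nonempty V] in
lemma le_splitSum {r : ℕ} {Φ : Multiset V → Multiset V → ℝ} (h0 : ∀ I J, 0 ≤ Φ I J)
    (I J : Multiset V) (hI : I.card = r) : Φ I J ≤ splitSum r Φ (I + J) := by
  unfold splitSum
  have h1 : Φ I J = (fun p : Multiset V × Multiset V =>
      if p.1.card = r then Φ p.1 p.2 else 0) (I, J) := by simp [hI]
  rw [h1]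
  refine Multiset.single_le_sum (fun x hx => ?_) _
    (Multiset.mem_map_of_mem _ (Multiset.mem_antidiagonal.2 rfl))
  obtain ⟨p, _, rfl⟩ := Multiset.mem_map.1 hx
  split_ifs
  exacts [h0 _ _, le_rfl]

omit [Fintype V] [Nonempty V] in
lemma splitSum_nonneg {r : ℕ} {Φ : Multiset V → Multiset V → ℝ} (h0 : ∀ I J, 0 ≤ Φ I J)
    (M : Multiset V) : 0 ≤ splitSum r Φ M := by
  refine Multiset.sum_nonneg (fun x hx => ?_)
  obtain ⟨p, _, rfl⟩ := Multiset.mem_map.1 hx
  split_ifs
  exacts [h0 _ _, le_rfl]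

omit [Fintype V] [Nonempty V] in
lemma ind_le_mapsum (P : V → Prop) (M : Multiset V) :
    ind (∃ v ∈ M, P v) ≤ (M.map (fun v => ind (P v))).sum := by
  have h0 : ∀ x ∈ M.map (fun v => ind (P v)), (0 : ℝ) ≤ x := by
    intro x hx
    obtain ⟨p, _, rfl⟩ := Multiset.mem_map.1 hx
    exact ind_nonneg _
  by_cases h : ∃ v ∈ M, P v
  · obtain ⟨v, hv, hP⟩ := h
    refine (ind_le_one _).trans ?_
    rw [← ind_pos hP]
    exact Multiset.single_le_sum h0 _ (Multiset.mem_map_of_mem _ hv)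
  · rw [ind_neg h]
    exact Multiset.sum_nonneg h0

end Pool.Agent.P.MP_7badbe_co
end

-- part Pool.Agent.P.MP_7badbe_co.Lower1
section

set_option autoImplicit false

open Finset
open scoped BigOperators

namespace Pool.Agent.P.MP_7badbe_co

variable {V : Type} [Fintype V] [Nonempty V]

/-- `g` meets every copy of the configuration with `|S| = i`, `|T| = m` -/
def Hit {V : Type} (i m : ℕ) (g : Multiset V → Prop) : Prop :=
  ∀ S T : Multiset V, S.card = i → T.card = m →
    (∃ J ≤ T, i + J.card = m + 1 ∧ g (S + J)) ∨ ∃ s ∈ S, g (s ::ₘ T)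

lemma var_le (r : ℕ) (F : Multiset V → ℝ) (h : V → ℝ)
    (hh : ∀ v M, (F (v ::ₘ M) - F M) ^ 2 ≤ h v) :
    Ex r (fun M => (F M - Ex r F) ^ 2) ≤ r * 𝔼 v, h v := by
  cases r with
  | zero => simp
  | succ r =>
    have h1 := efron r F F
    have h2 : 𝔼 v, Ex r (fun M => (F (v ::ₘ M) - F M) ^ 2) ≤ 𝔼 v, h v :=
      expect_le_expect (fun v _ => Ex_le (fun M _ => hh v M))
    have h3 : (0 : ℝ) ≤ r + 1 := by positivity
    rw [Ex_var]
    push_cast
    nlinarith [mul_le_mul_of_nonneg_left h2 h3]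

lemma av_ind_le_one (P : V → Prop) : 𝔼 v, ind (P v) ≤ 1 :=
  expect_le univ_nonempty (fun _ _ => ind_le_one _)

omit [Nonempty V] in
lemma av_ind_nonneg (P : V → Prop) : 0 ≤ 𝔼 v, ind (P v) :=
  expect_nonneg (fun _ _ => ind_nonneg _)

lemma avoid (r n : ℕ) (P : V → Multiset V → Prop) {W B θ : ℝ} (hW : 0 < W) (hW1 : 2 * W ≤ 1)
    (h1 : Ex n (fun T => 𝔼 v, ind (P v T)) ≤ W)
    (h2 : 𝔼 v, (Ex n (fun T => ind (P v T))) ^ 2 ≤ B) (hθ0 : 0 < θ)
    (hθ : θ ≤ (1 - 2 * W) ^ r / 2) :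
    Ex r (fun M => ind (Ex n (fun T => ind (∀ s ∈ M, ¬ P s T)) ≤ θ / 2)) ≤ 4 * r * B / θ ^ 2 := by
  set U : Multiset V → ℝ := fun M => Ex n (fun T => ind (∀ s ∈ M, ¬ P s T)) with hU
  have hmean : θ ≤ Ex r U := by
    rw [hU, Ex_comm]
    simp only [Ex_all, ind_not, expect_sub_distrib, expect_const univ_nonempty]
    have h3 := Ex_mono (m := n) (fun T _ =>
      tangent r (av_ind_nonneg (fun v => P v T)) (av_ind_le_one (fun v => P v T)) hW hW1)
    rw [Ex_mul, Ex_sub, Ex_const, Ex_mul] at h3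
    have h4 : (2 * W)⁻¹ * Ex n (fun T => 𝔼 v, ind (P v T)) ≤ 1 / 2 := by
      rw [← div_eq_inv_mul, div_le_iff₀ (by linarith)]; linarith
    have h0 : 0 ≤ (1 - 2 * W) ^ r := pow_nonneg (by linarith) _
    nlinarith
  have hvar := var_le r U (fun v => (Ex n (fun T => ind (P v T))) ^ 2) (fun v M => by
    have h3 : U M - U (v ::ₘ M) ≤ Ex n (fun T => ind (P v T)) := by
      simp only [hU]
      rw [← Ex_sub]
      refine Ex_mono (fun T _ => ?_)
      rw [Multiset.forall_mem_cons, ind_and, ind_not]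
      nlinarith [ind_nonneg (P v T), ind_le_one (∀ s ∈ M, ¬ P s T)]
    have h4 : U (v ::ₘ M) ≤ U M :=
      Ex_mono (fun T _ => ind_mono (fun h s hs => h s (Multiset.mem_cons_of_mem hs)))
    nlinarith)
  have h5 : Ex r (fun M => ind (U M ≤ θ / 2))
      ≤ Ex r (fun M => 4 / θ ^ 2 * (U M - Ex r U) ^ 2) := by
    refine Ex_mono (fun M _ => ?_)
    by_cases h : U M ≤ θ / 2
    · rw [ind_pos h, div_mul_eq_mul_div, le_div_iff₀ (by positivity)]
      nlinarith
    · rw [ind_neg h]; positivity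
  rw [Ex_mul] at h5
  refine h5.trans ?_
  have h6 : (r : ℝ) * 𝔼 v, (Ex n (fun T => ind (P v T))) ^ 2 ≤ r * B :=
    mul_le_mul_of_nonneg_left h2 (by positivity)
  rw [div_mul_eq_mul_div]
  exact div_le_div_of_nonneg_right (by linarith) (by positivity)

lemma core_one (r q : ℕ) (g : Multiset V → Prop) (hg : Hit (r + q) (r + q) g) {δ θ : ℝ}
    (hδ : 0 < δ) (hδ1 : 8 * δ ≤ 1) (hE : Ex (r + q + 1) (fun M => ind (g M)) ≤ δ) (hθ0 : 0 < θ)
    (hθ : θ ≤ (1 - 8 * δ) ^ (r + q) / 2)
    (h1 : 4 * r * (δ ^ 2 + δ / (r + q + 1)) / θ ^ 2 < 3 / 4)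
    (h2 : 4 * (r + q) * ((4 * δ) ^ 2 + 4 * δ / (q + 1)) / θ ^ 2 + 2 * q / θ * δ < θ / 2) :
    False := by
  have hd : Ex (r + q) (fun T => 𝔼 v, ind (g (v ::ₘ T))) ≤ δ := by
    rwa [Ex_succ'] at hE
  have hθ' : θ ≤ (1 - 2 * (4 * δ)) ^ r / 2 := by
    refine hθ.trans ?_
    have := pow_le_pow_of_le_one (a := 1 - 8 * δ) (by linarith) (by linarith) (Nat.le_add_right r q)
    rw [show 2 * (4 * δ) = 8 * δ by ring]
    linarith
  have hA := avoid r (r + q) (fun s T => g (s ::ₘ T)) (W := 4 * δ) (by linarith) (by linarith)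
    (by linarith) (hoeff_ind _ g hE) hθ0 hθ'
  push_cast at hA
  obtain ⟨R, hR, hRp⟩ := exists_pos (m := r) (F := fun R =>
      1 - (4 * δ)⁻¹ * Ex (q + 1) (fun Q => ind (g (R + Q)))
      - ind (Ex (r + q) (fun T => ind (∀ s ∈ R, ¬ g (s ::ₘ T))) ≤ θ / 2)) (by
    rw [Ex_sub, Ex_sub, Ex_const, Ex_mul, ← Ex_split r (q + 1) (fun M => ind (g M))]
    have h4 : (4 * δ)⁻¹ * Ex (r + (q + 1)) (fun M => ind (g M)) ≤ 1 / 4 := by
      rw [← div_eq_inv_mul, div_le_iff₀ (by linarith), ← add_assoc]; linarith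
    linarith)
  have hw0 : 0 ≤ (4 * δ)⁻¹ * Ex (q + 1) (fun Q => ind (g (R + Q))) :=
    mul_nonneg (by positivity) (Ex_nonneg (fun _ _ => ind_nonneg _))
  have hw : Ex (q + 1) (fun Q => ind (g (R + Q))) ≤ 4 * δ := by
    have := ind_nonneg (Ex (r + q) (fun T => ind (∀ s ∈ R, ¬ g (s ::ₘ T))) ≤ θ / 2)
    have h5 : (4 * δ)⁻¹ * Ex (q + 1) (fun Q => ind (g (R + Q))) ≤ 1 := by linarith
    rwa [← div_eq_inv_mul, div_le_one (by linarith)] at h5
  have hu : θ / 2 < Ex (r + q) (fun T => ind (∀ s ∈ R, ¬ g (s ::ₘ T))) := by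
    by_contra hc
    rw [ind_pos (not_lt.1 hc)] at hRp
    linarith
  have hB := avoid (r + q) q (fun t Q => g (R + (t ::ₘ Q))) (W := 4 * δ) (by linarith)
    (by linarith) (by rwa [Ex_succ'] at hw) (hoeff_ind _ (fun Q => g (R + Q)) hw) hθ0
    (by rwa [show 2 * (4 * δ) = 8 * δ by ring])
  push_cast at hB
  obtain ⟨T, hT, hTp⟩ := exists_pos (m := r + q) (F := fun T =>
      ind (∀ s ∈ R, ¬ g (s ::ₘ T))
      - ind (Ex q (fun Q => ind (∀ t ∈ T, ¬ g (R + (t ::ₘ Q)))) ≤ θ / 2)
      - 2 * q / θ * 𝔼 v, ind (g (v ::ₘ T))) (by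
    rw [Ex_sub, Ex_sub, Ex_mul]
    have h4 : 2 * q / θ * Ex (r + q) (fun T => 𝔼 v, ind (g (v ::ₘ T))) ≤ 2 * q / θ * δ :=
      mul_le_mul_of_nonneg_left hd (by positivity)
    linarith)
  have hd0 : 0 ≤ 2 * q / θ * 𝔼 v, ind (g (v ::ₘ T)) :=
    mul_nonneg (by positivity) (av_ind_nonneg _)
  have hy0 := ind_nonneg (Ex q (fun Q => ind (∀ t ∈ T, ¬ g (R + (t ::ₘ Q)))) ≤ θ / 2)
  have hR1 := ind_le_one (∀ s ∈ R, ¬ g (s ::ₘ T))
  have hRT : ∀ s ∈ R, ¬ g (s ::ₘ T) := of_ind_pos (by linarith)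
  have hy : θ / 2 < Ex q (fun Q => ind (∀ t ∈ T, ¬ g (R + (t ::ₘ Q)))) := by
    by_contra hc
    rw [ind_pos (not_lt.1 hc)] at hTp
    linarith
  obtain ⟨Q, hQ, hQp⟩ := exists_pos (m := q) (F := fun Q =>
      ind (∀ t ∈ T, ¬ g (R + (t ::ₘ Q))) - (Q.map (fun s => ind (g (s ::ₘ T)))).sum) (by
    rw [Ex_sub, Ex_mapsum]
    have h5 : 2 * q / θ * 𝔼 v, ind (g (v ::ₘ T)) < 1 := by linarith
    rw [div_mul_eq_mul_div, div_lt_one hθ0] at h5
    linarith)
  have hQ1 := ind_le_mapsum (fun s => g (s ::ₘ T)) Q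
  have hQ2 := ind_nonneg (∃ s ∈ Q, g (s ::ₘ T))
  have hQ3 := ind_le_one (∀ t ∈ T, ¬ g (R + (t ::ₘ Q)))
  have hTQ : ∀ t ∈ T, ¬ g (R + (t ::ₘ Q)) := of_ind_pos (by linarith)
  rcases hg (R + Q) T (by simp [hR, hQ]) hT with ⟨J, hJ, hc, hJg⟩ | ⟨s, hs, hsg⟩
  · obtain ⟨t, rfl⟩ := Multiset.card_eq_one.1 (show J.card = 1 by omega)
    refine hTQ t (Multiset.singleton_le.1 hJ) ?_
    rwa [add_assoc, add_comm Q, Multiset.singleton_add] at hJg
  · rcases Multiset.mem_add.1 hs with h | h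
    · exact hRT s h hsg
    · rw [ind_pos ⟨s, h, hsg⟩] at hQ1
      linarith

lemma one_sub_pow_ge {x : ℝ} (hx0 : 0 ≤ x) (hx : 2 * x ≤ 1) (n : ℕ) :
    Real.exp (-(2 * x * n)) ≤ (1 - x) ^ n := by
  have h1 : Real.exp (-(2 * x)) ≤ 1 - x := by
    rw [Real.exp_neg, inv_le_comm₀ (Real.exp_pos _) (by linarith)]
    have h2 := Real.add_one_le_exp (2 * x)
    refine le_trans ?_ h2
    rw [inv_le_iff_one_le_mul₀ (by linarith)]
    nlinarith
  calc Real.exp (-(2 * x * n)) = Real.exp (-(2 * x)) ^ n := by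
        rw [← Real.exp_nat_mul]; congr 1; ring
    _ ≤ _ := pow_le_pow_left₀ (Real.exp_pos _).le h1 n

theorem lower_one (m : ℕ) (hm : 1 ≤ m) (g : Multiset V → Prop) (hg : Hit m m g) :
    1 / 10000 * Real.log (m + 1) / (m + 1) ≤ Ex (m + 1) (fun M => ind (g M)) := by
  by_contra hc
  have hE := (not_le.1 hc).le
  set q := Nat.sqrt (m + 1) with hq
  have hqm : q ≤ m := by
    have := Nat.sqrt_lt_self (show 1 < m + 1 by omega)
    omega
  obtain ⟨r, hr⟩ := Nat.exists_eq_add_of_le' hqm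
  set k : ℝ := m + 1 with hk
  have hm1 : (1 : ℝ) ≤ m := by exact_mod_cast hm
  have hk1 : 1 < k := by linarith
  set L := Real.log k with hL
  have hL0 : 0 < L := Real.log_pos hk1
  set z := Real.exp (L / 8) with hz
  have hz8 : z ^ 8 = k := by
    rw [hz, ← Real.exp_nat_mul, show ((8 : ℕ) : ℝ) * (L / 8) = L by push_cast; ring, hL,
      Real.exp_log (by linarith)]
  have hz1 : L / 8 + 1 ≤ z := Real.add_one_le_exp _
  have hz0 : 1 < z := by linarith
  have hq1 : (q : ℝ) ≤ z ^ 4 := by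
    have h1 : q ^ 2 ≤ m + 1 := Nat.sqrt_le' _
    have h2 : (q : ℝ) ^ 2 ≤ (z ^ 4) ^ 2 := by
      rw [← pow_mul, hz8, hk]; exact_mod_cast h1
    exact (pow_le_pow_iff_left₀ (by positivity) (by positivity) two_ne_zero).1 h2
  have hq2 : z ^ 4 ≤ (q : ℝ) + 1 := by
    have h1 : m + 1 < (q + 1) ^ 2 := Nat.lt_succ_sqrt' _
    have h2 : (z ^ 4) ^ 2 ≤ ((q : ℝ) + 1) ^ 2 := by
      rw [← pow_mul, hz8, hk]; exact_mod_cast h1.le
    exact (pow_le_pow_iff_left₀ (by positivity) (by positivity) two_ne_zero).1 h2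
  set δ := 1 / 10000 * L / k with hδ
  have hδ0 : 0 < δ := by positivity
  have hδk : δ * z ^ 8 = 1 / 10000 * L := by rw [hz8, hδ]; field_simp
  have hδz : δ * z ^ 7 ≤ 1 / 1000 := by
    have : δ * z ^ 7 * z ≤ 1 / 1000 * z := by nlinarith
    exact le_of_mul_le_mul_right this (by linarith)
  have hzp : ∀ n : ℕ, 1 ≤ z ^ n := fun n => one_le_pow₀ hz0.le
  have hδ1 : δ ≤ 1 / 1000 := by nlinarith [hzp 7]
  have hrq : (r : ℝ) + q + 1 = z ^ 8 := by rw [hz8, hk, hr]; push_cast; ring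
  have hr0 : (0 : ℝ) ≤ r := by positivity
  have hq0 : (0 : ℝ) ≤ q := by positivity
  refine core_one r q g (hr ▸ hg) (θ := 1 / (2 * z)) hδ0 (by linarith) (hr ▸ hE) (by positivity)
    ?_ ?_ ?_
  · have h1 := one_sub_pow_ge (x := 8 * δ) (by positivity) (by linarith) (r + q)
    have h2 : z⁻¹ ≤ Real.exp (-(2 * (8 * δ) * ((r + q : ℕ) : ℝ))) := by
      rw [hz, ← Real.exp_neg, Real.exp_le_exp]
      push_cast
      nlinarith
    rw [show 1 / (2 * z) = z⁻¹ / 2 by field_simp]
    linarith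
  · rw [hrq, div_lt_iff₀ (by positivity)]
    have h1 : (r : ℝ) * (δ ^ 2 + δ / z ^ 8) ≤ z ^ 8 * (δ ^ 2 + δ / z ^ 8) :=
      mul_le_mul_of_nonneg_right (by linarith) (by positivity)
    have h2 : z ^ 8 * (δ ^ 2 + δ / z ^ 8) * z ^ 2 = (δ * z ^ 5) ^ 2 + δ * z ^ 2 := by
      field_simp
    have h3 : δ * z ^ 5 ≤ 1 / 1000 := by
      have := pow_le_pow_right₀ hz0.le (show 5 ≤ 7 by norm_num); nlinarith
    have h4 : δ * z ^ 2 ≤ 1 / 1000 := by
      have := pow_le_pow_right₀ hz0.le (show 2 ≤ 7 by norm_num); nlinarith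
    have h5 : 0 ≤ δ * z ^ 5 := by positivity
    have h6 : z ^ 8 * (δ ^ 2 + δ / z ^ 8) * z ^ 2 < 3 / 64 := by nlinarith
    have h7 : z ^ 8 * (δ ^ 2 + δ / z ^ 8) < 3 / 64 / z ^ 2 := by
      rwa [lt_div_iff₀ (by positivity)]
    have h8 : 3 / 4 * (1 / (2 * z)) ^ 2 = 4 * (3 / 64 / z ^ 2) := by field_simp; norm_num
    rw [h8]
    linarith
  · have h1 : 4 * δ / (q + 1) ≤ 4 * δ / z ^ 4 := by gcongr
    have h2 : 4 * ((r : ℝ) + q) * ((4 * δ) ^ 2 + 4 * δ / (q + 1)) / (1 / (2 * z)) ^ 2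
        ≤ 4 * z ^ 8 * ((4 * δ) ^ 2 + 4 * δ / z ^ 4) / (1 / (2 * z)) ^ 2 := by
      gcongr; linarith
    have h3 : 2 * q / (1 / (2 * z)) * δ ≤ 2 * z ^ 4 / (1 / (2 * z)) * δ := by gcongr
    have h4 : (4 * z ^ 8 * ((4 * δ) ^ 2 + 4 * δ / z ^ 4) / (1 / (2 * z)) ^ 2
        + 2 * z ^ 4 / (1 / (2 * z)) * δ) * z
        = 256 * (δ * z ^ 7) * (δ * z ^ 4) + 64 * (δ * z ^ 7) + 4 * (δ * z ^ 6) := by
      field_simp; ring
    have h5 : δ * z ^ 4 ≤ 1 / 1000 := by
      have := pow_le_pow_right₀ hz0.le (show 4 ≤ 7 by norm_num); nlinarith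
    have h6 : δ * z ^ 6 ≤ 1 / 1000 := by
      have := pow_le_pow_right₀ hz0.le (show 6 ≤ 7 by norm_num); nlinarith
    have h7 : 0 ≤ δ * z ^ 4 := by positivity
    have h8 : 0 ≤ δ * z ^ 7 := by positivity
    have h9 : (4 * z ^ 8 * ((4 * δ) ^ 2 + 4 * δ / z ^ 4) / (1 / (2 * z)) ^ 2
        + 2 * z ^ 4 / (1 / (2 * z)) * δ) < 1 / 4 / z := by
      rw [lt_div_iff₀ (by linarith), h4]; nlinarith
    rw [show 1 / (2 * z) / 2 = 1 / 4 / z by field_simp; norm_num]
    linarith

end Pool.Agent.P.MP_7badbe_co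
end

-- part Pool.Agent.P.MP_7badbe_co.Lower2
section

set_option autoImplicit false

open Finset
open scoped BigOperators

namespace Pool.Agent.P.MP_7badbe_co

variable {V : Type} [Fintype V] [Nonempty V]

/-- no sub-multiset of size `j` satisfies `L` -/
def Indep {V : Type} (L : Multiset V → Prop) (j : ℕ) (T : Multiset V) : Prop :=
  ∀ J ≤ T, J.card = j → ¬ L J

omit [Fintype V] [Nonempty V] in
lemma indep_step (L : Multiset V → Prop) (j : ℕ) (v : V) (M : Multiset V) :
    ind (Indep L (j + 1) M)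
      - splitSum j (fun I J => ind (L (v ::ₘ I)) * ind (Indep L (j + 1) J)) M
      ≤ ind (Indep L (j + 1) (v ::ₘ M)) := by
  classical
  have h0 : ∀ I J, 0 ≤ ind (L (v ::ₘ I)) * ind (Indep L (j + 1) J) :=
    fun I J => mul_nonneg (ind_nonneg _) (ind_nonneg _)
  have h1 := splitSum_nonneg (r := j) h0 M
  by_cases hM : Indep L (j + 1) M
  · by_cases hv : Indep L (j + 1) (v ::ₘ M)
    · rw [ind_pos hM, ind_pos hv]; linarith
    · rw [ind_pos hM, ind_neg hv]
      unfold Indep at hv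
      push Not at hv
      obtain ⟨J, hJ, hc, hL⟩ := hv
      have hvJ : v ∈ J := by
        by_contra hn
        exact hM J ((Multiset.le_cons_of_notMem hn).1 hJ) hc hL
      obtain ⟨I, rfl⟩ := Multiset.exists_cons_of_mem hvJ
      obtain ⟨J', rfl⟩ := Multiset.le_iff_exists_add.1 ((Multiset.cons_le_cons_iff v).1 hJ)
      have h2 := le_splitSum (r := j) h0 I J' (by simpa using hc)
      rw [ind_pos hL, ind_pos (show Indep L (j + 1) J' from
        fun K hK => hM K (hK.trans (Multiset.le_add_left _ _)))] at h2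
      linarith
  · rw [ind_neg hM]
    linarith [ind_nonneg (Indep L (j + 1) (v ::ₘ M))]

lemma indep_ge (L : Multiset V → Prop) (j m : ℕ) {x : ℝ} (hx0 : 0 ≤ x) (hx : 2 * x ≤ 1)
    (hj : 1 / 2 ≤ (1 - 2 * x) ^ j)
    (hd : (m : ℝ) ^ j * Ex (j + 1) (fun J => ind (L J)) ≤ x) :
    (1 - 2 * x) ^ m ≤ Ex m (fun T => ind (Indep L (j + 1) T)) := by
  set a : ℕ → ℝ := fun n => Ex n (fun T => ind (Indep L (j + 1) T)) with ha
  have ha0 : ∀ n, 0 ≤ a n := fun n => Ex_nonneg (fun _ _ => ind_nonneg _)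
  have hd0 : 0 ≤ Ex (j + 1) (fun J => ind (L J)) := Ex_nonneg (fun _ _ => ind_nonneg _)
  have hrec : ∀ n ≤ m, a n - x * a (n - j) ≤ a (n + 1) := by
    intro n hn
    have h1 : 𝔼 v, Ex n (fun M => ind (Indep L (j + 1) M)
      - splitSum j (fun I J => ind (L (v ::ₘ I)) * ind (Indep L (j + 1) J)) M) ≤ a (n + 1) :=
      expect_le_expect (fun v _ => Ex_mono (fun M _ => indep_step L j v M))
    simp only [Ex_sub, Ex_splitSum, Ex_mul, Ex_mul', expect_sub_distrib,
      expect_const univ_nonempty, ← mul_expect, ← expect_mul] at h1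
    rw [← Ex_succ j (fun J => ind (L J))] at h1
    have h2 : (n.choose j : ℝ) ≤ (m : ℝ) ^ j := by
      exact_mod_cast (Nat.choose_le_pow n j).trans (Nat.pow_le_pow_left hn j)
    have h3 : (n.choose j : ℝ) * Ex (j + 1) (fun J => ind (L J)) ≤ x :=
      (mul_le_mul_of_nonneg_right h2 hd0).trans hd
    have h4 := mul_le_mul_of_nonneg_right h3 (ha0 (n - j))
    simp only [ha] at h4 ⊢
    nlinarith
  have hQ : ∀ n ≤ m, ∀ t, (1 - 2 * x) ^ t * a (n - t) ≤ a n := by
    intro n
    induction n with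
    | zero =>
      intro _ t
      rw [Nat.zero_sub]
      exact mul_le_of_le_one_left (ha0 0) (pow_le_one₀ (by linarith) (by linarith))
    | succ n ih =>
      intro hn t
      have h1 := hrec n (by omega)
      have h2 := ih (by omega) j
      have h3 : a (n - j) ≤ 2 * a n := by nlinarith [ha0 (n - j)]
      have h4 : (1 - 2 * x) * a n ≤ a (n + 1) := by nlinarith
      cases t with
      | zero => simp
      | succ t =>
        rw [Nat.add_sub_add_right, pow_succ', mul_assoc]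
        exact (mul_le_mul_of_nonneg_left (ih (by omega) t) (by linarith)).trans h4
  have h1 := hQ m le_rfl m
  have h2 : a 0 = 1 := ind_pos (fun J hJ hc => by
    rw [Multiset.le_zero.1 hJ] at hc; simp at hc)
  rwa [Nat.sub_self, h2, mul_one] at h1

lemma Ex_self_mapsum (i m : ℕ) (g : Multiset V → Prop) :
    Ex i (fun S => Ex m (fun T => (S.map (fun s => ind (g (s ::ₘ T)))).sum))
      = i * Ex (m + 1) (fun M => ind (g M)) := by
  rw [Ex_comm]
  simp only [Ex_mapsum, Ex_mul]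
  rw [Ex_succ']

theorem lower_two (i j m : ℕ) (hj : 1 ≤ j) (him : i + (j + 1) = m + 1) (g : Multiset V → Prop)
    (hg : Hit i m g) :
    1 / (100 * j) * Real.log (m + 1) / (m + 1) ^ (j + 1) ≤ Ex (m + 1) (fun M => ind (g M)) := by
  by_contra hc
  have hE := (not_le.1 hc).le
  set k : ℝ := m + 1 with hk
  have hj1 : (1 : ℝ) ≤ j := by exact_mod_cast hj
  have hm1 : (1 : ℝ) ≤ m := by exact_mod_cast (show 1 ≤ m by omega)
  have hk1 : 1 < k := by linarith
  have hik : (i : ℝ) ≤ k := by rw [hk]; exact_mod_cast (show i ≤ m + 1 by omega)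
  set L := Real.log k with hL
  have hL0 : 0 < L := Real.log_pos hk1
  set δ := 1 / (100 * j) * L / k ^ (j + 1) with hδ
  have hδ0 : 0 < δ := by positivity
  obtain ⟨S, hS, hSp⟩ := exists_pos (m := i) (F := fun S =>
      1 - (3 * δ)⁻¹ * Ex (j + 1) (fun J => ind (g (S + J)))
      - (3 * k * δ)⁻¹ * Ex m (fun T => (S.map (fun s => ind (g (s ::ₘ T)))).sum)) (by
    rw [Ex_sub, Ex_sub, Ex_const, Ex_mul, Ex_mul, ← Ex_split i (j + 1) (fun M => ind (g M)),
      Ex_self_mapsum, him]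
    have h0 : 0 ≤ Ex (m + 1) (fun M => ind (g M)) := Ex_nonneg (fun _ _ => ind_nonneg _)
    have h4 : (3 * δ)⁻¹ * Ex (m + 1) (fun M => ind (g M)) ≤ 1 / 3 := by
      rw [← div_eq_inv_mul, div_le_iff₀ (by linarith)]; linarith
    have h5 : (3 * k * δ)⁻¹ * (i * Ex (m + 1) (fun M => ind (g M))) ≤ 1 / 3 := by
      rw [← div_eq_inv_mul, div_le_iff₀ (by positivity)]
      nlinarith [mul_le_mul hik hE h0 (by linarith)]
    linarith)
  have hs0 : ∀ T : Multiset V, 0 ≤ (S.map (fun s => ind (g (s ::ₘ T)))).sum :=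
    fun T => (ind_nonneg _).trans (ind_le_mapsum _ S)
  have h1 : 0 ≤ (3 * δ)⁻¹ * Ex (j + 1) (fun J => ind (g (S + J))) :=
    mul_nonneg (by positivity) (Ex_nonneg (fun _ _ => ind_nonneg _))
  have h2 : 0 ≤ (3 * k * δ)⁻¹ * Ex m (fun T => (S.map (fun s => ind (g (s ::ₘ T)))).sum) :=
    mul_nonneg (by positivity) (Ex_nonneg (fun T _ => hs0 T))
  have h3 : Ex (j + 1) (fun J => ind (g (S + J))) ≤ 3 * δ := by
    have h5 : (3 * δ)⁻¹ * Ex (j + 1) (fun J => ind (g (S + J))) ≤ 1 := by linarith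
    rwa [← div_eq_inv_mul, div_le_one (by linarith)] at h5
  have h4 : Ex m (fun T => (S.map (fun s => ind (g (s ::ₘ T)))).sum) ≤ 3 * k * δ := by
    have h5 : (3 * k * δ)⁻¹ * Ex m (fun T => (S.map (fun s => ind (g (s ::ₘ T)))).sum) ≤ 1 := by
      linarith
    rwa [← div_eq_inv_mul, div_le_one (by positivity)] at h5
  set x := k ^ j * (3 * δ) with hx
  have hx0 : 0 ≤ x := by positivity
  have hxk : x * k * j = 3 / 100 * L := by rw [hx, hδ, pow_succ]; field_simp
  set z := Real.exp (L / 2) with hz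
  have hz2 : z ^ 2 = k := by
    rw [hz, ← Real.exp_nat_mul, show ((2 : ℕ) : ℝ) * (L / 2) = L by push_cast; ring, hL,
      Real.exp_log (by linarith)]
  have hz1 : L / 2 + 1 ≤ z := Real.add_one_le_exp _
  have hz0 : 1 < z := by linarith
  have hxj : x * j ≤ 1 / 10 := by
    have : x * j * k ≤ 1 / 10 * k := by nlinarith
    exact le_of_mul_le_mul_right this (by linarith)
  have hx1 : x ≤ 1 / 10 := by nlinarith
  have hxL : x * k ≤ 3 / 100 * L := by nlinarith [mul_nonneg hx0 (show 0 ≤ k by linarith)]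
  have h5 := indep_ge (fun J => g (S + J)) j m hx0 (by linarith) (by
    have := one_add_mul_le_pow (show (-2 : ℝ) ≤ -(2 * x) by linarith) j
    rw [← sub_eq_add_neg] at this
    linarith) (by
    refine mul_le_mul (pow_le_pow_left₀ (by linarith) (by linarith) _) h3
      (Ex_nonneg (fun _ _ => ind_nonneg _)) (by positivity))
  have h6 : Ex m (fun T => ind (Indep (fun J => g (S + J)) (j + 1) T))
      ≤ Ex m (fun T => (S.map (fun s => ind (g (s ::ₘ T)))).sum) := by
    refine Ex_mono (fun T hT => le_trans (ind_mono (fun hI => ?_)) (ind_le_mapsum _ S))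
    rcases hg S T hS hT with ⟨J, hJ, hc, hJg⟩ | h
    · exact absurd hJg (hI J hJ (by omega))
    · exact h
  have h7 := one_sub_pow_ge (x := 2 * x) (by linarith) (by linarith) m
  have h8 : z⁻¹ ≤ Real.exp (-(2 * (2 * x) * m)) := by
    rw [hz, ← Real.exp_neg, Real.exp_le_exp]
    nlinarith
  have h9 : 3 * k * δ * k ≤ x * k := by
    have : k ≤ k ^ j := le_self_pow₀ hk1.le (by omega)
    rw [hx]
    gcongr ?_ * k
    nlinarith
  have h10 : z⁻¹ * k ≤ 3 / 100 * L :=
    le_trans (mul_le_mul_of_nonneg_right (by linarith) (by linarith)) (h9.trans hxL)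
  rw [← hz2, show z⁻¹ * z ^ 2 = z by field_simp] at h10
  linarith

theorem lower_avg (i m : ℕ) (hi : i ≤ m + 1) (g : Multiset V → Prop) (hg : Hit i m g) :
    1 ≤ (m.choose (m + 1 - i) + i) * Ex (m + 1) (fun M => ind (g M)) := by
  have h1 : Ex i (fun _ : Multiset V => Ex m (fun _ : Multiset V => (1 : ℝ)))
      ≤ Ex i (fun S => Ex m (fun T => splitSum (m + 1 - i) (fun J _ => ind (g (S + J))) T
        + (S.map (fun s => ind (g (s ::ₘ T)))).sum)) := by
    refine Ex_mono (fun S hS => Ex_mono (fun T hT => ?_))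
    have h2 := splitSum_nonneg (r := m + 1 - i) (Φ := fun J _ => ind (g (S + J)))
      (fun _ _ => ind_nonneg _) T
    have h3 := ind_le_mapsum (fun s => g (s ::ₘ T)) S
    rcases hg S T hS hT with ⟨J, hJ, hc, hJg⟩ | h
    · obtain ⟨J', rfl⟩ := Multiset.le_iff_exists_add.1 hJ
      have h4 := le_splitSum (r := m + 1 - i) (Φ := fun J _ => ind (g (S + J)))
        (fun _ _ => ind_nonneg _) J J' (by omega)
      rw [ind_pos hJg] at h4
      linarith [ind_nonneg (∃ s ∈ S, g (s ::ₘ (J + J')))]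
    · rw [ind_pos h] at h3
      linarith
  simp only [Ex_const, Ex_add, Ex_splitSum, Ex_mul, Ex_self_mapsum] at h1
  rw [← Ex_split i (m + 1 - i) (fun M => ind (g M)), Nat.add_sub_cancel' hi] at h1
  linarith

end Pool.Agent.P.MP_7badbe_co
end

-- part Pool.Agent.P.MP_7badbe_co.Transfer
section

set_option autoImplicit false

open Finset Filter Topology
open scoped BigOperators

namespace Pool.Agent.P.MP_7badbe_co

lemma le_exF {k i n : ℕ} {H : Finset (Finset (Fin n))} (h1 : ∀ e ∈ H, e.card = k)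
    (h2 : IsFree k i H) : H.card ≤ exF k i n :=
  le_csSup ⟨Fintype.card (Finset (Fin n)), by rintro _ ⟨H, _, _, rfl⟩; exact card_le_univ H⟩
    ⟨H, h1, h2, rfl⟩

lemma exists_exF {m i : ℕ} (hi : 1 ≤ i) (n : ℕ) : ∃ H : Finset (Finset (Fin n)),
    (∀ e ∈ H, e.card = m + 1) ∧ IsFree (m + 1) i H ∧ H.card = exF (m + 1) i n := by
  refine Nat.sSup_mem (s := {c | ∃ H : Finset (Finset (Fin n)),
      (∀ e ∈ H, e.card = m + 1) ∧ IsFree (m + 1) i H ∧ H.card = c}) ⟨0, ∅, by simp, ?_, rfl⟩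
    ⟨Fintype.card (Finset (Fin n)), by rintro _ ⟨H, _, _, rfl⟩; exact card_le_univ H⟩
  rintro ⟨S, T, hd, hS, hT, h⟩
  obtain ⟨s, hs⟩ := card_pos.1 (show 0 < S.card by omega)
  have := h (insert s T) (insert_subset (mem_union_left _ hs) subset_union_right)
    (by rw [card_insert_of_notMem (disjoint_left.1 hd hs), hT]; simp)
    (Or.inr (subset_insert _ _))
  simp at this

lemma exF_step {m i : ℕ} (hi : 1 ≤ i) (n : ℕ) :
    exF (m + 1) i (n + 1) * (n - m) ≤ (n + 1) * exF (m + 1) i n := by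
  obtain ⟨H, h1, h2, h3⟩ := exists_exF (m := m) hi (n + 1)
  have h4 : ∀ v : Fin (n + 1), (H.filter (fun e => v ∉ e)).card ≤ exF (m + 1) i n := by
    intro v
    set H' : Finset (Finset (Fin n)) := univ.filter (fun e => e.map (Fin.succAboveEmb v) ∈ H)
      with hH'
    refine le_trans ?_ (le_exF (H := H') (fun e he => ?_) ?_)
    · refine card_le_card_of_surjOn (fun e => e.map (Fin.succAboveEmb v)) (fun e he => ?_)
      simp only [coe_filter, Set.mem_ofPred_eq] at he
      have h5 : (e.preimage (Fin.succAboveEmb v) (Fin.succAboveEmb v).injective.injOn).map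
          (Fin.succAboveEmb v) = e := by
        ext x
        simp only [Finset.mem_map, Finset.mem_preimage]
        constructor
        · rintro ⟨y, hy, rfl⟩; exact hy
        · intro hx
          obtain ⟨y, rfl⟩ := Fin.exists_succAbove_eq (x := x) (y := v) (by
            rintro rfl; exact he.2 hx)
          exact ⟨y, hx, rfl⟩
      exact ⟨_, by simp only [hH', coe_filter, Set.mem_ofPred_eq, h5]; exact ⟨mem_univ _, he.1⟩, h5⟩
    · simpa using h1 _ (mem_filter.1 he).2
    · rintro ⟨S, T, hd, hS, hT, h⟩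
      refine h2 ⟨S.map (Fin.succAboveEmb v), T.map (Fin.succAboveEmb v),
        (Finset.disjoint_map _).2 hd, by simpa using hS, by simpa using hT, fun e he hc hor => ?_⟩
      rw [← map_union] at he
      obtain ⟨e', he', rfl⟩ := subset_map_iff.1 he
      simp only [map_subset_map, card_map] at hc hor
      exact (mem_filter.1 (h e' he' hc hor)).2
  have h5 : ∑ v : Fin (n + 1), (H.filter (fun e => v ∉ e)).card = H.card * (n - m) := by
    simp only [card_filter]
    rw [sum_comm, ← smul_eq_mul, ← sum_const]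
    refine sum_congr rfl (fun e he => ?_)
    rw [← card_filter]
    have : univ.filter (fun v => v ∉ e) = eᶜ := by ext; simp
    rw [this, card_compl, h1 e he]
    simp
  rw [← h3, ← h5]
  refine (sum_le_sum (fun v _ => h4 v)).trans ?_
  simp

lemma exists_limit {m i : ℕ} (hi : 1 ≤ i) : ∃ p : ℝ,
    Tendsto (fun n : ℕ => (exF (m + 1) i n : ℝ) / n.choose (m + 1)) atTop (𝓝 p) := by
  refine ⟨_, Real.tendsto_atTop_csInf_of_antitoneOn_bddBelow_nat_Ici (k := m + 1) ?_ ?_⟩
  · refine antitoneOn_nat_Ici_of_succ_le (fun n hn => ?_)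
    have h1 : (0 : ℝ) < n.choose (m + 1) := by exact_mod_cast Nat.choose_pos hn
    have h2 : (0 : ℝ) < (n + 1).choose (m + 1) := by
      exact_mod_cast Nat.choose_pos (show m + 1 ≤ n + 1 by omega)
    rw [div_le_div_iff₀ h2 h1]
    have h3 := exF_step (m := m) hi n
    have h4 := Nat.choose_mul_succ_eq n (m + 1)
    rw [Nat.add_sub_add_right] at h4
    have h5 : exF (m + 1) i (n + 1) * n.choose (m + 1) * (n + 1)
        ≤ exF (m + 1) i n * (n + 1).choose (m + 1) * (n + 1) := by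
      rw [mul_assoc, h4]
      nlinarith [Nat.mul_le_mul_left ((n + 1).choose (m + 1)) h3]
    exact_mod_cast Nat.le_of_mul_le_mul_right h5 (Nat.succ_pos n)
  · exact ⟨0, by rintro _ ⟨n, _, rfl⟩; positivity⟩

lemma Ex_single {V : Type} [Fintype V] [Nonempty V] (k : ℕ) (e : Finset V) (he : e.card = k) :
    Ex k (fun M => ind (e.val = M)) = k.factorial / (Fintype.card V : ℝ) ^ k := by
  classical
  induction k generalizing e with
  | zero => simp [card_eq_zero.1 he, ind]
  | succ k ih =>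
    have h1 : ∀ v, Ex k (fun M => ind (e.val = v ::ₘ M))
        = if v ∈ e then k.factorial / (Fintype.card V : ℝ) ^ k else 0 := by
      intro v
      split_ifs with hv
      · rw [← ih (e.erase v) (by rw [card_erase_of_mem hv, he]; rfl)]
        refine Ex_congr (fun M _ => ind_congr ⟨fun h => ?_, fun h => ?_⟩)
        · rw [erase_val, h, Multiset.erase_cons_head]
        · rw [← h, erase_val, Multiset.cons_erase hv]
      · rw [← Ex_const (V := V) k 0]
        refine Ex_congr (fun M _ => ind_neg (fun h => hv ?_))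
        rw [← mem_val, h]; simp
    rw [Ex_succ]
    simp only [h1]
    rw [expect_eq_sum_div_card, sum_ite_mem, univ_inter, sum_const, he, card_univ, nsmul_eq_mul,
      Nat.factorial_succ, pow_succ]
    have : (Fintype.card V : ℝ) ≠ 0 := by positivity
    push_cast
    field_simp

lemma hit_of_free {m i n : ℕ} (hi : 1 ≤ i) (him : i ≤ m + 1) {H : Finset (Finset (Fin n))}
    (h2 : IsFree (m + 1) i H) : Hit i m (fun M => ¬ ∃ e ∈ H, e.val = M) := by
  intro S T hS hT
  by_contra hc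
  push Not at hc
  obtain ⟨hc1, hc2⟩ := hc
  obtain ⟨s, hs⟩ := Multiset.card_pos_iff_exists_mem.1 (show 0 < S.card by omega)
  have hT1 : ∀ s ∈ S, (s ::ₘ T).Nodup := fun s hs => by
    obtain ⟨e, _, he⟩ := hc2 s hs
    exact he ▸ e.nodup
  have hTn : T.Nodup := (Multiset.nodup_cons.1 (hT1 s hs)).2
  have hSn : S.Nodup := by
    obtain ⟨J, hJ, hJc⟩ := exists_subset_card_eq (s := (⟨T, hTn⟩ : Finset (Fin n)))
      (n := m + 1 - i) (by simp only [card_mk]; omega)
    obtain ⟨e, _, he⟩ := hc1 J.val (val_le_iff.2 hJ) (by rw [card_val]; omega)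
    exact Multiset.nodup_of_le (Multiset.le_add_right _ _) (he ▸ e.nodup)
  have hd : Disjoint (⟨S, hSn⟩ : Finset (Fin n)) ⟨T, hTn⟩ :=
    disjoint_left.2 (fun s hs => (Multiset.nodup_cons.1 (hT1 s hs)).1)
  refine h2 ⟨⟨S, hSn⟩, ⟨T, hTn⟩, hd, hS, hT, fun e he hce hor => ?_⟩
  rcases hor with h | h
  · have h3 : S + (e \ ⟨S, hSn⟩).val = e.val := by
      rw [sdiff_val, add_comm]
      exact Multiset.sub_add_cancel (val_le_iff.2 h)
    obtain ⟨e', he', h4⟩ := hc1 (e \ ⟨S, hSn⟩).val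
      ((val_le_iff (s₂ := ⟨T, hTn⟩)).2 (sdiff_le_iff.2 he)) (by
        rw [card_val, card_sdiff_of_subset h, hce, card_mk, hS]; omega)
    rw [h3, val_inj] at h4
    exact h4 ▸ he'
  · obtain ⟨s, hs⟩ := card_eq_one.1 (show (e \ ⟨T, hTn⟩).card = 1 by
      rw [card_sdiff_of_subset h, hce, card_mk, hT]; omega)
    have h5 : s ∈ e \ ⟨T, hTn⟩ := hs ▸ mem_singleton_self s
    have h6 : s ∈ S := by
      rcases mem_union.1 (he (mem_sdiff.1 h5).1) with h7 | h7
      · exact h7
      · exact absurd h7 (mem_sdiff.1 h5).2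
    obtain ⟨e', he', h4⟩ := hc2 s h6
    have h3 : s ::ₘ T = e.val := by
      have := Multiset.sub_add_cancel (val_le_iff.2 h)
      rw [← sdiff_val, hs] at this
      exact this
    rw [h3, val_inj] at h4
    exact h4 ▸ he'

theorem lower_transfer {m i : ℕ} (hi : 1 ≤ i) (him : i ≤ m + 1) {p c : ℝ}
    (hp : Tendsto (fun n : ℕ => (exF (m + 1) i n : ℝ) / n.choose (m + 1)) atTop (𝓝 p))
    (hc : ∀ (n : ℕ) (g : Multiset (Fin (n + 1)) → Prop), Hit i m g →
      c ≤ Ex (m + 1) (fun M => ind (g M))) : c ≤ 1 - p := by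
  have h1 : Tendsto (fun n : ℕ => (n.choose (m + 1) : ℝ) / ((n : ℝ) ^ (m + 1) / (m + 1).factorial))
      atTop (𝓝 1) :=
    (Asymptotics.isEquivalent_iff_tendsto_one (by
      filter_upwards [eventually_gt_atTop 0] with n hn
      positivity)).1 (isEquivalent_choose (m + 1))
  have h2 := (tendsto_const_nhds (x := (1 : ℝ))).sub (hp.mul h1)
  rw [mul_one] at h2
  refine ge_of_tendsto h2 ?_
  filter_upwards [eventually_ge_atTop (m + 1)] with n hn
  obtain ⟨n, rfl⟩ : ∃ n', n = n' + 1 := ⟨n - 1, by omega⟩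
  obtain ⟨H, h3, h4, h5⟩ := exists_exF (m := m) hi (n + 1)
  refine (hc n _ (hit_of_free hi him h4)).trans (le_of_eq ?_)
  have h6 : ∀ M : Multiset (Fin (n + 1)),
      ind (¬ ∃ e ∈ H, e.val = M) = 1 - ∑ e ∈ H, ind (e.val = M) := by
    intro M
    rw [ind_not]
    congr 1
    by_cases h : ∃ e ∈ H, e.val = M
    · obtain ⟨e, he, rfl⟩ := h
      rw [ind_pos ⟨e, he, rfl⟩, sum_eq_single_of_mem e he (fun e' _ hne =>
        ind_neg (fun h => hne (val_inj.1 h))), ind_pos rfl]
    · rw [ind_neg h]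
      exact (sum_eq_zero (fun e he => ind_neg (fun h' => h ⟨e, he, h'⟩))).symm
  simp only [h6]
  rw [Ex_sub, Ex_const, Ex_sum, sum_congr rfl (fun e he => Ex_single _ e (h3 e he)), sum_const,
    h5, nsmul_eq_mul, Fintype.card_fin]
  have h7 : (0 : ℝ) < (n + 1).choose (m + 1) := by exact_mod_cast Nat.choose_pos hn
  field_simp

theorem upper_transfer {m i : ℕ} {p c : ℝ}
    (hp : Tendsto (fun n : ℕ => (exF (m + 1) i n : ℝ) / n.choose (m + 1)) atTop (𝓝 p))
    (hc : ∀ n : ℕ, ∃ (Ω : Type) (_ : Fintype Ω) (_ : Nonempty Ω) (G : Ω → Finset (Fin n) → Prop),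
      (∀ ω S T, Disjoint S T → S.card = i → T.card = m →
        ∃ e ⊆ S ∪ T, e.card = m + 1 ∧ (S ⊆ e ∨ T ⊆ e) ∧ G ω e) ∧
      ∀ e : Finset (Fin n), e.card = m + 1 → 𝔼 ω, ind (G ω e) ≤ c) : 1 - p ≤ c := by
  classical
  rw [sub_le_comm]
  refine ge_of_tendsto hp ?_
  filter_upwards [eventually_ge_atTop (m + 1)] with n hn
  obtain ⟨Ω, _, _, G, h1, h2⟩ := hc n
  have h7 : (0 : ℝ) < n.choose (m + 1) := by exact_mod_cast Nat.choose_pos hn
  rw [le_div_iff₀ h7]
  have h3 : ∀ ω, ∑ e ∈ powersetCard (m + 1) (univ : Finset (Fin n)), (1 - ind (G ω e))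
      ≤ exF (m + 1) i n := by
    intro ω
    have h4 := le_exF (k := m + 1) (i := i)
      (H := (powersetCard (m + 1) univ).filter (fun e => ¬ G ω e))
      (fun e he => (mem_powersetCard.1 (mem_filter.1 he).1).2) (by
        rintro ⟨S, T, hd, hS, hT, h⟩
        obtain ⟨e, he, hc, hor, hG⟩ := h1 ω S T hd hS hT
        exact (mem_filter.1 (h e he hc hor)).2 hG)
    refine le_trans (le_of_eq ?_) (Nat.cast_le.2 h4)
    rw [card_filter]
    push_cast
    refine sum_congr rfl (fun e _ => ?_)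
    rw [← ind_not, ind]
    congr 1
  have h4 := expect_le univ_nonempty (fun ω _ => h3 ω)
  rw [expect_sum_comm] at h4
  refine le_trans ?_ h4
  have h5 : ∑ e ∈ powersetCard (m + 1) (univ : Finset (Fin n)), (1 - c)
      = (1 - c) * n.choose (m + 1) := by
    rw [sum_const, card_powersetCard, card_univ, Fintype.card_fin, nsmul_eq_mul, mul_comm]
  rw [← h5]
  refine sum_le_sum (fun e he => ?_)
  rw [expect_sub_distrib, expect_const univ_nonempty]
  linarith [h2 e (mem_powersetCard.1 he).2]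

end Pool.Agent.P.MP_7badbe_co
end

-- part Pool.Agent.P.MP_7badbe_co.Hash
section

set_option autoImplicit false

open Finset Filter Topology
open scoped BigOperators

namespace Pool.Agent.P.MP_7badbe_co

lemma expect_update {ι A : Type} [Fintype ι] [DecidableEq ι] [Fintype A] [Nonempty A] (a : ι)
    (Φ : (ι → A) → ℝ) : 𝔼 χ, Φ χ = 𝔼 v, 𝔼 χ, Φ (Function.update χ a v) := by
  have h1 : 𝔼 χ, Φ χ = 𝔼 p : A × (ι → A), Φ p.2 := by
    rw [← univ_product_univ, expect_product]
    simp [expect_const univ_nonempty]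
  have h2 : Function.Involutive
      (fun p : A × (ι → A) => (p.2 a, Function.update p.2 a p.1)) := by
    rintro ⟨v, χ⟩; simp
  rw [h1, ← expect_product' univ univ (fun v χ => Φ (Function.update χ a v)), univ_product_univ]
  exact (Fintype.expect_bijective _ h2.bijective _ _ (fun _ => rfl)).symm

lemma expect_map {ι A : Type} [Fintype ι] [DecidableEq ι] [Fintype A] [Nonempty A]
    (e : Finset ι) (F : Multiset A → ℝ) : 𝔼 χ : ι → A, F (e.val.map χ) = Ex e.card F := by
  induction e using Finset.induction_on generalizing F with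
  | empty => simp [expect_const univ_nonempty]
  | insert a e ha ih =>
    rw [expect_update a, card_insert_of_notMem ha, Ex_succ]
    refine expect_congr rfl (fun v _ => ?_)
    rw [← ih]
    refine expect_congr rfl (fun χ _ => ?_)
    rw [insert_val_of_notMem ha, Multiset.map_cons, Function.update_self]
    congr 2
    exact Multiset.map_congr rfl (fun x hx => Function.update_of_ne (by rintro rfl; exact ha hx) _ _)

lemma le_map_lift {α β : Type} (f : α → β) (T : Multiset α) (J : Multiset β) (h : J ≤ T.map f) :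
    ∃ J' ≤ T, J = J'.map f := by
  induction T using Quotient.inductionOn with
  | h T =>
    induction J using Quotient.inductionOn with
    | h J =>
      obtain ⟨l, hl, hs⟩ := Multiset.coe_le.1 h
      obtain ⟨l', h1, rfl⟩ := List.sublist_map_iff.1 hs
      exact ⟨l', Multiset.coe_le.2 h1.subperm, (Multiset.coe_eq_coe.2 hl).symm⟩

theorem label_transfer {m i : ℕ} {p : ℝ}
    (hp : Tendsto (fun n : ℕ => (exF (m + 1) i n : ℝ) / n.choose (m + 1)) atTop (𝓝 p))
    (A : Type) [Fintype A] [Nonempty A] (γ : Multiset A → Prop) (hγ : Hit i m γ) :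
    1 - p ≤ Ex (m + 1) (fun M => ind (γ M)) := by
  refine upper_transfer hp (fun n => ⟨Fin n → A, inferInstance, inferInstance,
    fun χ e => γ (e.val.map χ), fun χ S T hd hS hT => ?_, fun e he => ?_⟩)
  · rcases hγ (S.val.map χ) (T.val.map χ) (by simpa using hS) (by simpa using hT) with
      ⟨J, hJ, hc, hg⟩ | ⟨s, hs, hg⟩
    · obtain ⟨J', hJ', rfl⟩ := le_map_lift χ _ _ hJ
      set J'' : Finset (Fin n) := ⟨J', Multiset.nodup_of_le hJ' T.nodup⟩ with hJ''
      have h1 : J'' ⊆ T := val_le_iff.1 hJ'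
      have h2 : Disjoint S J'' := hd.mono_right h1
      refine ⟨S.disjUnion J'' h2, ?_, ?_, Or.inl ?_, ?_⟩
      · rw [disjUnion_eq_union]; exact union_subset_union_right h1
      · rw [card_disjUnion, hS]; simpa [hJ''] using hc
      · rw [disjUnion_eq_union]; exact subset_union_left
      · rwa [← Multiset.map_add] at hg
    · obtain ⟨s, hs', rfl⟩ := Multiset.mem_map.1 hs
      have h1 : s ∉ T := disjoint_left.1 hd hs'
      refine ⟨insert s T, insert_subset (mem_union_left _ hs') subset_union_right,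
        by rw [card_insert_of_notMem h1, hT], Or.inr (subset_insert _ _), ?_⟩
      show γ _
      rwa [insert_val_of_notMem h1, Multiset.map_cons]
  · rw [expect_map e (fun M => ind (γ M)), he]

variable {A : Type} [AddCommGroup A] [Fintype A]

open Classical in
/-- union of the translates of `B` by the elements of `M` -/
noncomputable def cov (B : Finset A) (M : Multiset A) : Finset A :=
  univ.filter (fun a => ∃ t ∈ M, a - t ∈ B)

open Classical in
/-- sums of `r` elements of `T` -/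
noncomputable def sums (r : ℕ) (T : Multiset A) : Finset A :=
  univ.filter (fun a => ∃ J ≤ T, J.card = r ∧ J.sum = a)

lemma cov_subset {r : ℕ} {T : Multiset A} {B : Finset A} (hB : B ⊆ sums r T) (M : Multiset A) :
    cov B M ⊆ sums (r + 1) (T + M) := by
  intro a ha
  simp only [cov, sums, mem_filter, mem_univ, true_and] at ha ⊢
  obtain ⟨t, ht, h⟩ := ha
  have := hB h
  simp only [sums, mem_filter, mem_univ, true_and] at this
  obtain ⟨J, hJ, hc, hs⟩ := this
  exact ⟨J + {t}, add_le_add hJ (Multiset.singleton_le.2 ht), by simp [hc], by simp [hs]⟩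

lemma av_mem (B : Finset A) (a : A) : 𝔼 t, ind (a - t ∈ B) = B.card / Fintype.card A := by
  classical
  rw [Fintype.expect_equiv (Equiv.subLeft a) (fun t => ind (a - t ∈ B)) (fun t => ind (t ∈ B))
    (fun _ => rfl),
    Fintype.expect_eq_sum_div_card]
  congr 1
  rw [sum_congr rfl (g := fun t => if t ∈ B then 1 else 0) (fun t _ => by
    by_cases h : t ∈ B <;> simp [ind, h])]
  simp

lemma growth [DecidableEq A] (B : Finset A) (hB : 0 < B.card) (s : ℕ) (U : Finset A)
    (h : 4 * (U.card + s * B.card) ≤ Fintype.card A) :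
    Ex s (fun M => (1 / 2 : ℝ) ^ (2 * (U ∪ cov B M).card / B.card))
      ≤ (3 / 4) ^ s * (1 / 2 : ℝ) ^ (2 * U.card / B.card) := by
  induction s generalizing U with
  | zero => simp [cov]
  | succ s ih =>
    set tr : A → Finset A := fun t => B.map (Equiv.addRight t).toEmbedding with htr
    have hmem : ∀ t a, a ∈ tr t ↔ a - t ∈ B := fun t a => by
      simp [htr, mem_map_equiv, sub_eq_add_neg]
    have hcard : ∀ t, (tr t).card = B.card := fun t => card_map _
    have h1 : ∀ t M, U ∪ cov B (t ::ₘ M) = (U ∪ tr t) ∪ cov B M := fun t M => by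
      ext a; simp [cov, hmem]
    have hB' : (0 : ℝ) < B.card := by exact_mod_cast hB
    have h2 : ∀ t, (1 / 2 : ℝ) ^ (2 * (U ∪ tr t).card / B.card)
        ≤ (1 / 2 : ℝ) ^ (2 * U.card / B.card)
          * (1 / 2 + (B.card : ℝ)⁻¹ * ∑ u ∈ U, ind (u - t ∈ B)) := by
      intro t
      have h3 : ∑ u ∈ U, ind (u - t ∈ B) = (U ∩ tr t).card := by
        rw [← filter_mem_eq_inter, card_filter]
        push_cast
        exact sum_congr rfl (fun u _ => by simp [ind, hmem])
      have h4 := card_union_add_card_inter U (tr t)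
      rw [hcard] at h4
      rw [h3]
      rcases le_total (2 * (U ∩ tr t).card) B.card with h5 | h5
      · have h6 : 2 * U.card / B.card + 1 ≤ 2 * (U ∪ tr t).card / B.card := by
          rw [← Nat.add_div_right _ hB]
          exact Nat.div_le_div_right (by omega)
        refine (pow_le_pow_of_le_one (by norm_num) (by norm_num) h6).trans ?_
        rw [pow_succ]
        gcongr
        have : 0 ≤ (B.card : ℝ)⁻¹ * (U ∩ tr t).card := by positivity
        linarith
      · have h6 : 2 * U.card / B.card ≤ 2 * (U ∪ tr t).card / B.card :=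
          Nat.div_le_div_right (Nat.mul_le_mul_left 2 (card_le_card subset_union_left))
        refine (pow_le_pow_of_le_one (by norm_num) (by norm_num) h6).trans ?_
        refine le_mul_of_one_le_right (by positivity) ?_
        have h7 : (B.card : ℝ) ≤ 2 * (U ∩ tr t).card := by exact_mod_cast h5
        have : 1 / 2 ≤ (B.card : ℝ)⁻¹ * (U ∩ tr t).card := by
          rw [← div_eq_inv_mul, le_div_iff₀ hB']; linarith
        linarith
    have h3 : Ex (s + 1) (fun M => (1 / 2 : ℝ) ^ (2 * (U ∪ cov B M).card / B.card))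
        ≤ 𝔼 t, (3 / 4) ^ s * ((1 / 2 : ℝ) ^ (2 * U.card / B.card)
          * (1 / 2 + (B.card : ℝ)⁻¹ * ∑ u ∈ U, ind (u - t ∈ B))) := by
      refine expect_le_expect (fun t _ => ?_)
      simp only [h1]
      refine (ih (U ∪ tr t) ?_).trans (mul_le_mul_of_nonneg_left (h2 t) (by positivity))
      have := card_union_le U (tr t)
      rw [hcard] at this
      nlinarith
    refine h3.trans ?_
    simp only [← mul_expect, expect_add_distrib, expect_const univ_nonempty, expect_sum_comm,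
      av_mem, sum_const, nsmul_eq_mul]
    have h4 : (0 : ℝ) < Fintype.card A := by exact_mod_cast Fintype.card_pos
    have h5 : (B.card : ℝ)⁻¹ * (U.card * (B.card / Fintype.card A)) ≤ 1 / 4 := by
      rw [show (B.card : ℝ)⁻¹ * (U.card * (B.card / Fintype.card A)) = U.card / Fintype.card A by
        field_simp, div_le_iff₀ h4]
      have : 4 * U.card ≤ Fintype.card A := by nlinarith
      have : (4 : ℝ) * U.card ≤ Fintype.card A := by exact_mod_cast this
      linarith
    rw [pow_succ, mul_assoc, mul_comm (3 / 4 : ℝ)]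
    gcongr
    linarith

lemma growth' (B : Finset A) (β : ℕ) (h : 64 * (β * B.card) ≤ Fintype.card A) :
    Ex (16 * β) (fun M => ind ((cov B M).card < β * B.card)) ≤ (1 / 16) ^ β := by
  classical
  rcases Nat.eq_zero_or_pos B.card with hB | hB
  · refine Ex_le (fun M _ => ?_)
    rw [ind_neg (by simp [hB])]; positivity
  have h1 := growth B hB (16 * β) ∅ (by simp; linarith)
  simp only [empty_union, card_empty, mul_zero, Nat.zero_div, pow_zero, mul_one] at h1
  have h2 : Ex (16 * β) (fun M => ind ((cov B M).card < β * B.card))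
      ≤ Ex (16 * β) (fun M => 4 ^ β * (1 / 2 : ℝ) ^ (2 * (cov B M).card / B.card)) := by
    refine Ex_mono (fun M _ => ?_)
    by_cases hM : (cov B M).card < β * B.card
    · rw [ind_pos hM]
      have h3 : 2 * (cov B M).card / B.card ≤ 2 * β :=
        Nat.div_le_of_le_mul (by nlinarith)
      have h4 := pow_le_pow_of_le_one (a := (1 / 2 : ℝ)) (by norm_num) (by norm_num) h3
      refine le_trans (le_of_eq ?_) (mul_le_mul_of_nonneg_left h4 (by positivity))
      rw [pow_mul, ← mul_pow]; norm_num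
    · rw [ind_neg hM]; positivity
  rw [Ex_mul] at h2
  refine h2.trans ((mul_le_mul_of_nonneg_left h1 (by positivity)).trans ?_)
  rw [pow_mul, ← mul_pow]
  exact pow_le_pow_left₀ (by positivity) (by norm_num) _

lemma sums_card (β r : ℕ) (hβ : 1 ≤ β) (h : 64 * β ^ r ≤ Fintype.card A) :
    Ex (r * (16 * β)) (fun T : Multiset A => ind ((sums r T).card < β ^ r))
      ≤ r * (1 / 16) ^ β := by
  induction r with
  | zero =>
    have : (0 : A) ∈ sums 0 (0 : Multiset A) := by simp [sums]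
    have := card_pos.2 ⟨_, this⟩
    simp only [zero_mul, Ex_zero, pow_zero, Nat.cast_zero]
    exact (ind_neg (by omega)).le
  | succ r ih =>
    have h1 := ih (le_trans (Nat.mul_le_mul_left _ (Nat.pow_le_pow_right hβ (Nat.le_succ r))) h)
    rw [Nat.succ_mul, Ex_split]
    have h2 : Ex (r * (16 * β)) (fun T : Multiset A => Ex (16 * β) (fun M =>
        ind ((sums (r + 1) (T + M)).card < β ^ (r + 1))))
        ≤ Ex (r * (16 * β)) (fun T : Multiset A =>
          ind ((sums r T).card < β ^ r) + (1 / 16) ^ β) := by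
      refine Ex_mono (fun T _ => ?_)
      by_cases hT : (sums r T).card < β ^ r
      · rw [ind_pos hT]
        exact (Ex_le (fun _ _ => ind_le_one _)).trans (le_add_of_nonneg_right (by positivity))
      · rw [ind_neg hT, zero_add]
        obtain ⟨B, hB, hBc⟩ := exists_subset_card_eq (not_lt.1 hT)
        refine le_trans (Ex_mono (fun M _ => ind_mono (fun hM => ?_)))
          (growth' B β (by rwa [hBc, ← pow_succ']))
        rw [hBc, ← pow_succ']
        exact lt_of_le_of_lt (card_le_card (cov_subset hB M)) hM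
    rw [Ex_add, Ex_const] at h2
    push_cast
    linarith

lemma miss_le (β r m : ℕ) (hβ : 1 ≤ β) (h : 64 * β ^ r ≤ Fintype.card A)
    (hm : (r + 1) * (16 * β) ≤ m) (a : A) :
    Ex m (fun T : Multiset A => ind (a ∉ sums (r + 1) T))
      ≤ r * (1 / 16) ^ β + (1 - (β : ℝ) ^ r / Fintype.card A) ^ (16 * β) := by
  obtain ⟨c, rfl⟩ := Nat.exists_eq_add_of_le hm
  rw [Nat.succ_mul, add_assoc, Ex_split]
  have h4 : (0 : ℝ) < Fintype.card A := by exact_mod_cast Fintype.card_pos
  have h5 : (0 : ℝ) ≤ 1 - (β : ℝ) ^ r / Fintype.card A := by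
    rw [sub_nonneg, div_le_one h4]
    exact_mod_cast (show β ^ r ≤ Fintype.card A by omega)
  have h2 : Ex (r * (16 * β)) (fun T : Multiset A => Ex (16 * β + c) (fun M =>
      ind (a ∉ sums (r + 1) (T + M))))
      ≤ Ex (r * (16 * β)) (fun T : Multiset A => ind ((sums r T).card < β ^ r)
        + (1 - (β : ℝ) ^ r / Fintype.card A) ^ (16 * β)) := by
    refine Ex_mono (fun T _ => ?_)
    by_cases hT : (sums r T).card < β ^ r
    · rw [ind_pos hT]
      exact (Ex_le (fun _ _ => ind_le_one _)).trans (le_add_of_nonneg_right (by positivity))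
    · rw [ind_neg hT, zero_add]
      obtain ⟨B, hB, hBc⟩ := exists_subset_card_eq (not_lt.1 hT)
      have h6 : Ex (16 * β + c) (fun M => ind (a ∉ sums (r + 1) (T + M)))
          ≤ Ex (16 * β + c) (fun M : Multiset A => ind (∀ t ∈ M, ¬ (a - t ∈ B))) := by
        refine Ex_mono (fun M _ => ind_mono (fun hM t ht hb => hM (cov_subset hB M ?_)))
        simp only [cov, mem_filter, mem_univ, true_and]
        exact ⟨t, ht, hb⟩
      rw [Ex_all] at h6
      simp only [ind_not (a - _ ∈ B), expect_sub_distrib, expect_const univ_nonempty, av_mem,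
        hBc] at h6
      push_cast at h6
      refine h6.trans (pow_le_pow_of_le_one h5 ?_ (Nat.le_add_right _ _))
      have : (0 : ℝ) ≤ (β : ℝ) ^ r / Fintype.card A := by positivity
      linarith
  rw [Ex_add, Ex_const] at h2
  linarith [sums_card (A := A) β r hβ h]

lemma Ex_sum_zero (m : ℕ) :
    Ex (m + 1) (fun M : Multiset A => ind (M.sum = 0)) = 1 / Fintype.card A := by
  rw [Ex_succ', ← Ex_const (V := A) m (1 / Fintype.card A)]
  refine Ex_congr (fun M _ => ?_)
  have := av_mem ({M.sum} : Finset A) 0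
  simp only [card_singleton, Nat.cast_one] at this
  rw [← this]
  refine expect_congr rfl (fun v _ => ind_congr ?_)
  rw [Multiset.sum_cons, mem_singleton, zero_sub, neg_eq_iff_add_eq_zero]

lemma hash_bound (i j m : ℕ) (hi : 1 ≤ i) (him : i + j = m + 1) {η : ℝ}
    (h : ∀ a : A, Ex m (fun T : Multiset A => ind (a ∉ sums j T)) ≤ η) :
    ∃ γ : Multiset A → Prop, Hit i m γ ∧
      Ex (m + 1) (fun M => ind (γ M)) ≤ 1 / Fintype.card A + (m + 1) * (Fintype.card A * η) := by
  refine ⟨fun M => M.sum = 0 ∨ ∃ s T, M = s ::ₘ T ∧ ∃ a, a ∉ sums j T, fun S T hS hT => ?_, ?_⟩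
  · by_cases hc : ∃ a, a ∉ sums j T
    · obtain ⟨s, hs⟩ := Multiset.card_pos_iff_exists_mem.1 (show 0 < S.card by omega)
      exact Or.inr ⟨s, hs, Or.inr ⟨s, T, rfl, hc⟩⟩
    · push Not at hc
      have := hc (-S.sum)
      simp only [sums, mem_filter, mem_univ, true_and] at this
      obtain ⟨J, hJ, hJc, hJs⟩ := this
      exact Or.inl ⟨J, hJ, by omega, Or.inl (by simp [hJs])⟩
  · have h0 : ∀ I T : Multiset A, 0 ≤ (fun _ T => ∑ a, ind (a ∉ sums j T)) I T :=
      fun _ T => sum_nonneg (fun _ _ => ind_nonneg _)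
    have h1 : Ex (m + 1) (fun M : Multiset A =>
        ind (M.sum = 0 ∨ ∃ s T, M = s ::ₘ T ∧ ∃ a, a ∉ sums j T))
        ≤ Ex (m + 1) (fun M : Multiset A => ind (M.sum = 0)
          + splitSum 1 (fun _ T => ∑ a : A, ind (a ∉ sums j T)) M) := by
      refine Ex_mono (fun M _ => ?_)
      have h2 := splitSum_nonneg (r := 1) h0 M
      by_cases hM : M.sum = 0 ∨ ∃ s T, M = s ::ₘ T ∧ ∃ a, a ∉ sums j T
      · rw [ind_pos hM]
        rcases hM with hM | ⟨s, T, rfl, a, ha⟩
        · rw [ind_pos hM]; linarith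
        · have h3 := le_splitSum (r := 1) h0 {s} T rfl
          have h4 : ind (a ∉ sums j T) ≤ ∑ a, ind (a ∉ sums j T) :=
            single_le_sum (f := fun a => ind (a ∉ sums j T)) (fun _ _ => ind_nonneg _) (mem_univ a)
          rw [ind_pos ha] at h4
          rw [Multiset.singleton_add] at h3
          linarith [ind_nonneg ((s ::ₘ T).sum = 0)]
      · rw [ind_neg hM]
        linarith [ind_nonneg (M.sum = 0)]
    rw [Ex_add, Ex_sum_zero, Ex_splitSum, Ex_const, Ex_sum, Nat.choose_one_right,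
      Nat.add_sub_cancel] at h1
    refine h1.trans ?_
    push_cast
    gcongr
    refine (sum_le_sum (fun a _ => h a)).trans ?_
    simp

theorem upper_codim (j : ℕ) (hj : 1 ≤ j) : ∃ C : ℝ, ∀ᶠ m : ℕ in atTop, ∀ p : ℝ,
    Tendsto (fun n : ℕ => (exF (m + 1) (m + 1 - j) n : ℝ) / n.choose (m + 1)) atTop (𝓝 p) →
    1 - p ≤ C * Real.log (m + 1) / (m + 1) ^ j := by
  obtain ⟨r, rfl⟩ : ∃ r, j = r + 1 := ⟨j - 1, by omega⟩
  set D : ℝ := 2 * r + 3 with hD
  have hD0 : 0 < D := by positivity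
  set E : ℝ := 32 * (r + 1) with hE
  have hE0 : 0 < E := by positivity
  refine ⟨2 * D * E ^ (r + 1) + 2, ?_⟩
  have hlog : ∀ᶠ m : ℕ in atTop, Real.log (m + 1) ≤ (128 * D * E)⁻¹ * (m + 1) := by
    have h1 := (Real.isLittleO_log_id_atTop.bound (show 0 < (128 * D * E)⁻¹ by positivity))
    have h2 : Tendsto (fun m : ℕ => (m : ℝ) + 1) atTop atTop :=
      tendsto_atTop_add_const_right _ _ tendsto_natCast_atTop_atTop
    filter_upwards [h2.eventually h1] with m hm
    rw [id, Real.norm_of_nonneg (show (0 : ℝ) ≤ m + 1 by positivity)] at hm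
    exact (le_abs_self _).trans hm
  filter_upwards [hlog, eventually_ge_atTop (32 * (r + 1) + 2)] with m hm1 hm2 p hp
  set k : ℝ := m + 1 with hk
  have hm3 : 32 * ((r : ℝ) + 1) + 2 ≤ m := by exact_mod_cast hm2
  have hr0 : (0 : ℝ) ≤ r := by positivity
  set L := Real.log k with hL
  have hL1 : 1 ≤ L := by
    rw [hL, Real.le_log_iff_exp_le (by linarith)]
    linarith [Real.exp_one_lt_d9]
  set β := m / (16 * (r + 1)) with hβ
  have hβ1 : (r + 1) * (16 * β) ≤ m := by
    have := Nat.div_mul_le_self m (16 * (r + 1))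
    nlinarith
  have hβ2 : k ≤ E * β := by
    have h1 : m < 16 * (r + 1) * (β + 1) := Nat.lt_mul_div_succ m (by omega)
    have h2 : (m : ℝ) + 1 ≤ 16 * (r + 1) * (β + 1) := by exact_mod_cast h1
    nlinarith
  have hβ3 : 128 * D * L ≤ β := by
    rw [← div_eq_inv_mul, le_div_iff₀ (by positivity)] at hm1
    have : E * (128 * D * L) ≤ E * β := by nlinarith
    exact le_of_mul_le_mul_left this hE0
  have hβ4 : (1 : ℝ) ≤ β := by nlinarith
  have hβk : (β : ℝ) ≤ k := by
    have : β ≤ m := Nat.div_le_self _ _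
    have : (β : ℝ) ≤ m := by exact_mod_cast this
    linarith
  have hDL : 1 ≤ D * L := by nlinarith
  set N := ⌊(β : ℝ) ^ (r + 1) / (D * L)⌋₊ with hN
  have hN1 : (N : ℝ) ≤ (β : ℝ) ^ (r + 1) / (D * L) := Nat.floor_le (by positivity)
  have hN2 : (β : ℝ) ^ (r + 1) / (D * L) < N + 1 := Nat.lt_floor_add_one _
  have hβr : (1 : ℝ) ≤ (β : ℝ) ^ r := one_le_pow₀ hβ4
  have hN3 : 128 * (β : ℝ) ^ r ≤ (β : ℝ) ^ (r + 1) / (D * L) := by
    rw [le_div_iff₀ (by positivity), pow_succ]; nlinarith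
  have hN4 : 64 * (β : ℝ) ^ r ≤ N := by linarith
  have hN0 : (0 : ℝ) < N := by linarith
  have : NeZero N := ⟨by exact_mod_cast hN0.ne'⟩
  have hk0 : 0 < k := by linarith
  have hexp : Real.exp (-(D * L)) = (k ^ (2 * r + 3))⁻¹ := by
    rw [Real.exp_neg, hD, show (2 * (r : ℝ) + 3) = ((2 * r + 3 : ℕ) : ℝ) by push_cast; ring,
      Real.exp_nat_mul, hL, Real.exp_log hk0]
  obtain ⟨γ, h1, h2⟩ := hash_bound (A := ZMod N) (m + 1 - (r + 1)) (r + 1) m (by omega) (by omega)
    (η := 2 * (k ^ (2 * r + 3))⁻¹) (fun a => by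
      refine (miss_le β r m (by exact_mod_cast hβ4)
        (by rw [ZMod.card]; exact_mod_cast hN4) hβ1 a).trans ?_
      rw [ZMod.card, ← hexp]
      have h3 : (1 - (β : ℝ) ^ r / N) ^ (16 * β) ≤ Real.exp (-(D * L)) := by
        have h4 : (0 : ℝ) ≤ 1 - (β : ℝ) ^ r / N := by
          rw [sub_nonneg, div_le_one hN0]; linarith
        refine (pow_le_pow_left₀ h4 (Real.one_sub_le_exp_neg _) _).trans ?_
        rw [← Real.exp_nat_mul, Real.exp_le_exp]
        rw [le_div_iff₀ (by positivity), pow_succ] at hN1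
        have h5 : D * L ≤ β * ((β : ℝ) ^ r / N) := by
          rw [← mul_div_assoc, le_div_iff₀ hN0]; linarith
        push_cast
        nlinarith
      have h4 : (r : ℝ) * (1 / 16) ^ β ≤ Real.exp (-(D * L)) := by
        have h5 : (1 / 16 : ℝ) ≤ Real.exp (-1) := by
          rw [Real.exp_neg, one_div]
          exact inv_anti₀ (Real.exp_pos _) (by linarith [Real.exp_one_lt_d9])
        have h6 : (1 / 16 : ℝ) ^ β ≤ Real.exp (-(D * L) + -L) := by
          refine (pow_le_pow_left₀ (by norm_num) h5 _).trans ?_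
          rw [← Real.exp_nat_mul, Real.exp_le_exp]
          nlinarith
        rw [Real.exp_add, Real.exp_neg L, hL, Real.exp_log hk0, ← hL] at h6
        have h7 : (r : ℝ) * k⁻¹ ≤ 1 := by
          rw [← div_eq_mul_inv, div_le_one hk0]; linarith
        calc (r : ℝ) * (1 / 16) ^ β ≤ r * (Real.exp (-(D * L)) * k⁻¹) := by gcongr
          _ = Real.exp (-(D * L)) * (r * k⁻¹) := by ring
          _ ≤ _ := mul_le_of_le_one_right (Real.exp_pos _).le h7
      linarith)
  refine (label_transfer hp (ZMod N) γ h1).trans (h2.trans ?_)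
  rw [ZMod.card, ← hk]
  have h3 : (1 : ℝ) / N ≤ 2 * D * E ^ (r + 1) * L / k ^ (r + 1) := by
    rw [div_le_div_iff₀ hN0 (by positivity), one_mul]
    have h4 : k ^ (r + 1) ≤ E ^ (r + 1) * (β : ℝ) ^ (r + 1) := by
      rw [← mul_pow]; exact pow_le_pow_left₀ hk0.le hβ2 _
    have h5 : (β : ℝ) ^ (r + 1) ≤ 2 * N * (D * L) := by
      rw [div_lt_iff₀ (by positivity)] at hN2
      nlinarith
    have h6 : (0 : ℝ) < E ^ (r + 1) := by positivity
    nlinarith [mul_le_mul_of_nonneg_left h5 h6.le]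
  have h4 : k * (N * (2 * (k ^ (2 * r + 3))⁻¹)) ≤ 2 * L / k ^ (r + 1) := by
    have h5 : (N : ℝ) ≤ k ^ (r + 1) :=
      hN1.trans ((div_le_self (by positivity) hDL).trans (pow_le_pow_left₀ (by positivity) hβk _))
    calc k * (N * (2 * (k ^ (2 * r + 3))⁻¹)) ≤ k * (k ^ (r + 1) * (2 * (k ^ (2 * r + 3))⁻¹)) := by
          gcongr
      _ = 2 * 1 / k ^ (r + 1) := by field_simp; ring
      _ ≤ _ := by gcongr
  rw [add_mul (2 * D * E ^ (r + 1)), add_div]
  linarith

end Pool.Agent.P.MP_7badbe_co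
end
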