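import Pool.Agent.K.MP_7badbe_co.C0

-- part Pool.Agent.P.MP_7badbe_co.Turan
section

set_option autoImplicit false

open Finset Filter Topology
open scoped BigOperators

namespace Pool.Agent.P.MP_7badbe_co

/-- a random Turan system on lists with all marginals at most `p` -/
def RT (V : Type) (r R : ℕ) (p : ℝ) : Prop :=
  ∃ (Ω : Type) (_ : Fintype Ω) (_ : Nonempty Ω) (G : Ω → List V → Prop),
    (∀ ω (X : List V), X.Nodup → X.length = r + R → ∃ e, e.Sublist X ∧ e.length = r ∧ G ω e) ∧
    ∀ e : List V, e.Nodup → e.length = r → 𝔼 ω, ind (G ω e) ≤ p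

lemma RT.mono {V : Type} {r R : ℕ} {p q : ℝ} (h : RT V r R p) (hpq : p ≤ q) : RT V r R q := by
  obtain ⟨Ω, _, _, G, h1, h2⟩ := h
  exact ⟨Ω, inferInstance, inferInstance, G, h1, fun e he hl => (h2 e he hl).trans hpq⟩

lemma RT_one (V : Type) (r R : ℕ) : RT V r R 1 :=
  ⟨Unit, inferInstance, inferInstance, fun _ _ => True,
    fun _ X _ hX => ⟨X.take r, List.take_sublist _ _, by simp [hX], trivial⟩,
    fun _ _ _ => av_ind_le_one _⟩

lemma av_zero (M : ℕ) [NeZero M] : 𝔼 v : Fin M, ind (v = 0) = 1 / M := by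
  rw [Fintype.expect_eq_sum_div_card, sum_eq_single 0 (fun b _ hb => ind_neg hb) (by simp),
    ind_pos rfl, Fintype.card_fin]

lemma RT_step {V : Type} [Fintype V] [DecidableEq V] {a s R : ℕ} {p : ℝ} (M : ℕ) [NeZero M]
    (h : RT V s R p) :
    RT V (a + R + s) R (1 / M + (1 - 1 / M) ^ ((a + R).choose a) * p) := by
  obtain ⟨Ω, _, _, G, h1, h2⟩ := h
  refine ⟨(Finset V → Fin M) × Ω, inferInstance, inferInstance, fun ω e =>
    ω.1 (e.take a).toFinset = 0 ∨
      ((∀ Z ∈ powersetCard a (e.take (a + R)).toFinset, ¬ ω.1 Z = 0) ∧ G ω.2 (e.drop (a + R))),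
    ?_, ?_⟩
  · rintro ⟨c, ω⟩ X hX hl
    have hY : (X.take (a + R)).length = a + R := by simp [hl]; omega
    by_cases hb : ∀ Z ∈ powersetCard a (X.take (a + R)).toFinset, ¬ c Z = 0
    · obtain ⟨e, he, hel, hG⟩ := h1 ω (X.drop (a + R)) (hX.sublist (List.drop_sublist _ _))
        (by simp [hl]; omega)
      refine ⟨X.take (a + R) ++ e, ?_, by simp only [List.length_append, hY, hel], Or.inr ?_⟩
      · conv_rhs => rw [← List.take_append_drop (a + R) X]
        exact List.Sublist.append_left he _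
      · rw [List.take_left' hY, List.drop_left' hY]
        exact ⟨hb, hG⟩
    · push Not at hb
      obtain ⟨Z, hZ, hc⟩ := hb
      obtain ⟨hZ1, hZ2⟩ := mem_powersetCard.1 hZ
      have h3 : ((X.take (a + R)).filter (fun x => x ∈ Z)).toFinset = Z := by
        ext x
        simp only [List.mem_toFinset, List.mem_filter, decide_eq_true_eq]
        exact ⟨fun h => h.2, fun h => ⟨List.mem_toFinset.1 (hZ1 h), h⟩⟩
      have h4 : ((X.take (a + R)).filter (fun x => x ∈ Z)).length = a := by
        rw [← List.toFinset_card_of_nodup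
          ((hX.sublist (List.take_sublist _ _)).filter _), h3, hZ2]
      refine ⟨(X.take (a + R)).filter (fun x => x ∈ Z) ++ X.drop (a + R), ?_, ?_, Or.inl ?_⟩
      · conv_rhs => rw [← List.take_append_drop (a + R) X]
        exact List.Sublist.append_right List.filter_sublist _
      · simp only [List.length_append, h4, List.length_drop, hl]; omega
      · rw [List.take_left' h4, h3]; exact hc
  · intro e he hl
    have hY : (e.take (a + R)).length = a + R := by simp [hl]
    have h3 : ∀ ω : (Finset V → Fin M) × Ω, ind (ω.1 (e.take a).toFinset = 0 ∨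
        ((∀ Z ∈ powersetCard a (e.take (a + R)).toFinset, ¬ ω.1 Z = 0) ∧ G ω.2 (e.drop (a + R))))
        ≤ ind (ω.1 (e.take a).toFinset = 0) +
        ind (∀ Z ∈ powersetCard a (e.take (a + R)).toFinset, ¬ ω.1 Z = 0)
          * ind (G ω.2 (e.drop (a + R))) := by
      intro ω
      rw [← ind_and]
      by_cases h4 : ω.1 (e.take a).toFinset = 0
      · rw [ind_pos h4]
        exact (ind_le_one _).trans (le_add_of_nonneg_right (ind_nonneg _))
      · rw [ind_neg h4, zero_add]
        exact ind_mono (fun h => h.resolve_left h4)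
    refine (expect_le_expect (fun ω _ => h3 ω)).trans ?_
    rw [← univ_product_univ, expect_product]
    simp only [expect_add_distrib, expect_const univ_nonempty, ← mul_expect, ← expect_mul]
    have h4 : 𝔼 c : Finset V → Fin M, ind (c (e.take a).toFinset = 0) = 1 / M := by
      rw [expect_update (e.take a).toFinset]
      simp only [Function.update_self, expect_const univ_nonempty, av_zero]
    have h5 := expect_map (A := Fin M) (powersetCard a (e.take (a + R)).toFinset)
      (fun T => ind (∀ t ∈ T, ¬ t = 0))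
    rw [Ex_all, card_powersetCard,
      List.toFinset_card_of_nodup (he.sublist (List.take_sublist _ _)), hY] at h5
    simp only [Multiset.forall_mem_map_iff, mem_val, ind_not (_ = (0 : Fin M)), expect_sub_distrib,
      expect_const univ_nonempty, av_zero] at h5
    rw [h4, h5]
    have h6 : (0 : ℝ) ≤ 1 - 1 / M := by
      rw [sub_nonneg, div_le_one (by exact_mod_cast NeZero.pos M)]
      exact_mod_cast NeZero.one_le
    gcongr
    exact h2 _ (he.sublist (List.drop_sublist _ _)) (by simp [hl])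

theorem RT_bound (R : ℕ) : ∃ K : ℝ, 0 < K ∧ ∀ (V : Type) [Fintype V] [DecidableEq V] (r : ℕ),
    RT V r R (K / ((r : ℝ) + 1) ^ R) := by
  set D : ℝ := 4 * (R + 1) * R.factorial * 4 ^ R with hD
  have hD0 : 0 < D := by positivity
  obtain ⟨r₀, hr₀⟩ : ∃ r₀ : ℕ, 4 * R + 1 ≤ r₀ ∧ (R = 0 ∨ D ≤ r₀) :=
    ⟨max (4 * R + 1) ⌈D⌉₊, le_max_left _ _,
      Or.inr ((Nat.le_ceil D).trans (by exact_mod_cast le_max_right _ _))⟩
  rcases Nat.eq_zero_or_pos R with rfl | hR
  · exact ⟨1, one_pos, fun V _ _ r => by simpa using RT_one V r 0⟩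
  have hD1 : D ≤ r₀ := hr₀.2.resolve_left hR.ne'
  set K : ℝ := D + ((r₀ : ℝ) + 1) ^ R with hK
  have hK0 : 0 < K := by positivity
  refine ⟨K, hK0, fun V _ _ r => ?_⟩
  induction r using Nat.strong_induction_on with
  | h r ih =>
    rcases lt_or_ge r r₀ with hr | hr
    · refine (RT_one V r R).mono ?_
      rw [le_div_iff₀ (by positivity), one_mul]
      have : ((r : ℝ) + 1) ^ R ≤ ((r₀ : ℝ) + 1) ^ R := by
        gcongr
      linarith
    · obtain ⟨a, ha⟩ : ∃ a, r = a + R + r / 2 := ⟨r - R - r / 2, by omega⟩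
      set C := (a + R).choose a with hC
      have hC1 : ((r : ℝ) + 1) ^ R ≤ R.factorial * 4 ^ R * C := by
        have h1 := Nat.pow_le_choose (α := ℝ) R (a + R)
        rw [← Nat.choose_symm_add, ← hC, div_le_iff₀ (by positivity)] at h1
        have h2 : (r : ℝ) + 1 ≤ 4 * ((a + R + 1 - R : ℕ) : ℝ) := by
          exact_mod_cast (show r + 1 ≤ 4 * (a + R + 1 - R) by omega)
        calc ((r : ℝ) + 1) ^ R ≤ (4 * ((a + R + 1 - R : ℕ) : ℝ)) ^ R := by gcongr
          _ = 4 ^ R * ((a + R + 1 - R : ℕ) : ℝ) ^ R := mul_pow _ _ _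
          _ ≤ 4 ^ R * (C * R.factorial) := by gcongr
          _ = _ := by ring
      have hF : (0 : ℝ) < R.factorial * 4 ^ R := by positivity
      have hC2 : 4 * ((R : ℝ) + 1) ≤ C := by
        have h1 : (r : ℝ) + 1 ≤ ((r : ℝ) + 1) ^ R :=
          le_self_pow₀ (by linarith [Nat.cast_nonneg (α := ℝ) r]) hR.ne'
        have h2 : (r₀ : ℝ) ≤ r := by exact_mod_cast hr
        have h3 : R.factorial * 4 ^ R * (4 * ((R : ℝ) + 1)) ≤ R.factorial * 4 ^ R * C := by
          nlinarith
        exact le_of_mul_le_mul_left h3 hF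
      set M := C / (R + 1) with hM
      have hM1 : (M : ℝ) * (R + 1) ≤ C := by exact_mod_cast Nat.div_mul_le_self C (R + 1)
      have hM2 : (C : ℝ) < (R + 1) * (M + 1) := by
        exact_mod_cast Nat.lt_mul_div_succ C (Nat.succ_pos R)
      have hR0 : (0 : ℝ) < R + 1 := by positivity
      have hM3 : (1 : ℝ) ≤ M := by nlinarith
      have : NeZero M := ⟨by exact_mod_cast (show (M : ℝ) ≠ 0 by linarith)⟩
      have h1 := RT_step (a := a) M (ih (r / 2) (by omega))
      rw [← ha, ← hC] at h1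
      refine h1.mono ?_
      have h2 : (1 : ℝ) / M ≤ K / 2 / ((r : ℝ) + 1) ^ R := by
        rw [div_le_div_iff₀ (by linarith) (by positivity), one_mul]
        have h3 : (C : ℝ) ≤ 2 * (R + 1) * M := by nlinarith
        have h4 : D / 2 * M ≤ K / 2 * M := by
          gcongr
          exact le_add_of_nonneg_right (by positivity)
        nlinarith [mul_le_mul_of_nonneg_left h3 hF.le]
      have h3 : (1 - (1 : ℝ) / M) ^ C ≤ (1 / 2) ^ (R + 1) := by
        have h4 : (0 : ℝ) ≤ 1 - 1 / M := by
          rw [sub_nonneg, div_le_one (by linarith)]; exact hM3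
        refine (pow_le_pow_left₀ h4 (Real.one_sub_le_exp_neg _) _).trans ?_
        have h5 : Real.exp (-1) ≤ 1 / 2 := by
          rw [Real.exp_neg, one_div]
          exact inv_anti₀ two_pos (by linarith [Real.exp_one_gt_d9])
        refine le_trans ?_ (pow_le_pow_left₀ (Real.exp_pos _).le h5 _)
        rw [← Real.exp_nat_mul, ← Real.exp_nat_mul, Real.exp_le_exp]
        have h6 : (R : ℝ) + 1 ≤ C * (1 / M) := by
          rw [mul_one_div, le_div_iff₀ (by linarith)]; linarith
        push_cast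
        linarith
      have h4 : K / (((r / 2 : ℕ) : ℝ) + 1) ^ R ≤ 2 ^ R * (K / ((r : ℝ) + 1) ^ R) := by
        rw [← mul_div_assoc, div_le_div_iff₀ (by positivity) (by positivity)]
        have h5 : (r : ℝ) + 1 ≤ 2 * (((r / 2 : ℕ) : ℝ) + 1) := by
          exact_mod_cast (show r + 1 ≤ 2 * (r / 2 + 1) by omega)
        calc K * ((r : ℝ) + 1) ^ R ≤ K * (2 * (((r / 2 : ℕ) : ℝ) + 1)) ^ R := by gcongr
          _ = _ := by rw [mul_pow]; ring
      have h5 : (1 - (1 : ℝ) / M) ^ C * (K / (((r / 2 : ℕ) : ℝ) + 1) ^ R)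
          ≤ (1 / 2) ^ (R + 1) * (2 ^ R * (K / ((r : ℝ) + 1) ^ R)) :=
        mul_le_mul h3 h4 (by positivity) (by positivity)
      rw [← mul_assoc, show (1 / 2 : ℝ) ^ (R + 1) * 2 ^ R = 1 / 2 by
        rw [pow_succ, one_div, inv_pow]; field_simp] at h5
      rw [div_right_comm] at h2
      linarith

lemma exists_block {V : Type} (P : V → Bool) (l i : ℕ) (W : List V) (h1 : W.countP P ≤ i)
    (h2 : (i + 1) * l ≤ W.length) :
    ∃ b ≤ i, ∃ W₁ B W₂ : List V, W = W₁ ++ B ++ W₂ ∧ W₁.length = b * l ∧ B.length = l ∧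
      ∀ x ∈ B, P x = false := by
  induction i generalizing W with
  | zero =>
    refine ⟨0, le_rfl, [], W.take l, W.drop l, by simp, by simp, by simpa using h2, fun x hx => ?_⟩
    simpa using List.countP_eq_zero.1 (Nat.le_zero.1 h1) x (List.mem_of_mem_take hx)
  | succ i ih =>
    have hl : (W.take l).length = l := by
      rw [List.length_take]; exact min_eq_left (by nlinarith)
    by_cases h : ∀ x ∈ W.take l, P x = false
    · exact ⟨0, Nat.zero_le _, [], W.take l, W.drop l, by simp, by simp, hl, h⟩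
    · have h3 : 0 < (W.take l).countP P := by
        rw [List.countP_pos_iff]
        push Not at h
        simpa using h
      have h4 : W.countP P = (W.take l).countP P + (W.drop l).countP P := by
        rw [← List.countP_append, List.take_append_drop]
      obtain ⟨b, hb, W₁, B, W₂, h5, h6, h7, h8⟩ := ih (W.drop l) (by omega)
        (by rw [List.length_drop]; exact Nat.le_sub_of_add_le (by nlinarith))
      refine ⟨b + 1, by omega, W.take l ++ W₁, B, W₂, ?_, ?_, h7, h8⟩
      · rw [List.append_assoc, List.append_assoc, ← List.append_assoc W₁, ← h5,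
          List.take_append_drop]
      · rw [List.length_append, hl, h6]; ring

theorem upper_fixed {m R r : ℕ} {p q : ℝ} (hr : (R + 2) * (r + R) ≤ m + 1)
    (hp : Tendsto (fun n : ℕ => (exF (m + 1) (R + 1) n : ℝ) / n.choose (m + 1)) atTop (𝓝 p))
    (h : ∀ n, RT (Fin n) r R q) : 1 - p ≤ (R + 2) * q := by
  refine upper_transfer hp (fun n => ?_)
  obtain ⟨Ω, _, _, G, h1, h2⟩ := h n
  refine ⟨Ω, inferInstance, inferInstance, fun ω e => ∃ b ∈ range (R + 2),
    G ω (((e.sort (· ≤ ·)).drop (b * (r + R))).take r), fun ω S T hd hS hT => ?_, fun e he => ?_⟩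
  · set W := (S ∪ T).sort (· ≤ ·) with hW
    have hWl : W.length = R + 1 + m := by
      rw [hW, length_sort, card_union_of_disjoint hd, hS, hT]
    have hWn : W.Nodup := sort_nodup _ _
    have hWs : W.Pairwise (· ≤ ·) := pairwise_sort _ _
    obtain ⟨b, hb, W₁, B, W₂, h3, h4, h5, h6⟩ := exists_block (fun x => x ∈ S) (r + R) (R + 1) W
      (by
        rw [List.countP_eq_length_filter, ← List.toFinset_card_of_nodup (hWn.filter _), ← hS]
        refine card_le_card (fun x hx => ?_)
        simpa using (List.mem_filter.1 (List.mem_toFinset.1 hx)).2)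
      (by rw [hWl]; nlinarith)
    obtain ⟨e, he, hel, hG⟩ := h1 ω B (hWn.sublist (h3 ▸
      (List.sublist_append_right W₁ B).trans (List.sublist_append_left _ _))) h5
    have h7 : (W₁ ++ e ++ W₂).Sublist W := h3 ▸ ((he.append_left W₁).append_right W₂)
    have h8 := hWn.sublist h7
    refine ⟨(W₁ ++ e ++ W₂).toFinset, fun x hx => ?_, ?_, Or.inl (fun x hx => ?_), b,
      mem_range.2 (by omega), ?_⟩
    · exact (mem_sort (· ≤ ·)).1 (h7.subset (List.mem_toFinset.1 hx))
    · rw [List.toFinset_card_of_nodup h8]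
      rw [h3] at hWl
      simp only [List.length_append] at hWl ⊢
      omega
    · have h9 : x ∈ W := (mem_sort (· ≤ ·)).2 (mem_union_left _ hx)
      rw [h3] at h9
      simp only [List.mem_toFinset, List.mem_append] at h9 ⊢
      rcases h9 with (h9 | h9) | h9
      · exact Or.inl (Or.inl h9)
      · exact absurd (h6 x h9) (by simpa using hx)
      · exact Or.inr h9
    · rw [(List.toFinset_sort (· ≤ ·) h8).2 (hWs.sublist h7), List.append_assoc,
        List.drop_left' h4, List.take_left' hel]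
      exact hG
  · have h3 : ∀ ω, ind (∃ b ∈ range (R + 2),
        G ω (((e.sort (· ≤ ·)).drop (b * (r + R))).take r))
        ≤ ∑ b ∈ range (R + 2), ind (G ω (((e.sort (· ≤ ·)).drop (b * (r + R))).take r)) :=
      fun ω => ind_le_mapsum _ (range (R + 2)).val
    refine (expect_le_expect (fun ω _ => h3 ω)).trans ?_
    rw [expect_sum_comm]
    refine (sum_le_sum (fun b hb => h2 _ ((sort_nodup _ _).sublist
      ((List.take_sublist _ _).trans (List.drop_sublist _ _))) ?_)).trans (by simp)
    have := mem_range.1 hb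
    rw [List.length_take, List.length_drop, length_sort, he]
    exact min_eq_left (Nat.le_sub_of_add_le (by nlinarith))

theorem fixed (i : ℕ) (hi : 1 ≤ i) : ∃ c C : ℝ, 0 < c ∧ ∃ k₀ : ℕ, ∀ k ≥ k₀, ∃ p : ℝ,
    Tendsto (fun n : ℕ => (exF k i n : ℝ) / n.choose k) atTop (𝓝 p) ∧
    c / (k : ℝ) ^ (i - 1) ≤ 1 - p ∧ 1 - p ≤ C / (k : ℝ) ^ (i - 1) := by
  obtain ⟨R, rfl⟩ : ∃ R, i = R + 1 := ⟨i - 1, by omega⟩
  obtain ⟨K, hK0, hK⟩ := RT_bound R
  refine ⟨1 / (R + 2), (R + 2) * (K * (2 * (R + 2)) ^ R), by positivity,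
    (R + 2) * (2 * R + 1), fun k hk => ?_⟩
  obtain ⟨m, rfl⟩ : ∃ m, k = m + 1 := ⟨k - 1, by
    have : 0 < k := lt_of_lt_of_le (by positivity) hk
    omega⟩
  obtain ⟨p, hp⟩ := exists_limit (m := m) (i := R + 1) hi
  have hRm : R + 1 ≤ m + 1 := by nlinarith
  have hk1 : (1 : ℝ) ≤ ((m : ℝ) + 1) ^ R := one_le_pow₀ (by linarith [Nat.cast_nonneg (α := ℝ) m])
  rw [Nat.add_sub_cancel]
  push_cast
  refine ⟨p, hp, lower_transfer hi hRm hp (fun n g hg => ?_), ?_⟩
  · have h1 := lower_avg (R + 1) m hRm g hg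
    have h2 : (m.choose (m + 1 - (R + 1)) : ℝ) ≤ ((m : ℝ) + 1) ^ R := by
      rw [Nat.add_sub_add_right, Nat.choose_symm (by omega)]
      exact_mod_cast (Nat.choose_le_pow m R).trans (Nat.pow_le_pow_left (Nat.le_succ m) R)
    have h0 : 0 ≤ Ex (m + 1) (fun M => ind (g M)) := Ex_nonneg (fun _ _ => ind_nonneg _)
    rw [div_div, div_le_iff₀ (by positivity)]
    refine h1.trans ?_
    rw [mul_comm]
    refine mul_le_mul_of_nonneg_left ?_ h0
    generalize (m.choose (m + 1 - (R + 1)) : ℝ) = y at h2 ⊢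
    push_cast
    nlinarith [Nat.cast_nonneg (α := ℝ) R]
  · set l := (m + 1) / (R + 2) with hl
    have h1 : 2 * R + 1 ≤ l := (Nat.le_div_iff_mul_le (by omega)).2 (by nlinarith)
    obtain ⟨r, hr⟩ : ∃ r, l = r + R := ⟨l - R, by omega⟩
    refine (upper_fixed (r := r) (by rw [← hr]; exact Nat.mul_div_le _ _) hp
      (fun n => hK (Fin n) r)).trans ?_
    rw [mul_div_assoc]
    refine mul_le_mul_of_nonneg_left ?_ (by positivity)
    rw [div_le_div_iff₀ (by positivity) (by positivity), mul_assoc, ← mul_pow]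
    have h2 : m + 1 < (R + 2) * (l + 1) := Nat.lt_mul_div_succ _ (by omega)
    have h3 : (m : ℝ) + 1 ≤ 2 * (R + 2) * (r + 1) := by
      exact_mod_cast (show m + 1 ≤ 2 * (R + 2) * (r + 1) by nlinarith [show l ≤ 2 * r by omega])
    gcongr

end Pool.Agent.P.MP_7badbe_co
end

-- part Pool.Agent.P.MP_7badbe_co.Lim.A
section

set_option autoImplicit false

open Finset Filter Topology
open scoped BigOperators

namespace Pool.Agent.P.MP_7badbe_co

/-- hereditary covering property of the family `G` on the list `X` -/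
def Good {V : Type} (R : ℕ) (G : List V → Prop) (X : List V) : Prop :=
  ∀ S : V → Bool, X.countP S ≤ R + 1 → ∃ e, e.Sublist X ∧ e.length + R = X.length ∧ G e ∧
    ((∀ x ∈ X, S x = true → x ∈ e) ∨ (∀ x ∈ X, S x = false → x ∈ e))

/-- random family with marginals at most `p` and failure probability at most `ε`, all lengths -/
def AS (V : Type) (R w : ℕ) (p ε : ℝ) : Prop :=
  ∃ (Ω : Type) (_ : Fintype Ω) (_ : Nonempty Ω) (G : Ω → List V → Prop),
    (∀ e : List V, e.Nodup → w ≤ e.length → 𝔼 ω, ind (G ω e) ≤ p) ∧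
    ∀ X : List V, X.Nodup → w + R ≤ X.length → 𝔼 ω, ind (¬ Good R (G ω) X) ≤ ε

/-- the same for one length -/
def AS1 (V : Type) (R w : ℕ) (p ε : ℝ) : Prop :=
  ∃ (Ω : Type) (_ : Fintype Ω) (_ : Nonempty Ω) (G : Ω → List V → Prop),
    (∀ e : List V, e.Nodup → e.length = w → 𝔼 ω, ind (G ω e) ≤ p) ∧
    ∀ X : List V, X.Nodup → X.length = w + R → 𝔼 ω, ind (¬ Good R (G ω) X) ≤ ε

lemma AS.mono {V : Type} {R w w' : ℕ} {p p' ε ε' : ℝ} (h : AS V R w p ε) (hw : w ≤ w')
    (hp : p ≤ p') (he : ε ≤ ε') : AS V R w' p' ε' := by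
  obtain ⟨Ω, _, _, G, h1, h2⟩ := h
  exact ⟨Ω, inferInstance, inferInstance, G, fun e hn hl => (h1 e hn (hw.trans hl)).trans hp,
    fun X hn hl => (h2 X hn (by omega)).trans he⟩

lemma countP_take_le {V : Type} (S : V → Bool) (X : List V) (n : ℕ) :
    (X.take n).countP S ≤ X.countP S := (List.take_sublist _ _).countP_le

lemma countP_drop_le {V : Type} (S : V → Bool) (X : List V) (n : ℕ) :
    (X.drop n).countP S ≤ X.countP S := (List.drop_sublist _ _).countP_le

lemma good_take {V : Type} {R w : ℕ} {G G' : List V → Prop} {X : List V} (hl : w + R ≤ X.length)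
    (h : Good R G (X.take (w + R))) (hG : ∀ e, G (e.take w) → G' e) : Good R G' X := by
  intro S hS
  have hY : (X.take (w + R)).length = w + R := by simp [hl]
  obtain ⟨e, he, hel, hg, hor⟩ := h S ((countP_take_le S X _).trans hS)
  have hew : e.length = w := by omega
  refine ⟨e ++ X.drop (w + R), ?_, ?_, hG _ (by rwa [List.take_left' hew]), ?_⟩
  · conv_rhs => rw [← List.take_append_drop (w + R) X]
    exact he.append_right _
  · simp only [List.length_append, List.length_drop]; omega
  · have key : ∀ x ∈ X, (x ∈ X.take (w + R) → x ∈ e) → x ∈ e ++ X.drop (w + R) := by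
      intro x hx h1
      rw [← List.take_append_drop (w + R) X, List.mem_append] at hx
      exact List.mem_append.2 (hx.imp h1 id)
    exact hor.imp (fun h x hx hs => key x hx (fun h1 => h x h1 hs))
      (fun h x hx hs => key x hx (fun h1 => h x h1 hs))

lemma good_drop {V : Type} {R n : ℕ} {G G' : List V → Prop} {X : List V} (hl : n ≤ X.length)
    (h : Good R G (X.drop n)) (hG : ∀ e, G e → G' (X.take n ++ e)) : Good R G' X := by
  intro S hS
  obtain ⟨e, he, hel, hg, hor⟩ := h S ((countP_drop_le S X _).trans hS)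
  refine ⟨X.take n ++ e, ?_, ?_, hG _ hg, ?_⟩
  · conv_rhs => rw [← List.take_append_drop n X]
    exact he.append_left _
  · simp only [List.length_append, List.length_drop, List.length_take] at hel ⊢; omega
  · have key : ∀ x ∈ X, (x ∈ X.drop n → x ∈ e) → x ∈ X.take n ++ e := by
      intro x hx h1
      rw [← List.take_append_drop n X, List.mem_append] at hx
      exact List.mem_append.2 (hx.imp id h1)
    exact hor.imp (fun h x hx hs => key x hx (fun h1 => h x h1 hs))
      (fun h x hx hs => key x hx (fun h1 => h x h1 hs))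

lemma AS1.lift {V : Type} {R w : ℕ} {p ε : ℝ} (h : AS1 V R w p ε) : AS V R w p ε := by
  obtain ⟨Ω, _, _, G, h1, h2⟩ := h
  refine ⟨Ω, inferInstance, inferInstance, fun ω e => G ω (e.take w), fun e hn hl => ?_,
    fun X hn hl => ?_⟩
  · exact h1 _ (hn.sublist (List.take_sublist _ _)) (by simp [hl])
  · refine le_trans (expect_le_expect (fun ω _ => ?_))
      (h2 (X.take (w + R)) (hn.sublist (List.take_sublist _ _)) (by simp [hl]))
    exact ind_mono (fun hb hg => hb (good_take hl hg (fun e he => he)))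

lemma ind_or_le (P Q : Prop) : ind (P ∨ Q) ≤ ind P + ind Q := by
  by_cases h : P
  · rw [ind_pos h]; exact (ind_le_one _).trans (le_add_of_nonneg_right (ind_nonneg _))
  · rw [ind_neg h, zero_add]; exact ind_mono (fun h' => h'.resolve_left h)

lemma expect_prod_mul {A B : Type} [Fintype A] [Fintype B] (f : A → ℝ) (g : B → ℝ) :
    𝔼 ω : A × B, f ω.1 * g ω.2 = (𝔼 a, f a) * 𝔼 b, g b := by
  rw [← univ_product_univ, expect_product]
  simp only [← mul_expect, ← expect_mul]

lemma expect_prod_fst {A B : Type} [Fintype A] [Fintype B] [Nonempty B] (f : A → ℝ) :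
    𝔼 ω : A × B, f ω.1 = 𝔼 a, f a := by
  rw [← univ_product_univ, expect_product]
  simp only [expect_const univ_nonempty]

/-- repair of the failures on the tail -/
lemma AS.repair {V : Type} {R K s : ℕ} {p ε q δ : ℝ} (h : AS V R K p ε) (h' : AS V R s q δ)
    (hε : 0 ≤ ε) : AS V R (K + R + s) (p + ε * q) (ε * δ) := by
  obtain ⟨Ω, _, _, G, h1, h2⟩ := h
  obtain ⟨Ω', _, _, G', h3, h4⟩ := h'
  refine ⟨Ω × Ω', inferInstance, inferInstance, fun ω e => G ω.1 (e.take K) ∨
    (¬ Good R (G ω.1) (e.take (K + R)) ∧ G' ω.2 (e.drop (K + R))), fun e hn hl => ?_,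
    fun X hn hl => ?_⟩
  · refine (expect_le_expect (fun ω _ => ind_or_le _ _)).trans ?_
    simp only [ind_and]
    rw [expect_add_distrib, expect_prod_fst (fun a => ind (G a (e.take K))),
      expect_prod_mul (fun a => ind (¬ Good R (G a) (e.take (K + R))))
        (fun b => ind (G' b (e.drop (K + R))))]
    refine add_le_add (h1 _ (hn.sublist (List.take_sublist _ _)) (by simp; omega)) ?_
    exact mul_le_mul (h2 _ (hn.sublist (List.take_sublist _ _)) (by simp; omega))
      (h3 _ (hn.sublist (List.drop_sublist _ _)) (by simp; omega)) (av_ind_nonneg _) hε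
  · have hY : (X.take (K + R)).length = K + R := by simp; omega
    have h5 : ∀ ω : Ω × Ω', ind (¬ Good R (fun e => G ω.1 (e.take K) ∨
        (¬ Good R (G ω.1) (e.take (K + R)) ∧ G' ω.2 (e.drop (K + R)))) X)
        ≤ ind (¬ Good R (G ω.1) (X.take (K + R))) * ind (¬ Good R (G' ω.2) (X.drop (K + R))) := by
      intro ω
      rw [← ind_and]
      refine ind_mono (fun hb => ?_)
      have h6 : ¬ Good R (G ω.1) (X.take (K + R)) := fun hg =>
        hb (good_take (by omega) hg (fun e he => Or.inl he))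
      refine ⟨h6, fun hg => hb (good_drop (by omega) hg (fun e he => Or.inr ?_))⟩
      rw [List.take_left' hY, List.drop_left' hY]
      exact ⟨h6, he⟩
    refine (expect_le_expect (fun ω _ => h5 ω)).trans ?_
    rw [expect_prod_mul (fun a => ind (¬ Good R (G a) (X.take (K + R))))
      (fun b => ind (¬ Good R (G' b) (X.drop (K + R))))]
    exact mul_le_mul (h2 _ (hn.sublist (List.take_sublist _ _)) (by omega))
      (h4 _ (hn.sublist (List.drop_sublist _ _)) (by simp; omega)) (av_ind_nonneg _) hε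

lemma of_expect_ind_nonpos {Ω : Type} [Fintype Ω] {P : Ω → Prop} (h : 𝔼 ω, ind (¬ P ω) ≤ 0)
    (ω : Ω) : P ω := by
  by_contra hc
  have h1 : 0 < 𝔼 ω, ind (¬ P ω) :=
    expect_pos' (fun _ _ => ind_nonneg _) ⟨ω, mem_univ _, by rw [ind_pos hc]; exact one_pos⟩
  exact absurd h (not_le.2 h1)

/-- an exact system bounds the co-density -/
theorem upper_AS {m R : ℕ} {p q : ℝ}
    (hp : Tendsto (fun n : ℕ => (exF (m + 1) (R + 1) n : ℝ) / n.choose (m + 1)) atTop (𝓝 p))
    (h : ∀ n, AS (Fin n) R (m + 1) q 0) : 1 - p ≤ q := by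
  refine upper_transfer hp (fun n => ?_)
  obtain ⟨Ω, _, _, G, h1, h2⟩ := h n
  refine ⟨Ω, inferInstance, inferInstance, fun ω e => G ω (e.sort (· ≤ ·)),
    fun ω S T hd hS hT => ?_, fun e he => h1 _ (sort_nodup _ _) (by rw [length_sort, he])⟩
  set W := (S ∪ T).sort (· ≤ ·) with hW
  have hWl : W.length = R + 1 + m := by
    rw [hW, length_sort, card_union_of_disjoint hd, hS, hT]
  have hWn : W.Nodup := sort_nodup _ _
  have hWs : W.Pairwise (· ≤ ·) := pairwise_sort _ _
  have hg := of_expect_ind_nonpos (h2 W hWn (by omega)) ω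
  obtain ⟨e, he, hel, hG, hor⟩ := hg (fun x => decide (x ∈ S)) (by
    rw [List.countP_eq_length_filter, ← List.toFinset_card_of_nodup (hWn.filter _), ← hS]
    refine card_le_card (fun x hx => ?_)
    simpa using (List.mem_filter.1 (List.mem_toFinset.1 hx)).2)
  have h8 := hWn.sublist he
  refine ⟨e.toFinset, fun x hx => ?_, ?_, ?_, ?_⟩
  · exact (mem_sort (· ≤ ·)).1 (he.subset (List.mem_toFinset.1 hx))
  · rw [List.toFinset_card_of_nodup h8]; omega
  · refine hor.imp (fun h x hx => ?_) (fun h x hx => ?_)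
    · exact List.mem_toFinset.2 (h x ((mem_sort (· ≤ ·)).2 (mem_union_left _ hx)) (by simpa using hx))
    · exact List.mem_toFinset.2 (h x ((mem_sort (· ≤ ·)).2 (mem_union_right _ hx))
        (by simpa using disjoint_right.1 hd hx))
  · show G ω _
    rw [(List.toFinset_sort (· ≤ ·) h8).2 (hWs.sublist he)]
    exact hG

lemma AS_of_RT {V : Type} {R r : ℕ} {q : ℝ} (h : RT V r R q) :
    AS V R ((R + 2) * (r + R)) ((R + 2) * q) 0 := by
  obtain ⟨Ω, _, _, G, h1, h2⟩ := h
  refine ⟨Ω, inferInstance, inferInstance, fun ω e => ∃ b ∈ range (R + 2),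
    G ω ((e.drop (b * (r + R))).take r), fun e hn he => ?_, fun W hWn hWl => ?_⟩
  · have h3 : ∀ ω, ind (∃ b ∈ range (R + 2), G ω ((e.drop (b * (r + R))).take r))
        ≤ ∑ b ∈ range (R + 2), ind (G ω ((e.drop (b * (r + R))).take r)) :=
      fun ω => ind_le_mapsum _ (range (R + 2)).val
    refine (expect_le_expect (fun ω _ => h3 ω)).trans ?_
    rw [expect_sum_comm]
    refine (sum_le_sum (fun b hb => h2 _ (hn.sublist
      ((List.take_sublist _ _).trans (List.drop_sublist _ _))) ?_)).trans (by simp)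
    have := mem_range.1 hb
    rw [List.length_take, List.length_drop]
    exact min_eq_left (Nat.le_sub_of_add_le (by nlinarith))
  · refine expect_le univ_nonempty (fun ω _ => (ind_neg (not_not.2 ?_)).le)
    intro S hS
    obtain ⟨b, hb, W₁, B, W₂, h3, h4, h5, h6⟩ := exists_block S (r + R) (R + 1) W hS
      (by nlinarith)
    obtain ⟨e, he, hel, hG⟩ := h1 ω B (hWn.sublist (h3 ▸
      (List.sublist_append_right W₁ B).trans (List.sublist_append_left _ _))) h5
    refine ⟨W₁ ++ e ++ W₂, h3 ▸ ((he.append_left W₁).append_right W₂), ?_,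
      ⟨b, mem_range.2 (by omega), ?_⟩, Or.inl (fun x hx hs => ?_)⟩
    · rw [h3]; simp only [List.length_append]; omega
    · rw [List.append_assoc, List.drop_left' h4, List.take_left' hel]
      exact hG
    · rw [h3] at hx
      simp only [List.mem_append] at hx ⊢
      rcases hx with (h9 | h9) | h9
      · exact Or.inl (Or.inl h9)
      · rw [h6 x h9] at hs; exact absurd hs (by simp)
      · exact Or.inr h9

/-- exact systems of the right order exist -/
theorem AS_bound (R : ℕ) : ∃ C : ℝ, 0 < C ∧ ∃ s₀ : ℕ, ∀ (V : Type) [Fintype V] [DecidableEq V],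
    ∀ s ≥ s₀, AS V R s (C / (s : ℝ) ^ R) 0 := by
  obtain ⟨K, hK0, hK⟩ := RT_bound R
  refine ⟨(R + 2) * (K * (2 * (R + 2)) ^ R), by positivity, (R + 2) * (2 * R + 1),
    fun V _ _ s hs => ?_⟩
  set l := s / (R + 2) with hl
  have h1 : 2 * R + 1 ≤ l := (Nat.le_div_iff_mul_le (by omega)).2 (by nlinarith)
  obtain ⟨r, hr⟩ : ∃ r, l = r + R := ⟨l - R, by omega⟩
  refine (AS_of_RT (hK V r)).mono (by rw [← hr]; exact Nat.mul_div_le _ _) ?_ le_rfl
  have hs0 : (0 : ℝ) < s := by
    have : 0 < s := lt_of_lt_of_le (by positivity) hs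
    exact_mod_cast this
  rw [mul_div_assoc]
  refine mul_le_mul_of_nonneg_left ?_ (by positivity)
  rw [div_le_div_iff₀ (by positivity) (by positivity), mul_assoc, ← mul_pow]
  have h2 : s < (R + 2) * (l + 1) := Nat.lt_mul_div_succ _ (by omega)
  have h3 : (s : ℝ) ≤ 2 * (R + 2) * (r + 1) := by
    exact_mod_cast (show s ≤ 2 * (R + 2) * (r + 1) by nlinarith [show l ≤ 2 * r by omega])
  gcongr

end Pool.Agent.P.MP_7badbe_co
end

-- part Pool.Agent.P.MP_7badbe_co.Lim.D
section

set_option autoImplicit false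

open Finset Filter Topology
open scoped BigOperators

namespace Pool.Agent.P.MP_7badbe_co

/-- the covering property on finite sets -/
def HitF {V : Type} [DecidableEq V] (i m : ℕ) (g : Finset V → Prop) : Prop :=
  ∀ S T : Finset V, Disjoint S T → S.card = i → T.card = m →
    ∃ e ⊆ S ∪ T, e.card = m + 1 ∧ (S ⊆ e ∨ T ⊆ e) ∧ g e

lemma hitF_of_hit {V A : Type} [DecidableEq V] {i m : ℕ} {γ : Multiset A → Prop}
    (hγ : Hit i m γ) (χ : V → A) : HitF i m (fun e => γ (e.val.map χ)) := by
  intro S T hd hS hT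
  rcases hγ (S.val.map χ) (T.val.map χ) (by simpa using hS) (by simpa using hT) with
    ⟨J, hJ, hc, hg⟩ | ⟨s, hs, hg⟩
  · obtain ⟨J', hJ', rfl⟩ := le_map_lift χ _ _ hJ
    set J'' : Finset V := ⟨J', Multiset.nodup_of_le hJ' T.nodup⟩ with hJ''
    have h1 : J'' ⊆ T := val_le_iff.1 hJ'
    have h2 : Disjoint S J'' := hd.mono_right h1
    refine ⟨S.disjUnion J'' h2, ?_, ?_, Or.inl ?_, ?_⟩
    · rw [disjUnion_eq_union]; exact union_subset_union_right h1
    · rw [card_disjUnion, hS]; simpa [hJ''] using hc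
    · rw [disjUnion_eq_union]; exact subset_union_left
    · rwa [← Multiset.map_add] at hg
  · obtain ⟨s, hs', rfl⟩ := Multiset.mem_map.1 hs
    have h1 : s ∉ T := disjoint_left.1 hd hs'
    refine ⟨insert s T, insert_subset (mem_union_left _ hs') subset_union_right,
      by rw [card_insert_of_notMem h1, hT], Or.inr (subset_insert _ _), ?_⟩
    show γ _
    rwa [insert_val_of_notMem h1, Multiset.map_cons]

open Classical in
lemma pad {V : Type} [DecidableEq V] {R m : ℕ} {g : Finset V → Prop} (hg : HitF (R + 1) m g)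
    {A : Finset V} (hA : A.card = m + 1 + R)
    (hc : R * ((powersetCard (m + 1) A).filter g).card ≤ m) {S : Finset V} (hS : S ⊆ A)
    (hSc : S.card ≤ R + 1) : ∃ e ⊆ A, e.card = m + 1 ∧ g e ∧ (S ⊆ e ∨ A \ S ⊆ e) := by
  set E := (powersetCard (m + 1) A).filter g with hE
  set B := E.biUnion (fun e => A \ e) with hB
  have h1 : B.card ≤ E.card * R := by
    refine card_biUnion_le_card_mul _ _ _ (fun e he => ?_)
    obtain ⟨h2, h3⟩ := mem_powersetCard.1 (mem_filter.1 he).1
    rw [card_sdiff_of_subset h2]; omega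
  have h2 : R + 1 ≤ (S ∪ A \ B).card := by
    have h3 := le_card_sdiff B A
    have h4 := card_le_card (subset_union_right (s₁ := S) (s₂ := A \ B))
    rw [mul_comm] at h1
    omega
  obtain ⟨S₁, h3, h4, h5⟩ := exists_subsuperset_card_eq (subset_union_left (s₂ := A \ B)) hSc h2
  have h6 : S₁ ⊆ A := h4.trans (union_subset hS sdiff_subset)
  obtain ⟨e, he, hec, hor, hge⟩ := hg S₁ (A \ S₁) disjoint_sdiff h5
    (by rw [card_sdiff_of_subset h6]; omega)
  rw [union_sdiff_of_subset h6] at he
  refine ⟨e, he, hec, hge, hor.imp h3.trans (fun h x hx => ?_)⟩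
  by_cases h7 : x ∈ S₁
  · have h8 := (mem_union.1 (h4 h7)).resolve_left (mem_sdiff.1 hx).2
    by_contra h9
    exact (mem_sdiff.1 h8).2 (mem_biUnion.2 ⟨e, mem_filter.2 ⟨mem_powersetCard.2 ⟨he, hec⟩, hge⟩,
      mem_sdiff.2 ⟨(mem_sdiff.1 hx).1, h9⟩⟩)
  · exact h (mem_sdiff.2 ⟨(mem_sdiff.1 hx).1, h7⟩)

lemma good_of_sets {V : Type} [DecidableEq V] {R k : ℕ} {g : Finset V → Prop} {X : List V}
    (hX : X.Nodup) (hl : X.length = k + R)
    (h : ∀ S ⊆ X.toFinset, S.card ≤ R + 1 →
      ∃ e ⊆ X.toFinset, e.card = k ∧ g e ∧ (S ⊆ e ∨ X.toFinset \ S ⊆ e)) :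
    Good R (fun e => g e.toFinset) X := by
  intro S hS
  obtain ⟨e, he, hec, hg, hor⟩ := h (X.filter S).toFinset
    (fun x hx => List.mem_toFinset.2 (List.mem_filter.1 (List.mem_toFinset.1 hx)).1)
    (by rwa [List.toFinset_card_of_nodup (hX.filter _), ← List.countP_eq_length_filter])
  have h3 : (X.filter (fun x => decide (x ∈ e))).toFinset = e := by
    ext x
    simp only [List.mem_toFinset, List.mem_filter, decide_eq_true_eq]
    exact ⟨fun h => h.2, fun h => ⟨List.mem_toFinset.1 (he h), h⟩⟩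
  refine ⟨X.filter (fun x => decide (x ∈ e)), List.filter_sublist, ?_,
    by show g _; rwa [h3], ?_⟩
  · rw [← List.toFinset_card_of_nodup (hX.filter _), h3, hec, hl]
  · refine hor.imp (fun h x hx hs => ?_) (fun h x hx hs => ?_)
    · exact List.mem_filter.2 ⟨hx, by simpa using h (by simp [hx, hs])⟩
    · exact List.mem_filter.2 ⟨hx, by simpa using h (by simp [hx, hs])⟩

open Classical in
lemma card_filter_ind {B : Type} (s : Finset B) (g : B → Prop) :
    ((s.filter g).card : ℝ) = ∑ e ∈ s, ind (g e) := by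
  rw [card_filter]; push_cast; rfl

open Classical in
lemma expect_count {V A : Type} [Fintype V] [DecidableEq V] [Fintype A] [Nonempty A] (k : ℕ)
    (γ : Multiset A → Prop) (B : Finset V) :
    𝔼 χ : V → A, (((powersetCard k B).filter (fun e => γ (e.val.map χ))).card : ℝ)
      = B.card.choose k * Ex k (fun M => ind (γ M)) := by
  simp only [card_filter_ind]
  rw [expect_sum_comm, sum_congr rfl (fun e he => by
    rw [expect_map e (fun M => ind (γ M)), (mem_powersetCard.1 he).2]), sum_const,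
    card_powersetCard, nsmul_eq_mul]

/-- a free hypergraph gives an approximate hereditary system -/
theorem AS_base {V A : Type} [Fintype V] [DecidableEq V] [Fintype A] [Nonempty A] {R m : ℕ}
    {γ : Multiset A → Prop} (hγ : Hit (R + 1) m γ) {p : ℝ}
    (hp : Ex (m + 1) (fun M => ind (γ M)) ≤ p) :
    AS V R (m + 1) p (R / (m + 1) * ((m + 1 + R).choose (m + 1) * p)) := by
  classical
  refine AS1.lift ⟨V → A, inferInstance, inferInstance, fun χ e => γ (e.toFinset.val.map χ),
    fun e hn hl => ?_, fun X hn hl => ?_⟩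
  · rw [expect_map e.toFinset (fun M => ind (γ M)), List.toFinset_card_of_nodup hn, hl]
    exact hp
  · have hA : X.toFinset.card = m + 1 + R := by rw [List.toFinset_card_of_nodup hn, hl]
    have h1 : ∀ χ : V → A, ind (¬ Good R (fun e => γ (e.toFinset.val.map χ)) X) ≤ R / (m + 1) *
        (((powersetCard (m + 1) X.toFinset).filter (fun e => γ (e.val.map χ))).card : ℝ) := by
      intro χ
      by_cases hc : R * ((powersetCard (m + 1) X.toFinset).filter
          (fun e => γ (e.val.map χ))).card ≤ m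
      · rw [ind_neg (not_not.2 (good_of_sets (g := fun e => γ (e.val.map χ)) hn hl
          (fun S hS hSc => pad (hitF_of_hit hγ χ) hA hc hS hSc)))]
        positivity
      · refine (ind_le_one _).trans ?_
        rw [div_mul_eq_mul_div, le_div_iff₀ (by positivity), one_mul]
        exact_mod_cast not_le.1 hc
    refine (expect_le_expect (fun χ _ => h1 χ)).trans ?_
    rw [← mul_expect, expect_count, hA]
    gcongr

lemma exists_transversal {V : Type} [DecidableEq V] {R : ℕ} (hR : 1 ≤ R) (Z : Finset (Finset V))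
    (hZ : ∀ z ∈ Z, z.card = R) :
    ∃ S : Finset V, S ⊆ Z.biUnion id ∧ S.card ≤ Z.card ∧ ∀ z ∈ Z, ∃ x ∈ S, x ∈ z := by
  induction Z using Finset.induction_on with
  | empty => exact ⟨∅, by simp⟩
  | insert z Z hz ih =>
    obtain ⟨S, h1, h2, h3⟩ := ih (fun y hy => hZ y (mem_insert_of_mem hy))
    obtain ⟨x, hx⟩ := card_pos.1 (show 0 < z.card by rw [hZ z (mem_insert_self _ _)]; omega)
    refine ⟨insert x S, ?_, ?_, ?_⟩
    · rw [biUnion_insert]
      exact insert_subset (mem_union_left _ hx) (h1.trans subset_union_right)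
    · rw [card_insert_of_notMem hz]; exact (card_insert_le _ _).trans (by omega)
    · rw [forall_mem_insert]
      exact ⟨⟨x, mem_insert_self _ _, hx⟩, fun y hy => by
        obtain ⟨u, hu, h⟩ := h3 y hy
        exact ⟨u, mem_insert_of_mem hu, h⟩⟩

lemma exists_colouring {V : Type} [DecidableEq V] {R : ℕ} (hR : 2 ≤ R) (Z : Finset (Finset V))
    (hZ : ∀ z ∈ Z, z.card = R) (hc : Z.card ≤ R) :
    ∃ S : Finset V, S ⊆ Z.biUnion id ∧ S.card ≤ R ∧ ∀ z ∈ Z, (∃ x ∈ S, x ∈ z) ∧ ¬ z ⊆ S := by
  rcases Z.eq_empty_or_nonempty with rfl | ⟨z₀, hz₀⟩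
  · exact ⟨∅, by simp⟩
  obtain ⟨S, h1, h2, h3⟩ := exists_transversal (by omega : 1 ≤ R) (Z.erase z₀)
    (fun z hz => hZ z (mem_of_mem_erase hz))
  rw [card_erase_of_mem hz₀] at h2
  have h4 : S ⊆ Z.biUnion id := h1.trans (biUnion_subset_biUnion_of_subset_left _ (erase_subset _ _))
  by_cases h5 : ∃ x ∈ S, x ∈ z₀
  · refine ⟨S, h4, by omega, fun z hz => ⟨?_, fun h => ?_⟩⟩
    · by_cases h6 : z = z₀
      · rwa [h6]
      · exact h3 z (mem_erase.2 ⟨h6, hz⟩)
    · have := card_le_card h
      rw [hZ z hz] at this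
      omega
  · push Not at h5
    have h6 : ∃ x ∈ z₀, insert x S ∉ Z.erase z₀ := by
      by_contra h
      push Not at h
      have := card_le_card_of_injOn (s := z₀) (t := Z.erase z₀) (fun x => insert x S)
        (fun x hx => h x hx) (fun x hx y _ hxy => by
          have h7 : x ∈ insert y S := by
            have : insert x S = insert y S := hxy
            rw [← this]; exact mem_insert_self _ _
          exact (mem_insert.1 h7).resolve_right (fun h8 => h5 x h8 hx))
      rw [card_erase_of_mem hz₀, hZ z₀ hz₀] at this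
      omega
    obtain ⟨x, hx, h7⟩ := h6
    have h8 : (insert x S).card ≤ R := (card_insert_le _ _).trans (by omega)
    refine ⟨insert x S, insert_subset (mem_biUnion.2 ⟨z₀, hz₀, hx⟩) h4, h8,
      fun z hz => ⟨?_, fun h => ?_⟩⟩
    · by_cases h6 : z = z₀
      · exact ⟨x, mem_insert_self _ _, h6 ▸ hx⟩
      · obtain ⟨u, hu, h⟩ := h3 z (mem_erase.2 ⟨h6, hz⟩)
        exact ⟨u, mem_insert_of_mem hu, h⟩
    · have h9 : z = insert x S := eq_of_subset_of_card_le h (by rw [hZ z hz]; exact h8)
      by_cases h6 : z = z₀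
      · have h10 : z₀ ⊆ {x} := fun y hy => by
          rcases mem_insert.1 (h (h6 ▸ hy)) with h11 | h11
          · exact mem_singleton.2 h11
          · exact absurd hy (h5 y h11)
        have := card_le_card h10
        rw [hZ z₀ hz₀, card_singleton] at this
        omega
      · exact h7 (h9 ▸ mem_erase.2 ⟨h6, hz⟩)

open Classical in
lemma count_ge {V : Type} [DecidableEq V] {R m : ℕ} (hR : 2 ≤ R) (hm : R * R ≤ m)
    {g : Finset V → Prop} (hg : HitF (R + 1) m g) {A : Finset V} (hA : A.card = m + 1 + R) :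
    R + 1 ≤ ((powersetCard (m + 1) A).filter g).card := by
  by_contra hc
  set E := (powersetCard (m + 1) A).filter g with hE
  have hc' : E.card ≤ R := by omega
  obtain ⟨S, h1, h2, h3⟩ := exists_colouring hR (E.image (fun e => A \ e)) (fun z hz => by
    obtain ⟨e, he, rfl⟩ := mem_image.1 hz
    obtain ⟨h2, h3⟩ := mem_powersetCard.1 (mem_filter.1 he).1
    rw [card_sdiff_of_subset h2]; omega) (card_image_le.trans hc')
  have hS : S ⊆ A := h1.trans (biUnion_subset.2 (fun z hz => by
    obtain ⟨e, _, rfl⟩ := mem_image.1 hz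
    exact sdiff_subset))
  obtain ⟨e, he, hec, hge, hor⟩ := pad hg hA ((Nat.mul_le_mul_left R hc').trans hm) hS
    (by omega)
  obtain ⟨⟨x, hx, hx'⟩, h4⟩ := h3 (A \ e) (mem_image_of_mem _
    (mem_filter.2 ⟨mem_powersetCard.2 ⟨he, hec⟩, hge⟩))
  rcases hor with h | h
  · exact (mem_sdiff.1 hx').2 (h hx)
  · refine h4 (fun y hy => ?_)
    by_contra h5
    exact (mem_sdiff.1 hy).2 (h (mem_sdiff.2 ⟨(mem_sdiff.1 hy).1, h5⟩))

theorem lower_count {R m : ℕ} (hR : 2 ≤ R) (hm : R * R ≤ m) {p : ℝ}
    (hp : Tendsto (fun n : ℕ => (exF (m + 1) (R + 1) n : ℝ) / n.choose (m + 1)) atTop (𝓝 p)) :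
    ((R : ℝ) + 1) / (m + 1 + R).choose (m + 1) ≤ 1 - p := by
  classical
  refine lower_transfer (by omega) (by nlinarith) hp (fun n g hg => ?_)
  have h0 : (0 : ℝ) < (m + 1 + R).choose (m + 1) := by
    exact_mod_cast Nat.choose_pos (by omega)
  have h1 := expect_count (V := Fin (m + 1 + R)) (m + 1) g univ
  rw [card_univ, Fintype.card_fin] at h1
  rw [div_le_iff₀ h0, mul_comm, ← h1]
  refine le_expect univ_nonempty (fun χ _ => ?_)
  exact_mod_cast count_ge hR hm (hitF_of_hit hg χ) (by simp)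

end Pool.Agent.P.MP_7badbe_co
end
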