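import Pool.Agent.K.MP_7badbe_co.C1
import Pool.Agent.K.MP_7badbe_co.C2

-- part Pool.Agent.P.MP_7badbe_co.Lim.B
section

set_option autoImplicit false

open Finset Filter Topology
open scoped BigOperators

namespace Pool.Agent.P.MP_7badbe_co

lemma av_eq {A : Type} [Fintype A] (t₀ : A) : 𝔼 t : A, ind (t = t₀) = 1 / Fintype.card A := by
  rw [Fintype.expect_eq_sum_div_card, sum_eq_single t₀ (fun b _ hb => ind_neg hb) (by simp),
    ind_pos rfl]

lemma expect_agree {V A : Type} [Fintype V] [DecidableEq V] [Fintype A] [Nonempty A]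
    (s : Finset V) (μ : V → A) :
    𝔼 χ : V → A, ind (∀ x ∈ s, χ x = μ x) = (1 / (Fintype.card A : ℝ)) ^ s.card := by
  induction s using Finset.induction_on with
  | empty => simp [ind, expect_const univ_nonempty]
  | insert a s ha ih =>
    rw [expect_update a, card_insert_of_notMem ha, pow_succ', ← ih, ← av_eq (μ a), expect_mul]
    refine expect_congr rfl (fun v _ => ?_)
    rw [mul_expect]
    refine expect_congr rfl (fun χ _ => ?_)
    rw [← ind_and]
    refine ind_congr ?_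
    rw [forall_mem_insert, Function.update_self]
    refine and_congr Iff.rfl (forall₂_congr (fun x hx => ?_))
    rw [Function.update_of_ne (by rintro rfl; exact ha hx)]

variable {V F : Type} [Fintype V] [DecidableEq V] [Field F] [Fintype F]

lemma card_sub_one_pos : (0 : ℝ) < Fintype.card F - 1 := by
  have : (1 : ℝ) < Fintype.card F := by exact_mod_cast Fintype.one_lt_card
  linarith

/-- union bound over projective points -/
lemma ind_exists_le (s : Finset V) (P : (V → F) → Prop)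
    (h1 : ∀ (l l' : V → F) (u : F), u ≠ 0 → (∀ x ∈ s, l' x = u * l x) → P l → P l')
    (h2 : ∀ l, P l → ∃ x ∈ s, l x ≠ 0) :
    ind (∃ l, P l) ≤ (Fintype.card F : ℝ) ^ s.card / (Fintype.card F - 1) * 𝔼 l, ind (P l) := by
  classical
  have hq := card_sub_one_pos (F := F)
  have hq0 : (0 : ℝ) < Fintype.card F := by linarith
  by_cases h : ∃ l, P l
  · obtain ⟨l₀, hl₀⟩ := h
    obtain ⟨x₀, hx₀, hne⟩ := h2 l₀ hl₀
    have h3 : ∀ l : V → F, ∑ u ∈ univ.erase (0 : F), ind (∀ x ∈ s, l x = u * l₀ x)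
        ≤ ind (P l) := by
      intro l
      by_cases h4 : ∃ u ∈ univ.erase (0 : F), ∀ x ∈ s, l x = u * l₀ x
      · obtain ⟨u, hu, h5⟩ := h4
        rw [sum_eq_single_of_mem u hu (fun u' _ hne' => ind_neg (fun h6 => hne'
          (mul_right_cancel₀ hne ((h6 x₀ hx₀).symm.trans (h5 x₀ hx₀))))), ind_pos h5,
          ind_pos (h1 l₀ l u (mem_erase.1 hu).1 h5 hl₀)]
      · rw [sum_eq_zero (fun u hu => ind_neg (fun h6 => h4 ⟨u, hu, h6⟩))]
        exact ind_nonneg _
    have h4 := expect_le_expect (s := univ) (fun l _ => h3 l)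
    rw [expect_sum_comm] at h4
    simp only [expect_agree s (fun x => _ * l₀ x), sum_const, card_erase_of_mem (mem_univ _),
      card_univ, nsmul_eq_mul] at h4
    rw [Nat.cast_sub Fintype.card_pos, Nat.cast_one] at h4
    refine (ind_le_one _).trans (le_trans (le_of_eq ?_)
      (mul_le_mul_of_nonneg_left h4 (by positivity)))
    rw [one_div, inv_pow]
    field_simp
  · rw [ind_neg h]
    exact mul_nonneg (by positivity) (av_ind_nonneg _)

lemma expect_kernel (m : ℕ) (s : Finset V) (l : V → F) {x₀ : V} (hx : x₀ ∈ s) (hl : l x₀ ≠ 0) :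
    𝔼 v : V → (Fin m → F), ind (∑ x ∈ s, l x • v x = 0) = (1 / (Fintype.card F : ℝ)) ^ m := by
  rw [expect_update x₀, expect_comm]
  have h1 : ∀ χ : V → (Fin m → F), 𝔼 t : Fin m → F,
      ind (∑ x ∈ s, l x • Function.update χ x₀ t x = 0) = (1 / (Fintype.card F : ℝ)) ^ m := by
    intro χ
    have h2 := av_eq (A := Fin m → F) (-(l x₀)⁻¹ • ∑ x ∈ s.erase x₀, l x • χ x)
    rw [Fintype.card_fun, Fintype.card_fin, Nat.cast_pow, ← one_div_pow] at h2
    rw [← h2]
    refine expect_congr rfl (fun t _ => ind_congr ?_)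
    rw [← add_sum_erase s _ hx, Function.update_self, sum_congr rfl (fun x hx' => by
      rw [Function.update_of_ne (ne_of_mem_erase hx')]), add_eq_zero_iff_eq_neg, neg_smul,
      ← smul_neg, eq_inv_smul_iff₀ hl]
  simp only [h1, expect_const univ_nonempty]

omit [Fintype V] [DecidableEq V] [Fintype F] in
lemma exists_kernel (m : ℕ) (s : Finset V) (hs : m < s.card) (v : V → (Fin m → F)) :
    ∃ l : V → F, ∑ x ∈ s, l x • v x = 0 ∧ ∃ x ∈ s, l x ≠ 0 := by
  refine not_linearIndepOn_finset_iff.1 (fun h => ?_)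
  have := LinearIndependent.fintype_card_le_finrank h
  simp at this
  omega

lemma Ex_prod {A : Type} [Fintype A] (m : ℕ) (f : A → ℝ) :
    Ex m (fun M => (M.map f).prod) = (𝔼 v, f v) ^ m := by
  induction m with
  | zero => simp
  | succ m ih =>
    simp only [Ex_succ, Multiset.map_cons, Multiset.prod_cons, Ex_mul, ih]
    rw [← expect_mul, pow_succ']

open Classical in
lemma tail_bound (s : Finset V) (t : ℕ) {η : ℝ} (hη : 0 < η)
    (h : (1 + η) ^ 2 * Fintype.card F * t ≤ s.card) :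
    𝔼 l : V → F, ind ((s.filter (fun x => l x = 0)).card < t) ≤ Real.exp (-(η ^ 2 * t)) := by
  have hq := card_sub_one_pos (F := F)
  have hq0 : (0 : ℝ) < Fintype.card F := by linarith
  set y : ℝ := 1 / (1 + η) with hy
  have hy0 : 0 < y := by positivity
  have hy1 : y ≤ 1 := by rw [hy, div_le_one (by positivity)]; linarith
  set f : F → ℝ := fun v => 1 - (1 - y) * ind (v = 0) with hf
  have h1 : ∀ l : V → F, ind ((s.filter (fun x => l x = 0)).card < t)
      ≤ (1 + η) ^ t * ((s.val.map l).map f).prod := by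
    intro l
    have h2 : ((s.val.map l).map f).prod = y ^ (s.filter (fun x => l x = 0)).card := by
      rw [Multiset.map_map, ← prod_const, prod_filter]
      refine prod_congr rfl (fun x _ => ?_)
      by_cases h3 : l x = 0 <;> simp [hf, ind, h3]
    rw [h2]
    by_cases h3 : (s.filter (fun x => l x = 0)).card < t
    · rw [ind_pos h3]
      have h4 : y ^ t ≤ y ^ (s.filter (fun x => l x = 0)).card :=
        pow_le_pow_of_le_one hy0.le hy1 h3.le
      refine le_trans (le_of_eq ?_) (mul_le_mul_of_nonneg_left h4 (by positivity))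
      rw [← mul_pow, hy, mul_one_div_cancel (by positivity), one_pow]
    · rw [ind_neg h3]; positivity
  refine (expect_le_expect (fun l _ => h1 l)).trans ?_
  rw [← mul_expect, expect_map s (fun M => (M.map f).prod), Ex_prod]
  have h2 : 𝔼 v, f v = 1 - (1 - y) / Fintype.card F := by
    simp only [hf, expect_sub_distrib, expect_const univ_nonempty, ← mul_expect, av_eq]
    ring
  have h3 : 0 ≤ 1 - (1 - y) / Fintype.card F := by
    rw [sub_nonneg, div_le_one hq0]; linarith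
  rw [h2]
  have h4 : (1 + η) ^ t ≤ Real.exp (η * t) := by
    rw [mul_comm, Real.exp_nat_mul]
    exact pow_le_pow_left₀ (by positivity) (by linarith [Real.add_one_le_exp η]) _
  have h5 : (1 - (1 - y) / Fintype.card F) ^ s.card
      ≤ Real.exp (s.card * -((1 - y) / Fintype.card F)) := by
    rw [Real.exp_nat_mul]
    exact pow_le_pow_left₀ h3 (Real.one_sub_le_exp_neg _) _
  refine (mul_le_mul h4 h5 (by positivity) (by positivity)).trans ?_
  rw [← Real.exp_add, Real.exp_le_exp]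
  have h6 : (1 + η) * η * t ≤ s.card * ((1 - y) / Fintype.card F) := by
    have h7 : (1 - y) / Fintype.card F = η / ((1 + η) * Fintype.card F) := by
      rw [hy]; field_simp; ring
    rw [h7, ← mul_div_assoc, le_div_iff₀ (by positivity)]
    nlinarith [mul_le_mul_of_nonneg_left h hη.le]
  nlinarith

omit [Fintype V] in
lemma filter_mem_of_sublist {e X : List V} (he : e.Sublist X) (hX : X.Nodup) :
    X.filter (fun x => decide (x ∈ e)) = e := by
  induction he with
  | slnil => rfl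
  | cons a he ih =>
    have := List.nodup_cons.1 hX
    rw [List.filter_cons_of_neg (by simpa using fun h => this.1 (he.subset h)), ih this.2]
  | cons_cons a he ih =>
    have := List.nodup_cons.1 hX
    rw [List.filter_cons_of_pos (by simp)]
    congr 1
    rw [← ih this.2]
    refine List.filter_congr (fun x hx => ?_)
    have : x ≠ a := by rintro rfl; exact this.1 hx
    simp [this, hx]

end Pool.Agent.P.MP_7badbe_co
end

-- part Pool.Agent.P.MP_7badbe_co.Lim.C
section

set_option autoImplicit false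

open Finset Filter Topology
open scoped BigOperators

namespace Pool.Agent.P.MP_7badbe_co

variable {V F : Type} [Fintype V] [DecidableEq V] [Field F] [Fintype F]

open Classical in
/-- the elements of the list on which `l` vanishes -/
noncomputable def zl (l : V → F) (e : List V) : List V := e.filter (fun x => decide (l x = 0))

omit [Fintype V] [DecidableEq V] [Fintype F] in
lemma zl_sublist (l : V → F) (e : List V) : (zl l e).Sublist e := List.filter_sublist

omit [Fintype V] [DecidableEq V] [Fintype F] in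
lemma mem_zl {l : V → F} {e : List V} {x : V} : x ∈ zl l e ↔ x ∈ e ∧ l x = 0 := by
  simp [zl]

omit [Fintype V] [Fintype F] in
lemma zl_scale {l l' : V → F} {u : F} (hu : u ≠ 0) {e : List V}
    (h : ∀ x ∈ e.toFinset, l' x = u * l x) : zl l' e = zl l e := by
  refine List.filter_congr (fun x hx => ?_)
  simp [h x (List.mem_toFinset.2 hx), hu]

omit [Fintype V] [DecidableEq V] [Fintype F] in
lemma ker_scale {m : ℕ} {l l' : V → F} {u : F} {s : Finset V} {v : V → (Fin m → F)}
    (h : ∀ x ∈ s, l' x = u * l x) (h0 : ∑ x ∈ s, l x • v x = 0) : ∑ x ∈ s, l' x • v x = 0 := by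
  rw [sum_congr rfl (fun x hx => by rw [h x hx, mul_smul]), ← smul_sum, h0, smul_zero]

/-- union bound for a property of the zero list of a dependency -/
lemma dep_bound {Ω : Type} [Fintype Ω] [Nonempty Ω] (m : ℕ) (e : List V) (he : e.Nodup)
    (Q : Ω → List V → Prop) {b : ℝ} (hb : 𝔼 l : V → F, 𝔼 ω, ind (Q ω (zl l e)) ≤ b) :
    𝔼 ω : (V → (Fin m → F)) × Ω, ind (∃ l : V → F, (∃ x ∈ e.toFinset, l x ≠ 0) ∧
      ∑ x ∈ e.toFinset, l x • ω.1 x = 0 ∧ Q ω.2 (zl l e))
      ≤ (Fintype.card F : ℝ) ^ e.length / (Fintype.card F - 1) *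
        ((1 / (Fintype.card F : ℝ)) ^ m * b) := by
  have hq := card_sub_one_pos (F := F)
  have hq0 : (0 : ℝ) < Fintype.card F := by linarith
  have h1 : ∀ ω : (V → (Fin m → F)) × Ω, ind (∃ l : V → F, (∃ x ∈ e.toFinset, l x ≠ 0) ∧
      ∑ x ∈ e.toFinset, l x • ω.1 x = 0 ∧ Q ω.2 (zl l e))
      ≤ (Fintype.card F : ℝ) ^ e.length / (Fintype.card F - 1) *
        𝔼 l : V → F, ind ((∃ x ∈ e.toFinset, l x ≠ 0) ∧
          ∑ x ∈ e.toFinset, l x • ω.1 x = 0 ∧ Q ω.2 (zl l e)) := by
    intro ω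
    rw [← List.toFinset_card_of_nodup he]
    refine ind_exists_le e.toFinset _ (fun l l' u hu h ⟨⟨x, hx, h2⟩, h3, h4⟩ => ?_)
      (fun l h => h.1)
    exact ⟨⟨x, hx, by rw [h x hx]; exact mul_ne_zero hu h2⟩, ker_scale h h3,
      by rwa [zl_scale hu h]⟩
  refine (expect_le_expect (fun ω _ => h1 ω)).trans ?_
  rw [← mul_expect, expect_comm]
  refine mul_le_mul_of_nonneg_left (le_trans ?_
    (mul_le_mul_of_nonneg_left hb (by positivity))) (by positivity)
  rw [mul_expect]
  refine expect_le_expect (fun l _ => ?_)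
  by_cases h2 : ∃ x ∈ e.toFinset, l x ≠ 0
  · obtain ⟨x, hx, h3⟩ := h2
    rw [← expect_kernel m e.toFinset l hx h3, ← expect_prod_mul]
    refine expect_le_expect (fun ω _ => ?_)
    rw [← ind_and]
    exact ind_mono (fun h => h.2)
  · refine (expect_le univ_nonempty (fun ω _ => (ind_neg (fun h => h2 h.1)).le)).trans ?_
    exact mul_nonneg (by positivity) (av_ind_nonneg _)

omit [Fintype V] [Fintype F] in
lemma good_zl {m R : ℕ} {G G' : List V → Prop} {X : List V} (hX : X.Nodup) {l : V → F}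
    {v : V → (Fin m → F)} (h1 : ∃ x ∈ X.toFinset, l x ≠ 0)
    (h2 : ∑ x ∈ X.toFinset, l x • v x = 0) (hg : Good R G (zl l X))
    (hG : ∀ e : List V, (∃ x ∈ e.toFinset, l x ≠ 0) → ∑ x ∈ e.toFinset, l x • v x = 0 →
      (zl l e).length + R = (zl l X).length → G (zl l e) → G' e) : Good R G' X := by
  classical
  intro S hS
  obtain ⟨e, he, hel, hg, hor⟩ := hg S ((zl_sublist l X).countP_le.trans hS)
  set e' := X.filter (fun x => decide (l x ≠ 0 ∨ x ∈ e)) with he'
  have hmem : ∀ x, x ∈ e' ↔ x ∈ X ∧ (l x ≠ 0 ∨ x ∈ e) := fun x => by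
    rw [he', List.mem_filter, decide_eq_true_eq]
  have h3 : zl l e' = e := by
    rw [← filter_mem_of_sublist he (hX.sublist (zl_sublist l X))]
    unfold zl
    rw [he', List.filter_filter, List.filter_filter]
    refine List.filter_congr (fun x _ => ?_)
    by_cases h : l x = 0 <;> simp [h]
  have h4 : e'.filter (fun x => !decide (l x = 0)) = X.filter (fun x => !decide (l x = 0)) := by
    rw [he', List.filter_filter]
    refine List.filter_congr (fun x _ => ?_)
    by_cases h : l x = 0 <;> simp [h]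
  have h5 : ∀ Y : List V, Y.length
      = (zl l Y).length + (Y.filter (fun x => !decide (l x = 0))).length := fun Y => by
    unfold zl
    convert (List.length_eq_length_filter_add (l := Y) (fun x => decide (l x = 0)))
  refine ⟨e', List.filter_sublist, ?_, hG e' ?_ ?_ (by rw [h3, hel]) (by rwa [h3]), ?_⟩
  · rw [h5 e', h5 X, h3, h4]; omega
  · obtain ⟨x, hx, h⟩ := h1
    exact ⟨x, List.mem_toFinset.2 ((hmem x).2 ⟨List.mem_toFinset.1 hx, Or.inl h⟩), h⟩
  · rw [← h2]
    refine sum_subset (fun x hx => List.mem_toFinset.2 ((hmem x).1 (List.mem_toFinset.1 hx)).1)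
      (fun x hx hx' => ?_)
    have : l x = 0 := by
      by_contra h
      exact hx' (List.mem_toFinset.2 ((hmem x).2 ⟨List.mem_toFinset.1 hx, Or.inl h⟩))
    rw [this, zero_smul]
  · have key : ∀ x ∈ X, (x ∈ zl l X → x ∈ e) → x ∈ e' := fun x hx h => (hmem x).2 ⟨hx, by
      by_cases h0 : l x = 0
      · exact Or.inr (h (mem_zl.2 ⟨hx, h0⟩))
      · exact Or.inl h0⟩
    exact hor.imp (fun h x hx hs => key x hx (fun h1 => h x h1 hs))
      (fun h x hx hs => key x hx (fun h1 => h x h1 hs))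

/-- the algebraic reduction from level `K` to level about `K / q` -/
theorem AS.reduce (F : Type) [Field F] [Fintype F] {R w K : ℕ} {p ε η : ℝ} (hR : 1 ≤ R)
    (h : AS V R w p ε) (hp : 0 ≤ p) (hε : 0 ≤ ε) (hη : 0 < η)
    (hK : (1 + η) ^ 2 * Fintype.card F * (w + R) ≤ K + R) :
    AS V R K (Fintype.card F / (Fintype.card F - 1) * (p / (Fintype.card F : ℝ) ^ R))
      (Fintype.card F / (Fintype.card F - 1) * (Real.exp (-(η ^ 2 * w)) + ε)) := by
  classical
  have hq := card_sub_one_pos (F := F)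
  have hq0 : (0 : ℝ) < Fintype.card F := by linarith
  obtain ⟨Ω, _, _, G, h1, h2⟩ := h
  obtain ⟨R, rfl⟩ : ∃ R', R = R' + 1 := ⟨R - 1, by omega⟩
  refine AS1.lift ⟨(V → (Fin (K + R) → F)) × Ω, inferInstance, inferInstance, fun ω e =>
    ∃ l : V → F, (∃ x ∈ e.toFinset, l x ≠ 0) ∧ ∑ x ∈ e.toFinset, l x • ω.1 x = 0 ∧
      (w ≤ (zl l e).length ∧ G ω.2 (zl l e)), fun e hn hl => ?_, fun X hn hl => ?_⟩
  · refine (dep_bound (F := F) (K + R) e hn (fun ω Y => w ≤ Y.length ∧ G ω Y) (b := p)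
      (expect_le univ_nonempty (fun l _ => ?_))).trans (le_of_eq ?_)
    · by_cases h3 : w ≤ (zl l e).length
      · exact (expect_le_expect (fun ω _ => ind_mono (fun h => h.2))).trans
          (h1 _ (hn.sublist (zl_sublist l e)) h3)
      · exact expect_le univ_nonempty (fun ω _ => (ind_neg (fun h => h3 h.1)).le.trans hp)
    · rw [hl, one_div, inv_pow]; field_simp; ring
  · refine le_trans (expect_le_expect (fun ω _ => ind_mono (fun hb => ?_)))
      ((dep_bound (F := F) (K + R) X hn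
        (fun ω Y => Y.length < w + (R + 1) ∨ (w + (R + 1) ≤ Y.length ∧ ¬ Good (R + 1) (G ω) Y))
        (b := Real.exp (-(η ^ 2 * w)) + ε) ?_).trans (le_of_eq ?_))
    · obtain ⟨l, h3, h4⟩ := exists_kernel (F := F) (K + R) X.toFinset
        (by rw [List.toFinset_card_of_nodup hn]; omega) ω.1
      refine ⟨l, h4, h3, ?_⟩
      by_contra hc
      push Not at hc
      exact hb (good_zl hn h4 h3 (hc.2 hc.1) (fun e h5 h6 h7 h8 => ⟨l, h5, h6, by omega, h8⟩))
    · have h3 : ∀ l : V → F, 𝔼 ω, ind ((zl l X).length < w + (R + 1) ∨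
          (w + (R + 1) ≤ (zl l X).length ∧ ¬ Good (R + 1) (G ω) (zl l X)))
          ≤ ind ((X.toFinset.filter (fun x => l x = 0)).card < w + (R + 1)) + ε := by
        intro l
        have h4 : (X.toFinset.filter (fun x => l x = 0)).card = (zl l X).length := by
          rw [← List.toFinset_card_of_nodup (hn.sublist (zl_sublist l X))]
          congr 1
          ext x
          simp [mem_zl]
        rw [h4]
        by_cases h5 : (zl l X).length < w + (R + 1)
        · rw [ind_pos h5]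
          exact (av_ind_le_one _).trans (by linarith)
        · rw [ind_neg h5, zero_add]
          exact (expect_le_expect (fun ω _ => ind_mono (fun h => (h.resolve_left h5).2))).trans
            (h2 _ (hn.sublist (zl_sublist l X)) (not_lt.1 h5))
      refine (expect_le_expect (fun l _ => h3 l)).trans ?_
      rw [expect_add_distrib, expect_const univ_nonempty]
      refine add_le_add_left ((tail_bound X.toFinset (w + (R + 1)) hη ?_).trans ?_) _
      · rw [List.toFinset_card_of_nodup hn, hl]; exact_mod_cast hK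
      · rw [Real.exp_le_exp]; push_cast
        nlinarith [sq_nonneg η, Nat.cast_nonneg (α := ℝ) R]
    · rw [hl, one_div, inv_pow]; field_simp; ring

end Pool.Agent.P.MP_7badbe_co
end

-- part Pool.Agent.P.MP_7badbe_co.Lim.F
section

set_option autoImplicit false

open Finset Filter Topology
open scoped BigOperators

namespace Pool.Agent.P.MP_7badbe_co

lemma small_step {δ : ℝ} (hδ : 0 < δ) :
    ∃ u v : ℤ, 0 < u * Real.log 2 + v * Real.log 3 ∧ u * Real.log 2 + v * Real.log 3 ≤ δ := by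
  have h2 : 0 < Real.log 2 := Real.log_pos (by norm_num)
  have h3 : 0 < Real.log 3 := Real.log_pos (by norm_num)
  obtain ⟨n, hn⟩ := exists_nat_gt (Real.log 2 / δ)
  obtain ⟨j, k, hk, _, h⟩ := Real.exists_int_int_abs_mul_sub_le (Real.log 3 / Real.log 2)
    (Nat.succ_pos n)
  have h4 : |k * Real.log 3 - j * Real.log 2| ≤ δ := by
    have h5 : k * Real.log 3 - j * Real.log 2 = (k * (Real.log 3 / Real.log 2) - j) * Real.log 2 := by
      field_simp
    rw [h5, abs_mul, abs_of_pos h2]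
    refine (mul_le_mul_of_nonneg_right h h2.le).trans ?_
    rw [div_lt_iff₀ hδ] at hn
    rw [div_mul_eq_mul_div, one_mul, div_le_iff₀ (by positivity)]
    push_cast
    nlinarith
  have h5 : k * Real.log 3 - j * Real.log 2 ≠ 0 := by
    intro h6
    have hk' : (0 : ℝ) < k := by exact_mod_cast hk
    have hj' : (0 : ℝ) < j := by
      by_contra h7
      nlinarith [mul_pos hk' h3, mul_nonneg (neg_nonneg.2 (not_lt.1 h7)) h2.le]
    have hj : 0 < j := by exact_mod_cast hj'
    obtain ⟨k, rfl⟩ := Int.eq_ofNat_of_zero_le hk.le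
    obtain ⟨j, rfl⟩ := Int.eq_ofNat_of_zero_le hj.le
    rw [sub_eq_zero, Int.cast_natCast, Int.cast_natCast, ← Real.log_pow, ← Real.log_pow] at h6
    have h7 : (3 : ℝ) ^ k = 2 ^ j := Real.log_injOn_pos (by simp) (by simp) h6
    have h8 : 3 ^ k = 2 ^ j := by exact_mod_cast h7
    have h9 : 2 ∣ 3 ^ k := h8 ▸ dvd_pow_self 2 (by omega)
    exact absurd (Nat.prime_two.dvd_of_dvd_pow h9) (by norm_num)
  rcases lt_or_gt_of_ne h5 with h6 | h6
  · rw [abs_of_neg h6] at h4
    exact ⟨j, -k, by push_cast; linarith, by push_cast; linarith⟩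
  · rw [abs_of_pos h6] at h4
    exact ⟨-j, k, by push_cast; linarith, by push_cast; linarith⟩

lemma dense23 {η : ℝ} (hη : 0 < η) (a₀ : ℕ) : ∀ᶠ x : ℝ in atTop, ∃ a b : ℕ, a₀ ≤ a ∧ a₀ ≤ b ∧
    x ≤ 2 ^ a * 3 ^ b ∧ 2 ^ a * 3 ^ b ≤ (1 + η) * x := by
  have h2 : 0 < Real.log 2 := Real.log_pos (by norm_num)
  obtain ⟨u, v, h0, h1⟩ := small_step (Real.log_pos (show 1 < 1 + η by linarith))
  set θ := u * Real.log 2 + v * Real.log 3 with hθ
  set J : ℤ := ⌈Real.log 2 / θ⌉ with hJ
  set B : ℤ := a₀ + J * |v| with hB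
  filter_upwards [eventually_gt_atTop 0, Real.tendsto_log_atTop.eventually_ge_atTop
    ((a₀ + J * |u| : ℤ) * Real.log 2 + B * Real.log 3)] with x hx hx'
  set A : ℤ := ⌊(Real.log x - B * Real.log 3) / Real.log 2⌋ with hA
  have hA1 : a₀ + J * |u| ≤ A := by
    rw [hA, Int.le_floor, le_div_iff₀ h2]; linarith
  have hA2 : A * Real.log 2 ≤ Real.log x - B * Real.log 3 := by
    rw [← le_div_iff₀ h2]; exact Int.floor_le _
  have hA3 : Real.log x - B * Real.log 3 < (A + 1) * Real.log 2 := by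
    rw [← div_lt_iff₀ h2]; exact Int.lt_floor_add_one _
  set y := Real.log x - B * Real.log 3 - A * Real.log 2 with hy
  set j : ℤ := ⌈y / θ⌉ with hj
  have hj0 : 0 ≤ j := Int.ceil_nonneg (div_nonneg (by linarith) h0.le)
  have hj1 : j ≤ J := Int.ceil_mono (div_le_div_of_nonneg_right (by linarith) h0.le)
  have hj2 : y ≤ j * θ := by rw [← div_le_iff₀ h0]; exact Int.le_ceil _
  have hj3 : (j - 1) * θ < y := by
    rw [← lt_div_iff₀ h0]; linarith [Int.ceil_lt_add_one (y / θ)]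
  have h3 : (a₀ : ℤ) ≤ A + j * u := by
    nlinarith [neg_abs_le u, abs_nonneg u]
  have h4 : (a₀ : ℤ) ≤ B + j * v := by
    nlinarith [neg_abs_le v, abs_nonneg v]
  obtain ⟨a, ha⟩ := Int.eq_ofNat_of_zero_le (le_trans (Int.natCast_nonneg _) h3)
  obtain ⟨b, hb⟩ := Int.eq_ofNat_of_zero_le (le_trans (Int.natCast_nonneg _) h4)
  have h5 : Real.log (2 ^ a * 3 ^ b) = A * Real.log 2 + B * Real.log 3 + j * θ := by
    have ha' : (a : ℝ) = A + j * u := by exact_mod_cast ha.symm
    have hb' : (b : ℝ) = B + j * v := by exact_mod_cast hb.symm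
    rw [Real.log_mul (by positivity) (by positivity), Real.log_pow, Real.log_pow, ha', hb', hθ]
    ring
  refine ⟨a, b, by omega, by omega, ?_, ?_⟩
  · rw [← Real.log_le_log_iff hx (by positivity), h5]; linarith
  · rw [← Real.log_le_log_iff (by positivity) (by positivity), h5,
      Real.log_mul (by positivity) hx.ne']
    linarith

lemma AS.reduce' {V : Type} [Fintype V] [DecidableEq V] (l a : ℕ) [Fact l.Prime] {R w K : ℕ}
    {p ε η : ℝ} (hR : 1 ≤ R) (h : AS V R w p ε) (hp : 0 ≤ p) (hε : 0 ≤ ε) (hη : 0 < η)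
    (hη1 : η ≤ 1) (ha : 1 + η ≤ η * (l : ℝ) ^ a)
    (hK : (1 + η) ^ 2 * (l : ℝ) ^ a * (w + R) ≤ K + R) :
    AS V R K ((1 + η) * (p / ((l : ℝ) ^ a) ^ R)) (2 * (Real.exp (-(η ^ 2 * w)) + ε)) := by
  have ha0 : a ≠ 0 := by rintro rfl; simp at ha; linarith
  let _ : Fintype (GaloisField l a) := Fintype.ofFinite _
  have hc : (Fintype.card (GaloisField l a) : ℝ) = (l : ℝ) ^ a := by
    rw [← Nat.card_eq_fintype_card, GaloisField.card l a ha0]; push_cast; rfl
  have h1 := h.reduce (GaloisField l a) (K := K) hR hp hε hη (by rwa [hc])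
  have h2 := card_sub_one_pos (F := GaloisField l a)
  rw [hc] at h1 h2
  have h3 : (l : ℝ) ^ a / ((l : ℝ) ^ a - 1) ≤ 1 + η := by
    rw [div_le_iff₀ h2]; nlinarith
  refine h1.mono le_rfl (mul_le_mul_of_nonneg_right h3 (by positivity))
    (mul_le_mul_of_nonneg_right (by linarith) (by positivity))

lemma AS.two {V : Type} [Fintype V] [DecidableEq V] (a b : ℕ) {R w K : ℕ}
    {p ε η : ℝ} (hR : 1 ≤ R) (h : AS V R w p ε) (hp : 0 ≤ p) (hε : 0 ≤ ε) (hη : 0 < η)
    (hη1 : η ≤ 1) (ha : 1 + η ≤ η * 2 ^ a) (hb : 1 + η ≤ η * 3 ^ b) (hw : 2 * R + 1 ≤ η * w)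
    (hK : (1 + η) ^ 5 * (2 ^ a * 3 ^ b) * w ≤ K + R) :
    AS V R K ((1 + η) ^ 2 * (p / (2 ^ a * 3 ^ b) ^ R)) (6 * Real.exp (-(η ^ 2 * w)) + 4 * ε) := by
  have : Fact (Nat.Prime 3) := ⟨Nat.prime_three⟩
  set K₁ := ⌈(1 + η) ^ 2 * (2 : ℝ) ^ a * (w + R)⌉₊ with hK₁
  have h1 : (1 + η) ^ 2 * (2 : ℝ) ^ a * (w + R) ≤ K₁ := Nat.le_ceil _
  have h2 : (K₁ : ℝ) < (1 + η) ^ 2 * (2 : ℝ) ^ a * (w + R) + 1 := Nat.ceil_lt_add_one (by positivity)
  have hR0 : (0 : ℝ) ≤ R := Nat.cast_nonneg _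
  have hw0 : (0 : ℝ) ≤ w := Nat.cast_nonneg _
  have h3 : (1 : ℝ) ≤ (1 + η) ^ 2 * 2 ^ a :=
    one_le_mul_of_one_le_of_one_le (one_le_pow₀ (by linarith)) (one_le_pow₀ (by norm_num))
  have h4 : (K₁ : ℝ) + R ≤ (1 + η) ^ 3 * 2 ^ a * w := by
    nlinarith [mul_le_mul_of_nonneg_left hw (le_trans zero_le_one h3),
      mul_le_mul_of_nonneg_right h3 (show (0 : ℝ) ≤ R + 1 by linarith)]
  have h5 := h.reduce' 2 a (K := K₁) hR hp hε hη hη1 (by exact_mod_cast ha)
    (by push_cast; linarith)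
  have h6 := h5.reduce' 3 b (K := K) hR (by positivity) (by positivity) hη hη1
    (by exact_mod_cast hb) (by
      push_cast
      refine le_trans ?_ hK
      calc _ ≤ (1 + η) ^ 2 * 3 ^ b * ((1 + η) ^ 3 * 2 ^ a * w) := by gcongr
        _ = _ := by ring)
  refine h6.mono le_rfl (le_of_eq ?_) ?_
  · push_cast; rw [mul_pow]; field_simp
  · have h7 : Real.exp (-(η ^ 2 * K₁)) ≤ Real.exp (-(η ^ 2 * w)) := by
      rw [Real.exp_le_exp, neg_le_neg_iff]
      refine mul_le_mul_of_nonneg_left ?_ (by positivity)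
      nlinarith [mul_le_mul_of_nonneg_right h3 (show (0 : ℝ) ≤ w + R by linarith)]
    linarith

lemma AS_of_lt {R m : ℕ} (hm : R ≤ m) {p c : ℝ} (hc : 0 ≤ c)
    (hp : Tendsto (fun n : ℕ => (exF (m + 1) (R + 1) n : ℝ) / n.choose (m + 1)) atTop (𝓝 p))
    (h : ((m : ℝ) + 1) ^ R * (1 - p) < c) (V : Type) [Fintype V] [DecidableEq V] :
    AS V R (m + 1) (c / ((m : ℝ) + 1) ^ R) (R / (m + 1) * (2 ^ R * c)) := by
  have h1 : ¬ c / ((m : ℝ) + 1) ^ R ≤ 1 - p := by
    rw [not_le, lt_div_iff₀ (by positivity), mul_comm]; exact h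
  have h2 : ¬ ∀ (n : ℕ) (g : Multiset (Fin (n + 1)) → Prop), Hit (R + 1) m g →
      c / ((m : ℝ) + 1) ^ R ≤ Ex (m + 1) (fun M => ind (g M)) :=
    fun h3 => h1 (lower_transfer (by omega) (by omega) hp h3)
  push Not at h2
  obtain ⟨n, g, hg, h3⟩ := h2
  refine (AS_base hg h3.le).mono le_rfl le_rfl (mul_le_mul_of_nonneg_left ?_ (by positivity))
  rw [mul_div_assoc', div_le_iff₀ (by positivity), mul_right_comm, ← mul_pow]
  refine mul_le_mul_of_nonneg_right ?_ hc
  rw [Nat.choose_symm_add]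
  exact_mod_cast (Nat.choose_le_pow _ R).trans (Nat.pow_le_pow_left (by omega) R)

/-- a good level gives good systems at all large levels -/
theorem key {R : ℕ} (hR : 1 ≤ R) {c c' : ℝ} (hc : 0 ≤ c) (hcc : c < c')
    (h : ∃ᶠ m : ℕ in atTop, ∃ p : ℝ,
      Tendsto (fun n : ℕ => (exF (m + 1) (R + 1) n : ℝ) / n.choose (m + 1)) atTop (𝓝 p) ∧
      ((m : ℝ) + 1) ^ R * (1 - p) < c) :
    ∀ᶠ k : ℕ in atTop, ∀ (V : Type) [Fintype V] [DecidableEq V], AS V R k (c' / (k : ℝ) ^ R) 0 := by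
  obtain ⟨C, hC, s₀, hs⟩ := AS_bound R
  obtain ⟨η, hη, hη1, hΦ⟩ : ∃ η : ℝ, 0 < η ∧ η ≤ 1 / 2 ∧
      (1 + η) ^ 2 * (c * ((1 + η) ^ 6 / (1 - η)) ^ R) ≤ (c + c') / 2 := by
    have h1 : ContinuousAt (fun η : ℝ => (1 + η) ^ 2 * (c * ((1 + η) ^ 6 / (1 - η)) ^ R)) 0 := by
      fun_prop (disch := norm_num)
    have h2 := h1.eventually (gt_mem_nhds (show _ < (c + c') / 2 by simp; linarith))
    have h3 : ∀ᶠ η : ℝ in 𝓝[>] 0, _ := (h2.and (gt_mem_nhds (show (0 : ℝ) < 1 / 2 by
      norm_num))).filter_mono nhdsWithin_le_nhds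
    obtain ⟨η, h4, h5⟩ := (h3.and self_mem_nhdsWithin).exists
    exact ⟨η, h5, h4.2.le, h4.1.le⟩
  have hT : Tendsto (fun m : ℕ => (m : ℝ) + 1) atTop atTop :=
    tendsto_atTop_add_const_right _ _ tendsto_natCast_atTop_atTop
  have h1 : Tendsto (fun m : ℕ => (6 * Real.exp (-(η ^ 2 * ((m : ℝ) + 1)))
      + 4 * (R / ((m : ℝ) + 1) * (2 ^ R * c))) * (C * (2 / η) ^ R)) atTop
      (𝓝 ((6 * 0 + 4 * (0 * (2 ^ R * c))) * (C * (2 / η) ^ R))) := by
    refine Tendsto.mul_const _ (Tendsto.add (Tendsto.const_mul _ ?_)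
      (Tendsto.const_mul _ (Tendsto.mul_const _ (hT.const_div_atTop _))))
    exact Real.tendsto_exp_neg_atTop_nhds_zero.comp (hT.const_mul_atTop (by positivity))
  obtain ⟨m, ⟨p, hp, hlt⟩, h2, h3, h4⟩ := (h.and_eventually
    ((h1.eventually (gt_mem_nhds (show _ < (c' - c) / 2 by simp; linarith))).and
      ((eventually_ge_atTop R).and
        ((hT.const_mul_atTop hη).eventually_ge_atTop (2 * R + 1))))).exists
  obtain ⟨a₀, ha₀⟩ := exists_nat_gt ((1 + η) / η)
  have ha₁ : ∀ (l : ℝ) (a : ℕ), 2 ≤ l → a₀ ≤ a → 1 + η ≤ η * l ^ a := by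
    intro l a hl ha
    rw [div_lt_iff₀ hη] at ha₀
    have h5 : (a₀ : ℝ) ≤ 2 ^ a := by
      exact_mod_cast ha.trans (Nat.lt_two_pow_self).le
    have h6 : (2 : ℝ) ^ a ≤ l ^ a := pow_le_pow_left₀ (by norm_num) hl _
    nlinarith
  have hN : Tendsto (fun k : ℕ => (k : ℝ)) atTop atTop := tendsto_natCast_atTop_atTop
  have hη2 : 0 < 1 - η := by linarith
  filter_upwards [(hN.const_mul_atTop (show 0 < (1 - η) / ((1 + η) ^ 6 * ((m : ℝ) + 1)) by
      positivity)).eventually (dense23 hη a₀),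
    (hN.const_mul_atTop hη).eventually_ge_atTop (2 * s₀ + 2),
    eventually_ge_atTop (2 * R)] with k ⟨a, b, ha, hb, h5, h6⟩ h7 h8 V _ _
  set s := ⌊η * k⌋₊ with hs'
  have hk0 : (0 : ℝ) < k := by exact_mod_cast (show 0 < k by omega)
  have h9 : (s : ℝ) ≤ η * k := Nat.floor_le (by positivity)
  have h10 : η * k < s + 1 := Nat.lt_floor_add_one _
  have hs0 : (0 : ℝ) ≤ s₀ := Nat.cast_nonneg _
  have h11 : s₀ ≤ s := by exact_mod_cast (show (s₀ : ℝ) ≤ s by linarith)
  have h12 : 2 * s ≤ k := by exact_mod_cast (show (2 * s : ℝ) ≤ k by nlinarith)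
  obtain ⟨K, hK⟩ : ∃ K, k = K + R + s := ⟨k - R - s, by omega⟩
  have hK' : (k : ℝ) = K + R + s := by exact_mod_cast hK
  have h13 := (AS_of_lt h3 hc hp hlt V).two a b (K := K) hR (by positivity) (by positivity) hη
    (by linarith) (ha₁ 2 a le_rfl ha) (ha₁ 3 b (by norm_num) hb) (by push_cast; exact h4) (by
      push_cast
      calc _ ≤ (1 + η) ^ 5 * ((1 + η) * ((1 - η) / ((1 + η) ^ 6 * ((m : ℝ) + 1)) * k)) * (m + 1) := by
            gcongr
        _ = (1 - η) * k := by field_simp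
        _ ≤ _ := by linarith)
  have h14 := h13.repair (hs V s h11) (by positivity)
  rw [← hK, mul_zero] at h14
  refine h14.mono le_rfl ?_ le_rfl
  have h15 : c / ((m : ℝ) + 1) ^ R / (2 ^ a * 3 ^ b) ^ R
      ≤ c * ((1 + η) ^ 6 / (1 - η)) ^ R / (k : ℝ) ^ R := by
    rw [div_div, ← mul_pow, mul_div_assoc, ← div_pow, div_eq_mul_inv c, ← inv_pow]
    refine mul_le_mul_of_nonneg_left (pow_le_pow_left₀ (by positivity) ?_ _) hc
    rw [div_div, inv_eq_one_div, div_le_div_iff₀ (by positivity) (by positivity), one_mul]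
    rw [div_mul_eq_mul_div, div_le_iff₀ (by positivity)] at h5
    linarith
  have h16 : C / (s : ℝ) ^ R ≤ C * (2 / η) ^ R / (k : ℝ) ^ R := by
    have hs1 : (0 : ℝ) < s := by linarith
    rw [mul_div_assoc, ← div_pow, div_eq_mul_inv C, ← inv_pow]
    refine mul_le_mul_of_nonneg_left (pow_le_pow_left₀ (by positivity) ?_ _) hC.le
    rw [div_div, inv_eq_one_div, div_le_div_iff₀ hs1 (by positivity)]
    linarith
  push_cast
  refine (add_le_add (mul_le_mul_of_nonneg_left h15 (by positivity))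
    (mul_le_mul_of_nonneg_left h16 (by positivity))).trans ?_
  rw [← mul_div_assoc, ← mul_div_assoc, ← add_div]
  refine div_le_div_of_nonneg_right ?_ (by positivity)
  linarith

end Pool.Agent.P.MP_7badbe_co
end

-- part Pool.Agent.P.MP_7badbe_co.Lim.G
section

set_option autoImplicit false

open Finset Filter Topology
open scoped BigOperators

namespace Pool.Agent.P.MP_7badbe_co

lemma lim_lower {R : ℕ} (hR : 2 ≤ R) {π : ℕ → ℝ} {c : ℝ}
    (hπ : ∀ m, Tendsto (fun n : ℕ => (exF (m + 1) (R + 1) n : ℝ) / n.choose (m + 1)) atTop (𝓝 (π m)))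
    (hc : Tendsto (fun m : ℕ => ((m : ℝ) + 1) ^ R * (1 - π m)) atTop (𝓝 c)) :
    ((R + 1).factorial : ℝ) ≤ c := by
  have hT : Tendsto (fun m : ℕ => (m : ℝ) + 1) atTop atTop :=
    tendsto_atTop_add_const_right _ _ tendsto_natCast_atTop_atTop
  have h1 : Tendsto (fun m : ℕ => ((R + 1).factorial : ℝ) / (1 + R / ((m : ℝ) + 1)) ^ R) atTop
      (𝓝 (((R + 1).factorial : ℝ) / (1 + 0) ^ R)) :=
    tendsto_const_nhds.div ((tendsto_const_nhds.add (hT.const_div_atTop _)).pow _) (by simp)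
  rw [add_zero, one_pow, div_one] at h1
  refine le_of_tendsto_of_tendsto h1 hc ?_
  filter_upwards [eventually_ge_atTop (R * R)] with m hm
  refine le_trans ?_ (mul_le_mul_of_nonneg_left (lower_count hR hm (hπ m)) (by positivity))
  have h0 : (0 : ℝ) < (m + 1 + R).choose (m + 1) := by
    exact_mod_cast Nat.choose_pos (by omega)
  have h2 : ((m + 1 + R).choose (m + 1) : ℝ) ≤ ((m : ℝ) + 1 + R) ^ R / R.factorial := by
    rw [Nat.choose_symm_add]
    exact_mod_cast Nat.choose_le_pow_div (α := ℝ) R (m + 1 + R)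
  have h3 : 1 + R / ((m : ℝ) + 1) = ((m : ℝ) + 1 + R) / (m + 1) := by field_simp
  rw [le_div_iff₀ (by positivity)] at h2
  rw [h3, div_pow, div_div_eq_mul_div, ← mul_div_assoc, div_le_div_iff₀ (by positivity) h0,
    Nat.factorial_succ]
  push_cast
  calc _ = (((m : ℝ) + 1) ^ R * (R + 1)) * (((m + 1 + R).choose (m + 1) : ℝ) * R.factorial) := by
        ring
    _ ≤ _ := by gcongr

lemma hash_step {R s : ℕ} (hR : 1 ≤ R) {p c L : ℝ} (hL : L = Real.log (4 * (R + 1))) (hc : 0 ≤ c)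
    {m : ℕ} (hm : m + 1 = (R + 1) * (s + R + 2))
    (hp : Tendsto (fun n : ℕ => (exF (m + 1) (R + 1) n : ℝ) / n.choose (m + 1)) atTop (𝓝 p))
    (h : ∀ (V : Type) [Fintype V] [DecidableEq V],
      AS V R (s + R + 2) (c / ((s + R + 2 : ℕ) : ℝ) ^ R) 0)
    {y : ℝ} (hy : y ≤ (R * s).choose R) (hLy : L < y) :
    ((m : ℝ) + 1) ^ R * (1 - p)
      ≤ (2 * R + 3) * (R + 1) ^ R * (((s : ℝ) + R + 2) ^ R * L / (y - L)) + c / 8 := by
  have hR1 : (1 : ℝ) ≤ R := by exact_mod_cast hR
  have hL0 : 0 < L := hL ▸ Real.log_pos (by linarith)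
  set N := (R * s).choose R with hN
  set M := ⌊N / L⌋₊ with hM
  have hM1 : (M : ℝ) ≤ N / L := Nat.floor_le (by positivity)
  have hM2 : N / L < M + 1 := Nat.lt_floor_add_one _
  have hM3 : 1 ≤ M := Nat.le_floor (by rw [le_div_iff₀ hL0]; push_cast; linarith)
  have hM4 : (1 : ℝ) ≤ M := by exact_mod_cast hM3
  have : NeZero M := ⟨by omega⟩
  have h1 : 1 - p ≤ (2 * R + 3) / M
      + 2 ^ (2 * R + 3) * (1 / (4 * (R + 1))) ^ (R + 2) * (c / ((s + R + 2 : ℕ) : ℝ) ^ R) := by
    refine upper_AS hp (fun n => ?_)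
    have h2 := (AS_hash (Fin n) M (R * s + R * (R + 1)) R (x := 1 / (4 * (R + 1))) (by positivity)
      (by rw [div_le_one (by positivity)]; linarith) ?_).repair (h (Fin n)) (by positivity)
    · rw [mul_zero] at h2
      exact h2.mono (by rw [hm]; exact le_of_eq (by ring)) le_rfl le_rfl
    · rw [show R * s + R * (R + 1) + R - (R + 2) * R = R * s from
        Nat.sub_eq_of_eq_add (by ring), ← hN]
      have h4 : (0 : ℝ) ≤ 1 - 1 / M := by
        rw [sub_nonneg, div_le_one (by linarith)]; exact hM4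
      refine (pow_le_pow_left₀ h4 (Real.one_sub_le_exp_neg _) _).trans ?_
      rw [← Real.exp_nat_mul, one_div (4 * _), ← Real.exp_log (show (0 : ℝ) < 4 * (R + 1) by
        positivity), ← hL, ← Real.exp_neg, Real.exp_le_exp, mul_neg, neg_le_neg_iff, mul_one_div,
        le_div_iff₀ (by linarith)]
      rw [le_div_iff₀ hL0] at hM1
      linarith
  have hm' : (m : ℝ) + 1 = (R + 1) * (s + R + 2) := by exact_mod_cast hm
  refine (mul_le_mul_of_nonneg_left h1 (by positivity)).trans ?_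
  rw [hm', mul_pow, mul_add]
  push_cast
  refine add_le_add ?_ ?_
  · have h2 : (1 : ℝ) / M ≤ L / (y - L) := by
      rw [div_le_div_iff₀ (by linarith) (by linarith)]
      rw [div_lt_iff₀ hL0] at hM2
      linarith
    calc _ = (2 * R + 3) * (R + 1) ^ R * (((s : ℝ) + R + 2) ^ R * (1 / M)) := by ring
      _ ≤ (2 * R + 3) * (R + 1) ^ R * (((s : ℝ) + R + 2) ^ R * (L / (y - L))) := by gcongr
      _ = _ := by ring
  · have h2 : ((R : ℝ) + 1) ^ R * ((s : ℝ) + R + 2) ^ R * (2 ^ (2 * R + 3) *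
        (1 / (4 * (R + 1))) ^ (R + 2) * (c / ((s : ℝ) + R + 2) ^ R)) = c / (2 * (R + 1) ^ 2) := by
      rw [one_div, inv_pow, mul_pow, pow_add, pow_mul, pow_add, pow_add]
      field_simp
      norm_num
      exact Or.inl (mul_comm _ _)
    rw [h2]
    refine div_le_div_of_nonneg_left hc (by norm_num) (by nlinarith)

lemma lim_upper {R : ℕ} (hR : 1 ≤ R) {π : ℕ → ℝ} {c : ℝ} (hc0 : 0 ≤ c)
    (hπ : ∀ m, Tendsto (fun n : ℕ => (exF (m + 1) (R + 1) n : ℝ) / n.choose (m + 1)) atTop (𝓝 (π m)))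
    (hc : Tendsto (fun m : ℕ => ((m : ℝ) + 1) ^ R * (1 - π m)) atTop (𝓝 c))
    (hU : ∀ c' > c, ∀ᶠ k : ℕ in atTop, ∀ (V : Type) [Fintype V] [DecidableEq V],
      AS V R k (c' / (k : ℝ) ^ R) 0) :
    c ≤ 8 * (R + 1).factorial * Real.log (4 * (R + 1)) := by
  set L := Real.log (4 * (R + 1)) with hL
  have hR1 : (1 : ℝ) ≤ R := by exact_mod_cast hR
  have hL0 : 0 < L := Real.log_pos (by linarith)
  have hF : (0 : ℝ) < R.factorial := by positivity
  have hT : Tendsto (fun s : ℕ => (s : ℝ) + R + 2) atTop atTop :=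
    tendsto_atTop_add_const_right _ _
      (tendsto_atTop_add_const_right _ _ tendsto_natCast_atTop_atTop)
  have h1 : Tendsto (fun s : ℕ => (R - (R * (R + 3) - 1) / ((s : ℝ) + R + 2)) ^ R / R.factorial
      - L / ((s : ℝ) + R + 2) ^ R) atTop (𝓝 ((R - 0) ^ R / R.factorial - 0)) :=
    (((tendsto_const_nhds.sub (hT.const_div_atTop _)).pow _).div_const _).sub
      (((tendsto_pow_atTop (by omega)).comp hT).const_div_atTop _)
  rw [sub_zero, sub_zero] at h1
  have h2 : ∀ c' > c, c ≤ (2 * R + 3) * (R + 1) ^ R * (L / (R ^ R / R.factorial)) + c' / 8 := by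
    intro c' hc'
    have h3 : Tendsto (fun s : ℕ => (R + 1) * (s + R + 2) - 1) atTop atTop :=
      tendsto_atTop_mono (fun s => by
        show s ≤ _
        exact Nat.le_sub_one_of_lt (by nlinarith)) tendsto_id
    refine le_of_tendsto_of_tendsto (hc.comp h3)
      (((tendsto_const_nhds.div h1 (by positivity)).const_mul _).add_const _) ?_
    filter_upwards [(tendsto_add_atTop_nat (R + 2)).eventually (hU c' hc'),
      h1.eventually (lt_mem_nhds (show 0 < (R : ℝ) ^ R / R.factorial by positivity)),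
      eventually_ge_atTop 1] with s h4 h5 h6
    have hs0 : (0 : ℝ) < ((s : ℝ) + R + 2) ^ R := by positivity
    have h7 : (R - (R * (R + 3) - 1) / ((s : ℝ) + R + 2)) ^ R / R.factorial
        - L / ((s : ℝ) + R + 2) ^ R
        = (((R : ℝ) * s + 1 - R) ^ R / R.factorial - L) / ((s : ℝ) + R + 2) ^ R := by
      rw [show R - (R * (R + 3) - 1) / ((s : ℝ) + R + 2) = (R * s + 1 - R) / ((s : ℝ) + R + 2) by
        field_simp; ring, div_pow]
      field_simp
    rw [h7, lt_div_iff₀ hs0, zero_mul, sub_pos] at h5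
    have h8 : ((R : ℝ) * s + 1 - R) ^ R / R.factorial ≤ (R * s).choose R := by
      have h9 := Nat.pow_le_choose (α := ℝ) R (R * s)
      rwa [Nat.cast_sub (by nlinarith), Nat.cast_add, Nat.cast_mul, Nat.cast_one] at h9
    refine (hash_step hR hL (by linarith) (Nat.sub_add_cancel (Nat.succ_le_of_lt (by positivity)))
      (hπ _) h4 h8 h5).trans (le_of_eq ?_)
    simp only [Pi.div_apply]
    rw [h7, div_div_eq_mul_div, mul_comm L]
  have h3 : c ≤ (2 * R + 3) * (R + 1) ^ R * (L / (R ^ R / R.factorial)) + c / 8 :=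
    le_of_forall_pos_le_add (fun ε hε => by linarith [h2 (c + 8 * ε) (by linarith)])
  have h4 : ((R : ℝ) + 1) ^ R ≤ 2.72 * R ^ R := by
    have h5 : (1 + 1 / (R : ℝ)) ^ R ≤ Real.exp (1 / R) ^ R :=
      pow_le_pow_left₀ (by positivity) (by linarith [Real.add_one_le_exp (1 / (R : ℝ))]) _
    rw [← Real.exp_nat_mul, mul_one_div_cancel (by positivity),
      show 1 + 1 / (R : ℝ) = (R + 1) / R by field_simp, div_pow, div_le_iff₀ (by positivity)] at h5
    exact h5.trans (mul_le_mul_of_nonneg_right (by linarith [Real.exp_one_lt_d9]) (by positivity))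
  have h5 : (2 * R + 3) * ((R : ℝ) + 1) ^ R * (L / (R ^ R / R.factorial))
      ≤ 7 * ((R + 1) * R.factorial) * L := by
    calc _ ≤ (2 * R + 3) * (2.72 * (R : ℝ) ^ R) * (L / (R ^ R / R.factorial)) := by gcongr
      _ = (2 * R + 3) * 2.72 * (R.factorial * L) := by field_simp
      _ ≤ 7 * (R + 1) * (R.factorial * L) :=
        mul_le_mul_of_nonneg_right (by linarith) (by positivity)
      _ = _ := by ring
  rw [Nat.factorial_succ]
  push_cast
  linarith

theorem limit_exists (i : ℕ) (hi : 2 ≤ i) : ∃ c : ℝ, 0 < c ∧ (3 ≤ i → (i.factorial : ℝ) ≤ c) ∧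
    c ≤ 8 * i.factorial * Real.log (4 * i) ∧ ∀ ε : ℝ, 0 < ε → ∃ k₀ : ℕ, ∀ k ≥ k₀, ∃ p : ℝ,
      Tendsto (fun n : ℕ => (exF k i n : ℝ) / n.choose k) atTop (𝓝 p) ∧
      (c - ε) / (k : ℝ) ^ (i - 1) ≤ 1 - p ∧ 1 - p ≤ (c + ε) / (k : ℝ) ^ (i - 1) := by
  obtain ⟨c₁, C₁, hc₁, k₁, h₁⟩ := fixed i (by omega)
  obtain ⟨R, rfl⟩ : ∃ R, i = R + 1 := ⟨i - 1, by omega⟩
  have hR : 1 ≤ R := by omega
  choose π hπ using fun m => exists_limit (m := m) (i := R + 1) (by omega)
  set u : ℕ → ℝ := fun m => ((m : ℝ) + 1) ^ R * (1 - π m) with hu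
  have h1 : ∀ᶠ m in atTop, c₁ ≤ u m ∧ u m ≤ C₁ := by
    filter_upwards [eventually_ge_atTop k₁] with m hm
    obtain ⟨p, hp, h2, h3⟩ := h₁ (m + 1) (by omega)
    rw [tendsto_nhds_unique hp (hπ m), Nat.add_sub_cancel] at h2 h3
    push_cast at h2 h3
    rw [div_le_iff₀' (by positivity)] at h2
    rw [le_div_iff₀' (by positivity)] at h3
    exact ⟨h2, h3⟩
  have hb : IsBoundedUnder (· ≥ ·) atTop u := ⟨c₁, by simpa using h1.mono (fun _ h => h.1)⟩
  have hb' : IsCoboundedUnder (· ≥ ·) atTop u :=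
    isCoboundedUnder_ge_of_eventually_le atTop (h1.mono (fun _ h => h.2))
  set c := liminf u atTop with hc
  have h2 : c₁ ≤ c := le_liminf_of_le hb' (h1.mono (fun _ h => h.1))
  have hU : ∀ c' > c, ∀ᶠ k : ℕ in atTop, ∀ (V : Type) [Fintype V] [DecidableEq V],
      AS V R k (c' / (k : ℝ) ^ R) 0 := fun c' hc' =>
    key hR (c := (c + c') / 2) (by linarith) (by linarith)
      ((frequently_lt_of_liminf_lt hb' (by linarith : c < (c + c') / 2)).mono
        (fun m hm => ⟨π m, hπ m, hm⟩))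
  have h3 : Tendsto u atTop (𝓝 c) := by
    refine tendsto_order.2 ⟨fun a ha => eventually_lt_of_lt_liminf ha hb, fun a ha => ?_⟩
    filter_upwards [(tendsto_add_atTop_nat 1).eventually (hU ((c + a) / 2) (by linarith))] with m hm
    have h4 := upper_AS (hπ m) (fun n => hm (Fin n))
    push_cast at h4
    rw [le_div_iff₀' (by positivity)] at h4
    exact h4.trans_lt (by linarith)
  refine ⟨c, by linarith, fun h => lim_lower (by omega) hπ h3, ?_, fun ε hε => ?_⟩
  · exact_mod_cast lim_upper hR (by linarith) hπ h3 hU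
  · obtain ⟨m₀, hm₀⟩ := eventually_atTop.1 ((h3.eventually (lt_mem_nhds (sub_lt_self c hε))).and
      (h3.eventually (gt_mem_nhds (lt_add_of_pos_right c hε))))
    refine ⟨m₀ + 1, fun k hk => ?_⟩
    obtain ⟨m, rfl⟩ : ∃ m, k = m + 1 := ⟨k - 1, by omega⟩
    obtain ⟨h4, h5⟩ := hm₀ m (by omega)
    refine ⟨π m, hπ m, ?_, ?_⟩
    · rw [Nat.add_sub_cancel]; push_cast
      rw [div_le_iff₀' (by positivity)]; exact h4.le
    · rw [Nat.add_sub_cancel]; push_cast
      rw [le_div_iff₀' (by positivity)]; exact h5.le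

end Pool.Agent.P.MP_7badbe_co
end
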