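import Pool.Agent.K.MP_7badbe_co.C0

-- part Pool.Agent.P.MP_7badbe_co.Sp.A
section

set_option autoImplicit false
set_option linter.unusedSectionVars false

section


open Finset
open scoped BigOperators

namespace Pool.Agent.P.MP_7badbe_co

variable {V : Type} [Fintype V]

/-- sum of `F` over all sub-multisets of size `s` -/
noncomputable def SS (s : ℕ) (F : Multiset V → ℝ) (T : Multiset V) : ℝ :=
  splitSum s (fun I _ => F I) T

/-- sum over all splittings -/
noncomputable def conv (a F : Multiset V → ℝ) (T : Multiset V) : ℝ :=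
  (T.antidiagonal.map (fun p => a p.1 * F p.2)).sum

/-- expectation over paths: each step is a uniform point with probability `q`, else nothing -/
noncomputable def Pe (q : ℝ) : ℕ → (List (Option V) → ℝ) → ℝ
  | 0, F => F []
  | n + 1, F => (1 - q) * Pe q n (fun p => F (none :: p))
      + q * 𝔼 x, Pe q n (fun p => F (some x :: p))

/-- final state of a path -/
def fin : Multiset V → List (Option V) → Multiset V
  | T, [] => T
  | T, none :: p => fin T p
  | T, some x :: p => fin (x ::ₘ T) p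

/-- planted weight of a path -/
noncomputable def wt (q : ℝ) (ρ : ℕ → Multiset V → V → ℝ) :
    ℕ → Multiset V → List (Option V) → ℝ
  | n + 1, T, none :: p => (1 + q * (𝔼 x, (1 - ρ n T x)) / (1 - q)) * wt q ρ n T p
  | n + 1, T, some x :: p => ρ n T x * wt q ρ n (x ::ₘ T) p
  | _, _, _ => 1

/-- null expectation of a function of the final state -/
noncomputable def En (q : ℝ) (n : ℕ) (T : Multiset V) (F : Multiset V → ℝ) : ℝ :=
  Pe q n (fun p => F (fin T p))

/-- planted expectation -/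
noncomputable def nu1 (q : ℝ) (ρ : ℕ → Multiset V → V → ℝ) (n : ℕ) (T : Multiset V)
    (F : Multiset V → ℝ) : ℝ :=
  Pe q n (fun p => wt q ρ n T p * F (fin T p))

/-- doubly planted expectation -/
noncomputable def nu2 (q : ℝ) (ρ ρ' : ℕ → Multiset V → V → ℝ) (n : ℕ) (T : Multiset V)
    (F : Multiset V → ℝ) : ℝ :=
  Pe q n (fun p => wt q ρ n T p * wt q ρ' n T p * F (fin T p))

/-- mean weight of the edges through `ω` whose last point is new -/
noncomputable def GG (j : ℕ) (g : Multiset V → V → ℝ) (ω : Multiset V) : ℝ :=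
  Ex (j - 1 - ω.card) (fun R => 𝔼 x, g (ω + R) x)

noncomputable def Pot (j : ℕ) (q : ℝ) (e : ℕ) (g : Multiset V → V → ℝ) (n : ℕ)
    (T : Multiset V) : ℝ :=
  ∑ s ∈ range j, ((n + e).choose (j - s) : ℝ) * q ^ (j - s) * SS s (GG j g) T

noncomputable def PotW (j : ℕ) (q : ℝ) (e : ℕ) (g : Multiset V → V → ℝ) (n : ℕ)
    (T : Multiset V) : ℝ :=
  ∑ s ∈ range j, ((j - s : ℕ) : ℝ) * (((n + e).choose (j - s) : ℝ) * q ^ (j - s) * SS s (GG j g) T)

noncomputable def jump (j : ℕ) (q : ℝ) (e : ℕ) (g : Multiset V → V → ℝ) (n : ℕ)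
    (T : Multiset V) (x : V) : ℝ :=
  ∑ s ∈ range (j - 1), ((n + e).choose (j - 1 - s) : ℝ) * q ^ (j - 1 - s)
    * SS s (fun ω => GG j g (x ::ₘ ω)) T

noncomputable def rel (j : ℕ) (g : Multiset V → V → ℝ) (T : Multiset V) (x : V) : ℝ :=
  SS (j - 1) (fun ω => g ω x) T

noncomputable def gL (L : Multiset V → Prop) (ω : Multiset V) (x : V) : ℝ := ind (L (x ::ₘ ω))

noncomputable def rho0 (D : ℝ) : ℝ := max (max (1 - D / 3) ((5 - D) / 6)) 0

/-- acceptance probability of the planted process -/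
noncomputable def rhoL (j : ℕ) (q : ℝ) (e : ℕ) (L : Multiset V → Prop) (n : ℕ)
    (T : Multiset V) (x : V) : ℝ :=
  if 0 < rel j (gL L) T x then 0 else rho0 (jump j q e (gL L) n T x)

def IndT (j : ℕ) (L : Multiset V → Prop) (T : Multiset V) : Prop :=
  ∀ J ≤ T, J.card = j → ¬ L J

/-- normalised degree -/
noncomputable def dg (j : ℕ) (lam : ℝ) (L : Multiset V → Prop) (σ : Multiset V) : ℝ :=
  lam ^ (j - σ.card) * Ex (j - σ.card) (fun R => ind (L (σ + R)))

def NoForb (j : ℕ) (lam D : ℝ) (L : Multiset V → Prop) (J : Multiset V) : Prop :=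
  ∀ τ ≤ J, τ.card < j → dg j lam L τ < D

def Cov (j : ℕ) (lam η : ℝ) (L : Multiset V → Prop) (ω : Multiset V) (x : V) : Prop :=
  ∃ σ ≤ ω, η ≤ dg j lam L (x ::ₘ σ)

open Classical in
/-- number of points of `J` that lie in a heavy sub-multiset of `W` -/
noncomputable def cnt (j : ℕ) (lam η : ℝ) (L : Multiset V → Prop) (W J : Multiset V) : ℕ :=
  J.countP (fun x => Cov j lam η L (W.erase x) x)

noncomputable def gP (j : ℕ) (lam η D : ℝ) (L L' bad : Multiset V → Prop) (ω : Multiset V)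
    (x : V) : ℝ :=
  ind (L (x ::ₘ ω)) * (1 / 6 + 1 / 3 *
    ind (bad (x ::ₘ ω) ∨ (NoForb j lam D L' (x ::ₘ ω) ∧ Cov j lam η L' ω x)))

def Cr (j : ℕ) (lam η : ℝ) (L L' : Multiset V → Prop) (T : Multiset V) (x : V) : Prop :=
  ∃ σ α α' : Multiset V, σ + α + α' ≤ T ∧ (σ + α).card = j - 1 ∧ (σ + α').card = j - 1 ∧
    L (x ::ₘ (σ + α)) ∧ L' (x ::ₘ (σ + α')) ∧
    (dg j lam L' (x ::ₘ σ) < η ∨ dg j lam L (x ::ₘ σ) < η)

noncomputable def cr (j : ℕ) (lam η : ℝ) (L L' : Multiset V → Prop) (T : Multiset V) : ℝ :=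
  𝔼 x, ind (Cr j lam η L L' T x)

noncomputable def abar (j : ℕ) (lam η : ℝ) (L L' : Multiset V → Prop) (c : Multiset V) : ℝ :=
  lam * ∑ s ∈ range j, splitSum s (fun σ ρ => splitSum (j - 1 - s) (fun α α' =>
    ind (α'.card = j - 1 - s) * 𝔼 x, ind (L (x ::ₘ (σ + α))) * ind (L' (x ::ₘ (σ + α')))
      * (ind (dg j lam L' (x ::ₘ σ) < η) + ind (dg j lam L (x ::ₘ σ) < η))) ρ) c

noncomputable def Sr (a : Multiset V → ℝ) : ℕ → Multiset V → ℝ
  | 0 => fun _ => 1
  | r + 1 => conv a (Sr a r)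

noncomputable def FF (a : Multiset V → ℝ) (b : ℝ) (R : ℕ) (T : Multiset V) : ℝ :=
  Real.exp b * ∑ r ∈ range (R + 1), Real.exp (b * r) * Sr a r T

def Cap (j : ℕ) (lam : ℝ) (L : Multiset V → Prop) (B : ℝ) (T : Multiset V) : Prop :=
  ∀ u T', u ::ₘ T' ≤ T → lam * SS (j - 2) (fun ω => 𝔼 x, ind (L (x ::ₘ u ::ₘ ω))) T' ≤ B

noncomputable def Qf (j : ℕ) (q : ℝ) (e : ℕ) (L : Multiset V → Prop) (n : ℕ)
    (T : Multiset V) : ℝ :=
  splitSum 1 (fun I T' => (I.map (fun u => jump j q e (gL L) n T' u ^ 2)).sum) T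

/-- the numerical conditions of the lower bound for `j ≥ 2` -/
def Par (j m : ℕ) (δ : ℝ) : Prop :=
  ∃ (y z n e M t : ℕ) (q eps ξ η D B b ε₃ Λ : ℝ),
    z + y + j = m + 1 ∧ y ≤ z ∧ 1 ≤ e ∧ 1 ≤ M ∧ M * j ≤ y + j ∧
    0 < q ∧ Real.exp 5 * q ≤ 1 ∧ (m : ℝ) < n * q ∧ 1 ≤ n * q ∧
    0 < δ ∧ 0 < eps ∧ 2 ≤ ξ ∧ 0 < η ∧ η ≤ D ∧ 0 < B ∧ 1 ≤ b ∧ 0 < ε₃ ∧
    (∀ r, 1 ≤ r → r < j → 5 * (n * q) ^ r ≤ D * ((e.choose r : ℝ) * q ^ r)) ∧
    (n * q) ^ j * ((1 + eps) * δ) < D ∧
    8 * (√(n * q) + j * (((n + e).choose j : ℝ) * q ^ j * ((1 + eps) * δ))) ≤ n * q - m ∧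
    40 * j ^ 2 * (((n + e).choose j : ℝ) * q ^ j * ((1 + eps) * δ)) ≤ B ^ 2 ∧
    4 * j * (n / e * B) ≤ b ∧
    Real.exp b * (2 * j * Real.exp 5 ^ (2 * j) * η * (n * q) ^ j * ((1 + eps) * δ)) ≤ 1 / 2 ∧
    1 / ξ + (t / M + 2 ^ M / (ξ ^ t * M * δ)) / ε₃ ≤ eps / (1 + eps) / 8 ∧
    n * q ≤ Λ ∧
    Real.exp (2 * (((n + e).choose j : ℝ) * q ^ j * ((1 + eps) * δ)) / (3 * j)) ≤ Λ ∧
    z * δ * (2 * Real.exp b * Real.exp (n * q ^ 2 / (1 - q))
      * (Real.exp (((n + e).choose j : ℝ) * q ^ j * ((1 + eps) * δ) / 3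
          + 2 * (((n + e).choose j : ℝ) * q ^ j * (ε₃ * δ)) / 3)
        * (1 + ξ ^ 2 * (Λ / (n * q)) ^ j * (2 ^ (2 * j + 1) * D / η) ^ j)))
      < (eps / (1 + eps) / 4) ^ 2

/-! the case `j = 1` -/

noncomputable def dd (g : Multiset V → Prop) (S : Multiset V) : ℝ := 𝔼 v, ind (g (v ::ₘ S))

noncomputable def fm (g : Multiset V → Prop) (r : ℕ) (W : Multiset V) : ℝ :=
  Ex r (fun R => dd g (W + R))

noncomputable def av (g : Multiset V → Prop) (z : ℕ) (S Z : Multiset V) : ℝ :=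
  ind (∀ v ∈ Z, ¬ g (v ::ₘ S)) / (1 - dd g S) ^ z

/-- the numerical conditions of the lower bound for `j = 1` -/
def Par1 (m : ℕ) (δ : ℝ) : Prop :=
  ∃ (y z : ℕ) (eps E σ : ℝ), z + 2 * y = m ∧ 1 ≤ y ∧ 0 < δ ∧ 0 < eps ∧ eps ≤ 1 ∧
    (1 + eps) * δ < 1 ∧
    Real.exp (z * ((1 + eps) * δ) / (1 - (1 + eps) * δ) ^ 2) ≤ E ∧
    (24 / eps * δ) ^ 2 + 24 / eps * δ / (y + 1) ≤ σ ∧
    8 * y * ((1 + eps) * δ) ≤ 1 ∧
    E * σ / δ ≤ (eps / 100) ^ 6 ∧ y * (E * σ) ≤ (eps / 100) ^ 8

end Pool.Agent.P.MP_7badbe_co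

end

section


open Finset Filter Topology
open scoped BigOperators

namespace Pool.Agent.P.MP_7badbe_co

variable {V : Type} [Fintype V] [Nonempty V]

omit [Nonempty V] in
lemma sub_mapsum_expect {β : Type} (s : Multiset β) (f : V → β → ℝ) :
    (s.map (fun p => 𝔼 x, f x p)).sum = 𝔼 x, (s.map (f x)).sum := by
  induction s using Multiset.induction_on with
  | empty => simp
  | cons a s ih => simp only [Multiset.map_cons, Multiset.sum_cons, ih, expect_add_distrib]

lemma splitSum_mono {r : ℕ} {Φ Ψ : Multiset V → Multiset V → ℝ} {M : Multiset V}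
    (h : ∀ I J, I + J = M → I.card = r → Φ I J ≤ Ψ I J) : splitSum r Φ M ≤ splitSum r Ψ M := by
  unfold splitSum
  refine Multiset.sum_map_le_sum_map _ _ (fun p hp => ?_)
  split_ifs with h1
  · exact h _ _ (Multiset.mem_antidiagonal.1 hp) h1
  · exact le_rfl

lemma splitSum_add (r : ℕ) (Φ Ψ : Multiset V → Multiset V → ℝ) (M : Multiset V) :
    splitSum r (fun I J => Φ I J + Ψ I J) M = splitSum r Φ M + splitSum r Ψ M := by
  unfold splitSum
  rw [← Multiset.sum_map_add]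
  refine congrArg _ (Multiset.map_congr rfl (fun p _ => ?_))
  split_ifs <;> simp

lemma splitSum_mul (r : ℕ) (c : ℝ) (Φ : Multiset V → Multiset V → ℝ) (M : Multiset V) :
    splitSum r (fun I J => c * Φ I J) M = c * splitSum r Φ M := by
  unfold splitSum
  rw [← Multiset.sum_map_mul_left]
  refine congrArg _ (Multiset.map_congr rfl (fun p _ => ?_))
  split_ifs <;> simp

lemma splitSum_expect (r : ℕ) (Φ : V → Multiset V → Multiset V → ℝ) (M : Multiset V) :
    splitSum r (fun I J => 𝔼 x, Φ x I J) M = 𝔼 x, splitSum r (Φ x) M := by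
  unfold splitSum
  rw [← sub_mapsum_expect]
  refine congrArg _ (Multiset.map_congr rfl (fun p _ => ?_))
  split_ifs <;> simp

lemma splitSum_zero (Φ : Multiset V → Multiset V → ℝ) (M : Multiset V) :
    splitSum 0 Φ M = Φ 0 M := by
  induction M using Multiset.induction_on generalizing Φ with
  | empty => simp [splitSum]
  | cons a M ih => rw [splitSum_zero_cons, ih]

lemma splitSum_one [DecidableEq V] (Φ : Multiset V → Multiset V → ℝ) (M : Multiset V) :
    splitSum 1 Φ M = (M.map (fun x => Φ {x} (M.erase x))).sum := by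
  induction M using Multiset.induction_on generalizing Φ with
  | empty => simp [splitSum]
  | cons a M ih =>
    rw [splitSum_succ_cons 0, splitSum_zero, Nat.zero_add, ih, Multiset.map_cons,
      Multiset.sum_cons, Multiset.erase_cons_head, add_comm]
    refine congrArg₂ _ rfl (congrArg _ (Multiset.map_congr rfl (fun x hx => ?_)))
    by_cases hxa : a = x
    · subst hxa
      rw [Multiset.erase_cons_head, Multiset.cons_erase hx]
    · rw [Multiset.erase_cons_tail _ hxa]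

lemma SS_zero (F : Multiset V → ℝ) (T : Multiset V) : SS 0 F T = F 0 := by
  unfold SS
  rw [splitSum_zero]

lemma SS_nil (s : ℕ) (F : Multiset V → ℝ) : SS (s + 1) F 0 = 0 := by
  simp [SS, splitSum]

lemma SS_cons (s : ℕ) (F : Multiset V → ℝ) (x : V) (T : Multiset V) :
    SS (s + 1) F (x ::ₘ T) = SS (s + 1) F T + SS s (fun ω => F (x ::ₘ ω)) T := by
  unfold SS
  rw [splitSum_succ_cons]

lemma SS_mono {s : ℕ} {F G : Multiset V → ℝ} {T : Multiset V}
    (h : ∀ ω ≤ T, ω.card = s → F ω ≤ G ω) : SS s F T ≤ SS s G T := by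
  unfold SS
  exact splitSum_mono (fun I J hIJ hI => h I (hIJ ▸ Multiset.le_add_right I J) hI)

lemma SS_congr {s : ℕ} {F G : Multiset V → ℝ} {T : Multiset V}
    (h : ∀ ω ≤ T, ω.card = s → F ω = G ω) : SS s F T = SS s G T := by
  exact le_antisymm (SS_mono fun ω h1 h2 => (h ω h1 h2).le) (SS_mono fun ω h1 h2 => (h ω h1 h2).ge)

lemma SS_nonneg {s : ℕ} {F : Multiset V → ℝ} {T : Multiset V}
    (h : ∀ ω ≤ T, ω.card = s → 0 ≤ F ω) : 0 ≤ SS s F T := by
  have h1 : SS s (fun _ : Multiset V => (0 : ℝ)) T = 0 := by simp [SS, splitSum]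
  rw [← h1]
  exact SS_mono h

lemma SS_add (s : ℕ) (F G : Multiset V → ℝ) (T : Multiset V) :
    SS s (fun ω => F ω + G ω) T = SS s F T + SS s G T := by
  exact splitSum_add s (fun I _ => F I) (fun I _ => G I) T

lemma SS_mul (s : ℕ) (c : ℝ) (F : Multiset V → ℝ) (T : Multiset V) :
    SS s (fun ω => c * F ω) T = c * SS s F T := by
  exact splitSum_mul s c (fun I _ => F I) T

lemma SS_expect (s : ℕ) (F : V → Multiset V → ℝ) (T : Multiset V) :
    SS s (fun ω => 𝔼 x, F x ω) T = 𝔼 x, SS s (F x) T := by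
  exact splitSum_expect s (fun x I _ => F x I) T

lemma SS_le_of_le {s : ℕ} {F : Multiset V → ℝ} (h0 : ∀ ω, 0 ≤ F ω) {T T' : Multiset V}
    (h : T ≤ T') : SS s F T ≤ SS s F T' := by
  obtain ⟨W, rfl⟩ := Multiset.le_iff_exists_add.1 h
  clear h
  induction W using Multiset.induction_on with
  | empty => simp
  | cons a W ih =>
    rw [Multiset.add_cons]
    refine ih.trans ?_
    cases s with
    | zero => rw [SS_zero, SS_zero]
    | succ s =>
      rw [SS_cons]
      have : 0 ≤ SS s (fun ω => F (a ::ₘ ω)) (T + W) := SS_nonneg (fun _ _ _ => h0 _)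
      linarith

lemma le_SS {s : ℕ} {F : Multiset V → ℝ} (h0 : ∀ ω, 0 ≤ F ω) {ω T : Multiset V} (h : ω ≤ T)
    (hs : ω.card = s) : F ω ≤ SS s F T := by
  obtain ⟨W, rfl⟩ := Multiset.le_iff_exists_add.1 h
  exact le_splitSum (Φ := fun I _ => F I) (fun I _ => h0 I) ω W hs

lemma SS_const (s : ℕ) (c : ℝ) (T : Multiset V) :
    SS s (fun _ => c) T = (T.card.choose s : ℝ) * c := by
  induction T using Multiset.induction_on generalizing s with
  | empty =>
    cases s with
    | zero => simp [SS_zero]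
    | succ s => simp [SS_nil]
  | cons a T ih =>
    cases s with
    | zero => simp [SS_zero]
    | succ s =>
      rw [SS_cons, ih, ih, Multiset.card_cons, Nat.choose_succ_succ']
      push_cast
      ring

lemma SS_pos {s : ℕ} {F : Multiset V → ℝ} {T : Multiset V} (h : 0 < SS s F T) :
    ∃ ω ≤ T, ω.card = s ∧ 0 < F ω := by
  by_contra hc
  push Not at hc
  have h1 : SS s F T ≤ SS s (fun _ : Multiset V => (0 : ℝ)) T := SS_mono hc
  rw [SS_const, mul_zero] at h1
  exact absurd h (not_lt.2 h1)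

lemma Ex_SS (N s : ℕ) (F : Multiset V → ℝ) : Ex N (SS s F) = (N.choose s : ℝ) * Ex s F := by
  have h := Ex_splitSum N s (fun (I : Multiset V) (_ : Multiset V) => F I)
  simp only [Ex_const] at h
  exact h

lemma conv_nil (a F : Multiset V → ℝ) : conv a F 0 = a 0 * F 0 := by
  simp [Pool.Agent.P.MP_7badbe_co.conv]

lemma conv_cons (a F : Multiset V → ℝ) (x : V) (T : Multiset V) :
    conv a F (x ::ₘ T) = conv a (fun W => F (x ::ₘ W)) T + conv (fun c => a (x ::ₘ c)) F T := by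
  simp [Pool.Agent.P.MP_7badbe_co.conv, Multiset.antidiagonal_cons, Multiset.map_map]

lemma conv_mono {a a' F F' : Multiset V → ℝ} {T : Multiset V}
    (h : ∀ c W, c + W = T → a c * F W ≤ a' c * F' W) : conv a F T ≤ conv a' F' T := by
  unfold Pool.Agent.P.MP_7badbe_co.conv
  exact Multiset.sum_map_le_sum_map _ _ (fun p hp => h _ _ (Multiset.mem_antidiagonal.1 hp))

lemma le_conv {a F : Multiset V → ℝ} (ha : ∀ c, 0 ≤ a c) (hF : ∀ W, 0 ≤ F W)
    (c W : Multiset V) : a c * F W ≤ conv a F (c + W) := by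
  unfold Pool.Agent.P.MP_7badbe_co.conv
  have h1 : a c * F W = (fun p : Multiset V × Multiset V => a p.1 * F p.2) (c, W) := rfl
  rw [h1]
  refine Multiset.single_le_sum (fun x hx => ?_) _
    (Multiset.mem_map_of_mem _ (Multiset.mem_antidiagonal.2 rfl))
  obtain ⟨p, _, rfl⟩ := Multiset.mem_map.1 hx
  exact mul_nonneg (ha _) (hF _)

lemma conv_mul (a F : Multiset V → ℝ) (t : ℝ) (T : Multiset V) :
    conv a (fun W => t * F W) T = t * conv a F T := by
  unfold Pool.Agent.P.MP_7badbe_co.conv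
  rw [← Multiset.sum_map_mul_left]
  refine congrArg _ (Multiset.map_congr rfl (fun p _ => ?_))
  ring

lemma conv_expect (a : V → Multiset V → ℝ) (F : Multiset V → ℝ) (T : Multiset V) :
    conv (fun c => 𝔼 x, a x c) F T = 𝔼 x, conv (a x) F T := by
  unfold Pool.Agent.P.MP_7badbe_co.conv
  rw [← sub_mapsum_expect]
  refine congrArg _ (Multiset.map_congr rfl (fun p _ => ?_))
  rw [expect_mul]

omit [Fintype V] [Nonempty V] in
lemma sub_conv_nonneg {a F : Multiset V → ℝ} (ha : ∀ c, 0 ≤ a c) (hF : ∀ W, 0 ≤ F W)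
    (T : Multiset V) : 0 ≤ conv a F T := by
  unfold Pool.Agent.P.MP_7badbe_co.conv
  refine Multiset.sum_nonneg (fun x hx => ?_)
  obtain ⟨p, _, rfl⟩ := Multiset.mem_map.1 hx
  exact mul_nonneg (ha _) (hF _)

lemma Sr_nonneg {a : Multiset V → ℝ} (ha : ∀ c, 0 ≤ a c) (r : ℕ) (T : Multiset V) :
    0 ≤ Sr a r T := by
  induction r generalizing T with
  | zero => exact zero_le_one
  | succ r ih => exact sub_conv_nonneg ha ih T

lemma Sr_cons {a : Multiset V → ℝ} (ha : ∀ c, 0 ≤ a c) (r : ℕ) (x : V) (T : Multiset V) :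
    Sr a r T ≤ Sr a r (x ::ₘ T) := by
  induction r generalizing T with
  | zero => exact le_rfl
  | succ r ih =>
    show Pool.Agent.P.MP_7badbe_co.conv a (Sr a r) T
      ≤ Pool.Agent.P.MP_7badbe_co.conv a (Sr a r) (x ::ₘ T)
    rw [conv_cons]
    have h1 : Pool.Agent.P.MP_7badbe_co.conv a (Sr a r) T
        ≤ Pool.Agent.P.MP_7badbe_co.conv a (fun W => Sr a r (x ::ₘ W)) T :=
      conv_mono (fun c W _ => mul_le_mul_of_nonneg_left (ih W) (ha c))
    have h2 : 0 ≤ Pool.Agent.P.MP_7badbe_co.conv (fun c => a (x ::ₘ c)) (Sr a r) T :=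
      sub_conv_nonneg (fun c => ha _) (Sr_nonneg ha r) T
    linarith

lemma FF_nonneg {a : Multiset V → ℝ} (ha : ∀ c, 0 ≤ a c) (b : ℝ) (R : ℕ) (T : Multiset V) :
    0 ≤ FF a b R T := by
  unfold FF
  exact mul_nonneg (Real.exp_pos _).le
    (sum_nonneg fun r _ => mul_nonneg (Real.exp_pos _).le (Sr_nonneg ha r T))

lemma FF_cons {a : Multiset V → ℝ} (ha : ∀ c, 0 ≤ a c) (b : ℝ) (R : ℕ) (x : V)
    (T : Multiset V) : FF a b R T ≤ FF a b R (x ::ₘ T) := by
  unfold FF
  exact mul_le_mul_of_nonneg_left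
    (sum_le_sum fun r _ => mul_le_mul_of_nonneg_left (Sr_cons ha r x T) (Real.exp_pos _).le)
    (Real.exp_pos _).le

lemma abar_nonneg (j : ℕ) {lam : ℝ} (hlam : 0 ≤ lam) (η : ℝ) (L L' : Multiset V → Prop)
    (c : Multiset V) : 0 ≤ abar j lam η L L' c := by
  unfold abar
  refine mul_nonneg hlam (sum_nonneg fun s _ => splitSum_nonneg (fun σ ρ =>
    splitSum_nonneg (fun α α' => mul_nonneg (ind_nonneg _) (expect_nonneg fun x _ => ?_)) _) _)
  exact mul_nonneg (mul_nonneg (ind_nonneg _) (ind_nonneg _))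
    (add_nonneg (ind_nonneg _) (ind_nonneg _))

lemma cr_nonneg (j : ℕ) (lam η : ℝ) (L L' : Multiset V → Prop) (T : Multiset V) :
    0 ≤ cr j lam η L L' T := by
  exact expect_nonneg (fun _ _ => ind_nonneg _)

lemma cr_le_one (j : ℕ) (lam η : ℝ) (L L' : Multiset V → Prop) (T : Multiset V) :
    cr j lam η L L' T ≤ 1 := by
  exact expect_le univ_nonempty (fun _ _ => ind_le_one _)

lemma cr_mono (j : ℕ) (lam η : ℝ) (L L' : Multiset V → Prop) {T T' : Multiset V} (h : T ≤ T') :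
    cr j lam η L L' T ≤ cr j lam η L L' T' := by
  refine expect_le_expect (fun x _ => ind_mono ?_)
  rintro ⟨σ, α, α', h1, h2⟩
  exact ⟨σ, α, α', h1.trans h, h2⟩

/-- Markov -/
lemma Ex_markov {m : ℕ} {F : Multiset V → ℝ} (h0 : ∀ M, 0 ≤ F M) {c : ℝ} (hc : 0 < c) :
    Ex m (fun M => ind (c < F M)) ≤ Ex m F / c := by
  rw [div_eq_inv_mul, ← Ex_mul]
  refine Ex_mono (fun M _ => ?_)
  by_cases h : c < F M
  · rw [ind_pos h, ← div_eq_inv_mul, le_div_iff₀ hc]
    linarith
  · rw [ind_neg h]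
    exact mul_nonneg (inv_nonneg.2 hc.le) (h0 M)

end Pool.Agent.P.MP_7badbe_co

end

section


open Finset Filter Topology
open scoped BigOperators

namespace Pool.Agent.P.MP_7badbe_co

variable {V : Type} [Fintype V] [Nonempty V]

variable {q : ℝ} {ρ ρ' : ℕ → Multiset V → V → ℝ}

omit [Nonempty V] in
lemma Path_Pe_succ (n : ℕ) (F : List (Option V) → ℝ) :
    Pe q (n + 1) F = (1 - q) * Pe q n (fun p => F (none :: p))
      + q * 𝔼 x, Pe q n (fun p => F (some x :: p)) := rfl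

omit [Nonempty V] in
lemma Path_Pe_add (n : ℕ) (F G : List (Option V) → ℝ) :
    Pe q n (fun p => F p + G p) = Pe q n F + Pe q n G := by
  induction n generalizing F G with
  | zero => rfl
  | succ n ih => simp only [Path_Pe_succ, ih, expect_add_distrib]; ring

omit [Nonempty V] in
lemma Path_Pe_mul (n : ℕ) (c : ℝ) (F : List (Option V) → ℝ) :
    Pe q n (fun p => c * F p) = c * Pe q n F := by
  induction n generalizing F with
  | zero => rfl
  | succ n ih => simp only [Path_Pe_succ, ih, ← mul_expect]; ring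

lemma Path_Pe_const (n : ℕ) (c : ℝ) : Pe q n (fun _ : List (Option V) => c) = c := by
  induction n with
  | zero => rfl
  | succ n ih => simp only [Path_Pe_succ, ih, expect_const univ_nonempty]; ring

omit [Nonempty V] in
lemma Path_Pe_mono (h0 : 0 ≤ q) (h1 : q ≤ 1) (n : ℕ) {F G : List (Option V) → ℝ}
    (h : ∀ p, F p ≤ G p) : Pe q n F ≤ Pe q n G := by
  induction n generalizing F G with
  | zero => exact h _
  | succ n ih =>
    rw [Path_Pe_succ, Path_Pe_succ]
    refine add_le_add (mul_le_mul_of_nonneg_left (ih fun p => h _) (by linarith))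
      (mul_le_mul_of_nonneg_left (expect_le_expect fun x _ => ih fun p => h _) h0)

omit [Nonempty V] in
lemma Path_Pe_sum {ι : Type} (s : Finset ι) (n : ℕ) (F : ι → List (Option V) → ℝ) :
    Pe q n (fun p => ∑ i ∈ s, F i p) = ∑ i ∈ s, Pe q n (F i) := by
  induction n generalizing F with
  | zero => rfl
  | succ n ih =>
    simp only [Path_Pe_succ, ih, sum_add_distrib, ← mul_sum]
    rw [expect_sum_comm]

omit [Nonempty V] in
lemma Path_Pe_expect {ι : Type} (s : Finset ι) (n : ℕ) (F : ι → List (Option V) → ℝ) :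
    Pe q n (fun p => 𝔼 i ∈ s, F i p) = 𝔼 i ∈ s, Pe q n (F i) := by
  induction n generalizing F with
  | zero => rfl
  | succ n ih =>
    simp only [Path_Pe_succ, ih, expect_add_distrib, ← mul_expect]
    rw [expect_comm]

omit [Nonempty V] in
lemma Path_Pe_Ex (n z : ℕ) (F : Multiset V → List (Option V) → ℝ) :
    Ex z (fun Z => Pe q n (F Z)) = Pe q n (fun p => Ex z (fun Z => F Z p)) := by
  induction z generalizing F with
  | zero => rfl
  | succ z ih => simp only [Ex_succ, ih, Path_Pe_expect]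

omit [Fintype V] [Nonempty V] in
lemma Path_fin_cons (x : V) (T : Multiset V) (p : List (Option V)) :
    fin (x ::ₘ T) p = x ::ₘ fin T p := by
  induction p generalizing T with
  | nil => rfl
  | cons o p ih =>
    cases o with
    | none => exact ih T
    | some y =>
      show fin (y ::ₘ x ::ₘ T) p = x ::ₘ fin (y ::ₘ T) p
      rw [Multiset.cons_swap, ih]

lemma Path_a_nonneg (hρ : ∀ n T x, 0 ≤ ρ n T x ∧ ρ n T x ≤ 1) (n : ℕ) (T : Multiset V) :
    0 ≤ 𝔼 x, (1 - ρ n T x) :=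
  expect_nonneg fun x _ => sub_nonneg.2 (hρ n T x).2

lemma En_zero (T : Multiset V) (F : Multiset V → ℝ) : En q 0 T F = F T := by
  rfl

lemma En_succ (n : ℕ) (T : Multiset V) (F : Multiset V → ℝ) :
    En q (n + 1) T F = (1 - q) * En q n T F + q * 𝔼 x, En q n (x ::ₘ T) F := by
  rfl

lemma nu1_zero (T : Multiset V) (F : Multiset V → ℝ) : nu1 q ρ 0 T F = F T := by
  show (1 : ℝ) * F T = F T
  exact one_mul _

lemma nu1_succ (hq : q < 1) (n : ℕ) (T : Multiset V) (F : Multiset V → ℝ) :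
    nu1 q ρ (n + 1) T F = (1 - q + q * 𝔼 x, (1 - ρ n T x)) * nu1 q ρ n T F
      + q * 𝔼 x, ρ n T x * nu1 q ρ n (x ::ₘ T) F := by
  have h1 : (1 - q) ≠ 0 := by linarith [sub_pos.2 hq] |> ne_of_gt
  have e1 : Pe q n (fun p => wt q ρ (n + 1) T (none :: p) * F (fin T (none :: p)))
      = (1 + q * (𝔼 x, (1 - ρ n T x)) / (1 - q)) * nu1 q ρ n T F := by
    unfold nu1
    rw [← Path_Pe_mul]
    congr 1
    funext p
    simp only [wt, fin]
    ring
  have e2 : ∀ x, Pe q n (fun p => wt q ρ (n + 1) T (some x :: p) * F (fin T (some x :: p)))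
      = ρ n T x * nu1 q ρ n (x ::ₘ T) F := by
    intro x
    unfold nu1
    rw [← Path_Pe_mul]
    congr 1
    funext p
    simp only [wt, fin]
    ring
  have e0 : nu1 q ρ (n + 1) T F
      = (1 - q) * Pe q n (fun p => wt q ρ (n + 1) T (none :: p) * F (fin T (none :: p)))
      + q * 𝔼 x, Pe q n (fun p => wt q ρ (n + 1) T (some x :: p) * F (fin T (some x :: p))) := rfl
  rw [e0, e1]
  simp only [e2]
  congr 1
  field_simp

lemma nu2_zero (T : Multiset V) (F : Multiset V → ℝ) : nu2 q ρ ρ' 0 T F = F T := by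
  show (1 : ℝ) * 1 * F T = F T
  ring

lemma nu2_succ (n : ℕ) (T : Multiset V) (F : Multiset V → ℝ) :
    nu2 q ρ ρ' (n + 1) T F = (1 - q) * ((1 + q * (𝔼 x, (1 - ρ n T x)) / (1 - q))
      * (1 + q * (𝔼 x, (1 - ρ' n T x)) / (1 - q))) * nu2 q ρ ρ' n T F
      + q * 𝔼 x, ρ n T x * ρ' n T x * nu2 q ρ ρ' n (x ::ₘ T) F := by
  have e1 : Pe q n (fun p => wt q ρ (n + 1) T (none :: p) * wt q ρ' (n + 1) T (none :: p)
        * F (fin T (none :: p)))
      = ((1 + q * (𝔼 x, (1 - ρ n T x)) / (1 - q)) * (1 + q * (𝔼 x, (1 - ρ' n T x)) / (1 - q)))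
        * nu2 q ρ ρ' n T F := by
    unfold nu2
    rw [← Path_Pe_mul]
    congr 1
    funext p
    simp only [wt, fin]
    ring
  have e2 : ∀ x, Pe q n (fun p => wt q ρ (n + 1) T (some x :: p) * wt q ρ' (n + 1) T (some x :: p)
        * F (fin T (some x :: p)))
      = ρ n T x * ρ' n T x * nu2 q ρ ρ' n (x ::ₘ T) F := by
    intro x
    unfold nu2
    rw [← Path_Pe_mul]
    congr 1
    funext p
    simp only [wt, fin]
    ring
  have e0 : nu2 q ρ ρ' (n + 1) T F
      = (1 - q) * Pe q n (fun p => wt q ρ (n + 1) T (none :: p) * wt q ρ' (n + 1) T (none :: p)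
        * F (fin T (none :: p)))
      + q * 𝔼 x, Pe q n (fun p => wt q ρ (n + 1) T (some x :: p)
        * wt q ρ' (n + 1) T (some x :: p) * F (fin T (some x :: p))) := rfl
  rw [e0, e1]
  simp only [e2]
  ring

lemma En_add (n : ℕ) (T : Multiset V) (F G : Multiset V → ℝ) :
    En q n T (fun W => F W + G W) = En q n T F + En q n T G := by
  exact Path_Pe_add n _ _

lemma En_mul (n : ℕ) (T : Multiset V) (c : ℝ) (F : Multiset V → ℝ) :
    En q n T (fun W => c * F W) = c * En q n T F := by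
  exact Path_Pe_mul n _ _

lemma En_sum {ι : Type} (s : Finset ι) (n : ℕ) (T : Multiset V) (F : ι → Multiset V → ℝ) :
    En q n T (fun W => ∑ i ∈ s, F i W) = ∑ i ∈ s, En q n T (F i) := by
  exact Path_Pe_sum s n (fun i p => F i (fin T p))

lemma En_const (n : ℕ) (T : Multiset V) (c : ℝ) : En q n T (fun _ => c) = c := by
  exact Path_Pe_const n c

lemma En_mono (h0 : 0 ≤ q) (h1 : q ≤ 1) (n : ℕ) (T : Multiset V) {F G : Multiset V → ℝ}
    (h : ∀ W, F W ≤ G W) : En q n T F ≤ En q n T G := by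
  exact Path_Pe_mono h0 h1 n fun p => h _

lemma En_shift (n : ℕ) (x : V) (T : Multiset V) (F : Multiset V → ℝ) :
    En q n (x ::ₘ T) F = En q n T (fun W => F (x ::ₘ W)) := by
  unfold En
  simp only [Path_fin_cons]

lemma En_le (h0 : 0 ≤ q) (h1 : q ≤ 1) (n : ℕ) {F : Multiset V → ℝ} {c : ℝ}
    (h : ∀ N, Ex N F ≤ c) : En q n 0 F ≤ c := by
  induction n generalizing F with
  | zero => exact h 0
  | succ n ih =>
    rw [En_succ]
    have e : 𝔼 x, En q n (x ::ₘ 0) F = En q n 0 (fun W => 𝔼 x, F (x ::ₘ W)) := by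
      simp only [En_shift]
      exact (Path_Pe_expect univ n (fun x p => F (x ::ₘ fin 0 p))).symm
    have h2 : En q n 0 (fun W => 𝔼 x, F (x ::ₘ W)) ≤ c :=
      ih fun N => by rw [← Ex_succ']; exact h _
    have h3 := ih h
    rw [e]
    nlinarith [mul_le_mul_of_nonneg_left h2 h0,
      mul_le_mul_of_nonneg_left h3 (sub_nonneg.2 h1)]

lemma En_Ex (n : ℕ) (T : Multiset V) (z : ℕ) (F : Multiset V → Multiset V → ℝ) :
    Ex z (fun Z => En q n T (F Z)) = En q n T (fun W => Ex z (fun Z => F Z W)) := by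
  exact Path_Pe_Ex n z (fun Z p => F Z (fin T p))

lemma nu1_add (n : ℕ) (T : Multiset V) (F G : Multiset V → ℝ) :
    nu1 q ρ n T (fun W => F W + G W) = nu1 q ρ n T F + nu1 q ρ n T G := by
  unfold nu1
  simp only [mul_add]
  exact Path_Pe_add n _ _

lemma nu1_mul (n : ℕ) (T : Multiset V) (c : ℝ) (F : Multiset V → ℝ) :
    nu1 q ρ n T (fun W => c * F W) = c * nu1 q ρ n T F := by
  unfold nu1
  rw [← Path_Pe_mul]
  congr 1
  funext p
  ring

lemma nu1_const (hq : q < 1) (n : ℕ) (T : Multiset V) (c : ℝ) :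
    nu1 q ρ n T (fun _ => c) = c := by
  induction n generalizing T with
  | zero => exact nu1_zero T _
  | succ n ih =>
    rw [nu1_succ hq]
    simp only [ih]
    rw [← expect_mul, expect_sub_distrib, expect_const univ_nonempty]
    ring

lemma nu2_mul (n : ℕ) (T : Multiset V) (c : ℝ) (F : Multiset V → ℝ) :
    nu2 q ρ ρ' n T (fun W => c * F W) = c * nu2 q ρ ρ' n T F := by
  unfold nu2
  rw [← Path_Pe_mul]
  congr 1
  funext p
  ring

/-- monotonicity on an invariant set of states -/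
lemma nu1_mono (h0 : 0 ≤ q) (h1 : q < 1) (hρ : ∀ n T x, 0 ≤ ρ n T x ∧ ρ n T x ≤ 1)
    (Inv : Multiset V → Prop) (hI : ∀ n T x, Inv T → ρ n T x ≠ 0 → Inv (x ::ₘ T))
    (n : ℕ) {T : Multiset V} (hT : Inv T) {F G : Multiset V → ℝ} (h : ∀ W, Inv W → F W ≤ G W) :
    nu1 q ρ n T F ≤ nu1 q ρ n T G := by
  induction n generalizing T with
  | zero => rw [nu1_zero, nu1_zero]; exact h T hT
  | succ n ih =>
    rw [nu1_succ h1, nu1_succ h1]
    have ha := Path_a_nonneg hρ n T
    refine add_le_add (mul_le_mul_of_nonneg_left (ih hT) ?_)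
      (mul_le_mul_of_nonneg_left (expect_le_expect fun x _ => ?_) h0)
    · have := mul_nonneg h0 ha
      linarith
    · by_cases hx : ρ n T x = 0
      · simp [hx]
      · exact mul_le_mul_of_nonneg_left (ih (hI n T x hT hx)) (hρ n T x).1

lemma nu2_mono (h0 : 0 ≤ q) (h1 : q < 1) (hρ : ∀ n T x, 0 ≤ ρ n T x ∧ ρ n T x ≤ 1)
    (hρ' : ∀ n T x, 0 ≤ ρ' n T x ∧ ρ' n T x ≤ 1) (n : ℕ) {T : Multiset V}
    {F G : Multiset V → ℝ} (h : ∀ W, T ≤ W → F W ≤ G W) :
    nu2 q ρ ρ' n T F ≤ nu2 q ρ ρ' n T G := by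
  induction n generalizing T with
  | zero => rw [nu2_zero, nu2_zero]; exact h T le_rfl
  | succ n ih =>
    rw [nu2_succ, nu2_succ]
    have ha := Path_a_nonneg hρ n T
    have ha' := Path_a_nonneg hρ' n T
    have hq : 0 < 1 - q := sub_pos.2 h1
    refine add_le_add (mul_le_mul_of_nonneg_left (ih h) (by positivity))
      (mul_le_mul_of_nonneg_left (expect_le_expect fun x _ => ?_) h0)
    exact mul_le_mul_of_nonneg_left (ih fun W hW => h W ((Multiset.le_cons_self T x).trans hW))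
      (mul_nonneg (hρ n T x).1 (hρ' n T x).1)

/-- supermartingale principle -/
lemma nu1_le (h0 : 0 ≤ q) (h1 : q < 1) (hρ : ∀ n T x, 0 ≤ ρ n T x ∧ ρ n T x ≤ 1)
    (Φ : ℕ → Multiset V → ℝ)
    (hΦ : ∀ n T, (1 - q + q * 𝔼 x, (1 - ρ n T x)) * Φ n T + q * 𝔼 x, ρ n T x * Φ n (x ::ₘ T)
      ≤ Φ (n + 1) T) (n : ℕ) (T : Multiset V) : nu1 q ρ n T (Φ 0) ≤ Φ n T := by
  induction n generalizing T with
  | zero => rw [nu1_zero]
  | succ n ih =>
    rw [nu1_succ h1]
    refine le_trans ?_ (hΦ n T)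
    have ha := Path_a_nonneg hρ n T
    refine add_le_add (mul_le_mul_of_nonneg_left (ih T) ?_)
      (mul_le_mul_of_nonneg_left (expect_le_expect fun x _ => ?_) h0)
    · have := mul_nonneg h0 ha
      linarith
    · exact mul_le_mul_of_nonneg_left (ih _) (hρ n T x).1

/-- Cauchy-Schwarz in the form of the inequality of means -/
lemma amgm (h0 : 0 ≤ q) (h1 : q < 1) (r : Multiset V → ℕ → Multiset V → V → ℝ)
    (Φ : Multiset V → Multiset V → ℝ) (H : Multiset V → ℝ) (y n : ℕ) {t : ℝ} (ht : 0 < t) :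
    Ex y (fun Y => nu1 q (r Y) n 0 (fun W => Φ Y W * H W))
      ≤ t / 2 * Ex y (fun Y => Ex y (fun Y' =>
          nu2 q (r Y) (r Y') n 0 (fun W => Φ Y W * Φ Y' W)))
        + 1 / (2 * t) * En q n 0 (fun W => H W ^ 2) := by
  set W : List (Option V) → ℝ := fun p => Ex y (fun Y => wt q (r Y) n 0 p * Φ Y (fin 0 p))
    with hW
  have e1 : Ex y (fun Y => nu1 q (r Y) n 0 (fun W => Φ Y W * H W))
      = Pe q n (fun p => W p * H (fin 0 p)) := by
    unfold nu1
    rw [Path_Pe_Ex]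
    congr 1
    funext p
    rw [hW, ← Ex_mul']
    congr 1
    funext Y
    ring
  have e2 : Ex y (fun Y => Ex y (fun Y' => nu2 q (r Y) (r Y') n 0 (fun W => Φ Y W * Φ Y' W)))
      = Pe q n (fun p => W p ^ 2) := by
    unfold nu2
    simp only [Path_Pe_Ex]
    congr 1
    funext p
    rw [sq]
    conv_rhs => rw [hW]
    rw [← Ex_mul']
    congr 1
    funext Y
    rw [← Ex_mul]
    congr 1
    funext Y'
    ring
  rw [e1, e2]
  unfold En
  rw [← Path_Pe_mul, ← Path_Pe_mul, ← Path_Pe_add]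
  refine Path_Pe_mono h0 h1.le n fun p => ?_
  have key : t / 2 * W p ^ 2 + 1 / (2 * t) * H (fin 0 p) ^ 2 - W p * H (fin 0 p)
      = (t * W p - H (fin 0 p)) ^ 2 / (2 * t) := by
    field_simp
    ring
  have : 0 ≤ (t * W p - H (fin 0 p)) ^ 2 / (2 * t) := by positivity
  linarith

end Pool.Agent.P.MP_7badbe_co

end

section


open Finset Filter Topology
open scoped BigOperators

namespace Pool.Agent.P.MP_7badbe_co

variable {V : Type} [Fintype V] [Nonempty V]

variable {j e : ℕ} {q : ℝ} {g g' : Multiset V → V → ℝ}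

lemma GG_nonneg (hg : ∀ ω x, 0 ≤ g ω x) (ω : Multiset V) : 0 ≤ GG j g ω := by
  unfold GG
  exact Ex_nonneg fun R _ => expect_nonneg fun x _ => hg _ _

lemma GG_gL (L : Multiset V → Prop) {ω : Multiset V} (h : ω.card < j) :
    GG j (gL L) ω = Ex (j - ω.card) (fun R => ind (L (ω + R))) := by
  obtain ⟨k, hk⟩ : ∃ k, j - ω.card = k + 1 := ⟨j - ω.card - 1, by omega⟩
  have h1 : j - 1 - ω.card = k := by omega
  unfold GG gL
  rw [hk, h1, Ex_succ']
  simp only [Multiset.add_cons]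

lemma jump_nonneg (hq : 0 ≤ q) (hg : ∀ ω x, 0 ≤ g ω x) (n : ℕ) (T : Multiset V) (x : V) :
    0 ≤ jump j q e g n T x := by
  unfold jump
  exact sum_nonneg fun s _ => mul_nonneg (mul_nonneg (Nat.cast_nonneg _) (pow_nonneg hq _))
    (SS_nonneg fun ω _ _ => GG_nonneg hg _)

lemma rel_nonneg (hg : ∀ ω x, 0 ≤ g ω x) (T : Multiset V) (x : V) : 0 ≤ rel j g T x := by
  unfold rel
  exact SS_nonneg fun ω _ _ => hg _ _

lemma Pot_nonneg (hq : 0 ≤ q) (hg : ∀ ω x, 0 ≤ g ω x) (n : ℕ) (T : Multiset V) :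
    0 ≤ Pot j q e g n T := by
  unfold Pot
  exact sum_nonneg fun s _ => mul_nonneg (mul_nonneg (Nat.cast_nonneg _) (pow_nonneg hq _))
    (SS_nonneg fun ω _ _ => GG_nonneg hg _)

lemma PotW_nonneg (hq : 0 ≤ q) (hg : ∀ ω x, 0 ≤ g ω x) (n : ℕ) (T : Multiset V) :
    0 ≤ PotW j q e g n T := by
  unfold PotW
  exact sum_nonneg fun s _ => mul_nonneg (Nat.cast_nonneg _)
    (mul_nonneg (mul_nonneg (Nat.cast_nonneg _) (pow_nonneg hq _))
      (SS_nonneg fun ω _ _ => GG_nonneg hg _))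

omit [Nonempty V] in
lemma Pot_GG_le {c c' : ℝ} (h : ∀ ω x, c * g ω x ≤ c' * g' ω x) (ω : Multiset V) :
    c * GG j g ω ≤ c' * GG j g' ω := by
  unfold GG
  rw [← Ex_mul, ← Ex_mul]
  refine Ex_mono fun R _ => ?_
  rw [mul_expect, mul_expect]
  exact expect_le_expect fun x _ => h _ _

lemma jump_le (hq : 0 ≤ q) {c c' : ℝ} (h : ∀ ω x, c * g ω x ≤ c' * g' ω x) (n : ℕ)
    (T : Multiset V) (x : V) : c * jump j q e g n T x ≤ c' * jump j q e g' n T x := by
  unfold jump
  rw [mul_sum, mul_sum]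
  refine sum_le_sum fun s _ => ?_
  have h1 : c * SS s (fun ω => GG j g (x ::ₘ ω)) T ≤ c' * SS s (fun ω => GG j g' (x ::ₘ ω)) T := by
    rw [← SS_mul, ← SS_mul]
    exact SS_mono fun ω _ _ => Pot_GG_le h _
  have h2 : (0 : ℝ) ≤ ((n + e).choose (j - 1 - s) : ℝ) * q ^ (j - 1 - s) :=
    mul_nonneg (Nat.cast_nonneg _) (pow_nonneg hq _)
  have h3 := mul_le_mul_of_nonneg_left h1 h2
  linarith

lemma rel_le {c c' : ℝ} (h : ∀ ω x, c * g ω x ≤ c' * g' ω x) (T : Multiset V) (x : V) :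
    c * rel j g T x ≤ c' * rel j g' T x := by
  unfold rel
  rw [← SS_mul, ← SS_mul]
  exact SS_mono fun ω _ _ => h _ _

/-- potential with general weights -/
noncomputable def Pot_C (j : ℕ) (q : ℝ) (e : ℕ) (g : Multiset V → V → ℝ) (c : ℕ → ℝ) (n : ℕ)
    (T : Multiset V) : ℝ :=
  ∑ s ∈ range j, c s * (((n + e).choose (j - s) : ℝ) * q ^ (j - s) * SS s (GG j g) T)

/-- jump with general weights -/
noncomputable def Pot_jC (j : ℕ) (q : ℝ) (e : ℕ) (g : Multiset V → V → ℝ) (c : ℕ → ℝ) (n : ℕ)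
    (T : Multiset V) (x : V) : ℝ :=
  ∑ s ∈ range (j - 1), c s * (((n + e).choose (j - 1 - s) : ℝ) * q ^ (j - 1 - s)
    * SS s (fun ω => GG j g (x ::ₘ ω)) T)

omit [Nonempty V] in
lemma Pot_eq_C (n : ℕ) (T : Multiset V) :
    Pot j q e g n T = Pot_C j q e g (fun _ => 1) n T := by
  simp only [Pot, Pot_C, one_mul]

omit [Nonempty V] in
lemma PotW_eq_C (n : ℕ) (T : Multiset V) :
    PotW j q e g n T = Pot_C j q e g (fun s => ((j - s : ℕ) : ℝ)) n T := rfl

omit [Nonempty V] in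
lemma Pot_jump_eq_C (n : ℕ) (T : Multiset V) (x : V) :
    jump j q e g n T x = Pot_jC j q e g (fun _ => 1) n T x := by
  simp only [jump, Pot_jC, one_mul]

lemma Pot_C_cons (hj : 1 ≤ j) (c : ℕ → ℝ) (n : ℕ) (T : Multiset V) (x : V) :
    Pot_C j q e g c n (x ::ₘ T)
      = Pot_C j q e g c n T + Pot_jC j q e g (fun s => c (s + 1)) n T x := by
  obtain ⟨k, rfl⟩ : ∃ k, j = k + 1 := ⟨j - 1, by omega⟩
  unfold Pot_C Pot_jC
  rw [sum_range_succ', sum_range_succ', SS_zero, SS_zero, Nat.add_sub_cancel, add_right_comm,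
    ← sum_add_distrib]
  congr 1
  refine sum_congr rfl fun s _ => ?_
  rw [SS_cons, Nat.add_sub_add_right]
  ring

omit [Nonempty V] in
lemma Pot_GG_step {ω : Multiset V} (h : ω.card + 2 ≤ j) :
    GG j g ω = 𝔼 x, GG j g (x ::ₘ ω) := by
  unfold GG
  obtain ⟨k, hk⟩ : ∃ k, j - 1 - ω.card = k + 1 := ⟨j - 1 - ω.card - 1, by omega⟩
  rw [hk, Ex_succ]
  refine expect_congr rfl fun x _ => ?_
  have h1 : j - 1 - (x ::ₘ ω).card = k := by rw [Multiset.card_cons]; omega
  rw [h1]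
  simp only [Multiset.add_cons, Multiset.cons_add]

omit [Nonempty V] in
lemma Pot_GG_last {ω : Multiset V} (h : ω.card = j - 1) : GG j g ω = 𝔼 x, g ω x := by
  unfold GG
  rw [h, Nat.sub_self, Ex_zero, add_zero]

lemma Pot_C_succ (hj : 1 ≤ j) (c : ℕ → ℝ) (n : ℕ) (T : Multiset V) :
    Pot_C j q e g c (n + 1) T = Pot_C j q e g c n T
      + q * 𝔼 x, (Pot_jC j q e g c n T x + c (j - 1) * rel j g T x) := by
  obtain ⟨k, rfl⟩ : ∃ k, j = k + 1 := ⟨j - 1, by omega⟩
  have h1 : Pot_C (k + 1) q e g c (n + 1) T = Pot_C (k + 1) q e g c n T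
      + ∑ s ∈ range (k + 1), q * (c s * (((n + e).choose (k - s) : ℝ) * q ^ (k - s)
        * SS s (GG (k + 1) g) T)) := by
    unfold Pot_C
    rw [← sum_add_distrib]
    refine sum_congr rfl fun s hs => ?_
    have hs' := mem_range.1 hs
    have h2 : k + 1 - s = (k - s) + 1 := by omega
    have h3 : n + 1 + e = (n + e) + 1 := by omega
    rw [h2, h3, Nat.choose_succ_succ']
    push_cast
    ring
  rw [h1, ← mul_sum, sum_range_succ, expect_add_distrib, ← mul_expect]
  congr 3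
  · unfold Pot_jC
    rw [Nat.add_sub_cancel, expect_sum_comm]
    refine sum_congr rfl fun s hs => ?_
    have hs' := mem_range.1 hs
    rw [← mul_expect, ← mul_expect, ← SS_expect]
    congr 2
    exact SS_congr fun ω _ hω => Pot_GG_step (by omega)
  · unfold rel
    rw [Nat.sub_self, Nat.choose_zero_right, pow_zero, Nat.cast_one, one_mul, one_mul,
      ← SS_expect]
    congr 1
    exact SS_congr fun ω _ hω => Pot_GG_last hω

lemma Pot_C_nil (hj : 1 ≤ j) (c : ℕ → ℝ) (n : ℕ) :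
    Pot_C j q e g c n 0 = c 0 * (((n + e).choose j : ℝ) * q ^ j * GG j g 0) := by
  obtain ⟨k, rfl⟩ : ∃ k, j = k + 1 := ⟨j - 1, by omega⟩
  unfold Pot_C
  rw [sum_range_succ', SS_zero]
  simp only [SS_nil, mul_zero, sum_const_zero, zero_add, Nat.sub_zero]

lemma Pot_cons (hj : 1 ≤ j) (n : ℕ) (T : Multiset V) (x : V) :
    Pot j q e g n (x ::ₘ T) = Pot j q e g n T + jump j q e g n T x := by
  rw [Pot_eq_C, Pot_eq_C, Pot_jump_eq_C]
  exact Pot_C_cons hj _ n T x

lemma Pot_succ (hj : 1 ≤ j) (n : ℕ) (T : Multiset V) :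
    Pot j q e g (n + 1) T = Pot j q e g n T + q * 𝔼 x, (jump j q e g n T x + rel j g T x) := by
  rw [Pot_eq_C, Pot_eq_C, Pot_C_succ hj]
  simp only [Pot_jump_eq_C, one_mul]

lemma Pot_nil (hj : 1 ≤ j) (n : ℕ) :
    Pot j q e g n 0 = ((n + e).choose j : ℝ) * q ^ j * GG j g 0 := by
  rw [Pot_eq_C, Pot_C_nil hj, one_mul]

lemma PotW_nil (hj : 1 ≤ j) (n : ℕ) :
    PotW j q e g n 0 = j * (((n + e).choose j : ℝ) * q ^ j * GG j g 0) := by
  rw [PotW_eq_C, Pot_C_nil hj, Nat.sub_zero]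

/-- the weighted potential prepays all jumps and releases -/
lemma PotW_step (hj : 1 ≤ j) (hq : 0 ≤ q) (hg : ∀ ω x, 0 ≤ g ω x) (n : ℕ) (T : Multiset V)
    (r : V → ℝ) (hr : ∀ x, 0 ≤ r x ∧ r x ≤ 1) :
    (1 - q + q * 𝔼 x, (1 - r x)) * PotW j q e g n T + q * 𝔼 x, r x * PotW j q e g n (x ::ₘ T)
      + q * 𝔼 x, (jump j q e g n T x + rel j g T x) ≤ PotW j q e g (n + 1) T := by
  set JW : V → ℝ := fun x => Pot_jC j q e g (fun s => ((j - (s + 1) : ℕ) : ℝ)) n T x with hJW
  have h0 : ∀ x, 0 ≤ JW x := fun x =>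
    sum_nonneg fun s _ => mul_nonneg (Nat.cast_nonneg _)
      (mul_nonneg (mul_nonneg (Nat.cast_nonneg _) (pow_nonneg hq _))
        (SS_nonneg fun ω _ _ => GG_nonneg hg _))
  have h1 : ∀ x, PotW j q e g n (x ::ₘ T) = PotW j q e g n T + JW x := fun x => by
    rw [PotW_eq_C, PotW_eq_C]
    exact Pot_C_cons hj _ n T x
  have h2 : ∀ x, Pot_jC j q e g (fun s => ((j - s : ℕ) : ℝ)) n T x
      = JW x + jump j q e g n T x := fun x => by
    simp only [hJW, Pot_jC, jump, ← sum_add_distrib]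
    refine sum_congr rfl fun s hs => ?_
    have hs' := mem_range.1 hs
    have : j - s = j - (s + 1) + 1 := by omega
    rw [this]
    push_cast
    ring
  have h3 : PotW j q e g (n + 1) T = PotW j q e g n T
      + q * ((𝔼 x, JW x) + 𝔼 x, (jump j q e g n T x + rel j g T x)) := by
    rw [PotW_eq_C, PotW_eq_C, Pot_C_succ hj, ← expect_add_distrib]
    have h4 : j - (j - 1) = 1 := by omega
    simp only [h2, h4, Nat.cast_one, one_mul, add_assoc]
  have h5 : 𝔼 x, (1 - r x) = 1 - 𝔼 x, r x := by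
    rw [expect_sub_distrib, expect_const univ_nonempty]
  have h6 : 𝔼 x, r x * PotW j q e g n (x ::ₘ T)
      ≤ (𝔼 x, r x) * PotW j q e g n T + 𝔼 x, JW x := by
    rw [expect_mul, ← expect_add_distrib]
    refine expect_le_expect fun x _ => ?_
    rw [h1 x]
    nlinarith [h0 x, (hr x).2]
  rw [h3, h5]
  have h7 := mul_le_mul_of_nonneg_left h6 hq
  nlinarith [h7]

lemma le_jump (hq : 0 ≤ q) (hg : ∀ ω x, 0 ≤ g ω x) (n : ℕ) {τ T : Multiset V} (h : τ ≤ T)
    (hc : τ.card + 1 < j) (x : V) :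
    (e.choose (j - 1 - τ.card) : ℝ) * q ^ (j - 1 - τ.card) * GG j g (x ::ₘ τ)
      ≤ jump j q e g n T x := by
  have hm : τ.card ∈ range (j - 1) := mem_range.2 (by omega)
  refine le_trans ?_ (single_le_sum (f := fun s => ((n + e).choose (j - 1 - s) : ℝ)
    * q ^ (j - 1 - s) * SS s (fun ω => GG j g (x ::ₘ ω)) T) (fun s _ =>
      mul_nonneg (mul_nonneg (Nat.cast_nonneg _) (pow_nonneg hq _))
        (SS_nonneg fun ω _ _ => GG_nonneg hg _)) hm)
  refine mul_le_mul (mul_le_mul_of_nonneg_right ?_ (pow_nonneg hq _))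
    (le_SS (F := fun ω => GG j g (x ::ₘ ω)) (fun ω => GG_nonneg hg _) h rfl) (GG_nonneg hg _)
    (mul_nonneg (Nat.cast_nonneg _) (pow_nonneg hq _))
  exact_mod_cast Nat.choose_le_choose _ (Nat.le_add_left e n)

/-- the jump function is the potential of the link -/
lemma jump_eq_Pot (n : ℕ) (T : Multiset V) (u : V) :
    jump j q e g n T u = Pot (j - 1) q e (fun ω x => g (u ::ₘ ω) x) n T := by
  unfold jump Pot
  refine sum_congr rfl fun s _ => ?_
  congr 2
  funext ω
  unfold GG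
  have h1 : j - 1 - (u ::ₘ ω).card = j - 1 - 1 - ω.card := by
    rw [Multiset.card_cons]; omega
  rw [h1]
  simp only [Multiset.cons_add]

lemma rel_gL_pos {L : Multiset V → Prop} {T : Multiset V} {x : V} (h : 0 < rel j (gL L) T x) :
    1 ≤ rel j (gL L) T x ∧ ∃ ω ≤ T, ω.card = j - 1 ∧ L (x ::ₘ ω) := by
  obtain ⟨ω, h1, h2, h3⟩ := SS_pos h
  have h4 : L (x ::ₘ ω) := of_ind_pos h3
  refine ⟨?_, ω, h1, h2, h4⟩
  have h5 := le_SS (F := fun ω => gL L ω x) (fun ω => ind_nonneg _) h1 h2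
  have h6 : gL L ω x = 1 := ind_pos h4
  unfold rel
  simpa only [h6] using h5

end Pool.Agent.P.MP_7badbe_co

end

section


open Finset Filter Topology
open scoped BigOperators

namespace Pool.Agent.P.MP_7badbe_co

variable {V : Type} [Fintype V] [Nonempty V]

lemma rho0_nonneg (D : ℝ) : 0 ≤ rho0 D := by
  exact le_max_right _ _

lemma rho0_le_one {D : ℝ} (hD : 0 ≤ D) : rho0 D ≤ 1 := by
  refine max_le (max_le ?_ ?_) zero_le_one <;> linarith

lemma rho0_a (D : ℝ) : 1 - rho0 D ≤ D / 3 := by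
  have h : 1 - D / 3 ≤ rho0 D := (le_max_left _ _).trans (le_max_left _ _)
  linarith

lemma rho0_b (D : ℝ) : 1 - rho0 D ≤ (1 + D) / 6 := by
  have h : (5 - D) / 6 ≤ rho0 D := (le_max_right _ _).trans (le_max_left _ _)
  linarith

lemma rho0_lt {D : ℝ} (h : rho0 D ≠ 0) : D < 5 := by
  by_contra h5
  rw [not_lt] at h5
  apply h
  refine max_eq_right (max_le ?_ ?_) <;> linarith

/-- the exponential lies below a line on an interval if it does so at both ends -/
lemma Rho_chord {a b x c u v : ℝ} (hax : a ≤ x) (hxb : x ≤ b) (hc : 0 ≤ c)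
    (ha : c * Real.exp a ≤ u + v * a) (hb : c * Real.exp b ≤ u + v * b) :
    c * Real.exp x ≤ u + v * x := by
  rcases eq_or_lt_of_le (hax.trans hxb) with h | h
  · have hx : x = a := le_antisymm (h ▸ hxb) hax
    rw [hx]
    exact ha
  · have hba : 0 < b - a := sub_pos.2 h
    obtain ⟨t, ht⟩ : ∃ t, t = (x - a) / (b - a) := ⟨_, rfl⟩
    have t0 : 0 ≤ t := ht ▸ div_nonneg (sub_nonneg.2 hax) hba.le
    have t1 : 0 ≤ 1 - t := by
      rw [ht, sub_nonneg, div_le_one hba]
      linarith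
    have hx : x = (1 - t) * a + t * b := by
      rw [ht]
      field_simp
      ring
    have h1 := convexOn_exp.2 (Set.mem_univ a) (Set.mem_univ b) t1 t0 (by ring)
    simp only [smul_eq_mul] at h1
    rw [← hx] at h1
    have h2 := mul_le_mul_of_nonneg_left h1 hc
    have h3 := mul_le_mul_of_nonneg_left ha t1
    have h4 := mul_le_mul_of_nonneg_left hb t0
    have h5 : v * x = v * ((1 - t) * a + t * b) := by rw [← hx]
    nlinarith

lemma Rho_one_sub (t : ℝ) : (1 - t) * Real.exp t ≤ 1 := by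
  have h1 : 1 - t ≤ Real.exp (-t) := by linarith [Real.add_one_le_exp (-t)]
  have h2 := mul_le_mul_of_nonneg_right h1 (Real.exp_pos t).le
  rwa [← Real.exp_add, neg_add_cancel, Real.exp_zero] at h2

/-- squared form of the tangent line bound -/
lemma Rho_sq {t s : ℝ} (ht : t ≤ 1) : (1 - t) ^ 2 * Real.exp (2 * t + s) ≤ Real.exp s := by
  have h1 := Rho_one_sub t
  have h0 : 0 ≤ (1 - t) * Real.exp t := mul_nonneg (sub_nonneg.2 ht) (Real.exp_pos t).le
  have h2 : ((1 - t) * Real.exp t) ^ 2 ≤ 1 := pow_le_one₀ h0 h1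
  have h3 : (1 - t) ^ 2 * Real.exp (2 * t + s) = ((1 - t) * Real.exp t) ^ 2 * Real.exp s := by
    rw [Real.exp_add, two_mul, Real.exp_add]
    ring
  rw [h3]
  exact mul_le_of_le_one_left (Real.exp_pos s).le h2

lemma Rho_exp_div {n : ℕ} {c : ℝ} (hc : 0 ≤ c) (h : (2.7182818286 : ℝ) ^ n ≤ c ^ 3) :
    Real.exp ((n : ℝ) / 3) ≤ c := by
  refine le_of_pow_le_pow_left₀ (n := 3) (by norm_num) hc ?_
  have h1 : Real.exp ((n : ℝ) / 3) ^ 3 = Real.exp 1 ^ n := by
    rw [← Real.exp_nat_mul, ← Real.exp_nat_mul]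
    congr 1
    push_cast
    ring
  rw [h1]
  exact (pow_le_pow_left₀ (Real.exp_pos 1).le Real.exp_one_lt_d9.le n).trans h

lemma Rho_big {D : ℝ} (h1 : 1 ≤ D) (h5 : D ≤ 5) : (5 - D) ^ 2 * Real.exp D ≤ 24 * (1 + D) := by
  rcases le_total D 3 with h3 | h3
  · have a1 := Rho_sq (t := (D - 2) / 3) (s := D / 3 + 4 / 3) (by linarith)
    have e1 : 2 * ((D - 2) / 3) + (D / 3 + 4 / 3) = D := by ring
    rw [e1] at a1
    have b1 : Real.exp (((5 : ℕ) : ℝ) / 3) ≤ 16 / 3 := Rho_exp_div (by norm_num) (by norm_num)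
    have b2 : Real.exp (((7 : ℕ) : ℝ) / 3) ≤ 32 / 3 := Rho_exp_div (by norm_num) (by norm_num)
    have a2 := Rho_chord (a := ((5 : ℕ) : ℝ) / 3) (b := ((7 : ℕ) : ℝ) / 3) (x := D / 3 + 4 / 3)
      (c := 1) (u := -8) (v := 8) (by push_cast; linarith) (by push_cast; linarith) zero_le_one
      (by rw [one_mul]; push_cast at b1 ⊢; linarith) (by rw [one_mul]; push_cast at b2 ⊢; linarith)
    have e2 : (5 - D) ^ 2 * Real.exp D = 9 * ((1 - (D - 2) / 3) ^ 2 * Real.exp D) := by ring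
    rw [e2]
    linarith
  · have a1 := Rho_sq (t := (D - 3) / 2) (s := 3) (by linarith)
    have e1 : 2 * ((D - 3) / 2) + 3 = D := by ring
    rw [e1] at a1
    have b1 : Real.exp (((9 : ℕ) : ℝ) / 3) ≤ 24 := Rho_exp_div (by norm_num) (by norm_num)
    have e3 : ((9 : ℕ) : ℝ) / 3 = 3 := by norm_num
    rw [e3] at b1
    have e2 : (5 - D) ^ 2 * Real.exp D = 4 * ((1 - (D - 3) / 2) ^ 2 * Real.exp D) := by ring
    rw [e2]
    linarith

lemma rho0_main {D x : ℝ} (hD : 0 ≤ D) (h1 : D / 6 ≤ x) (h2 : x ≤ D / 2) :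
    rho0 D ^ 2 * Real.exp (2 * x) + 1 ≤ 2 * rho0 D + 2 * x := by
  suffices h : rho0 D ^ 2 * Real.exp (D / 3) ≤ 2 * rho0 D - 1 + 1 * (D / 3) ∧
      rho0 D ^ 2 * Real.exp D ≤ 2 * rho0 D - 1 + 1 * D by
    have := Rho_chord (x := 2 * x) (by linarith) (by linarith) (sq_nonneg _) h.1 h.2
    linarith
  rcases le_total D 1 with hD1 | hD1
  · have e : rho0 D = 1 - D / 3 := by
      rw [rho0, max_eq_left (a := 1 - D / 3) (by linarith), max_eq_left (by linarith)]
    rw [e]
    constructor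
    · have a1 := Rho_one_sub (D / 3)
      have a2 := mul_le_mul_of_nonneg_left a1 (show 0 ≤ 1 - D / 3 by linarith)
      nlinarith
    · have a1 := Real.exp_bound' hD hD1 (n := 3) (by norm_num)
      simp only [Finset.sum_range_succ, Finset.sum_range_zero, Nat.factorial] at a1
      norm_num at a1
      have a2 := mul_le_mul_of_nonneg_left a1 (sq_nonneg (1 - D / 3))
      have p2 : 0 ≤ D ^ 2 := sq_nonneg D
      have p4 : 0 ≤ D ^ 4 := by positivity
      have p5 : D ^ 5 ≤ D ^ 4 := pow_le_pow_of_le_one hD hD1 (by norm_num)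
      nlinarith
  · rcases le_total D 5 with hD5 | hD5
    · have e : rho0 D = (5 - D) / 6 := by
        rw [rho0, max_eq_right (b := (5 - D) / 6) (by linarith), max_eq_left (by linarith)]
      rw [e]
      constructor
      · have a1 := Rho_sq (t := (D - 1) / 4) (s := 1 / 2 - D / 6) (by linarith)
        have e1 : 2 * ((D - 1) / 4) + (1 / 2 - D / 6) = D / 3 := by ring
        rw [e1] at a1
        have a2 : Real.exp (1 / 2 - D / 6) ≤ Real.exp (1 / 3) := Real.exp_le_exp.2 (by linarith)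
        have a3 := Rho_one_sub (1 / 3)
        have e2 : ((5 - D) / 6) ^ 2 * Real.exp (D / 3) =
            4 / 9 * ((1 - (D - 1) / 4) ^ 2 * Real.exp (D / 3)) := by ring
        rw [e2]
        linarith
      · have a1 := Rho_big hD1 hD5
        have e2 : ((5 - D) / 6) ^ 2 * Real.exp D = 1 / 36 * ((5 - D) ^ 2 * Real.exp D) := by ring
        rw [e2]
        linarith
    · have e : rho0 D = 0 := by
        by_contra h
        rcases eq_or_lt_of_le hD5 with h5 | h5
        · apply h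
          rw [rho0, ← h5]
          norm_num
        · linarith [rho0_lt h]
      rw [e]
      constructor <;> nlinarith

end Pool.Agent.P.MP_7badbe_co

end
end

-- part Pool.Agent.P.MP_7badbe_co.Sp.B
section

set_option autoImplicit false
set_option linter.unusedSectionVars false

section


open Finset Filter Topology
open scoped BigOperators

namespace Pool.Agent.P.MP_7badbe_co

variable {V : Type} [Fintype V] [Nonempty V]

variable {j e : ℕ} {q lam D : ℝ} {L : Multiset V → Prop}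

omit [Fintype V] [Nonempty V] in
lemma Nu_gL_nonneg (L : Multiset V → Prop) (ω : Multiset V) (x : V) : 0 ≤ gL L ω x :=
  ind_nonneg _

omit [Fintype V] [Nonempty V] in
lemma Nu_le_cons {J T : Multiset V} {x : V} (h : J ≤ x ::ₘ T) :
    J ≤ T ∨ ∃ w ≤ T, J = x ::ₘ w := by
  classical
  by_cases hx : x ∈ J
  · exact Or.inr ⟨J.erase x, Multiset.erase_le_iff_le_cons.2 h, (Multiset.cons_erase hx).symm⟩
  · exact Or.inl ((Multiset.le_cons_of_notMem hx).1 h)

lemma rhoL_mem (hq : 0 ≤ q) (n : ℕ) (T : Multiset V) (x : V) :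
    0 ≤ rhoL j q e L n T x ∧ rhoL j q e L n T x ≤ 1 := by
  unfold rhoL
  split_ifs
  · exact ⟨le_rfl, zero_le_one⟩
  · exact ⟨rho0_nonneg _, rho0_le_one (jump_nonneg hq (Nu_gL_nonneg L) n T x)⟩

lemma rhoL_ne {n : ℕ} {T : Multiset V} {x : V} (h : rhoL j q e L n T x ≠ 0) :
    rel j (gL L) T x = 0 ∧ jump j q e (gL L) n T x < 5 := by
  unfold rhoL at h
  split_ifs at h with h1
  · exact absurd rfl h
  · exact ⟨le_antisymm (not_lt.1 h1) (rel_nonneg (Nu_gL_nonneg L) T x), rho0_lt h⟩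

lemma one_sub_rhoL (hq : 0 ≤ q) (n : ℕ) (T : Multiset V) (x : V) :
    1 - rhoL j q e L n T x ≤ jump j q e (gL L) n T x + rel j (gL L) T x := by
  have h1 := jump_nonneg (j := j) (e := e) hq (Nu_gL_nonneg L) n T x
  have h2 := rel_nonneg (j := j) (Nu_gL_nonneg L) T x
  unfold rhoL
  split_ifs with h
  · have := (rel_gL_pos h).1
    linarith
  · have := rho0_a (jump j q e (gL L) n T x)
    linarith

lemma indT_step (hj : 1 ≤ j) {n : ℕ} {T : Multiset V} {x : V} (hT : IndT j L T)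
    (h : rhoL j q e L n T x ≠ 0) : IndT j L (x ::ₘ T) := by
  intro J hJ hc hL
  rcases Nu_le_cons hJ with h1 | ⟨w, hw, rfl⟩
  · exact hT J h1 hc hL
  · have h2 : w.card = j - 1 := by
      rw [Multiset.card_cons] at hc
      omega
    have h3 : gL L w x ≤ rel j (gL L) T x :=
      le_SS (F := fun ω => gL L ω x) (fun ω => Nu_gL_nonneg L ω x) hw h2
    rw [(rhoL_ne h).1, gL, ind_pos hL] at h3
    linarith

lemma noforb_step (hq : 0 ≤ q) (hlam : 0 < lam)
    (hD : ∀ r, 1 ≤ r → r < j → 5 * lam ^ r ≤ D * ((e.choose r : ℝ) * q ^ r))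
    {n : ℕ} {T : Multiset V} {x : V} (hT : NoForb j lam D L T)
    (h : jump j q e (gL L) n T x < 5) : NoForb j lam D L (x ::ₘ T) := by
  intro τ hτ hc
  rcases Nu_le_cons hτ with h1 | ⟨w, hw, rfl⟩
  · exact hT τ h1 hc
  · have hc' : w.card + 1 < j := by rwa [Multiset.card_cons] at hc
    have h2 := le_jump (e := e) hq (Nu_gL_nonneg L) n hw hc' x
    have h3 : j - (x ::ₘ w).card = j - 1 - w.card := by
      rw [Multiset.card_cons]
      omega
    have h4 := hD (j - 1 - w.card) (by omega) (by omega)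
    have h5 := GG_nonneg (j := j) (Nu_gL_nonneg L) (x ::ₘ w)
    unfold dg
    rw [← GG_gL L hc, h3]
    set G := GG j (gL L) (x ::ₘ w)
    set c := (e.choose (j - 1 - w.card) : ℝ) * q ^ (j - 1 - w.card) with hcdef
    have h6 : 0 ≤ c := by positivity
    have h7 : 0 < lam ^ (j - 1 - w.card) := pow_pos hlam _
    have h8 : 0 < D := by
      by_contra h9
      have := mul_nonpos_of_nonpos_of_nonneg (not_lt.1 h9) h6
      linarith
    have h9 := mul_le_mul_of_nonneg_right h4 h5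
    have h10 := mul_lt_mul_of_pos_left (lt_of_le_of_lt h2 h) h8
    nlinarith

lemma noforb_nil {d : ℝ} (hlam : 0 ≤ lam) (hd : Ex j (fun J => ind (L J)) ≤ d)
    (h : lam ^ j * d < D) : NoForb j lam D L 0 := by
  intro τ hτ _
  obtain rfl := Multiset.le_zero.1 hτ
  unfold dg
  simp only [Multiset.card_zero, Nat.sub_zero, zero_add]
  exact lt_of_le_of_lt (mul_le_mul_of_nonneg_left hd (pow_nonneg hlam _)) h

lemma Nu_real {q a c D : ℝ} (h0 : 0 ≤ q) (h1 : q ≤ 1) (ha : 0 ≤ a) (hc : 0 ≤ c) :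
    (1 - q + q * a) * √((D + q) ^ 2 + c) + q * ((1 - a) * √((D + q - 1) ^ 2 + c))
      ≤ √(D ^ 2 + (c + q)) + q * a := by
  set A := √((D + q) ^ 2 + c) with hA
  set B := √((D + q - 1) ^ 2 + c) with hB
  have hA2 : A ^ 2 = (D + q) ^ 2 + c := Real.sq_sqrt (by positivity)
  have hB2 : B ^ 2 = (D + q - 1) ^ 2 + c := Real.sq_sqrt (by positivity)
  have hB0 : 0 ≤ B := Real.sqrt_nonneg _
  have hB1 : D + q - 1 ≤ B := Real.le_sqrt_of_sq_le (by linarith)
  have hAB : A ≤ B + 1 := by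
    rw [hA]
    exact Real.sqrt_le_iff.2 ⟨by linarith, by nlinarith⟩
  have h2 : (1 - q) * A + q * B ≤ √(D ^ 2 + (c + q)) := by
    refine Real.le_sqrt_of_sq_le ?_
    have h3 : ((1 - q) * A + q * B) ^ 2
        = (1 - q) * A ^ 2 + q * B ^ 2 - q * (1 - q) * (A - B) ^ 2 := by ring
    have h4 : 0 ≤ q * (1 - q) * (A - B) ^ 2 :=
      mul_nonneg (mul_nonneg h0 (by linarith)) (sq_nonneg _)
    rw [h3, hA2, hB2]
    nlinarith [sq_nonneg q]
  have h3 : q * a * (A - B) ≤ q * a * 1 :=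
    mul_le_mul_of_nonneg_left (by linarith) (mul_nonneg h0 ha)
  nlinarith

/-- the number of accepted points is close to its null mean -/
theorem count_dev (hj : 1 ≤ j) (h0 : 0 ≤ q) (h1 : q < 1) (n : ℕ) :
    nu1 q (rhoL j q e L) n 0 (fun T => |n * q - T.card|)
      ≤ √(n * q) + j * (((n + e).choose j : ℝ) * q ^ j * Ex j (fun J => ind (L J))) := by
  have hρ := rhoL_mem (j := j) (e := e) (L := L) h0
  have key := nu1_le h0 h1 hρ
    (fun m T => √((n * q - m * q - T.card) ^ 2 + m * q) + PotW j q e (gL L) m T) (by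
      intro m T
      have h2 := PotW_step (e := e) hj h0 (Nu_gL_nonneg L) m T (rhoL j q e L m T) (hρ m T)
      set a := 𝔼 x, (1 - rhoL j q e L m T x) with ha
      have ha0 : 0 ≤ a := expect_nonneg fun x _ => by linarith [(hρ m T x).2]
      have ha1 : a ≤ 𝔼 x, (jump j q e (gL L) m T x + rel j (gL L) T x) :=
        expect_le_expect fun x _ => one_sub_rhoL h0 m T x
      have ha2 : 𝔼 x, rhoL j q e L m T x = 1 - a := by
        rw [ha, expect_sub_distrib, expect_const univ_nonempty]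
        ring
      have h3 := Nu_real (D := n * q - (m + 1) * q - T.card) (c := m * q) h0 h1.le ha0
        (by positivity)
      have e1 : (n * q - (m + 1) * q - T.card + q : ℝ) - 1
          = n * q - m * q - (T.card + 1) := by ring
      have e2 : (n * q - (m + 1) * q - T.card + q : ℝ) = n * q - m * q - T.card := by ring
      have e3 : (m * q + q : ℝ) = (m + 1) * q := by ring
      rw [e1, e2, e3] at h3
      simp only [Multiset.card_cons, Nat.cast_add, Nat.cast_one, mul_add _ (√_),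
        expect_add_distrib, ← expect_mul, ha2]
      have h4 := mul_le_mul_of_nonneg_left ha1 h0
      linarith) n 0
  refine le_trans (nu1_mono h0 h1 hρ (fun _ => True) (fun _ _ _ _ _ => trivial) n trivial
    fun W _ => ?_) (key.trans (le_of_eq ?_))
  · have := PotW_nonneg (j := j) (e := e) h0 (Nu_gL_nonneg L) 0 W
    simp only [Nat.cast_zero, zero_mul, sub_zero, add_zero, Real.sqrt_sq_eq_abs]
    linarith
  · rw [PotW_nil hj, GG_gL L (show (0 : Multiset V).card < j from hj)]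
    simp

end Pool.Agent.P.MP_7badbe_co

end

section


open Finset Filter Topology
open scoped BigOperators

namespace Pool.Agent.P.MP_7badbe_co

variable {V : Type} [Fintype V] [Nonempty V]

variable {j e : ℕ} {q : ℝ} {L : Multiset V → Prop}

/-- sum over the choices of one point -/
noncomputable def Qm_S1 (Φ : V → Multiset V → ℝ) (T : Multiset V) : ℝ :=
  splitSum 1 (fun I T' => (I.map (fun u => Φ u T')).sum) T

omit [Fintype V] [Nonempty V] in
lemma Qm_S1_nil (Φ : V → Multiset V → ℝ) : Qm_S1 Φ 0 = 0 := by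
  simp [Qm_S1, splitSum]

lemma Qm_S1_cons (Φ : V → Multiset V → ℝ) (x : V) (T : Multiset V) :
    Qm_S1 Φ (x ::ₘ T) = Qm_S1 (fun u T' => Φ u (x ::ₘ T')) T + Φ x T := by
  unfold Qm_S1
  rw [splitSum_succ_cons, splitSum_zero]
  simp

lemma Qm_S1_mono {Φ Ψ : V → Multiset V → ℝ} {T : Multiset V}
    (h : ∀ u T', u ::ₘ T' = T → Φ u T' ≤ Ψ u T') : Qm_S1 Φ T ≤ Qm_S1 Ψ T := by
  unfold Qm_S1
  refine splitSum_mono (fun I J hIJ hI => ?_)
  obtain ⟨u, rfl⟩ := Multiset.card_eq_one.1 hI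
  simp only [Multiset.map_singleton, Multiset.sum_singleton]
  exact h u J (by rw [← hIJ, Multiset.singleton_add])

lemma Qm_S1_add (Φ Ψ : V → Multiset V → ℝ) (T : Multiset V) :
    Qm_S1 (fun u T' => Φ u T' + Ψ u T') T = Qm_S1 Φ T + Qm_S1 Ψ T := by
  induction T using Multiset.induction_on generalizing Φ Ψ with
  | empty => simp [Qm_S1_nil]
  | cons x T ih => rw [Qm_S1_cons, Qm_S1_cons, Qm_S1_cons, ih]; ring

lemma Qm_S1_mul (c : ℝ) (Φ : V → Multiset V → ℝ) (T : Multiset V) :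
    Qm_S1 (fun u T' => c * Φ u T') T = c * Qm_S1 Φ T := by
  induction T using Multiset.induction_on generalizing Φ with
  | empty => simp [Qm_S1_nil]
  | cons x T ih => rw [Qm_S1_cons, Qm_S1_cons, ih]; ring

lemma Qm_S1_expect (Φ : V → V → Multiset V → ℝ) (T : Multiset V) :
    Qm_S1 (fun u T' => 𝔼 x, Φ x u T') T = 𝔼 x, Qm_S1 (Φ x) T := by
  induction T using Multiset.induction_on generalizing Φ with
  | empty => simp [Qm_S1_nil]
  | cons y T ih =>
    simp only [Qm_S1_cons]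
    rw [ih (fun x u T' => Φ x u (y ::ₘ T')), expect_add_distrib]

lemma Qm_S1_sum {ι : Type} (s : Finset ι) (Φ : ι → V → Multiset V → ℝ) (T : Multiset V) :
    Qm_S1 (fun u T' => ∑ i ∈ s, Φ i u T') T = ∑ i ∈ s, Qm_S1 (Φ i) T := by
  induction T using Multiset.induction_on generalizing Φ with
  | empty => simp [Qm_S1_nil]
  | cons y T ih =>
    simp only [Qm_S1_cons]
    rw [ih (fun i u T' => Φ i u (y ::ₘ T')), sum_add_distrib]

lemma Qm_S1_SS (s : ℕ) (F : Multiset V → ℝ) (T : Multiset V) :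
    Qm_S1 (fun u T' => SS s (fun ω => F (u ::ₘ ω)) T') T = (s + 1) * SS (s + 1) F T := by
  induction T using Multiset.induction_on generalizing s F with
  | empty => simp [Qm_S1_nil, SS_nil]
  | cons y T ih =>
    rw [Qm_S1_cons, SS_cons]
    cases s with
    | zero =>
      have h := ih 0 F
      simp only [SS_zero] at h ⊢
      rw [h]; push_cast; ring
    | succ s =>
      simp only [SS_cons]
      rw [Qm_S1_add, ih (s + 1) F]
      have h := ih s (fun ω => F (y ::ₘ ω))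
      have h2 : (fun (u : V) (T' : Multiset V) => SS s (fun ω => F (u ::ₘ y ::ₘ ω)) T')
          = fun u T' => SS s (fun ω => F (y ::ₘ u ::ₘ ω)) T' := by
        funext u T'
        congr 1
        funext ω
        rw [Multiset.cons_swap]
      rw [h2, h]
      push_cast; ring

/-- the jump of the link -/
noncomputable def Qm_J (j : ℕ) (q : ℝ) (e : ℕ) (g : Multiset V → V → ℝ) (n : ℕ) (u x : V)
    (T : Multiset V) : ℝ :=
  ∑ s ∈ range (j - 1 - 1), ((n + e).choose (j - 1 - 1 - s) : ℝ) * q ^ (j - 1 - 1 - s)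
    * SS s (fun ω => GG j g (x ::ₘ u ::ₘ ω)) T

omit [Nonempty V] in
lemma Qm_J_eq (g : Multiset V → V → ℝ) (n : ℕ) (u x : V) (T : Multiset V) :
    jump (j - 1) q e (fun ω y => g (u ::ₘ ω) y) n T x = Qm_J j q e g n u x T := by
  unfold jump Qm_J
  refine sum_congr rfl (fun s _ => ?_)
  congr 2
  funext ω
  unfold GG
  simp only [Multiset.card_cons]
  have h : j - 1 - 1 - (ω.card + 1) = j - 1 - (ω.card + 1 + 1) := by omega
  rw [h]
  congr 1
  funext R
  simp only [Multiset.cons_add]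
  rw [Multiset.cons_swap]

omit [Nonempty V] in
lemma Qm_J_symm (g : Multiset V → V → ℝ) (n : ℕ) (u x : V) (T : Multiset V) :
    Qm_J j q e g n u x T = Qm_J j q e g n x u T := by
  unfold Qm_J
  refine sum_congr rfl (fun s _ => ?_)
  congr 2
  funext ω
  rw [Multiset.cons_swap]

lemma Qm_J_nonneg {g : Multiset V → V → ℝ} (hq : 0 ≤ q) (hg : ∀ ω x, 0 ≤ g ω x) (n : ℕ)
    (u x : V) (T : Multiset V) : 0 ≤ Qm_J j q e g n u x T := by
  rw [← Qm_J_eq]
  exact jump_nonneg hq (fun ω y => hg _ _) n T x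

lemma Qm_jump_cons (hj : 2 ≤ j) (g : Multiset V → V → ℝ) (n : ℕ) (u x : V) (T : Multiset V) :
    jump j q e g n (x ::ₘ T) u = jump j q e g n T u + Qm_J j q e g n u x T := by
  rw [jump_eq_Pot, jump_eq_Pot, Pot_cons (by omega), Qm_J_eq]

lemma Qm_jump_succ (hj : 2 ≤ j) (hq : 0 ≤ q) {g : Multiset V → V → ℝ} (hg : ∀ ω x, 0 ≤ g ω x)
    (n : ℕ) (u : V) (T : Multiset V) :
    jump j q e g n T u + q * 𝔼 x, Qm_J j q e g n u x T ≤ jump j q e g (n + 1) T u := by
  rw [jump_eq_Pot, jump_eq_Pot, Pot_succ (by omega)]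
  refine add_le_add le_rfl (mul_le_mul_of_nonneg_left (expect_le_expect (fun x _ => ?_)) hq)
  rw [Qm_J_eq]
  have := rel_nonneg (j := j - 1) (g := fun ω y => g (u ::ₘ ω) y) (fun ω y => hg _ _) T x
  linarith

lemma Qm_S1_J (hj : 2 ≤ j) (hq : 0 ≤ q) {g : Multiset V → V → ℝ} (hg : ∀ ω x, 0 ≤ g ω x)
    (n : ℕ) (x : V) (T : Multiset V) :
    Qm_S1 (fun u T' => Qm_J j q e g n u x T') T ≤ ((j : ℝ) - 1) * jump j q e g n T x := by
  unfold Qm_J jump
  rw [Qm_S1_sum]
  obtain ⟨k, rfl⟩ : ∃ k, j = k + 2 := ⟨j - 2, by omega⟩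
  have h1 : k + 2 - 1 - 1 = k := by omega
  have h2 : k + 2 - 1 = k + 1 := by omega
  rw [h1, h2, sum_range_succ', mul_add, mul_sum]
  have hS : ∀ s, 0 ≤ SS s (fun ω => GG (k + 2) g (x ::ₘ ω)) T :=
    fun s => SS_nonneg (fun ω _ _ => GG_nonneg hg _)
  have hk : (0 : ℝ) ≤ ((k + 2 : ℕ) : ℝ) - 1 := by push_cast; linarith [Nat.cast_nonneg (α := ℝ) k]
  refine le_add_of_le_of_nonneg (sum_le_sum (fun s hs => ?_))
    (mul_nonneg hk (mul_nonneg (by positivity) (hS 0)))
  rw [Qm_S1_mul, Qm_S1_SS s (fun ω => GG (k + 2) g (x ::ₘ ω))]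
  have h3 : k + 1 - (s + 1) = k - s := by omega
  rw [h3]
  have h4 : ((s : ℝ) + 1) ≤ ((k + 2 : ℕ) : ℝ) - 1 := by
    have : (s : ℝ) ≤ k := by exact_mod_cast (mem_range.1 hs).le
    push_cast; linarith
  have h5 : 0 ≤ ((n + e).choose (k - s) : ℝ) * q ^ (k - s)
      * SS (s + 1) (fun ω => GG (k + 2) g (x ::ₘ ω)) T := mul_nonneg (by positivity) (hS _)
  nlinarith

lemma Qm_gL_nonneg (ω : Multiset V) (x : V) : 0 ≤ gL L ω x := ind_nonneg _

lemma Qm_Qf_eq (n : ℕ) (T : Multiset V) :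
    Qf j q e L n T = Qm_S1 (fun u T' => jump j q e (gL L) n T' u ^ 2) T := rfl

lemma Qm_cons_le (hj : 2 ≤ j) (hq : 0 ≤ q) (n : ℕ) (x : V) (T : Multiset V) :
    Qf j q e L n (x ::ₘ T) ≤ Qf j q e L n T
      + Qm_S1 (fun u T' => 2 * jump j q e (gL L) n T' u * Qm_J j q e (gL L) n u x T') T
      + j * jump j q e (gL L) n T x ^ 2 := by
  rw [Qm_Qf_eq, Qm_Qf_eq, Qm_S1_cons, ← Qm_S1_add]
  have ha := jump_nonneg (j := j) (e := e) hq (Qm_gL_nonneg (L := L)) n T x
  have h1 : Qm_S1 (fun u T' => jump j q e (gL L) n (x ::ₘ T') u ^ 2) T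
      ≤ Qm_S1 (fun u T' => (jump j q e (gL L) n T' u ^ 2
        + 2 * jump j q e (gL L) n T' u * Qm_J j q e (gL L) n u x T')
        + jump j q e (gL L) n T x * Qm_J j q e (gL L) n u x T') T := by
    refine Qm_S1_mono (fun u T' hT => ?_)
    rw [Qm_jump_cons hj]
    have h2 : Qm_J j q e (gL L) n u x T' ≤ jump j q e (gL L) n T x := by
      rw [← hT, Qm_jump_cons hj, Qm_J_symm _ _ x u]
      have := jump_nonneg (j := j) (e := e) hq (Qm_gL_nonneg (L := L)) n T' x
      linarith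
    have h3 := Qm_J_nonneg (j := j) (e := e) hq (Qm_gL_nonneg (L := L)) n u x T'
    nlinarith
  rw [Qm_S1_add, Qm_S1_mul] at h1
  have h4 := mul_le_mul_of_nonneg_left
    (Qm_S1_J (e := e) hj hq (Qm_gL_nonneg (L := L)) n x T) ha
  nlinarith

lemma Qm_succ_ge (hj : 2 ≤ j) (hq : 0 ≤ q) (n : ℕ) (T : Multiset V) :
    Qf j q e L n T + q * 𝔼 x,
      Qm_S1 (fun u T' => 2 * jump j q e (gL L) n T' u * Qm_J j q e (gL L) n u x T') T
      ≤ Qf j q e L (n + 1) T := by
  rw [Qm_Qf_eq, Qm_Qf_eq, ← Qm_S1_expect, ← Qm_S1_mul, ← Qm_S1_add]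
  refine Qm_S1_mono (fun u T' _ => ?_)
  rw [← mul_expect]
  have h1 := Qm_jump_succ (e := e) hj hq (Qm_gL_nonneg (L := L)) n u T'
  have h2 := jump_nonneg (j := j) (e := e) hq (Qm_gL_nonneg (L := L)) n T' u
  have h3 : 0 ≤ q * 𝔼 x, Qm_J j q e (gL L) n u x T' :=
    mul_nonneg hq (expect_nonneg (fun x _ => Qm_J_nonneg hq Qm_gL_nonneg n u x T'))
  have h4 := pow_le_pow_left₀ (add_nonneg h2 h3) h1 2
  nlinarith

lemma Qm_step (hj : 2 ≤ j) (h0 : 0 ≤ q) (n : ℕ) (T : Multiset V) :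
    (1 - q + q * 𝔼 x, (1 - rhoL j q e L n T x)) * Qf j q e L n T
      + q * 𝔼 x, rhoL j q e L n T x * Qf j q e L n (x ::ₘ T)
      ≤ Qf j q e L (n + 1) T
        + 5 * j * (q * 𝔼 x, (jump j q e (gL L) n T x + rel j (gL L) T x)) := by
  have h1 := Qm_succ_ge (e := e) (L := L) hj h0 n T
  have h2 : 𝔼 x, rhoL j q e L n T x * Qf j q e L n (x ::ₘ T)
      ≤ 𝔼 x, ((Qf j q e L n T - Qf j q e L n T * (1 - rhoL j q e L n T x))
        + (Qm_S1 (fun u T' => 2 * jump j q e (gL L) n T' u * Qm_J j q e (gL L) n u x T') T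
          + 5 * j * (jump j q e (gL L) n T x + rel j (gL L) T x))) := by
    refine expect_le_expect (fun x _ => ?_)
    have hρ := rhoL_mem (j := j) (e := e) (L := L) h0 n T x
    have hc := Qm_cons_le (e := e) (L := L) hj h0 n x T
    have ha := jump_nonneg (j := j) (e := e) h0 (Qm_gL_nonneg (L := L)) n T x
    have hr := rel_nonneg (j := j) (Qm_gL_nonneg (L := L)) T x
    have hj0 : (0 : ℝ) ≤ j := Nat.cast_nonneg _
    have hS : 0 ≤ Qm_S1
        (fun u T' => 2 * jump j q e (gL L) n T' u * Qm_J j q e (gL L) n u x T') T := by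
      have := Qm_S1_mono (Φ := fun u T' => 0 * jump j q e (gL L) n T' u)
        (Ψ := fun u T' => 2 * jump j q e (gL L) n T' u * Qm_J j q e (gL L) n u x T') (T := T)
        (fun u T' _ => by
          have h5 := jump_nonneg (j := j) (e := e) h0 (Qm_gL_nonneg (L := L)) n T' u
          have h6 := Qm_J_nonneg (j := j) (e := e) h0 (Qm_gL_nonneg (L := L)) n u x T'
          rw [zero_mul]; positivity)
      rwa [Qm_S1_mul, zero_mul] at this
    have hk : rhoL j q e L n T x * (j * jump j q e (gL L) n T x ^ 2)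
        ≤ 5 * j * (jump j q e (gL L) n T x + rel j (gL L) T x) := by
      by_cases hz : rhoL j q e L n T x = 0
      · rw [hz, zero_mul]; positivity
      · have h5 := (rhoL_ne hz).2
        have h6 : jump j q e (gL L) n T x ^ 2 ≤ 5 * jump j q e (gL L) n T x := by nlinarith
        have h7 : rhoL j q e L n T x * (j * jump j q e (gL L) n T x ^ 2)
            ≤ 1 * (j * jump j q e (gL L) n T x ^ 2) :=
          mul_le_mul_of_nonneg_right hρ.2 (by positivity)
        have h8 := mul_le_mul_of_nonneg_left h6 hj0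
        have h9 := mul_nonneg hj0 hr
        nlinarith
    have h3 := mul_le_mul_of_nonneg_left hc hρ.1
    have h4 := mul_le_mul_of_nonneg_right hρ.2 hS
    nlinarith
  rw [expect_add_distrib, expect_add_distrib, expect_sub_distrib, ← mul_expect, ← mul_expect,
    Fintype.expect_const] at h2
  have h3 := mul_le_mul_of_nonneg_left h2 h0
  nlinarith

theorem Q_moment (hj : 2 ≤ j) (h0 : 0 ≤ q) (h1 : q < 1) (n : ℕ) :
    nu1 q (rhoL j q e L) n 0 (Qf j q e L 0)
      ≤ 5 * j ^ 2 * (((n + e).choose j : ℝ) * q ^ j * Ex j (fun J => ind (L J))) := by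
  have hj0 : (0 : ℝ) ≤ 5 * j := by positivity
  have hρ := rhoL_mem (j := j) (e := e) (L := L) h0
  have hA := nu1_le h0 h1 hρ (fun n T => Qf j q e L n T + 5 * j * PotW j q e (gL L) n T)
    (fun n T => by
      have h2 := Qm_step (e := e) (L := L) hj h0 n T
      have h3 := mul_le_mul_of_nonneg_left (PotW_step (e := e) (by omega : 1 ≤ j) h0
        (Qm_gL_nonneg (L := L)) n T (rhoL j q e L n T) (hρ n T)) hj0
      have h4 : 𝔼 x, rhoL j q e L n T x
            * (Qf j q e L n (x ::ₘ T) + 5 * j * PotW j q e (gL L) n (x ::ₘ T))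
          = 𝔼 x, rhoL j q e L n T x * Qf j q e L n (x ::ₘ T)
            + 5 * j * 𝔼 x, rhoL j q e L n T x * PotW j q e (gL L) n (x ::ₘ T) := by
        rw [mul_expect, ← expect_add_distrib]
        exact expect_congr rfl (fun x _ => by ring)
      rw [h4]
      nlinarith) n 0
  have hB : nu1 q (rhoL j q e L) n 0 (Qf j q e L 0)
      ≤ nu1 q (rhoL j q e L) n 0 (fun T => Qf j q e L 0 T + 5 * j * PotW j q e (gL L) 0 T) :=
    nu1_mono h0 h1 hρ (fun _ => True) (fun _ _ _ _ _ => trivial) n trivial (fun W _ => by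
      have := mul_nonneg hj0 (PotW_nonneg (j := j) (e := e) h0 (Qm_gL_nonneg (L := L)) 0 W)
      linarith)
  refine hB.trans (hA.trans (le_of_eq ?_))
  rw [Qm_Qf_eq, Qm_S1_nil, PotW_nil (by omega), GG_gL L (by simp; omega)]
  simp only [Multiset.card_zero, Nat.sub_zero, zero_add]
  ring

lemma Qf_nonneg (n : ℕ) (T : Multiset V) : 0 ≤ Qf j q e L n T := by
  unfold Qf
  refine splitSum_nonneg (fun I J => Multiset.sum_nonneg (fun x hx => ?_)) T
  obtain ⟨u, _, rfl⟩ := Multiset.mem_map.1 hx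
  positivity

theorem cap_of_Q (hj : 2 ≤ j) (h0 : 0 < q) (he : 1 ≤ e) (n : ℕ) {B : ℝ} (hB : 0 ≤ B)
    {T : Multiset V} (h : Qf j q e L 0 T ≤ B ^ 2) : Cap j (n * q) L (n / e * B) T := by
  intro u T' hT
  obtain ⟨W, rfl⟩ := Multiset.le_iff_exists_add.1 hT
  have h1 : jump j q e (gL L) 0 (T' + W) u ^ 2 ≤ B ^ 2 := by
    refine le_trans ?_ h
    rw [Multiset.cons_add, Qm_Qf_eq, Qm_S1_cons]
    have := Qm_S1_mono (Φ := fun v S => 0 * jump j q e (gL L) 0 S v)
      (Ψ := fun v S => jump j q e (gL L) 0 (u ::ₘ S) v ^ 2) (T := T' + W)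
      (fun v S _ => by rw [zero_mul]; positivity)
    rw [Qm_S1_mul, zero_mul] at this
    linarith
  have h2 : jump j q e (gL L) 0 (T' + W) u ≤ B := (abs_le_of_sq_le_sq' h1 hB).2
  obtain ⟨k, rfl⟩ : ∃ k, j = k + 2 := ⟨j - 2, by omega⟩
  have h3 : (e : ℝ) * q * SS k (fun ω => 𝔼 x, ind (L (x ::ₘ u ::ₘ ω))) (T' + W)
      ≤ jump (k + 2) q e (gL L) 0 (T' + W) u := by
    unfold jump
    have h4 : k + 2 - 1 = k + 1 := by omega
    rw [h4, sum_range_succ]
    have h5 : k + 1 - k = 1 := by omega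
    rw [h5, zero_add, Nat.choose_one_right, pow_one]
    have h6 : SS k (fun ω => GG (k + 2) (gL L) (u ::ₘ ω)) (T' + W)
        = SS k (fun ω => 𝔼 x, ind (L (x ::ₘ u ::ₘ ω))) (T' + W) := by
      refine SS_congr (fun ω _ hω => ?_)
      unfold GG
      have h7 : k + 2 - 1 - (u ::ₘ ω).card = 0 := by rw [Multiset.card_cons, hω]; omega
      rw [h7, Ex_zero, add_zero]
      rfl
    rw [h6]
    refine le_add_of_nonneg_left (sum_nonneg (fun s _ => ?_))
    exact mul_nonneg (by positivity) (SS_nonneg (fun ω _ _ => GG_nonneg Qm_gL_nonneg _))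
  have h8 : SS k (fun ω => 𝔼 x, ind (L (x ::ₘ u ::ₘ ω))) T'
      ≤ SS k (fun ω => 𝔼 x, ind (L (x ::ₘ u ::ₘ ω))) (T' + W) :=
    SS_le_of_le (fun ω => expect_nonneg (fun x _ => ind_nonneg _)) (Multiset.le_add_right _ _)
  have he0 : (0 : ℝ) < e := by exact_mod_cast he
  have h9 : (n : ℝ) * q * SS k (fun ω => 𝔼 x, ind (L (x ::ₘ u ::ₘ ω))) (T' + W)
      = n / e * ((e : ℝ) * q * SS k (fun ω => 𝔼 x, ind (L (x ::ₘ u ::ₘ ω))) (T' + W)) := by
    field_simp
  have h10 : k + 2 - 2 = k := by omega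
  rw [h10]
  calc (n : ℝ) * q * SS k (fun ω => 𝔼 x, ind (L (x ::ₘ u ::ₘ ω))) T'
      ≤ (n : ℝ) * q * SS k (fun ω => 𝔼 x, ind (L (x ::ₘ u ::ₘ ω))) (T' + W) :=
        mul_le_mul_of_nonneg_left h8 (by positivity)
    _ = _ := h9
    _ ≤ n / e * B := mul_le_mul_of_nonneg_left (h3.trans h2) (by positivity)

end Pool.Agent.P.MP_7badbe_co

end

section


open Finset Filter Topology
open scoped BigOperators

namespace Pool.Agent.P.MP_7badbe_co

variable {V : Type} [Fintype V] [Nonempty V]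

variable {j e : ℕ} {q lam η D : ℝ} {L L' bad : Multiset V → Prop}

lemma gP_nonneg (ω : Multiset V) (x : V) : 0 ≤ gP j lam η D L L' bad ω x := by
  unfold gP
  have h1 := ind_nonneg (L (x ::ₘ ω))
  have h2 := ind_nonneg (bad (x ::ₘ ω) ∨ (NoForb j lam D L' (x ::ₘ ω) ∧ Cov j lam η L' ω x))
  positivity

omit [Nonempty V] in
lemma Pt_lower (ω : Multiset V) (x : V) :
    (1 / 6 : ℝ) * gL L ω x ≤ 1 * gP j lam η D L L' bad ω x := by
  unfold gP gL
  have h1 := ind_nonneg (L (x ::ₘ ω))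
  have h2 := ind_nonneg (bad (x ::ₘ ω) ∨ (NoForb j lam D L' (x ::ₘ ω) ∧ Cov j lam η L' ω x))
  nlinarith [mul_nonneg h1 h2]

omit [Nonempty V] in
lemma Pt_upper (ω : Multiset V) (x : V) :
    (1 : ℝ) * gP j lam η D L L' bad ω x ≤ 1 / 2 * gL L ω x := by
  unfold gP gL
  have h1 := ind_nonneg (L (x ::ₘ ω))
  have h2 := ind_le_one (bad (x ::ₘ ω) ∨ (NoForb j lam D L' (x ::ₘ ω) ∧ Cov j lam η L' ω x))
  nlinarith [mul_nonneg h1 (sub_nonneg.2 h2)]

omit [Fintype V] [Nonempty V] in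
lemma Pt_gL_nonneg (ω : Multiset V) (x : V) : 0 ≤ gL L ω x := ind_nonneg _

/-- a covered edge releases one half -/
lemma Pt_half {T ω σ : Multiset V} {x : V} (hω : ω ≤ T) (hc : ω.card = j - 1)
    (hL : L (x ::ₘ ω)) (hN : NoForb j lam D L' (x ::ₘ T)) (hσ : σ ≤ ω)
    (hη : η ≤ dg j lam L' (x ::ₘ σ)) : 1 / 2 ≤ rel j (gP j lam η D L L' bad) T x := by
  have h1 : gP j lam η D L L' bad ω x ≤ rel j (gP j lam η D L L' bad) T x :=
    le_SS (F := fun ω => gP j lam η D L L' bad ω x) (fun ω => gP_nonneg ω x) hω hc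
  have hN' : NoForb j lam D L' (x ::ₘ ω) := fun τ hτ hτc =>
    hN τ (hτ.trans (Multiset.cons_le_cons x hω)) hτc
  have h2 : gP j lam η D L L' bad ω x = 1 / 2 := by
    unfold gP
    rw [ind_pos hL, ind_pos (Or.inr ⟨hN', σ, hσ, hη⟩)]
    norm_num
  linarith

lemma Pt_both {T ω ω' : Multiset V} {x : V} (hω : ω ≤ T) (hc : ω.card = j - 1)
    (hL : L (x ::ₘ ω)) (hω' : ω' ≤ T) (hc' : ω'.card = j - 1) (hL' : L' (x ::ₘ ω'))
    (hN : NoForb j lam D L (x ::ₘ T)) (hN' : NoForb j lam D L' (x ::ₘ T))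
    (hCr : ¬ Cr j lam η L L' T x) :
    1 / 2 ≤ rel j (gP j lam η D L L' bad) T x ∧ 1 / 2 ≤ rel j (gP j lam η D L' L bad) T x := by
  classical
  have e1 : ω ∩ ω' + (ω - ω ∩ ω') = ω := add_tsub_cancel_of_le (Multiset.inter_le_left)
  have e2 : ω ∩ ω' + (ω' - ω ∩ ω') = ω' := add_tsub_cancel_of_le (Multiset.inter_le_right)
  have e3 : ω ∩ ω' + (ω - ω ∩ ω') + (ω' - ω ∩ ω') ≤ T := by
    rw [e1, Multiset.le_iff_count]
    intro a
    have h1 := Multiset.le_iff_count.1 hω a
    have h2 := Multiset.le_iff_count.1 hω' a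
    rw [Multiset.count_add, Multiset.count_sub, Multiset.count_inter]
    omega
  have key : ¬ (dg j lam L' (x ::ₘ (ω ∩ ω')) < η ∨ dg j lam L (x ::ₘ (ω ∩ ω')) < η) := by
    intro h
    refine hCr ⟨ω ∩ ω', ω - ω ∩ ω', ω' - ω ∩ ω', e3, ?_, ?_, ?_, ?_, h⟩
    · rw [e1]; exact hc
    · rw [e2]; exact hc'
    · rw [e1]; exact hL
    · rw [e2]; exact hL'
  rw [not_or, not_lt, not_lt] at key
  exact ⟨Pt_half hω hc hL hN' Multiset.inter_le_left key.1,
    Pt_half hω' hc' hL' hN Multiset.inter_le_right key.2⟩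

/-- the pointwise drift inequality -/
theorem pointwise (hj : 1 ≤ j) (hq : 0 ≤ q) (hlam : 0 < lam)
    (hD : ∀ r, 1 ≤ r → r < j → 5 * lam ^ r ≤ D * ((e.choose r : ℝ) * q ^ r))
    (n : ℕ) {T : Multiset V} (hT : NoForb j lam D L T) (hT' : NoForb j lam D L' T) (x : V) :
    rhoL j q e L n T x * rhoL j q e L' n T x
        * Real.exp (jump j q e (gP j lam η D L L' bad) n T x
          + jump j q e (gP j lam η D L' L bad) n T x)
      + (1 - rhoL j q e L n T x) + (1 - rhoL j q e L' n T x) - 1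
    ≤ (jump j q e (gP j lam η D L L' bad) n T x + rel j (gP j lam η D L L' bad) T x)
      + (jump j q e (gP j lam η D L' L bad) n T x + rel j (gP j lam η D L' L bad) T x)
      + ind (Cr j lam η L L' T x) := by
  have a1 := jump_le (j := j) (e := e) hq (Pt_lower (j := j) (lam := lam) (η := η) (D := D)
    (L := L) (L' := L') (bad := bad)) n T x
  have a2 := jump_le (j := j) (e := e) hq (Pt_upper (j := j) (lam := lam) (η := η) (D := D)
    (L := L) (L' := L') (bad := bad)) n T x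
  have b1 := jump_le (j := j) (e := e) hq (Pt_lower (j := j) (lam := lam) (η := η) (D := D)
    (L := L') (L' := L) (bad := bad)) n T x
  have b2 := jump_le (j := j) (e := e) hq (Pt_upper (j := j) (lam := lam) (η := η) (D := D)
    (L := L') (L' := L) (bad := bad)) n T x
  have c1 := rel_le (j := j) (Pt_lower (j := j) (lam := lam) (η := η) (D := D)
    (L := L) (L' := L') (bad := bad)) T x
  have c2 := rel_le (j := j) (Pt_lower (j := j) (lam := lam) (η := η) (D := D)
    (L := L') (L' := L) (bad := bad)) T x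
  have d1 := jump_nonneg (j := j) (e := e) hq (Pt_gL_nonneg (L := L)) n T x
  have d2 := jump_nonneg (j := j) (e := e) hq (Pt_gL_nonneg (L := L')) n T x
  have r1 := rel_nonneg (j := j) (Pt_gL_nonneg (L := L)) T x
  have r2 := rel_nonneg (j := j) (Pt_gL_nonneg (L := L')) T x
  have i0 := ind_nonneg (Cr j lam η L L' T x)
  unfold rhoL
  by_cases h1 : 0 < rel j (gL L) T x
  · obtain ⟨g1, ω, hω, hc, hL⟩ := rel_gL_pos h1
    rw [if_pos h1]
    by_cases h2 : 0 < rel j (gL L') T x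
    · obtain ⟨g2, ω', hω', hc', hL'⟩ := rel_gL_pos h2
      rw [if_pos h2]
      by_cases k1 : jump j q e (gL L) n T x < 5
      · by_cases k2 : jump j q e (gL L') n T x < 5
        · have n1 := noforb_step hq hlam hD hT k1
          have n2 := noforb_step hq hlam hD hT' k2
          by_cases hCr : Cr j lam η L L' T x
          · rw [ind_pos hCr]
            linarith
          · obtain ⟨u1, u2⟩ := Pt_both (bad := bad) hω hc hL hω' hc' hL' n1 n2 hCr
            linarith
        · rw [not_lt] at k2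
          linarith
      · rw [not_lt] at k1
        linarith
    · rw [if_neg h2]
      have := rho0_b (jump j q e (gL L') n T x)
      linarith
  · rw [if_neg h1]
    by_cases h2 : 0 < rel j (gL L') T x
    · obtain ⟨g2, -⟩ := rel_gL_pos h2
      rw [if_pos h2]
      have := rho0_b (jump j q e (gL L) n T x)
      linarith
    · rw [if_neg h2]
      have m1 := rho0_main (x := jump j q e (gP j lam η D L L' bad) n T x) d1
        (by linarith) (by linarith)
      have m2 := rho0_main (x := jump j q e (gP j lam η D L' L bad) n T x) d2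
        (by linarith) (by linarith)
      rw [two_mul (jump j q e (gP j lam η D L L' bad) n T x), Real.exp_add] at m1
      rw [two_mul (jump j q e (gP j lam η D L' L bad) n T x), Real.exp_add] at m2
      rw [Real.exp_add]
      nlinarith [sq_nonneg (rho0 (jump j q e (gL L) n T x)
        * Real.exp (jump j q e (gP j lam η D L L' bad) n T x)
        - rho0 (jump j q e (gL L') n T x)
        * Real.exp (jump j q e (gP j lam η D L' L bad) n T x))]

theorem pointwise_le (hq : 0 ≤ q) (n : ℕ) (T : Multiset V) (x : V) :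
    rhoL j q e L n T x * rhoL j q e L' n T x
        * Real.exp (jump j q e (gP j lam η D L L' bad) n T x
          + jump j q e (gP j lam η D L' L bad) n T x) ≤ Real.exp 5 := by
  have a2 := jump_le (j := j) (e := e) hq (Pt_upper (j := j) (lam := lam) (η := η) (D := D)
    (L := L) (L' := L') (bad := bad)) n T x
  have b2 := jump_le (j := j) (e := e) hq (Pt_upper (j := j) (lam := lam) (η := η) (D := D)
    (L := L') (L' := L) (bad := bad)) n T x
  by_cases h1 : rhoL j q e L n T x = 0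
  · rw [h1, zero_mul, zero_mul]
    exact (Real.exp_pos _).le
  by_cases h2 : rhoL j q e L' n T x = 0
  · rw [h2, mul_zero, zero_mul]
    exact (Real.exp_pos _).le
  have k1 := (rhoL_ne h1).2
  have k2 := (rhoL_ne h2).2
  obtain ⟨m1, m2⟩ := rhoL_mem (j := j) (e := e) (L := L) hq n T x
  obtain ⟨m3, m4⟩ := rhoL_mem (j := j) (e := e) (L := L') hq n T x
  have p1 : rhoL j q e L n T x * rhoL j q e L' n T x ≤ 1 := mul_le_one₀ m2 m3 m4
  calc _ ≤ 1 * Real.exp (jump j q e (gP j lam η D L L' bad) n T x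
          + jump j q e (gP j lam η D L' L bad) n T x) :=
        mul_le_mul_of_nonneg_right p1 (Real.exp_pos _).le
    _ ≤ Real.exp 5 := by
        rw [one_mul]
        exact Real.exp_le_exp.2 (by linarith)

end Pool.Agent.P.MP_7badbe_co

end

section


open Finset Filter Topology
open scoped BigOperators

namespace Pool.Agent.P.MP_7badbe_co

variable {V : Type} [Fintype V] [Nonempty V]

variable {j e : ℕ} {q lam η D : ℝ} {L L' bad : Multiset V → Prop}

lemma Pair_q_lt (hq5 : Real.exp 5 * q ≤ 1) : q < 1 := by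
  have h5 : (2 : ℝ) ≤ Real.exp 5 := by
    have := Real.add_one_le_exp (5 : ℝ)
    linarith
  by_contra h
  push Not at h
  nlinarith

/-- the one-step inequality in abstract form -/
lemma Pair_step {q M s a a' : ℝ} {k Mx t : V → ℝ} (hq : 0 ≤ q) (hq1 : q < 1) (hM : 0 ≤ M)
    (hMx : ∀ x, M ≤ Mx x) (hk0 : ∀ x, 0 ≤ k x) (hk : ∀ x, k x ≤ Real.exp 5)
    (ha0 : 0 ≤ a) (ha1 : a ≤ 1) (ha0' : 0 ≤ a') (ha1' : a' ≤ 1)
    (ht : (𝔼 x, k x) + a + a' - 1 ≤ 𝔼 x, t x) (ht0 : 0 ≤ 𝔼 x, t x)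
    (hs : s = q * (𝔼 x, t x) + q ^ 2 / (1 - q)) :
    (1 - q) * ((1 + q * a / (1 - q)) * (1 + q * a' / (1 - q))) * M + q * 𝔼 x, k x * Mx x
      ≤ Real.exp s * ((1 - Real.exp 5 * q) * M + Real.exp 5 * q * 𝔼 x, Mx x) := by
  have h1q : 0 < 1 - q := by linarith
  have hA : (1 - q) * ((1 + q * a / (1 - q)) * (1 + q * a' / (1 - q)))
      = 1 - q + q * a + q * a' + q ^ 2 / (1 - q) * (a * a') := by
    field_simp
    ring
  have hq2 : 0 ≤ q ^ 2 / (1 - q) := div_nonneg (sq_nonneg _) h1q.le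
  have haa : a * a' ≤ 1 := by nlinarith
  have hs0 : 0 ≤ s := by rw [hs]; positivity
  have hTh : 1 + s ≤ Real.exp s := by linarith [Real.add_one_le_exp s]
  have hTh1 : 1 ≤ Real.exp s := by linarith
  have hE : 𝔼 x, k x * Mx x ≤ (𝔼 x, k x) * M + Real.exp 5 * ((𝔼 x, Mx x) - M) := by
    have h1 : 𝔼 x, k x * Mx x ≤ 𝔼 x, (k x * M + Real.exp 5 * (Mx x - M)) := by
      refine expect_le_expect (fun x _ => ?_)
      nlinarith [mul_nonneg (sub_nonneg.2 (hk x)) (sub_nonneg.2 (hMx x))]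
    rw [expect_add_distrib, ← expect_mul, ← mul_expect, expect_sub_distrib,
      expect_const univ_nonempty] at h1
    exact h1
  have hD0 : 0 ≤ (𝔼 x, Mx x) - M := by
    have h1 : 𝔼 _x : V, M ≤ 𝔼 x, Mx x := expect_le_expect (fun x _ => hMx x)
    rw [expect_const univ_nonempty] at h1
    linarith
  have hAk : 1 - q + q * a + q * a' + q ^ 2 / (1 - q) * (a * a') + q * (𝔼 x, k x)
      ≤ Real.exp s := by
    have h1 : q ^ 2 / (1 - q) * (a * a') ≤ q ^ 2 / (1 - q) := by nlinarith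
    have h2 : q * ((𝔼 x, k x) + a + a' - 1) ≤ q * 𝔼 x, t x := mul_le_mul_of_nonneg_left ht hq
    nlinarith
  have h5 : 0 ≤ Real.exp 5 * q * ((𝔼 x, Mx x) - M) := by positivity
  rw [hA]
  have h3 : q * 𝔼 x, k x * Mx x ≤ q * ((𝔼 x, k x) * M + Real.exp 5 * ((𝔼 x, Mx x) - M)) :=
    mul_le_mul_of_nonneg_left hE hq
  have h4 := mul_le_mul_of_nonneg_right hAk hM
  have h6 := mul_le_mul_of_nonneg_right hTh1 h5
  nlinarith

/-- the pair supermartingale -/
theorem pair_bound (hj : 1 ≤ j) (hq : 0 ≤ q) (hq5 : Real.exp 5 * q ≤ 1) (hlam : 0 < lam)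
    (hD : ∀ r, 1 ≤ r → r < j → 5 * lam ^ r ≤ D * ((e.choose r : ℝ) * q ^ r))
    {F : Multiset V → ℝ} (hF0 : ∀ W, 0 ≤ F W) (hF : ∀ x W, F W ≤ F (x ::ₘ W))
    (n : ℕ) {T : Multiset V} (hT : NoForb j lam D L T) (hT' : NoForb j lam D L' T) :
    nu2 q (rhoL j q e L) (rhoL j q e L') n T
        (fun W => Real.exp (-(n * q * cr j lam η L L' W)) * F W)
      ≤ Real.exp (Pot j q e (gP j lam η D L L' bad) n T + Pot j q e (gP j lam η D L' L bad) n T
          + n * q ^ 2 / (1 - q)) * En (Real.exp 5 * q) n T F := by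
  have hq1 : q < 1 := Pair_q_lt hq5
  have h1q : 0 < 1 - q := by linarith
  have hq' : 0 ≤ Real.exp 5 * q := by positivity
  have hρ : ∀ n T x, 0 ≤ rhoL j q e L n T x ∧ rhoL j q e L n T x ≤ 1 :=
    fun n T x => rhoL_mem hq n T x
  have hρ' : ∀ n T x, 0 ≤ rhoL j q e L' n T x ∧ rhoL j q e L' n T x ≤ 1 :=
    fun n T x => rhoL_mem hq n T x
  have hg : ∀ ω x, 0 ≤ gP j lam η D L L' bad ω x := gP_nonneg
  have hg' : ∀ ω x, 0 ≤ gP j lam η D L' L bad ω x := gP_nonneg
  induction n generalizing T with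
  | zero =>
    rw [nu2_zero, En_zero]
    have h1 : 0 ≤ Pot j q e (gP j lam η D L L' bad) 0 T := Pot_nonneg hq hg 0 T
    have h2 : 0 ≤ Pot j q e (gP j lam η D L' L bad) 0 T := Pot_nonneg hq hg' 0 T
    refine mul_le_mul_of_nonneg_right (Real.exp_le_exp.2 ?_) (hF0 T)
    simp only [Nat.cast_zero, zero_mul, neg_zero, zero_div, add_zero]
    linarith
  | succ n ih =>
    set G : Multiset V → ℝ := fun W => Real.exp (-(n * q * cr j lam η L L' W)) * F W with hG
    set c : ℝ := cr j lam η L L' T with hc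
    set U : ℝ := Pot j q e (gP j lam η D L L' bad) n T + Pot j q e (gP j lam η D L' L bad) n T
          + n * q ^ 2 / (1 - q) with hU
    set X : V → ℝ := fun x => jump j q e (gP j lam η D L L' bad) n T x with hX
    set X' : V → ℝ := fun x => jump j q e (gP j lam η D L' L bad) n T x with hX'
    set r : V → ℝ := fun x => rel j (gP j lam η D L L' bad) T x with hr
    set r' : V → ℝ := fun x => rel j (gP j lam η D L' L bad) T x with hr'
    set k : V → ℝ := fun x => rhoL j q e L n T x * rhoL j q e L' n T x * Real.exp (X x + X' x)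
      with hk
    set M : ℝ := En (Real.exp 5 * q) n T F with hM
    set Mx : V → ℝ := fun x => En (Real.exp 5 * q) n (x ::ₘ T) F with hMx
    set a : ℝ := 𝔼 x, (1 - rhoL j q e L n T x) with ha
    set a' : ℝ := 𝔼 x, (1 - rhoL j q e L' n T x) with ha'
    set t : V → ℝ := fun x => (X x + r x) + (X' x + r' x) + ind (Cr j lam η L L' T x) with ht
    have step1 : nu2 q (rhoL j q e L) (rhoL j q e L') (n + 1) T
        (fun W => Real.exp (-(((n + 1 : ℕ) : ℝ) * q * cr j lam η L L' W)) * F W)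
        ≤ Real.exp (-(q * c)) * nu2 q (rhoL j q e L) (rhoL j q e L') (n + 1) T G := by
      rw [← nu2_mul]
      refine nu2_mono hq hq1 hρ hρ' (n + 1) (fun W hW => ?_)
      have h1 : c ≤ cr j lam η L L' W := cr_mono j lam η L L' hW
      simp only [hG]
      rw [← mul_assoc, ← Real.exp_add]
      refine mul_le_mul_of_nonneg_right (Real.exp_le_exp.2 ?_) (hF0 W)
      push_cast
      nlinarith [mul_le_mul_of_nonneg_left h1 hq]
    have hM0 : 0 ≤ M := by
      have := En_mono hq' hq5 n T (F := fun _ => (0 : ℝ)) (G := F) hF0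
      rwa [En_const] at this
    have hMle : ∀ x, M ≤ Mx x := by
      intro x
      simp only [hMx, hM]
      rw [En_shift]
      exact En_mono hq' hq5 n T (fun W => hF x W)
    have ha0 : 0 ≤ a := expect_nonneg (fun x _ => by linarith [(hρ n T x).2])
    have ha0' : 0 ≤ a' := expect_nonneg (fun x _ => by linarith [(hρ' n T x).2])
    have ha1 : a ≤ 1 := by
      have h1 : a ≤ 𝔼 _x : V, (1 : ℝ) :=
        expect_le_expect (fun x _ => by linarith [(hρ n T x).1])
      rwa [expect_const univ_nonempty] at h1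
    have ha1' : a' ≤ 1 := by
      have h1 : a' ≤ 𝔼 _x : V, (1 : ℝ) :=
        expect_le_expect (fun x _ => by linarith [(hρ' n T x).1])
      rwa [expect_const univ_nonempty] at h1
    have hk0 : ∀ x, 0 ≤ k x := fun x =>
      mul_nonneg (mul_nonneg (hρ n T x).1 (hρ' n T x).1) (Real.exp_pos _).le
    have hk5 : ∀ x, k x ≤ Real.exp 5 := fun x => pointwise_le hq n T x
    have ht0 : 0 ≤ 𝔼 x, t x := by
      refine expect_nonneg (fun x _ => ?_)
      have h1 : 0 ≤ X x := jump_nonneg hq hg n T x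
      have h2 : 0 ≤ X' x := jump_nonneg hq hg' n T x
      have h3 : 0 ≤ r x := rel_nonneg hg T x
      have h4 : 0 ≤ r' x := rel_nonneg hg' T x
      have h5 := ind_nonneg (Cr j lam η L L' T x)
      simp only [ht]
      linarith
    have htk : (𝔼 x, k x) + a + a' - 1 ≤ 𝔼 x, t x := by
      have h1 : 𝔼 x, (k x + (1 - rhoL j q e L n T x) + (1 - rhoL j q e L' n T x) - 1)
          ≤ 𝔼 x, t x :=
        expect_le_expect (fun x _ => pointwise hj hq hlam hD n hT hT' x)
      rwa [expect_sub_distrib, expect_add_distrib, expect_add_distrib,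
        expect_const univ_nonempty] at h1
    have hA0 : 0 ≤ (1 - q) * ((1 + q * a / (1 - q)) * (1 + q * a' / (1 - q))) := by positivity
    have step2 : nu2 q (rhoL j q e L) (rhoL j q e L') (n + 1) T G
        ≤ Real.exp U * ((1 - q) * ((1 + q * a / (1 - q)) * (1 + q * a' / (1 - q))) * M
          + q * 𝔼 x, k x * Mx x) := by
      rw [nu2_succ]
      have h1 : nu2 q (rhoL j q e L) (rhoL j q e L') n T G ≤ Real.exp U * M := ih hT hT'
      have h2 : 𝔼 x, rhoL j q e L n T x * rhoL j q e L' n T x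
            * nu2 q (rhoL j q e L) (rhoL j q e L') n (x ::ₘ T) G
          ≤ 𝔼 x, Real.exp U * (k x * Mx x) := by
        refine expect_le_expect (fun x _ => ?_)
        by_cases h0 : rhoL j q e L n T x = 0
        · simp only [hk, h0, zero_mul, mul_zero, le_refl]
        by_cases h0' : rhoL j q e L' n T x = 0
        · simp only [hk, h0', zero_mul, mul_zero, le_refl]
        have h3 := ih (noforb_step hq hlam hD hT (rhoL_ne h0).2)
          (noforb_step hq hlam hD hT' (rhoL_ne h0').2)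
        rw [Pot_cons hj, Pot_cons hj] at h3
        have h4 := mul_le_mul_of_nonneg_left h3 (mul_nonneg (hρ n T x).1 (hρ' n T x).1)
        refine h4.trans (le_of_eq ?_)
        have h5 : Pot j q e (gP j lam η D L L' bad) n T + jump j q e (gP j lam η D L L' bad) n T x
            + (Pot j q e (gP j lam η D L' L bad) n T + jump j q e (gP j lam η D L' L bad) n T x)
            + n * q ^ 2 / (1 - q) = U + (X x + X' x) := by
          simp only [hU, hX, hX']; ring
        rw [h5, Real.exp_add]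
        simp only [hk, hMx]
        ring
      rw [← mul_expect] at h2
      have h3 := mul_le_mul_of_nonneg_left h1 hA0
      have h4 := mul_le_mul_of_nonneg_left h2 hq
      nlinarith
    have step3 := Pair_step (V := V) hq hq1 hM0 hMle hk0 hk5 ha0 ha1 ha0' ha1' htk ht0 rfl
    have hEt : 𝔼 x, t x = (𝔼 x, (X x + r x)) + (𝔼 x, (X' x + r' x)) + c := by
      simp only [ht]
      rw [expect_add_distrib, expect_add_distrib (f := fun x => X x + r x)]
      rfl
    have hfin : Pot j q e (gP j lam η D L L' bad) (n + 1) T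
          + Pot j q e (gP j lam η D L' L bad) (n + 1) T + ((n + 1 : ℕ) : ℝ) * q ^ 2 / (1 - q)
        = -(q * c) + U + (q * (𝔼 x, t x) + q ^ 2 / (1 - q)) := by
      rw [Pot_succ hj, Pot_succ hj, hEt]
      simp only [hU, hX, hX', hr, hr']
      push_cast
      ring
    rw [hfin, En_succ, Real.exp_add, Real.exp_add]
    refine step1.trans ?_
    rw [mul_assoc, mul_assoc]
    refine mul_le_mul_of_nonneg_left (step2.trans ?_) (Real.exp_pos _).le
    exact mul_le_mul_of_nonneg_left step3 (Real.exp_pos _).le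

end Pool.Agent.P.MP_7badbe_co

end

section


open Finset Filter Topology
open scoped BigOperators

namespace Pool.Agent.P.MP_7badbe_co

variable {V : Type} [Fintype V] [Nonempty V]

variable {j : ℕ} {lam η : ℝ} {L L' : Multiset V → Prop}

lemma Del_edge (hj : 2 ≤ j) (K : Multiset V → Prop) {u x : V} {W J : Multiset V}
    (hJ : J ≤ u ::ₘ W) (hu : u ∈ J) (hc : J.card = j - 1) (hK : K (x ::ₘ J)) :
    1 ≤ SS (j - 2) (fun ω => ind (K (x ::ₘ u ::ₘ ω))) W := by
  classical
  have h1 : J.erase u ≤ W := Multiset.erase_le_iff_le_cons.2 hJ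
  have h2 : (J.erase u).card = j - 2 := by
    rw [Multiset.card_erase_of_mem hu, hc, Nat.pred_eq_sub_one]; omega
  have h3 := le_SS (F := fun ω => ind (K (x ::ₘ u ::ₘ ω))) (fun _ => ind_nonneg _) h1 h2
  rwa [Multiset.cons_erase hu, ind_pos hK] at h3

lemma Del_point (hj : 2 ≤ j) (u x : V) (W : Multiset V) :
    ind (Cr j lam η L L' (u ::ₘ W) x) ≤ ind (Cr j lam η L L' W x)
      + SS (j - 2) (fun ω => ind (L (x ::ₘ u ::ₘ ω))) W
      + SS (j - 2) (fun ω => ind (L' (x ::ₘ u ::ₘ ω))) W := by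
  have h0 := ind_nonneg (Cr j lam η L L' W x)
  have h1 : 0 ≤ SS (j - 2) (fun ω => ind (L (x ::ₘ u ::ₘ ω))) W :=
    SS_nonneg fun _ _ _ => ind_nonneg _
  have h2 : 0 ≤ SS (j - 2) (fun ω => ind (L' (x ::ₘ u ::ₘ ω))) W :=
    SS_nonneg fun _ _ _ => ind_nonneg _
  by_cases hC : Cr j lam η L L' (u ::ₘ W) x
  · rw [ind_pos hC]
    obtain ⟨σ, α, α', hle, hc, hc', hL, hL', hd⟩ := hC
    by_cases hu : u ∈ σ + α + α'
    · have hle1 : σ + α ≤ u ::ₘ W := (Multiset.le_add_right _ _).trans hle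
      have hle2 : σ + α' ≤ u ::ₘ W := by
        refine le_trans ?_ hle
        rw [add_right_comm]
        exact Multiset.le_add_right _ _
      rcases Multiset.mem_add.1 hu with hu | hu
      · have := Del_edge hj L hle1 hu hc hL
        linarith
      · have := Del_edge hj L' hle2 (Multiset.mem_add.2 (Or.inr hu)) hc' hL'
        linarith
    · have h3 : Cr j lam η L L' W x :=
        ⟨σ, α, α', (Multiset.le_cons_of_notMem hu).1 hle, hc, hc', hL, hL', hd⟩
      rw [ind_pos h3]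
      linarith
  · rw [ind_neg hC]
    linarith

lemma Del_one (hj : 2 ≤ j) (hlam : 0 ≤ lam) {B : ℝ} {T : Multiset V}
    (h : Cap j lam L B T) (h' : Cap j lam L' B T) {u : V} {W : Multiset V} (hu : u ::ₘ W ≤ T) :
    lam * cr j lam η L L' (u ::ₘ W) ≤ lam * cr j lam η L L' W + 2 * B := by
  have h1 := h u W hu
  have h2 := h' u W hu
  rw [SS_expect] at h1 h2
  have h3 : cr j lam η L L' (u ::ₘ W) ≤ cr j lam η L L' W
      + 𝔼 x, SS (j - 2) (fun ω => ind (L (x ::ₘ u ::ₘ ω))) W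
      + 𝔼 x, SS (j - 2) (fun ω => ind (L' (x ::ₘ u ::ₘ ω))) W := by
    unfold cr
    rw [← expect_add_distrib, ← expect_add_distrib]
    exact expect_le_expect fun x _ => Del_point hj u x W
  nlinarith [mul_le_mul_of_nonneg_left h3 hlam]

lemma Del_many (hj : 2 ≤ j) (hlam : 0 ≤ lam) {B : ℝ} {T : Multiset V}
    (h : Cap j lam L B T) (h' : Cap j lam L' B T) (W c : Multiset V) (hc : c + W ≤ T) :
    lam * cr j lam η L L' (c + W) ≤ lam * cr j lam η L L' W + 2 * B * c.card := by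
  induction c using Multiset.induction_on with
  | empty => simp
  | cons u c ih =>
    rw [Multiset.cons_add] at hc ⊢
    have h1 := Del_one (η := η) hj hlam h h' hc
    have h2 := ih ((Multiset.le_cons_self _ _).trans hc)
    rw [Multiset.card_cons]
    push_cast
    linarith

lemma Del_card (hlam : 0 ≤ lam) {c : Multiset V} (hc : 2 * j < c.card) :
    abar j lam η L L' c = 0 := by
  refine le_antisymm ?_ (abar_nonneg j hlam η L L' c)
  have hz : ∀ (r : ℕ) (M : Multiset V), splitSum r (fun _ _ => (0 : ℝ)) M = 0 := by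
    intro r M
    simp [splitSum]
  unfold abar
  refine mul_nonpos_of_nonneg_of_nonpos hlam (sum_nonpos fun s hs => ?_)
  rw [mem_range] at hs
  refine le_trans (splitSum_mono fun σ ρ h1 h2 => ?_) (hz s c).le
  refine le_trans (splitSum_mono fun α α' h3 h4 => ?_) (hz (j - 1 - s) ρ).le
  have h5 : ¬ α'.card = j - 1 - s := by
    intro h5
    rw [← h1, ← h3, Multiset.card_add, Multiset.card_add] at hc
    omega
  rw [ind_neg h5, zero_mul]

lemma Del_conv (hj : 2 ≤ j) (hlam : 0 ≤ lam) (T : Multiset V) :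
    lam * cr j lam η L L' T ≤ conv (abar j lam η L L') (fun _ => 1) T := by
  set φ : ℕ → V → Multiset V → Multiset V → Multiset V → ℝ := fun s x σ α α' =>
    ind (α'.card = j - 1 - s) * (ind (L (x ::ₘ (σ + α))) * ind (L' (x ::ₘ (σ + α')))
      * (ind (dg j lam L' (x ::ₘ σ) < η) + ind (dg j lam L (x ::ₘ σ) < η))) with hφ
  have hφ0 : ∀ s x σ α α', 0 ≤ φ s x σ α α' := fun s x σ α α' =>
    mul_nonneg (ind_nonneg _) (mul_nonneg (mul_nonneg (ind_nonneg _) (ind_nonneg _))
      (add_nonneg (ind_nonneg _) (ind_nonneg _)))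
  set a : V → Multiset V → ℝ := fun x c => lam * ∑ s ∈ range j,
    splitSum s (fun σ ρ => splitSum (j - 1 - s) (φ s x σ) ρ) c with ha
  have hs0 : ∀ x s c, 0 ≤ splitSum s (fun σ ρ => splitSum (j - 1 - s) (φ s x σ) ρ) c :=
    fun x s c => splitSum_nonneg (fun σ ρ => splitSum_nonneg (hφ0 s x σ) ρ) c
  have ha0 : ∀ x c, 0 ≤ a x c := fun x c => mul_nonneg hlam (sum_nonneg fun s _ => hs0 x s c)
  have hab : abar j lam η L L' = fun c => 𝔼 x, a x c := by
    funext c
    simp only [ha, abar]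
    rw [← mul_expect, expect_sum_comm]
    congr 1
    refine sum_congr rfl fun s _ => ?_
    rw [← splitSum_expect]
    congr 1
    funext σ ρ
    rw [← splitSum_expect]
    congr 1
    funext α α'
    simp only [hφ]
    rw [← mul_expect]
  rw [hab, conv_expect]
  unfold cr
  rw [mul_expect]
  refine expect_le_expect fun x _ => ?_
  by_cases hC : Cr j lam η L L' T x
  · rw [ind_pos hC]
    obtain ⟨σ, α, α', hle, hc, hc', hL, hL', hd⟩ := hC
    obtain ⟨W, rfl⟩ := Multiset.le_iff_exists_add.1 hle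
    refine le_trans ?_ (le_conv (ha0 x) (fun _ => zero_le_one) (σ + α + α') W)
    rw [mul_one, mul_one]
    rw [Multiset.card_add] at hc hc'
    have h1 : 1 ≤ φ σ.card x σ α α' := by
      simp only [hφ]
      rw [ind_pos (by omega : α'.card = j - 1 - σ.card), ind_pos hL, ind_pos hL']
      have h2 := ind_nonneg (dg j lam L' (x ::ₘ σ) < η)
      have h3 := ind_nonneg (dg j lam L (x ::ₘ σ) < η)
      rcases hd with hd | hd
      · rw [ind_pos hd]; linarith
      · rw [ind_pos hd]; linarith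
    have h2 := le_splitSum (hφ0 σ.card x σ) α α' (by omega : α.card = j - 1 - σ.card)
    have h3 := le_splitSum (Φ := fun σ' ρ => splitSum (j - 1 - σ.card) (φ σ.card x σ') ρ)
      (fun σ' ρ => splitSum_nonneg (hφ0 σ.card x σ') ρ) σ (α + α') rfl
    have h4 := single_le_sum (f := fun s =>
      splitSum s (fun σ' ρ => splitSum (j - 1 - s) (φ s x σ') ρ) (σ + (α + α')))
      (fun s _ => hs0 x s _) (mem_range.2 (by omega : σ.card < j))
    rw [add_assoc]
    simp only [ha]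
    exact le_mul_of_one_le_right hlam (h1.trans (h2.trans (h3.trans h4)))
  · rw [ind_neg hC, mul_zero]
    have := le_conv (ha0 x) (fun _ => zero_le_one) 0 T
    rw [zero_add] at this
    exact le_trans (mul_nonneg (ha0 x 0) zero_le_one) this

lemma Del_Sr (hj : 2 ≤ j) (hlam : 0 ≤ lam) {B b : ℝ} (hB : 0 ≤ B) (hb : 1 ≤ b)
    (hBb : 4 * j * B ≤ b) {T : Multiset V} (h : Cap j lam L B T) (h' : Cap j lam L' B T)
    (r : ℕ) (T' : Multiset V) (hT : T' ≤ T) (hr : r * b ≤ lam * cr j lam η L L' T') :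
    1 ≤ Sr (abar j lam η L L') r T' := by
  induction r generalizing T' with
  | zero => exact le_rfl
  | succ r ih =>
    have h1 := Del_conv (η := η) (L := L) (L' := L') hj hlam T'
    have h2 : conv (abar j lam η L L') (fun _ => 1) T'
        ≤ conv (abar j lam η L L') (Sr (abar j lam η L L') r) T' := by
      refine conv_mono fun c W hcW => ?_
      rcases lt_or_ge (2 * j) c.card with hc | hc
      · rw [Del_card hlam hc, zero_mul, zero_mul]
      · refine mul_le_mul_of_nonneg_left (ih W ?_ ?_) (abar_nonneg j hlam η L L' c)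
        · exact le_trans (hcW ▸ Multiset.le_add_left W c) hT
        · have h3 := Del_many (η := η) hj hlam h h' W c (hcW ▸ hT)
          have h4 : (c.card : ℝ) ≤ 2 * j := by exact_mod_cast hc
          rw [hcW] at h3
          push_cast at hr
          nlinarith [mul_le_mul_of_nonneg_left h4 hB]
    have h3 : (0 : ℝ) ≤ r * b := by positivity
    push_cast at hr
    show 1 ≤ conv (abar j lam η L L') (Sr (abar j lam η L L') r) T'
    linarith

/-- deletion method -/
theorem deletion (hj : 2 ≤ j) (hlam : 0 ≤ lam) {B b : ℝ} (hB : 0 ≤ B) (hb : 1 ≤ b)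
    (hBb : 4 * j * B ≤ b) {R : ℕ} (hR : lam ≤ R) {T : Multiset V}
    (h : Cap j lam L B T) (h' : Cap j lam L' B T) :
    Real.exp (lam * cr j lam η L L' T) ≤ FF (abar j lam η L L') b R T := by
  have hb0 : 0 < b := by linarith
  have hX0 : 0 ≤ lam * cr j lam η L L' T := mul_nonneg hlam (cr_nonneg j lam η L L' T)
  have hX1 : lam * cr j lam η L L' T ≤ R :=
    (mul_le_of_le_one_right hlam (cr_le_one j lam η L L' T)).trans hR
  have hS := Del_Sr (η := η) hj hlam hB hb hBb h h' ⌊lam * cr j lam η L L' T / b⌋₊ T le_rfl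
    ((le_div_iff₀ hb0).1 (Nat.floor_le (div_nonneg hX0 hb0.le)))
  have hlt := (div_lt_iff₀ hb0).1 (Nat.lt_floor_add_one (lam * cr j lam η L L' T / b))
  have hrR : ⌊lam * cr j lam η L L' T / b⌋₊ ≤ R :=
    Nat.floor_le_of_le ((div_le_self hX0 hb).trans hX1)
  generalize ⌊lam * cr j lam η L L' T / b⌋₊ = r at hS hlt hrR
  have h1 := single_le_sum (f := fun r : ℕ => Real.exp (b * r) * Sr (abar j lam η L L') r T)
    (s := range (R + 1)) (fun r _ => mul_nonneg (Real.exp_pos _).le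
      (Sr_nonneg (abar_nonneg j hlam η L L') r T)) (mem_range.2 (Nat.lt_succ_of_le hrR))
  unfold FF
  calc Real.exp (lam * cr j lam η L L' T) ≤ Real.exp (b + b * r) :=
        Real.exp_le_exp.2 (by linarith)
    _ = Real.exp b * Real.exp (b * r) := Real.exp_add _ _
    _ ≤ _ := mul_le_mul_of_nonneg_left
        ((le_mul_of_one_le_right (Real.exp_pos _).le hS).trans h1) (Real.exp_pos _).le

end Pool.Agent.P.MP_7badbe_co

end

section


open Finset Filter Topology
open scoped BigOperators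

namespace Pool.Agent.P.MP_7badbe_co

variable {V : Type} [Fintype V] [Nonempty V]

variable {q : ℝ}

lemma BK_succ (n : ℕ) (F : Multiset V → ℝ) :
    En q (n + 1) 0 F = (1 - q) * En q n 0 F + q * 𝔼 x, En q n 0 (fun W => F (x ::ₘ W)) := by
  rw [En_succ]
  simp only [En_shift]

lemma BK_nonneg (h0 : 0 ≤ q) (h1 : q ≤ 1) (n : ℕ) {F : Multiset V → ℝ} (hF : ∀ W, 0 ≤ F W) :
    0 ≤ En q n 0 F := by
  have := En_mono h0 h1 n (0 : Multiset V) (F := fun _ => 0) (G := F) hF
  rwa [En_const] at this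

lemma BK_conv_nonneg {a F : Multiset V → ℝ} (ha : ∀ c, 0 ≤ a c) (hF : ∀ W, 0 ≤ F W)
    (T : Multiset V) : 0 ≤ conv a F T := by
  have h := le_conv ha hF 0 T
  rw [zero_add] at h
  exact (mul_nonneg (ha 0) (hF T)).trans h

lemma BK_conv_succ (n : ℕ) (a F : Multiset V → ℝ) :
    En q (n + 1) 0 (conv a F) = (1 - q) * En q n 0 (conv a F)
      + q * (𝔼 x, En q n 0 (conv a (fun W => F (x ::ₘ W)))
        + 𝔼 x, En q n 0 (conv (fun c => a (x ::ₘ c)) F)) := by
  rw [BK_succ, ← expect_add_distrib]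
  congr 2
  refine expect_congr rfl (fun x _ => ?_)
  simp only [conv_cons]
  rw [En_add]

theorem En_conv (h0 : 0 ≤ q) (h1 : q ≤ 1) (n : ℕ) {a F : Multiset V → ℝ} (ha : ∀ c, 0 ≤ a c)
    (hF0 : ∀ W, 0 ≤ F W) (hF : ∀ x W, F W ≤ F (x ::ₘ W)) :
    En q n 0 (conv a F) ≤ En q n 0 (conv a (fun _ => 1)) * En q n 0 F := by
  induction n generalizing a F with
  | zero => simp only [En_zero, conv_nil, mul_one, le_refl]
  | succ n ih =>
    have i1 := ih ha hF0 hF
    have i2 : 𝔼 x, En q n 0 (conv a (fun W => F (x ::ₘ W)))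
        ≤ En q n 0 (conv a (fun _ => 1)) * 𝔼 x, En q n 0 (fun W => F (x ::ₘ W)) := by
      rw [mul_expect]
      refine expect_le_expect (fun x _ => ih ha (fun W => hF0 _) (fun y W => ?_))
      rw [Multiset.cons_swap]
      exact hF y _
    have i3 : 𝔼 x, En q n 0 (conv (fun c => a (x ::ₘ c)) F)
        ≤ (𝔼 x, En q n 0 (conv (fun c => a (x ::ₘ c)) (fun _ => 1))) * En q n 0 F := by
      rw [expect_mul]
      exact expect_le_expect (fun x _ => ih (fun c => ha _) hF0 hF)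
    have i4 : 0 ≤ 𝔼 x, En q n 0 (conv (fun c => a (x ::ₘ c)) (fun _ => 1)) :=
      expect_nonneg (fun x _ => BK_nonneg h0 h1 n
        (BK_conv_nonneg (fun c => ha _) (fun _ => zero_le_one)))
    have i5 : En q n 0 F ≤ 𝔼 x, En q n 0 (fun W => F (x ::ₘ W)) :=
      le_expect univ_nonempty (fun x _ => En_mono h0 h1 n 0 (fun W => hF x W))
    rw [BK_conv_succ, BK_conv_succ, BK_succ n F, expect_const univ_nonempty]
    set A := En q n 0 (conv a (fun _ => 1))
    set B := 𝔼 x, En q n 0 (conv (fun c => a (x ::ₘ c)) (fun _ => 1))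
    set M := En q n 0 F
    set M' := 𝔼 x, En q n 0 (fun W => F (x ::ₘ W))
    have e1 := mul_le_mul_of_nonneg_left i1 (sub_nonneg.2 h1)
    have e2 := mul_le_mul_of_nonneg_left (add_le_add i2 i3) h0
    have e3 : 0 ≤ q * B * (q * (M' - M)) :=
      mul_nonneg (mul_nonneg h0 i4) (mul_nonneg h0 (sub_nonneg.2 i5))
    nlinarith

lemma BK_Sr (h0 : 0 ≤ q) (h1 : q ≤ 1) (n : ℕ) {a : Multiset V → ℝ} (ha : ∀ c, 0 ≤ a c)
    {m : ℝ} (hm : En q n 0 (conv a (fun _ => 1)) ≤ m) (r : ℕ) :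
    En q n 0 (Sr a r) ≤ m ^ r := by
  have hm0 : 0 ≤ m :=
    (BK_nonneg h0 h1 n (BK_conv_nonneg ha (fun _ => zero_le_one))).trans hm
  induction r with
  | zero =>
    show En q n 0 (fun _ => (1 : ℝ)) ≤ m ^ 0
    rw [En_const, pow_zero]
  | succ r ih =>
    show En q n 0 (conv a (Sr a r)) ≤ m ^ (r + 1)
    refine (En_conv h0 h1 n ha (Sr_nonneg ha r) (fun x W => Sr_cons ha r x W)).trans ?_
    rw [pow_succ']
    exact mul_le_mul hm ih (BK_nonneg h0 h1 n (Sr_nonneg ha r)) hm0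

theorem En_FF (h0 : 0 ≤ q) (h1 : q ≤ 1) (n : ℕ) {a : Multiset V → ℝ} (ha : ∀ c, 0 ≤ a c)
    {b m : ℝ} (hm : En q n 0 (conv a (fun _ => 1)) ≤ m) (hb : Real.exp b * m ≤ 1 / 2) (R : ℕ) :
    En q n 0 (FF a b R) ≤ 2 * Real.exp b := by
  have hm0 : 0 ≤ m :=
    (BK_nonneg h0 h1 n (BK_conv_nonneg ha (fun _ => zero_le_one))).trans hm
  have e : En q n 0 (FF a b R)
      = Real.exp b * ∑ r ∈ range (R + 1), Real.exp (b * r) * En q n 0 (Sr a r) := by
    show En q n 0 (fun T => Real.exp b * ∑ r ∈ range (R + 1), Real.exp (b * r) * Sr a r T) = _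
    rw [En_mul, En_sum]
    simp only [En_mul]
  have h2 : ∑ r ∈ range (R + 1), Real.exp (b * r) * En q n 0 (Sr a r)
      ≤ ∑ r ∈ range (R + 1), (1 / 2 : ℝ) ^ r := by
    refine sum_le_sum (fun r _ => ?_)
    calc Real.exp (b * r) * En q n 0 (Sr a r) ≤ Real.exp (b * r) * m ^ r :=
          mul_le_mul_of_nonneg_left (BK_Sr h0 h1 n ha hm r) (Real.exp_pos _).le
      _ = (Real.exp b * m) ^ r := by rw [mul_pow, mul_comm b, Real.exp_nat_mul]
      _ ≤ (1 / 2 : ℝ) ^ r := pow_le_pow_left₀ (mul_nonneg (Real.exp_pos _).le hm0) hb r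
  have h3 := sum_geometric_two_le (R + 1)
  rw [e, mul_comm 2]
  exact mul_le_mul_of_nonneg_left (h2.trans h3) (Real.exp_pos _).le

theorem En_SS (n s : ℕ) (F : Multiset V → ℝ) :
    En q n 0 (SS s F) = (n.choose s : ℝ) * q ^ s * Ex s F := by
  induction n generalizing s F with
  | zero =>
    rw [En_zero]
    cases s with
    | zero => simp [SS_zero]
    | succ s => simp [SS_nil]
  | succ n ih =>
    cases s with
    | zero =>
      have : SS 0 F = fun _ => F 0 := funext (fun T => SS_zero F T)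
      rw [this, En_const]
      simp
    | succ s =>
      rw [BK_succ]
      simp only [SS_cons, En_add]
      have e : ∀ x, En q n 0 (fun W => SS s (fun ω => F (x ::ₘ ω)) W)
          = (n.choose s : ℝ) * q ^ s * Ex s (fun ω => F (x ::ₘ ω)) := fun x => ih s _
      have e' : En q n 0 (fun W => SS (s + 1) F W)
          = (n.choose (s + 1) : ℝ) * q ^ (s + 1) * Ex (s + 1) F := ih _ _
      simp only [e, e']
      rw [expect_add_distrib, expect_const univ_nonempty, ← mul_expect, ← Ex_succ,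
        Nat.choose_succ_succ']
      push_cast
      ring

end Pool.Agent.P.MP_7badbe_co

end
end

-- part Pool.Agent.P.MP_7badbe_co.Sp.C
section

set_option autoImplicit false
set_option linter.unusedSectionVars false

section


open Finset Filter Topology
open scoped BigOperators

namespace Pool.Agent.P.MP_7badbe_co

variable {V : Type} [Fintype V] [Nonempty V]

/-- the inner weight of one term of `abar` -/
noncomputable def Mc_w (j : ℕ) (lam η : ℝ) (L L' : Multiset V → Prop)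
    (σ α α' : Multiset V) : ℝ :=
  𝔼 x, ind (L (x ::ₘ (σ + α))) * ind (L' (x ::ₘ (σ + α')))
      * (ind (dg j lam L' (x ::ₘ σ) < η) + ind (dg j lam L (x ::ₘ σ) < η))

/-- one term of `abar` -/
noncomputable def Mc_a (j : ℕ) (lam η : ℝ) (L L' : Multiset V → Prop) (s : ℕ)
    (c : Multiset V) : ℝ :=
  splitSum s (fun σ ρ => splitSum (j - 1 - s) (fun α α' =>
    ind (α'.card = j - 1 - s) * Mc_w j lam η L L' σ α α') ρ) c

omit [Nonempty V] in
lemma Mc_abar (j : ℕ) (lam η : ℝ) (L L' : Multiset V → Prop) (c : Multiset V) :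
    abar j lam η L L' c = lam * ∑ s ∈ range j, Mc_a j lam η L L' s c := rfl

omit [Fintype V] [Nonempty V] in
lemma Mc_split_zero {r : ℕ} {Φ : Multiset V → Multiset V → ℝ} {M : Multiset V}
    (h : ∀ I J, I + J = M → I.card = r → Φ I J = 0) : splitSum r Φ M = 0 := by
  unfold splitSum
  refine Multiset.sum_eq_zero (fun x hx => ?_)
  obtain ⟨p, hp, rfl⟩ := Multiset.mem_map.1 hx
  split_ifs with hc
  · exact h _ _ (Multiset.mem_antidiagonal.1 hp) hc
  · rfl

omit [Nonempty V] in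
lemma Mc_a_zero (j : ℕ) (lam η : ℝ) (L L' : Multiset V → Prop) (s : ℕ) (c : Multiset V)
    (hc : c.card ≠ s + 2 * (j - 1 - s)) : Mc_a j lam η L L' s c = 0 := by
  refine Mc_split_zero (fun σ ρ h1 h2 => Mc_split_zero (fun α α' h3 h4 => ?_))
  rw [ind_neg, zero_mul]
  intro h5
  apply hc
  rw [← h1, ← h3, Multiset.card_add, Multiset.card_add, h2, h4, h5]
  ring

omit [Nonempty V] in
lemma Mc_conv (j : ℕ) (lam η : ℝ) (L L' : Multiset V → Prop) (T : Multiset V) :
    conv (abar j lam η L L') (fun _ => 1) T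
      = lam * ∑ s ∈ range j, SS (s + 2 * (j - 1 - s)) (Mc_a j lam η L L' s) T := by
  unfold conv SS splitSum
  rw [← Multiset.sum_map_sum, ← Multiset.sum_map_mul_left]
  congr 1
  refine Multiset.map_congr rfl (fun p _ => ?_)
  rw [mul_one, Mc_abar]
  congr 1
  refine Finset.sum_congr rfl (fun s _ => ?_)
  split_ifs with hc
  · rfl
  · exact Mc_a_zero j lam η L L' s _ hc

omit [Nonempty V] in
lemma Mc_light {j s : ℕ} (hs : s < j) {lam η : ℝ} (hlam : 0 < lam) (hη : 0 ≤ η)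
    (L : Multiset V → Prop) (x : V) {σ : Multiset V} (hσ : σ.card = s) :
    Ex (j - 1 - s) (fun α => ind (L (x ::ₘ (σ + α)))) * ind (dg j lam L (x ::ₘ σ) < η)
      ≤ η / lam ^ (j - 1 - s) := by
  have hp : 0 < lam ^ (j - 1 - s) := pow_pos hlam _
  by_cases h : dg j lam L (x ::ₘ σ) < η
  · rw [ind_pos h, mul_one, le_div_iff₀ hp, mul_comm]
    unfold dg at h
    have e : j - (x ::ₘ σ).card = j - 1 - s := by
      rw [Multiset.card_cons, hσ]; omega
    rw [e] at h
    simp only [Multiset.cons_add] at h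
    exact h.le
  · rw [ind_neg h, mul_zero]
    exact div_nonneg hη hp.le

omit [Nonempty V] in
lemma Mc_full {j s : ℕ} (hs : s < j) (L : Multiset V → Prop) :
    Ex s (fun σ => 𝔼 x, Ex (j - 1 - s) (fun α => ind (L (x ::ₘ (σ + α)))))
      = Ex j (fun J => ind (L J)) := by
  have e : j = (s + (j - 1 - s)) + 1 := by omega
  conv_rhs => rw [e, Ex_succ', Ex_split]
  simp only [Ex_expect]

lemma Mc_inner {j s : ℕ} (hs : s < j) {lam η d : ℝ} (hlam : 0 < lam) (hη : 0 ≤ η)
    {L L' : Multiset V → Prop}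
    (hd : Ex j (fun J => ind (L J)) ≤ d) (hd' : Ex j (fun J => ind (L' J)) ≤ d) :
    Ex s (fun σ => Ex (j - 1 - s) (fun α => Ex (j - 1 - s) (fun α' =>
      Mc_w j lam η L L' σ α α'))) ≤ 2 * (η / lam ^ (j - 1 - s)) * d := by
  set r := j - 1 - s with hr
  have hk : 0 ≤ η / lam ^ r := div_nonneg hη (pow_pos hlam _).le
  have key : ∀ σ : Multiset V, σ.card = s →
      Ex r (fun α => Ex r (fun α' => Mc_w j lam η L L' σ α α'))
        ≤ η / lam ^ r * (𝔼 x, Ex r (fun α => ind (L (x ::ₘ (σ + α)))))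
          + η / lam ^ r * (𝔼 x, Ex r (fun α => ind (L' (x ::ₘ (σ + α))))) := by
    intro σ hσ
    unfold Mc_w
    simp only [Ex_expect, mul_expect]
    rw [← expect_add_distrib]
    refine expect_le_expect (fun x _ => ?_)
    have e1 : Ex r (fun α => Ex r (fun α' => ind (L (x ::ₘ (σ + α))) * ind (L' (x ::ₘ (σ + α')))
        * (ind (dg j lam L' (x ::ₘ σ) < η) + ind (dg j lam L (x ::ₘ σ) < η))))
        = Ex r (fun α => ind (L (x ::ₘ (σ + α)))) * Ex r (fun α => ind (L' (x ::ₘ (σ + α))))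
          * (ind (dg j lam L' (x ::ₘ σ) < η) + ind (dg j lam L (x ::ₘ σ) < η)) := by
      simp only [Ex_mul', Ex_mul]
    rw [e1]
    have h1 := Mc_light hs hlam hη L x hσ
    have h2 := Mc_light hs hlam hη L' x hσ
    rw [← hr] at h1 h2
    have p1 : 0 ≤ Ex r (fun α => ind (L (x ::ₘ (σ + α)))) := Ex_nonneg (fun _ _ => ind_nonneg _)
    have p2 : 0 ≤ Ex r (fun α => ind (L' (x ::ₘ (σ + α)))) := Ex_nonneg (fun _ _ => ind_nonneg _)
    have q1 := mul_le_mul_of_nonneg_left h2 p1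
    have q2 := mul_le_mul_of_nonneg_left h1 p2
    nlinarith
  refine (Ex_mono key).trans ?_
  rw [Ex_add, Ex_mul, Ex_mul, hr, Mc_full hs L, Mc_full hs L', ← hr]
  have q1 := mul_le_mul_of_nonneg_left hd hk
  have q2 := mul_le_mul_of_nonneg_left hd' hk
  linarith

lemma Mc_Ex_a {j s : ℕ} (hs : s < j) {lam η d : ℝ} (hlam : 0 < lam) (hη : 0 ≤ η)
    {L L' : Multiset V → Prop}
    (hd : Ex j (fun J => ind (L J)) ≤ d) (hd' : Ex j (fun J => ind (L' J)) ≤ d) :
    Ex (s + 2 * (j - 1 - s)) (Mc_a j lam η L L' s)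
      ≤ (((s + 2 * (j - 1 - s)).choose s * (2 * (j - 1 - s)).choose (j - 1 - s) : ℕ) : ℝ)
        * (2 * (η / lam ^ (j - 1 - s)) * d) := by
  have h := Mc_inner hs hlam hη hd hd'
  set r := j - 1 - s with hr
  have e0 : Mc_a j lam η L L' s = splitSum s (fun σ ρ => splitSum r (fun α α' =>
    ind (α'.card = r) * Mc_w j lam η L L' σ α α') ρ) := rfl
  have e1 : s + 2 * r - s = 2 * r := by omega
  have e2 : 2 * r - r = r := by omega
  rw [e0, Ex_splitSum, e1]
  have e3 : ∀ σ : Multiset V, Ex (2 * r) (fun ρ => splitSum r (fun α α' =>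
      ind (α'.card = r) * Mc_w j lam η L L' σ α α') ρ)
      = ((2 * r).choose r : ℝ) * Ex r (fun α => Ex r (fun α' => Mc_w j lam η L L' σ α α')) := by
    intro σ
    have := Ex_splitSum (2 * r) r (fun α α' => ind (α'.card = r) * Mc_w j lam η L L' σ α α')
    rw [e2] at this
    refine this.trans ?_
    congr 1
    refine Ex_congr (fun α _ => Ex_congr (fun α' h' => ?_))
    rw [ind_pos h', one_mul]
  simp only [e3, Ex_mul]
  push_cast
  rw [mul_assoc]
  refine mul_le_mul_of_nonneg_left (mul_le_mul_of_nonneg_left h ?_) ?_ <;> positivity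

lemma Mc_choose (n s r : ℕ) :
    n.choose (s + 2 * r) * ((s + 2 * r).choose s * (2 * r).choose r) ≤ n ^ (s + 2 * r) := by
  have h1 : (s + 2 * r).choose s * (2 * r).choose r ≤ (s + 2 * r).factorial := by
    have a1 := Nat.add_choose_mul_factorial_mul_factorial (2 * r) s
    have a2 : (2 * r).choose r ≤ (2 * r).factorial := by
      have := Nat.choose_mul_factorial_mul_factorial (show r ≤ 2 * r by omega)
      calc (2 * r).choose r ≤ (2 * r).choose r * r.factorial * (2 * r - r).factorial := by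
            rw [mul_assoc]
            exact Nat.le_mul_of_pos_right _ (by positivity)
        _ = _ := this
    rw [add_comm (2 * r) s] at a1
    calc (s + 2 * r).choose s * (2 * r).choose r
        ≤ (s + 2 * r).choose s * (2 * r).factorial := Nat.mul_le_mul_left _ a2
      _ ≤ (s + 2 * r).choose s * (2 * r).factorial * s.factorial :=
          Nat.le_mul_of_pos_right _ (by positivity)
      _ = _ := a1
  calc n.choose (s + 2 * r) * ((s + 2 * r).choose s * (2 * r).choose r)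
      ≤ n.choose (s + 2 * r) * (s + 2 * r).factorial := Nat.mul_le_mul_left _ h1
    _ = n.descFactorial (s + 2 * r) := by
        rw [Nat.descFactorial_eq_factorial_mul_choose, mul_comm]
    _ ≤ _ := Nat.descFactorial_le_pow _ _

/-- the mean cross mass is small -/
theorem cross_mass {j n : ℕ} (hj : 1 ≤ j) {q C η d : ℝ} (hq : 0 ≤ q) (hC : 1 ≤ C)
    (hCq : C * q ≤ 1) (hlam : 1 ≤ n * q) (hη : 0 ≤ η) {L L' : Multiset V → Prop}
    (hd : Ex j (fun J => ind (L J)) ≤ d) (hd' : Ex j (fun J => ind (L' J)) ≤ d) :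
    En (C * q) n 0 (conv (abar j (n * q) η L L') (fun _ => 1))
      ≤ 2 * j * C ^ (2 * j) * η * (n * q) ^ j * d := by
  have hd0 : 0 ≤ d := (Ex_nonneg (fun _ _ => ind_nonneg _)).trans hd
  have hl0 : (0 : ℝ) < n * q := by linarith
  have e0 : conv (abar j (n * q) η L L') (fun _ => 1) = fun T => (n * q) *
      ∑ s ∈ range j, SS (s + 2 * (j - 1 - s)) (Mc_a j (n * q) η L L' s) T :=
    funext (Mc_conv j (n * q) η L L')
  rw [e0, En_mul, En_sum, Finset.mul_sum]
  have key : ∀ s ∈ range j, (n * q) * En (C * q) n 0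
      (SS (s + 2 * (j - 1 - s)) (Mc_a j (n * q) η L L' s))
      ≤ 2 * C ^ (2 * j) * η * (n * q) ^ j * d := by
    intro s hs
    have hs' := Finset.mem_range.1 hs
    have h := Mc_Ex_a hs' hl0 hη hd hd'
    rw [En_SS]
    set r := j - 1 - s with hr
    have hc : ((n.choose (s + 2 * r) : ℕ) : ℝ) *
        (((s + 2 * r).choose s * (2 * r).choose r : ℕ) : ℝ) ≤ (n : ℝ) ^ (s + 2 * r) := by
      exact_mod_cast Mc_choose n s r
    have hCp : C ^ (s + 2 * r) ≤ C ^ (2 * j) := pow_le_pow_right₀ hC (by omega)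
    have hk : 0 ≤ 2 * (η / (n * q) ^ r) * d := by positivity
    have hC0 : 0 ≤ C := by linarith
    have hj' : j = s + r + 1 := by omega
    have e1 : (n * q : ℝ) * ((n : ℝ) ^ (s + 2 * r) * (C * q) ^ (s + 2 * r)
        * (2 * (η / (n * q) ^ r) * d)) = 2 * C ^ (s + 2 * r) * η * (n * q) ^ j * d := by
      have hp : ((n : ℝ) * q) ^ r ≠ 0 := (pow_pos hl0 _).ne'
      have e2 : (n : ℝ) ^ (s + 2 * r) * (C * q) ^ (s + 2 * r)
          = C ^ (s + 2 * r) * ((n * q) ^ s * (n * q) ^ r * (n * q) ^ r) := by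
        rw [← pow_add, ← pow_add, show s + r + r = s + 2 * r by ring, mul_pow, mul_pow]
        ring
      rw [e2, hj', pow_succ, pow_add ((n : ℝ) * q) s r]
      field_simp
    calc (n * q : ℝ) * ((n.choose (s + 2 * r) : ℝ) * (C * q) ^ (s + 2 * r)
          * Ex (s + 2 * r) (Mc_a j (n * q) η L L' s))
        ≤ (n * q : ℝ) * ((n.choose (s + 2 * r) : ℝ) * (C * q) ^ (s + 2 * r)
          * ((((s + 2 * r).choose s * (2 * r).choose r : ℕ) : ℝ)
            * (2 * (η / (n * q) ^ r) * d))) := by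
          refine mul_le_mul_of_nonneg_left (mul_le_mul_of_nonneg_left h ?_) hl0.le
          positivity
      _ = (n * q : ℝ) * (((n.choose (s + 2 * r) : ℝ)
          * (((s + 2 * r).choose s * (2 * r).choose r : ℕ) : ℝ)) * ((C * q) ^ (s + 2 * r)
            * (2 * (η / (n * q) ^ r) * d))) := by ring
      _ ≤ (n * q : ℝ) * ((n : ℝ) ^ (s + 2 * r) * ((C * q) ^ (s + 2 * r)
            * (2 * (η / (n * q) ^ r) * d))) := by
          refine mul_le_mul_of_nonneg_left (mul_le_mul_of_nonneg_right hc ?_) hl0.le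
          positivity
      _ = 2 * C ^ (s + 2 * r) * η * (n * q) ^ j * d := by rw [← e1]; ring
      _ ≤ _ := by gcongr
  refine (Finset.sum_le_sum key).trans (le_of_eq ?_)
  rw [Finset.sum_const, Finset.card_range, nsmul_eq_mul]
  ring

end Pool.Agent.P.MP_7badbe_co

end

section


open Finset Filter Topology
open scoped BigOperators

namespace Pool.Agent.P.MP_7badbe_co

variable {V : Type} [Fintype V] [Nonempty V]

/-- the weight with a fixed part `R` -/
noncomputable def CovF (j : ℕ) (lam η D : ℝ) (L : Multiset V → Prop) (R J : Multiset V) : ℝ :=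
  ind (NoForb j lam D L (R + J)) * lam ^ cnt j lam η L (R + J) J

open Classical in
/-- weight of a peeled block -/
noncomputable def CovG (j : ℕ) (lam η D : ℝ) (L : Multiset V → Prop) (r : ℕ)
    (R I : Multiset V) : ℝ :=
  ∑ t ∈ R.powerset.toFinset, ind (η ≤ dg j lam L (t + I)) * ind (dg j lam L t < D) * lam ^ r

omit [Nonempty V] in
lemma Cov_F_nonneg {j : ℕ} {lam η D : ℝ} (hlam : 1 ≤ lam) (L : Multiset V → Prop)
    (R J : Multiset V) : 0 ≤ CovF j lam η D L R J :=
  mul_nonneg (ind_nonneg _) (pow_nonneg (by linarith) _)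

omit [Nonempty V] in
lemma Cov_G_nonneg {j : ℕ} {lam η D : ℝ} (hlam : 1 ≤ lam) (L : Multiset V → Prop) (r : ℕ)
    (R I : Multiset V) : 0 ≤ CovG j lam η D L r R I :=
  sum_nonneg fun _ _ =>
    mul_nonneg (mul_nonneg (ind_nonneg _) (ind_nonneg _)) (pow_nonneg (by linarith) _)

lemma Cov_dg_nonneg {j : ℕ} {lam : ℝ} (hlam : 1 ≤ lam) (L : Multiset V → Prop)
    (t : Multiset V) : 0 ≤ dg j lam L t :=
  mul_nonneg (pow_nonneg (by linarith) _) (Ex_nonneg fun _ _ => ind_nonneg _)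

omit [Nonempty V] in
lemma Cov_dg_mean {j r : ℕ} (lam : ℝ) (L : Multiset V → Prop) (t : Multiset V)
    (h : t.card + r ≤ j) : Ex r (fun I => dg j lam L (t + I)) * lam ^ r = dg j lam L t := by
  obtain ⟨c, hc⟩ := Nat.exists_eq_add_of_le h
  have h1 : j - t.card = r + c := by omega
  have h2 : Ex r (fun I => dg j lam L (t + I))
      = Ex r (fun I => lam ^ c * Ex c (fun B => ind (L (t + (I + B))))) := by
    refine Ex_congr (fun I hI => ?_)
    have h3 : j - (t + I).card = c := by rw [Multiset.card_add]; omega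
    simp only [dg, h3, add_assoc]
  rw [h2, Ex_mul, dg, h1, Ex_split, pow_add]
  ring

lemma Cov_G_mean {j r : ℕ} {lam η D : ℝ} (hlam : 1 ≤ lam) (hη : 0 < η) (hD : η ≤ D)
    (L : Multiset V → Prop) (R : Multiset V) (h : R.card + r ≤ j) :
    Ex r (CovG j lam η D L r R) ≤ 2 ^ j * (D / η) := by
  classical
  have hq : 0 ≤ D / η := div_nonneg (by linarith) hη.le
  have h1 : Ex r (CovG j lam η D L r R) = ∑ t ∈ R.powerset.toFinset,
      Ex r (fun I => ind (η ≤ dg j lam L (t + I)) * ind (dg j lam L t < D) * lam ^ r) := by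
    rw [← Ex_sum]; rfl
  rw [h1]
  have h2 : ∀ t ∈ R.powerset.toFinset,
      Ex r (fun I => ind (η ≤ dg j lam L (t + I)) * ind (dg j lam L t < D) * lam ^ r)
        ≤ D / η := by
    intro t ht
    have htR : t ≤ R := Multiset.mem_powerset.1 (Multiset.mem_toFinset.1 ht)
    have htc : t.card + r ≤ j := by have := Multiset.card_le_card htR; omega
    by_cases hd : dg j lam L t < D
    · have h3 : Ex r (fun I => ind (η ≤ dg j lam L (t + I)) * ind (dg j lam L t < D) * lam ^ r)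
          ≤ Ex r (fun I => dg j lam L (t + I) * (lam ^ r / η)) := by
        refine Ex_mono (fun I _ => ?_)
        rw [ind_pos hd, mul_one]
        have hp : 0 ≤ lam ^ r := pow_nonneg (by linarith) _
        by_cases hI : η ≤ dg j lam L (t + I)
        · rw [ind_pos hI, one_mul, ← mul_div_assoc, le_div_iff₀ hη, mul_comm]
          exact mul_le_mul_of_nonneg_right hI hp
        · rw [ind_neg hI, zero_mul]
          exact mul_nonneg (Cov_dg_nonneg hlam L _) (div_nonneg hp hη.le)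
      refine h3.trans ?_
      rw [Ex_mul', ← mul_div_assoc, Cov_dg_mean lam L t htc]
      exact div_le_div_of_nonneg_right hd.le hη.le
    · refine Ex_le (fun I _ => ?_)
      rw [ind_neg hd, mul_zero, zero_mul]; exact hq
  refine (sum_le_card_nsmul _ _ _ h2).trans ?_
  rw [nsmul_eq_mul]
  refine mul_le_mul_of_nonneg_right ?_ hq
  have h4 : R.powerset.toFinset.card ≤ 2 ^ j := by
    refine (Multiset.toFinset_card_le _).trans ?_
    rw [Multiset.card_powerset]
    exact Nat.pow_le_pow_right (by norm_num) (by omega)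
  exact_mod_cast h4

omit [Nonempty V] in
lemma Cov_point {j : ℕ} {lam η D : ℝ} (hlam : 1 ≤ lam) (L : Multiset V → Prop)
    (R J : Multiset V) (h : R.card + J.card ≤ j) :
    CovF j lam η D L R J ≤ 1 + ∑ s ∈ range J.card, splitSum (s + 1)
      (fun I W => CovG j lam η D L (s + 1) R I * CovF j lam η D L (R + I) W) J := by
  classical
  have h0 : ∀ s I W, 0 ≤ CovG j lam η D L (s + 1) R I * CovF j lam η D L (R + I) W :=
    fun s I W => mul_nonneg (Cov_G_nonneg hlam L _ _ _) (Cov_F_nonneg hlam L _ _)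
  have hs0 : ∀ s ∈ range J.card, 0 ≤ splitSum (s + 1)
      (fun I W => CovG j lam η D L (s + 1) R I * CovF j lam η D L (R + I) W) J :=
    fun s _ => splitSum_nonneg (h0 s) _
  have hS := sum_nonneg hs0
  by_cases hN : NoForb j lam D L (R + J)
  swap
  · rw [CovF, ind_neg hN, zero_mul]; linarith
  by_cases hc : cnt j lam η L (R + J) J = 0
  · rw [CovF, ind_pos hN, hc, pow_zero]; linarith
  obtain ⟨x, hx, σ, hσ, hη⟩ := Multiset.countP_pos.1 (Nat.pos_of_ne_zero hc)
  rw [Multiset.erase_add_right_pos _ hx] at hσ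
  have h1 : σ - R ≤ J.erase x := tsub_le_iff_left.2 hσ
  have h2 : x ::ₘ (σ - R) ≤ J := by
    rw [← Multiset.cons_erase hx]; exact Multiset.cons_le_cons _ h1
  obtain ⟨W, hW⟩ := Multiset.le_iff_exists_add.1 h2
  set I := x ::ₘ (σ - R) with hI
  set s := (σ - R).card with hs
  have hIc : I.card = s + 1 := by rw [hI, Multiset.card_cons]
  have hJc : J.card = s + 1 + W.card := by rw [hW, Multiset.card_add, hIc]
  have ht : σ ∩ R + I = x ::ₘ σ := by
    rw [hI, Multiset.add_cons, add_comm, Multiset.sub_add_inter]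
  have htR : σ ∩ R ≤ R := Multiset.inter_le_right
  have htD : dg j lam L (σ ∩ R) < D := by
    refine hN _ (htR.trans (Multiset.le_add_right _ _)) ?_
    have := Multiset.card_le_card htR
    omega
  have hG : lam ^ (s + 1) ≤ CovG j lam η D L (s + 1) R I := by
    have h3 := single_le_sum (s := R.powerset.toFinset) (a := σ ∩ R)
      (f := fun t => ind (η ≤ dg j lam L (t + I)) * ind (dg j lam L t < D) * lam ^ (s + 1))
      (fun _ _ => mul_nonneg (mul_nonneg (ind_nonneg _) (ind_nonneg _))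
        (pow_nonneg (by linarith) _))
      (Multiset.mem_toFinset.2 (Multiset.mem_powerset.2 htR))
    simp only [ht, ind_pos hη, ind_pos htD, one_mul] at h3
    exact h3
  have hRJ : R + I + W = R + J := by rw [hW, add_assoc]
  have hcnt : cnt j lam η L (R + J) J ≤ s + 1 + cnt j lam η L (R + J) W := by
    have h4 : cnt j lam η L (R + J) (I + W)
        = cnt j lam η L (R + J) I + cnt j lam η L (R + J) W := Multiset.countP_add _ _ _
    have h5 : cnt j lam η L (R + J) I ≤ I.card := Multiset.countP_le_card _ _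
    rw [← hW] at h4
    omega
  have h6 : CovF j lam η D L R J
      ≤ CovG j lam η D L (s + 1) R I * CovF j lam η D L (R + I) W := by
    refine le_trans ?_ (mul_le_mul_of_nonneg_right hG (Cov_F_nonneg hlam L _ _))
    rw [CovF, CovF, hRJ, ind_pos hN, one_mul, one_mul, ← pow_add]
    exact pow_le_pow_right₀ hlam hcnt
  have h7 := le_splitSum (h0 s) I W hIc
  rw [← hW] at h7
  have h8 := single_le_sum hs0 (mem_range.2 (by omega : s < J.card))
  linarith

lemma Cov_main {j : ℕ} {lam η D : ℝ} (hlam : 1 ≤ lam) (hη : 0 < η) (hD : η ≤ D)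
    (L : Multiset V → Prop) (r : ℕ) : ∀ R : Multiset V, R.card + r ≤ j →
    Ex r (CovF j lam η D L R) ≤ (2 ^ (2 * j + 1) * D / η) ^ r := by
  set K : ℝ := 2 ^ (2 * j + 1) * D / η with hK
  have hq : 1 ≤ D / η := (one_le_div hη).2 hD
  have hK' : K = 2 * (2 ^ j * (2 ^ j * (D / η))) := by rw [hK]; ring
  have hj : (1 : ℝ) ≤ 2 ^ j := one_le_pow₀ (by norm_num)
  have hA : 1 ≤ (2 : ℝ) ^ j * (D / η) := one_le_mul_of_one_le_of_one_le hj hq
  have hB : 1 ≤ (2 : ℝ) ^ j * (2 ^ j * (D / η)) := one_le_mul_of_one_le_of_one_le hj hA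
  have hK1 : 1 ≤ K := by linarith
  induction r using Nat.strong_induction_on with
  | _ r ih =>
  intro R hR
  rcases r with _ | r
  · rw [Ex_zero, pow_zero, CovF]
    have : cnt j lam η L (R + 0) 0 = 0 := by simp [cnt]
    rw [this, pow_zero, mul_one]; exact ind_le_one _
  have h1 : Ex (r + 1) (CovF j lam η D L R) ≤ Ex (r + 1) (fun J => 1 + ∑ s ∈ range (r + 1),
      splitSum (s + 1)
        (fun I W => CovG j lam η D L (s + 1) R I * CovF j lam η D L (R + I) W) J) := by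
    refine Ex_mono (fun J hJ => ?_)
    have := Cov_point (j := j) (η := η) (D := D) hlam L R J (by omega)
    rwa [hJ] at this
  rw [Ex_add, Ex_const, Ex_sum] at h1
  have h2 : ∀ s ∈ range (r + 1), Ex (r + 1) (splitSum (s + 1)
      (fun I W => CovG j lam η D L (s + 1) R I * CovF j lam η D L (R + I) W))
      ≤ ((r + 1).choose (s + 1) : ℝ) * (2 ^ j * (D / η) * K ^ r) := by
    intro s hs
    have hs' := mem_range.1 hs
    rw [Ex_splitSum]
    refine mul_le_mul_of_nonneg_left ?_ (Nat.cast_nonneg _)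
    have h3 : Ex (s + 1) (fun I => Ex (r + 1 - (s + 1))
        (fun W => CovG j lam η D L (s + 1) R I * CovF j lam η D L (R + I) W))
        ≤ Ex (s + 1) (fun I => CovG j lam η D L (s + 1) R I * K ^ r) := by
      refine Ex_mono (fun I hI => ?_)
      rw [Ex_mul]
      refine mul_le_mul_of_nonneg_left ?_ (Cov_G_nonneg hlam L _ _ _)
      refine (ih _ (by omega) (R + I) (by rw [Multiset.card_add]; omega)).trans ?_
      exact pow_le_pow_right₀ hK1 (by omega)
    rw [Ex_mul'] at h3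
    refine h3.trans (mul_le_mul_of_nonneg_right ?_ (pow_nonneg (by linarith) _))
    exact Cov_G_mean hlam hη hD L R (by omega)
  have h4 := sum_le_sum h2
  rw [← sum_mul] at h4
  have h5 : ∑ s ∈ range (r + 1), ((r + 1).choose (s + 1) : ℝ) ≤ 2 ^ j := by
    have h6 : ∑ s ∈ range (r + 1), (r + 1).choose (s + 1) ≤ 2 ^ j := by
      have h7 := Nat.sum_range_choose (r + 1)
      rw [sum_range_succ'] at h7
      have h8 : 2 ^ (r + 1) ≤ 2 ^ j := Nat.pow_le_pow_right (by norm_num) (by omega)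
      omega
    exact_mod_cast h6
  have hKr : 1 ≤ K ^ r := one_le_pow₀ hK1
  have h9 := mul_le_mul_of_nonneg_right h5
    (by positivity : (0 : ℝ) ≤ 2 ^ j * (D / η) * K ^ r)
  have h10 : 1 ≤ (2 : ℝ) ^ j * (2 ^ j * (D / η)) * K ^ r :=
    one_le_mul_of_one_le_of_one_le hB hKr
  have h11 : K ^ (r + 1) = 2 * (2 ^ j * (2 ^ j * (D / η)) * K ^ r) := by
    rw [pow_succ]; nth_rewrite 2 [hK']; ring
  rw [h11]
  have h12 : (2 : ℝ) ^ j * (2 ^ j * (D / η) * K ^ r) = 2 ^ j * (2 ^ j * (D / η)) * K ^ r := by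
    ring
  linarith

/-- few points are covered by heavy sub-multisets -/
theorem cover {j : ℕ} {lam η D : ℝ} (hlam : 1 ≤ lam) (hη : 0 < η) (hD : η ≤ D)
    (L : Multiset V → Prop) :
    Ex j (fun J => ind (NoForb j lam D L J) * lam ^ cnt j lam η L J J)
      ≤ (2 ^ (2 * j + 1) * D / η) ^ j := by
  have h := Cov_main (j := j) hlam hη hD L j 0 (by simp)
  refine le_trans (le_of_eq (Ex_congr (fun J _ => ?_))) h
  rw [CovF, zero_add]

end Pool.Agent.P.MP_7badbe_co

end

section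


open Finset Filter Topology
open scoped BigOperators

namespace Pool.Agent.P.MP_7badbe_co

variable {V : Type} [Fintype V] [Nonempty V]

lemma Jen_jensen {m : ℕ} {d : ℝ} (hd : 0 < d) (φ s : Multiset V → ℝ) (h0 : ∀ J, 0 ≤ φ J)
    (h1 : Ex m φ ≤ d) :
    Real.exp (Ex m (fun J => φ J * s J) / d) ≤ 1 + Ex m (fun J => φ J * Real.exp (s J)) / d := by
  obtain ⟨t, ht⟩ : ∃ t, t = Ex m (fun J => φ J * s J) / d := ⟨_, rfl⟩
  have key : ∀ u, Real.exp t * (1 - t) + Real.exp t * u ≤ Real.exp u := fun u => by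
    have := mul_le_mul_of_nonneg_left (Real.add_one_le_exp (u - t)) (Real.exp_pos t).le
    rw [← Real.exp_add, add_sub_cancel] at this
    linarith
  have a1 : Ex m (fun J => Real.exp t * (1 - t) * φ J + Real.exp t * (φ J * s J))
      ≤ Ex m (fun J => φ J * Real.exp (s J)) := Ex_mono fun J _ => by
    have := mul_le_mul_of_nonneg_left (key (s J)) (h0 J)
    linarith
  rw [Ex_add, Ex_mul, Ex_mul] at a1
  have a2 := key 0
  rw [Real.exp_zero, mul_zero, add_zero] at a2
  have a3 := mul_le_mul_of_nonneg_left a2 (sub_nonneg.2 h1)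
  have a4 : 0 ≤ Ex m φ := Ex_nonneg fun J _ => h0 J
  rw [← ht, one_add_div hd.ne', le_div_iff₀ hd]
  rw [eq_div_iff hd.ne'] at ht
  rw [← ht] at a1
  linarith

lemma Jen_cnt (r j : ℕ) (lam η : ℝ) (L : Multiset V → Prop) (φ : Multiset V → ℝ) :
    Ex (r + 1) (fun J => φ J * cnt j lam η L J J)
      = (r + 1) * Ex r (fun R => 𝔼 x, φ (x ::ₘ R) * ind (Cov j lam η L R x)) := by
  classical
  have := Ex_splitSum (r + 1) 1
    (fun I R : Multiset V => φ (I + R) * (I.map fun x => ind (Cov j lam η L R x)).sum)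
  rw [Nat.choose_one_right, Nat.add_sub_cancel, Ex_succ 0] at this
  simp only [Ex_zero, Multiset.cons_zero, Multiset.singleton_add, Multiset.map_singleton,
    Multiset.sum_singleton] at this
  rw [Ex_expect, ← Nat.cast_add_one, ← this]
  refine Ex_congr fun J _ => ?_
  rw [splitSum_one]
  simp only [Multiset.singleton_add, Multiset.map_singleton, Multiset.sum_singleton]
  rw [Multiset.map_congr rfl (g := fun x => φ J * ind (Cov j lam η L (J.erase x) x))
    fun x hx => by rw [Multiset.cons_erase hx], Multiset.sum_map_mul_left]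
  congr 1
  unfold cnt
  have : ∀ (P : V → Prop) (_ : DecidablePred P) (M : Multiset V),
      (M.countP P : ℝ) = (M.map fun x => ind (P x)).sum := fun P _ M => by
    induction M using Multiset.induction_on with
    | empty => simp
    | cons a M ih => by_cases h : P a <;> simp [ind, h, ih, add_comm]
  exact this _ _ _

lemma Jen_GG (r : ℕ) (lam η D : ℝ) (L L' bad : Multiset V → Prop) :
    GG (r + 1) (gP (r + 1) lam η D L L' bad) 0 ≤ 1 / 6 * Ex (r + 1) (fun J => ind (L J))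
      + 1 / 3 * Ex (r + 1) (fun J => ind (L J) * ind (bad J))
      + Ex (r + 1) (fun J => ind (L J) * ind (¬ bad J) * ind (NoForb (r + 1) lam D L' J)
        * cnt (r + 1) lam η L' J J) / (3 * (r + 1)) := by
  rw [Jen_cnt, Ex_succ', Ex_succ', show ∀ a : ℝ, ((r : ℝ) + 1) * a / (3 * (r + 1)) = 1 / 3 * a from
    fun a => by field_simp, ← Ex_mul, ← Ex_mul, ← Ex_mul, ← Ex_add, ← Ex_add]
  simp only [GG, Multiset.card_zero, Nat.add_sub_cancel, Nat.sub_zero, zero_add]
  refine Ex_mono fun R _ => ?_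
  rw [mul_expect, mul_expect, mul_expect, ← expect_add_distrib, ← expect_add_distrib]
  refine expect_le_expect fun x _ => ?_
  unfold gP
  by_cases h1 : L (x ::ₘ R) <;> by_cases h2 : bad (x ::ₘ R) <;>
    by_cases h3 : NoForb (r + 1) lam D L' (x ::ₘ R) <;> by_cases h4 : Cov (r + 1) lam η L' R x <;>
    simp [ind, h1, h2, h3, h4]

/-- the initial potential averaged over pairs of links -/
theorem start_bound {j y : ℕ} (hj : 1 ≤ j) {lam η D h d β κ Λ Cs : ℝ} (hlam : 1 ≤ lam)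
    (hh : 0 ≤ h) (hd : 0 < d) (hκ : 0 ≤ κ) (hΛ : lam ≤ Λ)
    (hΛ' : Real.exp (2 * (h * d) / (3 * j)) ≤ Λ)
    (L : Multiset V → Multiset V → Prop) (bad : Multiset V → Prop)
    (hgood : ∀ J, J.card = j → ¬ bad J → Ex y (fun Y => ind (L Y J)) ≤ κ)
    (hcov : ∀ Y, Ex j (fun J => ind (NoForb j lam D (L Y) J) * lam ^ cnt j lam η (L Y) J J) ≤ Cs)
    (ok : Multiset V → Prop)
    (hok : ∀ Y, ok Y → Ex j (fun J => ind (L Y J)) ≤ d ∧
      Ex j (fun J => ind (L Y J) * ind (bad J)) ≤ β) :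
    Ex y (fun Y => Ex y (fun Y' => ind (ok Y) * ind (ok Y') *
        Real.exp (h * GG j (gP j lam η D (L Y) (L Y') bad) 0
          + h * GG j (gP j lam η D (L Y') (L Y) bad) 0)))
      ≤ Real.exp (h * d / 3 + 2 * (h * β) / 3) * (1 + κ / d * (Λ / lam) ^ j * Cs) := by
  obtain ⟨r, rfl⟩ : ∃ r, j = r + 1 := ⟨j - 1, by omega⟩
  have l0 : 0 < lam := by linarith
  have q1 : 1 ≤ Λ / lam := by rwa [le_div_iff₀ l0, one_mul]
  obtain ⟨K, hK⟩ : ∃ K, K = (Λ / lam) ^ (r + 1) := ⟨_, rfl⟩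
  have K0 : 0 ≤ K := by rw [hK]; positivity
  let B : Multiset V → Multiset V → ℝ := fun Y Y' => Ex (r + 1) (fun J => ind (L Y J) *
    (ind (¬ bad J) * (ind (NoForb (r + 1) lam D (L Y') J) * lam ^ cnt (r + 1) lam η (L Y') J J)))
  have i0 := ind_nonneg
  have B0 : ∀ Y Y', 0 ≤ B Y Y' := fun Y Y' => Ex_nonneg fun J _ =>
    mul_nonneg (i0 _) (mul_nonneg (i0 _) (mul_nonneg (i0 _) (by positivity)))
  have B1 : ∀ Y', Ex y (fun Y => B Y Y') ≤ κ * Cs := fun Y' => by
    rw [Ex_comm]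
    refine le_trans (Ex_mono fun J hJ => ?_) ((Ex_mul _ κ _).trans_le
      (mul_le_mul_of_nonneg_left (hcov Y') hκ))
    rw [Ex_mul']
    by_cases hb : bad J
    · rw [ind_neg (not_not.2 hb), zero_mul, mul_zero]
      exact mul_nonneg hκ (mul_nonneg (i0 _) (by positivity))
    · rw [ind_pos hb, one_mul]
      exact mul_le_mul_of_nonneg_right (hgood J hJ hb) (mul_nonneg (i0 _) (by positivity))
  have a1 : ∀ Y Y', ok Y → Real.exp (2 * (h * GG (r + 1) (gP (r + 1) lam η D (L Y) (L Y') bad) 0))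
      ≤ Real.exp (h * d / 3 + 2 * (h * β) / 3) * (1 + K / d * B Y Y') := fun Y Y' hY => by
    have b1 := mul_le_mul_of_nonneg_left (Jen_GG r lam η D (L Y) (L Y') bad) hh
    have b2 := mul_le_mul_of_nonneg_left (hok Y hY).1 hh
    have b3 := mul_le_mul_of_nonneg_left (hok Y hY).2 hh
    have b4 := Jen_jensen (m := r + 1) hd
      (fun J => ind (L Y J) * ind (¬ bad J) * ind (NoForb (r + 1) lam D (L Y') J))
      (fun J => cnt (r + 1) lam η (L Y') J J * (2 * (h * d) / (3 * (r + 1 : ℕ))))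
      (fun J => mul_nonneg (mul_nonneg (i0 _) (i0 _)) (i0 _))
      ((Ex_mono fun J _ => (mul_le_of_le_one_right (mul_nonneg (i0 _) (i0 _)) (ind_le_one _)).trans
        (mul_le_of_le_one_right (i0 _) (ind_le_one _))).trans (hok Y hY).1)
    simp only [← mul_assoc _ (cnt (r + 1) lam η (L Y') _ _ : ℝ), Ex_mul'] at b4
    have b5 : Ex (r + 1) (fun J => ind (L Y J) * ind (¬ bad J) * ind (NoForb (r + 1) lam D (L Y') J)
        * Real.exp (cnt (r + 1) lam η (L Y') J J * (2 * (h * d) / (3 * (r + 1 : ℕ)))))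
        ≤ K * B Y Y' := by
      refine le_trans (Ex_mono fun J hJ => ?_) (Ex_mul _ K _).le
      have c1 : cnt (r + 1) lam η (L Y') J J ≤ r + 1 := by
        classical
        exact hJ ▸ Multiset.countP_le_card _ _
      generalize cnt (r + 1) lam η (L Y') J J = c at c1
      have c2 : Real.exp (c * (2 * (h * d) / (3 * (r + 1 : ℕ)))) ≤ K * lam ^ c := by
        calc _ ≤ Λ ^ c := by rw [Real.exp_nat_mul]; gcongr
          _ = (Λ / lam) ^ c * lam ^ c := by rw [← mul_pow, div_mul_cancel₀ _ l0.ne']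
          _ ≤ _ := by rw [hK]; gcongr
      calc _ ≤ ind (L Y J) * ind (¬ bad J) * ind (NoForb (r + 1) lam D (L Y') J) * (K * lam ^ c) :=
            mul_le_mul_of_nonneg_left c2 (mul_nonneg (mul_nonneg (i0 _) (i0 _)) (i0 _))
        _ = _ := by ring
    generalize Ex (r + 1) (fun J => ind (L Y J) * ind (¬ bad J) *
      ind (NoForb (r + 1) lam D (L Y') J) * (cnt (r + 1) lam η (L Y') J J : ℝ)) = A at b1 b4
    calc _ ≤ Real.exp (h * d / 3 + 2 * (h * β) / 3) *
          Real.exp (A * (2 * (h * d) / (3 * (r + 1 : ℕ))) / d) := by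
          rw [← Real.exp_add, show A * (2 * (h * d) / (3 * (r + 1 : ℕ))) / d
            = 2 * (h * (A / (3 * (r + 1)))) by push_cast; field_simp]
          apply Real.exp_le_exp.2
          linarith
      _ ≤ _ := by
          refine mul_le_mul_of_nonneg_left (b4.trans ?_) (Real.exp_pos _).le
          rw [div_mul_eq_mul_div]
          gcongr
  generalize hE : Real.exp (h * d / 3 + 2 * (h * β) / 3) = E at a1
  have E0 : 0 ≤ E := hE ▸ (Real.exp_pos _).le
  have c0 : 0 ≤ E * (K / d) / 2 := by positivity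
  calc _ ≤ Ex y (fun Y => Ex y (fun Y' =>
        E + (E * (K / d) / 2 * B Y Y' + E * (K / d) / 2 * B Y' Y))) := by
        refine Ex_mono fun Y _ => Ex_mono fun Y' _ => ?_
        have c1 := mul_nonneg c0 (B0 Y Y')
        have c2 := mul_nonneg c0 (B0 Y' Y)
        by_cases h1 : ok Y
        · by_cases h2 : ok Y'
          · have d1 := a1 Y Y' h1
            have d2 := a1 Y' Y h2
            rw [two_mul, Real.exp_add] at d1 d2
            rw [ind_pos h1, ind_pos h2, Real.exp_add]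
            nlinarith [sq_nonneg (Real.exp (h * GG (r + 1) (gP (r + 1) lam η D (L Y) (L Y') bad) 0)
              - Real.exp (h * GG (r + 1) (gP (r + 1) lam η D (L Y') (L Y) bad) 0))]
          · rw [ind_neg h2]; linarith
        · rw [ind_neg h1]; linarith
    _ = E + (E * (K / d) / 2 * Ex y (fun Y => Ex y (fun Y' => B Y Y'))
        + E * (K / d) / 2 * Ex y (fun Y => Ex y (fun Y' => B Y' Y))) := by
        simp only [Ex_add, Ex_mul, Ex_const]
    _ ≤ E + (E * (K / d) / 2 * (κ * Cs) + E * (K / d) / 2 * (κ * Cs)) := by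
        gcongr
        · rw [Ex_comm]; exact Ex_le fun Y _ => B1 Y
        · exact Ex_le fun Y _ => B1 Y
    _ = _ := by rw [hK]; ring

end Pool.Agent.P.MP_7badbe_co

end

section


open Finset Filter Topology
open scoped BigOperators

namespace Pool.Agent.P.MP_7badbe_co

variable {V : Type} [Fintype V] [Nonempty V]

open Classical in
/-- expectation over `M` blocks of size `j` of a function of the number of marked blocks and of
the sum of the blocks -/
noncomputable def badBlk (j : ℕ) (φ : Multiset V → Prop) : ℕ → (ℕ → Multiset V → ℝ) → ℝ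
  | 0, F => F 0 0
  | M + 1, F => Ex j (fun J => badBlk j φ M (fun c W => F (c + if φ J then 1 else 0) (J + W)))

omit [Nonempty V] in
lemma badBlk_mono (j : ℕ) (φ : Multiset V → Prop) (M : ℕ) {F G : ℕ → Multiset V → ℝ}
    (h : ∀ c W, F c W ≤ G c W) : badBlk j φ M F ≤ badBlk j φ M G := by
  induction M generalizing F G with
  | zero => exact h 0 0
  | succ M ih => exact Ex_mono (fun J _ => ih (fun c W => h _ _))

omit [Nonempty V] in
lemma badBlk_add (j : ℕ) (φ : Multiset V → Prop) (M : ℕ) (F G : ℕ → Multiset V → ℝ) :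
    badBlk j φ M (fun c W => F c W + G c W) = badBlk j φ M F + badBlk j φ M G := by
  induction M generalizing F G with
  | zero => rfl
  | succ M ih => simp only [badBlk, ih, Ex_add]

omit [Nonempty V] in
lemma badBlk_mul (j : ℕ) (φ : Multiset V → Prop) (M : ℕ) (a : ℝ) (F : ℕ → Multiset V → ℝ) :
    badBlk j φ M (fun c W => a * F c W) = a * badBlk j φ M F := by
  induction M generalizing F with
  | zero => rfl
  | succ M ih => simp only [badBlk, ih, Ex_mul]

omit [Nonempty V] in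
lemma badBlk_sum (j : ℕ) (φ : Multiset V → Prop) (M : ℕ) (H : Multiset V → ℝ) :
    badBlk j φ M (fun _ W => H W) = Ex (M * j) H := by
  induction M generalizing H with
  | zero => simp [badBlk]
  | succ M ih =>
    rw [show (M + 1) * j = j + M * j by ring, Ex_split]
    simp only [badBlk]
    exact Ex_congr (fun J _ => ih (fun W => H (J + W)))

lemma badBlk_pow (j : ℕ) (φ : Multiset V → Prop) (M : ℕ) (ξ : ℝ) :
    badBlk j φ M (fun c _ => ξ ^ c) = (1 + Ex j (fun J => ind (φ J)) * (ξ - 1)) ^ M := by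
  induction M with
  | zero => simp [badBlk]
  | succ M ih =>
    simp only [badBlk]
    have h1 : ∀ J : Multiset V, badBlk j φ M
        (fun c (_ : Multiset V) => ξ ^ (c + @ite ℕ (φ J) (Classical.propDecidable _) 1 0))
        = (1 + ind (φ J) * (ξ - 1)) * (1 + Ex j (fun J => ind (φ J)) * (ξ - 1)) ^ M := by
      intro J
      rw [← ih, ← badBlk_mul]
      congr 1
      funext c _
      by_cases h : φ J
      · rw [if_pos h, ind_pos h]; ring
      · rw [if_neg h, ind_neg h]; ring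
    simp only [h1]
    rw [Ex_mul', Ex_add, Ex_mul', Ex_const, pow_succ']

omit [Nonempty V] in
lemma badBlk_cnt (j : ℕ) (φ : Multiset V → Prop) (M : ℕ) (H : Multiset V → ℝ) :
    badBlk j φ (M + 1) (fun c W => (c : ℝ) * H W)
      = (M + 1) * Ex j (fun J => ind (φ J) * Ex (M * j) (fun W => H (J + W))) := by
  have h1 : ∀ (M : ℕ) (H : Multiset V → ℝ) (J : Multiset V), badBlk j φ M
      (fun c W => ((c + @ite ℕ (φ J) (Classical.propDecidable _) 1 0 : ℕ) : ℝ) * H (J + W))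
      = badBlk j φ M (fun c W => (c : ℝ) * H (J + W))
        + ind (φ J) * Ex (M * j) (fun W => H (J + W)) := by
    intro M H J
    rw [← badBlk_sum j φ M, ← badBlk_mul, ← badBlk_add]
    congr 1
    funext c W
    by_cases h : φ J
    · rw [if_pos h, ind_pos h]; push_cast; ring
    · rw [if_neg h, ind_neg h]; push_cast; ring
  induction M generalizing H with
  | zero =>
    rw [badBlk]
    simp only [h1]
    simp [badBlk]
  | succ M ih =>
    rw [badBlk]
    simp only [h1, ih]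
    rw [Ex_add, Ex_mul, Ex_comm]
    have h2 : Ex j (fun J' => Ex j (fun J => ind (φ J') *
        Ex (M * j) (fun W => H (J + (J' + W)))))
        = Ex j (fun J' => ind (φ J') * Ex ((M + 1) * j) (fun W => H (J' + W))) := by
      refine Ex_congr (fun J' _ => ?_)
      rw [Ex_mul, show (M + 1) * j = j + M * j by ring, Ex_split]
      simp only [add_left_comm J']
    rw [h2]
    push_cast
    ring

lemma bad_nat_le {ξ : ℝ} (hξ : 2 ≤ ξ) (c t : ℕ) : (c : ℝ) ≤ t + ξ ^ c / ξ ^ t := by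
  have h0 : 0 < ξ := by linarith
  rcases le_total c t with h | h
  · have : (c : ℝ) ≤ t := by exact_mod_cast h
    have h2 : 0 ≤ ξ ^ c / ξ ^ t := by positivity
    linarith
  · obtain ⟨u, rfl⟩ := Nat.exists_eq_add_of_le h
    rw [pow_add, mul_div_cancel_left₀ _ (by positivity)]
    have h1 : (u : ℝ) ≤ 2 ^ u := by exact_mod_cast (Nat.lt_two_pow_self (n := u)).le
    have h2 : (2 : ℝ) ^ u ≤ ξ ^ u := pow_le_pow_left₀ (by norm_num) hξ u
    push_cast
    linarith

lemma bad_mass {j y M t : ℕ} (hM : 1 ≤ M) (hMj : M * j ≤ y + j) {ξ : ℝ} (hξ : 2 ≤ ξ)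
    (G : Multiset V → ℝ) (hG0 : ∀ W, 0 ≤ G W) (hG1 : ∀ W, G W ≤ 1) (φ : Multiset V → Prop)
    (hp : Ex j (fun J => ind (φ J)) * ξ ≤ 1) :
    (M : ℝ) * Ex y (fun Y => Ex j (fun J => G (Y + J) * ind (φ J)))
      ≤ t * Ex (y + j) G + 2 ^ M / ξ ^ t := by
  obtain ⟨M', rfl⟩ : ∃ M', M = M' + 1 := ⟨M - 1, by omega⟩
  obtain ⟨r, hr⟩ : ∃ r, y = M' * j + r := ⟨y - M' * j, by
    have : (M' + 1) * j = M' * j + j := by ring
    omega⟩
  have h0 : 0 < ξ := by linarith
  set H : Multiset V → ℝ := fun W => Ex r (fun R => G (W + R)) with hH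
  have hH0 : ∀ W, 0 ≤ H W := fun W => Ex_nonneg (fun _ _ => hG0 _)
  have hH1 : ∀ W, H W ≤ 1 := fun W => Ex_le (fun _ _ => hG1 _)
  have e1 : Ex y (fun Y => Ex j (fun J => G (Y + J) * ind (φ J)))
      = Ex j (fun J => ind (φ J) * Ex (M' * j) (fun W => H (J + W))) := by
    rw [Ex_comm]
    refine Ex_congr (fun J _ => ?_)
    rw [Ex_mul', mul_comm, hr, Ex_split]
    simp only [hH, add_assoc, add_comm _ J]
  have e2 : Ex (y + j) G = Ex ((M' + 1) * j) H := by
    rw [show y + j = (M' + 1) * j + r by rw [hr]; ring, Ex_split]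
  have e3 := badBlk_cnt j φ M' H
  have e4 : badBlk j φ (M' + 1) (fun c W => (c : ℝ) * H W)
      ≤ badBlk j φ (M' + 1) (fun c W => t * H W + (ξ ^ t)⁻¹ * ξ ^ c) := by
    refine badBlk_mono j φ _ (fun c W => ?_)
    have a1 := bad_nat_le hξ c t
    have a2 : 0 ≤ ξ ^ c / ξ ^ t := by positivity
    rw [← div_eq_inv_mul]
    nlinarith [hH0 W, hH1 W]
  rw [badBlk_add, badBlk_mul, badBlk_mul, badBlk_sum, badBlk_pow, e3] at e4
  have hp0 : 0 ≤ Ex j (fun J => ind (φ J)) := Ex_nonneg (fun _ _ => ind_nonneg _)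
  have e5 : (1 + Ex j (fun J => ind (φ J)) * (ξ - 1)) ^ (M' + 1) ≤ 2 ^ (M' + 1) :=
    pow_le_pow_left₀ (by nlinarith) (by nlinarith) _
  have e6 : (ξ ^ t)⁻¹ * (1 + Ex j (fun J => ind (φ J)) * (ξ - 1)) ^ (M' + 1)
      ≤ 2 ^ (M' + 1) / ξ ^ t := by
    rw [div_eq_inv_mul]
    exact mul_le_mul_of_nonneg_left e5 (by positivity)
  rw [e1, e2]
  push_cast
  linarith

/-- few edges have an atypically large co-degree -/
theorem bad_split {j y z M t : ℕ} (hM : 1 ≤ M) (hMj : M * j ≤ y + j) {δ ξ ε₃ : ℝ} (hδ : 0 < δ)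
    (hξ : 2 ≤ ξ) (hε : 0 < ε₃) (g : Multiset V → Prop)
    (hg : Ex (z + y + j) (fun W => ind (g W)) ≤ δ) :
    Ex z (fun Z => Ex y (fun Y => ind (ε₃ * δ < Ex j (fun J => ind (g (Z + Y + J))
        * ind (ξ ^ 2 * δ < Ex y (fun Y' => ind (g (Z + Y' + J))))))))
      ≤ 1 / ξ + (t / M + 2 ^ M / (ξ ^ t * M * δ)) / ε₃ := by
  have h0 : 0 < ξ := by linarith
  have hM0 : (0 : ℝ) < M := by exact_mod_cast hM
  set f : Multiset V → ℝ := fun Z => Ex (y + j) (fun W => ind (g (Z + W))) with hf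
  have hf0 : ∀ Z, 0 ≤ f Z := fun Z => Ex_nonneg (fun _ _ => ind_nonneg _)
  have hfδ : Ex z f ≤ δ := by
    rw [add_assoc, Ex_split] at hg
    exact hg
  have key : ∀ Z : Multiset V,
      Ex y (fun Y => ind (ε₃ * δ < Ex j (fun J => ind (g (Z + Y + J))
        * ind (ξ ^ 2 * δ < Ex y (fun Y' => ind (g (Z + Y' + J)))))))
      ≤ ind (ξ * δ < f Z) + ((M * (ε₃ * δ))⁻¹ * t * f Z + 2 ^ M / ξ ^ t / (M * (ε₃ * δ))) := by
    intro Z
    have hpos : 0 ≤ (M * (ε₃ * δ))⁻¹ * t * f Z + 2 ^ M / ξ ^ t / (M * (ε₃ * δ)) := by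
      have := hf0 Z
      positivity
    by_cases hZ : ξ * δ < f Z
    · rw [ind_pos hZ]
      have : Ex y (fun Y => ind (ε₃ * δ < Ex j (fun J => ind (g (Z + Y + J))
        * ind (ξ ^ 2 * δ < Ex y (fun Y' => ind (g (Z + Y' + J))))))) ≤ 1 :=
        Ex_le (fun _ _ => ind_le_one _)
      linarith
    · rw [ind_neg hZ, zero_add]
      have hZ' : f Z ≤ ξ * δ := not_lt.1 hZ
      have p1 : Ex j (fun J => ind (ξ ^ 2 * δ < Ex y (fun Y' => ind (g (Z + Y' + J)))))
          ≤ Ex j (fun J => Ex y (fun Y' => ind (g (Z + Y' + J)))) / (ξ ^ 2 * δ) :=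
        Ex_markov (fun _ => Ex_nonneg (fun _ _ => ind_nonneg _)) (by positivity)
      have p2 : Ex j (fun J => Ex y (fun Y' => ind (g (Z + Y' + J)))) = f Z := by
        rw [Ex_comm, hf]
        simp only [Ex_split, add_assoc]
      rw [p2, le_div_iff₀ (by positivity)] at p1
      have p3 : Ex j (fun J => ind (ξ ^ 2 * δ < Ex y (fun Y' => ind (g (Z + Y' + J))))) * ξ
          ≤ 1 := by
        have : (Ex j (fun J => ind (ξ ^ 2 * δ < Ex y (fun Y' => ind (g (Z + Y' + J))))) * ξ)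
            * (ξ * δ) ≤ 1 * (ξ * δ) := by nlinarith
        exact le_of_mul_le_mul_right this (by positivity)
      have p4 := bad_mass (t := t) hM hMj hξ (fun W => ind (g (Z + W))) (fun _ => ind_nonneg _)
        (fun _ => ind_le_one _) _ p3
      refine (Ex_markov (fun Y => Ex_nonneg (fun _ _ =>
        mul_nonneg (ind_nonneg _) (ind_nonneg _))) (by positivity)).trans ?_
      simp only [← add_assoc] at p4
      rw [div_le_iff₀ (by positivity)]
      refine le_of_mul_le_mul_left (p4.trans (le_of_eq ?_)) hM0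
      simp only [hf]
      field_simp
  refine (Ex_mono (fun Z _ => key Z)).trans ?_
  rw [Ex_add, Ex_add, Ex_mul, Ex_const]
  have q1 : Ex z (fun Z => ind (ξ * δ < f Z)) ≤ 1 / ξ := by
    refine (Ex_markov hf0 (by positivity)).trans ?_
    rw [div_le_div_iff₀ (by positivity) h0]
    nlinarith
  have q2 : (M * (ε₃ * δ))⁻¹ * t * Ex z f ≤ (M * (ε₃ * δ))⁻¹ * t * δ :=
    mul_le_mul_of_nonneg_left hfδ (by positivity)
  have q3 : (M * (ε₃ * δ))⁻¹ * t * δ + 2 ^ M / ξ ^ t / (M * (ε₃ * δ))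
      = (t / M + 2 ^ M / (ξ ^ t * M * δ)) / ε₃ := by
    field_simp
  linarith

end Pool.Agent.P.MP_7badbe_co

end

section


open Finset Filter Topology
open scoped BigOperators

namespace Pool.Agent.P.MP_7badbe_co

variable {V : Type} [Fintype V] [Nonempty V]

/-- fraction of the `m`-subsets of `W` that are hit from `Z` -/
noncomputable def HH (g : Multiset V → Prop) (m : ℕ) (Z W : Multiset V) : ℝ :=
  SS m (fun T => ind (∃ s ∈ Z, g (s ::ₘ T))) W / (W.card.choose m : ℝ)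

noncomputable def Psi (j : ℕ) (q : ℝ) (e m : ℕ) (B : ℝ) (L : Multiset V → Prop)
    (W : Multiset V) : ℝ := ind (m ≤ W.card ∧ Qf j q e L 0 W ≤ B ^ 2)

lemma HH_nonneg (g : Multiset V → Prop) (m : ℕ) (Z W : Multiset V) : 0 ≤ HH g m Z W :=
  div_nonneg (SS_nonneg fun _ _ _ => ind_nonneg _) (Nat.cast_nonneg _)

lemma HH_le_one (g : Multiset V → Prop) (m : ℕ) (Z W : Multiset V) : HH g m Z W ≤ 1 := by
  refine div_le_one_of_le₀ ?_ (Nat.cast_nonneg _)
  have := SS_mono (s := m) (T := W) (F := fun T => ind (∃ s ∈ Z, g (s ::ₘ T)))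
    (G := fun _ => 1) (fun _ _ _ => ind_le_one _)
  rwa [SS_const, mul_one] at this

lemma HH_mono (g : Multiset V → Prop) (m : ℕ) (Z Z' W : Multiset V) :
    HH g m Z W ≤ HH g m (Z + Z') W :=
  div_le_div_of_nonneg_right (SS_mono fun _ _ _ => ind_mono fun ⟨s, hs, h⟩ =>
    ⟨s, Multiset.mem_add.2 (Or.inl hs), h⟩) (Nat.cast_nonneg _)

lemma HH_add (g : Multiset V → Prop) (m : ℕ) (Z Y W : Multiset V) :
    HH g m (Z + Y) W ≤ HH g m Z W + HH g m Y W := by
  unfold HH
  rw [← add_div, ← SS_add]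
  refine div_le_div_of_nonneg_right (SS_mono fun T _ _ => ?_) (Nat.cast_nonneg _)
  by_cases h : ∃ s ∈ Z + Y, g (s ::ₘ T)
  · obtain ⟨s, hs, h⟩ := h
    rcases Multiset.mem_add.1 hs with hs | hs
    · rw [ind_pos (P := ∃ s ∈ Z, g (s ::ₘ T)) ⟨s, hs, h⟩]
      linarith [ind_le_one (∃ s ∈ Z + Y, g (s ::ₘ T)), ind_nonneg (∃ s ∈ Y, g (s ::ₘ T))]
    · rw [ind_pos (P := ∃ s ∈ Y, g (s ::ₘ T)) ⟨s, hs, h⟩]
      linarith [ind_le_one (∃ s ∈ Z + Y, g (s ::ₘ T)), ind_nonneg (∃ s ∈ Z, g (s ::ₘ T))]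
  · rw [ind_neg h]
    exact add_nonneg (ind_nonneg _) (ind_nonneg _)

lemma HH_full {i j m : ℕ} (hi : i + j = m + 1) {g : Multiset V → Prop} (hg : Hit i m g)
    {S W : Multiset V} (hS : S.card = i) (hW : IndT j (fun J => g (S + J)) W) (hm : m ≤ W.card) :
    1 ≤ HH g m S W := by
  have h0 : (0 : ℝ) < W.card.choose m := by exact_mod_cast Nat.choose_pos hm
  unfold HH
  rw [le_div_iff₀ h0, one_mul]
  have := SS_mono (s := m) (T := W) (G := fun T => ind (∃ s ∈ S, g (s ::ₘ T)))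
    (F := fun _ => 1) (fun T hT hc => by
      rcases hg S T hS hc with ⟨J, hJ, h1, h2⟩ | h
      · exact absurd h2 (hW J (hJ.trans hT) (by omega))
      · exact (ind_pos h).ge)
  rwa [SS_const, mul_one] at this

lemma HH_null {q : ℝ} (h0 : 0 ≤ q) (h1 : q ≤ 1) (g : Multiset V → Prop) (m z n : ℕ) {δ : ℝ}
    (hδ : Ex (m + 1) (fun M => ind (g M)) ≤ δ) :
    Ex z (fun Z => En q n 0 (fun W => HH g m Z W ^ 2)) ≤ z * δ := by
  have hδ0 : 0 ≤ δ := (Ex_nonneg fun _ _ => ind_nonneg _).trans hδ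
  rw [En_Ex]
  refine En_le h0 h1 n (fun N => ?_)
  rw [Ex_comm]
  have h2 : ∀ Z : Multiset V, Ex N (fun W => HH g m Z W ^ 2)
      ≤ Ex m (fun T => (Z.map (fun s => ind (g (s ::ₘ T)))).sum) := by
    intro Z
    have h3 : Ex N (fun W => HH g m Z W ^ 2)
        ≤ Ex N (fun W => (N.choose m : ℝ)⁻¹ * SS m (fun T => ind (∃ s ∈ Z, g (s ::ₘ T))) W) := by
      refine Ex_mono fun W hW => ?_
      have := HH_nonneg g m Z W
      have := HH_le_one g m Z W
      calc HH g m Z W ^ 2 ≤ HH g m Z W := by nlinarith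
        _ = _ := by unfold HH; rw [hW, div_eq_inv_mul]
    rw [Ex_mul, Ex_SS, ← mul_assoc] at h3
    have h4 : Ex m (fun T => ind (∃ s ∈ Z, g (s ::ₘ T)))
        ≤ Ex m (fun T => (Z.map (fun s => ind (g (s ::ₘ T)))).sum) :=
      Ex_mono fun T _ => ind_le_mapsum (fun s => g (s ::ₘ T)) Z
    have h5 : 0 ≤ Ex m (fun T => ind (∃ s ∈ Z, g (s ::ₘ T))) := Ex_nonneg fun _ _ => ind_nonneg _
    have h6 : (N.choose m : ℝ)⁻¹ * (N.choose m : ℝ) ≤ 1 := inv_mul_le_one_of_le₀ le_rfl
      (Nat.cast_nonneg _)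
    nlinarith
  refine (Ex_mono fun Z _ => h2 Z).trans ?_
  rw [Ex_self_mapsum]
  exact mul_le_mul_of_nonneg_left hδ (Nat.cast_nonneg _)

section
variable {j e m n : ℕ} {q B d : ℝ} {L : Multiset V → Prop}

lemma Mas_nu_mono (h0 : 0 ≤ q) (h1 : q < 1) {F G : Multiset V → ℝ} (h : ∀ W, F W ≤ G W) :
    nu1 q (rhoL j q e L) n 0 F ≤ nu1 q (rhoL j q e L) n 0 G :=
  nu1_mono h0 h1 (rhoL_mem h0) (fun _ => True) (fun _ _ _ _ _ => trivial) n trivial
    (fun W _ => h W)

lemma Mas_good (hj : 2 ≤ j) (h0 : 0 ≤ q) (h1 : q < 1) (hm : (m : ℝ) < n * q) (hB : 0 < B)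
    (hd : Ex j (fun J => ind (L J)) ≤ d)
    (c1 : 8 * (√(n * q) + j * (((n + e).choose j : ℝ) * q ^ j * d)) ≤ n * q - m)
    (c2 : 40 * j ^ 2 * (((n + e).choose j : ℝ) * q ^ j * d) ≤ B ^ 2) :
    3 / 4 ≤ nu1 q (rhoL j q e L) n 0 (Psi j q e m B L) := by
  have hh : 0 ≤ ((n + e).choose j : ℝ) * q ^ j := by positivity
  have hd' := mul_le_mul_of_nonneg_left hd hh
  have a1 := count_dev (V := V) (e := e) (L := L) (show 1 ≤ j by omega) h0 h1 n
  have a2 := Q_moment (V := V) (e := e) (L := L) hj h0 h1 n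
  have hm' : 0 < n * q - m := by linarith
  have hB2 : 0 < B ^ 2 := by positivity
  have a3 : nu1 q (rhoL j q e L) n 0 (fun _ => 1) ≤ nu1 q (rhoL j q e L) n 0 (fun W =>
      Psi j q e m B L W + ((n * q - m)⁻¹ * |n * q - W.card| + (B ^ 2)⁻¹ * Qf j q e L 0 W)) := by
    refine Mas_nu_mono h0 h1 fun W => ?_
    have b1 : 0 ≤ (n * q - m)⁻¹ * |n * q - W.card| := by positivity
    have b2 : 0 ≤ (B ^ 2)⁻¹ * Qf j q e L 0 W := mul_nonneg (by positivity) (Qf_nonneg _ _)
    have b3 : 0 ≤ Psi j q e m B L W := ind_nonneg _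
    by_cases k1 : m ≤ W.card
    · by_cases k2 : Qf j q e L 0 W ≤ B ^ 2
      · have : Psi j q e m B L W = 1 := ind_pos ⟨k1, k2⟩
        linarith
      · have : 1 ≤ (B ^ 2)⁻¹ * Qf j q e L 0 W := by
          rw [← div_eq_inv_mul, le_div_iff₀ hB2]; linarith [not_le.1 k2]
        linarith
    · have k3 : (W.card : ℝ) ≤ m := by exact_mod_cast (not_le.1 k1).le
      have : 1 ≤ (n * q - m)⁻¹ * |n * q - W.card| := by
        rw [← div_eq_inv_mul, le_div_iff₀ hm']; linarith [le_abs_self (n * q - W.card)]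
      linarith
  rw [nu1_const h1, nu1_add, nu1_add, nu1_mul, nu1_mul] at a3
  have hj0 : (0 : ℝ) ≤ j := Nat.cast_nonneg _
  have a4 : (n * q - m)⁻¹ * nu1 q (rhoL j q e L) n 0 (fun W => |n * q - W.card|) ≤ 1 / 8 := by
    rw [← div_eq_inv_mul, div_le_iff₀ hm']
    nlinarith [mul_le_mul_of_nonneg_left hd' hj0]
  have a5 : (B ^ 2)⁻¹ * nu1 q (rhoL j q e L) n 0 (Qf j q e L 0) ≤ 1 / 8 := by
    rw [← div_eq_inv_mul, div_le_iff₀ hB2]
    nlinarith [mul_le_mul_of_nonneg_left hd' (show (0 : ℝ) ≤ 5 * j ^ 2 by positivity)]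
  have a6 : nu1 q (rhoL j q e L) n 0 (fun W => Psi j q e m B L W)
      = nu1 q (rhoL j q e L) n 0 (Psi j q e m B L) := rfl
  have a7 : nu1 q (rhoL j q e L) n 0 (fun W => Qf j q e L 0 W)
      = nu1 q (rhoL j q e L) n 0 (Qf j q e L 0) := rfl
  linarith

lemma Mas_pair (hj : 2 ≤ j) (h0 : 0 < q) (h5 : Real.exp 5 * q ≤ 1) (he : 1 ≤ e)
    (hlam : 1 ≤ n * q) (hB : 0 < B) {η D b : ℝ} (hη : 0 < η) (hb : 1 ≤ b)
    {L' bad : Multiset V → Prop}
    (hd : Ex j (fun J => ind (L J)) ≤ d) (hd' : Ex j (fun J => ind (L' J)) ≤ d)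
    (c1 : ∀ r, 1 ≤ r → r < j → 5 * (n * q) ^ r ≤ D * ((e.choose r : ℝ) * q ^ r))
    (c2 : (n * q) ^ j * d < D) (c3 : 4 * j * (n / e * B) ≤ b)
    (c4 : Real.exp b * (2 * j * Real.exp 5 ^ (2 * j) * η * (n * q) ^ j * d) ≤ 1 / 2) :
    nu2 q (rhoL j q e L) (rhoL j q e L') n 0 (fun W => Psi j q e m B L W * Psi j q e m B L' W)
      ≤ 2 * Real.exp b * Real.exp (n * q ^ 2 / (1 - q)) *
        Real.exp (((n + e).choose j : ℝ) * q ^ j * GG j (gP j (n * q) η D L L' bad) 0
          + ((n + e).choose j : ℝ) * q ^ j * GG j (gP j (n * q) η D L' L bad) 0) := by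
  have e5 : 1 < Real.exp 5 := Real.one_lt_exp_iff.2 (by norm_num)
  have h1 : q < 1 := by nlinarith
  have hl0 : 0 < n * q := by linarith
  have ha := abar_nonneg j hl0.le η L L'
  set R := ⌈n * q⌉₊
  have a1 : nu2 q (rhoL j q e L) (rhoL j q e L') n 0
      (fun W => Psi j q e m B L W * Psi j q e m B L' W)
      ≤ nu2 q (rhoL j q e L) (rhoL j q e L') n 0 (fun W =>
        Real.exp (-(n * q * cr j (n * q) η L L' W)) * FF (abar j (n * q) η L L') b R W) := by
    refine nu2_mono h0.le h1 (rhoL_mem h0.le) (rhoL_mem h0.le) n fun W _ => ?_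
    unfold Psi
    rw [← ind_and]
    by_cases k : (m ≤ W.card ∧ Qf j q e L 0 W ≤ B ^ 2) ∧ m ≤ W.card ∧ Qf j q e L' 0 W ≤ B ^ 2
    · rw [ind_pos k, Real.exp_neg, ← div_eq_inv_mul, le_div_iff₀ (Real.exp_pos _), one_mul]
      exact deletion hj hl0.le (by positivity) hb c3 (Nat.le_ceil _)
        (cap_of_Q hj h0 he n hB.le k.1.2) (cap_of_Q hj h0 he n hB.le k.2.2)
    · rw [ind_neg k]
      exact mul_nonneg (Real.exp_pos _).le (FF_nonneg ha _ _ _)
  have a2 := pair_bound (bad := bad) (η := η) (show 1 ≤ j by omega) h0.le h5 hl0 c1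
    (FF_nonneg ha b R) (FF_cons ha b R) n (noforb_nil hl0.le hd c2) (noforb_nil hl0.le hd' c2)
  have a3 := En_FF (by positivity) h5 n ha
    (cross_mass (show 1 ≤ j by omega) h0.le e5.le h5 hlam hη.le hd hd') c4 R
  rw [Pot_nil (by omega), Pot_nil (by omega), Real.exp_add] at a2
  refine a1.trans (a2.trans ((mul_le_mul_of_nonneg_left a3 (by positivity)).trans (le_of_eq ?_)))
  ring

end

/-- half of the hits come from the larger part -/
lemma Mas_swap {y z : ℕ} (hyz : y ≤ z) (A : Multiset V → Multiset V → ℝ)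
    (hA : ∀ S Z Z', A S Z ≤ A S (Z + Z')) :
    Ex z (fun Z => Ex y (fun Y => A (Z + Y) Y)) ≤ Ex z (fun Z => Ex y (fun Y => A (Z + Y) Z)) := by
  obtain ⟨w, rfl⟩ := Nat.exists_eq_add_of_le hyz
  rw [Ex_split, Ex_split]
  have h1 : Ex y (fun Z1 => Ex w (fun Z2 => Ex y (fun Y => A (Z1 + Z2 + Y) Y)))
      = Ex y (fun Y => Ex w (fun Z2 => Ex y (fun Z1 => A (Z1 + Z2 + Y) Y))) := by
    rw [Ex_comm]
    simp only [Ex_comm y y (fun Z1 Y => A (Z1 + _ + Y) Y)]
    rw [Ex_comm]
  rw [h1]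
  refine Ex_mono fun Y _ => Ex_mono fun Z2 _ => Ex_mono fun Z1 _ => ?_
  rw [show Z1 + Z2 + Y = Y + Z2 + Z1 by abel]
  exact hA _ _ _

theorem master {i j m : ℕ} (hj : 2 ≤ j) (hi : i + j = m + 1) {δ : ℝ} (hP : Par j m δ)
    (g : Multiset V → Prop) (hg : Hit i m g) : δ < Ex (m + 1) (fun M => ind (g M)) := by
  obtain ⟨y, z, n, e, M, t, q, eps, ξ, η, D, B, b, ε₃, Λ, p1, p2, p3, p4, p5, p6, p7, p8, p9, p10,
    p11, p12, p13, p14, p15, p16, p17, c1, c2, c3, c4, c5, c6, c7, c8, c9, c10⟩ := hP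
  by_contra hδ
  rw [not_lt] at hδ
  have e5 : 1 < Real.exp 5 := Real.one_lt_exp_iff.2 (by norm_num)
  have h1 : q < 1 := by nlinarith
  set d := (1 + eps) * δ with hd
  set p0 := eps / (1 + eps) with hp0
  have hd0 : 0 < d := by positivity
  have hp00 : 0 < p0 := by positivity
  have hiz : z + y = i := by omega
  -- the planted masses
  set A : Multiset V → Multiset V → ℝ := fun S Z => ind (Ex j (fun J => ind (g (S + J))) ≤ d) *
    nu1 q (rhoL j q e (fun J => g (S + J))) n 0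
      (fun W => Psi j q e m B (fun J => g (S + J)) W * HH g m Z W) with hA
  have hPsi0 : ∀ (L : Multiset V → Prop) W, 0 ≤ Psi j q e m B L W := fun _ _ => ind_nonneg _
  have hPsi1 : ∀ (L : Multiset V → Prop) W, Psi j q e m B L W ≤ 1 := fun _ _ => ind_le_one _
  have A1 : ∀ S Z Z', A S Z ≤ A S (Z + Z') := fun S Z Z' =>
    mul_le_mul_of_nonneg_left (Mas_nu_mono p6.le h1 fun W =>
      mul_le_mul_of_nonneg_left (HH_mono _ _ _ _ _) (hPsi0 _ _)) (ind_nonneg _)
  have A2 : ∀ S Z Y, A S (Z + Y) ≤ A S Z + A S Y := fun S Z Y => by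
    simp only [hA]
    rw [← mul_add, ← nu1_add]
    refine mul_le_mul_of_nonneg_left (Mas_nu_mono p6.le h1 fun W => ?_) (ind_nonneg _)
    rw [← mul_add]
    exact mul_le_mul_of_nonneg_left (HH_add _ _ _ _ _) (hPsi0 _ _)
  have A3 : ∀ S : Multiset V, S.card = i →
      3 / 4 * (1 - ind (d < Ex j (fun J => ind (g (S + J))))) ≤ A S S := fun S hS => by
    simp only [hA]
    by_cases k : Ex j (fun J => ind (g (S + J))) ≤ d
    · rw [ind_pos k, ind_neg (not_lt.2 k), one_mul, sub_zero, mul_one]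
      refine (Mas_good (m := m) hj p6.le h1 p8 p15 k c3 c4).trans ?_
      refine nu1_mono p6.le h1 (rhoL_mem p6.le) (IndT j (fun J => g (S + J)))
        (fun _ _ _ hT hx => indT_step (by omega) hT hx) n (fun J hJ hc => ?_) (fun W hW => ?_)
      · rw [Multiset.le_zero.1 hJ] at hc
        simp at hc; omega
      · unfold Psi
        by_cases k2 : m ≤ W.card ∧ Qf j q e (fun J => g (S + J)) 0 W ≤ B ^ 2
        · rw [ind_pos k2, one_mul]; exact HH_full hi hg hS hW k2.1
        · rw [ind_neg k2, zero_mul]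
    · rw [ind_neg k, ind_pos (not_le.1 k)]; simp
  have A4 : 3 / 4 * p0 ≤ Ex z (fun Z => Ex y (fun Y => A (Z + Y) (Z + Y))) := by
    rw [← Ex_split z y (fun S => A S S), hiz]
    refine le_trans ?_ (Ex_mono A3)
    rw [Ex_mul, Ex_sub, Ex_const]
    have k1 := Ex_markov (m := i) (F := fun S : Multiset V => Ex j (fun J => ind (g (S + J))))
      (fun _ => Ex_nonneg fun _ _ => ind_nonneg _) hd0
    rw [← Ex_split i j (fun M => ind (g M)), hi] at k1
    have k2 : Ex (m + 1) (fun M => ind (g M)) / d ≤ 1 - p0 := by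
      rw [div_le_iff₀ hd0, hp0, hd]
      have : (1 - eps / (1 + eps)) * ((1 + eps) * δ) = δ := by field_simp; ring
      linarith
    linarith
  have A5 : 3 / 8 * p0 ≤ Ex z (fun Z => Ex y (fun Y => A (Z + Y) Z)) := by
    have k1 : Ex z (fun Z => Ex y (fun Y => A (Z + Y) (Z + Y)))
        ≤ Ex z (fun Z => Ex y (fun Y => A (Z + Y) Z))
          + Ex z (fun Z => Ex y (fun Y => A (Z + Y) Y)) := by
      rw [← Ex_add]
      refine Ex_mono fun Z _ => ?_
      rw [← Ex_add]
      exact Ex_mono fun Y _ => A2 _ _ _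
    linarith [Mas_swap p2 A A1]
  -- good splits
  set bad : Multiset V → Multiset V → Prop := fun Z J =>
    ξ ^ 2 * δ < Ex y (fun Y' => ind (g (Z + Y' + J))) with hbad
  set ok : Multiset V → Multiset V → Prop := fun Z Y =>
    Ex j (fun J => ind (g (Z + Y + J))) ≤ d ∧
      Ex j (fun J => ind (g (Z + Y + J)) * ind (bad Z J)) ≤ ε₃ * δ with hok
  set Φ : Multiset V → Multiset V → Multiset V → ℝ := fun Z Y W =>
    ind (ok Z Y) * Psi j q e m B (fun J => g (Z + Y + J)) W with hΦ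
  have B1 : p0 / 4 ≤ Ex z (fun Z => Ex y (fun Y => nu1 q (rhoL j q e (fun J => g (Z + Y + J))) n 0
      (fun W => Φ Z Y W * HH g m Z W))) := by
    have k1 := bad_split (t := t) p4 p5 p10 p12 p17 g (by rw [p1]; exact hδ)
    have k2 : Ex z (fun Z => Ex y (fun Y => A (Z + Y) Z)) ≤ Ex z (fun Z => Ex y (fun Y =>
        nu1 q (rhoL j q e (fun J => g (Z + Y + J))) n 0 (fun W => Φ Z Y W * HH g m Z W)))
        + Ex z (fun Z => Ex y (fun Y => ind (ε₃ * δ < Ex j (fun J => ind (g (Z + Y + J))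
          * ind (bad Z J))))) := by
      rw [← Ex_add]
      refine Ex_mono fun Z _ => ?_
      rw [← Ex_add]
      refine Ex_mono fun Y _ => ?_
      simp only [hA, hΦ, mul_assoc]
      rw [nu1_mul]
      have k3 : nu1 q (rhoL j q e (fun J => g (Z + Y + J))) n 0
          (fun W => Psi j q e m B (fun J => g (Z + Y + J)) W * HH g m Z W) ≤ 1 := by
        rw [← nu1_const (V := V) (ρ := rhoL j q e (fun J => g (Z + Y + J))) h1 n 0 1]
        exact Mas_nu_mono p6.le h1 fun W =>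
          mul_le_one₀ (hPsi1 _ _) (HH_nonneg _ _ _ _) (HH_le_one _ _ _ _)
      have k4 : 0 ≤ nu1 q (rhoL j q e (fun J => g (Z + Y + J))) n 0
          (fun W => Psi j q e m B (fun J => g (Z + Y + J)) W * HH g m Z W) := by
        rw [← nu1_const (V := V) (ρ := rhoL j q e (fun J => g (Z + Y + J))) h1 n 0 0]
        exact Mas_nu_mono p6.le h1 fun W => mul_nonneg (hPsi0 _ _) (HH_nonneg _ _ _ _)
      by_cases k5 : Ex j (fun J => ind (g (Z + Y + J))) ≤ d
      · by_cases k6 : Ex j (fun J => ind (g (Z + Y + J)) * ind (bad Z J)) ≤ ε₃ * δ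
        · rw [ind_pos k5, ind_pos (P := ok Z Y) ⟨k5, k6⟩]
          linarith [ind_nonneg (ε₃ * δ < Ex j (fun J => ind (g (Z + Y + J)) * ind (bad Z J)))]
        · rw [ind_pos k5, ind_pos (not_le.1 k6)]
          nlinarith [ind_nonneg (ok Z Y)]
      · rw [ind_neg k5, zero_mul]
        exact add_nonneg (mul_nonneg (ind_nonneg _) k4) (ind_nonneg _)
    linarith
  -- second moment
  set h := ((n + e).choose j : ℝ) * q ^ j with hh
  have hh0 : 0 ≤ h := by positivity
  set Bd := 2 * Real.exp b * Real.exp (n * q ^ 2 / (1 - q))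
      * (Real.exp (h * d / 3 + 2 * (h * (ε₃ * δ)) / 3)
        * (1 + ξ ^ 2 * (Λ / (n * q)) ^ j * (2 ^ (2 * j + 1) * D / η) ^ j)) with hBd
  have hD0 : 0 < D := p13.trans_le p14
  have hΛ0 : 0 < Λ := by linarith
  have hl0 : 0 < n * q := by linarith
  have hBd0 : 0 < Bd := by positivity
  have B2 : ∀ Z, Ex y (fun Y => Ex y (fun Y' => nu2 q (rhoL j q e (fun J => g (Z + Y + J)))
      (rhoL j q e (fun J => g (Z + Y' + J))) n 0 (fun W => Φ Z Y W * Φ Z Y' W))) ≤ Bd := by
    intro Z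
    have k1 := start_bound (y := y) (show 1 ≤ j by omega) (η := η) (D := D) (β := ε₃ * δ) p9 hh0 hd0
      (show 0 ≤ ξ ^ 2 * δ by positivity) c8 c9 (fun Y J => g (Z + Y + J)) (bad Z)
      (fun J _ hJ => not_lt.1 hJ) (fun Y => cover p9 p13 p14 _) (ok Z) (fun Y hY => hY)
    have k2 : ξ ^ 2 * δ / d ≤ ξ ^ 2 := by
      rw [div_le_iff₀ hd0, hd]
      have : 0 ≤ ξ ^ 2 * (eps * δ) := by positivity
      nlinarith
    have k3 : Real.exp (h * d / 3 + 2 * (h * (ε₃ * δ)) / 3)
        * (1 + ξ ^ 2 * δ / d * (Λ / (n * q)) ^ j * (2 ^ (2 * j + 1) * D / η) ^ j)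
        ≤ Real.exp (h * d / 3 + 2 * (h * (ε₃ * δ)) / 3)
        * (1 + ξ ^ 2 * (Λ / (n * q)) ^ j * (2 ^ (2 * j + 1) * D / η) ^ j) := by
      gcongr
    refine le_trans ?_ (mul_le_mul_of_nonneg_left (k1.trans k3) (by positivity))
    rw [← Ex_mul]
    refine Ex_mono fun Y _ => ?_
    rw [← Ex_mul]
    refine Ex_mono fun Y' _ => ?_
    have k4 : (fun W => Φ Z Y W * Φ Z Y' W) = fun W => ind (ok Z Y) * ind (ok Z Y') *
        (Psi j q e m B (fun J => g (Z + Y + J)) W * Psi j q e m B (fun J => g (Z + Y' + J)) W) := by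
      funext W; simp only [hΦ]; ring
    rw [k4, nu2_mul, ← ind_and]
    by_cases k5 : ok Z Y ∧ ok Z Y'
    · rw [ind_pos k5, one_mul, one_mul]
      exact Mas_pair hj p6 p7 p3 p9 p15 p13 p16 k5.1.1 k5.2.1 c1 c2 c5 c6
    · rw [ind_neg k5]; simp
  have ht : 0 < p0 / 4 / Bd := by positivity
  have B3 : Ex z (fun Z => Ex y (fun Y => nu1 q (rhoL j q e (fun J => g (Z + Y + J))) n 0
      (fun W => Φ Z Y W * HH g m Z W)))
      ≤ p0 / 4 / Bd / 2 * Bd + 1 / (2 * (p0 / 4 / Bd)) * (z * δ) := by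
    refine le_trans (Ex_mono (G := fun Z => p0 / 4 / Bd / 2 * Bd + 1 / (2 * (p0 / 4 / Bd))
      * En q n 0 (fun W => HH g m Z W ^ 2)) fun Z _ => ?_) ?_
    · refine (amgm p6.le h1 (fun Y => rhoL j q e (fun J => g (Z + Y + J))) (Φ Z) (HH g m Z) y n
        ht).trans ?_
      gcongr
      exact B2 Z
    · rw [Ex_add, Ex_const, Ex_mul]
      gcongr
      exact HH_null p6.le h1.le g m z n hδ
  have B4 : p0 / 4 / Bd / 2 * Bd = p0 / 8 := by field_simp; ring
  have B5 : 1 / (2 * (p0 / 4 / Bd)) * (z * δ) = z * δ * Bd * (2 / p0) := by field_simp; ring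
  have B6 : z * δ * Bd * (2 / p0) < (p0 / 4) ^ 2 * (2 / p0) :=
    mul_lt_mul_of_pos_right c10 (by positivity)
  have B7 : (p0 / 4) ^ 2 * (2 / p0) = p0 / 8 := by field_simp; ring
  linarith

end Pool.Agent.P.MP_7badbe_co

end
end

-- part Pool.Agent.P.MP_7badbe_co.Gr.A
section

set_option autoImplicit false
set_option linter.unusedSectionVars false

open Finset Filter Topology
open scoped BigOperators

namespace Pool.Agent.P.MP_7badbe_co

variable {V : Type} [Fintype V] [Nonempty V]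

noncomputable def rho1 (D : ℝ) : ℝ := max (max (1 - 12 / 25 * D) (3 / 4 - 6 / 25 * D)) 0

/-- acceptance probability of the planted process -/
noncomputable def rhoG (j : ℕ) (q : ℝ) (e : ℕ) (L : Multiset V → Prop) (n : ℕ)
    (T : Multiset V) (x : V) : ℝ :=
  if 0 < rel j (gL L) T x then 0 else rho1 (jump j q e (gL L) n T x)

lemma rho1_nonneg (D : ℝ) : 0 ≤ rho1 D := le_max_right _ _

lemma rho1_le_one {D : ℝ} (hD : 0 ≤ D) : rho1 D ≤ 1 := by
  refine max_le (max_le ?_ ?_) zero_le_one <;> linarith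

lemma rho1_a (D : ℝ) : 1 - rho1 D ≤ 12 / 25 * D := by
  have h : 1 - 12 / 25 * D ≤ rho1 D := (le_max_left _ _).trans (le_max_left _ _)
  linarith

lemma rho1_b (D : ℝ) : 1 - rho1 D ≤ 1 / 4 + 6 / 25 * D := by
  have h : 3 / 4 - 6 / 25 * D ≤ rho1 D := (le_max_right _ _).trans (le_max_left _ _)
  linarith

lemma rho1_exp : Real.exp (43 / 16) ≤ 61 / 4 := by
  refine le_of_pow_le_pow_left₀ (n := 16) (by norm_num) (by norm_num) ?_
  have h1 : Real.exp (43 / 16) ^ 16 = Real.exp 1 ^ 43 := by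
    rw [← Real.exp_nat_mul, ← Real.exp_nat_mul]
    congr 1
    norm_num
  rw [h1]
  exact (pow_le_pow_left₀ (Real.exp_pos 1).le Real.exp_one_lt_d9.le 43).trans (by norm_num)

lemma rho1_main {D y : ℝ} (hD : 0 ≤ D) (h1 : 12 / 25 * D ≤ y) (h2 : y ≤ 3 / 2 * D) :
    rho1 D ^ 2 * Real.exp y + 1 ≤ 2 * rho1 D + y := by
  obtain ⟨x, hx⟩ : ∃ x, x = 6 / 25 * D := ⟨_, rfl⟩
  have hx0 : 0 ≤ x := by rw [hx]; positivity
  suffices h : rho1 D ^ 2 * Real.exp (2 * x) ≤ 2 * rho1 D - 1 + 1 * (2 * x) ∧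
      rho1 D ^ 2 * Real.exp (25 / 4 * x) ≤ 2 * rho1 D - 1 + 1 * (25 / 4 * x) by
    have := Rho_chord (x := y) (by linarith) (by linarith) (sq_nonneg _) h.1 h.2
    linarith
  rcases le_total x (1 / 4) with hx1 | hx1
  · have e : rho1 D = 1 - 2 * x := by
      rw [rho1, max_eq_left (a := 1 - 12 / 25 * D) (by linarith), max_eq_left (by linarith)]
      linarith
    rw [e]
    constructor
    · have a1 := Rho_one_sub (2 * x)
      have a2 := mul_le_mul_of_nonneg_left a1 (show 0 ≤ 1 - 2 * x by linarith)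
      nlinarith
    · have a1 := Real.exp_bound' (x := 25 / 8 * x) (by linarith) (by linarith) (n := 3)
        (by norm_num)
      simp only [Finset.sum_range_succ, Finset.sum_range_zero, Nat.factorial] at a1
      norm_num at a1
      have a2 := mul_le_mul_of_nonneg_left a1 (show 0 ≤ 1 - 2 * x by linarith)
      have p2 : 0 ≤ x ^ 2 := sq_nonneg x
      have p3 : 0 ≤ x ^ 3 := by positivity
      have p4 : 0 ≤ x ^ 4 := by positivity
      have a3 : (1 - 2 * x) * Real.exp (25 / 8 * x) ≤ 1 + 9 / 8 * x - 4 / 3 * x ^ 2 := by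
        nlinarith
      have a4 : 0 ≤ (1 - 2 * x) * Real.exp (25 / 8 * x) :=
        mul_nonneg (by linarith) (Real.exp_pos _).le
      have a5 := pow_le_pow_left₀ a4 a3 2
      have e2 : (1 - 2 * x) ^ 2 * Real.exp (25 / 4 * x)
          = ((1 - 2 * x) * Real.exp (25 / 8 * x)) ^ 2 := by
        rw [mul_pow, ← Real.exp_nat_mul]
        congr 2
        push_cast
        ring
      rw [e2]
      have p5 : x ^ 4 ≤ x ^ 3 := pow_le_pow_of_le_one hx0 (by linarith) (by norm_num)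
      nlinarith
  · rcases le_total x (3 / 4) with hx3 | hx3
    · have e : rho1 D = 3 / 4 - x := by
        rw [rho1, max_eq_right (b := 3 / 4 - 6 / 25 * D) (by linarith), max_eq_left (by linarith)]
        linarith
      rw [e]
      constructor
      · have a1 := Rho_one_sub x
        have a0 := Real.exp_pos x
        have a2 : (3 / 4 - x) * Real.exp x ≤ 2 / 3 := by nlinarith
        have a4 : 0 ≤ (3 / 4 - x) * Real.exp x := mul_nonneg (by linarith) a0.le
        have a5 := pow_le_pow_left₀ a4 a2 2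
        have e2 : (3 / 4 - x) ^ 2 * Real.exp (2 * x) = ((3 / 4 - x) * Real.exp x) ^ 2 := by
          rw [mul_pow, ← Real.exp_nat_mul]
          congr 2
        rw [e2]
        linarith
      · have a1 := Rho_sq (t := 25 / 8 * x - 43 / 32) (s := 43 / 16) (by linarith)
        have e1 : 2 * (25 / 8 * x - 43 / 32) + 43 / 16 = 25 / 4 * x := by ring
        rw [e1] at a1
        have e2 : (3 / 4 - x) ^ 2 * Real.exp (25 / 4 * x)
            = 64 / 625 * ((1 - (25 / 8 * x - 43 / 32)) ^ 2 * Real.exp (25 / 4 * x)) := by ring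
        rw [e2]
        linarith [rho1_exp]
    · have e : rho1 D = 0 := max_eq_right (max_le (by linarith) (by linarith))
      rw [e]
      constructor <;> nlinarith

lemma rho1_pair {D D' y : ℝ} (hD : 0 ≤ D) (hD' : 0 ≤ D') (h1 : 6 / 25 * (D + D') ≤ y)
    (h2 : y ≤ 3 / 4 * (D + D')) :
    rho1 D * rho1 D' * Real.exp y + 1 ≤ rho1 D + rho1 D' + y := by
  obtain ⟨c, c1, c2, hc⟩ : ∃ c : ℝ, 6 / 25 ≤ c ∧ c ≤ 3 / 4 ∧ y = c * D + c * D' := by
    rcases (add_nonneg hD hD').eq_or_lt with h | h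
    · refine ⟨1 / 2, by norm_num, by norm_num, ?_⟩
      rw [← h] at h1 h2
      linarith
    · refine ⟨y / (D + D'), ?_, ?_, ?_⟩
      · rwa [le_div_iff₀ h]
      · rwa [div_le_iff₀ h]
      · field_simp
  have m1 := rho1_main (y := c * D + c * D) hD (by nlinarith) (by nlinarith)
  have m2 := rho1_main (y := c * D' + c * D') hD' (by nlinarith) (by nlinarith)
  rw [Real.exp_add] at m1 m2
  rw [hc, Real.exp_add]
  nlinarith [sq_nonneg (rho1 D * Real.exp (c * D) - rho1 D' * Real.exp (c * D'))]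

variable {j e : ℕ} {q : ℝ} {L : Multiset V → Prop}

lemma rhoG_mem (hq : 0 ≤ q) (n : ℕ) (T : Multiset V) (x : V) :
    0 ≤ rhoG j q e L n T x ∧ rhoG j q e L n T x ≤ 1 := by
  unfold rhoG
  split_ifs
  · exact ⟨le_rfl, zero_le_one⟩
  · exact ⟨rho1_nonneg _, rho1_le_one (jump_nonneg hq (Nu_gL_nonneg L) n T x)⟩

lemma one_sub_rhoG (hq : 0 ≤ q) (n : ℕ) (T : Multiset V) (x : V) :
    1 - rhoG j q e L n T x ≤ jump j q e (gL L) n T x + rel j (gL L) T x := by
  have h1 := jump_nonneg (j := j) (e := e) hq (Nu_gL_nonneg L) n T x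
  have h2 := rel_nonneg (j := j) (Nu_gL_nonneg L) T x
  unfold rhoG
  split_ifs with h
  · have := (rel_gL_pos h).1
    linarith
  · have := rho1_a (jump j q e (gL L) n T x)
    linarith

lemma indT_stepG (hj : 1 ≤ j) {n : ℕ} {T : Multiset V} {x : V} (hT : IndT j L T)
    (h : rhoG j q e L n T x ≠ 0) : IndT j L (x ::ₘ T) := by
  intro J hJ hc hL
  rcases Nu_le_cons hJ with h1 | ⟨w, hw, rfl⟩
  · exact hT J h1 hc hL
  · have h2 : w.card = j - 1 := by
      rw [Multiset.card_cons] at hc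
      omega
    have h3 : gL L w x ≤ rel j (gL L) T x :=
      le_SS (F := fun ω => gL L ω x) (fun ω => Nu_gL_nonneg L ω x) hw h2
    rw [gL, ind_pos hL] at h3
    exact h (if_pos (by linarith))

/-- the number of accepted points is close to its null mean -/
theorem count_devG (hj : 1 ≤ j) (h0 : 0 ≤ q) (h1 : q < 1) (n : ℕ) :
    nu1 q (rhoG j q e L) n 0 (fun T => |n * q - T.card|)
      ≤ √(n * q) + j * (((n + e).choose j : ℝ) * q ^ j * Ex j (fun J => ind (L J))) := by
  have hρ := rhoG_mem (j := j) (e := e) (L := L) h0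
  have key := nu1_le h0 h1 hρ
    (fun m T => √((n * q - m * q - T.card) ^ 2 + m * q) + PotW j q e (gL L) m T) (by
      intro m T
      have h2 := PotW_step (e := e) hj h0 (Nu_gL_nonneg L) m T (rhoG j q e L m T) (hρ m T)
      set a := 𝔼 x, (1 - rhoG j q e L m T x) with ha
      have ha0 : 0 ≤ a := expect_nonneg fun x _ => by linarith [(hρ m T x).2]
      have ha1 : a ≤ 𝔼 x, (jump j q e (gL L) m T x + rel j (gL L) T x) :=
        expect_le_expect fun x _ => one_sub_rhoG h0 m T x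
      have ha2 : 𝔼 x, rhoG j q e L m T x = 1 - a := by
        rw [ha, expect_sub_distrib, expect_const univ_nonempty]
        ring
      have h3 := Nu_real (D := n * q - (m + 1) * q - T.card) (c := m * q) h0 h1.le ha0
        (by positivity)
      have e1 : (n * q - (m + 1) * q - T.card + q : ℝ) - 1
          = n * q - m * q - (T.card + 1) := by ring
      have e2 : (n * q - (m + 1) * q - T.card + q : ℝ) = n * q - m * q - T.card := by ring
      have e3 : (m * q + q : ℝ) = (m + 1) * q := by ring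
      rw [e1, e2, e3] at h3
      simp only [Multiset.card_cons, Nat.cast_add, Nat.cast_one, mul_add _ (√_),
        expect_add_distrib, ← expect_mul, ha2]
      have h4 := mul_le_mul_of_nonneg_left ha1 h0
      linarith) n 0
  refine le_trans (nu1_mono h0 h1 hρ (fun _ => True) (fun _ _ _ _ _ => trivial) n trivial
    fun W _ => ?_) (key.trans (le_of_eq ?_))
  · have := PotW_nonneg (j := j) (e := e) h0 (Nu_gL_nonneg L) 0 W
    simp only [Nat.cast_zero, zero_mul, sub_zero, add_zero, Real.sqrt_sq_eq_abs]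
    linarith
  · rw [PotW_nil hj, GG_gL L (show (0 : Multiset V).card < j from hj)]
    simp

/-- the potential is a supermartingale of the planted process -/
theorem pot_mean (hj : 1 ≤ j) (h0 : 0 ≤ q) (h1 : q < 1) (n : ℕ) :
    nu1 q (rhoG j q e L) n 0 (Pot j q e (gL L) 0)
      ≤ ((n + e).choose j : ℝ) * q ^ j * Ex j (fun J => ind (L J)) := by
  have hρ := rhoG_mem (j := j) (e := e) (L := L) h0
  have key := nu1_le h0 h1 hρ (fun m T => Pot j q e (gL L) m T) (by
    intro m T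
    have h2 : 𝔼 x, rhoG j q e L m T x * Pot j q e (gL L) m (x ::ₘ T)
        ≤ (𝔼 x, rhoG j q e L m T x) * Pot j q e (gL L) m T
          + 𝔼 x, (jump j q e (gL L) m T x + rel j (gL L) T x) := by
      rw [expect_mul, ← expect_add_distrib]
      refine expect_le_expect fun x _ => ?_
      rw [Pot_cons hj]
      have a1 := jump_nonneg (j := j) (e := e) h0 (Nu_gL_nonneg L) m T x
      have a2 := rel_nonneg (j := j) (Nu_gL_nonneg L) T x
      nlinarith [(hρ m T x).2]
    rw [Pot_succ hj, expect_sub_distrib, expect_const univ_nonempty]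
    have h3 := mul_le_mul_of_nonneg_left h2 h0
    nlinarith) n 0
  refine key.trans (le_of_eq ?_)
  rw [Pot_nil hj, GG_gL L (show (0 : Multiset V).card < j from hj)]
  simp

noncomputable def PsiG (j : ℕ) (q : ℝ) (e m : ℕ) (H : ℝ) (L : Multiset V → Prop)
    (W : Multiset V) : ℝ := ind (m ≤ W.card ∧ Pot j q e (gL L) 0 W ≤ H)

lemma nuG_mono {n : ℕ} (h0 : 0 ≤ q) (h1 : q < 1) {F G : Multiset V → ℝ} (h : ∀ W, F W ≤ G W) :
    nu1 q (rhoG j q e L) n 0 F ≤ nu1 q (rhoG j q e L) n 0 G :=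
  nu1_mono h0 h1 (rhoG_mem h0) (fun _ => True) (fun _ _ _ _ _ => trivial) n trivial
    (fun W _ => h W)

lemma goodG {m n : ℕ} {H d : ℝ} (hj : 1 ≤ j) (h0 : 0 ≤ q) (h1 : q < 1) (hm : (m : ℝ) < n * q)
    (hH : 0 < H) (hd : Ex j (fun J => ind (L J)) ≤ d)
    (c1 : 8 * (√(n * q) + j * (((n + e).choose j : ℝ) * q ^ j * d)) ≤ n * q - m)
    (c2 : 8 * (((n + e).choose j : ℝ) * q ^ j * d) ≤ H) :
    3 / 4 ≤ nu1 q (rhoG j q e L) n 0 (PsiG j q e m H L) := by
  have hh : 0 ≤ ((n + e).choose j : ℝ) * q ^ j := by positivity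
  have hd' := mul_le_mul_of_nonneg_left hd hh
  have a1 := count_devG (V := V) (e := e) (L := L) hj h0 h1 n
  have a2 := pot_mean (V := V) (e := e) (L := L) hj h0 h1 n
  have hm' : 0 < n * q - m := by linarith
  have a3 : nu1 q (rhoG j q e L) n 0 (fun _ => 1) ≤ nu1 q (rhoG j q e L) n 0 (fun W =>
      PsiG j q e m H L W + ((n * q - m)⁻¹ * |n * q - W.card| + H⁻¹ * Pot j q e (gL L) 0 W)) := by
    refine nuG_mono h0 h1 fun W => ?_
    have b1 : 0 ≤ (n * q - m)⁻¹ * |n * q - W.card| := by positivity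
    have b2 : 0 ≤ H⁻¹ * Pot j q e (gL L) 0 W :=
      mul_nonneg (by positivity) (Pot_nonneg h0 (Nu_gL_nonneg L) _ _)
    have b3 : 0 ≤ PsiG j q e m H L W := ind_nonneg _
    by_cases k1 : m ≤ W.card
    · by_cases k2 : Pot j q e (gL L) 0 W ≤ H
      · have : PsiG j q e m H L W = 1 := ind_pos ⟨k1, k2⟩
        linarith
      · have : 1 ≤ H⁻¹ * Pot j q e (gL L) 0 W := by
          rw [← div_eq_inv_mul, le_div_iff₀ hH]; linarith [not_le.1 k2]
        linarith
    · have k3 : (W.card : ℝ) ≤ m := by exact_mod_cast (not_le.1 k1).le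
      have : 1 ≤ (n * q - m)⁻¹ * |n * q - W.card| := by
        rw [← div_eq_inv_mul, le_div_iff₀ hm']; linarith [le_abs_self (n * q - W.card)]
      linarith
  rw [nu1_const h1, nu1_add, nu1_add, nu1_mul, nu1_mul] at a3
  have hj0 : (0 : ℝ) ≤ j := Nat.cast_nonneg _
  have a4 : (n * q - m)⁻¹ * nu1 q (rhoG j q e L) n 0 (fun W => |n * q - W.card|) ≤ 1 / 8 := by
    rw [← div_eq_inv_mul, div_le_iff₀ hm']
    nlinarith [mul_le_mul_of_nonneg_left hd' hj0]
  have a5 : H⁻¹ * nu1 q (rhoG j q e L) n 0 (Pot j q e (gL L) 0) ≤ 1 / 8 := by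
    rw [← div_eq_inv_mul, div_le_iff₀ hH]
    linarith
  have a6 : nu1 q (rhoG j q e L) n 0 (fun W => PsiG j q e m H L W)
      = nu1 q (rhoG j q e L) n 0 (PsiG j q e m H L) := rfl
  have a7 : nu1 q (rhoG j q e L) n 0 (fun W => Pot j q e (gL L) 0 W)
      = nu1 q (rhoG j q e L) n 0 (Pot j q e (gL L) 0) := rfl
  linarith

end Pool.Agent.P.MP_7badbe_co
end

-- part Pool.Agent.P.MP_7badbe_co.Gr.B
section

set_option autoImplicit false
set_option linter.unusedSectionVars false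

open Finset Filter Topology
open scoped BigOperators

namespace Pool.Agent.P.MP_7badbe_co

variable {V : Type} [Fintype V] [Nonempty V]

/-- mean number of new edges in `m` more steps -/
noncomputable def PP (j : ℕ) (q : ℝ) (L : Multiset V → Prop) (m : ℕ) (T : Multiset V) : ℝ :=
  Pot j q 0 (gL L) m T

noncomputable def JJ (j : ℕ) (q : ℝ) (L : Multiset V → Prop) (m : ℕ) (T : Multiset V) (x : V) :
    ℝ := jump j q 0 (gL L) m T x

noncomputable def chi (H h : ℝ) : ℝ := max 0 (1 - Real.log (max h H / H) / 50)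

/-- rate of the points that close an edge of both links -/
noncomputable def RR (j : ℕ) (q : ℝ) (e : ℕ) (H : ℝ) (L L' : Multiset V → Prop)
    (W : Multiset V) : ℝ :=
  q * 𝔼 u, ind (0 < rel j (gL L) W u) * ind (0 < rel j (gL L') W u) * chi H (PP j q L' e W)

/-- the cross potential -/
noncomputable def XX (j : ℕ) (q : ℝ) (e : ℕ) (H : ℝ) (L L' : Multiset V → Prop) (n : ℕ)
    (T : Multiset V) : ℝ :=
  ∑ t ∈ range n, En q t T (RR j q e H L L')

lemma chi_nonneg (H h : ℝ) : 0 ≤ chi H h := le_max_left _ _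

lemma chi_of_le {H h : ℝ} (hH : 0 < H) (hh : h ≤ H) : chi H h = 1 := by
  rw [chi, max_eq_right hh, div_self hH.ne', Real.log_one]
  norm_num

lemma chi_anti {H h h' : ℝ} (hH : 0 < H) (hh : h ≤ h') : chi H h' ≤ chi H h := by
  have h1 : 0 < max h H := lt_max_of_lt_right hH
  have h2 : Real.log (max h H / H) ≤ Real.log (max h' H / H) :=
    Real.log_le_log (by positivity) (by gcongr)
  exact max_le_max le_rfl (by linarith)

lemma chi_le_one {H : ℝ} (hH : 0 < H) (h : ℝ) : chi H h ≤ 1 := by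
  rcases le_total h H with h1 | h1
  · exact (chi_of_le hH h1).le
  · exact (chi_anti hH h1).trans (chi_of_le hH le_rfl).le

lemma chi_lip {H h h' : ℝ} (hH : 0 < H) (hh : h ≤ h') :
    h * (chi H h - chi H h') ≤ (h' - h) / 50 := by
  have h1 : 0 < max h H := lt_max_of_lt_right hH
  have h1' : 0 < max h' H := lt_max_of_lt_right hH
  have h2 : Real.log (max h H / H) ≤ Real.log (max h' H / H) :=
    Real.log_le_log (by positivity) (by gcongr)
  have h3 : chi H h - chi H h'
      ≤ (Real.log (max h' H / H) - Real.log (max h H / H)) / 50 := by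
    have a1 : 1 - Real.log (max h' H / H) / 50 ≤ chi H h' := le_max_right _ _
    have a2 := chi_nonneg H h'
    rw [sub_le_iff_le_add]
    exact max_le (by linarith) (by linarith)
  have h4 : Real.log (max h' H / H) - Real.log (max h H / H) ≤ max h' H / max h H - 1 := by
    rw [← Real.log_div (by positivity) (by positivity), div_div_div_cancel_right₀ hH.ne']
    exact Real.log_le_sub_one_of_pos (by positivity)
  have h5 : max h' H - max h H ≤ h' - h := by
    rcases le_total h' H with a | a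
    · rw [max_eq_right a, max_eq_right (hh.trans a)]; linarith
    · rw [max_eq_left a]; linarith [le_max_left h H]
  have h6 : max h H * (max h' H / max h H - 1) = max h' H - max h H := by field_simp
  have h7 := sub_nonneg.2 (chi_anti hH hh)
  have h8 := mul_le_mul_of_nonneg_right (le_max_left h H) h7
  have h9 := mul_le_mul_of_nonneg_left (h3.trans (div_le_div_of_nonneg_right h4 (by norm_num)))
    h1.le
  rw [← mul_div_assoc, h6] at h9
  linarith

lemma chi_le_ind {H : ℝ} (hH : 0 < H) (h : ℝ) : chi H h ≤ ind (h ≤ Real.exp 50 * H) := by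
  by_cases a : h ≤ Real.exp 50 * H
  · rw [ind_pos a]; exact chi_le_one hH h
  · rw [ind_neg a]
    refine max_le le_rfl ?_
    have h1 : Real.exp 50 ≤ max h H / H := by
      rw [le_div_iff₀ hH]; linarith [le_max_left h H, not_le.1 a]
    have h2 := Real.log_le_log (Real.exp_pos _) h1
    rw [Real.log_exp] at h2
    linarith

variable {j e : ℕ} {q H : ℝ} {L L' : Multiset V → Prop}

omit [Nonempty V] in
lemma Pot_eq_PP (n : ℕ) (T : Multiset V) : Pot j q e (gL L) n T = PP j q L (n + e) T := rfl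

omit [Nonempty V] in
lemma jump_eq_JJ (n : ℕ) (T : Multiset V) (x : V) :
    jump j q e (gL L) n T x = JJ j q L (n + e) T x := rfl

omit [Nonempty V] in
lemma PP_zero (T : Multiset V) : PP j q L 0 T = 0 := by
  unfold PP Pot
  refine sum_eq_zero fun s hs => ?_
  rw [Nat.choose_eq_zero_of_lt (by have := mem_range.1 hs; omega)]
  simp

lemma PP_cons (hj : 1 ≤ j) (m : ℕ) (T : Multiset V) (x : V) :
    PP j q L m (x ::ₘ T) = PP j q L m T + JJ j q L m T x := Pot_cons hj m T x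

lemma PP_succ (hj : 1 ≤ j) (m : ℕ) (T : Multiset V) :
    PP j q L (m + 1) T = PP j q L m T + q * 𝔼 x, (JJ j q L m T x + rel j (gL L) T x) :=
  Pot_succ hj m T

lemma JJ_nonneg (hq : 0 ≤ q) (m : ℕ) (T : Multiset V) (x : V) : 0 ≤ JJ j q L m T x :=
  jump_nonneg hq (Nu_gL_nonneg L) m T x

lemma PP_nonneg (hq : 0 ≤ q) (m : ℕ) (T : Multiset V) : 0 ≤ PP j q L m T :=
  Pot_nonneg hq (Nu_gL_nonneg L) m T

lemma JJ_zero (hj : 1 ≤ j) (T : Multiset V) (x : V) : JJ j q L 0 T x = 0 := by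
  have := PP_cons (q := q) (L := L) hj 0 T x
  rw [PP_zero, PP_zero] at this
  linarith

lemma JJ_mono (hq : 0 ≤ q) {m m' : ℕ} (h : m ≤ m') (T : Multiset V) (x : V) :
    JJ j q L m T x ≤ JJ j q L m' T x := by
  unfold JJ jump
  refine sum_le_sum fun s _ => mul_le_mul_of_nonneg_right (mul_le_mul_of_nonneg_right ?_
    (pow_nonneg hq _)) (SS_nonneg fun ω _ _ => GG_nonneg (Nu_gL_nonneg L) _)
  exact_mod_cast Nat.choose_le_choose _ h

lemma PP_mono (hq : 0 ≤ q) (m : ℕ) {T W : Multiset V} (h : T ≤ W) :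
    PP j q L m T ≤ PP j q L m W := by
  unfold PP Pot
  exact sum_le_sum fun _ _ => mul_le_mul_of_nonneg_left
    (SS_le_of_le (GG_nonneg (Nu_gL_nonneg L)) h) (by positivity)

lemma En_sub (n : ℕ) (T : Multiset V) (F G : Multiset V → ℝ) :
    En q n T (fun W => F W - G W) = En q n T F - En q n T G := by
  have h := En_add (q := q) n T (fun W => F W - G W) G
  simp only [sub_add_cancel] at h
  exact eq_sub_of_add_eq h.symm

lemma En_PP (hj : 1 ≤ j) (m t : ℕ) (T : Multiset V) :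
    En q t T (PP j q L m) = PP j q L (t + m) T - PP j q L t T := by
  induction t generalizing T with
  | zero => rw [En_zero, PP_zero, zero_add, sub_zero]
  | succ t ih =>
    rw [En_succ, Nat.add_right_comm, PP_succ hj, PP_succ hj]
    simp only [ih, PP_cons hj, expect_add_distrib, expect_sub_distrib, expect_const univ_nonempty]
    ring

lemma En_JJ (hj : 1 ≤ j) (m t : ℕ) (T : Multiset V) (x : V) :
    En q t T (fun W => JJ j q L m W x) = JJ j q L (t + m) T x - JJ j q L t T x := by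
  have h1 : (fun W => JJ j q L m W x) = fun W => PP j q L m (x ::ₘ W) - PP j q L m W := by
    funext W; rw [PP_cons hj]; ring
  have h2 : En q t T (fun W => PP j q L m W) = En q t T (PP j q L m) := rfl
  rw [h1, En_sub, ← En_shift, h2, En_PP hj, En_PP hj, PP_cons hj, PP_cons hj]
  ring

lemma PP_ge (hj : 1 ≤ j) (hq : 0 ≤ q) (m : ℕ) (T : Multiset V) :
    m * (q * 𝔼 u, rel j (gL L) T u) ≤ PP j q L m T := by
  induction m with
  | zero => simp [PP_zero]
  | succ m ih =>
    rw [PP_succ hj, expect_add_distrib]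
    have : 0 ≤ q * 𝔼 x, JJ j q L m T x :=
      mul_nonneg hq (expect_nonneg fun x _ => JJ_nonneg hq m T x)
    push_cast
    linarith

lemma JJ_one (hj : 1 ≤ j) (W : Multiset V) (x : V) :
    JJ j q L 1 W x = q * 𝔼 u, (rel j (gL L) (x ::ₘ W) u - rel j (gL L) W u) := by
  have h1 : ∀ T : Multiset V, PP j q L 1 T = q * 𝔼 u, rel j (gL L) T u := fun T => by
    rw [PP_succ hj 0, PP_zero]
    simp only [JJ_zero hj, zero_add]
  have h2 := PP_cons (q := q) (L := L) hj 1 W x
  rw [h1, h1] at h2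
  rw [expect_sub_distrib]
  linarith

lemma rel_mono (W : Multiset V) (x u : V) : rel j (gL L) W u ≤ rel j (gL L) (x ::ₘ W) u :=
  SS_le_of_le (fun ω => Nu_gL_nonneg L ω u) (Multiset.le_cons_self _ _)

lemma ind_rel_le (W : Multiset V) (u : V) : ind (0 < rel j (gL L) W u) ≤ rel j (gL L) W u := by
  by_cases h : 0 < rel j (gL L) W u
  · rw [ind_pos h]; exact (rel_gL_pos h).1
  · rw [ind_neg h]; exact rel_nonneg (Nu_gL_nonneg L) W u

lemma ind_rel_up (W : Multiset V) (x u : V) :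
    ind (0 < rel j (gL L) (x ::ₘ W) u) ≤ ind (0 < rel j (gL L) W u)
      + (rel j (gL L) (x ::ₘ W) u - rel j (gL L) W u) := by
  by_cases h : 0 < rel j (gL L) W u
  · rw [ind_pos h]
    linarith [rel_mono (j := j) (L := L) W x u, ind_le_one (0 < rel j (gL L) (x ::ₘ W) u)]
  · rw [ind_neg h]
    linarith [ind_rel_le (j := j) (L := L) (x ::ₘ W) u, not_lt.1 h]

lemma RR_nonneg (hq : 0 ≤ q) (W : Multiset V) : 0 ≤ RR j q e H L L' W :=
  mul_nonneg hq (expect_nonneg fun _ _ =>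
    mul_nonneg (mul_nonneg (ind_nonneg _) (ind_nonneg _)) (chi_nonneg _ _))

lemma RR_up (hj : 1 ≤ j) (hq : 0 ≤ q) (hH : 0 < H) (W : Multiset V) (x : V) :
    RR j q e H L L' (x ::ₘ W) ≤ RR j q e H L L' W + (JJ j q L 1 W x + JJ j q L' 1 W x) := by
  rw [JJ_one hj, JJ_one hj, RR, RR, ← mul_add, ← mul_add, ← expect_add_distrib,
    ← expect_add_distrib]
  refine mul_le_mul_of_nonneg_left (expect_le_expect fun u _ => ?_) hq
  have a1 := ind_rel_up (j := j) (L := L) W x u
  have a2 := ind_rel_up (j := j) (L := L') W x u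
  have a3 := sub_nonneg.2 (rel_mono (j := j) (L := L) W x u)
  have a4 := sub_nonneg.2 (rel_mono (j := j) (L := L') W x u)
  have c1 := chi_anti hH (PP_mono (j := j) (L := L') hq e (Multiset.le_cons_self W x))
  have c2 := chi_le_one hH (PP j q L' e (x ::ₘ W))
  have c3 := chi_nonneg H (PP j q L' e (x ::ₘ W))
  generalize rel j (gL L) (x ::ₘ W) u - rel j (gL L) W u = r at *
  generalize rel j (gL L') (x ::ₘ W) u - rel j (gL L') W u = r' at *
  by_cases k1 : 0 < rel j (gL L) (x ::ₘ W) u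
  · by_cases k2 : 0 < rel j (gL L') (x ::ₘ W) u
    · rw [ind_pos k1] at a1 ⊢
      rw [ind_pos k2] at a2 ⊢
      by_cases k3 : 0 < rel j (gL L) W u
      · by_cases k4 : 0 < rel j (gL L') W u
        · rw [ind_pos k3, ind_pos k4]; linarith
        · rw [ind_neg k4] at a2 ⊢; linarith
      · rw [ind_neg k3] at a1 ⊢; linarith
    · rw [ind_neg k2, mul_zero, zero_mul]
      have := mul_nonneg (mul_nonneg (ind_nonneg (0 < rel j (gL L) W u))
        (ind_nonneg (0 < rel j (gL L') W u))) (c3.trans c1)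
      linarith
  · rw [ind_neg k1, zero_mul, zero_mul]
    have := mul_nonneg (mul_nonneg (ind_nonneg (0 < rel j (gL L) W u))
      (ind_nonneg (0 < rel j (gL L') W u))) (c3.trans c1)
    linarith

lemma RR_down (hj : 1 ≤ j) (hq : 0 ≤ q) (hH : 0 < H) (W : Multiset V) (x : V) :
    e * RR j q e H L L' W ≤ e * RR j q e H L L' (x ::ₘ W) + JJ j q L' e W x / 50 := by
  have c1 := sub_nonneg.2
    (chi_anti hH (PP_mono (j := j) (L := L') hq e (Multiset.le_cons_self W x)))
  have c2 := chi_lip hH (PP_mono (j := j) (L := L') hq e (Multiset.le_cons_self W x))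
  have c3 := chi_nonneg H (PP j q L' e (x ::ₘ W))
  have c4 := mul_le_mul_of_nonneg_right (PP_ge (L := L') hj hq e W) c1
  have h1 : RR j q e H L L' W ≤ RR j q e H L L' (x ::ₘ W) + (q * 𝔼 u, rel j (gL L') W u)
      * (chi H (PP j q L' e W) - chi H (PP j q L' e (x ::ₘ W))) := by
    rw [RR, RR, mul_assoc, expect_mul, ← mul_add, ← expect_add_distrib]
    refine mul_le_mul_of_nonneg_left (expect_le_expect fun u _ => ?_) hq
    have r0 := rel_nonneg (j := j) (Nu_gL_nonneg L') W u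
    have r1 := mul_nonneg r0 c1
    have r2 := mul_nonneg (mul_nonneg (ind_nonneg (0 < rel j (gL L) (x ::ₘ W) u))
      (ind_nonneg (0 < rel j (gL L') (x ::ₘ W) u))) c3
    by_cases k3 : 0 < rel j (gL L) W u
    · by_cases k4 : 0 < rel j (gL L') W u
      · rw [ind_pos k3, ind_pos k4, ind_pos (k3.trans_le (rel_mono W x u)),
          ind_pos (k4.trans_le (rel_mono W x u))]
        nlinarith [(rel_gL_pos k4).1]
      · rw [ind_neg k4]; linarith
    · rw [ind_neg k3]; linarith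
  have h2 := mul_le_mul_of_nonneg_left h1 (Nat.cast_nonneg (α := ℝ) e)
  rw [PP_cons hj (L := L') e W x, add_sub_cancel_left, ← PP_cons hj] at c2
  nlinarith

lemma XX_nonneg (h0 : 0 ≤ q) (h1 : q ≤ 1) (n : ℕ) (T : Multiset V) :
    0 ≤ XX j q e H L L' n T :=
  sum_nonneg fun t _ => by
    have := En_mono h0 h1 t T (F := fun _ => (0 : ℝ)) (RR_nonneg (j := j) (e := e) (H := H)
      (L := L) (L' := L') h0)
    rwa [En_const] at this

lemma XX_succ (n : ℕ) (T : Multiset V) :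
    XX j q e H L L' (n + 1) T = RR j q e H L L' T + XX j q e H L L' n T
      + q * 𝔼 x, (XX j q e H L L' n (x ::ₘ T) - XX j q e H L L' n T) := by
  unfold XX
  rw [sum_range_succ', En_zero, expect_sub_distrib, expect_const univ_nonempty, expect_sum_comm]
  simp only [En_succ, sum_add_distrib, ← mul_sum]
  ring

lemma XX_up (hj : 1 ≤ j) (h0 : 0 ≤ q) (h1 : q ≤ 1) (hH : 0 < H) (n : ℕ) (T : Multiset V) (x : V) :
    XX j q e H L L' n (x ::ₘ T) - XX j q e H L L' n T
      ≤ JJ j q L (n + e) T x + JJ j q L' (n + e) T x := by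
  have a1 : ∀ t ∈ range n, En q t (x ::ₘ T) (RR j q e H L L')
      ≤ En q t T (RR j q e H L L') + ((JJ j q L (t + 1) T x - JJ j q L t T x)
        + (JJ j q L' (t + 1) T x - JJ j q L' t T x)) := fun t _ => by
    rw [En_shift, ← En_JJ hj, ← En_JJ hj, ← En_add, ← En_add]
    exact En_mono h0 h1 t T fun W => RR_up hj h0 hH W x
  have a2 := sum_le_sum a1
  rw [sum_add_distrib, sum_add_distrib, sum_range_sub (fun t => JJ j q L t T x),
    sum_range_sub (fun t => JJ j q L' t T x), JJ_zero hj, JJ_zero hj] at a2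
  have a3 := JJ_mono (j := j) (L := L) h0 (Nat.le_add_right n e) T x
  have a4 := JJ_mono (j := j) (L := L') h0 (Nat.le_add_right n e) T x
  unfold XX
  linarith

lemma XX_down (hj : 1 ≤ j) (he : 1 ≤ e) (h0 : 0 ≤ q) (h1 : q ≤ 1) (hH : 0 < H) (n : ℕ)
    (T : Multiset V) (x : V) :
    -(JJ j q L' (n + e) T x / 50) ≤ XX j q e H L L' n (x ::ₘ T) - XX j q e H L L' n T := by
  have a1 : ∀ t ∈ range n, e * En q t T (RR j q e H L L')
      ≤ e * En q t (x ::ₘ T) (RR j q e H L L')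
        + 1 / 50 * (JJ j q L' (e + t) T x - JJ j q L' t T x) := fun t _ => by
    rw [En_shift, add_comm e t, ← En_JJ hj, ← En_mul, ← En_mul, ← En_mul, ← En_add]
    refine En_mono h0 h1 t T fun W => ?_
    linarith [RR_down (e := e) (L := L) (L' := L') hj h0 hH W x]
  have a2 := sum_le_sum a1
  rw [sum_add_distrib, ← mul_sum, ← mul_sum, ← mul_sum, sum_sub_distrib] at a2
  have a3 := sum_range_add (fun t => JJ j q L' t T x) e n
  have a4 := sum_range_add (fun t => JJ j q L' t T x) n e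
  rw [add_comm e n, a4] at a3
  have a5 : 0 ≤ ∑ t ∈ range e, JJ j q L' t T x := sum_nonneg fun t _ => JJ_nonneg h0 t T x
  have a6 : ∑ t ∈ range e, JJ j q L' (n + t) T x ≤ e * JJ j q L' (n + e) T x := by
    refine (sum_le_card_nsmul _ _ _ fun t ht => JJ_mono h0
      (Nat.add_le_add_left (mem_range.1 ht).le n) T x).trans (le_of_eq ?_)
    rw [card_range, nsmul_eq_mul]
  have he' : (0 : ℝ) < e := by exact_mod_cast he
  refine le_of_mul_le_mul_left ?_ he'
  unfold XX
  linarith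

/-- the pointwise drift inequality -/
theorem pointwiseG (hq : 0 ≤ q) (n : ℕ) (T : Multiset V) (x : V) {Δ : ℝ}
    (h1 : -(jump j q e (gL L') n T x / 50) ≤ Δ)
    (h2 : Δ ≤ jump j q e (gL L) n T x + jump j q e (gL L') n T x) :
    rhoG j q e L n T x * rhoG j q e L' n T x
        * Real.exp (jump j q e (gL L) n T x / 4 + jump j q e (gL L') n T x / 4 + Δ / 2)
      + (1 - rhoG j q e L n T x) + (1 - rhoG j q e L' n T x) - 1
    ≤ (jump j q e (gL L) n T x + rel j (gL L) T x) / 4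
      + (jump j q e (gL L') n T x + rel j (gL L') T x) / 4
      + (Δ + ind (0 < rel j (gL L) T x) * ind (0 < rel j (gL L') T x)) / 2 := by
  have d1 := jump_nonneg (j := j) (e := e) hq (Nu_gL_nonneg L) n T x
  have d2 := jump_nonneg (j := j) (e := e) hq (Nu_gL_nonneg L') n T x
  have r1 := rel_nonneg (j := j) (Nu_gL_nonneg L) T x
  have r2 := rel_nonneg (j := j) (Nu_gL_nonneg L') T x
  unfold rhoG
  by_cases k1 : 0 < rel j (gL L) T x
  · have g1 := (rel_gL_pos k1).1
    rw [if_pos k1, ind_pos k1]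
    by_cases k2 : 0 < rel j (gL L') T x
    · have g2 := (rel_gL_pos k2).1
      rw [if_pos k2, ind_pos k2]
      linarith
    · rw [if_neg k2, ind_neg k2]
      linarith [rho1_b (jump j q e (gL L') n T x)]
  · rw [if_neg k1, ind_neg k1]
    by_cases k2 : 0 < rel j (gL L') T x
    · have g2 := (rel_gL_pos k2).1
      rw [if_pos k2]
      linarith [rho1_b (jump j q e (gL L) n T x)]
    · rw [if_neg k2]
      have := rho1_pair (y := jump j q e (gL L) n T x / 4 + jump j q e (gL L') n T x / 4 + Δ / 2)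
        d1 d2 (by linarith) (by linarith)
      linarith

/-- the pair supermartingale -/
theorem pairG (hj : 1 ≤ j) (he : 1 ≤ e) (h0 : 0 ≤ q) (h1 : q < 1) (hH : 0 < H) (n : ℕ)
    (T : Multiset V) :
    nu2 q (rhoG j q e L) (rhoG j q e L') n T (fun W => ind (PP j q L' e W ≤ H))
      ≤ Real.exp (Pot j q e (gL L) n T / 4 + Pot j q e (gL L') n T / 4
          + XX j q e H L L' n T / 2 + n * q ^ 2 / (1 - q)) := by
  have h1q : 0 < 1 - q := by linarith
  have hρ := rhoG_mem (j := j) (e := e) (L := L) h0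
  have hρ' := rhoG_mem (j := j) (e := e) (L := L') h0
  induction n generalizing T with
  | zero =>
    rw [nu2_zero]
    refine (ind_le_one _).trans (Real.one_le_exp ?_)
    have a1 := Pot_nonneg (j := j) (e := e) h0 (Nu_gL_nonneg L) 0 T
    have a2 := Pot_nonneg (j := j) (e := e) h0 (Nu_gL_nonneg L') 0 T
    have a3 := XX_nonneg (j := j) (e := e) (H := H) (L := L) (L' := L') h0 h1.le 0 T
    simp only [Nat.cast_zero, zero_mul, zero_div, add_zero]
    linarith
  | succ n ih =>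
    by_cases hT : PP j q L' e T ≤ H
    swap
    · refine le_trans (nu2_mono h0 h1 hρ hρ' (n + 1) (G := fun W => 0 * ind (PP j q L' e W ≤ H))
        fun W hW => ?_) ?_
      · rw [ind_neg (fun h => hT ((PP_mono h0 e hW).trans h)), zero_mul]
      · rw [nu2_mul, zero_mul]
        exact (Real.exp_pos _).le
    set U : ℝ := Pot j q e (gL L) n T / 4 + Pot j q e (gL L') n T / 4
          + XX j q e H L L' n T / 2 + n * q ^ 2 / (1 - q) with hU
    set Δ : V → ℝ := fun x => XX j q e H L L' n (x ::ₘ T) - XX j q e H L L' n T with hΔ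
    set k : V → ℝ := fun x => rhoG j q e L n T x * rhoG j q e L' n T x *
      Real.exp (jump j q e (gL L) n T x / 4 + jump j q e (gL L') n T x / 4 + Δ x / 2) with hk
    set a : ℝ := 𝔼 x, (1 - rhoG j q e L n T x) with ha
    set a' : ℝ := 𝔼 x, (1 - rhoG j q e L' n T x) with ha'
    set t : V → ℝ := fun x => (jump j q e (gL L) n T x + rel j (gL L) T x) / 4
      + (jump j q e (gL L') n T x + rel j (gL L') T x) / 4
      + (Δ x + ind (0 < rel j (gL L) T x) * ind (0 < rel j (gL L') T x)) / 2 with ht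
    have ha0 : 0 ≤ a := expect_nonneg (fun x _ => by linarith [(hρ n T x).2])
    have ha0' : 0 ≤ a' := expect_nonneg (fun x _ => by linarith [(hρ' n T x).2])
    have ha1 : a ≤ 1 := expect_le univ_nonempty fun x _ => by linarith [(hρ n T x).1]
    have ha1' : a' ≤ 1 := expect_le univ_nonempty fun x _ => by linarith [(hρ' n T x).1]
    have htk : (𝔼 x, k x) + a + a' - 1 ≤ 𝔼 x, t x := by
      have b1 : 𝔼 x, (k x + (1 - rhoG j q e L n T x) + (1 - rhoG j q e L' n T x) - 1)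
          ≤ 𝔼 x, t x :=
        expect_le_expect (fun x _ => pointwiseG h0 n T x (XX_down hj he h0 h1.le hH n T x)
          (XX_up hj h0 h1.le hH n T x))
      rwa [expect_sub_distrib, expect_add_distrib, expect_add_distrib,
        expect_const univ_nonempty] at b1
    have hA : (1 - q) * ((1 + q * a / (1 - q)) * (1 + q * a' / (1 - q)))
        = 1 - q + q * a + q * a' + q ^ 2 / (1 - q) * (a * a') := by
      field_simp
      ring
    have hA0 : 0 ≤ (1 - q) * ((1 + q * a / (1 - q)) * (1 + q * a' / (1 - q))) := by positivity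
    have b2 : 𝔼 x, rhoG j q e L n T x * rhoG j q e L' n T x
          * nu2 q (rhoG j q e L) (rhoG j q e L') n (x ::ₘ T) (fun W => ind (PP j q L' e W ≤ H))
        ≤ 𝔼 x, Real.exp U * k x := by
      refine expect_le_expect (fun x _ => ?_)
      have b3 := ih (x ::ₘ T)
      rw [Pot_cons hj, Pot_cons hj] at b3
      refine (mul_le_mul_of_nonneg_left b3 (mul_nonneg (hρ n T x).1 (hρ' n T x).1)).trans
        (le_of_eq ?_)
      simp only [hk]
      rw [mul_left_comm, ← Real.exp_add]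
      congr 2
      simp only [hU, hΔ]
      ring
    rw [← mul_expect] at b2
    have hfin : Pot j q e (gL L) (n + 1) T / 4 + Pot j q e (gL L') (n + 1) T / 4
          + XX j q e H L L' (n + 1) T / 2 + ((n + 1 : ℕ) : ℝ) * q ^ 2 / (1 - q)
        = U + (q * (𝔼 x, t x) + q ^ 2 / (1 - q)) := by
      rw [Pot_succ hj, Pot_succ hj, XX_succ, RR, chi_of_le hH hT]
      simp only [hU, ht, hΔ, mul_one, div_eq_mul_inv _ (4 : ℝ), div_eq_mul_inv _ (2 : ℝ),
        expect_add_distrib, ← expect_mul]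
      push_cast
      ring
    rw [hfin, nu2_succ, Real.exp_add]
    have b4 := mul_le_mul_of_nonneg_left (ih T) hA0
    have b5 := mul_le_mul_of_nonneg_left b2 h0
    have b6 : (1 - q) * ((1 + q * a / (1 - q)) * (1 + q * a' / (1 - q))) + q * 𝔼 x, k x
        ≤ Real.exp (q * (𝔼 x, t x) + q ^ 2 / (1 - q)) := by
      have hq2 : 0 ≤ q ^ 2 / (1 - q) := by positivity
      have b7 : a * a' ≤ 1 := mul_le_one₀ ha1 ha0' ha1'
      have b8 := mul_le_mul_of_nonneg_left b7 hq2
      have b9 := mul_le_mul_of_nonneg_left htk h0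
      rw [hA]
      linarith [Real.add_one_le_exp (q * (𝔼 x, t x) + q ^ 2 / (1 - q))]
    have b10 := mul_le_mul_of_nonneg_left b6 (Real.exp_pos U).le
    linarith

end Pool.Agent.P.MP_7badbe_co
end

-- part Pool.Agent.P.MP_7badbe_co.Gr.C
section

set_option autoImplicit false
set_option linter.unusedSectionVars false

open Finset Filter Topology
open scoped BigOperators

namespace Pool.Agent.P.MP_7badbe_co

variable {V : Type} [Fintype V] [Nonempty V]

def CovX (j : ℕ) (q : ℝ) (e : ℕ) (H : ℝ) (L : Multiset V → Prop) (W : Multiset V) (x : V) :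
    Prop := 0 < rel j (gL L) W x ∧ PP j q L e W ≤ H

open Classical in
/-- number of points of `J` that close an edge with the rest of `W` -/
noncomputable def cntX (j : ℕ) (q : ℝ) (e : ℕ) (H : ℝ) (L : Multiset V → Prop)
    (W J : Multiset V) : ℕ :=
  J.countP (fun x => CovX j q e H L (W.erase x) x)

noncomputable def CG (j : ℕ) (q : ℝ) (e : ℕ) (H Λ : ℝ) (L : Multiset V → Prop) (r : ℕ)
    (R I : Multiset V) : ℝ :=
  ind (PP j q L e R ≤ H) * SS (j - r) (fun σ => ind (L (σ + I))) R * Λ ^ r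

/-- the mean over the time of the last point, the other points and the edge -/
noncomputable def II (j : ℕ) (q : ℝ) (n : ℕ) (f : Multiset V → Multiset V → ℝ) : ℝ :=
  ∑ t ∈ range n, (t.choose (j - 1) : ℝ) * q ^ j * En q (t - (j - 1)) 0 (fun W => Ex j (f W))

variable {j e : ℕ} {q H Λ τ : ℝ} {L L' : Multiset V → Prop}

omit [Nonempty V] in
lemma En_expect (n : ℕ) (T : Multiset V) (F : V → Multiset V → ℝ) :
    En q n T (fun W => 𝔼 x, F x W) = 𝔼 x, En q n T (F x) :=
  Path_Pe_expect univ n (fun x p => F x (fin T p))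

theorem mecke (t s : ℕ) (Φ : Multiset V → Multiset V → ℝ) :
    En q t 0 (splitSum s Φ)
      = (t.choose s : ℝ) * q ^ s * Ex s (fun ω => En q (t - s) 0 (Φ ω)) := by
  induction t generalizing s Φ with
  | zero => cases s <;> simp [En_zero, splitSum]
  | succ t ih =>
    cases s with
    | zero =>
      rw [show splitSum 0 Φ = Φ 0 from funext (splitSum_zero Φ)]
      simp
    | succ s =>
      have h1 : ∀ x, En q t (x ::ₘ 0) (splitSum (s + 1) Φ)
          = En q t 0 (splitSum (s + 1) (fun I J => Φ I (x ::ₘ J)))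
            + En q t 0 (splitSum s (fun I J => Φ (x ::ₘ I) J)) := fun x => by
        rw [En_shift, ← En_add]
        simp only [splitSum_succ_cons]
      rw [En_succ]
      simp only [h1, ih, expect_add_distrib, ← mul_expect]
      rw [← Ex_expect, Nat.add_sub_add_right, Nat.choose_succ_succ',
        ← Ex_succ s (fun ω => En q (t - s) 0 (Φ ω))]
      rcases Nat.lt_or_ge t (s + 1) with h | h
      · rw [Nat.choose_eq_zero_of_lt h]
        push_cast
        ring
      · have h2 : Ex (s + 1) (fun ω => En q (t - s) 0 (Φ ω))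
            = (1 - q) * Ex (s + 1) (fun ω => En q (t - (s + 1)) 0 (Φ ω))
              + q * Ex (s + 1) (fun ω => 𝔼 x, En q (t - (s + 1)) 0 (fun J => Φ ω (x ::ₘ J))) := by
          rw [show t - s = t - (s + 1) + 1 by omega, ← Ex_mul, ← Ex_mul, ← Ex_add]
          simp only [En_succ, En_shift]
        rw [h2]
        push_cast
        ring

lemma SS_Ex (s r : ℕ) (F : Multiset V → Multiset V → ℝ) (T : Multiset V) :
    Ex r (fun I => SS s (F I) T) = SS s (fun σ => Ex r (fun I => F I σ)) T := by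
  induction r generalizing F with
  | zero => rfl
  | succ r ih => simp only [Ex_succ, ih, SS_expect]

lemma CG_nonneg (hΛ : 1 ≤ Λ) (r : ℕ) (R I : Multiset V) : 0 ≤ CG j q e H Λ L r R I :=
  mul_nonneg (mul_nonneg (ind_nonneg _) (SS_nonneg fun _ _ _ => ind_nonneg _))
    (pow_nonneg (by linarith) _)

lemma CG_mean (hq : 0 ≤ q) (hΛ : 1 ≤ Λ) (hH : 0 < H) (hτ : 0 ≤ τ) {r : ℕ} (h1 : 1 ≤ r) (hr : r ≤ j)
    (hc : H ≤ τ ^ r * ((e.choose r : ℝ) * q ^ r)) (R : Multiset V) :
    Ex r (CG j q e H Λ L r R) ≤ (Λ * τ) ^ r := by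
  have a1 : Ex r (CG j q e H Λ L r R)
      = ind (PP j q L e R ≤ H) * SS (j - r) (GG j (gL L)) R * Λ ^ r := by
    unfold CG
    rw [Ex_mul', Ex_mul, SS_Ex]
    congr 2
    refine SS_congr fun σ _ hσ => ?_
    rw [GG_gL L (by omega), hσ, show j - (j - r) = r by omega]
  have a2 : (e.choose r : ℝ) * q ^ r * SS (j - r) (GG j (gL L)) R ≤ PP j q L e R := by
    have := single_le_sum (s := range j) (a := j - r) (f := fun s => ((e + 0).choose (j - s) : ℝ)
      * q ^ (j - s) * SS s (GG j (gL L)) R) (fun s _ => mul_nonneg (by positivity)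
        (SS_nonneg fun _ _ _ => GG_nonneg (Nu_gL_nonneg L) _)) (mem_range.2 (by omega))
    simp only [show j - (j - r) = r by omega] at this
    exact this
  rw [a1, mul_pow, mul_comm (Λ ^ r)]
  refine mul_le_mul_of_nonneg_right ?_ (pow_nonneg (by linarith) _)
  by_cases k : PP j q L e R ≤ H
  · rw [ind_pos k, one_mul]
    have a3 : 0 < (e.choose r : ℝ) * q ^ r := by
      rcases (show 0 ≤ (e.choose r : ℝ) * q ^ r by positivity).eq_or_lt with h | h
      · rw [← h, mul_zero] at hc; linarith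
      · exact h
    refine le_of_mul_le_mul_left ?_ a3
    linarith
  · rw [ind_neg k, zero_mul]; positivity

lemma CF_point (hq : 0 ≤ q) (hΛ : 1 ≤ Λ) (R J : Multiset V) (h : J.card ≤ j) :
    Λ ^ cntX j q e H L (R + J) J ≤ 1 + ∑ s ∈ range J.card, splitSum (s + 1)
      (fun I W => CG j q e H Λ L (s + 1) R I * Λ ^ cntX j q e H L (R + I + W) W) J := by
  classical
  have h0 : ∀ s I W, 0 ≤ CG j q e H Λ L (s + 1) R I * Λ ^ cntX j q e H L (R + I + W) W :=
    fun s I W => mul_nonneg (CG_nonneg hΛ _ _ _) (pow_nonneg (by linarith) _)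
  have hs0 : ∀ s ∈ range J.card, 0 ≤ splitSum (s + 1)
      (fun I W => CG j q e H Λ L (s + 1) R I * Λ ^ cntX j q e H L (R + I + W) W) J :=
    fun s _ => splitSum_nonneg (h0 s) _
  have hS := sum_nonneg hs0
  by_cases hc : cntX j q e H L (R + J) J = 0
  · rw [hc, pow_zero]; linarith
  obtain ⟨x, hx, hr, hP⟩ := Multiset.countP_pos.1 (Nat.pos_of_ne_zero hc)
  obtain ⟨-, σ, hσ, hσc, hL⟩ := rel_gL_pos hr
  rw [Multiset.erase_add_right_pos _ hx] at hσ hP
  have h1 : σ - R ≤ J.erase x := tsub_le_iff_left.2 hσ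
  have h2 : x ::ₘ (σ - R) ≤ J := by
    rw [← Multiset.cons_erase hx]; exact Multiset.cons_le_cons _ h1
  obtain ⟨W, hW⟩ := Multiset.le_iff_exists_add.1 h2
  set I := x ::ₘ (σ - R) with hI
  set s := (σ - R).card with hs
  have hIc : I.card = s + 1 := by rw [hI, Multiset.card_cons]
  have hJc : J.card = s + 1 + W.card := by rw [hW, Multiset.card_add, hIc]
  have ht : σ ∩ R + I = x ::ₘ σ := by
    rw [hI, Multiset.add_cons, add_comm, Multiset.sub_add_inter]
  have htc : (σ ∩ R).card = j - (s + 1) := by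
    have := congrArg Multiset.card ht
    rw [Multiset.card_add, hIc, Multiset.card_cons] at this
    omega
  have hG : Λ ^ (s + 1) ≤ CG j q e H Λ L (s + 1) R I := by
    have h3 := le_SS (F := fun σ => ind (L (σ + I))) (fun _ => ind_nonneg _)
      (Multiset.inter_le_right (s := σ) (t := R)) htc
    simp only [ht, ind_pos hL] at h3
    rw [CG, ind_pos ((PP_mono hq e (Multiset.le_add_right _ _)).trans hP), one_mul]
    exact le_mul_of_one_le_left (pow_nonneg (by linarith) _) h3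
  have hRJ : R + I + W = R + J := by rw [hW, add_assoc]
  have hcnt : cntX j q e H L (R + J) J ≤ s + 1 + cntX j q e H L (R + J) W := by
    have h4 : cntX j q e H L (R + J) (I + W)
        = cntX j q e H L (R + J) I + cntX j q e H L (R + J) W := Multiset.countP_add _ _ _
    have h5 : cntX j q e H L (R + J) I ≤ I.card := Multiset.countP_le_card _ _
    rw [← hW] at h4
    omega
  have h6 : Λ ^ cntX j q e H L (R + J) J
      ≤ CG j q e H Λ L (s + 1) R I * Λ ^ cntX j q e H L (R + I + W) W := by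
    refine le_trans ?_ (mul_le_mul_of_nonneg_right hG (pow_nonneg (by linarith) _))
    rw [hRJ, ← pow_add]
    exact pow_le_pow_right₀ hΛ hcnt
  have h7 := le_splitSum (h0 s) I W hIc
  rw [← hW] at h7
  have h8 := single_le_sum hs0 (mem_range.2 (by omega : s < J.card))
  linarith

/-- few points of a random edge close an edge of the other link -/
theorem coverG (hq : 0 ≤ q) (hΛ : 1 ≤ Λ) (hH : 0 < H) (hτ : 0 ≤ τ)
    (hc : ∀ r, 1 ≤ r → r ≤ j → H ≤ τ ^ r * ((e.choose r : ℝ) * q ^ r))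
    (hj : j * (Λ * τ) ≤ 1 / 4) (N : ℕ) : N ≤ j → ∀ R : Multiset V,
    Ex N (fun J => Λ ^ cntX j q e H L (R + J) J) ≤ 2 := by
  induction N using Nat.strong_induction_on with
  | _ N ih =>
  intro hN R
  have h1 : Ex N (fun J => Λ ^ cntX j q e H L (R + J) J) ≤ Ex N (fun J => 1 + ∑ s ∈ range N,
      splitSum (s + 1)
        (fun I W => CG j q e H Λ L (s + 1) R I * Λ ^ cntX j q e H L (R + I + W) W) J) := by
    refine Ex_mono (fun J hJ => ?_)
    have := CF_point (j := j) (e := e) (H := H) (L := L) hq hΛ R J (by omega)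
    rwa [hJ] at this
  rw [Ex_add, Ex_const, Ex_sum] at h1
  have h0 : 0 ≤ Λ * τ := mul_nonneg (by linarith) hτ
  have h2 : ∀ s ∈ range N, Ex N (splitSum (s + 1)
      (fun I W => CG j q e H Λ L (s + 1) R I * Λ ^ cntX j q e H L (R + I + W) W))
      ≤ (1 / 4) ^ (s + 1) * 2 := by
    intro s hs
    have hs' := mem_range.1 hs
    rw [Ex_splitSum]
    have h3 : Ex (s + 1) (fun I => Ex (N - (s + 1))
        (fun W => CG j q e H Λ L (s + 1) R I * Λ ^ cntX j q e H L (R + I + W) W))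
        ≤ Ex (s + 1) (fun I => CG j q e H Λ L (s + 1) R I * 2) := by
      refine Ex_mono (fun I _ => ?_)
      rw [Ex_mul]
      exact mul_le_mul_of_nonneg_left (ih _ (by omega) (by omega) (R + I)) (CG_nonneg hΛ _ _ _)
    rw [Ex_mul'] at h3
    have h4 := CG_mean (j := j) (L := L) hq hΛ hH hτ (r := s + 1) (by omega) (by omega)
      (hc _ (by omega) (by omega)) R
    have h5 : (N.choose (s + 1) : ℝ) ≤ (j : ℝ) ^ (s + 1) := by
      exact_mod_cast (Nat.choose_le_pow _ _).trans (Nat.pow_le_pow_left hN _)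
    have h6 : (j : ℝ) ^ (s + 1) * (Λ * τ) ^ (s + 1) ≤ (1 / 4) ^ (s + 1) := by
      rw [← mul_pow]
      exact pow_le_pow_left₀ (by positivity) hj _
    have h7 : Ex (s + 1) (fun I => CG j q e H Λ L (s + 1) R I)
      = Ex (s + 1) (CG j q e H Λ L (s + 1) R) := rfl
    calc _ ≤ (N.choose (s + 1) : ℝ) * ((Λ * τ) ^ (s + 1) * 2) :=
          mul_le_mul_of_nonneg_left (by linarith) (Nat.cast_nonneg _)
      _ ≤ (j : ℝ) ^ (s + 1) * ((Λ * τ) ^ (s + 1) * 2) :=
          mul_le_mul_of_nonneg_right h5 (by positivity)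
      _ ≤ _ := by linarith
  have h4 := sum_le_sum h2
  have h5 : ∀ M : ℕ, ∑ s ∈ range M, (1 / 4 : ℝ) ^ (s + 1) * 2 = 2 / 3 * (1 - (1 / 4) ^ M) := by
    intro M
    induction M with
    | zero => simp
    | succ M ihM => rw [sum_range_succ, ihM]; ring
  rw [h5] at h4
  have h6 : (0 : ℝ) ≤ (1 / 4) ^ N := by positivity
  linarith

lemma II_mono (h0 : 0 ≤ q) (h1 : q ≤ 1) (n : ℕ) {f g : Multiset V → Multiset V → ℝ}
    (h : ∀ W J, J.card = j → f W J ≤ g W J) : II j q n f ≤ II j q n g :=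
  sum_le_sum fun _ _ => mul_le_mul_of_nonneg_left
    (En_mono h0 h1 _ _ fun W => Ex_mono (h W)) (by positivity)

lemma II_add (n : ℕ) (f g : Multiset V → Multiset V → ℝ) :
    II j q n (fun W J => f W J + g W J) = II j q n f + II j q n g := by
  simp only [II, Ex_add, En_add, mul_add, sum_add_distrib]

lemma II_mul (n : ℕ) (c : ℝ) (f : Multiset V → Multiset V → ℝ) :
    II j q n (fun W J => c * f W J) = c * II j q n f := by
  simp only [II, Ex_mul, En_mul, mul_sum, mul_left_comm _ c]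

lemma II_Ex (n y : ℕ) (f : Multiset V → Multiset V → Multiset V → ℝ) :
    Ex y (fun Y => II j q n (f Y)) = II j q n (fun W J => Ex y (fun Y => f Y W J)) := by
  unfold II
  rw [Ex_sum]
  refine sum_congr rfl fun t _ => ?_
  rw [Ex_mul, En_Ex]
  congr 2
  funext W
  exact Ex_comm _ _ _

lemma II_le (hj : 1 ≤ j) (h0 : 0 ≤ q) (h1 : q ≤ 1) (n : ℕ) {f : Multiset V → Multiset V → ℝ}
    {c : ℝ} (h : ∀ W, Ex j (f W) ≤ c) : II j q n f ≤ (n.choose j : ℝ) * q ^ j * c := by
  obtain ⟨r, rfl⟩ : ∃ r, j = r + 1 := ⟨j - 1, by omega⟩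
  have a1 : ∀ n : ℕ, ∑ t ∈ range n, (t.choose r : ℝ) = n.choose (r + 1) := fun n => by
    induction n with
    | zero => simp
    | succ n ih => rw [sum_range_succ, ih, Nat.choose_succ_succ']; push_cast; ring
  rw [← a1, sum_mul, sum_mul]
  refine sum_le_sum fun t _ => mul_le_mul_of_nonneg_left ?_ (by positivity)
  exact (En_mono h0 h1 _ _ h).trans (En_const _ _ _).le

lemma II_jensen (h0 : 0 ≤ q) (h1 : q ≤ 1) (n : ℕ) {d : ℝ} (hd : 0 < d)
    (φ s : Multiset V → Multiset V → ℝ) (hφ : ∀ W J, 0 ≤ φ W J) (hφd : II j q n φ ≤ d) :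
    Real.exp (II j q n (fun W J => φ W J * s W J) / d)
      ≤ 1 + II j q n (fun W J => φ W J * Real.exp (s W J)) / d := by
  obtain ⟨t, ht⟩ : ∃ t, t = II j q n (fun W J => φ W J * s W J) / d := ⟨_, rfl⟩
  have key : ∀ u, Real.exp t * (1 - t) + Real.exp t * u ≤ Real.exp u := fun u => by
    have := mul_le_mul_of_nonneg_left (Real.add_one_le_exp (u - t)) (Real.exp_pos t).le
    rw [← Real.exp_add, add_sub_cancel] at this
    linarith
  have a1 : II j q n (fun W J => Real.exp t * (1 - t) * φ W J + Real.exp t * (φ W J * s W J))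
      ≤ II j q n (fun W J => φ W J * Real.exp (s W J)) := II_mono h0 h1 n fun W J _ => by
    have := mul_le_mul_of_nonneg_left (key (s W J)) (hφ W J)
    linarith
  rw [II_add, II_mul, II_mul] at a1
  have a2 := key 0
  rw [Real.exp_zero, mul_zero, add_zero] at a2
  have a3 := mul_le_mul_of_nonneg_left a2 (sub_nonneg.2 hφd)
  have a4 : 0 ≤ II j q n φ := by
    have := II_mono (j := j) h0 h1 n (f := fun W J => 0 * φ W J) (g := φ)
      fun W J _ => by linarith [hφ W J]
    rwa [II_mul, zero_mul] at this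
  rw [← ht, one_add_div hd.ne', le_div_iff₀ hd]
  rw [eq_div_iff hd.ne'] at ht
  rw [← ht] at a1
  have a5 : II j q n (fun W J => φ W J) = II j q n φ := rfl
  linarith

lemma cntX_sym (r : ℕ) (φ : Multiset V → ℝ) (W : Multiset V) :
    Ex (r + 1) (fun J => φ J * cntX j q e H L (W + J) J)
      = (r + 1) * Ex r (fun R => 𝔼 x, φ (x ::ₘ R) * ind (CovX j q e H L (W + R) x)) := by
  classical
  have := Ex_splitSum (r + 1) 1
    (fun I R : Multiset V => φ (I + R) * (I.map fun x => ind (CovX j q e H L (W + R) x)).sum)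
  rw [Nat.choose_one_right, Nat.add_sub_cancel, Ex_succ 0] at this
  simp only [Ex_zero, Multiset.cons_zero, Multiset.singleton_add, Multiset.map_singleton,
    Multiset.sum_singleton] at this
  rw [Ex_expect, ← Nat.cast_add_one, ← this]
  refine Ex_congr fun J _ => ?_
  rw [splitSum_one]
  simp only [Multiset.singleton_add, Multiset.map_singleton, Multiset.sum_singleton]
  rw [Multiset.map_congr rfl (g := fun x => φ J * ind (CovX j q e H L ((W + J).erase x) x))
    fun x hx => by rw [Multiset.cons_erase hx, Multiset.erase_add_right_pos _ hx],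
    Multiset.sum_map_mul_left]
  congr 1
  unfold cntX
  have : ∀ (P : V → Prop) (_ : DecidablePred P) (M : Multiset V),
      (M.countP P : ℝ) = (M.map fun x => ind (P x)).sum := fun P _ M => by
    induction M using Multiset.induction_on with
    | empty => simp
    | cons a M ih => by_cases h : P a <;> simp [ind, h, ih, add_comm]
  exact this _ _ _

lemma XX_init (hj : 1 ≤ j) (h0 : 0 ≤ q) (h1 : q ≤ 1) (hH : 0 < H) (n : ℕ) :
    j * XX j q e H L L' n 0
      ≤ II j q n (fun W J => ind (L J) * cntX j q e (Real.exp 50 * H) L' (W + J) J) := by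
  obtain ⟨r, rfl⟩ : ∃ r, j = r + 1 := ⟨j - 1, by omega⟩
  have a1 : ∀ W, RR (r + 1) q e H L L' W ≤ splitSum r (fun ω W' => q * 𝔼 x, ind (L (x ::ₘ ω))
      * ind (CovX (r + 1) q e (Real.exp 50 * H) L' (W' + ω) x)) W := fun W => by
    rw [splitSum_mul, splitSum_expect]
    refine mul_le_mul_of_nonneg_left (expect_le_expect fun x _ => ?_) h0
    calc _ ≤ ind (CovX (r + 1) q e (Real.exp 50 * H) L' W x) * rel (r + 1) (gL L) W x := by
          rw [CovX, ind_and, mul_assoc, mul_comm]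
          exact mul_le_mul (mul_le_mul_of_nonneg_left (chi_le_ind hH _) (ind_nonneg _))
            (ind_rel_le W x) (ind_nonneg _) (mul_nonneg (ind_nonneg _) (ind_nonneg _))
      _ ≤ _ := by
          rw [rel, SS, ← splitSum_mul]
          refine splitSum_mono fun I J hIJ _ => ?_
          rw [add_comm J I, hIJ, mul_comm]
          rfl
  rw [XX, mul_sum]
  refine sum_le_sum fun t _ => ?_
  have a2 := En_mono h0 h1 t 0 a1
  rw [mecke, En_Ex] at a2
  simp only [Ex_mul, En_mul] at a2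
  simp only [cntX_sym r (fun J => ind (L J)), En_mul, Nat.add_sub_cancel]
  refine (mul_le_mul_of_nonneg_left a2 (Nat.cast_nonneg _)).trans (le_of_eq ?_)
  push_cast
  ring

/-- the initial cross potential averaged over pairs of links -/
theorem startG {y n : ℕ} (hj : 1 ≤ j) (h0 : 0 ≤ q) (h1 : q ≤ 1) (hH : 0 < H) {h d β κ : ℝ}
    (hh : (n.choose j : ℝ) * q ^ j ≤ h) (hh0 : 0 < h) (hd : 0 < d) (hκ : 0 ≤ κ)
    (hΛ : Real.exp (h * d / (2 * j)) ≤ Λ) (hτ : 0 ≤ τ)
    (hc : ∀ r, 1 ≤ r → r ≤ j → Real.exp 50 * H ≤ τ ^ r * ((e.choose r : ℝ) * q ^ r))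
    (hjτ : j * (Λ * τ) ≤ 1 / 4)
    (L : Multiset V → Multiset V → Prop) (bad : Multiset V → Prop)
    (hgood : ∀ J, J.card = j → ¬ bad J → Ex y (fun Y => ind (L Y J)) ≤ κ)
    (ok : Multiset V → Prop)
    (hok : ∀ Y, ok Y → Ex j (fun J => ind (L Y J)) ≤ d ∧
      Ex j (fun J => ind (L Y J) * ind (bad J)) ≤ β) (Y' : Multiset V) :
    Ex y (fun Y => ind (ok Y) * Real.exp (XX j q e H (L Y) (L Y') n 0 / 2))
      ≤ Real.exp (h * β / 2) * (1 + 2 * κ / d) := by
  have j0 : (0 : ℝ) < j := by exact_mod_cast hj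
  have hΛ1 : 1 ≤ Λ := (Real.one_le_exp (by positivity)).trans hΛ
  have i0 := ind_nonneg
  set c : Multiset V → Multiset V → ℕ :=
    fun W J => cntX j q e (Real.exp 50 * H) (L Y') (W + J) J with hc'
  set B : Multiset V → ℝ := fun Y =>
    II j q n (fun W J => ind (L Y J) * (ind (¬ bad J) * Λ ^ c W J)) with hB
  have B0 : ∀ Y, 0 ≤ B Y := fun Y => by
    have := II_mono (j := j) h0 h1 n (f := fun W J => 0 * ind (L Y J))
      (g := fun W J => ind (L Y J) * (ind (¬ bad J) * Λ ^ c W J))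
      fun W J _ => by rw [zero_mul]; exact mul_nonneg (i0 _) (mul_nonneg (i0 _) (by positivity))
    rwa [II_mul, zero_mul] at this
  have B1 : Ex y B ≤ κ * (h * 2) := by
    rw [hB, II_Ex]
    refine (II_mono h0 h1 n (g := fun W J => κ * Λ ^ c W J) fun W J hJ => ?_).trans ?_
    · rw [Ex_mul']
      by_cases hb : bad J
      · rw [ind_neg (not_not.2 hb), zero_mul, mul_zero]; positivity
      · rw [ind_pos hb, one_mul]
        exact mul_le_mul_of_nonneg_right (hgood J hJ hb) (by positivity)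
    · rw [II_mul]
      refine mul_le_mul_of_nonneg_left ((II_le hj h0 h1 n fun W =>
        coverG h0 hΛ1 (by positivity) hτ hc hjτ j le_rfl W).trans (by linarith)) hκ
  have a1 : ∀ Y, ok Y → Real.exp (XX j q e H (L Y) (L Y') n 0 / 2)
      ≤ Real.exp (h * β / 2) * (1 + B Y / (h * d)) := fun Y hY => by
    have b1 := XX_init (e := e) (L := L Y) (L' := L Y') hj h0 h1 hH n
    have b2 : II j q n (fun W J => ind (L Y J) * (c W J : ℝ))
        ≤ II j q n (fun W J => j * (ind (L Y J) * ind (bad J))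
          + 2 * j / (h * d) * (ind (L Y J) * ind (¬ bad J) * (c W J * (h * d / (2 * j))))) := by
      refine II_mono h0 h1 n fun W J hJ => ?_
      have c1 : (c W J : ℝ) ≤ j := by
        classical
        exact_mod_cast hJ ▸ Multiset.countP_le_card _ _
      by_cases hb : bad J
      · rw [ind_pos hb, ind_neg (not_not.2 hb)]
        nlinarith [i0 (L Y J)]
      · rw [ind_neg hb, ind_pos hb]
        refine le_of_eq ?_
        field_simp
        ring
    rw [II_add, II_mul, II_mul] at b2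
    have β0 : 0 ≤ β := (Ex_nonneg fun _ _ => mul_nonneg (i0 _) (i0 _)).trans (hok Y hY).2
    have b3 : II j q n (fun _ J => ind (L Y J) * ind (bad J)) ≤ h * β :=
      (II_le hj h0 h1 n fun _ => (hok Y hY).2).trans (mul_le_mul_of_nonneg_right hh β0)
    have b4 := II_jensen (j := j) h0 h1 n (mul_pos hh0 hd)
      (fun _ J => ind (L Y J) * ind (¬ bad J)) (fun W J => c W J * (h * d / (2 * j)))
      (fun _ J => mul_nonneg (i0 _) (i0 _))
      ((II_le hj h0 h1 n fun _ => (Ex_mono fun J _ => mul_le_of_le_one_right (i0 _)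
        (ind_le_one _)).trans (hok Y hY).1).trans (mul_le_mul_of_nonneg_right hh hd.le))
    have b5 : II j q n (fun W J => ind (L Y J) * ind (¬ bad J)
        * Real.exp (c W J * (h * d / (2 * j)))) ≤ B Y := by
      refine II_mono h0 h1 n fun W J _ => ?_
      rw [mul_assoc, Real.exp_nat_mul]
      exact mul_le_mul_of_nonneg_left (mul_le_mul_of_nonneg_left
        (pow_le_pow_left₀ (Real.exp_pos _).le hΛ _) (i0 _)) (i0 _)
    generalize II j q n (fun W J => ind (L Y J) * ind (¬ bad J)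
      * (c W J * (h * d / (2 * j)))) = A at b2 b4
    calc _ ≤ Real.exp (h * β / 2) * Real.exp (A / (h * d)) := by
          rw [← Real.exp_add, Real.exp_le_exp]
          refine le_of_mul_le_mul_left ?_ j0
          have b6 := mul_le_mul_of_nonneg_left b3 j0.le
          have b7 : 2 * j / (h * d) * A = 2 * (j * (A / (h * d))) := by ring
          linarith
      _ ≤ _ := by
          refine mul_le_mul_of_nonneg_left (b4.trans ?_) (Real.exp_pos _).le
          gcongr
  calc _ ≤ Ex y (fun Y => Real.exp (h * β / 2) * (1 + (h * d)⁻¹ * B Y)) := by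
        refine Ex_mono fun Y _ => ?_
        by_cases k : ok Y
        · rw [ind_pos k, one_mul, ← div_eq_inv_mul]; exact a1 Y k
        · rw [ind_neg k, zero_mul]
          have := B0 Y
          positivity
    _ ≤ _ := by
        rw [Ex_mul, Ex_add, Ex_const, Ex_mul]
        refine mul_le_mul_of_nonneg_left ?_ (Real.exp_pos _).le
        have b1 := mul_le_mul_of_nonneg_left B1 (inv_nonneg.2 (mul_pos hh0 hd).le)
        have b2 : (h * d)⁻¹ * (κ * (h * 2)) = 2 * κ / d := by field_simp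
        have b3 : Ex y (fun Y => B Y) = Ex y B := rfl
        linarith

end Pool.Agent.P.MP_7badbe_co
end

-- part Pool.Agent.P.MP_7badbe_co.Gr.D
section

set_option autoImplicit false
set_option linter.unusedSectionVars false

open Finset Filter Topology
open scoped BigOperators

namespace Pool.Agent.P.MP_7badbe_co

variable {V : Type} [Fintype V] [Nonempty V]

/-- the numerical conditions of the lower bound for growing `j` -/
def ParG (j m : ℕ) (δ : ℝ) : Prop :=
  ∃ (y z n e M t : ℕ) (q eps ξ H τ ε₃ Λ h : ℝ),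
    z + y + j = m + 1 ∧ y ≤ z ∧ 1 ≤ e ∧ 1 ≤ M ∧ M * j ≤ y + j ∧
    0 < q ∧ q < 1 ∧ (m : ℝ) < n * q ∧ 0 < δ ∧ 0 < eps ∧ 2 ≤ ξ ∧ 0 < H ∧ 0 ≤ τ ∧ 0 < ε₃ ∧
    0 < h ∧ ((n + e).choose j : ℝ) * q ^ j ≤ h ∧
    8 * (√(n * q) + j * (h * ((1 + eps) * δ))) ≤ n * q - m ∧
    8 * (h * ((1 + eps) * δ)) ≤ H ∧
    (∀ r, 1 ≤ r → r ≤ j → Real.exp 50 * H ≤ τ ^ r * ((e.choose r : ℝ) * q ^ r)) ∧
    j * (Λ * τ) ≤ 1 / 4 ∧ Real.exp (h * ((1 + eps) * δ) / (2 * j)) ≤ Λ ∧
    1 / ξ + (t / M + 2 ^ M / (ξ ^ t * M * δ)) / ε₃ ≤ eps / (1 + eps) / 8 ∧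
    z * δ * (Real.exp (h * ((1 + eps) * δ) / 2 + n * q ^ 2 / (1 - q))
      * (Real.exp (h * (ε₃ * δ) / 2) * (1 + 2 * ξ ^ 2))) < (eps / (1 + eps) / 4) ^ 2

lemma pairG' {j e m n : ℕ} {q H d h : ℝ} {L L' : Multiset V → Prop} (hj : 1 ≤ j) (he : 1 ≤ e)
    (h0 : 0 ≤ q) (h1 : q < 1) (hH : 0 < H) (hh : ((n + e).choose j : ℝ) * q ^ j ≤ h)
    (hd : Ex j (fun J => ind (L J)) ≤ d) (hd' : Ex j (fun J => ind (L' J)) ≤ d) :
    nu2 q (rhoG j q e L) (rhoG j q e L') n 0 (fun W => PsiG j q e m H L W * PsiG j q e m H L' W)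
      ≤ Real.exp (h * d / 2 + n * q ^ 2 / (1 - q)) * Real.exp (XX j q e H L L' n 0 / 2) := by
  refine le_trans (nu2_mono h0 h1 (rhoG_mem h0) (rhoG_mem h0) n fun W _ => ?_)
    ((pairG hj he h0 h1 hH n 0).trans ?_)
  · unfold PsiG
    rw [← ind_and]
    refine ind_mono fun k => ?_
    have := k.2.2
    rwa [Pot_eq_PP, zero_add] at this
  · have a1 : ∀ K : Multiset V → Prop, Ex j (fun J => ind (K J)) ≤ d →
        Pot j q e (gL K) n 0 ≤ h * d := fun K hK => by
      rw [Pot_nil hj, GG_gL K (show (0 : Multiset V).card < j from hj)]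
      simp only [Multiset.card_zero, Nat.sub_zero, zero_add]
      exact mul_le_mul hh hK (Ex_nonneg fun _ _ => ind_nonneg _) (le_trans (by positivity) hh)
    rw [← Real.exp_add, Real.exp_le_exp]
    linarith [a1 L hd, a1 L' hd']

theorem masterG {i j m : ℕ} (hj : 1 ≤ j) (hi : i + j = m + 1) {δ : ℝ} (hP : ParG j m δ)
    (g : Multiset V → Prop) (hg : Hit i m g) : δ < Ex (m + 1) (fun M => ind (g M)) := by
  obtain ⟨y, z, n, e, M, t, q, eps, ξ, H, τ, ε₃, Λ, h, p1, p2, p3, p4, p5, p6, h1, p8, p10,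
    p11, p12, p15, p16, p17, hh0, hh, c3, c4, c5, c6, c9, c7, c10⟩ := hP
  by_contra hδ
  rw [not_lt] at hδ
  set d := (1 + eps) * δ with hd
  set p0 := eps / (1 + eps) with hp0
  have hd0 : 0 < d := by positivity
  have hp00 : 0 < p0 := by positivity
  have hiz : z + y = i := by omega
  have hhd := mul_le_mul_of_nonneg_right hh hd0.le
  -- the planted masses
  set A : Multiset V → Multiset V → ℝ := fun S Z => ind (Ex j (fun J => ind (g (S + J))) ≤ d) *
    nu1 q (rhoG j q e (fun J => g (S + J))) n 0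
      (fun W => PsiG j q e m H (fun J => g (S + J)) W * HH g m Z W) with hA
  have hPsi0 : ∀ (L : Multiset V → Prop) W, 0 ≤ PsiG j q e m H L W := fun _ _ => ind_nonneg _
  have hPsi1 : ∀ (L : Multiset V → Prop) W, PsiG j q e m H L W ≤ 1 := fun _ _ => ind_le_one _
  have A1 : ∀ S Z Z', A S Z ≤ A S (Z + Z') := fun S Z Z' =>
    mul_le_mul_of_nonneg_left (nuG_mono p6.le h1 fun W =>
      mul_le_mul_of_nonneg_left (HH_mono _ _ _ _ _) (hPsi0 _ _)) (ind_nonneg _)
  have A2 : ∀ S Z Y, A S (Z + Y) ≤ A S Z + A S Y := fun S Z Y => by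
    simp only [hA]
    rw [← mul_add, ← nu1_add]
    refine mul_le_mul_of_nonneg_left (nuG_mono p6.le h1 fun W => ?_) (ind_nonneg _)
    rw [← mul_add]
    exact mul_le_mul_of_nonneg_left (HH_add _ _ _ _ _) (hPsi0 _ _)
  have A3 : ∀ S : Multiset V, S.card = i →
      3 / 4 * (1 - ind (d < Ex j (fun J => ind (g (S + J))))) ≤ A S S := fun S hS => by
    simp only [hA]
    by_cases k : Ex j (fun J => ind (g (S + J))) ≤ d
    · rw [ind_pos k, ind_neg (not_lt.2 k), one_mul, sub_zero, mul_one]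
      refine (goodG (e := e) (m := m) hj p6.le h1 p8 p15 k
        (by linarith [mul_le_mul_of_nonneg_left hhd (Nat.cast_nonneg (α := ℝ) j)])
        (by linarith)).trans ?_
      refine nu1_mono p6.le h1 (rhoG_mem p6.le) (IndT j (fun J => g (S + J)))
        (fun _ _ _ hT hx => indT_stepG hj hT hx) n (fun J hJ hc => ?_) (fun W hW => ?_)
      · rw [Multiset.le_zero.1 hJ] at hc
        simp at hc; omega
      · unfold PsiG
        by_cases k2 : m ≤ W.card ∧ Pot j q e (gL fun J => g (S + J)) 0 W ≤ H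
        · rw [ind_pos k2, one_mul]; exact HH_full hi hg hS hW k2.1
        · rw [ind_neg k2, zero_mul]
    · rw [ind_neg k, ind_pos (not_le.1 k)]; simp
  have A4 : 3 / 4 * p0 ≤ Ex z (fun Z => Ex y (fun Y => A (Z + Y) (Z + Y))) := by
    rw [← Ex_split z y (fun S => A S S), hiz]
    refine le_trans ?_ (Ex_mono A3)
    rw [Ex_mul, Ex_sub, Ex_const]
    have k1 := Ex_markov (m := i) (F := fun S : Multiset V => Ex j (fun J => ind (g (S + J))))
      (fun _ => Ex_nonneg fun _ _ => ind_nonneg _) hd0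
    rw [← Ex_split i j (fun M => ind (g M)), hi] at k1
    have k2 : Ex (m + 1) (fun M => ind (g M)) / d ≤ 1 - p0 := by
      rw [div_le_iff₀ hd0, hp0, hd]
      have : (1 - eps / (1 + eps)) * ((1 + eps) * δ) = δ := by field_simp; ring
      linarith
    linarith
  have A5 : 3 / 8 * p0 ≤ Ex z (fun Z => Ex y (fun Y => A (Z + Y) Z)) := by
    have k1 : Ex z (fun Z => Ex y (fun Y => A (Z + Y) (Z + Y)))
        ≤ Ex z (fun Z => Ex y (fun Y => A (Z + Y) Z))
          + Ex z (fun Z => Ex y (fun Y => A (Z + Y) Y)) := by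
      rw [← Ex_add]
      refine Ex_mono fun Z _ => ?_
      rw [← Ex_add]
      exact Ex_mono fun Y _ => A2 _ _ _
    linarith [Mas_swap p2 A A1]
  -- good splits
  set bad : Multiset V → Multiset V → Prop := fun Z J =>
    ξ ^ 2 * δ < Ex y (fun Y' => ind (g (Z + Y' + J))) with hbad
  set ok : Multiset V → Multiset V → Prop := fun Z Y =>
    Ex j (fun J => ind (g (Z + Y + J))) ≤ d ∧
      Ex j (fun J => ind (g (Z + Y + J)) * ind (bad Z J)) ≤ ε₃ * δ with hok
  set Φ : Multiset V → Multiset V → Multiset V → ℝ := fun Z Y W =>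
    ind (ok Z Y) * PsiG j q e m H (fun J => g (Z + Y + J)) W with hΦ
  have B1 : p0 / 4 ≤ Ex z (fun Z => Ex y (fun Y => nu1 q (rhoG j q e (fun J => g (Z + Y + J))) n 0
      (fun W => Φ Z Y W * HH g m Z W))) := by
    have k1 := bad_split (t := t) p4 p5 p10 p12 p17 g (by rw [p1]; exact hδ)
    have k2 : Ex z (fun Z => Ex y (fun Y => A (Z + Y) Z)) ≤ Ex z (fun Z => Ex y (fun Y =>
        nu1 q (rhoG j q e (fun J => g (Z + Y + J))) n 0 (fun W => Φ Z Y W * HH g m Z W)))
        + Ex z (fun Z => Ex y (fun Y => ind (ε₃ * δ < Ex j (fun J => ind (g (Z + Y + J))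
          * ind (bad Z J))))) := by
      rw [← Ex_add]
      refine Ex_mono fun Z _ => ?_
      rw [← Ex_add]
      refine Ex_mono fun Y _ => ?_
      simp only [hA, hΦ, mul_assoc]
      rw [nu1_mul]
      have k3 : nu1 q (rhoG j q e (fun J => g (Z + Y + J))) n 0
          (fun W => PsiG j q e m H (fun J => g (Z + Y + J)) W * HH g m Z W) ≤ 1 := by
        rw [← nu1_const (V := V) (ρ := rhoG j q e (fun J => g (Z + Y + J))) h1 n 0 1]
        exact nuG_mono p6.le h1 fun W =>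
          mul_le_one₀ (hPsi1 _ _) (HH_nonneg _ _ _ _) (HH_le_one _ _ _ _)
      have k4 : 0 ≤ nu1 q (rhoG j q e (fun J => g (Z + Y + J))) n 0
          (fun W => PsiG j q e m H (fun J => g (Z + Y + J)) W * HH g m Z W) := by
        rw [← nu1_const (V := V) (ρ := rhoG j q e (fun J => g (Z + Y + J))) h1 n 0 0]
        exact nuG_mono p6.le h1 fun W => mul_nonneg (hPsi0 _ _) (HH_nonneg _ _ _ _)
      by_cases k5 : Ex j (fun J => ind (g (Z + Y + J))) ≤ d
      · by_cases k6 : Ex j (fun J => ind (g (Z + Y + J)) * ind (bad Z J)) ≤ ε₃ * δ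
        · rw [ind_pos k5, ind_pos (P := ok Z Y) ⟨k5, k6⟩]
          linarith [ind_nonneg (ε₃ * δ < Ex j (fun J => ind (g (Z + Y + J)) * ind (bad Z J)))]
        · rw [ind_pos k5, ind_pos (not_le.1 k6)]
          nlinarith [ind_nonneg (ok Z Y)]
      · rw [ind_neg k5, zero_mul]
        exact add_nonneg (mul_nonneg (ind_nonneg _) k4) (ind_nonneg _)
    linarith
  -- second moment
  set Bd := Real.exp (h * d / 2 + n * q ^ 2 / (1 - q))
      * (Real.exp (h * (ε₃ * δ) / 2) * (1 + 2 * ξ ^ 2)) with hBd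
  have hBd0 : 0 < Bd := by positivity
  have B2 : ∀ Z, Ex y (fun Y => Ex y (fun Y' => nu2 q (rhoG j q e (fun J => g (Z + Y + J)))
      (rhoG j q e (fun J => g (Z + Y' + J))) n 0 (fun W => Φ Z Y W * Φ Z Y' W))) ≤ Bd := by
    intro Z
    rw [Ex_comm]
    refine Ex_le fun Y' _ => ?_
    have k0 : (n.choose j : ℝ) * q ^ j ≤ h := le_trans (mul_le_mul_of_nonneg_right
      (by exact_mod_cast Nat.choose_le_choose _ (Nat.le_add_right n e)) (by positivity)) hh
    have k1 := startG (y := y) (β := ε₃ * δ) hj p6.le h1.le p15 k0 hh0 hd0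
      (show 0 ≤ ξ ^ 2 * δ by positivity) c9 p16 c5 c6 (fun Y J => g (Z + Y + J)) (bad Z)
      (fun J _ hJ => not_lt.1 hJ) (ok Z) (fun Y hY => hY) Y'
    have k2 : 2 * (ξ ^ 2 * δ) / d ≤ 2 * ξ ^ 2 := by
      rw [div_le_iff₀ hd0, hd]
      have : 0 ≤ ξ ^ 2 * (eps * δ) := by positivity
      nlinarith
    have k3 : Real.exp (h * (ε₃ * δ) / 2) * (1 + 2 * (ξ ^ 2 * δ) / d)
        ≤ Real.exp (h * (ε₃ * δ) / 2) * (1 + 2 * ξ ^ 2) := by gcongr
    refine le_trans ?_ (mul_le_mul_of_nonneg_left (k1.trans k3) (by positivity))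
    rw [← Ex_mul]
    refine Ex_mono fun Y _ => ?_
    have k4 : (fun W => Φ Z Y W * Φ Z Y' W) = fun W => ind (ok Z Y) * ind (ok Z Y') *
        (PsiG j q e m H (fun J => g (Z + Y + J)) W
          * PsiG j q e m H (fun J => g (Z + Y' + J)) W) := by
      funext W; simp only [hΦ]; ring
    rw [k4, nu2_mul, ← ind_and]
    by_cases k5 : ok Z Y ∧ ok Z Y'
    · rw [ind_pos k5, ind_pos k5.1, one_mul, one_mul]
      exact pairG' hj p3 p6.le h1 p15 hh k5.1.1 k5.2.1
    · rw [ind_neg k5, zero_mul]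
      exact mul_nonneg (Real.exp_pos _).le (mul_nonneg (ind_nonneg _) (Real.exp_pos _).le)
  have ht : 0 < p0 / 4 / Bd := by positivity
  have B3 : Ex z (fun Z => Ex y (fun Y => nu1 q (rhoG j q e (fun J => g (Z + Y + J))) n 0
      (fun W => Φ Z Y W * HH g m Z W)))
      ≤ p0 / 4 / Bd / 2 * Bd + 1 / (2 * (p0 / 4 / Bd)) * (z * δ) := by
    refine le_trans (Ex_mono (G := fun Z => p0 / 4 / Bd / 2 * Bd + 1 / (2 * (p0 / 4 / Bd))
      * En q n 0 (fun W => HH g m Z W ^ 2)) fun Z _ => ?_) ?_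
    · refine (amgm p6.le h1 (fun Y => rhoG j q e (fun J => g (Z + Y + J))) (Φ Z) (HH g m Z) y n
        ht).trans ?_
      gcongr
      exact B2 Z
    · rw [Ex_add, Ex_const, Ex_mul]
      gcongr
      exact HH_null p6.le h1.le g m z n hδ
  have B4 : p0 / 4 / Bd / 2 * Bd = p0 / 8 := by field_simp; ring
  have B5 : 1 / (2 * (p0 / 4 / Bd)) * (z * δ) = z * δ * Bd * (2 / p0) := by field_simp; ring
  have B6 : z * δ * Bd * (2 / p0) < (p0 / 4) ^ 2 * (2 / p0) :=
    mul_lt_mul_of_pos_right c10 (by positivity)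
  have B7 : (p0 / 4) ^ 2 * (2 / p0) = p0 / 8 := by field_simp; ring
  linarith

end Pool.Agent.P.MP_7badbe_co
end

-- part Pool.Agent.P.MP_7badbe_co.Gr.E
section

set_option autoImplicit false
set_option linter.unusedSectionVars false

open Finset Filter Topology
open scoped BigOperators

namespace Pool.Agent.P.MP_7badbe_co

lemma gr_choose_ge (n r : ℕ) {b : ℝ} (hb : 0 ≤ b) (h : b + r ≤ n) :
    b ^ r / r.factorial ≤ n.choose r := by
  refine le_trans ?_ (Nat.pow_le_choose r n)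
  have h1 : r ≤ n + 1 := by
    have : (r : ℝ) ≤ n := by linarith
    have : r ≤ n := by exact_mod_cast this
    omega
  gcongr
  rw [Nat.cast_sub h1]
  push_cast
  linarith

lemma gr_choose_ge' (n r : ℕ) {b s : ℝ} (hb : 0 ≤ b) (h : b + r ≤ n) (hs : r ≤ s) :
    (b / s) ^ r ≤ n.choose r := by
  refine le_trans ?_ (gr_choose_ge n r hb h)
  have h1 : (r.factorial : ℝ) ≤ s ^ r := by
    refine le_trans ?_ (pow_le_pow_left₀ (Nat.cast_nonneg r) hs r)
    exact_mod_cast Nat.factorial_le_pow r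
  rw [div_pow]
  exact div_le_div_of_nonneg_left (by positivity) (by positivity) h1

lemma gr_ratio {k a j : ℕ} {η : ℝ} (hη : 0 < η) (hη1 : η ≤ 1) (hj : (j : ℝ) < k)
    (h : (j : ℝ) * ((2 * a + j) / (k - j)) ≤ η / 2) :
    ((k * (k + a) + k * a).choose j : ℝ) * (1 / (k : ℝ)) ^ j ≤ (1 + η) * k.choose j := by
  have k0 : (0 : ℝ) < k := lt_of_le_of_lt (Nat.cast_nonneg _) hj
  have d0 : (0 : ℝ) < k - j := by linarith
  set w : ℝ := (2 * a + j) / (k - j) with hw
  have w0 : 0 ≤ w := by positivity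
  have a1 : ((k * (k + a) + k * a).choose j : ℝ) ≤ (k * ((1 + w) * (k - j))) ^ j / j.factorial := by
    refine (Nat.choose_le_pow_div j _).trans (le_of_eq ?_)
    congr 2
    rw [hw]
    push_cast
    field_simp
    ring
  have a2 : (1 + w) ^ j ≤ 1 + η := by
    have b1 : (1 + w) ^ j ≤ Real.exp (η / 2) := by
      refine (pow_le_pow_left₀ (by positivity) (show 1 + w ≤ Real.exp w by
        linarith [Real.add_one_le_exp w]) j).trans ?_
      rw [← Real.exp_nat_mul]
      exact Real.exp_le_exp.2 h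
    have b2 := Rho_one_sub (η / 2)
    have b3 := Real.exp_pos (η / 2)
    refine b1.trans (le_of_mul_le_mul_left (b2.trans ?_) (show 0 < 1 - η / 2 by linarith))
    nlinarith
  have a3 := gr_choose_ge k j d0.le (by linarith)
  calc _ ≤ (k * ((1 + w) * (k - j))) ^ j / j.factorial * (1 / (k : ℝ)) ^ j := by gcongr
    _ = (1 + w) ^ j * ((k - j) ^ j / j.factorial) := by
        rw [mul_pow, mul_pow, one_div, inv_pow]
        field_simp
    _ ≤ _ := by gcongr

theorem parG_main {j m N : ℕ} {ε R : ℝ} (hε : 0 < ε) (hε1 : ε ≤ 1 / 2) (hN : 20 ≤ N * ε)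
    (hK : R ^ N = (m : ℝ) + 1) (hR1 : 128 * Real.exp 50 * N ≤ R) (hR2 : 4 ^ (8 * N ^ 2) ≤ R)
    (hR3 : 72 * (N : ℝ) ^ 2 ≤ R) (hj : N ≤ j) (hjR : j ≤ R) :
    ParG j m ((2 - 2 * ε) * j * Real.log (m + 1) / (m + 1).choose j) := by
  have N0 : (0 : ℝ) ≤ N := Nat.cast_nonneg _
  have N40 : (40 : ℝ) ≤ N := by linarith only [hN, mul_le_mul_of_nonneg_left hε1 N0]
  have N40' : 40 ≤ N := by exact_mod_cast N40
  have E50 : (51 : ℝ) ≤ Real.exp 50 := by linarith only [Real.add_one_le_exp 50]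
  have RN : 6528 * (N : ℝ) ≤ R := by linarith only [hR1, mul_le_mul_of_nonneg_right E50 N0]
  have R1 : (1000 : ℝ) ≤ R := by linarith only [RN, N40]
  have R0 : 0 < R := by linarith only [R1]
  have Rε : 100000 ≤ R * ε := by linarith only [hN, mul_le_mul_of_nonneg_right RN hε.le]
  have j1 : (40 : ℝ) ≤ j := N40.trans (by exact_mod_cast hj)
  have j0 : (0 : ℝ) < j := by linarith only [j1]
  obtain ⟨K, hKdef⟩ : ∃ K : ℝ, K = (m : ℝ) + 1 := ⟨_, rfl⟩
  rw [← hKdef] at hK ⊢
  have hKc : ((m + 1 : ℕ) : ℝ) = K := by push_cast; exact hKdef.symm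
  have KR : R ^ 8 ≤ K := hK ▸ pow_le_pow_right₀ (by linarith only [R1]) (by omega)
  have pp : ∀ s : ℕ, 1000 * R ^ s ≤ R ^ (s + 1) := fun s => by
    rw [pow_succ']; exact mul_le_mul_of_nonneg_right R1 (by positivity)
  have p2 : 1000 * R ≤ R ^ 2 := by simpa using pp 1
  have p3 : 1000 * R ^ 2 ≤ R ^ 3 := pp 2
  have p4 : 1000 * R ^ 3 ≤ R ^ 4 := pp 3
  have p5 : 1000 * R ^ 4 ≤ R ^ 5 := pp 4
  have p6 : 1000 * R ^ 5 ≤ R ^ 6 := pp 5
  have p7 : 1000 * R ^ 6 ≤ R ^ 7 := pp 6
  have p8 : 1000 * R ^ 7 ≤ R ^ 8 := pp 7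
  have q3 : 1000 * R ≤ R ^ 3 := by linarith only [p2, p3, R1]
  have q4 : 1000 * R ≤ R ^ 4 := by linarith only [p2, p3, p4, R1]
  have q6 : 1000 * R ^ 4 ≤ R ^ 6 := by linarith only [p5, p6, q4, R1]
  have q8 : 1000 * R ^ 3 ≤ K := by linarith only [KR, p8, p7, q6, p4, q3, R1]
  have RK : 1000 * R ≤ K := by linarith only [q8, q3, R1]
  have K0 : 0 < K := by linarith only [RK, R1]
  have Kε : 100000 ≤ ε * K := by
    linarith only [Rε, mul_le_mul_of_nonneg_right (show R ≤ K by linarith only [RK, R1]) hε.le]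
  obtain ⟨x, hx⟩ : ∃ x, x = Real.log K := ⟨_, rfl⟩
  rw [← hx]
  have xR : x = N * Real.log R := by rw [hx, ← hK, Real.log_pow]
  have lR : 1 ≤ Real.log R := by
    rw [Real.le_log_iff_exp_le R0]; linarith only [Real.exp_one_lt_d9, R1]
  have x1 : 1 ≤ x := by rw [xR]; linarith only [mul_le_mul_of_nonneg_left lR N0, N40]
  have xN : x ≤ N * R := by
    rw [xR]; exact mul_le_mul_of_nonneg_left (by linarith only [Real.log_le_sub_one_of_pos R0]) N0
  have x2 : x ≤ R ^ 2 / 6528 := by linarith only [xN, mul_le_mul_of_nonneg_right RN R0.le]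
  have jm : j ≤ m + 1 := by
    have : (j : ℝ) ≤ ((m + 1 : ℕ) : ℝ) := by rw [hKc]; linarith only [hjR, RK, R1]
    exact_mod_cast this
  obtain ⟨C, hC⟩ : ∃ C : ℝ, C = (((m + 1).choose j : ℕ) : ℝ) := ⟨_, rfl⟩
  rw [← hC]
  have C0 : 0 < C := by rw [hC]; exact_mod_cast Nat.choose_pos jm
  have CK : C ≤ K ^ j := by rw [hC, ← hKc]; exact_mod_cast Nat.choose_le_pow _ _
  obtain ⟨a, ha⟩ : ∃ a, a = ⌈K / R ^ 2⌉₊ := ⟨_, rfl⟩
  have a1 : K / R ^ 2 ≤ a := ha ▸ Nat.le_ceil _
  have a0 : R ^ 6 ≤ K / R ^ 2 := by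
    rw [le_div_iff₀ (by positivity), ← pow_add]; exact KR
  have a2 : (a : ℝ) ≤ 2 * (K / R ^ 2) := by
    have := Nat.ceil_lt_add_one (show 0 ≤ K / R ^ 2 by positivity)
    rw [← ha] at this
    linarith only [this, a0, q6, q4, R1]
  have a3 : 2 * (K / R ^ 2) ≤ K := by
    rw [← mul_div_assoc, div_le_iff₀ (by positivity), mul_comm]
    exact mul_le_mul_of_nonneg_left (by linarith only [p2, R1]) K0.le
  have a4 : (1 : ℝ) ≤ a := by linarith only [a1, a0, q6, q4, R1]
  obtain ⟨u, hu⟩ : ∃ u, u = (j : ℝ) * x := ⟨_, rfl⟩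
  have u1 : 1 ≤ u := by rw [hu]; exact one_le_mul_of_one_le_of_one_le (by linarith only [j1]) x1
  have u2 : u ≤ R ^ 3 / 6528 := by
    calc u ≤ R * (R ^ 2 / 6528) := by rw [hu]; gcongr
      _ = _ := by ring
  obtain ⟨δ, hδ⟩ : ∃ δ, δ = (2 - 2 * ε) * j * x / C := ⟨_, rfl⟩
  rw [← hδ]
  have δC : δ * C = (2 - 2 * ε) * u := by rw [hδ, hu]; field_simp
  have δC1 : 1 ≤ δ * C := δC ▸ one_le_mul_of_one_le_of_one_le (by linarith only [hε1]) u1
  have δ0 : 0 < δ := (mul_pos_iff_of_pos_right C0).1 (lt_of_lt_of_le one_pos δC1)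
  have μ1 : (1 + ε / 8) * C * ((1 + ε / 8) * δ) ≤ (2 - 3 / 2 * ε) * u := by
    rw [show (1 + ε / 8) * C * ((1 + ε / 8) * δ) = (1 + ε / 8) ^ 2 * (δ * C) by ring, δC,
      ← mul_assoc]
    refine mul_le_mul_of_nonneg_right ?_ (by linarith only [u1])
    nlinarith only [sq_nonneg ε, mul_pos hε (mul_pos hε hε)]
  have μ2 : (1 + ε / 8) * C * (ε / 8 * δ) ≤ ε / 2 * u := by
    rw [show (1 + ε / 8) * C * (ε / 8 * δ) = (1 + ε / 8) * (ε / 8) * (δ * C) by ring, δC,
      ← mul_assoc]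
    refine mul_le_mul_of_nonneg_right ?_ (by linarith only [u1])
    nlinarith only [hε, sq_nonneg ε, mul_pos hε (mul_pos hε hε)]
  have εu : 0 ≤ ε * u := by positivity
  obtain ⟨Λ, hΛ⟩ : ∃ Λ, Λ = Real.exp ((1 - ε / 2) * x) := ⟨_, rfl⟩
  have Λ0 : 0 < Λ := hΛ ▸ Real.exp_pos _
  have ΛK : Λ * R ^ 10 ≤ K := by
    rw [← Real.exp_log (pow_pos R0 10), Real.log_pow, hΛ, ← Real.exp_add, ← Real.exp_log K0,
      Real.exp_le_exp, ← hx]
    push_cast
    have := mul_le_mul_of_nonneg_right hN (zero_le_one.trans lR)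
    rw [xR]
    linarith only [this]
  have nq : (((m + 1) * (m + 1 + a) : ℕ) : ℝ) * (1 / K) = K + a := by
    push_cast; rw [← hKdef]; field_simp
  have hp0 : ε / 16 ≤ ε / 8 / (1 + ε / 8) := by
    rw [le_div_iff₀ (by positivity)]; nlinarith only [hε, hε1]
  obtain ⟨Q, hQ'⟩ : ∃ Q, Q = 8 * N ^ 2 := ⟨_, rfl⟩
  rw [← hQ'] at hR2
  have hQ : 3072 ≤ (Q : ℝ) * ε ^ 2 := by
    rw [hQ']; push_cast; linarith only [pow_le_pow_left₀ (by norm_num) hN 2]
  have QR : 9 * (Q : ℝ) ≤ R := by rw [hQ']; push_cast; linarith only [hR3]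
  have Q0 : (0 : ℝ) < Q := by rw [hQ']; positivity
  refine ⟨(m + 1 - j) / 2, m + 1 - j - (m + 1 - j) / 2, (m + 1) * (m + 1 + a), (m + 1) * a,
    (2 * j + 2) * Q, 2 * j + 2, 1 / K, ε / 8, K, 16 * u,
    2 * j * (Real.exp 50 * (16 * u)) / a, ε / 8, Λ, (1 + ε / 8) * C,
    by omega, by omega, ?_, ?_, ?_, by positivity, ?_, ?_, δ0, by positivity,
    by linarith only [RK, R1], by positivity, by positivity, by positivity, by positivity, ?_, ?_,
    by linarith only [μ1, εu], ?_, ?_, ?_, ?_, ?_⟩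
  · exact Nat.mul_pos (by omega) (by exact_mod_cast a4)
  · exact Nat.mul_pos (by omega) (by exact_mod_cast Q0)
  · have b1 : (((2 * j + 2) * Q * j * 2 + 1 : ℕ) : ℝ) ≤ ((m + 1 : ℕ) : ℝ) := by
      rw [hKc]
      push_cast
      calc (2 * (j : ℝ) + 2) * Q * j * 2 + 1 ≤ (4 * R) * R * R * 2 + 1 := by
            gcongr
            · linarith only [hjR, R1]
            · linarith only [QR, Q0]
        _ ≤ K := by linarith only [q8, q3, R1]
    have b2 : (2 * j + 2) * Q * j * 2 + 1 ≤ m + 1 := by exact_mod_cast b1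
    omega
  · rw [div_lt_one K0]; linarith only [RK, R1]
  · rw [nq]; linarith only [hKdef, a4]
  · have := gr_ratio (k := m + 1) (a := a) (j := j) (η := ε / 8) (by positivity)
      (by linarith only [hε1]) (by rw [hKc]; linarith only [hjR, RK, R1]) (by
        rw [hKc, ← mul_div_assoc, div_le_iff₀ (by linarith only [hjR, RK, R1])]
        have b1 : (j : ℝ) * (2 * a + j) ≤ R * (5 * (K / R ^ 2)) := by
          gcongr; linarith only [a2, a0, q6, q4, hjR, R1]
        have b2 : R * (5 * (K / R ^ 2)) = 5 / R * K := by field_simp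
        have b3 : 5 / R ≤ ε / 32 := by rw [div_le_iff₀ R0]; linarith only [Rε]
        have b4 := mul_le_mul_of_nonneg_right b3 K0.le
        have b5 := mul_le_mul_of_nonneg_left
          (show K / 2 ≤ K - j by linarith only [hjR, RK, R1]) hε.le
        linarith only [b1, b2, b4, b5])
    rwa [hKc, ← hC] at this
  · rw [nq]
    have b1 : √(K + a) ≤ a / 16 := by
      rw [Real.sqrt_le_left (by positivity)]
      have b2 : K / R ^ 2 * R ^ 6 ≤ (a : ℝ) * a := by gcongr; linarith only [a0, a1]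
      have b3 : K / R ^ 2 * R ^ 6 = K * R ^ 4 := by field_simp
      have b4 := mul_le_mul_of_nonneg_left (show 1000 ≤ R ^ 4 by linarith only [q4, R1]) K0.le
      linarith only [b2, b3, b4, a2, a3, K0]
    have b4 : (j : ℝ) * ((1 + ε / 8) * C * ((1 + ε / 8) * δ)) ≤ R * (2 * u) :=
      mul_le_mul hjR (by linarith only [μ1, εu]) (by positivity) R0.le
    have b5 : R * (2 * u) ≤ R * (2 * (R ^ 3 / 6528)) := by gcongr
    linarith only [b1, b4, b5, hKdef, a0, a1, q6, q4, R1]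
  · intro r hr hrj
    have b0 : (r : ℝ) ≤ j := by exact_mod_cast hrj
    have b1 := gr_choose_ge' ((m + 1) * a) r (b := K * a / 2) (s := j) (by positivity)
      (by
        push_cast; rw [← hKdef]
        linarith only [mul_le_mul_of_nonneg_left a4 K0.le, b0, hjR, RK, R1]) b0
    have b2 : 1 ≤ Real.exp 50 * (16 * u) :=
      one_le_mul_of_one_le_of_one_le (by linarith only [E50]) (by linarith only [u1])
    calc _ ≤ (Real.exp 50 * (16 * u)) ^ r := le_self_pow₀ b2 (by omega)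
      _ = (2 * j * (Real.exp 50 * (16 * u)) / a) ^ r
          * ((K * a / 2 / j) ^ r * (1 / K) ^ r) := by
          rw [← mul_pow, ← mul_pow]
          congr 1
          field_simp
      _ ≤ _ := by gcongr
  · have b1 : Λ ≤ K / R ^ 10 := by rwa [le_div_iff₀ (by positivity)]
    have b2 : u ≤ R * (N * R) := by rw [hu]; gcongr
    calc _ ≤ R * (K / R ^ 10 * (2 * R * (Real.exp 50 * (16 * (R * (N * R)))) / (K / R ^ 2))) := by
          gcongr
      _ = 128 * Real.exp 50 * N / R ^ 4 / 4 := by field_simp; norm_num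
      _ ≤ _ := by
          refine div_le_div_of_nonneg_right ?_ (by norm_num)
          rw [div_le_one (by positivity)]; linarith only [hR1, q4, R1]
  · rw [hΛ, Real.exp_le_exp, div_le_iff₀ (by positivity)]
    rw [hu] at μ1 εu
    linarith only [μ1, εu]
  · have b1 : ((2 * j + 2 : ℕ) : ℝ) / (((2 * j + 2) * Q : ℕ) : ℝ) = 1 / Q := by
      push_cast; field_simp
    have b2 : (2 : ℝ) ^ ((2 * j + 2) * Q) / (K ^ (2 * j + 2) * (((2 * j + 2) * Q : ℕ) : ℝ) * δ)
        ≤ 1 / Q := by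
      have c1 : (2 : ℝ) ^ ((2 * j + 2) * Q) ≤ K ^ (j + 1) := by
        rw [show (2 * j + 2) * Q = 2 * Q * (j + 1) by ring, pow_mul, pow_mul]
        refine pow_le_pow_left₀ (by positivity) ?_ _
        rw [show (2 : ℝ) ^ 2 = 4 by norm_num]
        linarith only [hR2, RK, R1]
      have c2 : 1 ≤ δ * K ^ j := δC1.trans (mul_le_mul_of_nonneg_left CK δ0.le)
      push_cast
      rw [div_le_div_iff₀ (by positivity) Q0, one_mul]
      calc _ ≤ K ^ (j + 1) * Q * 1 * 1 * 1 := by rw [mul_one, mul_one, mul_one]; gcongr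
        _ ≤ K ^ (j + 1) * Q * (δ * K ^ j) * K * (2 * j + 2) := by
            gcongr
            · linarith only [RK, R1]
            · linarith only [j1]
        _ = _ := by ring
    have b3 : 1 / K ≤ ε / 384 := by
      rw [div_le_iff₀ K0]; linarith only [Kε]
    have b4 : (1 / Q + 1 / Q) / (ε / 8) ≤ ε / 192 := by
      rw [div_le_iff₀ (by positivity), ← add_div, div_le_iff₀ Q0]; linarith only [hQ]
    rw [b1]
    have b5 : (1 / Q + (2 : ℝ) ^ ((2 * j + 2) * Q)
        / (K ^ (2 * j + 2) * (((2 * j + 2) * Q : ℕ) : ℝ) * δ)) / (ε / 8)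
        ≤ (1 / Q + 1 / Q) / (ε / 8) := by gcongr
    linarith only [b3, b4, b5, hp0]
  · have b1 : (((m + 1) * (m + 1 + a) : ℕ) : ℝ) * (1 / K) ^ 2 / (1 - 1 / K) ≤ 4 := by
      rw [sq, ← mul_assoc, nq,
        div_le_iff₀ (by rw [sub_pos, div_lt_one K0]; linarith only [RK, R1]),
        mul_one_div, div_le_iff₀ K0, mul_assoc, sub_mul, one_div_mul_cancel K0.ne']
      linarith only [a2, a3, RK, R1]
    have b2 : Real.exp ((1 + ε / 8) * C * ((1 + ε / 8) * δ) / 2
          + (((m + 1) * (m + 1 + a) : ℕ) : ℝ) * (1 / K) ^ 2 / (1 - 1 / K))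
        * Real.exp ((1 + ε / 8) * C * (ε / 8 * δ) / 2) ≤ Λ ^ j * 81 := by
      have c1 : Real.exp 4 ≤ 81 := by
        rw [show (4 : ℝ) = (4 : ℕ) * 1 by norm_num, Real.exp_nat_mul]
        exact (pow_le_pow_left₀ (Real.exp_pos 1).le (show Real.exp 1 ≤ 3 by
          linarith only [Real.exp_one_lt_d9]) 4).trans (by norm_num)
      refine le_trans ?_ (mul_le_mul_of_nonneg_left c1 (by positivity))
      rw [hΛ, ← Real.exp_nat_mul, ← Real.exp_add, ← Real.exp_add, Real.exp_le_exp]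
      have c2 : (j : ℝ) * ((1 - ε / 2) * x) = (1 - ε / 2) * u := by rw [hu]; ring
      linarith only [b1, μ1, μ2, c2]
    have b3 : ((m + 1 - j - (m + 1 - j) / 2 : ℕ) : ℝ) ≤ K := by
      rw [← hKc]; exact_mod_cast (by omega : m + 1 - j - (m + 1 - j) / 2 ≤ m + 1)
    have b4 : δ ≤ K / C := by
      rw [le_div_iff₀ C0, δC]; linarith only [εu, u2, q8, q3, R1]
    have b5 : Λ ^ j * K ^ 8 ≤ C := by
      have c1 := gr_choose_ge' (m + 1) j (b := K / 2) (s := R) (by positivity)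
        (by rw [hKc]; linarith only [hjR, RK, R1]) hjR
      rw [← hC] at c1
      refine le_trans ?_ c1
      have c2 : K ^ 8 ≤ (R ^ 8) ^ j := by
        rw [← hK, ← pow_mul, ← pow_mul, mul_comm]
        exact pow_le_pow_right₀ (by linarith only [R1]) (Nat.mul_le_mul_left 8 hj)
      refine (mul_le_mul_of_nonneg_left c2 (by positivity)).trans ?_
      rw [← mul_pow]
      refine pow_le_pow_left₀ (by positivity) ?_ _
      rw [div_div, le_div_iff₀ (by positivity)]
      refine le_trans ?_ ΛK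
      rw [mul_assoc, show R ^ 10 = R ^ 8 * (R * R) by ring]
      gcongr
      linarith only [R1]
    have b6 : Λ ^ j / C ≤ 1 / K ^ 8 := by
      rw [div_le_div_iff₀ C0 (by positivity), one_mul]; exact b5
    have b7 : 1 ≤ K ^ 2 := one_le_pow₀ (by linarith only [RK, R1])
    calc _ ≤ K * (K / C) * (Λ ^ j * 81 * (3 * K ^ 2)) := by
          rw [← mul_assoc (Real.exp _)]
          gcongr
          linarith only [b7]
      _ = 243 * K ^ 4 * (Λ ^ j / C) := by ring
      _ ≤ 243 * K ^ 4 * (1 / K ^ 8) := by gcongr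
      _ = 243 / K ^ 4 := by field_simp
      _ < (ε / 16 / 4) ^ 2 := by
          rw [div_lt_iff₀ (by positivity)]
          have c2 : K ^ 2 ≤ K ^ 4 := pow_le_pow_right₀ (by linarith only [RK, R1]) (by norm_num)
          have c3 : 100000 ^ 2 ≤ (ε * K) ^ 2 := pow_le_pow_left₀ (by norm_num) Kε 2
          linarith only [mul_le_mul_of_nonneg_left c2 (sq_nonneg ε), c3]
      _ ≤ _ := by gcongr

end Pool.Agent.P.MP_7badbe_co
end

-- part Pool.Agent.P.MP_7badbe_co.Sp.D
section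

set_option autoImplicit false
set_option linter.unusedSectionVars false

section


open Finset Filter Topology
open scoped BigOperators

namespace Pool.Agent.P.MP_7badbe_co

variable {V : Type} [Fintype V] [Nonempty V]

theorem asy_log : Tendsto (fun m : ℕ => Real.log (m + 1)) atTop atTop :=
  Real.tendsto_log_atTop.comp (tendsto_atTop_add_const_right _ 1 tendsto_natCast_atTop_atTop)

theorem asy_ev (C : ℝ) {s : ℝ} (hs : 0 < s) :
    ∀ᶠ m : ℕ in atTop, C * (1 + Real.log (m + 1)) < Real.exp (s * Real.log (m + 1)) := by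
  filter_upwards [asy_log.eventually_ge_atTop 1, asy_log.eventually_gt_atTop (8 * |C| / s ^ 2)]
    with m h1 h2
  generalize Real.log (m + 1) = x at h1 h2
  rw [div_lt_iff₀ (by positivity)] at h2
  have h3 := Real.add_one_le_exp (s * x / 2)
  have h4 : Real.exp (s * x) = Real.exp (s * x / 2) ^ 2 := by
    rw [sq, ← Real.exp_add]
    ring_nf
  have h5 : (s * x / 2) ^ 2 ≤ Real.exp (s * x / 2) ^ 2 :=
    pow_le_pow_left₀ (by positivity) (by linarith) 2
  have h6 : C * (1 + x) ≤ |C| * (2 * x) :=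
    (mul_le_mul_of_nonneg_right (le_abs_self C) (by linarith)).trans
      (mul_le_mul_of_nonneg_left (by linarith) (abs_nonneg C))
  have h7 : 8 * |C| * x < x * s ^ 2 * x := mul_lt_mul_of_pos_right h2 (by linarith)
  rw [h4]
  nlinarith

theorem asy_choose {j r k : ℕ} {R q D lam : ℝ} (hr : r < j) (hk : 2 * j ≤ k ^ 2) (hR : 1 ≤ R)
    (hq : 0 ≤ q) (hl : lam = R * (k : ℝ) ^ 2 * q) (hD : 5 * (2 * R) ^ j * j.factorial ≤ D) :
    5 * lam ^ r ≤ D * (((k ^ 2).choose r : ℝ) * q ^ r) := by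
  have h1 : (((k ^ 2 + 1 - r : ℕ) : ℝ) ^ r) / r.factorial ≤ ((k ^ 2).choose r : ℝ) :=
    Nat.pow_le_choose r (k ^ 2)
  have h2 : (k : ℝ) ^ 2 / 2 ≤ ((k ^ 2 + 1 - r : ℕ) : ℝ) := by
    have h3 : k ^ 2 ≤ 2 * (k ^ 2 + 1 - r) := by omega
    have h4 : ((k ^ 2 : ℕ) : ℝ) ≤ ((2 * (k ^ 2 + 1 - r) : ℕ) : ℝ) := Nat.cast_le.2 h3
    rw [Nat.cast_mul, Nat.cast_pow] at h4
    norm_num at h4
    linarith
  have h3 : (0 : ℝ) < r.factorial := Nat.cast_pos.2 r.factorial_pos
  have h4 : (r.factorial : ℝ) ≤ j.factorial := Nat.cast_le.2 (Nat.factorial_le hr.le)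
  rw [div_le_iff₀ h3] at h1
  have h5 : ((k : ℝ) ^ 2 / 2) ^ r ≤ ((k ^ 2).choose r : ℝ) * j.factorial :=
    ((pow_le_pow_left₀ (by positivity) h2 r).trans h1).trans
      (mul_le_mul_of_nonneg_left h4 (Nat.cast_nonneg _))
  have h6 : (2 * R) ^ r ≤ (2 * R) ^ j := pow_le_pow_right₀ (by linarith) hr.le
  have h7 : lam ^ r = (2 * R) ^ r * (((k : ℝ) ^ 2 / 2) ^ r * q ^ r) := by
    rw [← mul_pow, ← mul_pow, hl]
    congr 1
    ring
  calc 5 * lam ^ r = 5 * ((2 * R) ^ r * (((k : ℝ) ^ 2 / 2) ^ r * q ^ r)) := by rw [h7]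
    _ ≤ 5 * ((2 * R) ^ j * ((((k ^ 2).choose r : ℝ) * j.factorial) * q ^ r)) := by gcongr
    _ = 5 * (2 * R) ^ j * j.factorial * (((k ^ 2).choose r : ℝ) * q ^ r) := by ring
    _ ≤ _ := mul_le_mul_of_nonneg_right hD (by positivity)

theorem asy_last {j : ℕ} {x c g w β A ε H H' Z E θ lam : ℝ} (hx : 0 ≤ x) (hc : 0 < c) (hg0 : 0 < g)
    (hβ0 : 0 ≤ β) (hβ : A / 3 + j * β ≤ j - 1 - w / 3) (hg : (2 * j + 3) * g ≤ w / 12)
    (hε : 2 * j * ε ≤ w / 12) (hH : H ≤ A * x) (hH0 : 0 ≤ H') (hH' : H' ≤ 2 * j * ε * x)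
    (hZ : Z ≤ c * x * Real.exp (x - j * x)) (hE : E ≤ 8) (hθ : 0 < θ) (hl : lam ≠ 0)
    (h : 4 * c * Real.exp 8 * (2 ^ (2 * j + 1)) ^ j / θ ^ 2 * (1 + x) < Real.exp (w / 6 * x)) :
    Z * (2 * Real.exp (g * x / 2) * Real.exp E * (Real.exp (H / 3 + 2 * H' / 3) *
      (1 + Real.exp (g * x) ^ 2 * (lam * Real.exp (β * x) / lam) ^ j *
        (2 ^ (2 * j + 1) * Real.exp (g * x) / Real.exp (-(g * x))) ^ j))) < θ ^ 2 := by
  have hY : Real.exp (g * x) ^ 2 * (lam * Real.exp (β * x) / lam) ^ j *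
      (2 ^ (2 * j + 1) * Real.exp (g * x) / Real.exp (-(g * x))) ^ j =
      (2 ^ (2 * j + 1)) ^ j * Real.exp ((2 * g + j * β + 2 * g * j) * x) := by
    rw [mul_div_cancel_left₀ _ hl, mul_div_assoc, ← Real.exp_sub, mul_pow, ← Real.exp_nat_mul,
      ← Real.exp_nat_mul, ← Real.exp_nat_mul, ← Real.exp_add, mul_left_comm, ← Real.exp_add]
    congr 2
    push_cast
    ring
  have hY1 : (1 : ℝ) ≤ (2 ^ (2 * j + 1)) ^ j * Real.exp ((2 * g + j * β + 2 * g * j) * x) :=
    one_le_mul_of_one_le_of_one_le (one_le_pow₀ (one_le_pow₀ one_le_two))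
      (Real.one_le_exp (by positivity))
  rw [hY]
  generalize ((2 : ℝ) ^ (2 * j + 1)) ^ j = W at h hY1 ⊢
  have hW : 0 ≤ W := by
    by_contra h0
    have := mul_neg_of_neg_of_pos (not_le.1 h0) (Real.exp_pos ((2 * g + j * β + 2 * g * j) * x))
    linarith
  have h1 : (x - j * x) + g * x / 2 + (A * x / 3 + 2 * j * ε * x) +
      (2 * g + j * β + 2 * g * j) * x ≤ -(w / 6 * x) := by
    have h2 : (1 - j) + g / 2 + (A / 3 + 2 * j * ε) + (2 * g + j * β + 2 * g * j) ≤ -(w / 6) := by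
      linarith
    have := mul_le_mul_of_nonneg_right h2 hx
    linarith
  calc _ ≤ c * x * Real.exp (x - j * x) * (2 * Real.exp (g * x / 2) * Real.exp 8 *
        (Real.exp (A * x / 3 + 2 * j * ε * x) *
          (2 * (W * Real.exp ((2 * g + j * β + 2 * g * j) * x))))) := by
        gcongr
        · linarith
        · linarith
    _ = 4 * c * Real.exp 8 * W * x * Real.exp ((x - j * x) + g * x / 2 +
        (A * x / 3 + 2 * j * ε * x) + (2 * g + j * β + 2 * g * j) * x) := by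
        rw [Real.exp_add _ ((2 * g + j * β + 2 * g * j) * x), Real.exp_add _ (A * x / 3 + _),
          Real.exp_add (x - j * x)]
        ring
    _ ≤ 4 * c * Real.exp 8 * W * (1 + x) * Real.exp (-(w / 6 * x)) := by
        gcongr
        linarith
    _ < θ ^ 2 := by
        rw [Real.exp_neg, ← div_eq_mul_inv, div_lt_iff₀ (Real.exp_pos _)]
        rw [div_mul_eq_mul_div, div_lt_iff₀ (by positivity)] at h
        linarith

theorem asy_main {j m R t M : ℕ} {c a A w β g ε θ x K : ℝ} (hj : 2 ≤ j) (hc : 0 < c)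
    (hR : 1 ≤ R) (ha : a = 1 + 1 / R) (hA : A = a ^ (2 * j + 1) * c / j.factorial)
    (hAj : A ≤ 2 * j) (hβ0 : 0 ≤ β) (hβ1 : 2 * A / (3 * j) ≤ 1 + β)
    (hβ2 : A / 3 + j * β ≤ j - 1 - w / 3) (hg0 : 0 < g) (hg : (2 * j + 3) * g ≤ w / 12)
    (ht : (j : ℝ) + 1 ≤ t * g) (hε0 : 0 < ε) (hε : 2 * j * ε ≤ w / 12)
    (hθ : θ = 1 / R / a / 8) (hM1 : 1 ≤ M) (hM : 3 * t ≤ θ * ε * M)
    (hK : K = m + 1) (hx : x = Real.log K) (h1 : 2 * (M * j) + j ≤ m + 1)
    (h2 : 2 * Real.exp 5 ≤ K) (h3 : 1 ≤ x) (h4 : 2 ≤ g * x)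
    (h5 : 5120 * j ^ 5 * R ^ 2 ≤ g ^ 2 * x)
    (h6 : 3 * 2 ^ M ≤ θ * ε * c * K)
    (h7 : (2 + 5 * (2 * R) ^ j * j.factorial + 3 / θ + a ^ (j + 1) * c) * (1 + x) <
      Real.exp (g * x))
    (h8 : 16 * R * (1 + j ^ 2) * (1 + x) < Real.exp (1 / 2 * x))
    (h9 : 4 * j * Real.exp 5 ^ (2 * j) * (a ^ (j + 1) * c) * (1 + x) < Real.exp (g / 2 * x))
    (h10 : 4 * c * Real.exp 8 * (2 ^ (2 * j + 1)) ^ j / (2 * θ) ^ 2 * (1 + x) <
      Real.exp (w / 6 * x)) :
    Par j m (c * x / K ^ j) := by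
  have hR' : (1 : ℝ) ≤ R := Nat.one_le_cast.2 hR
  have hj' : (2 : ℝ) ≤ j := by exact_mod_cast hj
  have hM' : (1 : ℝ) ≤ M := Nat.one_le_cast.2 hM1
  have hi0 : (0 : ℝ) < 1 / R := by positivity
  have hi1 : (1 : ℝ) / R ≤ 1 := by rw [div_le_one (by linarith)]; exact hR'
  have ha1 : 1 < a := by linarith
  have ha2 : a ≤ 2 := by linarith
  have hK0 : 0 < K := by rw [hK]; positivity
  have hK1 : 1 ≤ K := by rw [hK]; exact le_add_of_nonneg_left (Nat.cast_nonneg m)
  have hex : Real.exp x = K := by rw [hx, Real.exp_log hK0]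
  have hθ0 : 0 < θ := by rw [hθ]; positivity
  have hf0 : (0 : ℝ) < j.factorial := Nat.cast_pos.2 j.factorial_pos
  have he5 : 6 ≤ Real.exp 5 := by linarith [Real.add_one_le_exp 5]
  obtain ⟨δ, hδ⟩ : ∃ δ, δ = c * x / K ^ j := ⟨_, rfl⟩
  obtain ⟨q, hq⟩ : ∃ q, q = a / (R * K) := ⟨_, rfl⟩
  have hδ0 : 0 < δ := by rw [hδ]; positivity
  have hq0 : 0 < q := by rw [hq]; positivity
  have hqK : q * K ≤ 2 := by
    have : q * K = a * (1 / R) := by rw [hq]; field_simp
    have := mul_le_mul ha2 hi1 hi0.le zero_le_two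
    linarith
  have hq5 : Real.exp 5 * q ≤ 1 := by linarith [mul_le_mul_of_nonneg_left h2 hq0.le]
  have hq2 : q ≤ 1 / 2 := by linarith [mul_le_mul_of_nonneg_right he5 hq0.le]
  have hn : ((R * (m + 1) ^ 2 : ℕ) : ℝ) = R * K ^ 2 := by rw [hK]; push_cast; ring
  have he : (((m + 1) ^ 2 : ℕ) : ℝ) = K ^ 2 := by rw [hK]; push_cast; ring
  have hnq : R * K ^ 2 * q = a * K := by rw [hq]; field_simp
  obtain ⟨h, hh⟩ : ∃ h, h = ((R * (m + 1) ^ 2 + (m + 1) ^ 2).choose j : ℝ) * q ^ j := ⟨_, rfl⟩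
  have hh0 : 0 ≤ h := by rw [hh]; positivity
  have hH : h * (a * δ) ≤ A * x := by
    have e1 : (((R * (m + 1) ^ 2 + (m + 1) ^ 2 : ℕ) : ℝ)) * q = a ^ 2 * K := by
      rw [Nat.cast_add, hn, he, hq]
      have : (R : ℝ) + 1 = a * R := by rw [ha]; field_simp
      field_simp
      linarith
    have e2 : h ≤ (a ^ 2 * K) ^ j / j.factorial := by
      rw [hh, ← e1, mul_pow, mul_div_right_comm]
      exact mul_le_mul_of_nonneg_right (Nat.choose_le_pow_div _ _) (by positivity)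
    refine (mul_le_mul_of_nonneg_right e2 (by positivity)).trans (le_of_eq ?_)
    rw [hA, hδ, mul_pow, ← pow_mul, pow_succ]
    field_simp
  have hH2 : h * (a * δ) ≤ 2 * j * x := hH.trans (mul_le_mul_of_nonneg_right hAj (by linarith))
  have hC : (a * K) ^ j * (a * δ) = a ^ (j + 1) * c * x := by
    rw [hδ, mul_pow, pow_succ]
    field_simp
  have hp1 : (0 : ℝ) ≤ 5 * (2 * R) ^ j * j.factorial := by positivity
  have hp2 : 0 ≤ 3 / θ := by positivity
  have hp3 : 0 ≤ a ^ (j + 1) * c := by positivity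
  have hD : 2 + 5 * (2 * R) ^ j * j.factorial + 3 / θ + a ^ (j + 1) * c * x <
      Real.exp (g * x) := by
    refine lt_of_le_of_lt ?_ h7
    have hx0 : 0 ≤ x := by linarith
    linarith [mul_nonneg hp1 hx0, mul_nonneg hp2 hx0]
  have hp4 : 0 ≤ a ^ (j + 1) * c * x := by positivity
  rw [← hδ]
  refine ⟨(m + 1 - j) / 2, m + 1 - j - (m + 1 - j) / 2, R * (m + 1) ^ 2, (m + 1) ^ 2, M, t, q,
    1 / R, Real.exp (g * x), Real.exp (-(g * x)), Real.exp (g * x), g * x / (8 * j * R), g * x / 2,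
    ε, a * K * Real.exp (β * x), by omega, by omega, Nat.one_le_pow _ _ (Nat.succ_pos m), hM1,
    by omega, hq0, hq5, ?_⟩
  rw [← ha, ← hh, hn, he, hnq]
  have haK : 1 * K ≤ a * K := mul_le_mul_of_nonneg_right ha1.le hK0.le
  refine ⟨by linarith, by linarith, hδ0, hi0, by linarith, Real.exp_pos _,
    Real.exp_le_exp.2 (by linarith), by positivity, by linarith, hε0, fun r _ hr => ?_,
    by rw [hC]; linarith, ?_, ?_, ?_, ?_, ?_, ?_, ?_, ?_⟩
  · refine asy_choose (R := R) hr ?_ hR' hq0.le (by rw [← hnq, hK]; push_cast; ring) (by linarith)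
    have : M * j ≥ j := Nat.le_mul_of_pos_left j hM1
    have : m + 1 ≤ (m + 1) ^ 2 := Nat.le_self_pow two_ne_zero _
    omega
  · obtain ⟨u, hu⟩ : ∃ u, u = Real.exp (1 / 2 * x) := ⟨_, rfl⟩
    have hu2 : u ^ 2 = K := by
      rw [hu, sq, ← Real.exp_add, ← hex]
      ring_nf
    have hu0 : 0 < u := by rw [hu]; exact Real.exp_pos _
    rw [← hu] at h8
    have e0 : (1 : ℝ) ≤ 16 * R * (1 + j ^ 2) :=
      one_le_mul_of_one_le_of_one_le (by linarith) (le_add_of_nonneg_right (sq_nonneg _))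
    have e1 : x ≤ u := by
      linarith [mul_le_mul_of_nonneg_right e0 (show 0 ≤ 1 + x by linarith)]
    have e2 : 16 * R * (1 + j ^ 2) ≤ u :=
      (le_mul_of_one_le_right (by linarith) (by linarith)).trans h8.le
    have e3 : √(a * K) ≤ 2 * u := Real.sqrt_le_iff.2 ⟨by positivity, by
      rw [mul_pow, hu2]
      exact mul_le_mul_of_nonneg_right (by linarith) hK0.le⟩
    have e4 : j * (h * (a * δ)) ≤ j * (2 * j * u) :=
      mul_le_mul_of_nonneg_left (hH2.trans (by gcongr)) (by positivity)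
    have e5 : 16 * (1 + j ^ 2) * u ≤ 1 / R * K := by
      rw [← hu2, one_div, ← div_eq_inv_mul, le_div_iff₀ (by linarith)]
      linarith [mul_le_mul_of_nonneg_right e2 hu0.le]
    have e6 : a * K - m = 1 / R * K + 1 := by
      rw [ha, add_mul, one_mul, hK]
      ring
    rw [e6]
    linarith
  · rw [div_pow, le_div_iff₀ (by positivity)]
    have e1 := mul_le_mul_of_nonneg_right h5 (show 0 ≤ x by linarith)
    have e2 : 40 * j ^ 2 * (h * (a * δ)) * (8 * j * R) ^ 2 ≤
        40 * j ^ 2 * (2 * j * x) * (8 * j * R) ^ 2 := by gcongr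
    linarith
  · refine le_of_eq ?_
    field_simp
    ring
  · have e1 : Real.exp (g * x / 2) * Real.exp (-(g * x)) * Real.exp (g / 2 * x) = 1 := by
      rw [← Real.exp_add, ← Real.exp_add, ← Real.exp_zero]
      congr 1
      ring
    have e2 : Real.exp (g * x / 2) * (2 * j * Real.exp 5 ^ (2 * j) * Real.exp (-(g * x)) *
        (a * K) ^ j * (a * δ)) = Real.exp (g * x / 2) * Real.exp (-(g * x)) *
        (4 * j * Real.exp 5 ^ (2 * j) * (a ^ (j + 1) * c) * x) / 2 := by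
      rw [mul_assoc _ ((a * K) ^ j), hC]
      ring
    have e3 : 4 * j * Real.exp 5 ^ (2 * j) * (a ^ (j + 1) * c) * x ≤ Real.exp (g / 2 * x) :=
      le_trans (by gcongr; linarith) h9.le
    rw [e2, ← e1]
    gcongr
  · rw [← hθ]
    have e1 : 1 / Real.exp (g * x) ≤ θ / 3 := by
      rw [← one_div_div 3 θ]
      exact one_div_le_one_div_of_le (by positivity) (by linarith)
    have e2 : (t : ℝ) / M ≤ θ / 3 * ε := by
      rw [div_le_iff₀ (by linarith)]
      linarith
    have e3 : K ^ (j + 1) ≤ Real.exp (g * x) ^ t := by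
      rw [← hex, ← Real.exp_nat_mul, ← Real.exp_nat_mul, Real.exp_le_exp, ← mul_assoc]
      push_cast
      exact mul_le_mul_of_nonneg_right ht (by linarith)
    have e4 : c * K ≤ Real.exp (g * x) ^ t * M * δ := by
      calc c * K = K ^ (j + 1) * 1 * (c * 1 / K ^ j) := by
            rw [pow_succ]
            field_simp
        _ ≤ _ := by
            rw [hδ]
            gcongr
    have e5 : 2 ^ M / (Real.exp (g * x) ^ t * M * δ) ≤ θ / 3 * ε := by
      rw [div_le_iff₀ (by positivity)]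
      have := mul_le_mul_of_nonneg_left e4 (show 0 ≤ θ / 3 * ε by positivity)
      linarith
    have e6 : (t / M + 2 ^ M / (Real.exp (g * x) ^ t * M * δ)) / ε ≤ 2 * θ / 3 := by
      rw [div_le_iff₀ hε0]
      linarith
    linarith
  · exact le_mul_of_one_le_right (by positivity) (Real.one_le_exp (by positivity))
  · calc _ ≤ Real.exp (x + β * x) := by
          refine Real.exp_le_exp.2 ?_
          have e1 := mul_le_mul_of_nonneg_right hβ1 (show 0 ≤ x by linarith)
          have e2 : 2 * (h * (a * δ)) / (3 * j) ≤ 2 * (A * x) / (3 * j) := by gcongr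
          have e3 : 2 * (A * x) / (3 * j) = 2 * A / (3 * j) * x := by ring
          linarith
      _ = 1 * K * Real.exp (β * x) := by rw [Real.exp_add, hex, one_mul]
      _ ≤ _ := by gcongr
  · rw [show 1 / (R : ℝ) / a / 4 = 2 * θ by rw [hθ]; ring]
    refine asy_last (by linarith) hc hg0 hβ0 hβ2 hg hε hH (by positivity) ?_ ?_ ?_ (by positivity)
      (by positivity) h10
    · have e1 : h * (ε * δ) ≤ ε * (h * (a * δ)) := by
        have : h * (ε * δ) = ε * (h * (1 * δ)) := by ring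
        rw [this]
        gcongr
      have e2 := mul_le_mul_of_nonneg_left hH2 hε0.le
      linarith
    · have e1 : ((m + 1 - j - (m + 1 - j) / 2 : ℕ) : ℝ) ≤ K := by
        rw [hK]
        exact_mod_cast (show m + 1 - j - (m + 1 - j) / 2 ≤ m + 1 by omega)
      refine (mul_le_mul_of_nonneg_right e1 hδ0.le).trans (le_of_eq ?_)
      rw [hδ, Real.exp_sub, Real.exp_nat_mul, hex]
      ring
    · rw [div_le_iff₀ (by linarith)]
      have e1 : R * K ^ 2 * q ^ 2 = a * (q * K) := by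
        rw [sq q, ← mul_assoc, hnq]
        ring
      linarith [mul_le_mul ha2 hqK (by positivity) zero_le_two]

theorem par_eventually {j : ℕ} (hj : 2 ≤ j) {c : ℝ} (hc0 : 0 < c)
    (hc : c < (2 * j - 1) * j.factorial) :
    ∀ᶠ m : ℕ in atTop, Par j m (c * Real.log (m + 1) / (m + 1) ^ j) := by
  have hj' : (2 : ℝ) ≤ j := by exact_mod_cast hj
  have hf0 : (0 : ℝ) < j.factorial := Nat.cast_pos.2 j.factorial_pos
  have hlim : Tendsto (fun R : ℕ => (1 + 1 / (R : ℝ)) ^ (2 * j + 1) * c) atTop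
      (𝓝 ((1 + 0) ^ (2 * j + 1) * c)) :=
    ((tendsto_const_nhds.add tendsto_one_div_atTop_nhds_zero_nat).pow _).mul tendsto_const_nhds
  rw [add_zero, one_pow, one_mul] at hlim
  obtain ⟨R, hR1, hR⟩ := ((hlim.eventually_lt_const hc).and (eventually_ge_atTop 1)).exists
  obtain ⟨a, ha⟩ : ∃ a : ℝ, a = 1 + 1 / R := ⟨_, rfl⟩
  obtain ⟨A, hA⟩ : ∃ A : ℝ, A = a ^ (2 * j + 1) * c / j.factorial := ⟨_, rfl⟩
  have hA1 : A < 2 * j - 1 := by
    rw [hA, div_lt_iff₀ hf0, ha]
    exact hR1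
  obtain ⟨w, hw⟩ : ∃ w : ℝ, w = 2 * j - 1 - A := ⟨_, rfl⟩
  have hw0 : 0 < w := by linarith
  have hβ2 : A / 3 + j * max 0 (2 * A / (3 * j) - 1) ≤ j - 1 - w / 3 := by
    rcases le_total 0 (2 * A / (3 * j) - 1) with h | h
    · rw [max_eq_right h]
      have : j * (2 * A / (3 * j) - 1) = 2 * A / 3 - j := by field_simp
      linarith
    · rw [max_eq_left h]
      linarith
  obtain ⟨g, hg⟩ : ∃ g : ℝ, g = w / 12 / (2 * j + 3) := ⟨_, rfl⟩
  have hg0 : 0 < g := by rw [hg]; positivity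
  obtain ⟨t, ht⟩ := exists_nat_ge (((j : ℝ) + 1) / g)
  rw [div_le_iff₀ hg0] at ht
  obtain ⟨ε, hε⟩ : ∃ ε : ℝ, ε = w / 12 / (2 * j) := ⟨_, rfl⟩
  have hε0 : 0 < ε := by rw [hε]; positivity
  obtain ⟨θ, hθ⟩ : ∃ θ : ℝ, θ = 1 / R / a / 8 := ⟨_, rfl⟩
  have hR0 : (0 : ℝ) < R := Nat.cast_pos.2 hR
  have hθ0 : 0 < θ := by rw [hθ, ha]; positivity
  obtain ⟨M, hM⟩ := exists_nat_ge (3 * (t : ℝ) / (θ * ε))
  rw [div_le_iff₀ (by positivity)] at hM
  have hK : Tendsto (fun m : ℕ => (m : ℝ) + 1) atTop atTop :=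
    tendsto_atTop_add_const_right _ 1 tendsto_natCast_atTop_atTop
  filter_upwards [eventually_ge_atTop (2 * ((M + 1) * j) + j),
    hK.eventually_ge_atTop (2 * Real.exp 5),
    asy_log.eventually_ge_atTop 1, (asy_log.const_mul_atTop hg0).eventually_ge_atTop 2,
    (asy_log.const_mul_atTop (pow_pos hg0 2)).eventually_ge_atTop (5120 * j ^ 5 * R ^ 2),
    (hK.const_mul_atTop (show 0 < θ * ε * c by positivity)).eventually_ge_atTop (3 * 2 ^ (M + 1)),
    asy_ev (2 + 5 * (2 * R) ^ j * j.factorial + 3 / θ + a ^ (j + 1) * c) hg0,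
    asy_ev (16 * R * (1 + j ^ 2)) (show (0 : ℝ) < 1 / 2 by norm_num),
    asy_ev (4 * j * Real.exp 5 ^ (2 * j) * (a ^ (j + 1) * c)) (half_pos hg0),
    asy_ev (4 * c * Real.exp 8 * (2 ^ (2 * j + 1)) ^ j / (2 * θ) ^ 2)
      (show 0 < w / 6 by positivity)] with m h1 h2 h3 h4 h5 h6 h7 h8 h9 h10
  refine asy_main (M := M + 1) hj hc0 hR ha hA (by linarith) (le_max_left _ _)
    (by linarith [le_max_right 0 (2 * A / (3 * j) - 1)]) hβ2 hg0 (le_of_eq ?_) ht hε0
    (le_of_eq ?_) hθ (by omega) ?_ rfl rfl (by omega) h2 h3 h4 h5 h6 h7 h8 h9 h10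
  · rw [hg]
    field_simp
  · rw [hε]
    field_simp
  · push_cast
    linarith [mul_pos hθ0 hε0]

end Pool.Agent.P.MP_7badbe_co

end

section


open Finset Filter Topology
open scoped BigOperators

namespace Pool.Agent.P.MP_7badbe_co

variable {V : Type} [Fintype V] [Nonempty V]

lemma Asy1_lim {a : ℝ} (ha : 0 < a) (c : ℝ) :
    Tendsto (fun x : ℝ => c * (x * Real.exp (-(a * x)))) atTop (𝓝 0) := by
  have h := (Real.tendsto_pow_mul_exp_neg_atTop_nhds_zero 1).comp
    (tendsto_id.const_mul_atTop ha)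
  have h2 := h.const_mul (c / a)
  rw [mul_zero] at h2
  refine h2.congr (fun x => ?_)
  simp only [Function.comp, id, pow_one]
  field_simp

lemma Asy1_abs {m : ℕ} {δ eps E : ℝ} (hδ : 0 < δ) (hδ1 : δ ≤ 1 / 16) (he0 : 0 < eps)
    (he1 : eps ≤ 1) (hm : 1 ≤ m) (hk : 1 ≤ (m + 1) * δ)
    (hE : Real.exp ((m + 1) * ((1 + eps) * δ) / (1 - (1 + eps) * δ) ^ 2) ≤ E)
    (hK : ((24 / eps) ^ 2 + 16 * (24 / eps)) * (E * δ) ≤ (eps / 100) ^ 8) : Par1 m δ := by
  have hE0 : 0 < E := (Real.exp_pos _).trans_le hE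
  have hm1 : (1 : ℝ) ≤ m := by exact_mod_cast hm
  obtain ⟨y, hy1, hy2⟩ : ∃ y : ℕ, (y : ℝ) * (16 * δ) ≤ 1 ∧ 1 ≤ ((y : ℝ) + 1) * (16 * δ) ∧ 1 ≤ y := by
    refine ⟨⌊1 / (16 * δ)⌋₊, ?_, ?_, ?_⟩
    · have := Nat.floor_le (a := 1 / (16 * δ)) (by positivity)
      rwa [le_div_iff₀ (by positivity)] at this
    · have := (Nat.lt_floor_add_one (1 / (16 * δ))).le
      rwa [div_le_iff₀ (by positivity)] at this
    · refine Nat.le_floor ?_
      rw [le_div_iff₀ (by positivity)]
      push_cast; linarith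
  obtain ⟨hy2, hy3⟩ := hy2
  have hy0 : (0 : ℝ) ≤ y := Nat.cast_nonneg _
  have hym : 2 * y ≤ m := by
    have h1 : (y : ℝ) * 16 * δ ≤ (m + 1) * δ := by nlinarith
    have h2 : (y : ℝ) * 16 ≤ m + 1 := le_of_mul_le_mul_right h1 hδ
    have h3 : 2 * (y : ℝ) ≤ m := by linarith
    exact_mod_cast h3
  set K : ℝ := (24 / eps) ^ 2 + 16 * (24 / eps) with hKd
  have hK0 : 0 < K := by positivity
  refine ⟨y, m - 2 * y, eps, E, K * δ ^ 2, by omega, hy3, hδ, he0, he1, by nlinarith, ?_, ?_,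
    by nlinarith, ?_, ?_⟩
  · refine le_trans (Real.exp_le_exp.2 ?_) hE
    refine div_le_div_of_nonneg_right (mul_le_mul_of_nonneg_right ?_ (by positivity))
      (by positivity)
    have : m - 2 * y ≤ m + 1 := by omega
    exact_mod_cast this
  · have h1 : 24 / eps * δ / (y + 1) ≤ 16 * (24 / eps) * δ ^ 2 := by
      rw [div_le_iff₀ (by positivity)]
      have h2 : 0 ≤ 24 / eps * δ := by positivity
      have := mul_le_mul_of_nonneg_left hy2 h2
      nlinarith
    rw [hKd]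
    nlinarith
  · have h1 : E * (K * δ ^ 2) / δ = K * (E * δ) := by field_simp
    rw [h1]
    refine hK.trans (pow_le_pow_of_le_one (by positivity) (by linarith) (by norm_num))
  · refine le_trans ?_ hK
    have h2 : 0 ≤ K * (E * δ) := by positivity
    have h3 : (y : ℝ) * δ ≤ 1 := by nlinarith
    have := mul_le_mul_of_nonneg_left h3 h2
    nlinarith

theorem par1_eventually {c : ℝ} (hc0 : 0 < c) (hc : c < 1) :
    ∀ᶠ m : ℕ in atTop, Par1 m (c * Real.log (m + 1) / (m + 1)) := by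
  set eps : ℝ := (1 - c) / 2 with heps
  have he0 : 0 < eps := by rw [heps]; linarith
  have he1 : eps ≤ 1 := by rw [heps]; linarith
  set c1 : ℝ := (1 + eps) * c with hc1
  have hc1p : 0 < c1 := by positivity
  have hc11 : c1 < 1 := by rw [hc1, heps]; nlinarith
  set c2 : ℝ := (1 + c1) / 2 with hc2
  have hc2p : 0 < c2 := by positivity
  have hx : Tendsto (fun m : ℕ => Real.log ((m : ℝ) + 1)) atTop atTop :=
    Real.tendsto_log_atTop.comp (tendsto_atTop_add_const_right _ 1 tendsto_natCast_atTop_atTop)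
  have hexp : ∀ m : ℕ, Real.exp (Real.log ((m : ℝ) + 1)) = m + 1 :=
    fun m => Real.exp_log (by positivity)
  have hδ : Tendsto (fun m : ℕ => c * Real.log (m + 1) / (m + 1)) atTop (𝓝 0) := by
    refine ((Asy1_lim one_pos c).comp hx).congr (fun m => ?_)
    simp only [Function.comp, one_mul, Real.exp_neg, hexp]
    ring
  have hEδ : Tendsto (fun m : ℕ => ((24 / eps) ^ 2 + 16 * (24 / eps))
      * (Real.exp (c2 * Real.log (m + 1)) * (c * Real.log (m + 1) / (m + 1)))) atTop (𝓝 0) := by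
    have ha : 0 < 1 - c2 := by rw [hc2]; linarith
    refine ((Asy1_lim ha (((24 / eps) ^ 2 + 16 * (24 / eps)) * c)).comp hx).congr (fun m => ?_)
    simp only [Function.comp]
    have : -((1 - c2) * Real.log ((m : ℝ) + 1))
        = c2 * Real.log ((m : ℝ) + 1) - Real.log ((m : ℝ) + 1) := by ring
    rw [this, Real.exp_sub, hexp]
    ring
  have hsq : Tendsto (fun m : ℕ => (1 - (1 + eps) * (c * Real.log (m + 1) / (m + 1))) ^ 2)
      atTop (𝓝 1) := by
    have := ((hδ.const_mul (1 + eps)).const_sub 1).pow 2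
    simpa using this
  have hlt : c1 / c2 < 1 := by rw [div_lt_one hc2p, hc2]; linarith
  filter_upwards [hδ.eventually (ge_mem_nhds (by norm_num : (0 : ℝ) < 1 / 16)),
    hEδ.eventually (ge_mem_nhds (by positivity : (0 : ℝ) < (eps / 100) ^ 8)),
    hsq.eventually (le_mem_nhds hlt), hx.eventually_ge_atTop (1 / c), eventually_ge_atTop 1]
    with m h1 h2 h3 h4 h5
  have hL : 1 ≤ c * Real.log ((m : ℝ) + 1) := by
    rw [div_le_iff₀ hc0] at h4; linarith
  have hL0 : 0 ≤ Real.log ((m : ℝ) + 1) := le_trans (by positivity) h4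
  have hk : ((m : ℝ) + 1) * (c * Real.log (m + 1) / (m + 1)) = c * Real.log (m + 1) := by
    field_simp
  refine Asy1_abs (div_pos (by linarith) (by positivity)) h1 he0 he1 h5 (by rw [hk]; exact hL)
    (Real.exp_le_exp.2 ?_) h2
  have h6 : 0 < (1 - (1 + eps) * (c * Real.log (m + 1) / (m + 1))) ^ 2 :=
    lt_of_lt_of_le (by positivity) h3
  rw [div_le_iff₀ h6]
  rw [div_le_iff₀ hc2p] at h3
  have h7 : ((m : ℝ) + 1) * ((1 + eps) * (c * Real.log (m + 1) / (m + 1)))
      = c1 * Real.log (m + 1) := by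
    rw [hc1]; field_simp
  rw [h7]
  have := mul_le_mul_of_nonneg_left h3 hL0
  nlinarith

end Pool.Agent.P.MP_7badbe_co

end

section


open Finset Filter Topology
open scoped BigOperators

namespace Pool.Agent.P.MP_7badbe_co

variable {V : Type} [Fintype V] [Nonempty V]

lemma upa_tend : Tendsto (fun m : ℕ => (m : ℝ) + 1) atTop atTop :=
  tendsto_atTop_add_const_right _ _ tendsto_natCast_atTop_atTop

lemma upa_log : Tendsto (fun m : ℕ => Real.log ((m : ℝ) + 1)) atTop atTop :=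
  Real.tendsto_log_atTop.comp upa_tend

lemma upa_sq (D : ℝ) : ∀ᶠ m : ℕ in atTop, D * Real.log ((m : ℝ) + 1) ^ 2 ≤ (m : ℝ) + 1 := by
  have h1 := Real.tendsto_pow_log_div_mul_add_atTop 1 0 2 one_ne_zero
  have h2 : Tendsto (fun x : ℝ => D * (Real.log x ^ 2 / (1 * x + 0))) atTop (𝓝 (D * 0)) :=
    h1.const_mul D
  rw [mul_zero] at h2
  have h3 := (h2.comp upa_tend).eventually (gt_mem_nhds (show (0 : ℝ) < 1 by norm_num))
  filter_upwards [h3] with m hm
  have h0 : (0 : ℝ) < (m : ℝ) + 1 := by positivity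
  simp only [Function.comp, one_mul, add_zero] at hm
  rw [← mul_div_assoc, div_lt_one h0] at hm
  exact hm.le

lemma upa_exp {e d : ℝ} (D : ℝ) (he : 0 < e) (hd : 0 < d) :
    ∀ᶠ m : ℕ in atTop, D * Real.exp (-(e * Real.log ((m : ℝ) + 1))) ≤ d := by
  have h1 : Tendsto (fun m : ℕ => e * Real.log ((m : ℝ) + 1)) atTop atTop :=
    upa_log.const_mul_atTop he
  have h2 := (Real.tendsto_exp_neg_atTop_nhds_zero.comp h1).const_mul D
  rw [mul_zero] at h2
  filter_upwards [h2.eventually (gt_mem_nhds hd)] with m hm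
  exact hm.le

/-- the third term -/
lemma upa_three {j m r : ℕ} {x : ℝ} (hx : Real.exp x = (m : ℝ) + 1) (hx0 : 0 ≤ x) (hr : 1 ≤ r)
    (hr1 : (r : ℝ) * ((2 * j + 3) * x) ≤ (m : ℝ) + 1) (hr2 : (r : ℝ) ≤ (m : ℝ) + 1)
    (hj : (j : ℝ) * (2 * j + 3) ≤ (m : ℝ) + 1) :
    r * (((m : ℝ) + 1) ^ j * (1 - 1 / (r : ℝ)) ^ (m + 1 - j))
      ≤ 1 / ((m : ℝ) + 1) / ((m : ℝ) + 1) ^ j := by
  set K : ℝ := (m : ℝ) + 1 with hK
  have hK0 : 0 < K := by positivity
  have hr0 : (1 : ℝ) ≤ r := by exact_mod_cast hr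
  have hj0 : (0 : ℝ) ≤ j := Nat.cast_nonneg j
  have hjm : j ≤ m + 1 := by
    have : (j : ℝ) ≤ ((m + 1 : ℕ) : ℝ) := by push_cast; nlinarith
    exact_mod_cast this
  have h4 : (0 : ℝ) ≤ 1 - 1 / r := by
    rw [sub_nonneg, div_le_one (by linarith)]; exact hr0
  have h5 : (1 - 1 / (r : ℝ)) ^ (m + 1 - j) ≤ Real.exp (-((2 * j + 2) * x)) := by
    refine (pow_le_pow_left₀ h4 (Real.one_sub_le_exp_neg _) _).trans ?_
    rw [← Real.exp_nat_mul, Real.exp_le_exp, Nat.cast_sub hjm]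
    push_cast
    rw [← hK, mul_neg, neg_le_neg_iff, mul_one_div, le_div_iff₀ (by linarith)]
    have h6 : K * ((2 * j + 2) * x * r) ≤ K * (K - j) := by
      have h7 : (2 * j + 2) * K ≤ (2 * j + 3) * (K - j) := by nlinarith
      have h8 : 0 ≤ x * r := by positivity
      have h9 : K - j ≥ 0 := by nlinarith
      calc K * ((2 * j + 2) * x * r) = ((2 * j + 2) * K) * (x * r) := by ring
        _ ≤ ((2 * j + 3) * (K - j)) * (x * r) := by gcongr
        _ = (r * ((2 * j + 3) * x)) * (K - j) := by ring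
        _ ≤ K * (K - j) := by gcongr
    exact le_of_mul_le_mul_left h6 hK0
  have h6 : Real.exp (-((2 * j + 2) * x)) = 1 / K ^ (2 * j + 2) := by
    rw [Real.exp_neg, ← hx, ← Real.exp_nat_mul, one_div]
    push_cast
    rfl
  rw [h6] at h5
  calc r * (K ^ j * (1 - 1 / (r : ℝ)) ^ (m + 1 - j)) ≤ K * (K ^ j * (1 / K ^ (2 * j + 2))) := by
        gcongr
    _ = 1 / K / K ^ j := by
        field_simp
        ring

/-- the main exponent -/
lemma upa_choose {j m l : ℕ} {x C1 e : ℝ} (hj : 1 ≤ j) (hx0 : 0 < x) (hC1 : 0 < C1) (he : 0 < e)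
    (ha : C1 / j.factorial = (2 * j - 1) + 2 * e) (hl : 1 ≤ l)
    (hl1 : (l : ℝ) ≤ ((m : ℝ) + 1) ^ j / (C1 * x) + 1)
    (h1 : 2 * j ^ 2 * (C1 / j.factorial) / e ≤ (m : ℝ) + 1)
    (h2 : 2 * (2 * j - 1 + e) / e * (C1 * x) ≤ (m : ℝ) + 1) (h3 : (j : ℝ) ≤ (m : ℝ) + 1) :
    (2 * j - 1 + e) * x ≤ (m.choose j : ℝ) / l := by
  set K : ℝ := (m : ℝ) + 1 with hK
  have hK0 : 0 < K := by positivity
  have hK1 : 1 ≤ K := by rw [hK]; linarith [Nat.cast_nonneg (α := ℝ) m]
  have hl0 : (1 : ℝ) ≤ l := by exact_mod_cast hl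
  have hj1 : (1 : ℝ) ≤ j := by exact_mod_cast hj
  have hF : (0 : ℝ) < j.factorial := by positivity
  have hjm : j ≤ m + 1 := by
    have : (j : ℝ) ≤ ((m + 1 : ℕ) : ℝ) := by push_cast; exact h3
    exact_mod_cast this
  have c1 := Nat.pow_le_choose (α := ℝ) j m
  rw [Nat.cast_sub hjm] at c1
  push_cast at c1
  rw [← hK] at c1
  have c2 : K ^ j * (1 - j ^ 2 / K) ≤ (K - j) ^ j := by
    have h5 : (1 : ℝ) + j * (-(j / K)) ≤ (1 + -(j / K)) ^ j :=
      one_add_mul_le_pow (by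
        have : (j : ℝ) / K ≤ 1 := (div_le_one hK0).2 h3
        linarith) j
    have h6 : K - j = K * (1 + -(j / K)) := by field_simp; ring
    rw [h6, mul_pow]
    refine mul_le_mul_of_nonneg_left (le_trans (le_of_eq ?_) h5) (by positivity)
    ring
  set a := C1 / j.factorial with ha'
  set b : ℝ := 2 * j - 1 + e with hb
  have hb0 : 0 < b := by rw [hb]; linarith
  have ha0 : 0 < a := by positivity
  set L := K ^ j / (C1 * x) with hL
  have hCx : 0 < C1 * x := by positivity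
  have hL1 : 2 * b / e ≤ L := by
    rw [hL, le_div_iff₀ hCx]
    exact h2.trans (le_self_pow₀ hK1 (by omega))
  have hL2 : b ≤ e / 2 * L := by
    rw [div_le_iff₀ he] at hL1
    linarith
  have hL0 : 0 ≤ L := by positivity
  have c3 : j ^ 2 / K * a ≤ e / 2 := by
    rw [div_le_iff₀ he] at h1
    rw [div_mul_eq_mul_div, div_le_iff₀ hK0]
    linarith
  have c4 : b * l ≤ L * ((1 - j ^ 2 / K) * a) := by
    have h5 : b + e / 2 ≤ (1 - j ^ 2 / K) * a := by
      rw [sub_mul, one_mul]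
      linarith
    calc b * l ≤ b * (L + 1) := by gcongr
      _ ≤ L * (b + e / 2) := by nlinarith
      _ ≤ _ := by gcongr
  rw [le_div_iff₀ (by linarith)]
  refine le_trans ?_ c1
  calc b * x * l = x * (b * l) := by ring
    _ ≤ x * (L * ((1 - j ^ 2 / K) * a)) := by gcongr
    _ = K ^ j * (1 - j ^ 2 / K) / j.factorial := by
        rw [hL, ha']
        field_simp
    _ ≤ _ := by gcongr

/-- choice of the two moduli -/
theorem up_par {j : ℕ} (hj : 1 ≤ j) {C : ℝ} (hC : (2 * j - 1) * j.factorial < C) :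
    ∀ᶠ m : ℕ in atTop, ∃ (l r : ℕ) (β : ℝ), 1 ≤ l ∧ 1 ≤ r ∧
      j * ((m : ℝ) + 1) ^ (j - 1) ≤ β * l ∧ β ≤ 1 / 2 ∧
      1 / (l : ℝ) + (l : ℝ) / r * ((1 + ((m : ℝ) + 1) ^ j / l)
          * Real.exp (-((m.choose j : ℝ) / l) + 6 * m * β ^ 2))
        + r * (((m : ℝ) + 1) ^ j * (1 - 1 / (r : ℝ)) ^ (m + 1 - j))
      ≤ C * Real.log (m + 1) / (m + 1) ^ j := by
  have hj1 : (1 : ℝ) ≤ j := by exact_mod_cast hj
  have hF : (1 : ℝ) ≤ j.factorial := by exact_mod_cast Nat.factorial_pos j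
  obtain ⟨C1, hC1, hC2⟩ := exists_between hC
  have hC3 : 1 ≤ C1 := by nlinarith
  obtain ⟨e, he, ha⟩ : ∃ e : ℝ, 0 < e ∧ C1 / j.factorial = (2 * j - 1) + 2 * e := by
    refine ⟨(C1 / j.factorial - (2 * j - 1)) / 2, ?_, by ring⟩
    have : (2 * j - 1 : ℝ) < C1 / j.factorial := by rw [lt_div_iff₀ (by linarith)]; exact hC1
    linarith
  have hd : 0 < (C - C1) / 2 := by linarith
  filter_upwards [upa_log.eventually_ge_atTop 2, upa_sq (j * (2 * j + 3)), upa_sq (2 * j * C1),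
    upa_sq (6 * j ^ 2 * C1 ^ 2), upa_sq (2 * j ^ 2 * (C1 / j.factorial) / e),
    upa_sq (2 * (2 * j - 1 + e) / e * C1), upa_sq (2 / (C - C1)),
    upa_exp (4 * (2 * j + 3) * Real.exp 1) he hd] with m x2 g1 g2 g3 g4 g5 g6 g7
  have hx : Real.exp (Real.log ((m : ℝ) + 1)) = (m : ℝ) + 1 := Real.exp_log (by positivity)
  generalize Real.log ((m : ℝ) + 1) = x at *
  have hx0 : 0 < x := by linarith
  have sq1 : ∀ D : ℝ, 0 ≤ D → D * x ≤ D * x ^ 2 := fun D hD =>
    mul_le_mul_of_nonneg_left (by nlinarith) hD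
  have sq0 : ∀ D : ℝ, 0 ≤ D → D ≤ D * x ^ 2 := fun D hD =>
    le_mul_of_one_le_right hD (by nlinarith)
  have hK0 : (0 : ℝ) < (m : ℝ) + 1 := by positivity
  have hK1 : (1 : ℝ) ≤ (m : ℝ) + 1 := by linarith [Nat.cast_nonneg (α := ℝ) m]
  have hCx : 2 ≤ C1 * x := by nlinarith
  have hb0 : 0 < 2 * j - 1 + e := by linarith
  have k1 : (j : ℝ) * (2 * j + 3) ≤ (m : ℝ) + 1 := (sq0 _ (by positivity)).trans g1
  have k2 : (2 * j + 3) * x ≤ (m : ℝ) + 1 := by
    refine le_trans ?_ ((sq1 _ (by positivity)).trans g1)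
    have : 0 ≤ (2 * j + 3) * x := by positivity
    nlinarith
  have k3 : 2 * j * C1 * x ≤ (m : ℝ) + 1 := (sq1 _ (by positivity)).trans g2
  have k4 := (sq0 _ (by positivity)).trans g4
  have k5 : 2 * (2 * j - 1 + e) / e * (C1 * x) ≤ (m : ℝ) + 1 := by
    rw [← mul_assoc]
    exact (sq1 _ (by positivity)).trans g5
  have k6 : 2 / (C - C1) ≤ (m : ℝ) + 1 :=
    (sq0 _ (div_nonneg (by norm_num) (by linarith))).trans g6
  have k7 : (j : ℝ) ≤ (m : ℝ) + 1 := (le_mul_of_one_le_right (by linarith) (by linarith)).trans k1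
  have hmK : (m : ℝ) ≤ (m : ℝ) + 1 := by linarith
  have hKj : (m : ℝ) + 1 ≤ ((m : ℝ) + 1) ^ j := le_self_pow₀ hK1 (by omega)
  have hKj' : ((m : ℝ) + 1) ^ j = ((m : ℝ) + 1) ^ (j - 1) * ((m : ℝ) + 1) := by
    rw [← pow_succ]; congr 1; omega
  set l := ⌈((m : ℝ) + 1) ^ j / (C1 * x)⌉₊ with hl
  set r := ⌊((m : ℝ) + 1) / ((2 * j + 3) * x)⌋₊ with hr
  have hL1 : 1 ≤ ((m : ℝ) + 1) ^ j / (C1 * x) := by
    rw [le_div_iff₀ (by linarith)]
    have h5 : 1 * (C1 * x) ≤ 2 * j * (C1 * x) :=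
      mul_le_mul_of_nonneg_right (by linarith) (by linarith)
    linarith
  have l1 : ((m : ℝ) + 1) ^ j / (C1 * x) ≤ l := Nat.le_ceil _
  have l2 : (l : ℝ) ≤ ((m : ℝ) + 1) ^ j / (C1 * x) + 1 := (Nat.ceil_lt_add_one (by linarith)).le
  have l3 : (1 : ℝ) ≤ l := hL1.trans l1
  have l4 : 1 ≤ l := by exact_mod_cast l3
  have hjx : 0 < (2 * j + 3) * x := by positivity
  have hR1 : 1 ≤ ((m : ℝ) + 1) / ((2 * j + 3) * x) := by rw [le_div_iff₀ hjx]; linarith
  have r1 : 1 ≤ r := Nat.le_floor (by exact_mod_cast hR1)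
  have r2 : (1 : ℝ) ≤ r := by exact_mod_cast r1
  have r3 : (r : ℝ) ≤ ((m : ℝ) + 1) / ((2 * j + 3) * x) := Nat.floor_le (by linarith)
  have r4 : ((m : ℝ) + 1) / ((2 * j + 3) * x) < r + 1 := Nat.lt_floor_add_one _
  have r5 : (r : ℝ) * ((2 * j + 3) * x) ≤ (m : ℝ) + 1 := (le_div_iff₀ hjx).1 r3
  have r6 : (r : ℝ) ≤ (m : ℝ) + 1 := by
    refine le_trans (le_mul_of_one_le_right (by linarith) ?_) r5
    exact one_le_mul_of_one_le_of_one_le (by linarith) (by linarith)
  have r7 : 1 / (r : ℝ) ≤ 2 * ((2 * j + 3) * x) / ((m : ℝ) + 1) := by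
    rw [div_lt_iff₀ hjx] at r4
    rw [div_le_div_iff₀ (by linarith) hK0]
    have h5 : ((r : ℝ) + 1) * ((2 * j + 3) * x) ≤ (r + r) * ((2 * j + 3) * x) :=
      mul_le_mul_of_nonneg_right (by linarith) hjx.le
    linarith
  have t3 := upa_three hx hx0.le r1 r5 r6 k1
  have t2 := upa_choose hj hx0 (by linarith) he ha l4 l2 k4 k5 k7
  clear_value l r
  generalize (m.choose j : ℝ) = y at *
  have hm0 : (0 : ℝ) ≤ m := Nat.cast_nonneg m
  set K : ℝ := (m : ℝ) + 1 with hK
  have hP : 0 < K ^ j := by positivity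
  have t1 : 1 / (l : ℝ) ≤ C1 * x / K ^ j := by
    rw [div_le_iff₀ (by linarith)] at l1
    rw [div_le_div_iff₀ (by linarith) hP]
    linarith
  have b1 : j * K ^ (j - 1) / l ≤ j * C1 * x / K := by
    calc j * K ^ (j - 1) / l = j * K ^ (j - 1) * (1 / l) := by ring
      _ ≤ j * K ^ (j - 1) * (C1 * x / K ^ j) := by gcongr
      _ = _ := by rw [hKj']; field_simp
  refine ⟨l, r, j * K ^ (j - 1) / l, l4, r1, le_of_eq (by field_simp), ?_, ?_⟩
  · refine b1.trans ?_
    rw [div_le_iff₀ hK0]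
    linarith
  · have b0 : 0 ≤ j * K ^ (j - 1) / l := by positivity
    generalize j * K ^ (j - 1) / l = β at *
    have b2 : 6 * m * β ^ 2 ≤ 1 := by
      calc 6 * m * β ^ 2 ≤ 6 * K * (j * C1 * x / K) ^ 2 := by gcongr
        _ = 6 * j ^ 2 * C1 ^ 2 * x ^ 2 / K := by field_simp
        _ ≤ 1 := (div_le_one hK0).2 g3
    have e1 : Real.exp (-(y / l) + 6 * m * β ^ 2)
        ≤ Real.exp 1 * Real.exp (-(e * x)) * (K / K ^ j / K ^ j) := by
      have h5 : K / K ^ j / K ^ j = Real.exp (x - j * x - j * x) := by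
        rw [Real.exp_sub, Real.exp_sub, Real.exp_nat_mul, hx]
      rw [h5, ← Real.exp_add, ← Real.exp_add, Real.exp_le_exp]
      linarith
    have l5 : (l : ℝ) ≤ K ^ j := by
      have h5 : K ^ j / (C1 * x) ≤ K ^ j / 2 := by gcongr
      linarith
    have e2 : (l : ℝ) / r * ((1 + K ^ j / l) * Real.exp (-(y / l) + 6 * m * β ^ 2))
        ≤ (C - C1) / 2 * x / K ^ j := by
      calc (l : ℝ) / r * ((1 + K ^ j / l) * Real.exp (-(y / l) + 6 * m * β ^ 2))
          = (l + K ^ j) * (1 / r) * Real.exp (-(y / l) + 6 * m * β ^ 2) := by field_simp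
        _ ≤ (K ^ j + K ^ j) * (2 * ((2 * j + 3) * x) / K)
            * (Real.exp 1 * Real.exp (-(e * x)) * (K / K ^ j / K ^ j)) := by gcongr
        _ = 4 * (2 * j + 3) * Real.exp 1 * Real.exp (-(e * x)) * x / K ^ j := by
            field_simp
            ring
        _ ≤ _ := by gcongr
    have e3 : 1 / K / K ^ j ≤ (C - C1) / 2 * x / K ^ j := by
      have h5 : 1 / K ≤ (C - C1) / 2 := by
        rw [div_le_iff₀ (by linarith)] at k6
        rw [div_le_iff₀ hK0]
        linarith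
      have h6 : (C - C1) / 2 ≤ (C - C1) / 2 * x := le_mul_of_one_le_right hd.le (by linarith)
      exact div_le_div_of_nonneg_right (h5.trans h6) hP.le
    have e4 : C * x / K ^ j = C1 * x / K ^ j + (C - C1) / 2 * x / K ^ j
        + (C - C1) / 2 * x / K ^ j := by ring
    rw [e4]
    exact add_le_add (add_le_add t1 e2) (t3.trans e3)

end Pool.Agent.P.MP_7badbe_co

end
end

-- part Pool.Agent.P.MP_7badbe_co.Sp.E
section

set_option autoImplicit false
set_option linter.unusedSectionVars false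

section


open Finset Filter Topology
open scoped BigOperators

namespace Pool.Agent.P.MP_7badbe_co

variable {V : Type} [Fintype V] [Nonempty V]

variable {A : Type} [AddCommGroup A] [Fintype A]

lemma miss_mem {s : ℕ} {T : Multiset A} {a : A} :
    a ∈ sums s T ↔ ∃ J ≤ T, J.card = s ∧ J.sum = a := by
  simp [sums]

lemma miss_mono {s : ℕ} {T T' : Multiset A} (h : T ≤ T') : sums s T ⊆ sums s T' := fun _ ha => by
  obtain ⟨J, hJ, hc⟩ := miss_mem.1 ha
  exact miss_mem.2 ⟨J, hJ.trans h, hc⟩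

lemma miss_add {s : ℕ} {T : Multiset A} {u x : A} (h : u - x ∈ sums s T) :
    u ∈ sums (s + 1) (x ::ₘ T) := by
  obtain ⟨J, hJ, hc, hs⟩ := miss_mem.1 h
  exact miss_mem.2 ⟨x ::ₘ J, Multiset.cons_le_cons _ hJ, by simp [hc], by simp [hs]⟩

lemma miss_card (s : ℕ) (T : Multiset A) : (sums s T).card ≤ T.card ^ s := by
  classical
  induction s with
  | zero =>
    refine (card_le_card (t := {0}) fun a ha => ?_).trans (by simp)
    obtain ⟨J, -, hc, hs⟩ := miss_mem.1 ha
    rw [Multiset.card_eq_zero.1 hc] at hs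
    simp [← hs]
  | succ s ih =>
    refine (card_le_card (t := T.toFinset.biUnion fun t =>
      (sums s T).map (Equiv.addRight t).toEmbedding) fun a ha => ?_).trans ?_
    · obtain ⟨J, hJ, hc, hs⟩ := miss_mem.1 ha
      obtain ⟨t, ht⟩ := Multiset.card_pos_iff_exists_mem.1 (show 0 < J.card by omega)
      obtain ⟨J', rfl⟩ := Multiset.exists_cons_of_mem ht
      refine mem_biUnion.2 ⟨t, Multiset.mem_toFinset.2 (Multiset.mem_of_le hJ ht),
        mem_map.2 ⟨J'.sum, miss_mem.2 ⟨J', (Multiset.le_cons_self _ _).trans hJ,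
          by simpa using hc, rfl⟩, ?_⟩⟩
      simp [← hs, add_comm]
    · refine (card_biUnion_le_card_mul _ _ (T.card ^ s) fun t _ => by rwa [card_map]).trans ?_
      rw [pow_succ']
      exact Nat.mul_le_mul_right _ (Multiset.toFinset_card_le _)

omit [Fintype A] in
lemma miss_coll (U B : Finset A) (x : A) :
    ∑ u ∈ U, ind (u - x ∈ B) ≤ B.card ∧ ∀ C : Finset A, U ⊆ C → (∀ u, u - x ∈ B → u ∈ C) →
      (U.card : ℝ) + B.card - ∑ u ∈ U, ind (u - x ∈ B) ≤ C.card := by
  classical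
  set tr := B.map (Equiv.addRight x).toEmbedding with htr
  have hmem : ∀ a, a ∈ tr ↔ a - x ∈ B := fun a => by
    simp [htr, mem_map_equiv, sub_eq_add_neg]
  have hcard : tr.card = B.card := card_map _
  have h3 : ∑ u ∈ U, ind (u - x ∈ B) = (U ∩ tr).card := by
    rw [← filter_mem_eq_inter, card_filter]
    push_cast
    exact sum_congr rfl (fun u _ => by simp [ind, hmem])
  rw [h3, ← hcard]
  refine ⟨by exact_mod_cast card_le_card inter_subset_right, fun C h1 h2 => ?_⟩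
  have h4 := card_union_add_card_inter U tr
  have h5 := card_le_card (union_subset h1 fun u hu => h2 u ((hmem u).1 hu))
  have h6 : U.card + tr.card ≤ C.card + (U ∩ tr).card := by omega
  have h7 : (U.card : ℝ) + tr.card ≤ C.card + (U ∩ tr).card := by exact_mod_cast h6
  linarith

/-- the potential -/
noncomputable def missP (r n : ℕ) (T : Multiset A) : ℝ :=
  ∑ s ∈ range (r + 1), ((sums s T).card : ℝ) * n.choose (r + 1 - s)

/-- the collision term -/
noncomputable def missY (r n : ℕ) (T : Multiset A) (x : A) : ℝ :=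
  ∑ s ∈ range r, (∑ u ∈ sums (s + 1) T, ind (u - x ∈ sums s T)) * n.choose (r - s)

lemma miss_step (r n : ℕ) (T : Multiset A) (x : A) :
    missP r (n + 1) T - (sums r T).card - missY r n T x ≤ missP r n (x ::ₘ T) := by
  have h1 : missP r (n + 1) T = ∑ s ∈ range (r + 1), ((sums s T).card : ℝ) * n.choose (r - s)
      + missP r n T := by
    rw [missP, missP, ← sum_add_distrib]
    refine sum_congr rfl fun s hs => ?_
    have : r + 1 - s = r - s + 1 := by have := mem_range.1 hs; omega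
    rw [this, Nat.choose_succ_succ']
    push_cast
    ring
  rw [h1, sum_range_succ, missP, missP, missY, sum_range_succ', sum_range_succ']
  simp only [Nat.add_sub_add_right, Nat.sub_self, Nat.choose_zero_right, Nat.cast_one, mul_one]
  have h2 : ((sums 0 T).card : ℝ) * n.choose (r + 1 - 0)
      ≤ (sums 0 (x ::ₘ T)).card * n.choose (r + 1 - 0) := by
    gcongr
    exact miss_mono (Multiset.le_cons_self _ _)
  have h3 := sum_le_sum (s := range r) fun s _ => mul_le_mul_of_nonneg_right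
    ((miss_coll (sums (s + 1) T) (sums s T) x).2 (sums (s + 1) (x ::ₘ T))
      (miss_mono (Multiset.le_cons_self _ _)) fun u => miss_add) (Nat.cast_nonneg (n.choose (r - s)))
  simp only [sub_mul, add_mul, sum_sub_distrib, sum_add_distrib] at h3
  linarith

lemma miss_bd {r m n : ℕ} {T : Multiset A} (h : T.card + n ≤ m) {c : ℝ}
    (hc : (r + 1 : ℕ) * ((m : ℝ) + 1) ^ r ≤ c) :
    (∀ s ≤ r, ((sums s T).card : ℝ) ≤ c) ∧
      ∑ s ∈ range r, ((sums s T).card : ℝ) * n.choose (r - s) ≤ c := by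
  have h0 : (1 : ℝ) ≤ (m : ℝ) + 1 := by simp
  have h1 : ∀ s, ((sums s T).card : ℝ) ≤ ((m : ℝ) + 1) ^ s := fun s => by
    exact_mod_cast (miss_card s T).trans (Nat.pow_le_pow_left (by omega) _)
  have h2 : (0 : ℝ) ≤ ((m : ℝ) + 1) ^ r := by positivity
  push_cast at hc
  refine ⟨fun s hs => (h1 s).trans ((pow_le_pow_right₀ h0 hs).trans ?_), ?_⟩
  · nlinarith [mul_nonneg (Nat.cast_nonneg (α := ℝ) r) h2]
  · refine (sum_le_card_nsmul _ _ (((m : ℝ) + 1) ^ r) fun s hs => ?_).trans ?_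
    · have h3 : (n.choose (r - s) : ℝ) ≤ ((m : ℝ) + 1) ^ (r - s) := by
        exact_mod_cast (Nat.choose_le_pow _ _).trans (Nat.pow_le_pow_left (by omega) _)
      rw [← Nat.add_sub_cancel' (mem_range.1 hs).le, pow_add, Nat.add_sub_cancel_left]
      exact mul_le_mul (h1 s) h3 (by positivity) (by positivity)
    · rw [card_range, nsmul_eq_mul]
      linarith

lemma miss_main {r m : ℕ} {β : ℝ}
    (hβ : (r + 1 : ℕ) * ((m : ℝ) + 1) ^ r ≤ β * Fintype.card A) (hβ2 : β ≤ 1 / 2) (a : A)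
    (n : ℕ) : ∀ T : Multiset A, T.card + n ≤ m →
    Ex n (fun W => ind (a ∉ sums (r + 1) (T + W)))
      ≤ Real.exp (-(missP r n T / Fintype.card A) + 6 * n * β ^ 2) := by
  have hN : (0 : ℝ) < Fintype.card A := by exact_mod_cast Fintype.card_pos
  set N : ℝ := ((Fintype.card A : ℕ) : ℝ) with hNN
  induction n with
  | zero =>
    intro T _
    have : missP r 0 T = 0 := sum_eq_zero fun s hs => by
      rw [Nat.choose_eq_zero_of_lt (by have := mem_range.1 hs; omega)]
      simp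
    simpa [this] using ind_le_one _
  | succ n ih =>
    intro T hT
    obtain ⟨b1, b2⟩ := miss_bd (n := n) (T := T) (by omega) hβ
    set K := Real.exp (-(missP r (n + 1) T / N) + 6 * n * β ^ 2 + (sums r T).card / N) with hK
    have hy0 : ∀ x, 0 ≤ missY r n T x := fun x => sum_nonneg fun s _ =>
      mul_nonneg (sum_nonneg fun _ _ => ind_nonneg _) (Nat.cast_nonneg _)
    have hy1 : ∀ x, missY r n T x / N ≤ 1 := fun x => by
      have : missY r n T x ≤ β * N := (sum_le_sum fun s _ => mul_le_mul_of_nonneg_right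
        (miss_coll _ _ x).1 (Nat.cast_nonneg _)).trans b2
      rw [div_le_one hN]
      nlinarith
    have h1 : Ex (n + 1) (fun W => ind (a ∉ sums (r + 1) (T + W)))
        ≤ 𝔼 x, K * (1 - ind (a - x ∈ sums r T) + 2 / N * missY r n T x) := by
      refine expect_le_expect fun x _ => ?_
      have hy : 0 ≤ 2 / N * missY r n T x := mul_nonneg (by positivity) (hy0 x)
      simp only [Multiset.add_cons, ← Multiset.cons_add]
      by_cases hx : a - x ∈ sums r T
      · rw [ind_pos hx]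
        refine Ex_le fun W _ => ?_
        rw [ind_neg (not_not.2 (miss_mono (Multiset.le_add_right _ _) (miss_add hx)))]
        exact mul_nonneg (Real.exp_pos _).le (by linarith)
      · rw [ind_neg hx]
        refine (ih (x ::ₘ T) (by simp only [Multiset.card_cons]; omega)).trans ?_
        have h2 := div_le_div_of_nonneg_right (miss_step r n T x) hN.le
        have h3 := Real.abs_exp_sub_one_le (x := missY r n T x / N)
          (by rw [abs_of_nonneg (div_nonneg (hy0 x) hN.le)]; exact hy1 x)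
        rw [abs_of_nonneg (div_nonneg (hy0 x) hN.le)] at h3
        have h4 : Real.exp (missY r n T x / N) ≤ 1 - 0 + 2 / N * missY r n T x := by
          have := (abs_le.1 h3).2
          rw [show 2 / N * missY r n T x = 2 * (missY r n T x / N) by ring]
          linarith
        refine le_trans ?_ (mul_le_mul_of_nonneg_left h4 (Real.exp_pos _).le)
        rw [← Real.exp_add, Real.exp_le_exp]
        simp only [sub_div] at h2
        linarith
    refine h1.trans ?_
    have hβ0 : 0 ≤ β * N := (Nat.cast_nonneg _).trans (b1 0 (Nat.zero_le _))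
    have h5 : 𝔼 x, missY r n T x ≤ β * (β * N) := by
      simp only [missY, expect_sum_comm, ← expect_mul, av_mem, sum_const, nsmul_eq_mul]
      refine le_trans (sum_le_sum fun s hs => ?_) ((mul_sum _ _ β).ge.trans
        (mul_le_mul_of_nonneg_left b2 (nonneg_of_mul_nonneg_left hβ0 hN)))
      rw [← hNN, ← mul_assoc, mul_div_left_comm, mul_comm _ (_ / N)]
      gcongr
      rw [div_le_iff₀ hN]
      exact b1 _ (mem_range.1 hs)
    simp only [← mul_expect, expect_add_distrib, expect_sub_distrib, expect_const univ_nonempty,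
      av_mem]
    rw [← hNN]
    set b := ((sums r T).card : ℝ) / N with hb
    have h6 : b ≤ 1 := by
      rw [hb, div_le_one hN, hNN]
      exact_mod_cast card_le_univ _
    have h7 : 2 / N * 𝔼 x, missY r n T x ≤ 2 * β ^ 2 :=
      (mul_le_mul_of_nonneg_left h5 (by positivity)).trans (le_of_eq (by field_simp))
    have h8 : Real.exp b * (1 - b) ≤ 1 := by
      have := mul_le_mul_of_nonneg_left (Real.one_sub_le_exp_neg b) (Real.exp_pos b).le
      rwa [← Real.exp_add, add_neg_cancel, Real.exp_zero] at this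
    have h9 : Real.exp b ≤ 3 := (Real.exp_le_exp.2 h6).trans (by linarith [Real.exp_one_lt_d9])
    have h10 : Real.exp b * (1 - b + 2 / N * 𝔼 x, missY r n T x) ≤ Real.exp (6 * β ^ 2) := by
      have := Real.add_one_le_exp (6 * β ^ 2)
      nlinarith [Real.exp_pos b, mul_le_mul_of_nonneg_left h7 (Real.exp_pos b).le, sq_nonneg β]
    rw [hK, Real.exp_add, mul_assoc]
    refine (mul_le_mul_of_nonneg_left h10 (Real.exp_pos _).le).trans (le_of_eq ?_)
    rw [← Real.exp_add]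
    push_cast
    ring_nf

/-- sharp bound for the probability that a residue is not a sum of `j` of `m` random points -/
theorem miss_sharp {j : ℕ} (hj : 1 ≤ j) (m : ℕ) {β : ℝ}
    (hβ : j * ((m : ℝ) + 1) ^ (j - 1) ≤ β * Fintype.card A) (hβ2 : β ≤ 1 / 2) (a : A) :
    Ex m (fun T : Multiset A => ind (a ∉ sums j T))
      ≤ Real.exp (-((m.choose j : ℝ) / Fintype.card A) + 6 * m * β ^ 2) := by
  obtain ⟨r, rfl⟩ : ∃ r, j = r + 1 := ⟨j - 1, by omega⟩
  have h := miss_main hβ hβ2 a m 0 (by simp)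
  simp only [zero_add] at h
  refine h.trans (Real.exp_le_exp.2 ?_)
  have h1 : (1 : ℝ) ≤ (sums 0 (0 : Multiset A)).card := by
    exact_mod_cast card_pos.2 ⟨0, miss_mem.2 ⟨0, le_rfl, rfl, rfl⟩⟩
  have h2 : (m.choose (r + 1) : ℝ) ≤ missP r m (0 : Multiset A) :=
    le_trans (le_mul_of_one_le_left (Nat.cast_nonneg _) h1) (single_le_sum
      (f := fun s => ((sums s (0 : Multiset A)).card : ℝ) * m.choose (r + 1 - s))
      (fun _ _ => by positivity) (mem_range.2 (Nat.succ_pos r)))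
  have := div_le_div_of_nonneg_right h2 (Nat.cast_nonneg (α := ℝ) (Fintype.card A))
  linarith

end Pool.Agent.P.MP_7badbe_co

end

section


open Finset Filter Topology
open scoped BigOperators

namespace Pool.Agent.P.MP_7badbe_co

variable {V : Type} [Fintype V] [Nonempty V]

variable {A B : Type} [AddCommGroup A] [Fintype A] [AddCommGroup B] [Fintype B]

omit [AddCommGroup A] [AddCommGroup B] in
lemma up_prod (m : ℕ) (F : Multiset A → ℝ) (G : Multiset B → ℝ) :
    Ex m (fun M : Multiset (A × B) => F (M.map Prod.fst) * G (M.map Prod.snd))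
      = Ex m F * Ex m G := by
  induction m generalizing F G with
  | zero => simp
  | succ m ih =>
    have h1 : ∀ v : A × B, Ex m (fun M : Multiset (A × B) =>
        F ((v ::ₘ M).map Prod.fst) * G ((v ::ₘ M).map Prod.snd))
        = Ex m (fun M => F (v.1 ::ₘ M)) * Ex m (fun M => G (v.2 ::ₘ M)) := by
      intro v
      simp only [Multiset.map_cons]
      exact ih (fun M => F (v.1 ::ₘ M)) (fun M => G (v.2 ::ₘ M))
    rw [Ex_succ, Ex_succ, Ex_succ]
    simp only [h1]
    rw [← univ_product_univ, expect_product, expect_mul_expect]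

lemma up_card (r : ℕ) (T : Multiset A) : (sums r T).card ≤ T.card ^ r := by
  classical
  have h1 : sums r T ⊆ ((T.powersetCard r).map Multiset.sum).toFinset := by
    intro a ha
    simp only [sums, mem_filter, mem_univ, true_and] at ha
    obtain ⟨J, hJ, hc, hs⟩ := ha
    exact Multiset.mem_toFinset.2
      (Multiset.mem_map.2 ⟨J, Multiset.mem_powersetCard.2 ⟨hJ, hc⟩, hs⟩)
  refine (card_le_card h1).trans ((Multiset.toFinset_card_le _).trans ?_)
  rw [Multiset.card_map, Multiset.card_powersetCard]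
  exact Nat.choose_le_pow _ _

lemma up_point (r : ℕ) (M : Multiset A) :
    ind (∃ s T, M = s ::ₘ T ∧ ∃ a, a ∉ sums (r + 1) T)
      ≤ ∑ a : A, (ind (a ∉ sums (r + 1) M)
        + splitSum 1 (fun I T => ind (a ∉ sums (r + 1) T) * ind (a - I.sum ∈ sums r T)) M) := by
  classical
  have h0 : ∀ (a : A) (I T : Multiset A),
      0 ≤ (fun I T => ind (a ∉ sums (r + 1) T) * ind (a - I.sum ∈ sums r T)) I T :=
    fun a I T => mul_nonneg (ind_nonneg _) (ind_nonneg _)
  have h1 : ∀ a : A, 0 ≤ ind (a ∉ sums (r + 1) M)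
      + splitSum 1 (fun I T => ind (a ∉ sums (r + 1) T) * ind (a - I.sum ∈ sums r T)) M :=
    fun a => add_nonneg (ind_nonneg _) (splitSum_nonneg (h0 a) M)
  by_cases hM : ∃ s T, M = s ::ₘ T ∧ ∃ a, a ∉ sums (r + 1) T
  · rw [ind_pos hM]
    obtain ⟨s, T, rfl, a, ha⟩ := hM
    refine le_trans ?_ (single_le_sum (fun a _ => h1 a) (mem_univ a))
    by_cases hb : a ∈ sums (r + 1) (s ::ₘ T)
    · have h3 := le_splitSum (r := 1) (h0 a) {s} T rfl
      rw [Multiset.singleton_add] at h3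
      have h4 : a - ({s} : Multiset A).sum ∈ sums r T := by
        simp only [sums, mem_filter, mem_univ, true_and] at ha hb ⊢
        obtain ⟨J, hJ, hc, hs⟩ := hb
        by_cases hsJ : s ∈ J
        · obtain ⟨J', rfl⟩ := Multiset.exists_cons_of_mem hsJ
          refine ⟨J', (Multiset.cons_le_cons_iff s).1 hJ, by simpa using hc, ?_⟩
          rw [← hs]; simp
        · exact absurd ⟨J, (Multiset.le_cons_of_notMem hsJ).1 hJ, hc, hs⟩ ha
      simp only [ind_pos ha, ind_pos h4, mul_one] at h3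
      linarith [ind_nonneg (a ∉ sums (r + 1) (s ::ₘ T))]
    · rw [ind_pos hb]
      linarith [splitSum_nonneg (r := 1) (h0 a) (s ::ₘ T)]
  · rw [ind_neg hM]
    exact sum_nonneg (fun a _ => h1 a)

lemma up_def (r m : ℕ) {η : ℝ}
    (h : ∀ a : A, Ex m (fun T : Multiset A => ind (a ∉ sums (r + 1) T)) ≤ η) :
    Ex (m + 1) (fun M : Multiset A => ind (∃ s T, M = s ::ₘ T ∧ ∃ a, a ∉ sums (r + 1) T))
      ≤ Fintype.card A * ((1 + ((m : ℝ) + 1) ^ (r + 1) / Fintype.card A) * η) := by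
  have hA : (0 : ℝ) < Fintype.card A := by exact_mod_cast Fintype.card_pos
  refine (Ex_mono (fun M _ => up_point r M)).trans ?_
  rw [Ex_sum]
  refine (sum_le_sum (g := fun _ => (1 + ((m : ℝ) + 1) ^ (r + 1) / Fintype.card A) * η)
    (fun a _ => ?_)).trans (by simp)
  rw [Ex_add, Ex_splitSum, Nat.choose_one_right, Nat.add_sub_cancel]
  have h1 : Ex (m + 1) (fun M : Multiset A => ind (a ∉ sums (r + 1) M)) ≤ η := by
    rw [Ex_succ]
    refine expect_le univ_nonempty (fun s _ => le_trans (Ex_mono (fun T _ => ?_)) (h a))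
    refine ind_mono (fun h1 h2 => h1 ?_)
    simp only [sums, mem_filter, mem_univ, true_and] at h2 ⊢
    obtain ⟨J, hJ, hc⟩ := h2
    exact ⟨J, hJ.trans (Multiset.le_cons_self _ _), hc⟩
  have h2 : Ex 1 (fun I : Multiset A => Ex m (fun T =>
      ind (a ∉ sums (r + 1) T) * ind (a - I.sum ∈ sums r T)))
      ≤ ((m : ℝ) + 1) ^ r / Fintype.card A * η := by
    rw [Ex_comm]
    refine le_trans (Ex_mono (G := fun T => ((m : ℝ) + 1) ^ r / Fintype.card A
      * ind (a ∉ sums (r + 1) T)) (fun T hT => ?_)) ?_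
    · rw [Ex_mul, mul_comm]
      refine mul_le_mul_of_nonneg_right ?_ (ind_nonneg _)
      have h3 : Ex 1 (fun I : Multiset A => ind (a - I.sum ∈ sums r T))
          = 𝔼 t, ind (a - t ∈ sums r T) := by
        rw [Ex_succ]; simp
      rw [h3, av_mem]
      refine div_le_div_of_nonneg_right ?_ hA.le
      have h4 : ((sums r T).card : ℝ) ≤ (m : ℝ) ^ r := by
        rw [← hT]; exact_mod_cast up_card r T
      exact h4.trans (pow_le_pow_left₀ (by positivity) (by linarith) _)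
    · rw [Ex_mul]
      exact mul_le_mul_of_nonneg_left (h a) (by positivity)
  have h3 := mul_le_mul_of_nonneg_left h2 (show (0 : ℝ) ≤ ((m + 1 : ℕ) : ℝ) by positivity)
  have h4 : ((m + 1 : ℕ) : ℝ) * (((m : ℝ) + 1) ^ r / Fintype.card A * η)
      = ((m : ℝ) + 1) ^ (r + 1) / Fintype.card A * η := by
    push_cast; ring
  rw [h4] at h3
  linarith

lemma up_third (i j m : ℕ) (him : i + j = m + 1) :
    Ex (m + 1) (fun M : Multiset (A × B) =>
        ind (∃ J R, M = J + R ∧ J.card = j ∧ ∃ c : B, ∀ t ∈ R, t.2 ≠ c))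
      ≤ Fintype.card B * (((m : ℝ) + 1) ^ j * (1 - 1 / (Fintype.card B : ℝ)) ^ i) := by
  have hB : (1 : ℝ) ≤ Fintype.card B := by exact_mod_cast Fintype.card_pos
  have h0 : ∀ (c : B) (J R : Multiset (A × B)),
      0 ≤ (fun _ R => ind (∀ t ∈ R, t.2 ≠ c)) J R := fun _ _ _ => ind_nonneg _
  have h1 : ∀ M : Multiset (A × B),
      ind (∃ J R, M = J + R ∧ J.card = j ∧ ∃ c : B, ∀ t ∈ R, t.2 ≠ c)
        ≤ ∑ c : B, splitSum j (fun _ R => ind (∀ t ∈ R, t.2 ≠ c)) M := by
    intro M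
    by_cases hM : ∃ J R, M = J + R ∧ J.card = j ∧ ∃ c : B, ∀ t ∈ R, t.2 ≠ c
    · rw [ind_pos hM]
      obtain ⟨J, R, rfl, hJ, c, hc⟩ := hM
      refine le_trans ?_ (single_le_sum (fun c _ => splitSum_nonneg (h0 c) _) (mem_univ c))
      have h3 := le_splitSum (h0 c) J R hJ
      rwa [ind_pos hc] at h3
    · rw [ind_neg hM]
      exact sum_nonneg (fun c _ => splitSum_nonneg (h0 c) _)
  refine (Ex_mono (fun M _ => h1 M)).trans ?_
  rw [Ex_sum]
  refine (sum_le_sum (g := fun _ => ((m : ℝ) + 1) ^ j * (1 - 1 / (Fintype.card B : ℝ)) ^ i)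
    (fun c _ => ?_)).trans (by simp)
  have h2 : 𝔼 v : A × B, ind (v.2 ≠ c) = 1 - 1 / (Fintype.card B : ℝ) := by
    have h3 := av_mem ({0} : Finset B) c
    simp only [card_singleton, Nat.cast_one] at h3
    rw [← univ_product_univ, expect_product, ← h3]
    simp only [expect_const univ_nonempty, ne_eq, ind_not, expect_sub_distrib]
    congr 1
    refine expect_congr rfl (fun v _ => ind_congr ?_)
    rw [mem_singleton, sub_eq_zero, eq_comm]
  rw [Ex_splitSum, Ex_const, Ex_all (m + 1 - j) (fun t : A × B => t.2 ≠ c), h2,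
    show m + 1 - j = i by omega]
  refine mul_le_mul_of_nonneg_right ?_ (pow_nonneg ?_ _)
  · exact_mod_cast Nat.choose_le_pow (m + 1) j
  · rw [sub_nonneg, div_le_one (by linarith)]; exact hB

/-- the two-hash construction -/
theorem two_hash {i j m : ℕ} (hj : 1 ≤ j) (hjm : j ≤ m) (him : i + j = m + 1) {η : ℝ}
    (h : ∀ a : A, Ex m (fun T : Multiset A => ind (a ∉ sums j T)) ≤ η) :
    ∃ γ : Multiset (A × B) → Prop, Hit i m γ ∧
      Ex (m + 1) (fun M => ind (γ M)) ≤ 1 / Fintype.card A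
        + (Fintype.card A : ℝ) / Fintype.card B
          * ((1 + ((m : ℝ) + 1) ^ j / Fintype.card A) * η)
        + Fintype.card B * (((m : ℝ) + 1) ^ j * (1 - 1 / (Fintype.card B : ℝ)) ^ i) := by
  obtain ⟨r, rfl⟩ : ∃ r, j = r + 1 := ⟨j - 1, by omega⟩
  refine ⟨fun M => (M.map Prod.fst).sum = 0 ∨
    ((∃ s T, M.map Prod.fst = s ::ₘ T ∧ ∃ a, a ∉ sums (r + 1) T) ∧ (M.map Prod.snd).sum = 0) ∨
    (∃ J R, M = J + R ∧ J.card = r + 1 ∧ ∃ c : B, ∀ t ∈ R, t.2 ≠ c), fun S T hS hT => ?_, ?_⟩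
  · by_cases hc : -(S.map Prod.fst).sum ∈ sums (r + 1) (T.map Prod.fst)
    · simp only [sums, mem_filter, mem_univ, true_and] at hc
      obtain ⟨J, hJ, hJc, hJs⟩ := hc
      obtain ⟨J', hJ', rfl⟩ := le_map_lift _ _ _ hJ
      rw [Multiset.card_map] at hJc
      exact Or.inl ⟨J', hJ', by omega, Or.inl (by simp [hJs])⟩
    · by_cases hd : ∃ s ∈ S, s.2 = -(T.map Prod.snd).sum
      · obtain ⟨s, hs, hs2⟩ := hd
        exact Or.inr ⟨s, hs, Or.inr (Or.inl ⟨⟨s.1, T.map Prod.fst, by simp, _, hc⟩,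
          by simp [hs2]⟩)⟩
      · push Not at hd
        have h1 : 0 < (T.powersetCard (r + 1)).card := by
          rw [Multiset.card_powersetCard]; exact Nat.choose_pos (by omega)
        obtain ⟨J, hJ⟩ := Multiset.card_pos_iff_exists_mem.1 h1
        obtain ⟨hJ1, hJ2⟩ := Multiset.mem_powersetCard.1 hJ
        exact Or.inl ⟨J, hJ1, by omega, Or.inr (Or.inr ⟨J, S, add_comm _ _, hJ2, _, hd⟩)⟩
  · have h1 := up_prod (B := B) (m + 1) (fun M : Multiset A => ind (M.sum = 0)) (fun _ => 1)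
    rw [Ex_const, Ex_sum_zero, mul_one] at h1
    have h2 := up_prod (m + 1)
      (fun M : Multiset A => ind (∃ s T, M = s ::ₘ T ∧ ∃ a, a ∉ sums (r + 1) T))
      (fun M : Multiset B => ind (M.sum = 0))
    rw [Ex_sum_zero] at h2
    have h3 := mul_le_mul_of_nonneg_right (up_def r m h)
      (show (0 : ℝ) ≤ 1 / Fintype.card B by positivity)
    have h4 := up_third (A := A) (B := B) i (r + 1) m him
    have h5 : ∀ P Q R W : Prop, ind (P ∨ (Q ∧ R) ∨ W) ≤ ind P * 1 + ind Q * ind R + ind W := by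
      intro P Q R W
      by_cases hP : P <;> by_cases hQ : Q <;> by_cases hR : R <;> by_cases hW : W <;>
        simp [ind, hP, hQ, hR, hW]
    refine (Ex_mono (fun M _ => h5 _ _ _ _)).trans ?_
    rw [Ex_add, Ex_add, h1, h2]
    have h6 : (Fintype.card A : ℝ) / Fintype.card B
        * ((1 + ((m : ℝ) + 1) ^ (r + 1) / Fintype.card A) * η)
        = Fintype.card A * ((1 + ((m : ℝ) + 1) ^ (r + 1) / Fintype.card A) * η)
          * (1 / Fintype.card B) := by ring
    linarith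

end Pool.Agent.P.MP_7badbe_co

end

section


open Finset Filter Topology
open scoped BigOperators

namespace Pool.Agent.P.MP_7badbe_co

variable {V : Type} [Fintype V] [Nonempty V]

variable {g : Multiset V → Prop} {z : ℕ} {d E κ σ : ℝ}

lemma av_nonneg {S : Multiset V} (hd : dd g S ≤ d) (hd1 : d < 1) (Z : Multiset V) :
    0 ≤ av g z S Z :=
  div_nonneg (ind_nonneg _) (pow_nonneg (by linarith) _)

lemma Ex_av {S : Multiset V} (hd : dd g S ≤ d) (hd1 : d < 1) : Ex z (av g z S) = 1 := by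
  have h : 0 < (1 - dd g S) ^ z := pow_pos (by linarith) _
  unfold av
  simp only [div_eq_mul_inv]
  rw [Ex_mul', Ex_all]
  simp only [ind_not, expect_sub_distrib, expect_const univ_nonempty]
  exact mul_inv_cancel₀ h.ne'

/-- common density of two links -/
noncomputable def oneA_c (g : Multiset V → Prop) (S S' : Multiset V) : ℝ :=
  𝔼 v, ind (g (v ::ₘ S)) * ind (g (v ::ₘ S'))

lemma oneA_c_nonneg (S S' : Multiset V) : 0 ≤ oneA_c g S S' :=
  expect_nonneg fun _ _ => mul_nonneg (ind_nonneg _) (ind_nonneg _)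

lemma oneA_c_le (S S' : Multiset V) : oneA_c g S S' ≤ dd g S :=
  expect_le_expect fun _ _ => mul_le_of_le_one_right (ind_nonneg _) (ind_le_one _)

lemma oneA_pair {S S' : Multiset V} (hd : dd g S ≤ d) (hd' : dd g S' ≤ d) (hd1 : d < 1) :
    Ex z (fun Z => av g z S Z * av g z S' Z) ≤ Real.exp (z * oneA_c g S S' / (1 - d) ^ 2) := by
  have h1 : 0 < 1 - dd g S := by linarith
  have h2 : 0 < 1 - dd g S' := by linarith
  have h3 : 0 < 1 - d := by linarith
  have h4 : 0 ≤ dd g S := expect_nonneg fun _ _ => ind_nonneg _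
  have h5 : 0 ≤ dd g S' := expect_nonneg fun _ _ => ind_nonneg _
  have hc := oneA_c_nonneg (g := g) S S'
  have e : (fun Z => av g z S Z * av g z S' Z) = fun Z : Multiset V =>
      ind (∀ v ∈ Z, ¬ g (v ::ₘ S) ∧ ¬ g (v ::ₘ S')) *
        (((1 - dd g S) * (1 - dd g S')) ^ z)⁻¹ := by
    funext Z
    unfold av
    rw [div_mul_div_comm, ← ind_and, ← mul_pow, div_eq_mul_inv]
    congr 1
    exact ind_congr ⟨fun h v hv => ⟨h.1 v hv, h.2 v hv⟩,
      fun h => ⟨fun v hv => (h v hv).1, fun v hv => (h v hv).2⟩⟩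
  have e2 : 𝔼 v, ind (¬ g (v ::ₘ S) ∧ ¬ g (v ::ₘ S')) =
      1 - dd g S - dd g S' + oneA_c g S S' := by
    unfold dd oneA_c
    rw [← expect_const (s := (univ : Finset V)) univ_nonempty (1 : ℝ), ← expect_sub_distrib,
      ← expect_sub_distrib, ← expect_add_distrib]
    refine expect_congr rfl fun v _ => ?_
    rw [ind_and, ind_not, ind_not]
    ring
  have h0 : 0 ≤ 1 - dd g S - dd g S' + oneA_c g S S' :=
    e2 ▸ expect_nonneg fun _ _ => ind_nonneg _
  rw [e, Ex_mul', Ex_all, e2, ← div_eq_mul_inv, ← div_pow, mul_div_assoc, Real.exp_nat_mul]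
  refine pow_le_pow_left₀ (div_nonneg h0 (by positivity)) (le_trans ?_ (Real.add_one_le_exp _)) _
  have h6 : oneA_c g S S' / ((1 - dd g S) * (1 - dd g S')) ≤ oneA_c g S S' / (1 - d) ^ 2 := by
    rw [sq]
    gcongr
  refine le_trans ?_ (add_le_add_left h6 1)
  rw [div_add_one (by positivity)]
  exact div_le_div_of_nonneg_right (by nlinarith [mul_nonneg h4 h5]) (by positivity)

lemma oneA_exp {c : ℝ} (hc : 0 ≤ c) (hcd : c ≤ d) (hd0 : 0 < d)
    (hE : Real.exp (z * d / (1 - d) ^ 2) ≤ E) :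
    Real.exp (z * c / (1 - d) ^ 2) ≤ 1 + E / d * c := by
  have ht : c / d ≤ 1 := (div_le_one hd0).2 hcd
  have ht0 : 0 ≤ c / d := by positivity
  have h := convexOn_exp.2 (Set.mem_univ 0) (Set.mem_univ (z * d / (1 - d) ^ 2))
    (sub_nonneg.2 ht) ht0 (by ring)
  simp only [smul_eq_mul, mul_zero, zero_add, Real.exp_zero, mul_one] at h
  rw [show c / d * (z * d / (1 - d) ^ 2) = z * c / (1 - d) ^ 2 by field_simp] at h
  have := mul_le_mul_of_nonneg_left hE ht0
  rw [show E / d * c = c / d * E by ring]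
  linarith

/-- double expectation -/
noncomputable def oneA_E (a b : ℕ) (F : Multiset V → Multiset V → ℝ) : ℝ :=
  Ex a (fun Y => Ex b (fun Y' => F Y Y'))

omit [Nonempty V] in
lemma oneA_mono (a b : ℕ) {F G : Multiset V → Multiset V → ℝ} (h : ∀ Y Y', F Y Y' ≤ G Y Y') :
    oneA_E a b F ≤ oneA_E a b G :=
  Ex_mono fun _ _ => Ex_mono fun _ _ => h _ _

omit [Nonempty V] in
lemma oneA_mul (a b : ℕ) (F G : Multiset V → Multiset V → ℝ) :
    oneA_E a b F * oneA_E a b G =
      oneA_E a b fun Y Y' => oneA_E a b fun X X' => F Y Y' * G X X' := by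
  simp only [oneA_E, Ex_mul, Ex_mul']

omit [Nonempty V] in
lemma oneA_Ex (a b : ℕ) (F : Multiset V → Multiset V → Multiset V → ℝ) :
    Ex z (fun Z => oneA_E a b (F Z)) = oneA_E a b fun Y Y' => Ex z fun Z => F Z Y Y' := by
  unfold oneA_E
  rw [Ex_comm]
  exact Ex_congr fun Y _ => Ex_comm _ _ _

omit [Nonempty V] in
lemma oneA_expect (a b : ℕ) (F : V → Multiset V → Multiset V → ℝ) :
    𝔼 v, oneA_E a b (F v) = oneA_E a b fun Y Y' => 𝔼 v, F v Y Y' := by
  simp only [oneA_E, Ex_expect]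

lemma oneA_mean (a b : ℕ) (W : Multiset V) (hW : fm g (a + b) W ≤ κ)
    (hσ : κ ^ 2 + κ / (a + b + 1) ≤ σ) :
    (oneA_E a b fun Y Y' => oneA_E a b fun X X' => oneA_c g (W + Y + Y') (W + X + X')) ≤ σ := by
  have h1 : Ex (a + b + 1) (fun M => ind (g (M + W))) ≤ κ := by
    rw [Ex_succ']
    refine le_trans (le_of_eq (Ex_congr fun R _ => ?_)) hW
    simp only [dd, Multiset.cons_add, add_comm W R]
  have h2 := hoeff_ind (a + b) (fun M => g (M + W)) h1
  push_cast at h2
  refine le_trans (le_of_eq ?_) (h2.trans hσ)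
  unfold oneA_c
  simp only [← oneA_expect, ← oneA_mul]
  refine expect_congr rfl fun v _ => ?_
  rw [sq, Ex_split]
  simp only [oneA_E, add_comm _ W, Multiset.add_cons, add_assoc]

/-- second moment of the averaged weight -/
theorem one_second (hd0 : 0 < d) (hd1 : d < 1) (hE : Real.exp (z * d / (1 - d) ^ 2) ≤ E)
    (a b : ℕ) (W : Multiset V) (hW : fm g (a + b) W ≤ κ) (hσ : κ ^ 2 + κ / (a + b + 1) ≤ σ)
    (u : Multiset V → Multiset V → ℝ) (hu : ∀ Y Y', 0 ≤ u Y Y' ∧ u Y Y' ≤ 1)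
    (hud : ∀ Y Y', u Y Y' ≠ 0 → dd g (W + Y + Y') ≤ d) :
    Ex z (fun Z => (Ex a (fun Y => Ex b (fun Y' => u Y Y' * av g z (W + Y + Y') Z))) ^ 2)
      ≤ (Ex a (fun Y => Ex b (fun Y' => u Y Y'))) ^ 2 + E / d * σ := by
  have hE0 : 0 ≤ E / d := div_nonneg ((Real.exp_pos _).le.trans hE) hd0.le
  change Ex z (fun Z => (oneA_E a b fun Y Y' => u Y Y' * av g z (W + Y + Y') Z) ^ 2) ≤
    (oneA_E a b u) ^ 2 + E / d * σ
  simp only [sq, oneA_mul, oneA_Ex]
  calc _ ≤ oneA_E a b fun Y Y' => oneA_E a b fun X X' =>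
        u Y Y' * u X X' + E / d * oneA_c g (W + Y + Y') (W + X + X') := by
        refine oneA_mono a b fun Y Y' => oneA_mono a b fun X X' => ?_
        have hc := oneA_c_nonneg (g := g) (W + Y + Y') (W + X + X')
        simp only [mul_mul_mul_comm (u Y Y') _ (u X X'), Ex_mul]
        by_cases h1 : u Y Y' = 0
        · rw [h1]; simp only [zero_mul, zero_add]; positivity
        by_cases h2 : u X X' = 0
        · rw [h2]; simp only [mul_zero, zero_mul, zero_add]; positivity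
        have h3 := (oneA_pair (z := z) (hud Y Y' h1) (hud X X' h2) hd1).trans
          (oneA_exp hc ((oneA_c_le _ _).trans (hud Y Y' h1)) hd0 hE)
        have h4 : 0 ≤ u Y Y' * u X X' := mul_nonneg (hu _ _).1 (hu _ _).1
        have h5 : u Y Y' * u X X' ≤ 1 := mul_le_one₀ (hu _ _).2 (hu _ _).1 (hu _ _).2
        nlinarith [mul_le_mul_of_nonneg_left h3 h4, mul_nonneg hE0 hc]
    _ = (oneA_E a b fun Y Y' => oneA_E a b fun X X' => u Y Y' * u X X') + E / d *
        oneA_E a b fun Y Y' => oneA_E a b fun X X' => oneA_c g (W + Y + Y') (W + X + X') := by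
        simp only [oneA_E, Ex_add, Ex_mul _ (E / d)]
    _ ≤ _ := by
        gcongr
        exact oneA_mean a b W hW hσ

/-- second moment of the planted probability that a point lies in the link -/
theorem one_point (hd0 : 0 < d) (hd1 : d < 1) (hE : Real.exp (z * d / (1 - d) ^ 2) ≤ E)
    (a b : ℕ) (W : Multiset V) (hW : fm g (a + b) W ≤ κ) (hσ : κ ^ 2 + κ / (a + b + 1) ≤ σ)
    (u : Multiset V → Multiset V → ℝ) (hu : ∀ Y Y', 0 ≤ u Y Y' ∧ u Y Y' ≤ 1)
    (hud : ∀ Y Y', u Y Y' ≠ 0 → dd g (W + Y + Y') ≤ d) :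
    Ex z (fun Z => 𝔼 v, (Ex a (fun Y => Ex b (fun Y' =>
        u Y Y' * av g z (W + Y + Y') Z * ind (g (v ::ₘ (W + Y + Y')))))) ^ 2) ≤ E * σ := by
  have hE0 : 0 ≤ E := (Real.exp_pos _).le.trans hE
  change Ex z (fun Z => 𝔼 v, (oneA_E a b fun Y Y' =>
    u Y Y' * av g z (W + Y + Y') Z * ind (g (v ::ₘ (W + Y + Y')))) ^ 2) ≤ E * σ
  simp only [sq, oneA_mul, oneA_expect, oneA_Ex]
  calc _ ≤ oneA_E a b fun Y Y' => oneA_E a b fun X X' =>
        E * oneA_c g (W + Y + Y') (W + X + X') := by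
        refine oneA_mono a b fun Y Y' => oneA_mono a b fun X X' => ?_
        have hc := oneA_c_nonneg (g := g) (W + Y + Y') (W + X + X')
        have e : ∀ Z, 𝔼 v, u Y Y' * av g z (W + Y + Y') Z * ind (g (v ::ₘ (W + Y + Y'))) *
            (u X X' * av g z (W + X + X') Z * ind (g (v ::ₘ (W + X + X')))) =
            u Y Y' * u X X' * oneA_c g (W + Y + Y') (W + X + X') *
              (av g z (W + Y + Y') Z * av g z (W + X + X') Z) := by
          intro Z
          unfold oneA_c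
          rw [mul_expect, expect_mul]
          exact expect_congr rfl fun v _ => by ring
        simp only [e, Ex_mul]
        by_cases h1 : u Y Y' = 0
        · rw [h1]; simp only [zero_mul]; positivity
        by_cases h2 : u X X' = 0
        · rw [h2]; simp only [mul_zero, zero_mul]; positivity
        have h3 : Ex z (fun Z => av g z (W + Y + Y') Z * av g z (W + X + X') Z) ≤ E := by
          refine (oneA_pair (z := z) (hud Y Y' h1) (hud X X' h2) hd1).trans (le_trans ?_ hE)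
          have := (oneA_c_le (g := g) _ (W + X + X')).trans (hud Y Y' h1)
          gcongr
        have h4 : 0 ≤ u Y Y' * u X X' := mul_nonneg (hu _ _).1 (hu _ _).1
        have h5 : u Y Y' * u X X' ≤ 1 := mul_le_one₀ (hu _ _).2 (hu _ _).1 (hu _ _).2
        nlinarith [mul_le_mul_of_nonneg_left h3 (mul_nonneg h4 hc), mul_nonneg hE0 hc]
    _ = E * oneA_E a b fun Y Y' => oneA_E a b fun X X' =>
        oneA_c g (W + Y + Y') (W + X + X') := by
        simp only [oneA_E, Ex_mul]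
    _ ≤ _ := by
        gcongr
        exact oneA_mean a b W hW hσ

end Pool.Agent.P.MP_7badbe_co

end

section


open Finset Filter Topology
open scoped BigOperators

namespace Pool.Agent.P.MP_7badbe_co

variable {V : Type} [Fintype V] [Nonempty V]

lemma ob_mapsum (r : ℕ) (F : Multiset V → ℝ) (h : V → ℝ) :
    Ex (r + 1) (fun Y => F Y * (Y.map h).sum)
      = (r + 1) * 𝔼 v, h v * Ex r (fun R => F (v ::ₘ R)) := by
  classical
  have h1 : ∀ Y : Multiset V, F Y * (Y.map h).sum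
      = splitSum 1 (fun I J => F (I + J) * (I.map h).sum) Y := by
    intro Y
    rw [splitSum_one, ← Multiset.sum_map_mul_left]
    refine congrArg _ (Multiset.map_congr rfl fun x hx => ?_)
    simp [Multiset.cons_erase hx]
  simp only [h1]
  rw [Ex_splitSum]
  simp only [Nat.choose_one_right, Nat.add_sub_cancel]
  push_cast
  congr 1
  rw [show (1 : ℕ) = 0 + 1 from rfl, Ex_succ]
  refine expect_congr rfl fun v _ => ?_
  simp [Ex_mul']
  ring

/-- abstract part: two-sided second moment argument -/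
lemma ob_abs {y z : ℕ} (w : Multiset V → Multiset V → Multiset V → Multiset V → ℝ)
    (N : Multiset V → Multiset V → Multiset V → V → ℝ)
    (hw0 : ∀ Z Y Y' Z', 0 ≤ w Z Y Y' Z') (hws : ∀ Z Y Y' Z', w Z Y Y' Z' = w Z Y' Y Z')
    (hhit : ∀ Z Z' Y₁ Y₂ X₁ X₂ : Multiset V, Z.card = z → Z'.card = z → Y₁.card = y → Y₂.card = y →
      X₁.card = y → X₂.card = y → w Z Y₁ Y₂ Z' * w Z' X₁ X₂ Z ≠ 0 →
      1 ≤ (X₁.map (N Z Y₁ Y₂)).sum + (X₂.map (N Z Y₁ Y₂)).sum
        + (Y₁.map (N Z' X₁ X₂)).sum + (Y₂.map (N Z' X₁ X₂)).sum) :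
    Ex z (fun Z => Ex z (fun Z' => Ex y (fun Y₁ => Ex y (fun Y₂ => w Z Y₁ Y₂ Z'))
        * Ex y (fun X₁ => Ex y (fun X₂ => w Z' X₁ X₂ Z))))
      ≤ 4 * Ex z (fun Z => Ex z (fun Z' => Ex y (fun X₁ => Ex y (fun X₂ => w Z' X₁ X₂ Z)
        * (X₁.map (fun v => Ex y (fun Y₁ => Ex y (fun Y₂ => w Z Y₁ Y₂ Z' * N Z Y₁ Y₂ v)))).sum))) := by
  set K : Multiset V → Multiset V → ℝ := fun Z Z' => Ex y (fun X₁ => Ex y (fun X₂ =>
    Ex y (fun Y₁ => Ex y (fun Y₂ =>
      w Z Y₁ Y₂ Z' * w Z' X₁ X₂ Z * (X₁.map (N Z Y₁ Y₂)).sum)))) with hK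
  have ms : ∀ (X : Multiset V) (f : Multiset V → Multiset V → V → ℝ),
      (X.map (fun v => Ex y (fun Y₁ => Ex y (fun Y₂ => f Y₁ Y₂ v)))).sum
        = Ex y (fun Y₁ => Ex y (fun Y₂ => (X.map (f Y₁ Y₂)).sum)) := by
    intro X f
    induction X using Multiset.induction_on with
    | empty => simp
    | cons a X ih => simp only [Multiset.map_cons, Multiset.sum_cons, ih, Ex_add]
  have e1 : ∀ Z Z', Ex y (fun X₁ => Ex y (fun X₂ => w Z' X₁ X₂ Z)
      * (X₁.map (fun v => Ex y (fun Y₁ => Ex y (fun Y₂ => w Z Y₁ Y₂ Z' * N Z Y₁ Y₂ v)))).sum)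
      = K Z Z' := by
    intro Z Z'
    refine Ex_congr fun X₁ _ => ?_
    rw [ms, ← Ex_mul']
    refine Ex_congr fun X₂ _ => ?_
    rw [← Ex_mul]
    refine Ex_congr fun Y₁ _ => ?_
    rw [← Ex_mul]
    refine Ex_congr fun Y₂ _ => ?_
    rw [Multiset.sum_map_mul_left]; ring
  have e2 : ∀ Z Z', Ex y (fun X₁ => Ex y (fun X₂ => Ex y (fun Y₁ => Ex y (fun Y₂ =>
      w Z Y₁ Y₂ Z' * w Z' X₁ X₂ Z * (X₂.map (N Z Y₁ Y₂)).sum)))) = K Z Z' := by
    intro Z Z'
    rw [Ex_comm]
    simp only [hK, hws Z' _ _ Z]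
  have sw : ∀ G : Multiset V → Multiset V → Multiset V → Multiset V → ℝ,
      Ex y (fun X₁ => Ex y (fun X₂ => Ex y (fun Y₁ => Ex y (fun Y₂ => G X₁ X₂ Y₁ Y₂))))
      = Ex y (fun Y₁ => Ex y (fun Y₂ => Ex y (fun X₁ => Ex y (fun X₂ => G X₁ X₂ Y₁ Y₂)))) := by
    intro G
    calc _ = Ex y (fun X₁ => Ex y (fun Y₁ => Ex y (fun X₂ => Ex y (fun Y₂ => G X₁ X₂ Y₁ Y₂)))) :=
          Ex_congr fun X₁ _ => Ex_comm _ _ _
      _ = Ex y (fun Y₁ => Ex y (fun X₁ => Ex y (fun X₂ => Ex y (fun Y₂ => G X₁ X₂ Y₁ Y₂)))) :=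
          Ex_comm _ _ _
      _ = Ex y (fun Y₁ => Ex y (fun X₁ => Ex y (fun Y₂ => Ex y (fun X₂ => G X₁ X₂ Y₁ Y₂)))) :=
          Ex_congr fun Y₁ _ => Ex_congr fun X₁ _ => Ex_comm _ _ _
      _ = _ := Ex_congr fun Y₁ _ => Ex_comm _ _ _
  have e3 : ∀ Z Z', Ex y (fun X₁ => Ex y (fun X₂ => Ex y (fun Y₁ => Ex y (fun Y₂ =>
      w Z Y₁ Y₂ Z' * w Z' X₁ X₂ Z * (Y₁.map (N Z' X₁ X₂)).sum)))) = K Z' Z := by
    intro Z Z'
    rw [sw]
    simp only [hK, mul_comm (w Z _ _ Z')]
  have e4 : ∀ Z Z', Ex y (fun X₁ => Ex y (fun X₂ => Ex y (fun Y₁ => Ex y (fun Y₂ =>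
      w Z Y₁ Y₂ Z' * w Z' X₁ X₂ Z * (Y₂.map (N Z' X₁ X₂)).sum)))) = K Z' Z := by
    intro Z Z'
    rw [sw, ← e2]
    simp only [mul_comm (w Z _ _ Z')]
  have e5 : Ex z (fun Z => Ex z (fun Z' => K Z' Z)) = Ex z (fun Z => Ex z (fun Z' => K Z Z')) :=
    Ex_comm _ _ _
  simp only [e1]
  have e6 : Ex z (fun Z => Ex z (fun Z' => Ex y (fun Y₁ => Ex y (fun Y₂ => w Z Y₁ Y₂ Z'))
        * Ex y (fun X₁ => Ex y (fun X₂ => w Z' X₁ X₂ Z))))
      ≤ Ex z (fun Z => Ex z (fun Z' => K Z Z' + K Z Z' + K Z' Z + K Z' Z)) := by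
    refine Ex_mono fun Z hZ => Ex_mono fun Z' hZ' => ?_
    nth_rw 2 [← e2 Z Z']
    nth_rw 1 [← e3 Z Z']
    rw [← e4 Z Z']
    simp only [hK, ← Ex_add]
    rw [← Ex_mul]
    refine Ex_mono fun X₁ h1 => ?_
    rw [← Ex_mul]
    refine Ex_mono fun X₂ h2 => ?_
    rw [← Ex_mul']
    refine Ex_mono fun Y₁ h3 => ?_
    rw [← Ex_mul']
    refine Ex_mono fun Y₂ h4 => ?_
    have h5 : 0 ≤ w Z Y₁ Y₂ Z' * w Z' X₁ X₂ Z := mul_nonneg (hw0 _ _ _ _) (hw0 _ _ _ _)
    by_cases h6 : w Z Y₁ Y₂ Z' * w Z' X₁ X₂ Z = 0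
    · rw [h6]; simp
    · have := mul_le_mul_of_nonneg_left (hhit Z Z' Y₁ Y₂ X₁ X₂ hZ hZ' h3 h4 h1 h2 h6) h5
      linarith
  simp only [Ex_add] at e6
  linarith

lemma ob_low {z : ℕ} (W : Multiset V → Multiset V → ℝ) (χ : Multiset V → Prop) {v s π : ℝ}
    (hv : 0 ≤ v) (hs : 0 < s) (hπ0 : 0 ≤ π) (h0 : ∀ Z Z', ¬ χ Z → W Z Z' = 0)
    (h1 : ∀ Z, χ Z → Ex z (W Z) = 1) (h2 : ∀ Z, χ Z → Ex z (fun Z' => W Z Z' ^ 2) ≤ 1 + v)
    (hπ : π ≤ Ex z (fun Z => ind (χ Z))) :
    π ^ 2 - (v / s + s) - v ≤ Ex z (fun Z => Ex z (fun Z' => W Z Z' * W Z' Z)) := by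
  have a1 : ∀ Z, Ex z (fun Z' => (W Z Z' - ind (χ Z)) ^ 2) ≤ v := by
    intro Z
    by_cases h : χ Z
    · rw [ind_pos h, Ex_var, h1 Z h]; linarith [h2 Z h]
    · simp only [ind_neg h, h0 Z _ h]; simpa using hv
  have a2 : Ex z (fun Z => Ex z (fun Z' => (W Z Z' - ind (χ Z)) ^ 2)) ≤ v := Ex_le fun Z _ => a1 Z
  have a3 : Ex z (fun Z => Ex z (fun Z' => (W Z' Z - ind (χ Z')) ^ 2)) ≤ v := by
    rw [Ex_comm]; exact a2
  have a4 : Ex z (fun Z => Ex z (fun Z' => ind (χ Z) * ind (χ Z') - s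
      - (1 / (2 * s) + 1 / 2) * (W Z Z' - ind (χ Z)) ^ 2
      - (1 / (2 * s) + 1 / 2) * (W Z' Z - ind (χ Z')) ^ 2))
      ≤ Ex z (fun Z => Ex z (fun Z' => W Z Z' * W Z' Z)) := by
    refine Ex_mono fun Z _ => Ex_mono fun Z' _ => ?_
    have hc : 0 < 1 / (2 * s) + 1 / 2 := by positivity
    by_cases h : χ Z
    · by_cases h' : χ Z'
      · rw [ind_pos h, ind_pos h']
        have k : ∀ x : ℝ, -x ≤ 1 / (2 * s) * x ^ 2 + s / 2 := fun x => by
          have : 1 / (2 * s) * x ^ 2 + s / 2 + x = 1 / (2 * s) * (x + s) ^ 2 := by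
            field_simp; ring
          have : 0 ≤ 1 / (2 * s) * (x + s) ^ 2 := by positivity
          linarith
        nlinarith [k (W Z Z' - 1), k (W Z' Z - 1), sq_nonneg (W Z Z' - 1 + (W Z' Z - 1))]
      · rw [ind_neg h', h0 Z' Z h']
        nlinarith [mul_nonneg hc.le (sq_nonneg (W Z Z' - ind (χ Z)))]
    · rw [ind_neg h, h0 Z Z' h]
      nlinarith [mul_nonneg hc.le (sq_nonneg (W Z' Z - ind (χ Z')))]
  simp only [Ex_sub, Ex_mul, Ex_mul', Ex_const] at a4
  have hc : 0 ≤ 1 / (2 * s) + 1 / 2 := by positivity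
  have a5 := mul_le_mul_of_nonneg_left a2 hc
  have a6 := mul_le_mul_of_nonneg_left a3 hc
  have a7 : (1 / (2 * s) + 1 / 2) * v = (v / s + v) / 2 := by field_simp
  nlinarith

lemma ob_sq {r : ℕ} (F : Multiset V → ℝ) :
    (r + 1) * 𝔼 v, (Ex r (fun R => F (v ::ₘ R)) - Ex (r + 1) F) ^ 2
      ≤ Ex (r + 1) (fun Y => F Y ^ 2) := by
  have h1 := hoeff r F
  rw [av_var, ← Ex_succ]
  nlinarith [sq_nonneg (Ex (r + 1) F)]

theorem master1 {m : ℕ} {δ : ℝ} (hP : Par1 m δ) (g : Multiset V → Prop) (hg : Hit m m g) :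
    δ < Ex (m + 1) (fun M => ind (g M)) := by
  obtain ⟨y, z, eps, E, σ, p1, p2, p3, p4, p5, p6, c1, c2, c3, c4, c5⟩ := hP
  by_contra hδ
  rw [not_lt] at hδ
  obtain ⟨r, rfl⟩ : ∃ r, y = r + 1 := ⟨y - 1, by omega⟩
  set y := r + 1 with hy
  set d := (1 + eps) * δ with hd
  set κ := 24 / eps * δ with hκ
  have hd0 : 0 < d := by positivity
  have hκ0 : 0 < κ := by positivity
  have hE0 : 0 < E := (Real.exp_pos _).trans_le c1
  have hσ0 : 0 ≤ σ := le_trans (by positivity) c2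
  have hdd : ∀ S, 0 ≤ dd g S := fun S => av_ind_nonneg _
  have hfm : ∀ a W, 0 ≤ fm g a W := fun a W => Ex_nonneg fun _ _ => hdd _
  set u : Multiset V → Multiset V → Multiset V → ℝ := fun Z Y Y' =>
    ind (dd g (Z + Y + Y') ≤ d ∧ fm g y (Z + Y) ≤ κ ∧ fm g y (Z + Y') ≤ κ) with hu
  have hu01 : ∀ Z Y Y', 0 ≤ u Z Y Y' ∧ u Z Y Y' ≤ 1 := fun _ _ _ => ⟨ind_nonneg _, ind_le_one _⟩
  have hune : ∀ Z Y Y', u Z Y Y' ≠ 0 →
      dd g (Z + Y + Y') ≤ d ∧ fm g y (Z + Y) ≤ κ ∧ fm g y (Z + Y') ≤ κ := fun Z Y Y' h => by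
    by_contra k; exact h (ind_neg k)
  set p : Multiset V → ℝ := fun Z => Ex y (fun Y => Ex y (fun Y' => u Z Y Y')) with hp
  set χ : Multiset V → Prop := fun Z => eps / 8 ≤ p Z ∧ fm g (y + y) Z ≤ κ with hχ
  set cc : Multiset V → ℝ := fun Z => ind (χ Z) / p Z with hcc
  have hp0 : ∀ Z, 0 ≤ p Z := fun Z => Ex_nonneg fun _ _ => Ex_nonneg fun _ _ => ind_nonneg _
  have hp1 : ∀ Z, p Z ≤ 1 := fun Z => Ex_le fun _ _ => Ex_le fun _ _ => ind_le_one _
  have hc0 : ∀ Z, 0 ≤ cc Z := fun Z => div_nonneg (ind_nonneg _) (hp0 Z)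
  have hc8 : ∀ Z, cc Z ≤ 8 / eps := fun Z => by
    by_cases k : χ Z
    · simp only [hcc, ind_pos k]
      rw [div_le_div_iff₀ (lt_of_lt_of_le (by positivity) k.1) p4]; linarith [k.1]
    · simp only [hcc, ind_neg k, zero_div]; positivity
  have hc64 : ∀ Z, cc Z ^ 2 ≤ (8 / eps) ^ 2 := fun Z => pow_le_pow_left₀ (hc0 Z) (hc8 Z) 2
  have hcp : ∀ Z, χ Z → cc Z * p Z = 1 := fun Z k => by
    simp only [hcc, ind_pos k]
    exact div_mul_cancel₀ _ (lt_of_lt_of_le (by positivity) k.1).ne'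
  have huav : ∀ Z Y Y' Z', 0 ≤ u Z Y Y' * av g z (Z + Y + Y') Z' := fun Z Y Y' Z' => by
    by_cases k : u Z Y Y' = 0
    · rw [k, zero_mul]
    · exact mul_nonneg (hu01 _ _ _).1 (av_nonneg (hune _ _ _ k).1 p6 _)
  set w : Multiset V → Multiset V → Multiset V → Multiset V → ℝ := fun Z Y Y' Z' =>
    cc Z * (u Z Y Y' * av g z (Z + Y + Y') Z') with hw
  have hw0 : ∀ Z Y Y' Z', 0 ≤ w Z Y Y' Z' := fun _ _ _ _ => mul_nonneg (hc0 _) (huav _ _ _ _)
  set W : Multiset V → Multiset V → ℝ := fun Z Z' => Ex y (fun Y => Ex y (fun Y' => w Z Y Y' Z'))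
    with hW
  have hW0 : ∀ Z Z', 0 ≤ W Z Z' := fun _ _ => Ex_nonneg fun _ _ => Ex_nonneg fun _ _ => hw0 _ _ _ _
  have hσ2 : κ ^ 2 + κ / ((y : ℝ) + y + 1) ≤ σ := by
    refine le_trans ?_ c2
    gcongr
    linarith [Nat.cast_nonneg (α := ℝ) y]
  have hσ1 : κ ^ 2 + κ / (((0 : ℕ) : ℝ) + y + 1) ≤ σ := by simpa using c2
  have hEd : E / d * σ ≤ (eps / 100) ^ 6 := by
    refine le_trans ?_ c4
    rw [div_mul_eq_mul_div]
    gcongr
    nlinarith
  -- the good set has positive mass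
  have mean : Ex z (fun Z => Ex y (fun Y => Ex y (fun Y' => dd g (Z + Y + Y')))) ≤ δ := by
    refine le_of_eq_of_le ?_ hδ
    rw [Ex_succ', ← p1, two_mul, ← add_assoc, Ex_split, Ex_split]
    rfl
  have m1 : Ex z (fun Z => Ex y (fun Y => fm g y (Z + Y))) ≤ δ := mean
  have m2 : Ex z (fun Z => fm g (y + y) Z) ≤ δ := by
    refine le_of_eq_of_le (Ex_congr fun Z _ => ?_) mean
    unfold fm
    rw [Ex_split]
    simp only [add_assoc]
  have mk : ∀ {x c : ℝ}, 0 ≤ x → 0 < c → ind (¬ x ≤ c) ≤ c⁻¹ * x := fun {x c} hx hc => by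
    by_cases k : x ≤ c
    · rw [ind_neg (not_not.2 k)]; positivity
    · rw [ind_pos k, ← div_eq_inv_mul, le_div_iff₀ hc]; linarith [not_le.1 k]
  have hπ : eps / 4 ≤ Ex z (fun Z => ind (χ Z)) := by
    have k1 : Ex z (fun Z => Ex y (fun Y => Ex y (fun Y' => 1 - d⁻¹ * dd g (Z + Y + Y')
        - κ⁻¹ * fm g y (Z + Y) - κ⁻¹ * fm g y (Z + Y')))) ≤ Ex z p := by
      refine Ex_mono fun Z _ => Ex_mono fun Y _ => Ex_mono fun Y' _ => ?_
      have a1 := mk (hdd (Z + Y + Y')) hd0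
      have a2 := mk (hfm y (Z + Y)) hκ0
      have a3 := mk (hfm y (Z + Y')) hκ0
      simp only [hu, ind_and, ind_not] at *
      have b1 := ind_nonneg (dd g (Z + Y + Y') ≤ d)
      have b2 := ind_nonneg (fm g y (Z + Y) ≤ κ)
      have b3 := ind_nonneg (fm g y (Z + Y') ≤ κ)
      have b4 := ind_le_one (dd g (Z + Y + Y') ≤ d)
      have b5 := ind_le_one (fm g y (Z + Y) ≤ κ)
      have b6 := ind_le_one (fm g y (Z + Y') ≤ κ)
      nlinarith [mul_nonneg (sub_nonneg.2 b5) (sub_nonneg.2 b6),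
        mul_nonneg (sub_nonneg.2 b4) (sub_nonneg.2 (mul_le_one₀ b5 b3 b6))]
    simp only [Ex_sub, Ex_mul, Ex_const] at k1
    have k2 : Ex z p ≤ Ex z (fun Z => ind (χ Z) + eps / 8 + κ⁻¹ * fm g (y + y) Z) := by
      refine Ex_mono fun Z _ => ?_
      have a1 := mk (hfm (y + y) Z) hκ0
      have a2 := ind_nonneg (¬ fm g (y + y) Z ≤ κ)
      by_cases k : χ Z
      · rw [ind_pos k]; linarith [hp1 Z]
      · rw [ind_neg k]
        by_cases k' : fm g (y + y) Z ≤ κ
        · have : ¬ eps / 8 ≤ p Z := fun h => k ⟨h, k'⟩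
          linarith [not_le.1 this]
        · rw [ind_pos k'] at a1; linarith [hp1 Z]
    simp only [Ex_add, Ex_mul, Ex_const] at k2
    have k3 : κ⁻¹ * δ = eps / 24 := by rw [hκ]; field_simp
    have k4 : d⁻¹ * δ ≤ 1 - eps / 2 := by
      rw [← div_eq_inv_mul, div_le_iff₀ hd0, hd]
      nlinarith [mul_nonneg (mul_nonneg p4.le (sub_nonneg.2 p5)) p3.le]
    have k5 := mul_le_mul_of_nonneg_left mean (inv_pos.2 hd0).le
    have k6 := mul_le_mul_of_nonneg_left m1 (inv_pos.2 hκ0).le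
    have k7 := mul_le_mul_of_nonneg_left m2 (inv_pos.2 hκ0).le
    linarith
  have low := ob_low (z := z) W χ (v := (8 / eps) ^ 2 * (eps / 100) ^ 6) (s := eps ^ 2 / 100)
    (π := eps / 4) (by positivity) (by positivity) (by positivity)
    (fun Z Z' k => by simp [hW, hw, hcc, ind_neg k])
    (fun Z k => by
      show Ex z (fun Z' => Ex y (fun Y => Ex y (fun Y' => w Z Y Y' Z'))) = 1
      rw [Ex_comm, ← hcp Z k, ← Ex_mul]
      refine Ex_congr fun Y _ => ?_
      rw [Ex_comm, ← Ex_mul]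
      refine Ex_congr fun Y' _ => ?_
      simp only [hw]
      rw [Ex_mul, Ex_mul]
      by_cases k' : u Z Y Y' = 0
      · simp [k']
      · rw [show Ex z (fun Z' => av g z (Z + Y + Y') Z') = 1 from Ex_av (hune _ _ _ k').1 p6,
          mul_one])
    (fun Z k => by
      have a1 := one_second hd0 p6 c1 y y Z k.2 hσ2 (u Z) (hu01 Z) (fun Y Y' h => (hune _ _ _ h).1)
      simp only [hW, hw, Ex_mul, mul_pow]
      have a2 := mul_le_mul_of_nonneg_left a1 (sq_nonneg (cc Z))
      have a3 : cc Z ^ 2 * p Z ^ 2 = 1 := by rw [← mul_pow, hcp Z k, one_pow]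
      have a4 : cc Z ^ 2 * (E / d * σ) ≤ (8 / eps) ^ 2 * (eps / 100) ^ 6 :=
        mul_le_mul (hc64 Z) hEd (by positivity) (by positivity)
      rw [mul_add] at a2
      exact a2.trans (add_le_add a3.le a4))
    hπ
  have up := ob_abs (y := y) (z := z) w (fun Z Y Y' v => ind (g (v ::ₘ (Z + Y + Y')))) hw0
    (fun Z Y Y' Z' => by simp only [hw, hu, add_right_comm Z Y Y', and_comm (a := fm g y (Z + Y) ≤ κ)])
    (fun Z Z' Y₁ Y₂ X₁ X₂ h1 h2 h3 h4 h5 h6 h7 => by
      have n1 : ∀ (A : Multiset V) (S : Multiset V), 0 ≤ (A.map (fun v => ind (g (v ::ₘ S)))).sum :=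
        fun A S => (ind_nonneg _).trans (ind_le_mapsum (fun v => g (v ::ₘ S)) A)
      have n2 : ∀ (A : Multiset V) (S : Multiset V) (v : V), v ∈ A → g (v ::ₘ S) →
          1 ≤ (A.map (fun v => ind (g (v ::ₘ S)))).sum := fun A S v hv h =>
        (ind_pos (P := ∃ v ∈ A, g (v ::ₘ S)) ⟨v, hv, h⟩).ge.trans
          (ind_le_mapsum (fun v => g (v ::ₘ S)) A)
      have n3 : ∀ A B C D : Multiset V, w A B C D ≠ 0 → ∀ v ∈ D, ¬ g (v ::ₘ (A + B + C)) := by
        intro A B C D h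
        by_contra k
        exact h (by simp only [hw, av, ind_neg k, zero_div, mul_zero])
      have q1 := n1 X₁ (Z + Y₁ + Y₂)
      have q2 := n1 X₂ (Z + Y₁ + Y₂)
      have q3 := n1 Y₁ (Z' + X₁ + X₂)
      have q4 := n1 Y₂ (Z' + X₁ + X₂)
      rcases hg (Z + Y₁ + Y₂) (Z' + X₁ + X₂) (by simp; omega) (by simp; omega) with
        ⟨J, hJ, hc, h⟩ | ⟨s, hs, h⟩
      · obtain ⟨v, rfl⟩ := Multiset.card_eq_one.1 (show J.card = 1 by omega)
        rw [add_comm, Multiset.singleton_add] at h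
        rcases Multiset.mem_add.1 (Multiset.singleton_le.1 hJ) with k | k
        · rcases Multiset.mem_add.1 k with k | k
          · exact absurd h (n3 _ _ _ _ (left_ne_zero_of_mul h7) v k)
          · linarith [n2 _ _ v k h]
        · linarith [n2 _ _ v k h]
      · rcases Multiset.mem_add.1 hs with k | k
        · rcases Multiset.mem_add.1 k with k | k
          · exact absurd h (n3 _ _ _ _ (right_ne_zero_of_mul h7) s k)
          · linarith [n2 _ _ s k h]
        · linarith [n2 _ _ s k h])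
  set t : ℝ := (100 / eps) ^ 4 with ht
  have ht0 : 0 < t := by positivity
  set P : Multiset V → Multiset V → V → ℝ := fun Z Z' v => Ex y (fun Y₁ => Ex y (fun Y₂ =>
    w Z Y₁ Y₂ Z' * ind (g (v ::ₘ (Z + Y₁ + Y₂))))) with hP
  set F : Multiset V → Multiset V → Multiset V → ℝ := fun Z' Z X₁ => Ex y (fun X₂ => w Z' X₁ X₂ Z)
    with hF
  have hy0 : (0 : ℝ) < y := by exact_mod_cast p2
  have b1 : ∀ Z Z', Ex y (fun X₁ => F Z' Z X₁ * (X₁.map (P Z Z')).sum)
      ≤ y * d * (W Z Z' * W Z' Z) + y * t / 2 * (𝔼 v, P Z Z' v ^ 2)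
        + 1 / (2 * t) * Ex y (fun X₁ => F Z' Z X₁ ^ 2) := by
    intro Z Z'
    have a1 : 𝔼 v, P Z Z' v ≤ d * W Z Z' := by
      simp only [hP, hW]
      rw [← Ex_expect, ← Ex_mul]
      refine Ex_mono fun Y₁ _ => ?_
      rw [← Ex_expect, ← Ex_mul]
      refine Ex_mono fun Y₂ _ => ?_
      rw [← mul_expect, mul_comm d]
      by_cases k : u Z Y₁ Y₂ = 0
      · simp [hw, k]
      · exact mul_le_mul_of_nonneg_left (hune _ _ _ k).1 (hw0 _ _ _ _)
    have a2 := ob_sq (r := r) (F Z' Z)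
    have a3 : 𝔼 v, P Z Z' v * Ex r (fun R => F Z' Z (v ::ₘ R))
        ≤ 𝔼 v, (W Z' Z * P Z Z' v + t / 2 * P Z Z' v ^ 2
          + 1 / (2 * t) * (Ex r (fun R => F Z' Z (v ::ₘ R)) - W Z' Z) ^ 2) := by
      refine expect_le_expect fun v _ => ?_
      generalize Ex r (fun R => F Z' Z (v ::ₘ R)) = x
      have : t / 2 * P Z Z' v ^ 2 + 1 / (2 * t) * (x - W Z' Z) ^ 2 - P Z Z' v * (x - W Z' Z)
          = 1 / (2 * t) * (t * P Z Z' v - (x - W Z' Z)) ^ 2 := by field_simp; ring
      have : 0 ≤ 1 / (2 * t) * (t * P Z Z' v - (x - W Z' Z)) ^ 2 := by positivity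
      linarith
    rw [expect_add_distrib, expect_add_distrib, ← mul_expect, ← mul_expect, ← mul_expect] at a3
    rw [ob_mapsum]
    have a4 : ((r : ℝ) + 1) = y := by rw [hy]; push_cast; ring
    have a5 : Ex (r + 1) (F Z' Z) = W Z' Z := rfl
    rw [a4, a5] at a2
    rw [a4]
    have a6 := mul_le_mul_of_nonneg_left a3 hy0.le
    have a7 := mul_le_mul_of_nonneg_left a2 (show 0 ≤ 1 / (2 * t) by positivity)
    have a8 := mul_le_mul_of_nonneg_left a1 (mul_nonneg hy0.le (hW0 Z' Z))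
    nlinarith
  have b2 : Ex z (fun Z => Ex z (fun Z' => 𝔼 v, P Z Z' v ^ 2)) ≤ (8 / eps) ^ 2 * (E * σ) := by
    refine Ex_le fun Z _ => ?_
    by_cases k : χ Z
    · have a1 := one_point hd0 p6 c1 y y Z k.2 hσ2 (u Z) (hu01 Z) (fun Y Y' h => (hune _ _ _ h).1)
      simp only [hP, hw, mul_assoc (cc Z), Ex_mul, mul_pow, ← mul_expect]
      exact mul_le_mul (hc64 Z) a1 (Ex_nonneg fun _ _ => expect_nonneg fun _ _ => sq_nonneg _)
        (by positivity)
    · simp only [hP, hw, hcc, ind_neg k]; simp; positivity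
  have b3 : Ex z (fun Z => Ex z (fun Z' => Ex y (fun X₁ => F Z' Z X₁ ^ 2)))
      ≤ (8 / eps) ^ 2 * 2 := by
    rw [Ex_comm]
    refine Ex_le fun Z' _ => ?_
    rw [Ex_comm]
    refine Ex_le fun X₁ _ => ?_
    by_cases k : fm g y (Z' + X₁) ≤ κ
    · have a1 := one_second hd0 p6 c1 0 y (Z' + X₁) (by simpa using k) hσ1
        (fun Y Y' => ind (Y = 0) * u Z' X₁ Y')
        (fun _ _ => ⟨mul_nonneg (ind_nonneg _) (hu01 _ _ _).1,
          mul_le_one₀ (ind_le_one _) (hu01 _ _ _).1 (hu01 _ _ _).2⟩)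
        (fun Y Y' h => by
          have h0 : Y = 0 := by
            by_contra k'; exact left_ne_zero_of_mul h (ind_neg k')
          rw [h0, add_zero]
          exact (hune _ _ _ (right_ne_zero_of_mul h)).1)
      simp only [Ex_zero, add_zero, ind_pos trivial, one_mul] at a1
      simp only [hF, hw, Ex_mul, mul_pow]
      refine mul_le_mul (hc64 Z') (a1.trans ?_) (Ex_nonneg fun _ _ => sq_nonneg _) (by positivity)
      have a2 : Ex y (fun Y' => u Z' X₁ Y') ≤ 1 := Ex_le fun _ _ => (hu01 _ _ _).2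
      have a3 : 0 ≤ Ex y (fun Y' => u Z' X₁ Y') := Ex_nonneg fun _ _ => (hu01 _ _ _).1
      have a4 : (eps / 100) ^ 6 ≤ 1 := pow_le_one₀ (by positivity) (by linarith)
      nlinarith
    · have : ∀ X₂, u Z' X₁ X₂ = 0 := fun X₂ => ind_neg fun h => k h.2.1
      simp only [hF, hw, this]; simp; positivity
  set I := Ex z (fun Z => Ex z (fun Z' => W Z Z' * W Z' Z)) with hI
  have b4 : Ex z (fun Z => Ex z (fun Z' => Ex y (fun X₁ => F Z' Z X₁ * (X₁.map (P Z Z')).sum)))
      ≤ y * d * I + y * t / 2 * Ex z (fun Z => Ex z (fun Z' => 𝔼 v, P Z Z' v ^ 2))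
        + 1 / (2 * t) * Ex z (fun Z => Ex z (fun Z' => Ex y (fun X₁ => F Z' Z X₁ ^ 2))) := by
    simp only [hI, ← Ex_mul, ← Ex_add]
    refine Ex_mono fun Z _ => Ex_mono fun Z' _ => ?_
    simpa only [← Ex_mul, ← Ex_add] using b1 Z Z'
  have b5 : I ≤ 4 * Ex z (fun Z => Ex z (fun Z' =>
      Ex y (fun X₁ => F Z' Z X₁ * (X₁.map (P Z Z')).sum))) := up
  have hI0 : 0 ≤ I := Ex_nonneg fun _ _ => Ex_nonneg fun _ _ => mul_nonneg (hW0 _ _) (hW0 _ _)
  have b6 : y * t / 2 * Ex z (fun Z => Ex z (fun Z' => 𝔼 v, P Z Z' v ^ 2))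
      ≤ 32 * eps ^ 2 / 100 ^ 4 := by
    refine (mul_le_mul_of_nonneg_left b2 (by positivity)).trans ?_
    calc y * t / 2 * ((8 / eps) ^ 2 * (E * σ)) = t / 2 * (8 / eps) ^ 2 * (y * (E * σ)) := by ring
      _ ≤ t / 2 * (8 / eps) ^ 2 * (eps / 100) ^ 8 := by gcongr
      _ = _ := by rw [ht]; field_simp; ring
  have b7 : 1 / (2 * t) * Ex z (fun Z => Ex z (fun Z' => Ex y (fun X₁ => F Z' Z X₁ ^ 2)))
      ≤ 64 * eps ^ 2 / 100 ^ 4 := by
    refine (mul_le_mul_of_nonneg_left b3 (by positivity)).trans (le_of_eq ?_)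
    rw [ht]; field_simp; ring
  have b8 : y * d * I ≤ 1 / 8 * I := mul_le_mul_of_nonneg_right (by linarith) hI0
  have b9 : (8 / eps) ^ 2 * (eps / 100) ^ 6 = 64 * eps ^ 4 / 100 ^ 6 := by field_simp; ring
  have b10 : 64 * eps ^ 4 / 100 ^ 6 / (eps ^ 2 / 100) = 64 * eps ^ 2 / 100 ^ 5 := by field_simp
  rw [b9, b10] at low
  have b11 : eps ^ 4 ≤ eps ^ 2 := pow_le_pow_of_le_one p4.le p5 (by norm_num)
  have b12 : 0 < eps ^ 2 := by positivity
  nlinarith

end Pool.Agent.P.MP_7badbe_co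

end
end

-- part Pool.Agent.P.MP_7badbe_co.Sp.Fin
section

set_option autoImplicit false
set_option linter.unusedSectionVars false

section


open Finset Filter Topology
open scoped BigOperators

namespace Pool.Agent.P.MP_7badbe_co

variable {V : Type} [Fintype V] [Nonempty V]

theorem sharp_lower {j : ℕ} (hj : 1 ≤ j) {c : ℝ} (hc : c < (2 * j - 1) * j.factorial) :
    ∀ᶠ m : ℕ in atTop, ∀ p : ℝ,
      Tendsto (fun n : ℕ => (exF (m + 1) (m + 1 - j) n : ℝ) / n.choose (m + 1)) atTop (𝓝 p) →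
      c * Real.log (m + 1) / (m + 1) ^ j ≤ 1 - p := by
  rcases le_or_gt c 0 with hc0 | hc0
  · filter_upwards [eventually_ge_atTop j] with m hm p hp
    refine lower_transfer (by omega) (by omega) hp (fun n g _ => ?_)
    refine le_trans ?_ (Ex_nonneg fun _ _ => ind_nonneg _)
    have h1 : 0 ≤ Real.log ((m : ℝ) + 1) :=
      Real.log_nonneg (by linarith [Nat.cast_nonneg (α := ℝ) m])
    exact div_nonpos_of_nonpos_of_nonneg (mul_nonpos_of_nonpos_of_nonneg hc0 h1) (by positivity)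
  rcases hj.eq_or_lt with rfl | hj2
  · filter_upwards [par1_eventually hc0 (by norm_num at hc; linarith), eventually_ge_atTop 1]
      with m hP hm p hp
    refine lower_transfer (by omega) (by omega) hp (fun n g hg => ?_)
    rw [pow_one]
    exact (master1 hP g (by simpa using hg)).le
  · filter_upwards [par_eventually hj2 hc0 hc, eventually_ge_atTop j] with m hP hm p hp
    exact lower_transfer (by omega) (by omega) hp
      (fun n g hg => (master hj2 (by omega) hP g hg).le)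

theorem sharp_upper {j : ℕ} (hj : 1 ≤ j) {C : ℝ} (hC : (2 * j - 1) * j.factorial < C) :
    ∀ᶠ m : ℕ in atTop, ∀ p : ℝ,
      Tendsto (fun n : ℕ => (exF (m + 1) (m + 1 - j) n : ℝ) / n.choose (m + 1)) atTop (𝓝 p) →
      1 - p ≤ C * Real.log (m + 1) / (m + 1) ^ j := by
  filter_upwards [up_par hj hC, eventually_ge_atTop j] with m hP hm p hp
  obtain ⟨l, r, β, hl, hr, h1, h2, h3⟩ := hP
  haveI : NeZero l := ⟨by omega⟩
  haveI : NeZero r := ⟨by omega⟩
  obtain ⟨γ, hγ, hle⟩ := two_hash (A := ZMod l) (B := ZMod r) (i := m + 1 - j) hj hm (by omega)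
    (fun a => miss_sharp hj m (by rwa [ZMod.card]) h2 a)
  rw [ZMod.card, ZMod.card] at hle
  exact (label_transfer hp _ γ hγ).trans (hle.trans h3)

theorem sharp (j : ℕ) (hj : 1 ≤ j) (ε : ℝ) (hε : 0 < ε) : ∃ k₀ : ℕ, ∀ k ≥ k₀, ∃ p : ℝ,
    Tendsto (fun n : ℕ => (exF k (k - j) n : ℝ) / n.choose k) atTop (𝓝 p) ∧
    ((2 * j - 1) * j.factorial - ε) * Real.log k / (k : ℝ) ^ j ≤ 1 - p ∧
    1 - p ≤ ((2 * j - 1) * j.factorial + ε) * Real.log k / (k : ℝ) ^ j := by
  obtain ⟨m₀, hm₀⟩ := eventually_atTop.1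
    ((sharp_lower hj (c := (2 * j - 1) * j.factorial - ε) (by linarith)).and
      (sharp_upper hj (C := (2 * j - 1) * j.factorial + ε) (by linarith)))
  refine ⟨m₀ + j + 2, fun k hk => ?_⟩
  obtain ⟨m, rfl⟩ : ∃ m, k = m + 1 := ⟨k - 1, by omega⟩
  obtain ⟨p, hp⟩ := exists_limit (m := m) (i := m + 1 - j) (by omega)
  refine ⟨p, hp, ?_, ?_⟩
  · push_cast; exact (hm₀ m (by omega)).1 p hp
  · push_cast; exact (hm₀ m (by omega)).2 p hp

end Pool.Agent.P.MP_7badbe_co

end
end
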