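import Pool.Agent.K.MP_7badbe_co.C4

-- part Pool.Agent.P.MP_7badbe_co.Gr.F
section

set_option autoImplicit false
set_option linter.unusedSectionVars false

open Finset Filter Topology
open scoped BigOperators

namespace Pool.Agent.P.MP_7badbe_co

section

variable {A : Type} [AddCommGroup A] [Fintype A]

lemma miss_cardG (s : ℕ) (T : Multiset A) : (sums s T).card ≤ T.card.choose s := by
  classical
  refine (card_le_card (t := ((T.powersetCard s).map Multiset.sum).toFinset) fun a ha => ?_).trans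
    ((Multiset.toFinset_card_le _).trans (by simp))
  obtain ⟨J, hJ, hc, hs⟩ := miss_mem.1 ha
  exact Multiset.mem_toFinset.2
    (Multiset.mem_map.2 ⟨J, Multiset.mem_powersetCard.2 ⟨hJ, hc⟩, hs⟩)

lemma choose_monoG {m r : ℕ} (hr : 2 * r ≤ m) {s : ℕ} (hs : s ≤ r) : m.choose s ≤ m.choose r := by
  induction r with
  | zero => rw [Nat.le_zero.1 hs]
  | succ r ih =>
    rcases hs.eq_or_lt with rfl | h
    · exact le_rfl
    · exact (ih (by omega) (by omega)).trans (Nat.choose_le_succ_of_lt_half_left (by omega))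

lemma miss_bdG {r m n : ℕ} {T : Multiset A} (h : T.card + n ≤ m) (hr : 2 * r ≤ m) {c : ℝ}
    (hc : (m.choose r : ℝ) ≤ c) :
    (∀ s ≤ r, ((sums s T).card : ℝ) ≤ c) ∧
      ∑ s ∈ range r, ((sums s T).card : ℝ) * n.choose (r - s) ≤ c := by
  refine ⟨fun s hs => le_trans ?_ hc, le_trans ?_ hc⟩
  · exact_mod_cast (miss_cardG s T).trans
      ((Nat.choose_le_choose s (by omega)).trans (choose_monoG hr hs))
  · have h1 : ∑ s ∈ range r, (sums s T).card * n.choose (r - s) ≤ m.choose r := by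
      refine le_trans ?_ (Nat.choose_le_choose r h)
      rw [Nat.add_choose_eq, Nat.sum_antidiagonal_eq_sum_range_succ
        (fun a b => T.card.choose a * n.choose b), sum_range_succ]
      exact (sum_le_sum fun s _ => Nat.mul_le_mul_right _ (miss_cardG s T)).trans
        (Nat.le_add_right _ _)
    exact_mod_cast h1

lemma miss_mainG {r m : ℕ} {β : ℝ} (hr : 2 * r ≤ m)
    (hβ : (m.choose r : ℝ) ≤ β * Fintype.card A) (hβ2 : β ≤ 1 / 2) (a : A)
    (n : ℕ) : ∀ T : Multiset A, T.card + n ≤ m →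
    Ex n (fun W => ind (a ∉ sums (r + 1) (T + W)))
      ≤ Real.exp (-(missP r n T / Fintype.card A) + 6 * n * β ^ 2) := by
  have hN : (0 : ℝ) < Fintype.card A := by exact_mod_cast Fintype.card_pos
  set N : ℝ := ((Fintype.card A : ℕ) : ℝ) with hNN
  induction n with
  | zero =>
    intro T _
    have : missP r 0 T = 0 := sum_eq_zero fun s hs => by
      rw [Nat.choose_eq_zero_of_lt (by have := mem_range.1 hs; omega)]
      simp
    simpa [this] using ind_le_one _
  | succ n ih =>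
    intro T hT
    obtain ⟨b1, b2⟩ := miss_bdG (n := n) (T := T) (by omega) hr hβ
    set K := Real.exp (-(missP r (n + 1) T / N) + 6 * n * β ^ 2 + (sums r T).card / N) with hK
    have hy0 : ∀ x, 0 ≤ missY r n T x := fun x => sum_nonneg fun s _ =>
      mul_nonneg (sum_nonneg fun _ _ => ind_nonneg _) (Nat.cast_nonneg _)
    have hy1 : ∀ x, missY r n T x / N ≤ 1 := fun x => by
      have : missY r n T x ≤ β * N := (sum_le_sum fun s _ => mul_le_mul_of_nonneg_right
        (miss_coll _ _ x).1 (Nat.cast_nonneg _)).trans b2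
      rw [div_le_one hN]
      nlinarith
    have h1 : Ex (n + 1) (fun W => ind (a ∉ sums (r + 1) (T + W)))
        ≤ 𝔼 x, K * (1 - ind (a - x ∈ sums r T) + 2 / N * missY r n T x) := by
      refine expect_le_expect fun x _ => ?_
      have hy : 0 ≤ 2 / N * missY r n T x := mul_nonneg (by positivity) (hy0 x)
      simp only [Multiset.add_cons, ← Multiset.cons_add]
      by_cases hx : a - x ∈ sums r T
      · rw [ind_pos hx]
        refine Ex_le fun W _ => ?_
        rw [ind_neg (not_not.2 (miss_mono (Multiset.le_add_right _ _) (miss_add hx)))]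
        exact mul_nonneg (Real.exp_pos _).le (by linarith)
      · rw [ind_neg hx]
        refine (ih (x ::ₘ T) (by simp only [Multiset.card_cons]; omega)).trans ?_
        have h2 := div_le_div_of_nonneg_right (miss_step r n T x) hN.le
        have h3 := Real.abs_exp_sub_one_le (x := missY r n T x / N)
          (by rw [abs_of_nonneg (div_nonneg (hy0 x) hN.le)]; exact hy1 x)
        rw [abs_of_nonneg (div_nonneg (hy0 x) hN.le)] at h3
        have h4 : Real.exp (missY r n T x / N) ≤ 1 - 0 + 2 / N * missY r n T x := by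
          have := (abs_le.1 h3).2
          rw [show 2 / N * missY r n T x = 2 * (missY r n T x / N) by ring]
          linarith
        refine le_trans ?_ (mul_le_mul_of_nonneg_left h4 (Real.exp_pos _).le)
        rw [← Real.exp_add, Real.exp_le_exp]
        simp only [sub_div] at h2
        linarith
    refine h1.trans ?_
    have hβ0 : 0 ≤ β * N := (Nat.cast_nonneg _).trans (b1 0 (Nat.zero_le _))
    have h5 : 𝔼 x, missY r n T x ≤ β * (β * N) := by
      simp only [missY, expect_sum_comm, ← expect_mul, av_mem, sum_const, nsmul_eq_mul]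
      refine le_trans (sum_le_sum fun s hs => ?_) ((mul_sum _ _ β).ge.trans
        (mul_le_mul_of_nonneg_left b2 (nonneg_of_mul_nonneg_left hβ0 hN)))
      rw [← hNN, ← mul_assoc, mul_div_left_comm, mul_comm _ (_ / N)]
      gcongr
      rw [div_le_iff₀ hN]
      exact b1 _ (mem_range.1 hs)
    simp only [← mul_expect, expect_add_distrib, expect_sub_distrib, expect_const univ_nonempty,
      av_mem]
    rw [← hNN]
    set b := ((sums r T).card : ℝ) / N with hb
    have h6 : b ≤ 1 := by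
      rw [hb, div_le_one hN, hNN]
      exact_mod_cast card_le_univ _
    have h7 : 2 / N * 𝔼 x, missY r n T x ≤ 2 * β ^ 2 :=
      (mul_le_mul_of_nonneg_left h5 (by positivity)).trans (le_of_eq (by field_simp))
    have h8 : Real.exp b * (1 - b) ≤ 1 := by
      have := mul_le_mul_of_nonneg_left (Real.one_sub_le_exp_neg b) (Real.exp_pos b).le
      rwa [← Real.exp_add, add_neg_cancel, Real.exp_zero] at this
    have h9 : Real.exp b ≤ 3 := (Real.exp_le_exp.2 h6).trans (by linarith [Real.exp_one_lt_d9])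
    have h10 : Real.exp b * (1 - b + 2 / N * 𝔼 x, missY r n T x) ≤ Real.exp (6 * β ^ 2) := by
      have := Real.add_one_le_exp (6 * β ^ 2)
      nlinarith [Real.exp_pos b, mul_le_mul_of_nonneg_left h7 (Real.exp_pos b).le, sq_nonneg β]
    rw [hK, Real.exp_add, mul_assoc]
    refine (mul_le_mul_of_nonneg_left h10 (Real.exp_pos _).le).trans (le_of_eq ?_)
    rw [← Real.exp_add]
    push_cast
    ring_nf

theorem miss_sharpG {r m : ℕ} {β : ℝ} (hr : 2 * r ≤ m)
    (hβ : (m.choose r : ℝ) ≤ β * Fintype.card A) (hβ2 : β ≤ 1 / 2) (a : A) :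
    Ex m (fun T : Multiset A => ind (a ∉ sums (r + 1) T))
      ≤ Real.exp (-((m.choose (r + 1) : ℝ) / Fintype.card A) + 6 * m * β ^ 2) := by
  have h := miss_mainG hr hβ hβ2 a m 0 (by simp)
  simp only [zero_add] at h
  refine h.trans (Real.exp_le_exp.2 ?_)
  have h1 : (1 : ℝ) ≤ (sums 0 (0 : Multiset A)).card := by
    exact_mod_cast card_pos.2 ⟨0, miss_mem.2 ⟨0, le_rfl, rfl, rfl⟩⟩
  have h2 : (m.choose (r + 1) : ℝ) ≤ missP r m (0 : Multiset A) :=
    le_trans (le_mul_of_one_le_left (Nat.cast_nonneg _) h1) (single_le_sum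
      (f := fun s => ((sums s (0 : Multiset A)).card : ℝ) * m.choose (r + 1 - s))
      (fun _ _ => by positivity) (mem_range.2 (Nat.succ_pos r)))
  have := div_le_div_of_nonneg_right h2 (Nat.cast_nonneg (α := ℝ) (Fintype.card A))
  linarith

end

theorem upperG {j m N : ℕ} {ε R : ℝ} (hε : 0 < ε) (hε1 : ε ≤ 1 / 2) (hN : 20 ≤ N * ε)
    (hK : R ^ N = (m : ℝ) + 1) (RN : 6528 * (N : ℝ) ≤ R) (hj : N ≤ j) (hjR : j ≤ R) {p : ℝ}
    (hp : Tendsto (fun n : ℕ => (exF (m + 1) (m + 1 - j) n : ℝ) / n.choose (m + 1)) atTop (𝓝 p)) :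
    1 - p ≤ (1 + ε) * (2 * j - 1) * Real.log (m + 1) / (m + 1).choose j := by
  have N0 : (0 : ℝ) ≤ N := Nat.cast_nonneg _
  have N40 : (40 : ℝ) ≤ N := by linarith only [hN, mul_le_mul_of_nonneg_left hε1 N0]
  have N40' : 40 ≤ N := by exact_mod_cast N40
  have R1 : (1000 : ℝ) ≤ R := by linarith only [RN, N40]
  have R0 : 0 < R := by linarith only [R1]
  have Rε : 100000 ≤ R * ε := by linarith only [hN, mul_le_mul_of_nonneg_right RN hε.le]
  have jN : (N : ℝ) ≤ j := by exact_mod_cast hj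
  have jε : 20 ≤ j * ε := hN.trans (mul_le_mul_of_nonneg_right jN hε.le)
  obtain ⟨K, hKdef⟩ : ∃ K : ℝ, K = (m : ℝ) + 1 := ⟨_, rfl⟩
  rw [← hKdef] at hK ⊢
  have hKc : ((m + 1 : ℕ) : ℝ) = K := by push_cast; exact hKdef.symm
  have KR : R ^ 8 ≤ K := hK ▸ pow_le_pow_right₀ (by linarith only [R1]) (by omega)
  have pp : ∀ s : ℕ, 1000 * R ^ s ≤ R ^ (s + 1) := fun s => by
    rw [pow_succ']; exact mul_le_mul_of_nonneg_right R1 (by positivity)
  have p2 : 1000 * R ≤ R ^ 2 := by simpa using pp 1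
  have p3 : 1000 * R ^ 2 ≤ R ^ 3 := pp 2
  have p4 : 1000 * R ^ 3 ≤ R ^ 4 := pp 3
  have p5 : 1000 * R ^ 4 ≤ R ^ 5 := pp 4
  have p6 : 1000 * R ^ 5 ≤ R ^ 6 := pp 5
  have p7 : 1000 * R ^ 6 ≤ R ^ 7 := pp 6
  have p8 : 1000 * R ^ 7 ≤ R ^ 8 := pp 7
  have q8 : 1000 * R ^ 4 ≤ K := by
    linarith only [KR, p8, p7, p6, p5, p4, p3, p2, R1]
  have RK : 1000 * R ≤ K := by linarith only [q8, p4, p3, p2, R1]
  have K0 : 0 < K := by linarith only [RK, R1]
  obtain ⟨x, hx⟩ : ∃ x, x = Real.log K := ⟨_, rfl⟩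
  rw [← hx]
  have xR : x = N * Real.log R := by rw [hx, ← hK, Real.log_pow]
  have lR : 1 ≤ Real.log R := by
    rw [Real.le_log_iff_exp_le R0]; linarith only [Real.exp_one_lt_d9, R1]
  have x1 : 1 ≤ x := by rw [xR]; linarith only [mul_le_mul_of_nonneg_left lR N0, N40]
  have xN : x ≤ N * R := by
    rw [xR]; exact mul_le_mul_of_nonneg_left (by linarith only [Real.log_le_sub_one_of_pos R0]) N0
  have x2 : x ≤ R ^ 2 / 6528 := by linarith only [xN, mul_le_mul_of_nonneg_right RN R0.le]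
  have jm : 2 * j ≤ m := by
    have : ((2 * j : ℕ) : ℝ) ≤ m := by push_cast; linarith only [hjR, RK, R1, hKdef]
    exact_mod_cast this
  obtain ⟨r, rfl⟩ : ∃ r, j = r + 1 := ⟨j - 1, by omega⟩
  obtain ⟨J, hJ⟩ : ∃ J : ℝ, J = ((r + 1 : ℕ) : ℝ) := ⟨_, rfl⟩
  rw [← hJ] at hjR jN jε ⊢
  obtain ⟨C, hC⟩ : ∃ C : ℝ, C = (((m + 1).choose (r + 1) : ℕ) : ℝ) := ⟨_, rfl⟩
  obtain ⟨D, hD⟩ : ∃ D : ℝ, D = ((m.choose (r + 1) : ℕ) : ℝ) := ⟨_, rfl⟩
  rw [← hC]
  have C0 : 0 < C := by rw [hC]; exact_mod_cast Nat.choose_pos (by omega)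
  have CK : C ≤ K ^ (r + 1) := by rw [hC, ← hKc]; exact_mod_cast Nat.choose_le_pow _ _
  have DC : D * K = C * (K - J) := by
    have := Nat.choose_mul_succ_eq m (r + 1)
    rw [hD, hC, hJ, ← hKc, ← Nat.cast_sub (by omega)]
    exact_mod_cast this
  have DC' : D ≤ C := by rw [hD, hC]; exact_mod_cast Nat.choose_le_choose _ (by omega)
  have Dm : K - 1 ≤ D := by
    have := choose_monoG (r := r + 1) jm (s := 1) (by omega)
    rw [Nat.choose_one_right] at this
    rw [hD, hKdef, add_sub_cancel_right]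
    exact_mod_cast this
  have Dr : (m.choose r : ℝ) * (K - J) = D * J := by
    have := Nat.choose_succ_right_eq m r
    rw [hD, hJ, ← hKc, ← Nat.cast_sub (by omega), Nat.add_sub_add_right]
    exact_mod_cast this.symm
  obtain ⟨L, hL⟩ : ∃ L, L = (2 * J + 1) * x := ⟨_, rfl⟩
  have L1 : 1 ≤ L := hL ▸ one_le_mul_of_one_le_of_one_le (by linarith only [jN, N0]) x1
  have L2 : L ≤ R ^ 3 / 2000 := by
    calc L ≤ 3 * R * (R ^ 2 / 6528) := by rw [hL]; gcongr; linarith only [hjR, R1]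
      _ ≤ _ := by linarith only [pow_pos R0 3]
  have L0 : 0 < L := by linarith only [L1]
  have LD : 1000 * R * L ≤ D := by
    have := mul_le_mul_of_nonneg_left L2 R0.le
    linarith only [this, q8, Dm, RK, R1]
  have D0 : 0 < D := by linarith only [Dm, RK, R1]
  obtain ⟨l, hl⟩ : ∃ l, l = ⌊D / L⌋₊ := ⟨_, rfl⟩
  have l1 : l * L ≤ D := by rw [← le_div_iff₀ L0, hl]; exact Nat.floor_le (by positivity)
  have l2 : D - L ≤ l * L := by
    have := Nat.lt_floor_add_one (D / L)
    rw [← hl, div_lt_iff₀ L0] at this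
    linarith only [this]
  have RL := mul_le_mul_of_nonneg_right R1 L0.le
  have l0 : (0 : ℝ) < l := (mul_pos_iff_of_pos_right L0).1 (by linarith only [l2, LD, RL, L0])
  have : NeZero l := ⟨by rintro rfl; simp at l0⟩
  have β0 : 0 ≤ 4 * L * R / K := by positivity
  have β1 : 4 * L * R / K ≤ R ^ 4 / 500 / K := by
    gcongr; linarith only [mul_le_mul_of_nonneg_left L2 R0.le]
  have β2 : 6 * m * (4 * L * R / K) ^ 2 ≤ 1 := by
    calc _ ≤ 6 * K * (R ^ 4 / 500 / K) ^ 2 := by gcongr; linarith only [hKdef]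
      _ = 6 / 250000 * R ^ 8 / K := by field_simp; norm_num
      _ ≤ 1 := by rw [div_le_one K0]; linarith only [KR, K0]
  obtain ⟨γ, hγ, hle⟩ := two_hash (A := ZMod l) (B := ZMod 2) (i := m + 1 - (r + 1)) (j := r + 1)
    (m := m) (by omega) (by omega) (by omega) (fun a => miss_sharpG (r := r) (β := 4 * L * R / K)
      (by omega) (by
        rw [ZMod.card, div_mul_eq_mul_div, le_div_iff₀ K0]
        have b1 := mul_le_mul_of_nonneg_left (show K ≤ 2 * (K - J) by
          linarith only [hjR, RK, R1]) (Nat.cast_nonneg (α := ℝ) (m.choose r))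
        have b2 := mul_le_mul_of_nonneg_left hjR D0.le
        have b3 := mul_le_mul_of_nonneg_right (show D ≤ 2 * (l * L) by
          linarith only [l2, LD, RL, L0]) R0.le
        linarith only [b1, b2, b3, Dr])
      (β1.trans (by rw [div_le_iff₀ K0]; linarith only [q8, K0])) a)
  rw [ZMod.card, ZMod.card, ← hD, ← hKdef] at hle
  refine (label_transfer hp _ γ hγ).trans (hle.trans ?_)
  have KK : 0 < K ^ (r + 1) := by positivity
  have t1 : 1 / (l : ℝ) ≤ (1 + ε / 4) * L / C := by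
    rw [div_le_div_iff₀ l0 C0, one_mul, mul_assoc, mul_comm L]
    have b1 : C * (1 - ε / 16) ≤ D := by
      refine le_of_mul_le_mul_right ?_ K0
      rw [DC, mul_assoc]
      refine mul_le_mul_of_nonneg_left ?_ C0.le
      have b2 := mul_le_mul_of_nonneg_left (show R ^ 2 ≤ K by
        linarith only [q8, p4, p3, p2, R1]) hε.le
      have b3 := mul_le_mul_of_nonneg_left Rε R0.le
      linarith only [b2, b3, hjR, R0]
    have b2 : L ≤ C * (ε / 16) := by
      have b3 := mul_le_mul_of_nonneg_right Rε L0.le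
      have b4 := mul_le_mul_of_nonneg_right (LD.trans DC') hε.le
      linarith only [b3, b4, L0]
    have b3 := mul_le_mul_of_nonneg_left
      (show C * (1 - ε / 8) ≤ l * L by linarith only [b1, b2, l2])
      (show 0 ≤ 1 + ε / 4 by positivity)
    have b4 := mul_le_mul_of_nonneg_left
      (show 1 ≤ (1 + ε / 4) * (1 - ε / 8) by nlinarith only [hε, hε1]) C0.le
    linarith only [b3, b4]
  have t2 : (l : ℝ) / (2 : ℕ) * ((1 + K ^ (r + 1) / l)
      * Real.exp (-(D / l) + 6 * m * (4 * L * R / K) ^ 2)) ≤ 1 / 2 / C := by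
    have b1 : Real.exp (-(D / l) + 6 * m * (4 * L * R / K) ^ 2)
        ≤ 3 / (K ^ (r + 1) * K ^ (r + 1) * K) := by
      have b2 : L ≤ D / l := by rw [le_div_iff₀ l0, mul_comm]; exact l1
      have b3 : K ^ (r + 1) * K ^ (r + 1) * K = Real.exp L := by
        rw [hL, hJ, hx, show (2 * ((r + 1 : ℕ) : ℝ) + 1) = ((r + 1 + (r + 1) + 1 : ℕ) : ℝ) by
          push_cast; ring, Real.exp_nat_mul, Real.exp_log K0, pow_succ _ (r + 1 + (r + 1)), pow_add _ (r + 1) (r + 1)]
      rw [b3, le_div_iff₀ (Real.exp_pos _), ← Real.exp_add]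
      exact (Real.exp_le_exp.2 (by linarith only [b2, β2])).trans
        (show Real.exp 1 ≤ 3 by linarith only [Real.exp_one_lt_d9])
    have b4 : (l : ℝ) ≤ K ^ (r + 1) := by
      linarith only [mul_le_mul_of_nonneg_left L1 l0.le, l1, DC', CK]
    calc _ = (l + K ^ (r + 1)) / 2 * Real.exp (-(D / l) + 6 * m * (4 * L * R / K) ^ 2) := by
          push_cast; field_simp
      _ ≤ (K ^ (r + 1) + K ^ (r + 1)) / 2 * (3 / (K ^ (r + 1) * K ^ (r + 1) * K)) := by gcongr
      _ = 3 / K / K ^ (r + 1) := by field_simp; norm_num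
      _ ≤ _ := div_le_div₀ (by norm_num) (by rw [div_le_iff₀ K0]; linarith only [RK, R1]) C0 CK
  have t3 : ((2 : ℕ) : ℝ) * (K ^ (r + 1) * (1 - 1 / ((2 : ℕ) : ℝ)) ^ (m + 1 - (r + 1)))
      ≤ 1 / 2 / C := by
    have b1 : 4 * (K ^ (r + 1) * K ^ (r + 1)) ≤ 2 ^ (m + 1 - (r + 1)) := by
      rw [← pow_add, ← Real.exp_log (show (0 : ℝ) < 2 by norm_num), ← Real.exp_log K0, ← hx,
        ← Real.exp_nat_mul, ← Real.exp_nat_mul, Nat.cast_sub (by omega), hKc, Nat.cast_add, ← hJ]
      have b2 : (4 : ℝ) ≤ Real.exp 3 := by linarith only [Real.add_one_le_exp 3]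
      refine (mul_le_mul_of_nonneg_right b2 (Real.exp_pos _).le).trans ?_
      rw [← Real.exp_add, Real.exp_le_exp]
      have b3 := mul_le_mul_of_nonneg_left (show 1 / 2 ≤ Real.log 2 by
        linarith only [Real.log_two_gt_d9]) (show 0 ≤ K - J by linarith only [hjR, RK, R1])
      linarith only [b3, hL, L2, x1, hjR, q8, p4, p3, p2, R1]
    rw [Nat.cast_ofNat, show (1 : ℝ) - 1 / 2 = 2⁻¹ by norm_num, inv_pow, le_div_iff₀ C0, ← div_eq_mul_inv,
      ← mul_div_assoc, div_mul_eq_mul_div, div_le_iff₀ (by positivity)]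
    linarith only [b1, mul_le_mul_of_nonneg_left CK KK.le]
  refine (add_le_add (add_le_add t1 t2) t3).trans ?_
  rw [← add_div, ← add_div]
  refine div_le_div_of_nonneg_right ?_ C0.le
  have b1 := mul_le_mul_of_nonneg_right (show (1 + ε / 4) * (2 * J + 1) + 1 ≤ (1 + ε) * (2 * J - 1)
    by linarith only [jε, hε1]) (zero_le_one.trans x1)
  rw [hL]
  linarith only [b1, x1]

end Pool.Agent.P.MP_7badbe_co
end

-- part Pool.Agent.P.MP_7badbe_co.Gr.Fin
section

set_option autoImplicit false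

open Finset Filter Topology
open scoped BigOperators

namespace Pool.Agent.P.MP_7badbe_co

lemma smallG (j : ℕ) (hj : 1 ≤ j) {ε : ℝ} (hε : 0 < ε) (hε1 : ε ≤ 1 / 2) :
    ∀ᶠ k : ℕ in atTop, ∃ p : ℝ,
      Tendsto (fun n : ℕ => (exF k (k - j) n : ℝ) / n.choose k) atTop (𝓝 p) ∧
      (1 - ε) * (2 * j - 1) * Real.log k / k.choose j ≤ 1 - p ∧
      1 - p ≤ (1 + ε) * (2 * j - 1) * Real.log k / k.choose j := by
  obtain ⟨k₀, hk₀⟩ := sharp j hj (ε / 2) (by positivity)
  have h1 : Tendsto (fun n : ℕ => (n.choose j : ℝ) / ((n : ℝ) ^ j / j.factorial)) atTop (𝓝 1) :=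
    (Asymptotics.isEquivalent_iff_tendsto_one (by
      filter_upwards [eventually_gt_atTop 0] with n hn
      positivity)).1 (isEquivalent_choose j)
  filter_upwards [eventually_ge_atTop k₀, eventually_ge_atTop j,
    h1.eventually (lt_mem_nhds (show 1 - ε / 2 < 1 by linarith))] with k hk hkj h2
  obtain ⟨p, hp, h3, h4⟩ := hk₀ k hk
  have j1 : (1 : ℝ) ≤ j := by exact_mod_cast hj
  have k1 : (1 : ℝ) ≤ k := by exact_mod_cast hj.trans hkj
  have x0 := Real.log_nonneg k1
  have f1 : (1 : ℝ) ≤ j.factorial := by exact_mod_cast j.factorial_pos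
  have C0 : (0 : ℝ) < k.choose j := by exact_mod_cast Nat.choose_pos hkj
  have P0 : (0 : ℝ) < (k : ℝ) ^ j := by positivity
  have h5 : (k.choose j : ℝ) * j.factorial ≤ (k : ℝ) ^ j := by
    rw [← le_div_iff₀ (by positivity)]; exact Nat.choose_le_pow_div j k
  rw [lt_div_iff₀ (by positivity), ← mul_div_assoc, div_lt_iff₀ (by positivity)] at h2
  obtain ⟨s, hs⟩ : ∃ s : ℝ, s = 2 * j - 1 := ⟨_, rfl⟩
  rw [← hs] at h3 h4 ⊢
  have s1 : 1 ≤ s := by linarith
  have sf : 1 ≤ s * j.factorial := one_le_mul_of_one_le_of_one_le s1 f1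
  refine ⟨p, hp, le_trans ?_ h3, h4.trans ?_⟩
  · rw [mul_div_right_comm, mul_div_right_comm _ (Real.log k)]
    refine mul_le_mul_of_nonneg_right ?_ x0
    rw [div_le_div_iff₀ C0 P0]
    have a1 := mul_le_mul_of_nonneg_right (show (1 - ε / 2) * (s * j.factorial)
      ≤ s * j.factorial - ε / 2 by nlinarith) C0.le
    have a2 := mul_le_mul_of_nonneg_left h2.le
      (show 0 ≤ (1 - ε / 2) * s from mul_nonneg (by linarith) (by linarith))
    have a3 := mul_le_mul_of_nonneg_right (show 1 - ε ≤ (1 - ε / 2) ^ 2 by nlinarith)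
      (show 0 ≤ s * (k : ℝ) ^ j by positivity)
    linarith
  · rw [mul_div_right_comm, mul_div_right_comm _ (Real.log k)]
    refine mul_le_mul_of_nonneg_right ?_ x0
    rw [div_le_div_iff₀ P0 C0]
    have a1 := mul_le_mul_of_nonneg_right (show s * j.factorial + ε / 2
      ≤ (1 + ε) * (s * j.factorial) by nlinarith) C0.le
    have a2 := mul_le_mul_of_nonneg_left h5 (show 0 ≤ (1 + ε) * s by positivity)
    linarith

theorem sharpG (ε : ℝ) (hε : 0 < ε) (hε1 : ε ≤ 1 / 2) : ∃ k₀ : ℕ, ∀ k ≥ k₀, ∀ j : ℕ, 1 ≤ j →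
    (j : ℝ) ≤ (k : ℝ) ^ (ε / 21) → ∃ p : ℝ,
      Tendsto (fun n : ℕ => (exF k (k - j) n : ℝ) / n.choose k) atTop (𝓝 p) ∧
      (1 - ε) * (2 * j - 1) * Real.log k / k.choose j ≤ 1 - p ∧
      1 - p ≤ (1 + ε) * (2 * j - 1) * Real.log k / k.choose j := by
  obtain ⟨N, hN⟩ : ∃ N, N = ⌈20 / ε⌉₊ := ⟨_, rfl⟩
  have N1 : 20 ≤ N * ε := by rw [← div_le_iff₀ hε, hN]; exact Nat.le_ceil _
  have N2 : N * ε ≤ 21 := by
    have := Nat.ceil_lt_add_one (show 0 ≤ 20 / ε by positivity)
    rw [← hN, ← sub_lt_iff_lt_add, lt_div_iff₀ hε] at this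
    linarith
  have N0 : (0 : ℝ) < N := (mul_pos_iff_of_pos_right hε).1 (by linarith)
  have h1 : Tendsto (fun k : ℕ => (k : ℝ) ^ (N : ℝ)⁻¹) atTop atTop :=
    (tendsto_rpow_atTop (by positivity)).comp tendsto_natCast_atTop_atTop
  have h2 := (eventually_all_finset (range N)).2 fun j _ =>
    (show ∀ᶠ k : ℕ in atTop, 1 ≤ j → _ from if hj : 1 ≤ j then
      (smallG j hj hε hε1).mono fun _ h _ => h else Eventually.of_forall fun _ h => absurd h hj)
  refine eventually_atTop.1 ?_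
  filter_upwards [h2, eventually_ge_atTop 1, h1.eventually_ge_atTop (128 * Real.exp 50 * N),
    h1.eventually_ge_atTop (4 ^ (8 * N ^ 2)), h1.eventually_ge_atTop (72 * (N : ℝ) ^ 2),
    h1.eventually_ge_atTop (6528 * (N : ℝ))] with k h3 hk r1 r2 r3 r4 j hj hjk
  rcases Nat.lt_or_ge j N with hjN | hjN
  · exact h3 j (mem_range.2 hjN) hj
  obtain ⟨m, rfl⟩ : ∃ m, k = m + 1 := ⟨k - 1, by omega⟩
  have k1 : (1 : ℝ) ≤ ((m + 1 : ℕ) : ℝ) := by exact_mod_cast hk
  have hK : (((m + 1 : ℕ) : ℝ) ^ (N : ℝ)⁻¹) ^ N = (m : ℝ) + 1 := by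
    rw [Real.rpow_inv_natCast_pow (by positivity) (by exact_mod_cast N0.ne')]
    push_cast
    rfl
  have hjR : (j : ℝ) ≤ ((m + 1 : ℕ) : ℝ) ^ (N : ℝ)⁻¹ := by
    refine hjk.trans (Real.rpow_le_rpow_of_exponent_le k1 ?_)
    rw [inv_eq_one_div, div_le_div_iff₀ (by norm_num) N0]
    linarith
  generalize ((m + 1 : ℕ) : ℝ) ^ (N : ℝ)⁻¹ = R at r1 r2 r3 r4 hK hjR
  have j1 : (1 : ℝ) ≤ j := by exact_mod_cast hj
  have N40 : (40 : ℝ) ≤ N := by nlinarith
  have jm : j ≤ m := by
    have a1 : R ^ 2 ≤ (m : ℝ) + 1 := hK ▸ pow_le_pow_right₀ (by linarith)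
      (by exact_mod_cast (show (2 : ℝ) ≤ N by linarith))
    have a2 : (j : ℝ) < ((m + 1 : ℕ) : ℝ) := by push_cast; nlinarith
    have : j < m + 1 := by exact_mod_cast a2
    omega
  obtain ⟨p, hp⟩ := exists_limit (m := m) (i := m + 1 - j) (by omega)
  refine ⟨p, hp, ?_, ?_⟩
  · refine le_trans ?_ (lower_transfer (by omega) (by omega) hp fun n g hg =>
      (masterG hj (by omega) (parG_main hε hε1 N1 hK r1 r2 r3 hjN hjR) g hg).le)
    push_cast at k1 ⊢
    exact div_le_div_of_nonneg_right (mul_le_mul_of_nonneg_right (by nlinarith)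
      (Real.log_nonneg k1)) (Nat.cast_nonneg _)
  · push_cast
    exact upperG hε hε1 N1 hK r4 hjN hjR hp

end Pool.Agent.P.MP_7badbe_co
end
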