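import Pool.Agent.K.MP_7badbe_co.C0
import Pool.Agent.K.MP_7badbe_co.C1

-- part Pool.Agent.P.MP_7badbe_co.Un.LA
section

/-! The density of independent sets of a uniform family (Moon-Moser, de Caen chain). -/

set_option autoImplicit false

open Finset
open scoped BigOperators

namespace Pool.Agent.P.MP_7badbe_co

variable {V : Type}

lemma splitSum_zero' (Φ : Multiset V → Multiset V → ℝ) (M : Multiset V) :
    splitSum 0 Φ M = Φ 0 M := by
  induction M using Multiset.induction_on generalizing Φ with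
  | empty => simp [splitSum]
  | cons v M ih => rw [splitSum_zero_cons, ih]

lemma splitSum_mono' {r : ℕ} {Φ Ψ : Multiset V → Multiset V → ℝ} {M : Multiset V}
    (h : ∀ I J, I + J = M → Φ I J ≤ Ψ I J) : splitSum r Φ M ≤ splitSum r Ψ M := by
  unfold splitSum
  refine Multiset.sum_map_le_sum_map _ _ (fun p hp => ?_)
  split_ifs
  exacts [h _ _ (Multiset.mem_antidiagonal.1 hp), le_rfl]

lemma splitSum_one_const (c : ℝ) (M : Multiset V) :
    splitSum 1 (fun _ _ => c) M = M.card * c := by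
  induction M using Multiset.induction_on with
  | empty => simp [splitSum]
  | cons v M ih =>
    rw [splitSum_succ_cons 0, splitSum_zero', zero_add, ih, Multiset.card_cons]
    push_cast
    ring

lemma splitSum_not_le (M J : Multiset V) (h : J ≤ M) :
    splitSum 1 (fun _ K => ind (¬ J ≤ K)) M ≤ J.card := by
  classical
  induction M using Multiset.induction_on generalizing J with
  | empty => simp [splitSum]
  | cons v M ih =>
    rw [splitSum_succ_cons 0, splitSum_zero', zero_add]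
    by_cases hv : v ∈ J
    · obtain ⟨J', rfl⟩ := Multiset.exists_cons_of_mem hv
      have h1 := ih J' ((Multiset.cons_le_cons_iff v).1 h)
      simp only [Multiset.cons_le_cons_iff, Multiset.card_cons]
      push_cast
      linarith [ind_le_one (¬ v ::ₘ J' ≤ M)]
    · have h0 := (Multiset.le_cons_of_notMem hv).1 h
      rw [ind_neg (not_not.2 h0), add_zero]
      refine le_trans (splitSum_mono' (fun _ K _ => ?_)) (ih J h0)
      exact ind_mono (fun h2 h3 => h2 (h3.trans (Multiset.le_cons_self _ _)))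

lemma Indep.of_le {L : Multiset V → Prop} {r : ℕ} {M K : Multiset V} (h : Indep L r M)
    (hK : K ≤ M) : Indep L r K := fun J hJ => h J (hJ.trans hK)

lemma chain_point (L : Multiset V → Prop) (ρ : ℕ) (x : V) (M : Multiset V) :
    splitSum 1 (fun Y K => ind (Indep L (ρ + 1) (Y + K)) * ind (Indep L (ρ + 1) (x ::ₘ K))) M
      ≤ M.card * ind (Indep L (ρ + 1) (x ::ₘ M))
        + ρ * (ind (Indep L (ρ + 1) M) - ind (Indep L (ρ + 1) (x ::ₘ M))) := by
  classical
  by_cases hM : Indep L (ρ + 1) M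
  · by_cases hx : Indep L (ρ + 1) (x ::ₘ M)
    · rw [ind_pos hM, ind_pos hx, sub_self, mul_zero, add_zero, ← splitSum_one_const]
      refine splitSum_mono' (fun Y K _ => ?_)
      exact mul_le_one₀ (ind_le_one _) (ind_nonneg _) (ind_le_one _)
    · rw [ind_pos hM, ind_neg hx, mul_zero, zero_add, sub_zero, mul_one]
      unfold Indep at hx
      push Not at hx
      obtain ⟨J, hJ, hc, hL⟩ := hx
      have hvJ : x ∈ J := by
        by_contra hn
        exact hM J ((Multiset.le_cons_of_notMem hn).1 hJ) hc hL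
      obtain ⟨I, rfl⟩ := Multiset.exists_cons_of_mem hvJ
      have h1 := splitSum_not_le M I ((Multiset.cons_le_cons_iff x).1 hJ)
      have h2 : I.card = ρ := by simpa using hc
      rw [h2] at h1
      refine le_trans (splitSum_mono' (fun Y K _ => ?_)) h1
      refine (mul_le_of_le_one_left (ind_nonneg _) (ind_le_one _)).trans (ind_mono ?_)
      exact fun h3 h4 => h3 _ (Multiset.cons_le_cons x h4) hc hL
  · have hx : ¬ Indep L (ρ + 1) (x ::ₘ M) := fun h => hM (h.of_le (Multiset.le_cons_self _ _))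
    rw [ind_neg hM, ind_neg hx, sub_self, mul_zero, mul_zero, add_zero]
    refine (splitSum_mono' (Ψ := fun _ _ => 0) (fun Y K h => ?_)).trans
      (by rw [splitSum_one_const, mul_zero])
    rw [h, ind_neg hM, zero_mul]

variable [Fintype V] [Nonempty V]

lemma chain_step (L : Multiset V → Prop) (ρ u : ℕ) (l : ℝ) :
    ((u : ℝ) + 1) * (2 * l * Ex (u + 1) (fun T => ind (Indep L (ρ + 1) T))
        - l ^ 2 * Ex u (fun T => ind (Indep L (ρ + 1) T)))
      ≤ ((u : ℝ) + 1) * Ex (u + 2) (fun T => ind (Indep L (ρ + 1) T))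
        + ρ * (Ex (u + 1) (fun T => ind (Indep L (ρ + 1) T))
          - Ex (u + 2) (fun T => ind (Indep L (ρ + 1) T))) := by
  have h1 : 𝔼 x : V, Ex (u + 1) (splitSum 1 (fun Y K =>
        ind (Indep L (ρ + 1) (Y + K)) * ind (Indep L (ρ + 1) (x ::ₘ K))))
      ≤ 𝔼 x : V, Ex (u + 1) (fun M => ((u : ℝ) + 1) * ind (Indep L (ρ + 1) (x ::ₘ M))
        + ρ * (ind (Indep L (ρ + 1) M) - ind (Indep L (ρ + 1) (x ::ₘ M)))) := by
    refine expect_le_expect (fun x _ => Ex_mono (fun M hM => ?_))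
    have := chain_point L ρ x M
    rw [hM] at this
    exact_mod_cast this
  simp only [Ex_add, Ex_mul, Ex_sub, expect_add_distrib, expect_sub_distrib, ← mul_expect,
    expect_const univ_nonempty, Ex_splitSum, Nat.choose_one_right, Nat.add_sub_cancel] at h1
  rw [← Ex_succ (u + 1) (fun T => ind (Indep L (ρ + 1) T))] at h1
  refine le_trans ?_ h1
  push_cast
  refine mul_le_mul_of_nonneg_left ?_ (by positivity)
  have h2 : 𝔼 x : V, Ex 1 (fun Y => Ex u (fun K =>
        ind (Indep L (ρ + 1) (Y + K)) * ind (Indep L (ρ + 1) (x ::ₘ K))))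
      = Ex u (fun K => (𝔼 y : V, ind (Indep L (ρ + 1) (y ::ₘ K))) ^ 2) := by
    simp only [Ex_succ 0, Ex_zero, Multiset.cons_add, zero_add, ← Ex_expect]
    refine Ex_congr (fun K _ => ?_)
    simp only [← expect_mul, ← mul_expect]
    ring
  rw [h2, Ex_succ', ← Ex_mul, ← Ex_mul, ← Ex_sub]
  refine Ex_mono (fun K _ => ?_)
  by_cases hK : Indep L (ρ + 1) K
  · rw [ind_pos hK]
    nlinarith [sq_nonneg (𝔼 y : V, ind (Indep L (ρ + 1) (y ::ₘ K)) - l)]
  · have h3 : 𝔼 y : V, ind (Indep L (ρ + 1) (y ::ₘ K)) = 0 := by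
      refine expect_eq_zero (fun y _ => ind_neg (fun h => hK (h.of_le ?_)))
      exact Multiset.le_cons_self _ _
    rw [ind_neg hK, h3]
    simp

lemma chain_small (L : Multiset V → Prop) {ρ t : ℕ} (ht : t ≤ ρ) :
    Ex t (fun T => ind (Indep L (ρ + 1) T)) = 1 := by
  rw [← Ex_const (V := V) t 1]
  refine Ex_congr (fun M hM => ind_pos (fun J hJ hc => ?_))
  have := Multiset.card_le_card hJ
  omega

lemma chain_ratio (L : Multiset V → Prop) (ρ t : ℕ) :
    Ex t (fun T => ind (Indep L (ρ + 1) T))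
        * (1 - Ex (ρ + 1) (fun J => ind (L J)) * t.choose ρ)
      ≤ Ex (t + 1) (fun T => ind (Indep L (ρ + 1) T)) := by
  rcases lt_or_ge t ρ with h | h
  · rw [chain_small L h.le, chain_small L h, Nat.choose_eq_zero_of_lt h]
    simp
  induction t, h using Nat.le_induction with
  | base =>
    rw [chain_small L le_rfl, Nat.choose_self, Nat.cast_one, mul_one, one_mul,
      ← Ex_const (V := V) (ρ + 1) 1, ← Ex_sub]
    refine Ex_mono (fun M hM => ?_)
    rw [← ind_not]
    refine ind_mono (fun h J hJ hc => ?_)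
    rwa [Multiset.eq_of_le_of_card_le hJ (by omega)]
  | succ u hu ih =>
    set p := Ex (ρ + 1) (fun J => ind (L J)) with hp
    set a := Ex u (fun T => ind (Indep L (ρ + 1) T)) with ha
    set b := Ex (u + 1) (fun T => ind (Indep L (ρ + 1) T)) with hb
    set d := Ex (u + 1 + 1) (fun T => ind (Indep L (ρ + 1) T)) with hd
    have ha0 : 0 ≤ a := Ex_nonneg (fun _ _ => ind_nonneg _)
    have hb0 : 0 ≤ b := Ex_nonneg (fun _ _ => ind_nonneg _)
    have hd0 : 0 ≤ d := Ex_nonneg (fun _ _ => ind_nonneg _)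
    have hc : (u.choose ρ : ℝ) * (u + 1) = ((u + 1).choose ρ : ℝ) * ((u : ℝ) + 1 - ρ) := by
      have := Nat.choose_mul_succ_eq u ρ
      have h2 : ((u + 1 - ρ : ℕ) : ℝ) = (u : ℝ) + 1 - ρ := by
        rw [Nat.cast_sub (by omega)]
        push_cast
        ring
      rw [← h2]
      exact_mod_cast this
    have hpos : (0 : ℝ) < (u : ℝ) + 1 - ρ := by
      have : (ρ : ℝ) ≤ u := by exact_mod_cast hu
      linarith
    rcases le_or_gt (1 - p * u.choose ρ) 0 with h0 | h0
    · have h3 : (u.choose ρ : ℝ) ≤ (u + 1).choose ρ := by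
        exact_mod_cast Nat.choose_le_succ u ρ
      have hp0 : 0 ≤ p := Ex_nonneg (fun _ _ => ind_nonneg _)
      have h4 : 1 - p * ((u + 1).choose ρ : ℝ) ≤ 0 := by nlinarith
      exact (mul_nonpos_of_nonneg_of_nonpos hb0 h4).trans hd0
    have h1 : ((u : ℝ) + 1) * (2 * (1 - p * u.choose ρ) * b - (1 - p * u.choose ρ) ^ 2 * a)
        ≤ ((u : ℝ) + 1) * d + ρ * (b - d) := chain_step L ρ u _
    have h2 : (1 - p * u.choose ρ) * b
        ≤ 2 * (1 - p * u.choose ρ) * b - (1 - p * u.choose ρ) ^ 2 * a := by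
      nlinarith [mul_le_mul_of_nonneg_left ih h0.le]
    have h3 := (mul_le_mul_of_nonneg_left h2 (by positivity : (0 : ℝ) ≤ (u : ℝ) + 1)).trans h1
    refine le_of_mul_le_mul_left ?_ hpos
    have h4 : ((u : ℝ) + 1 - ρ) * (b * (1 - p * ((u + 1).choose ρ : ℝ)))
        = ((u : ℝ) + 1 - ρ) * b - b * p * (((u + 1).choose ρ : ℝ) * ((u : ℝ) + 1 - ρ)) := by ring
    rw [h4, ← hc]
    nlinarith

/-- the density of independent `m`-sets -/
lemma chain_exp (L : Multiset V → Prop) (ρ m : ℕ)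
    (h : 2 * (Ex (ρ + 1) (fun J => ind (L J)) * m.choose ρ) ≤ 1) :
    Real.exp (-(2 * (Ex (ρ + 1) (fun J => ind (L J)) * m.choose (ρ + 1))))
      ≤ Ex m (fun T => ind (Indep L (ρ + 1) T)) := by
  have hp0 : 0 ≤ Ex (ρ + 1) (fun J => ind (L J)) := Ex_nonneg (fun _ _ => ind_nonneg _)
  induction m with
  | zero => rw [chain_small L (Nat.zero_le _)]; simp
  | succ t ih =>
    have h3 : (t.choose ρ : ℝ) ≤ (t + 1).choose ρ := by exact_mod_cast Nat.choose_le_succ t ρ
    have h4 : 2 * (Ex (ρ + 1) (fun J => ind (L J)) * t.choose ρ) ≤ 1 := by nlinarith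
    have h5 := one_sub_pow_ge (x := Ex (ρ + 1) (fun J => ind (L J)) * t.choose ρ)
      (by positivity) h4 1
    rw [pow_one, Nat.cast_one, mul_one] at h5
    refine le_trans ?_ (chain_ratio L ρ t)
    refine le_trans (le_of_eq ?_) (mul_le_mul (ih h4) h5 (Real.exp_pos _).le
      (Ex_nonneg (fun _ _ => ind_nonneg _)))
    rw [← Real.exp_add, Nat.choose_succ_succ']
    push_cast
    congr 1
    ring

/-- few sets `T` are independent in the link of `S` -/
theorem lower_chain {i ρ m : ℕ} (him : i + (ρ + 1) = m + 1) (g : Multiset V → Prop)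
    (hg : Hit i m g) (h : 4 * (Ex (m + 1) (fun M => ind (g M)) * m.choose ρ) ≤ 1) :
    Real.exp (-(4 * (Ex (m + 1) (fun M => ind (g M)) * m.choose (ρ + 1))))
      ≤ 2 * (i * Ex (m + 1) (fun M => ind (g M))) := by
  set δ := Ex (m + 1) (fun M => ind (g M)) with hδ
  have hδ0 : 0 ≤ δ := Ex_nonneg (fun _ _ => ind_nonneg _)
  set E := Real.exp (-(4 * (δ * m.choose (ρ + 1)))) with hE
  have hE0 : 0 < E := Real.exp_pos _
  have hs : δ = Ex i (fun S => Ex (ρ + 1) (fun J => ind (g (S + J)))) := by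
    rw [hδ, ← him, Ex_split]
  have h1 : ∀ S : Multiset V, S.card = i →
      E * (2 * δ - Ex (ρ + 1) (fun J => ind (g (S + J))))
        ≤ 2 * δ * Ex m (fun T => (S.map (fun s => ind (g (s ::ₘ T)))).sum) := by
    intro S hS
    set q := Ex (ρ + 1) (fun J => ind (g (S + J))) with hq
    have hq0 : 0 ≤ q := Ex_nonneg (fun _ _ => ind_nonneg _)
    have h2 : Ex m (fun T => ind (Indep (fun J => g (S + J)) (ρ + 1) T))
        ≤ Ex m (fun T => (S.map (fun s => ind (g (s ::ₘ T)))).sum) := by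
      refine Ex_mono (fun T hT => le_trans (ind_mono (fun hI => ?_)) (ind_le_mapsum _ S))
      rcases hg S T hS hT with ⟨J, hJ, hc, hgJ⟩ | h3
      · exact absurd hgJ (hI J hJ (by omega))
      · exact h3
    have h3 : 0 ≤ Ex m (fun T => ind (Indep (fun J => g (S + J)) (ρ + 1) T)) :=
      Ex_nonneg (fun _ _ => ind_nonneg _)
    rcases le_total q (2 * δ) with h4 | h4
    · have hc0 : (0 : ℝ) ≤ m.choose ρ := Nat.cast_nonneg _
      have hc1 : (0 : ℝ) ≤ m.choose (ρ + 1) := Nat.cast_nonneg _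
      have h5 := chain_exp (fun J => g (S + J)) ρ m (by nlinarith)
      have h6 : E ≤ Real.exp (-(2 * (q * m.choose (ρ + 1)))) :=
        Real.exp_le_exp.2 (by nlinarith)
      have h7 := (h6.trans h5).trans h2
      nlinarith [mul_le_mul_of_nonneg_left h7 hδ0, mul_nonneg hE0.le hq0]
    · nlinarith [mul_nonneg hδ0 (h3.trans h2), mul_nonneg hE0.le (sub_nonneg.2 h4)]
  have h2 := Ex_mono (m := i) h1
  rw [Ex_mul, Ex_sub, Ex_const, ← hs, Ex_mul, Ex_self_mapsum, ← hδ] at h2
  have h3 := lower_avg i m (by omega) g hg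
  rw [← hδ] at h3
  have h4 : 0 < δ := by
    rcases hδ0.eq_or_lt with h5 | h5
    · rw [← h5] at h3; norm_num at h3
    · exact h5
  refine le_of_mul_le_mul_left ?_ h4
  nlinarith

end Pool.Agent.P.MP_7badbe_co
end

-- part Pool.Agent.P.MP_7badbe_co.Un.LB
section

/-! A finite pool of points, and two bounds for cover-free families. -/

set_option autoImplicit false

open Finset
open scoped BigOperators

namespace Pool.Agent.P.MP_7badbe_co

open Classical in
lemma expect_count' {X A ι : Type} [Fintype X] [DecidableEq X] [Fintype A] [Nonempty A] {k : ℕ}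
    (γ : Multiset A → Prop) (s : Finset ι) (f : ι → Finset X) (hf : ∀ a ∈ s, (f a).card = k) :
    𝔼 χ : X → A, ((s.filter (fun a => γ ((f a).val.map χ))).card : ℝ)
      = s.card * Ex k (fun M => ind (γ M)) := by
  simp only [card_filter_ind]
  rw [expect_sum_comm, sum_congr rfl (fun a ha => by
    rw [expect_map (f a) (fun M => ind (γ M)), hf a ha]), sum_const, nsmul_eq_mul]

/-- the rows over a pool of `m + g + c` points -/
theorem pool {V : Type} [Fintype V] [Nonempty V] {i j m g c : ℕ} (him : i + j = m + 1)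
    (hg : g ≤ i) {γ : Multiset V → Prop} (hγ : Hit i m γ) {N : ℝ} (hN : 0 < N)
    (h : Ex (m + 1) (fun M => ind (γ M)) * (((m + g + c).choose (j + g) : ℝ) / N
      + ((i : ℝ) + (m + g + c : ℕ)) * ((m + g + c : ℕ) : ℝ) ^ (g + c)) < 1) :
    ∃ (X : Type) (_ : DecidableEq X) (W : Finset X) (R : Finset (Finset X)),
      W.card = m + g + c ∧ (R.card : ℝ) < N ∧ (∀ B ∈ R, B ⊆ W ∧ B.card = j + g) ∧
      ∀ Y Z : Finset X, Y ⊆ W → Z ⊆ W → Disjoint Y Z → Y.card = g → Z.card = c →
        ∃ B ∈ R, Y ⊆ B ∧ Disjoint B Z := by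
  classical
  set n := m + g + c with hn
  set δ := Ex (m + 1) (fun M => ind (γ M)) with hδ
  have hδ0 : 0 ≤ δ := Ex_nonneg (fun _ _ => ind_nonneg _)
  obtain ⟨S₀, -, hS₀⟩ := exists_subset_card_eq (s := (univ : Finset (Fin (i - g + n))))
    (n := i - g) (by simp)
  set W : Finset (Fin (i - g + n)) := univ \ S₀ with hW
  have hWc : W.card = n := by rw [hW, card_sdiff_of_subset (subset_univ _), hS₀]; simp
  have hd : ∀ B ⊆ W, Disjoint S₀ B := fun B hB => disjoint_sdiff.mono_right hB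
  set P := (univ ×ˢ powersetCard m W).filter (fun p => p.1 ∉ p.2) with hP
  have e1 := expect_count' (k := m + 1) γ (powersetCard (j + g) W) (fun B => S₀ ∪ B)
    (fun B hB => by
      obtain ⟨h1, h2⟩ := mem_powersetCard.1 hB
      rw [card_union_of_disjoint (hd B h1), hS₀, h2]; omega)
  have e2 := expect_count' (k := m + 1) γ P (fun p => insert p.1 p.2) (fun p hp => by
    obtain ⟨h1, h2⟩ := mem_filter.1 hp
    rw [card_insert_of_notMem h2, (mem_powersetCard.1 (mem_product.1 h1).2).2])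
  rw [card_powersetCard, hWc, ← hδ] at e1
  rw [← hδ] at e2
  have e3 : (P.card : ℝ) ≤ ((i : ℝ) + n) * (n : ℝ) ^ (g + c) := by
    have h1 : P.card ≤ (i + n) * n ^ (g + c) := by
      refine (card_filter_le _ _).trans ?_
      rw [card_product, card_powersetCard, hWc, card_univ, Fintype.card_fin]
      refine Nat.mul_le_mul (by omega) ?_
      rw [← Nat.choose_symm (by omega : m ≤ n), show n - m = g + c by omega]
      exact Nat.choose_le_pow _ _
    exact_mod_cast h1
  obtain ⟨χ, -, hχ⟩ := exists_lt_of_expect_lt (s := (univ : Finset (Fin (i - g + n) → V)))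
    (f := fun χ => (((powersetCard (j + g) W).filter
        (fun B => γ ((S₀ ∪ B).val.map χ))).card : ℝ) * N⁻¹
      + ((P.filter (fun p => γ ((insert p.1 p.2).val.map χ))).card : ℝ)) (a := 1)
    univ_nonempty (by
      rw [expect_add_distrib, ← expect_mul, e1, e2]
      refine lt_of_le_of_lt ?_ h
      rw [div_eq_mul_inv]
      nlinarith [mul_le_mul_of_nonneg_right e3 hδ0])
  have h0 : (0 : ℝ) ≤ (((powersetCard (j + g) W).filter
      (fun B => γ ((S₀ ∪ B).val.map χ))).card : ℝ) * N⁻¹ := by positivity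
  have h1 : P.filter (fun p => γ ((insert p.1 p.2).val.map χ)) = ∅ := by
    rw [← card_eq_zero, ← Nat.lt_one_iff]
    exact_mod_cast (show ((P.filter (fun p => γ ((insert p.1 p.2).val.map χ))).card : ℝ) < 1 by
      linarith)
  refine ⟨_, inferInstance, W, (powersetCard (j + g) W).filter
    (fun B => γ ((S₀ ∪ B).val.map χ)), hWc, ?_,
    fun B hB => mem_powersetCard.1 (mem_filter.1 hB).1, fun Y Z hY hZ hYZ hYc hZc => ?_⟩
  · rw [h1, card_empty, Nat.cast_zero, add_zero, ← div_eq_mul_inv, div_lt_one hN] at hχ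
    exact hχ
  have hT : (W \ (Y ∪ Z)).card = m := by
    rw [card_sdiff_of_subset (union_subset hY hZ), card_union_of_disjoint hYZ]; omega
  obtain ⟨e, he, hec, hor, hge⟩ := hitF_of_hit hγ χ (S₀ ∪ Y) (W \ (Y ∪ Z))
    (disjoint_union_left.2 ⟨hd _ sdiff_subset, disjoint_sdiff.mono_left subset_union_left⟩)
    (by rw [card_union_of_disjoint (hd Y hY), hS₀, hYc]; omega) hT
  rcases hor with h2 | h2
  · have h3 : S₀ ⊆ e := subset_union_left.trans h2
    refine ⟨e \ S₀, mem_filter.2 ⟨mem_powersetCard.2 ⟨fun x hx => ?_, ?_⟩, ?_⟩, fun x hx => ?_, ?_⟩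
    · exact mem_sdiff.2 ⟨mem_univ _, (mem_sdiff.1 hx).2⟩
    · rw [card_sdiff_of_subset h3, hec, hS₀]; omega
    · rwa [union_sdiff_of_subset h3]
    · exact mem_sdiff.2 ⟨h2 (mem_union_right _ hx), (mem_sdiff.1 (hY hx)).2⟩
    · refine disjoint_left.2 (fun x hx hxZ => ?_)
      obtain ⟨h4, h5⟩ := mem_sdiff.1 hx
      rcases mem_union.1 (he h4) with h6 | h6
      · rcases mem_union.1 h6 with h7 | h7
        · exact h5 h7
        · exact disjoint_left.1 hYZ h7 hxZ
      · exact (mem_sdiff.1 h6).2 (mem_union_right _ hxZ)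
  · obtain ⟨s, hs, rfl⟩ := exists_eq_insert_iff.2 ⟨h2, by rw [hT, hec]⟩
    refine absurd (mem_filter.2 ⟨mem_filter.2 ⟨mem_product.2 ⟨mem_univ s,
      mem_powersetCard.2 ⟨sdiff_subset, hT⟩⟩, hs⟩, hge⟩ :
        (s, W \ (Y ∪ Z)) ∈ P.filter (fun p => γ ((insert p.1 p.2).val.map χ))) ?_
    rw [h1]
    exact notMem_empty _

variable {X : Type} [DecidableEq X]

/-- few rows can all be avoided -/
lemma rows_greedy {W : Finset X} {R : Finset (Finset X)} {a g : ℕ} (hg : g ≤ a) (ha : a < W.card)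
    (h1 : ∀ B ∈ R, B ⊆ W ∧ B.card = a)
    (h2 : ∀ Y ⊆ W, Y.card = g → ∃ B ∈ R, Y ⊆ B) : g < R.card := by
  by_contra hc
  obtain ⟨S, h3, h4, h5⟩ := exists_transversal (R := W.card - a) (by omega)
    (R.image (fun B => W \ B)) (fun z hz => by
      obtain ⟨B, hB, rfl⟩ := mem_image.1 hz
      rw [card_sdiff_of_subset (h1 B hB).1, (h1 B hB).2])
  have h6 : S ⊆ W := h3.trans (biUnion_subset.2 (fun z hz => by
    obtain ⟨B, hB, rfl⟩ := mem_image.1 hz
    exact sdiff_subset))
  obtain ⟨Y, h7, h8, h9⟩ := exists_subsuperset_card_eq (n := g) h6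
    (h4.trans (card_image_le.trans (by omega))) (by omega)
  obtain ⟨B, hB, hY⟩ := h2 Y h8 h9
  obtain ⟨x, hx, hx'⟩ := h5 _ (mem_image_of_mem _ hB)
  exact (mem_sdiff.1 hx').2 (hY (h7 hx))

lemma cover_cols {W : Finset X} {C : Finset (Finset X)} {y : X} {τ : ℕ}
    (h : ∀ P ⊆ C, P.card ≤ τ → ∃ z ∈ W, z ≠ y ∧ ∀ B ∈ P, z ∈ B) (c : ℕ) :
    ∀ A ⊆ C, A.card ≤ c * τ → ∃ Z ⊆ W.erase y, Z.card ≤ c ∧ ∀ B ∈ A, ∃ z ∈ Z, z ∈ B := by
  induction c with
  | zero =>
    intro A _ hA
    rw [card_eq_zero.1 (by omega : A.card = 0)]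
    exact ⟨∅, by simp⟩
  | succ c ih =>
    intro A hA hc
    obtain ⟨P, hP, hPc⟩ := exists_subset_card_eq (s := A) (n := min τ A.card) (min_le_right _ _)
    obtain ⟨z, hz, hzy, hzP⟩ := h P (hP.trans hA) (hPc ▸ min_le_left _ _)
    obtain ⟨Z, h1, h2, h3⟩ := ih (A \ P) (sdiff_subset.trans hA) (by
      rw [card_sdiff_of_subset hP, hPc]
      rw [Nat.succ_mul] at hc
      omega)
    refine ⟨insert z Z, insert_subset (mem_erase.2 ⟨hzy, hz⟩) h1,
      (card_insert_le _ _).trans (by omega), fun B hB => ?_⟩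
    by_cases hBP : B ∈ P
    · exact ⟨z, mem_insert_self _ _, hzP B hBP⟩
    · obtain ⟨z', h4, h5⟩ := h3 B (mem_sdiff.2 ⟨hB, hBP⟩)
      exact ⟨z', mem_insert_of_mem h4, h5⟩

lemma card_small_subsets {ι : Type} (R : Finset ι) (τ : ℕ) {x : ℝ} (hx0 : 0 ≤ x) (hx1 : x ≤ 1) :
    ((R.powerset.filter (fun P => P.card ≤ τ)).card : ℝ) * x ^ τ ≤ Real.exp (x * R.card) := by
  classical
  calc _ = ∑ _P ∈ R.powerset.filter (fun P => P.card ≤ τ), x ^ τ := by
        rw [sum_const, nsmul_eq_mul]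
    _ ≤ ∑ P ∈ R.powerset.filter (fun P => P.card ≤ τ), x ^ P.card :=
        sum_le_sum (fun P hP => pow_le_pow_of_le_one hx0 hx1 (mem_filter.1 hP).2)
    _ ≤ ∑ P ∈ R.powerset, x ^ P.card :=
        sum_le_sum_of_subset_of_nonneg (filter_subset _ _) (fun _ _ _ => by positivity)
    _ = (1 + x) ^ R.card := by
        rw [← prod_const, prod_one_add]
        exact sum_congr rfl (fun P _ => by rw [prod_const])
    _ ≤ Real.exp x ^ R.card :=
        pow_le_pow_left₀ (by positivity) (by linarith [Real.add_one_le_exp x]) _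
    _ = _ := by rw [← Real.exp_nat_mul, mul_comm]

/-- private subsets in a cover-free family -/
lemma rows_private {W : Finset X} {R : Finset (Finset X)} {a c : ℕ} {x : ℝ} (hc : c < W.card)
    (hx0 : 0 < x) (hx1 : x ≤ 1) (hx : 2 * (a : ℝ) = x * (W.card * c)) (ha : 0 < a)
    (h1 : ∀ B ∈ R, B ⊆ W ∧ B.card = a)
    (h2 : ∀ y ∈ W, ∀ Z ⊆ W.erase y, Z.card = c → ∃ B ∈ R, y ∈ B ∧ Disjoint B Z) :
    Real.log (W.card / 2) ≤ x * R.card + (x * R.card + 1) * Real.log x⁻¹ := by
  classical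
  set τ := ⌈x * R.card⌉₊ with hτ
  set W' := W.filter (fun y => (R.filter (fun B => y ∈ B)).card ≤ c * τ) with hW'
  have hn : (0 : ℝ) < W.card := by exact_mod_cast (by omega : 0 < W.card)
  have hN : (0 : ℝ) < R.card := by
    obtain ⟨y, hy⟩ := card_pos.1 (by omega : 0 < W.card)
    obtain ⟨Z, h3, h4⟩ := exists_subset_card_eq (s := W.erase y) (n := c)
      (by rw [card_erase_of_mem hy]; omega)
    obtain ⟨B, hB, -⟩ := h2 y hy Z h3 h4
    exact_mod_cast card_pos.2 ⟨B, hB⟩
  have e1 : ∑ y ∈ W, (R.filter (fun B => y ∈ B)).card = R.card * a := by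
    simp only [card_filter]
    rw [sum_comm, sum_congr rfl (fun B hB => ?_), sum_const, smul_eq_mul]
    rw [← card_filter, filter_mem_eq_inter, inter_eq_right.2 (h1 B hB).1, (h1 B hB).2]
  have e2 : (W \ W').card * (c * τ) ≤ R.card * a := by
    rw [← e1, ← smul_eq_mul, ← sum_const]
    refine (sum_le_sum (fun y hy => ?_)).trans (sum_le_sum_of_subset sdiff_subset)
    obtain ⟨h3, h4⟩ := mem_sdiff.1 hy
    by_contra h5
    exact h4 (mem_filter.2 ⟨h3, by omega⟩)
  have e3 : (W.card : ℝ) / 2 ≤ W'.card := by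
    rw [card_sdiff_of_subset (filter_subset _ _)] at e2
    have h3 : ((W.card : ℝ) - W'.card) * (c * τ) ≤ R.card * a := by
      rw [← Nat.cast_sub (card_filter_le _ _)]
      exact_mod_cast e2
    have h4 : x * R.card ≤ τ := Nat.le_ceil _
    have h5 : (0 : ℝ) ≤ (W.card : ℝ) - W'.card :=
      sub_nonneg.2 (by exact_mod_cast card_filter_le _ _)
    have h6 : ((W.card : ℝ) - W'.card) * (c * (x * R.card)) ≤ R.card * a :=
      (mul_le_mul_of_nonneg_left (mul_le_mul_of_nonneg_left h4 (Nat.cast_nonneg c)) h5).trans h3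
    have ha' : (0 : ℝ) < a := by exact_mod_cast ha
    have h7 : ((W.card : ℝ) - W'.card) * 2 * (R.card * a) ≤ W.card * (R.card * a) := by
      have := mul_le_mul_of_nonneg_left h6 hn.le
      calc _ = ((W.card : ℝ) - W'.card) * R.card * (2 * a) := by ring
        _ = W.card * (((W.card : ℝ) - W'.card) * (c * (x * R.card))) := by rw [hx]; ring
        _ ≤ _ := this
    have := le_of_mul_le_mul_right h7 (by positivity)
    linarith
  have e4 : ∀ y ∈ W', ∃ P ⊆ R.filter (fun B => y ∈ B), P.card ≤ τ ∧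
      ∀ z ∈ W, z ≠ y → ¬ ∀ B ∈ P, z ∈ B := by
    intro y hy
    obtain ⟨h3, h4⟩ := mem_filter.1 hy
    by_contra h5
    push Not at h5
    obtain ⟨Z, h6, h7, h8⟩ := cover_cols h5 c _ Subset.rfl h4
    obtain ⟨Z', h9, h10, h11⟩ := exists_subsuperset_card_eq (n := c) h6 h7
      (by rw [card_erase_of_mem h3]; omega)
    obtain ⟨B, hB, hyB, hd⟩ := h2 y h3 Z' h10 h11
    obtain ⟨z, hz, hzB⟩ := h8 B (mem_filter.2 ⟨hB, hyB⟩)
    exact disjoint_left.1 hd hzB (h9 hz)
  choose! P hP using e4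
  have e5 : W'.card ≤ (R.powerset.filter (fun P => P.card ≤ τ)).card := by
    refine card_le_card_of_injOn P (fun y hy => ?_) (fun y hy z hz hyz => ?_)
    · exact mem_coe.2 (mem_filter.2 ⟨mem_powerset.2 ((hP y hy).1.trans (filter_subset _ _)),
        (hP y hy).2.1⟩)
    · by_contra h3
      refine (hP y hy).2.2 z (mem_filter.1 hz).1 (Ne.symm h3) (fun B hB => ?_)
      rw [hyz] at hB
      exact (mem_filter.1 ((hP z hz).1 hB)).2
  have e6 : (W.card : ℝ) / 2 * x ^ τ ≤ Real.exp (x * R.card) := by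
    refine le_trans (mul_le_mul_of_nonneg_right (e3.trans ?_) (by positivity))
      (card_small_subsets R τ hx0.le hx1)
    exact_mod_cast e5
  have e7 := Real.log_le_log (by positivity) e6
  rw [Real.log_mul (by positivity) (by positivity), Real.log_pow, Real.log_exp] at e7
  have e8 : (τ : ℝ) < x * R.card + 1 := Nat.ceil_lt_add_one (by positivity)
  have e9 : Real.log x ≤ 0 := Real.log_nonpos hx0.le hx1
  rw [Real.log_inv]
  nlinarith

end Pool.Agent.P.MP_7badbe_co
end
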