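import Mathlib

/-! Numerical lemmas for the uniform lower bound. -/

set_option autoImplicit false

namespace Pool.Agent.P.MP_7badbe_co

lemma le_choose_mid {m j : ℕ} (h1 : 1 ≤ j) (h2 : j < m) : m ≤ m.choose j := by
  induction m with
  | zero => omega
  | succ m ih =>
    rcases Nat.lt_succ_iff_lt_or_eq.1 h2 with h | rfl
    · obtain ⟨t, rfl⟩ : ∃ t, j = t + 1 := ⟨j - 1, by omega⟩
      rw [Nat.choose_succ_succ']
      have := ih h
      have := Nat.choose_pos (show t ≤ m by omega)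
      omega
    · rw [Nat.choose_succ_self_right]

lemma pow_le_choose_mul {a b : ℕ} (h : b ≤ a) : a ^ b ≤ a.choose b * b ^ b := by
  induction b generalizing a with
  | zero => simp
  | succ b ih =>
    obtain ⟨a, rfl⟩ : ∃ t, a = t + 1 := ⟨a - 1, by omega⟩
    have hb : b ≤ a := by omega
    have h1 := ih hb
    have h2 : ((a + 1) * b) ^ b ≤ (a * (b + 1)) ^ b := Nat.pow_le_pow_left (by nlinarith) b
    have h3 := Nat.add_one_mul_choose_eq a b
    rcases Nat.eq_zero_or_pos b with rfl | hb0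
    · simp
    refine Nat.le_of_mul_le_mul_right ?_ (pow_pos hb0 b)
    rw [mul_pow, mul_pow] at h2
    calc (a + 1) ^ (b + 1) * b ^ b = (a + 1) * ((a + 1) ^ b * b ^ b) := by ring
      _ ≤ (a + 1) * (a ^ b * (b + 1) ^ b) := Nat.mul_le_mul_left _ h2
      _ ≤ (a + 1) * (a.choose b * b ^ b * (b + 1) ^ b) :=
          Nat.mul_le_mul_left _ (Nat.mul_le_mul_right _ h1)
      _ = (a + 1) * a.choose b * (b + 1) ^ b * b ^ b := by ring
      _ = _ := by rw [h3]; ring

lemma log_choose_ge {a b : ℕ} (hb : 0 < b) (h : b ≤ a) :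
    b * Real.log ((a : ℝ) / b) ≤ Real.log (a.choose b) := by
  have hb' : (0 : ℝ) < b := by exact_mod_cast hb
  have ha' : (0 : ℝ) < a := by exact_mod_cast (by omega : 0 < a)
  rw [← Real.log_pow]
  refine Real.log_le_log (by positivity) ?_
  rw [div_pow, div_le_iff₀ (by positivity)]
  exact_mod_cast pow_le_choose_mul h

lemma choose_ratio {m b : ℕ} (hb : 2 * b ≤ m + 1) (c : ℕ) :
    ((m + c).choose b : ℝ) ≤ Real.exp (2 * b / (m + 1)) ^ c * m.choose b := by
  induction c with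
  | zero => simp
  | succ c ih =>
    have hb' : 2 * (b : ℝ) ≤ m + 1 := by exact_mod_cast hb
    have hc' : (0 : ℝ) ≤ c := Nat.cast_nonneg _
    have hb0 : (0 : ℝ) ≤ b := Nat.cast_nonneg _
    have hm : (0 : ℝ) < m + 1 := by positivity
    have h1 : ((m + c).choose b : ℝ) * (m + c + 1)
        = ((m + c + 1).choose b : ℝ) * ((m : ℝ) + c + 1 - b) := by
      have h2 : ((m + c + 1 - b : ℕ) : ℝ) = (m : ℝ) + c + 1 - b := by
        rw [Nat.cast_sub (by omega)]; push_cast; ring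
      rw [← h2]
      exact_mod_cast Nat.choose_mul_succ_eq (m + c) b
    have h2 : (m : ℝ) + c + 1 ≤ Real.exp (2 * b / (m + 1)) * ((m : ℝ) + c + 1 - b) := by
      refine le_trans ?_ (mul_le_mul_of_nonneg_right (Real.add_one_le_exp _) (by linarith))
      have h3 : (b : ℝ) ≤ 2 * b / (m + 1) * ((m : ℝ) + c + 1 - b) := by
        rw [div_mul_eq_mul_div, le_div_iff₀ hm]
        nlinarith [mul_nonneg hb0 hc', mul_le_mul_of_nonneg_left hb' hb0]
      linarith
    have h3 : (0 : ℝ) < (m : ℝ) + c + 1 - b := by linarith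
    have h4 : ((m + c + 1).choose b : ℝ) ≤ Real.exp (2 * b / (m + 1)) * (m + c).choose b := by
      refine le_of_mul_le_mul_right ?_ h3
      rw [← h1]
      nlinarith [mul_le_mul_of_nonneg_left h2 (Nat.cast_nonneg ((m + c).choose b) : (0 : ℝ) ≤ _)]
    rw [pow_succ', mul_assoc]
    exact h4.trans (mul_le_mul_of_nonneg_left ih (Real.exp_pos _).le)

lemma choose_ratio8 {m b c : ℕ} (hb : 2 * b ≤ m + 1) (hc : c * b ≤ m + 1) :
    ((m + c).choose b : ℝ) ≤ 8 * m.choose b := by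
  refine (choose_ratio hb c).trans (mul_le_mul_of_nonneg_right ?_ (Nat.cast_nonneg _))
  have hc' : (c : ℝ) * b ≤ m + 1 := by exact_mod_cast hc
  rw [← Real.exp_nat_mul]
  have h1 : (c : ℝ) * (2 * b / (m + 1)) ≤ 1 + 1 := by
    rw [← mul_div_assoc, div_le_iff₀ (by positivity)]; nlinarith
  refine (Real.exp_le_exp.2 h1).trans ?_
  rw [Real.exp_add]
  nlinarith [Real.exp_one_lt_d9, Real.exp_pos 1]

lemma log_big {k : ℕ} (hk : 10 ^ 8 ≤ k) : 16 ≤ Real.log k := by
  have h1 : (2 : ℝ) ^ 24 ≤ k := by exact_mod_cast le_trans (by norm_num) hk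
  have h2 := Real.log_le_log (by positivity) h1
  rw [Real.log_pow] at h2
  push_cast at h2
  linarith [Real.log_two_gt_d9]

lemma log_le_half {x : ℝ} (hx : 0 < x) : Real.log x ≤ x / 2 := by
  have h1 := Real.log_le_sub_one_of_pos (show 0 < x / 2 by positivity)
  rw [Real.log_div hx.ne' two_ne_zero] at h1
  linarith [Real.log_two_lt_d9]

/-- comparison of cubes in logarithms -/
lemma log_cube {k u : ℕ} (hu : 0 < u) (h : u ^ 3 ≤ k ^ 2) :
    3 * Real.log u ≤ 2 * Real.log k := by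
  have h1 : (u : ℝ) ^ 3 ≤ (k : ℝ) ^ 2 := by exact_mod_cast h
  have h2 := Real.log_le_log (by positivity) h1
  rw [Real.log_pow, Real.log_pow] at h2
  exact_mod_cast h2

lemma third_le {k u : ℕ} (hk : 10 ^ 8 ≤ k) (hu : 0 < u) (h : u ^ 3 ≤ k ^ 2) :
    (k : ℝ) / u * Real.log k / Real.log (2 * ((k : ℝ) / u)) ≤ 3 * ((k : ℝ) / u) := by
  have hk0 : (0 : ℝ) < k := by exact_mod_cast (by omega : 0 < k)
  have hu0 : (0 : ℝ) < u := by exact_mod_cast hu
  have h1 := log_cube hu h
  have h2 := log_big hk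
  have h3 : Real.log (2 * ((k : ℝ) / u)) = Real.log 2 + (Real.log k - Real.log u) := by
    rw [Real.log_mul two_ne_zero (by positivity), Real.log_div hk0.ne' hu0.ne']
  have h4 := Real.log_two_gt_d9
  rw [div_le_iff₀ (by rw [h3]; linarith), h3]
  have h5 : (0 : ℝ) < (k : ℝ) / u := by positivity
  nlinarith

/-- the range of small `j` -/
lemma chain_num {m i j : ℕ} (hk : 10 ^ 8 ≤ m + 1) (hj : 2 ≤ j) (hij : i + j = m + 1)
    (hi : 1 ≤ i) (h3 : j ^ 3 ≤ (m + 1) ^ 2) {δ : ℝ}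
    (h : Real.exp (-(4 * (δ * m.choose j))) ≤ 2 * (i * δ)) :
    j * Real.log (m + 1 : ℕ) / 100 ≤ δ * m.choose j := by
  by_contra hc
  push Not at hc
  have hl := log_big hk
  clear hk
  have h1 := log_cube (by omega) h3
  have h2 := log_choose_ge (a := m) (b := j) (by omega) (by omega)
  set l := Real.log (m + 1 : ℕ) with hl'
  have hj' : (2 : ℝ) ≤ j := by exact_mod_cast hj
  have hm' : (1 : ℝ) ≤ m := by exact_mod_cast (by omega : 1 ≤ m)
  have hi' : (i : ℝ) ≤ (m + 1 : ℕ) := by exact_mod_cast (by omega : i ≤ m + 1)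
  have hk0 : (0 : ℝ) < (m + 1 : ℕ) := by positivity
  have hB : (0 : ℝ) < m.choose j := by exact_mod_cast Nat.choose_pos (by omega)
  have hδ : 0 < δ := by
    by_contra h4
    have := mul_nonpos_of_nonneg_of_nonpos (Nat.cast_nonneg i : (0 : ℝ) ≤ i) (not_lt.1 h4)
    linarith [Real.exp_pos (-(4 * (δ * m.choose j)))]
  have h4 : Real.exp (-(4 * (δ * m.choose j))) * m.choose j ≤ (m + 1 : ℕ) * (j * l) := by
    calc _ ≤ 2 * (i * δ) * m.choose j := mul_le_mul_of_nonneg_right h hB.le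
      _ = i * (2 * (δ * m.choose j)) := by ring
      _ ≤ _ := mul_le_mul hi' (by nlinarith) (by positivity) hk0.le
  have h5 := Real.log_le_log (by positivity) h4
  rw [Real.log_mul (by positivity) hB.ne', Real.log_exp, Real.log_mul hk0.ne' (by positivity),
    Real.log_mul (by positivity) (by positivity), ← hl'] at h5
  have h6 : Real.log l ≤ 4 * Real.log 2 + l / 16 - 1 := by
    have h6 := Real.log_le_sub_one_of_pos (show 0 < l / 2 ^ 4 by positivity)
    rw [Real.log_div (by positivity) (by positivity), Real.log_pow] at h6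
    push_cast at h6
    linarith
  have h7 : l - Real.log 2 - Real.log j ≤ Real.log ((m : ℝ) / j) := by
    rw [Real.log_div (by positivity) (by positivity), hl', ← Real.log_div hk0.ne' two_ne_zero]
    refine sub_le_sub_right (Real.log_le_log (by positivity) ?_) _
    push_cast
    linarith
  have h8 := Real.log_two_lt_d9
  have h9 := mul_le_mul_of_nonneg_left h7 (by positivity : (0 : ℝ) ≤ j)
  have key : j * (l - Real.log 2 - Real.log j - l / 25) ≤ l + Real.log j + Real.log l := by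
    linarith
  rcases le_total j 8 with h10 | h10
  · have h11 : Real.log j ≤ 3 * Real.log 2 := by
      have : (j : ℝ) ≤ 2 ^ 3 := by exact_mod_cast h10
      have := Real.log_le_log (by positivity) this
      rw [Real.log_pow] at this
      exact_mod_cast this
    have := mul_le_mul_of_nonneg_right hj'
      (show 0 ≤ l - Real.log 2 - Real.log j - l / 25 by linarith)
    linarith
  · have h11 : (8 : ℝ) ≤ j := by exact_mod_cast h10
    have := mul_le_mul_of_nonneg_right h11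
      (show 0 ≤ l - Real.log 2 - Real.log j - l / 25 by linarith)
    linarith

/-- `T`-edges are rare: logarithmic form -/
lemma tedge_of_log {k i n t : ℕ} {B : ℝ} (hk : 0 < k) (hi : i ≤ k) (hn : n ≤ 2 * k) (hB : 0 < B)
    (h : 2 + 2 * Real.log k + t * (1 + Real.log k) ≤ Real.log B) :
    k * (((i : ℝ) + n) * (n : ℝ) ^ t) ≤ B / 2 := by
  have hk0 : (0 : ℝ) < k := by exact_mod_cast hk
  have hi' : (i : ℝ) ≤ k := by exact_mod_cast hi
  have hn' : (n : ℝ) ≤ 2 * k := by exact_mod_cast hn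
  have h1 : Real.exp 1 * k = Real.exp (1 + Real.log k) := by rw [Real.exp_add, Real.exp_log hk0]
  have h2 := Real.exp_one_gt_d9
  have h3 : (n : ℝ) ^ t ≤ Real.exp (t * (1 + Real.log k)) := by
    rw [Real.exp_nat_mul, ← h1]
    exact pow_le_pow_left₀ (Nat.cast_nonneg _) (by nlinarith) _
  have h4 : 2 * (k * ((i : ℝ) + n)) ≤ Real.exp (2 + 2 * Real.log k) := by
    rw [show 2 + 2 * Real.log k = (1 + Real.log k) + (1 + Real.log k) by ring, Real.exp_add, ← h1]
    nlinarith [mul_pos hk0 hk0, mul_le_mul_of_nonneg_left (add_le_add hi' hn') hk0.le,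
      mul_le_mul_of_nonneg_right (show 6 ≤ Real.exp 1 * Real.exp 1 by nlinarith)
        (mul_pos hk0 hk0).le]
  have h5 := Real.exp_le_exp.2 h
  rw [Real.exp_log hB, Real.exp_add] at h5
  have h6 := mul_le_mul h4 h3 (by positivity) (Real.exp_pos _).le
  linarith

lemma tedge_small {m i g : ℕ} (hk : 10 ^ 8 ≤ m + 1) (hg : 1 ≤ g) (hgi : 12 * g ≤ i - 1)
    (h2 : 2 * i ≤ m + 1) (h3 : i ^ 3 ≤ (m + 1) ^ 2) :
    2 + 2 * Real.log (m + 1 : ℕ) + g * (1 + Real.log (m + 1 : ℕ)) ≤ Real.log (m.choose (i - 1)) := by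
  obtain ⟨b, rfl⟩ : ∃ b, i = b + 1 := ⟨i - 1, by omega⟩
  rw [Nat.add_sub_cancel] at hgi ⊢
  have hl := log_big hk
  clear hk
  have h4 := log_cube (by omega) h3
  refine le_trans ?_ (log_choose_ge (by omega) (by omega))
  have hb : (0 : ℝ) < b := by exact_mod_cast (by omega : 0 < b)
  have hbm : (b : ℝ) ≤ m := by exact_mod_cast (by omega : b ≤ m)
  have h5 : Real.log (m + 1 : ℕ) - Real.log (b + 1 : ℕ) ≤ Real.log ((m : ℝ) / b) := by
    rw [← Real.log_div (by positivity) (by positivity)]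
    refine Real.log_le_log (by positivity) ?_
    rw [div_le_div_iff₀ (by positivity) hb]
    push_cast
    nlinarith
  have hg' : (1 : ℝ) ≤ g := by exact_mod_cast hg
  have hgi' : 12 * (g : ℝ) ≤ b := by exact_mod_cast hgi
  set l := Real.log (m + 1 : ℕ)
  have h6 : l / 3 ≤ Real.log ((m : ℝ) / b) := by linarith
  nlinarith [mul_le_mul hgi' h6 (by linarith) hb.le,
    mul_le_mul_of_nonneg_right hg' (show 0 ≤ 3 * l - 1 by linarith)]

lemma tedge_mid {m u b c : ℕ} (hk : 10 ^ 8 ≤ m + 1) (hu : (m + 1) ^ 2 < u ^ 3)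
    (hb : u ≤ b + 1) (h2 : 2 * b ≤ m + 1) (hc : c * u ≤ m + 1) :
    2 + 2 * Real.log (m + 1 : ℕ) + (c + 1 : ℕ) * (1 + Real.log (m + 1 : ℕ))
      ≤ Real.log (m.choose b) := by
  have hu1 : 160000 ≤ u := by
    by_contra h
    have h3 : u ^ 3 ≤ 160000 ^ 3 := Nat.pow_le_pow_left (by omega) 3
    have h4 : (10 ^ 8) ^ 2 ≤ (m + 1) ^ 2 := Nat.pow_le_pow_left hk 2
    omega
  clear hk
  have hc2 : c ^ 2 ≤ u := by
    have h3 : (c * u) ^ 2 ≤ (m + 1) ^ 2 := Nat.pow_le_pow_left hc 2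
    have h4 : c ^ 2 * u ^ 2 ≤ u * u ^ 2 := by
      calc _ = (c * u) ^ 2 := by ring
        _ ≤ u ^ 3 := h3.trans hu.le
        _ = _ := by ring
    exact Nat.le_of_mul_le_mul_right h4 (by positivity)
  refine le_trans ?_ (log_choose_ge (by omega) (by omega))
  have hu' : (160000 : ℝ) ≤ u := by exact_mod_cast hu1
  have hb' : (u : ℝ) ≤ b + 1 := by exact_mod_cast hb
  have h2' : 2 * (b : ℝ) ≤ m + 1 := by exact_mod_cast h2
  have hb0 : (0 : ℝ) < b := by linarith
  have h5 : 1 / 3 ≤ Real.log ((m : ℝ) / b) := by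
    refine le_trans ?_ (Real.one_sub_inv_le_log_of_pos (div_pos (by linarith) hb0))
    have : ((m : ℝ) / b)⁻¹ ≤ 2 / 3 := by
      rw [inv_div, div_le_div_iff₀ (by linarith) (by norm_num)]
      linarith
    linarith
  obtain ⟨v, hv0, hv⟩ : ∃ v : ℝ, 0 < v ∧ v ^ 4 = u :=
    ⟨√√(u : ℝ), by positivity, by
      rw [show (4 : ℕ) = 2 * 2 by rfl, pow_mul, Real.sq_sqrt (Real.sqrt_nonneg _),
        Real.sq_sqrt (Nat.cast_nonneg _)]⟩
  have hv1 : 20 ≤ v := by
    by_contra h
    have := pow_lt_pow_left₀ (not_le.1 h) hv0.le (show 4 ≠ 0 by norm_num)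
    linarith
  have hcv : (c : ℝ) ≤ v ^ 2 := by
    refine le_of_sq_le_sq ?_ (by positivity)
    rw [← pow_mul, hv]
    exact_mod_cast hc2
  have hl : Real.log (m + 1 : ℕ) ≤ 6 * v := by
    have h3 : ((m + 1 : ℕ) : ℝ) ^ 2 ≤ (u : ℝ) ^ 3 := by exact_mod_cast hu.le
    have h4 := Real.log_le_log (by positivity) h3
    rw [← hv, ← pow_mul, Real.log_pow, Real.log_pow] at h4
    have := Real.log_le_sub_one_of_pos hv0
    push_cast at h4 ⊢
    linarith
  have hl0 : 0 ≤ Real.log (m + 1 : ℕ) := Real.log_natCast_nonneg _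
  have h6 : ((c + 1 : ℕ) : ℝ) * (1 + Real.log (m + 1 : ℕ)) ≤ (v ^ 2 + 1) * (1 + 6 * v) :=
    mul_le_mul (by push_cast; linarith) (by linarith) (by linarith) (by positivity)
  have h7 : 20 * v ^ 3 ≤ v ^ 4 := by nlinarith [pow_pos hv0 3]
  have h8 : 20 * v ^ 2 ≤ v ^ 3 := by nlinarith [pow_pos hv0 2]
  have h9 : 20 * v ≤ v ^ 2 := by nlinarith
  nlinarith [mul_le_mul_of_nonneg_left h5 hb0.le]

/-- the middle range -/
lemma cff_num {k u a c : ℕ} {N μ x : ℝ} (hk : 10 ^ 8 ≤ k) (hu : k ^ 2 < u ^ 3) (h2 : 2 * u ≤ k)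
    (hc : c = k / u) (ha : u ≤ a) (hN0 : 0 ≤ N) (hN : N ≤ 16 * μ * (k + c : ℕ) / a)
    (hx : 2 * (a : ℝ) = x * ((k + c : ℕ) * c)) (hx1 : x ≤ 1)
    (h : Real.log ((k + c : ℕ) / 2) ≤ x * N + (x * N + 1) * Real.log x⁻¹) :
    (k : ℝ) / u * Real.log k / Real.log (2 * ((k : ℝ) / u)) ≤ 768 * μ := by
  have hu0 : 0 < u := by
    rcases Nat.eq_zero_or_pos u with rfl | h3
    · simp at hu
    · exact h3
  have hc1 : c * u ≤ k := hc ▸ Nat.div_mul_le_self k u
  have hc2 : k < (c + 1) * u := by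
    rw [hc, mul_comm]; exact Nat.lt_mul_div_succ k hu0
  have hc3 : 2 ≤ c := hc ▸ (Nat.le_div_iff_mul_le hu0).2 h2
  have hc4 : c ≤ k := hc ▸ Nat.div_le_self k u
  have hk' : (0 : ℝ) < k := by exact_mod_cast (by omega : 0 < k)
  have hu' : (0 : ℝ) < u := by exact_mod_cast hu0
  have ha' : (u : ℝ) ≤ a := by exact_mod_cast ha
  have hc' : (2 : ℝ) ≤ c := by exact_mod_cast hc3
  have hck : (c : ℝ) ≤ k := by exact_mod_cast hc4
  set w : ℝ := (k : ℝ) / u with hw
  have hcw : (c : ℝ) ≤ w := by rw [hw, le_div_iff₀ hu']; exact_mod_cast hc1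
  have hwc : w ≤ 2 * c := by
    have : w ≤ c + 1 := by rw [hw, div_le_iff₀ hu']; exact_mod_cast hc2.le
    linarith
  have hwu : w * u = k := by rw [hw]; field_simp
  push_cast at hN hx h
  have hx0 : 0 < x := by
    by_contra h3
    have := mul_nonpos_of_nonpos_of_nonneg (not_lt.1 h3)
      (by positivity : (0 : ℝ) ≤ ((k : ℝ) + c) * c)
    linarith
  have e1 : x * N * c ≤ 32 * μ := by
    rw [le_div_iff₀ (by linarith)] at hN
    refine le_of_mul_le_mul_right ?_ (show (0 : ℝ) < k + c by positivity)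
    calc x * N * c * (k + c) = N * (x * ((k + c) * c)) := by ring
      _ = 2 * (N * a) := by rw [← hx]; ring
      _ ≤ _ := by linarith
  have e2 : Real.log x⁻¹ ≤ 2 * Real.log w := by
    have h3 : x⁻¹ ≤ w ^ 2 := by
      rw [inv_le_iff_one_le_mul₀' hx0]
      refine le_of_mul_le_mul_right ?_ (show (0 : ℝ) < 2 * u by positivity)
      have h4 : ((k : ℝ) + c) * c ≤ 2 * k * w := mul_le_mul (by linarith) hcw (by linarith)
        (by positivity)
      calc 1 * (2 * (u : ℝ)) ≤ x * ((k + c) * c) := by linarith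
        _ ≤ x * (2 * k * w) := mul_le_mul_of_nonneg_left h4 hx0.le
        _ = _ := by rw [← hwu]; ring
    have := Real.log_le_log (by positivity) h3
    rwa [Real.log_pow] at this
  have e3 : 0 ≤ Real.log x⁻¹ := Real.log_nonneg ((one_le_inv₀ hx0).2 hx1)
  have e4 : 3 * Real.log w ≤ Real.log k := by
    have h3 : (k : ℝ) ^ 2 ≤ (u : ℝ) ^ 3 := by exact_mod_cast hu.le
    have h4 := Real.log_le_log (by positivity) h3
    rw [Real.log_pow, Real.log_pow] at h4
    rw [hw, Real.log_div hk'.ne' hu'.ne']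
    push_cast at h4
    linarith
  have e5 : Real.log k - Real.log 2 ≤ Real.log (((k : ℝ) + c) / 2) := by
    rw [← Real.log_div hk'.ne' two_ne_zero]
    exact Real.log_le_log (by positivity) (by linarith)
  have e6 : Real.log (2 * w) = Real.log 2 + Real.log w :=
    Real.log_mul two_ne_zero (by linarith : (0 : ℝ) < w).ne'
  have e7 : Real.log 2 ≤ Real.log w := Real.log_le_log two_pos (by linarith)
  have hl := log_big hk
  have l1 := Real.log_two_gt_d9
  have l2 := Real.log_two_lt_d9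
  have hxN : 0 ≤ x * N := by positivity
  have e8 : Real.log k / 4 ≤ x * N * (3 * Real.log (2 * w)) := by
    nlinarith [mul_le_mul_of_nonneg_left
      (show 1 + Real.log x⁻¹ ≤ 3 * Real.log (2 * w) by linarith) hxN]
  have hL : 0 < Real.log (2 * w) := by linarith
  rw [div_le_iff₀ hL]
  have e9 : x * N * w ≤ 64 * μ := by nlinarith [mul_le_mul_of_nonneg_left hwc hxN]
  nlinarith [mul_le_mul_of_nonneg_left e8 (show 0 ≤ w by linarith),
    mul_le_mul_of_nonneg_right e9 hL.le]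

end Pool.Agent.P.MP_7badbe_co
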