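import Pool.Agent.K.MP_7badbe_co.C2

-- part Pool.Agent.P.MP_7badbe_co.Un.U1
section

set_option autoImplicit false

open Finset Filter Topology
open scoped BigOperators

namespace Pool.Agent.P.MP_7badbe_co

lemma ind_le_sum_U1 {B : Type} (s : Finset B) (P : B → Prop) :
    ind (∃ v ∈ s, P v) ≤ ∑ v ∈ s, ind (P v) := ind_le_mapsum P s.val

variable {V A : Type} [Fintype V] [DecidableEq V] [AddCommGroup A] [Fintype A]

lemma coll_U1 {J J' : Finset V} (hc : J.card = J'.card) (hne : J ≠ J') :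
    𝔼 h : V → A, ind (∑ x ∈ J, h x = ∑ x ∈ J', h x) = 1 / Fintype.card A := by
  obtain ⟨x, hx, hx'⟩ : ∃ x ∈ J, x ∉ J' := by
    by_contra hcon
    push Not at hcon
    exact hne (eq_of_subset_of_card_le hcon hc.ge)
  rw [expect_update x, expect_comm]
  rw [← expect_const (univ_nonempty (α := V → A)) (1 / (Fintype.card A : ℝ))]
  refine expect_congr rfl (fun h _ => ?_)
  have h1 := av_mem ({-(∑ y ∈ J', h y - ∑ y ∈ J \ {x}, h y)} : Finset A) 0
  simp only [card_singleton, Nat.cast_one] at h1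
  rw [← h1]
  refine expect_congr rfl (fun v _ => ind_congr ?_)
  rw [sum_update_of_mem hx, sum_update_of_notMem hx', mem_singleton, zero_sub, neg_inj,
    eq_sub_iff_add_eq]

omit [AddCommGroup A] in
lemma miss_U1 [DecidableEq A] (M : ℕ) [NeZero M] (s : Finset A) :
    𝔼 c : A → Fin M, ind (∀ a ∈ s, ¬ c a = 0) = (1 - 1 / M : ℝ) ^ s.card := by
  have h5 := expect_map (A := Fin M) s (fun T => ind (∀ t ∈ T, ¬ t = 0))
  rw [Ex_all] at h5
  simp only [Multiset.forall_mem_map_iff, mem_val, ind_not (_ = (0 : Fin M)),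
    expect_sub_distrib, expect_const univ_nonempty, av_zero] at h5
  exact h5

/-- some shift of the sums of the `j`-subsets of `T` misses the colour `0` -/
def BadU1 {M : ℕ} [NeZero M] (j : ℕ) (ω : (V → A) × (A → Fin M)) (T : Finset V) : Prop :=
  ∃ a : A, ∀ J ∈ powersetCard j T, ¬ ω.2 (a + ∑ x ∈ J, ω.1 x) = 0

lemma bad_U1 [DecidableEq A] (M : ℕ) [NeZero M] (j : ℕ) (T : Finset V) :
    𝔼 ω : (V → A) × (A → Fin M), ind (BadU1 j ω T)
      ≤ (T.card.choose j : ℝ) ^ 2 / Fintype.card A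
        + Fintype.card A * (1 - 1 / M : ℝ) ^ T.card.choose j := by
  have hM : (1 : ℝ) ≤ M := by exact_mod_cast NeZero.one_le
  have h0 : (0 : ℝ) ≤ 1 - 1 / M := by
    rw [sub_nonneg, div_le_one (by linarith)]; exact hM
  set P := powersetCard j T with hP
  have h1 : ∀ h : V → A, 𝔼 c : A → Fin M, ind (BadU1 j (h, c) T)
      ≤ ∑ J ∈ P, ∑ J' ∈ P, ind (J ≠ J' ∧ ∑ x ∈ J, h x = ∑ x ∈ J', h x)
        + Fintype.card A * (1 - 1 / M : ℝ) ^ T.card.choose j := by
    intro h
    have h2 : 0 ≤ ∑ J ∈ P, ∑ J' ∈ P, ind (J ≠ J' ∧ ∑ x ∈ J, h x = ∑ x ∈ J', h x) :=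
      sum_nonneg fun _ _ => sum_nonneg fun _ _ => ind_nonneg _
    by_cases hi : ∃ J ∈ P, ∃ J' ∈ P, J ≠ J' ∧ ∑ x ∈ J, h x = ∑ x ∈ J', h x
    · have h3 := (ind_le_sum_U1 P _).trans (sum_le_sum fun J _ => ind_le_sum_U1 P
        (fun J' => J ≠ J' ∧ ∑ x ∈ J, h x = ∑ x ∈ J', h x))
      rw [ind_pos hi] at h3
      refine (av_ind_le_one _).trans (h3.trans (le_add_of_nonneg_right (by positivity)))
    · refine le_trans ?_ (le_add_of_nonneg_left h2)
      have h3 : ∀ c : A → Fin M, ind (BadU1 j (h, c) T)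
          ≤ ∑ a : A, ind (∀ b ∈ P.image (fun J => a + ∑ x ∈ J, h x), ¬ c b = 0) := by
        intro c
        refine le_trans (ind_mono ?_) (ind_le_sum_U1 univ _)
        rintro ⟨a, ha⟩
        exact ⟨a, mem_univ _, forall_mem_image.2 ha⟩
      refine (expect_le_expect fun c _ => h3 c).trans (le_of_eq ?_)
      rw [expect_sum_comm, sum_congr rfl (fun a _ => by
        rw [miss_U1, card_image_of_injOn (fun J hJ J' hJ' hs => by
          by_contra hne
          exact hi ⟨J, hJ, J', hJ', hne, add_left_cancel hs⟩), hP, card_powersetCard]),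
        sum_const, card_univ, nsmul_eq_mul]
  rw [← univ_product_univ, expect_product]
  refine (expect_le_expect fun h _ => h1 h).trans ?_
  rw [expect_add_distrib, expect_const univ_nonempty, expect_sum_comm]
  refine add_le_add ?_ le_rfl
  have h4 : ∀ J ∈ P, 𝔼 h : V → A, ∑ J' ∈ P, ind (J ≠ J' ∧ ∑ x ∈ J, h x = ∑ x ∈ J', h x)
      ≤ T.card.choose j * (1 / Fintype.card A) := by
    intro J hJ
    rw [expect_sum_comm, ← card_powersetCard, ← nsmul_eq_mul]
    refine sum_le_card_nsmul _ _ _ fun J' hJ' => ?_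
    by_cases hne : J = J'
    · refine expect_le univ_nonempty fun h _ => ?_
      rw [ind_neg (fun h => h.1 hne)]
      positivity
    · rw [← coll_U1 (A := A) ((mem_powersetCard.1 hJ).2.trans (mem_powersetCard.1 hJ').2.symm) hne]
      exact expect_le_expect fun h _ => ind_mono And.right
  refine (sum_le_card_nsmul _ _ _ h4).trans (le_of_eq ?_)
  rw [hP, card_powersetCard, nsmul_eq_mul]
  ring

theorem hash_U1 {m i j : ℕ} (hi : 1 ≤ i) (hij : i + j = m + 1) {p : ℝ}
    (hp : Tendsto (fun n : ℕ => (exF (m + 1) i n : ℝ) / n.choose (m + 1)) atTop (𝓝 p))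
    (N M : ℕ) [NeZero N] [NeZero M] :
    1 - p ≤ 1 / M + (m + 1) * ((m.choose j : ℝ) ^ 2 / N + N * (1 - 1 / M : ℝ) ^ m.choose j) := by
  refine upper_transfer hp fun n => ⟨(Fin n → ZMod N) × (ZMod N → Fin M), inferInstance,
    inferInstance, fun ω e => ω.2 (∑ x ∈ e, ω.1 x) = 0 ∨ ∃ s ∈ e, BadU1 j ω (e.erase s),
    fun ω S T hd hS hT => ?_, fun e he => ?_⟩
  · by_cases hb : BadU1 j ω T
    · obtain ⟨s, hs⟩ := card_pos.1 (show 0 < S.card by omega)
      have h1 : s ∉ T := disjoint_left.1 hd hs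
      refine ⟨insert s T, insert_subset (mem_union_left _ hs) subset_union_right,
        by rw [card_insert_of_notMem h1, hT], Or.inr (subset_insert _ _),
        Or.inr ⟨s, mem_insert_self _ _, by rwa [erase_insert h1]⟩⟩
    · unfold BadU1 at hb
      push Not at hb
      obtain ⟨J, hJ, h1⟩ := hb (∑ x ∈ S, ω.1 x)
      obtain ⟨h2, h3⟩ := mem_powersetCard.1 hJ
      have h4 : Disjoint S J := hd.mono_right h2
      refine ⟨S ∪ J, union_subset_union_right h2, by rw [card_union_of_disjoint h4]; omega,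
        Or.inl subset_union_left, Or.inl ?_⟩
      rwa [sum_union h4]
  · refine (expect_le_expect fun ω _ => (ind_or_le _ _).trans
      (add_le_add le_rfl (ind_le_sum_U1 e _))).trans ?_
    rw [expect_add_distrib, expect_sum_comm]
    refine add_le_add (le_of_eq ?_) ?_
    · rw [← univ_product_univ, expect_product, ← expect_const
        (univ_nonempty (α := Fin n → ZMod N)) (1 / (M : ℝ))]
      refine expect_congr rfl fun h _ => ?_
      rw [expect_update (∑ x ∈ e, h x)]
      simp only [Function.update_self, expect_const univ_nonempty, av_zero]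
    · refine (sum_le_card_nsmul _ _ ((m.choose j : ℝ) ^ 2 / N + N * (1 - 1 / M : ℝ) ^ m.choose j)
        fun s hs => ?_).trans (le_of_eq ?_)
      · have h1 := bad_U1 (A := ZMod N) M j (e.erase s)
        rwa [card_erase_of_mem hs, he, Nat.add_sub_cancel, ZMod.card] at h1
      · rw [he, nsmul_eq_mul]
        push_cast
        rfl

lemma le_choose_U1 {k i : ℕ} (hi : 1 ≤ i) (hk : i < k) : k ≤ k.choose i := by
  induction k with
  | zero => omega
  | succ k ih =>
    obtain ⟨r, rfl⟩ : ∃ r, i = r + 1 := ⟨i - 1, by omega⟩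
    rcases Nat.lt_or_ge (r + 1) k with h | h
    · have h1 := ih h
      have h2 := Nat.choose_pos (show r ≤ k by omega)
      rw [Nat.choose_succ_succ']
      omega
    · obtain rfl : k = r + 1 := by omega
      rw [Nat.choose_succ_self_right]

/-- the logarithmic upper bound, for all `i` -/
theorem upper_log {m i : ℕ} (hi : 2 ≤ i) (him : i ≤ m) {p : ℝ}
    (hp : Tendsto (fun n : ℕ => (exF (m + 1) i n : ℝ) / n.choose (m + 1)) atTop (𝓝 p)) :
    (1 - p) * m.choose (i - 1) ≤ 14 * Real.log ((m + 1).choose i) := by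
  obtain ⟨R, rfl⟩ : ∃ R, i = R + 1 := ⟨i - 1, by omega⟩
  rw [Nat.add_sub_cancel]
  have hp0 : 0 ≤ p := ge_of_tendsto' hp fun n => by positivity
  set C := m.choose R with hC
  set W : ℝ := (((m + 1).choose (R + 1) : ℕ) : ℝ) with hW
  have hC1 : (1 : ℝ) ≤ C := by exact_mod_cast Nat.choose_pos (show R ≤ m by omega)
  have hCW : (C : ℝ) ≤ W := by
    rw [hW, Nat.choose_succ_succ']
    exact_mod_cast Nat.le_add_right _ _
  have hm : (2 : ℝ) ≤ m := by exact_mod_cast hi.trans him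
  have hkW : (m : ℝ) + 1 ≤ W := by
    rw [hW]
    exact_mod_cast le_choose_U1 (k := m + 1) (i := R + 1) (by omega) (by omega)
  have hW1 : 1 ≤ Real.log W := by
    rw [Real.le_log_iff_exp_le (by linarith)]
    linarith [Real.exp_one_lt_d9]
  set L := Real.log (((m : ℝ) + 1) ^ 2 * C ^ 4) with hL
  have hL1 : L ≤ 6 * Real.log W := by
    rw [hL, show (6 : ℝ) = (6 : ℕ) by norm_num, ← Real.log_pow, show 6 = 2 + 4 from rfl, pow_add]
    refine Real.log_le_log (by positivity) ?_
    gcongr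
  have hL0 : 0 < L := Real.log_pos (by nlinarith [one_le_pow₀ (n := 4) hC1])
  rcases le_or_gt (C : ℝ) (2 * L) with h | h
  · nlinarith
  set M := ⌊C / L⌋₊ with hM
  have hM1 : (M : ℝ) ≤ C / L := Nat.floor_le (by positivity)
  have hM2 : C / L < M + 1 := Nat.lt_floor_add_one _
  have hM3 : 1 ≤ M := Nat.le_floor (by rw [le_div_iff₀ hL0]; push_cast; linarith)
  have hM4 : (1 : ℝ) ≤ M := by exact_mod_cast hM3
  have : NeZero M := ⟨by omega⟩
  have : NeZero ((m + 1) * C ^ 3) := ⟨by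
    have : 0 < C := by exact_mod_cast (show (0 : ℝ) < C by linarith)
    positivity⟩
  have h1 := hash_U1 (j := m - R) (by omega) (by omega) hp ((m + 1) * C ^ 3) M
  rw [Nat.choose_symm (by omega), ← hC] at h1
  have h2 : (1 - 1 / M : ℝ) ^ C ≤ (((m : ℝ) + 1) ^ 2 * C ^ 4)⁻¹ := by
    have h4 : (0 : ℝ) ≤ 1 - 1 / M := by
      rw [sub_nonneg, div_le_one (by linarith)]; exact hM4
    refine (pow_le_pow_left₀ h4 (Real.one_sub_le_exp_neg _) _).trans ?_
    rw [← Real.exp_nat_mul, ← Real.exp_log (show 0 < ((m : ℝ) + 1) ^ 2 * C ^ 4 by positivity),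
      ← hL, ← Real.exp_neg, Real.exp_le_exp, mul_neg, neg_le_neg_iff, mul_one_div,
      le_div_iff₀ (by linarith)]
    rw [le_div_iff₀ hL0] at hM1
    linarith
  have h3 : 1 - p ≤ 1 / M + 2 / C := by
    refine h1.trans (add_le_add le_rfl ?_)
    push_cast
    calc _ ≤ ((m : ℝ) + 1) * ((C : ℝ) ^ 2 / ((m + 1) * C ^ 3)
          + (m + 1) * C ^ 3 * (((m : ℝ) + 1) ^ 2 * C ^ 4)⁻¹) := by gcongr
      _ = _ := by field_simp; ring
  have h4 : (1 : ℝ) / M * C ≤ 2 * L := by
    rw [div_mul_eq_mul_div, one_mul, div_le_iff₀ (by linarith)]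
    rw [div_lt_iff₀ hL0] at hM2
    nlinarith
  calc (1 - p) * C ≤ (1 / M + 2 / C) * C := by gcongr
    _ = 1 / M * C + 2 := by field_simp
    _ ≤ _ := by linarith

end Pool.Agent.P.MP_7badbe_co
end

-- part Pool.Agent.P.MP_7badbe_co.Un.U2
section

set_option autoImplicit false

open Finset Filter Topology
open scoped BigOperators

namespace Pool.Agent.P.MP_7badbe_co

lemma choose_ge_U2 {R k y : ℕ} (hy : (k : ℝ) * (1 - 1 / (2 * (R + 1))) ≤ y) :
    (k : ℝ) ^ R / (2 * R.factorial) ≤ (y + R).choose R := by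
  have h1 := Nat.pow_le_choose (α := ℝ) R (y + R)
  rw [show y + R + 1 - R = y + 1 by omega] at h1
  refine le_trans ?_ h1
  have h2 : (1 : ℝ) / (2 * (R + 1)) ≤ 1 / 2 :=
    one_div_le_one_div_of_le (by norm_num) (by nlinarith [Nat.cast_nonneg (α := ℝ) R])
  have h3 : (1 : ℝ) / 2 ≤ (1 - 1 / (2 * (R + 1))) ^ R := by
    have h4 := one_add_mul_le_pow (a := -(1 / (2 * ((R : ℝ) + 1)))) (by linarith) R
    rw [← sub_eq_add_neg] at h4
    refine le_trans ?_ h4
    have h5 : (R : ℝ) * (1 / (2 * (R + 1))) ≤ 1 / 2 := by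
      rw [mul_one_div, div_le_div_iff₀ (by positivity) (by norm_num)]
      linarith
    linarith
  have h6 : (k : ℝ) ^ R * (1 / 2) ≤ ((y + 1 : ℕ) : ℝ) ^ R := by
    refine (mul_le_mul_of_nonneg_left h3 (by positivity)).trans ?_
    rw [← mul_pow]
    refine pow_le_pow_left₀ (mul_nonneg (by positivity) (by linarith)) (hy.trans ?_) _
    exact_mod_cast Nat.le_succ y
  calc _ = (k : ℝ) ^ R * (1 / 2) / R.factorial := by ring
    _ ≤ _ := by gcongr

theorem AS_unif (V : Type) [Fintype V] [DecidableEq V] {R : ℕ} (hR : 1 ≤ R) {L : ℝ}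
    (hL : L = Real.log (4 * (4 * (R + 1)) ^ 4)) (k : ℕ) (hk : (4 * (R + 1)) ^ 3 ≤ k) :
    AS V R k (8 * (2 * R + 3) * L * R.factorial / (k : ℝ) ^ R) 0 := by
  induction k using Nat.strong_induction_on with
  | _ k ih =>
  obtain ⟨D, hD⟩ : ∃ D : ℕ, D = 4 * (R + 1) := ⟨_, rfl⟩
  have hD' : (4 * (R + 1) : ℝ) = D := by rw [hD]; push_cast; rfl
  rw [← hD] at hk ih
  rw [hD'] at hL
  have hR1 : (1 : ℝ) ≤ R := by exact_mod_cast hR
  have hD8 : (8 : ℝ) ≤ D := by linarith
  have hD1 : (1 : ℝ) ≤ (D : ℝ) ^ 4 := one_le_pow₀ (by linarith)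
  have hL1 : 1 ≤ L := by
    rw [hL, Real.le_log_iff_exp_le (by positivity)]
    linarith [Real.exp_one_lt_d9]
  have hF : (1 : ℝ) ≤ R.factorial := by exact_mod_cast R.factorial_pos
  have hD0 : 0 < D := by omega
  set s := k / D with hs
  have hs1 : D * s ≤ k := Nat.mul_div_le _ _
  have hs2 : k < D * (s + 1) := Nat.lt_mul_div_succ _ hD0
  have hs3 : D * D ≤ s := (Nat.le_div_iff_mul_le hD0).2 (by rw [← pow_three']; exact hk)
  have hs4 : R * (R + 4) ≤ s := le_trans (Nat.mul_le_mul (by omega) (by omega)) hs3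
  have hk0 : (0 : ℝ) < k := by
    have : 0 < k := lt_of_lt_of_le (by positivity) hk
    exact_mod_cast this
  have triv : ∀ t, R * (R + 4) ≤ t → AS V R t (R + 2) 0 := fun t ht =>
    (AS_of_RT (RT_one V 0 R)).mono (by nlinarith) (by rw [mul_one]) le_rfl
  obtain ⟨y, hy⟩ : ∃ y, k = y + s + R * (R + 3) := ⟨k - s - R * (R + 3), by
    have : 8 * s ≤ D * s := Nat.mul_le_mul_right _ (by omega)
    have : R * (R + 3) ≤ R * (R + 4) := Nat.mul_le_mul_left _ (by omega)
    omega⟩
  have hy1 : (k : ℝ) * (1 - 1 / (2 * (R + 1))) ≤ y := by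
    have h1 : (k : ℝ) ≤ y + 2 * s := by
      have : R * (R + 3) ≤ R * (R + 4) := Nat.mul_le_mul_left _ (by omega)
      exact_mod_cast (show k ≤ y + 2 * s by omega)
    have h2 : (D : ℝ) * s ≤ k := by exact_mod_cast hs1
    have h3 : 2 * (s : ℝ) ≤ k * (1 / (2 * (R + 1))) := by
      rw [mul_one_div, le_div_iff₀ (by positivity)]
      rw [← hD'] at h2
      linarith
    linarith
  have hN := choose_ge_U2 hy1
  set N := (y + R).choose R with hN'
  rw [div_le_iff₀ (by positivity)] at hN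
  rcases le_or_gt (N : ℝ) (2 * L) with h | h
  · refine (triv k (hs4.trans (Nat.div_le_self _ _))).mono le_rfl ?_ le_rfl
    rw [le_div_iff₀ (by positivity)]
    calc _ ≤ ((R : ℝ) + 2) * (2 * L * (2 * R.factorial)) := by
          refine mul_le_mul_of_nonneg_left (hN.trans ?_) (by positivity)
          gcongr
      _ = (4 * (R + 2)) * (L * R.factorial) := by ring
      _ ≤ (8 * (2 * R + 3)) * (L * R.factorial) :=
          mul_le_mul_of_nonneg_right (by linarith) (by positivity)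
      _ = _ := by ring
  have hL0 : 0 < L := by linarith
  set M := ⌊N / L⌋₊ with hM
  have hM1 : (M : ℝ) ≤ N / L := Nat.floor_le (by positivity)
  have hM2 : N / L < M + 1 := Nat.lt_floor_add_one _
  have hM3 : 1 ≤ M := Nat.le_floor (by rw [le_div_iff₀ hL0]; push_cast; linarith)
  have hM4 : (1 : ℝ) ≤ M := by exact_mod_cast hM3
  have : NeZero M := ⟨by omega⟩
  set B : ℝ := 8 * (2 * R + 3) * L * R.factorial with hB
  have hB0 : (R : ℝ) + 2 ≤ B := by
    have h1 : (1 : ℝ) ≤ L * R.factorial := one_le_mul_of_one_le_of_one_le hL1 hF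
    rw [hB, mul_assoc]
    nlinarith
  have hq : AS V R s (B * ((D : ℝ) ^ 4) ^ R / (k : ℝ) ^ R) 0 := by
    rcases le_or_gt (D ^ 3) s with h1 | h1
    · refine (ih s (Nat.div_lt_self (by exact_mod_cast hk0) (by omega)) h1).mono le_rfl ?_ le_rfl
      have hs0 : (1 : ℝ) ≤ s := by exact_mod_cast le_trans (Nat.mul_pos hD0 hD0) hs3
      rw [mul_div_assoc B, ← div_pow, div_eq_mul_inv B, ← inv_pow]
      refine mul_le_mul_of_nonneg_left (pow_le_pow_left₀ (by positivity) ?_ _) (by linarith)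
      rw [inv_eq_one_div, div_le_div_iff₀ (by linarith) hk0, one_mul]
      have h2 : (k : ℝ) ≤ D * (s + 1) := by exact_mod_cast hs2.le
      have h3 : (2 : ℝ) ≤ (D : ℝ) ^ 3 := le_trans (by norm_num)
        (pow_le_pow_left₀ (by norm_num) hD8 3)
      calc (k : ℝ) ≤ D * (2 * s) := h2.trans (mul_le_mul_of_nonneg_left (by linarith) (by linarith))
        _ ≤ D * ((D : ℝ) ^ 3 * s) := by gcongr
        _ = _ := by ring
    · refine (triv s hs4).mono le_rfl (hB0.trans ?_) le_rfl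
      rw [mul_div_assoc B, ← div_pow]
      refine le_mul_of_one_le_right (by linarith) (one_le_pow₀ ?_)
      rw [le_div_iff₀ hk0, one_mul]
      exact_mod_cast (show k ≤ D ^ 4 from hs2.le.trans (by
        rw [pow_succ' D 3]; exact Nat.mul_le_mul_left _ h1))
  have h2 := (AS_hash V M (y + R * (R + 2)) R (x := 1 / (4 * (D : ℝ) ^ 4)) (by positivity)
    (by rw [div_le_one (by positivity)]; linarith) ?_).repair hq (by positivity)
  · rw [mul_zero] at h2
    refine h2.mono (le_of_eq (by rw [hy]; ring)) ?_ le_rfl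
    have h3 : (2 * R + 3 : ℝ) / M ≤ B / 2 / (k : ℝ) ^ R := by
      rw [div_le_div_iff₀ (by linarith) (by positivity)]
      rw [div_lt_iff₀ hL0] at hM2
      have h4 : (N : ℝ) ≤ 2 * M * L := by nlinarith
      calc _ ≤ (2 * R + 3 : ℝ) * (2 * M * L * (2 * R.factorial)) := by
            refine mul_le_mul_of_nonneg_left (hN.trans ?_) (by positivity)
            gcongr
        _ = _ := by rw [hB]; ring
    have h4 : 2 ^ (2 * R + 3) * (1 / (4 * (D : ℝ) ^ 4)) ^ (R + 2) *
        (B * ((D : ℝ) ^ 4) ^ R / (k : ℝ) ^ R) = B / 2 / (k : ℝ) ^ R / ((D : ℝ) ^ 4) ^ 2 := by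
      generalize (D : ℝ) ^ 4 = E at hD1
      rw [one_div, inv_pow, mul_pow, pow_add, pow_mul, pow_add, pow_add]
      field_simp
      norm_num
      exact Or.inl (mul_comm _ _)
    have h5 : B / 2 / (k : ℝ) ^ R / ((D : ℝ) ^ 4) ^ 2 ≤ B / 2 / (k : ℝ) ^ R :=
      div_le_self (div_nonneg (by linarith) (by positivity)) (one_le_pow₀ hD1)
    rw [h4]
    calc _ ≤ B / 2 / (k : ℝ) ^ R + B / 2 / (k : ℝ) ^ R := add_le_add h3 h5
      _ = _ := by ring
  · rw [show y + R * (R + 2) + R - (R + 2) * R = y + R from Nat.sub_eq_of_eq_add (by ring), ← hN']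
    have h4 : (0 : ℝ) ≤ 1 - 1 / M := by
      rw [sub_nonneg, div_le_one (by linarith)]; exact hM4
    refine (pow_le_pow_left₀ h4 (Real.one_sub_le_exp_neg _) _).trans ?_
    rw [← Real.exp_nat_mul, one_div (4 * _), ← Real.exp_log (show (0 : ℝ) < 4 * (D : ℝ) ^ 4 by
      positivity), ← hL, ← Real.exp_neg, Real.exp_le_exp, mul_neg, neg_le_neg_iff, mul_one_div,
      le_div_iff₀ (by linarith)]
    rw [le_div_iff₀ hL0] at hM1
    linarith

/-- the bound `i log i`, for all `k` -/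
theorem upper_ilog {m i : ℕ} (hi : 2 ≤ i) (him : i ≤ m) {p : ℝ}
    (hp : Tendsto (fun n : ℕ => (exF (m + 1) i n : ℝ) / n.choose (m + 1)) atTop (𝓝 p)) :
    (1 - p) * m.choose (i - 1) ≤ 360 * (i * Real.log i) := by
  have hi2 : (2 : ℝ) ≤ i := by exact_mod_cast hi
  have hl0 : 0 < Real.log i := Real.log_pos (by linarith)
  have hl4 : Real.log 4 ≤ 2 * Real.log i := by
    rw [show (2 : ℝ) = (2 : ℕ) by norm_num, ← Real.log_pow]
    exact Real.log_le_log (by norm_num) (by nlinarith)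
  have hl : Real.log (4 * i) ≤ 3 * Real.log i := by
    rw [Real.log_mul (by norm_num) (by linarith)]
    linarith
  rcases le_or_gt ((4 * i) ^ 3) (m + 1) with h | h
  · obtain ⟨R, rfl⟩ : ∃ R, i = R + 1 := ⟨i - 1, by omega⟩
    have h1 := upper_AS hp fun n => AS_unif (Fin n) (by omega) rfl (m + 1) h
    have h2 : (m.choose R : ℝ) ≤ ((m + 1 : ℕ) : ℝ) ^ R / R.factorial :=
      (Nat.cast_le.2 (Nat.choose_le_choose R (Nat.le_succ m))).trans (Nat.choose_le_pow_div R _)
    push_cast at hi2 hl0 hl4 hl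
    have h3 : Real.log (4 * (4 * ((R : ℝ) + 1)) ^ 4) ≤ 15 * Real.log (R + 1) := by
      rw [Real.log_mul (by norm_num) (by positivity), Real.log_pow]
      push_cast
      linarith
    have h4 : 0 ≤ Real.log (4 * (4 * ((R : ℝ) + 1)) ^ 4) :=
      Real.log_nonneg (by nlinarith [one_le_pow₀ (n := 4) (show 1 ≤ 4 * ((R : ℝ) + 1) by linarith)])
    rw [Nat.add_sub_cancel]
    generalize Real.log (4 * (4 * ((R : ℝ) + 1)) ^ 4) = L at h1 h3 h4
    calc _ ≤ 8 * (2 * R + 3) * L * R.factorial / ((m + 1 : ℕ) : ℝ) ^ R *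
          (((m + 1 : ℕ) : ℝ) ^ R / R.factorial) :=
          (mul_le_mul_of_nonneg_right h1 (by positivity)).trans
            (mul_le_mul_of_nonneg_left h2 (by positivity))
      _ = 8 * (2 * R + 3) * L := by field_simp
      _ ≤ 8 * (3 * (R + 1)) * (15 * Real.log (R + 1)) := by gcongr; linarith
      _ = _ := by push_cast; ring
  · refine (upper_log hi him hp).trans ?_
    have h1 : (((m + 1).choose i : ℕ) : ℝ) ≤ ((4 * (i : ℝ)) ^ 3) ^ i := by
      exact_mod_cast (Nat.choose_le_pow (m + 1) i).trans (Nat.pow_le_pow_left h.le i)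
    have h2 := Real.log_le_log (by exact_mod_cast Nat.choose_pos (by omega)) h1
    rw [Real.log_pow, Real.log_pow] at h2
    push_cast at h2
    nlinarith [mul_le_mul_of_nonneg_left hl (show (0 : ℝ) ≤ i by linarith), mul_pos
      (show (0 : ℝ) < i by linarith) hl0]

/-- the upper half of the uniform estimate -/
theorem upper_unif {m i : ℕ} (hi : 2 ≤ i) (him : i ≤ m) {p : ℝ}
    (hp : Tendsto (fun n : ℕ => (exF (m + 1) i n : ℝ) / n.choose (m + 1)) atTop (𝓝 p)) :
    (1 - p) * m.choose (i - 1) ≤ 360 * min (i * Real.log i) (Real.log ((m + 1).choose i)) := by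
  rw [mul_min_of_nonneg _ _ (by norm_num : (0 : ℝ) ≤ 360)]
  refine le_min (upper_ilog hi him hp) ((upper_log hi him hp).trans ?_)
  have := Real.log_natCast_nonneg ((m + 1).choose i)
  linarith

end Pool.Agent.P.MP_7badbe_co
end
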